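import Pool.Agent.Lib.MP_557161_ag.MC.StW

/-!
Generic points of affine bundles.
-/

namespace Pool.Agent.Lib.MP_557161_ag.HG.MC

open Pool.Agent.Lib.MP_557161_ag.DL

variable [Rk] {K : Type} [Field K] {c : Cd} {Γ : Wt c} {Λ : Type} [Fintype Λ] {ω : Λ → Tr → ℤ}
  {S : QS K Γ}

namespace ADa

omit [Rk] in
lemma gen_l {L M : Fld K} (α : L →ₐ[K] M) {κ : Type} (T : κ → M) (a : L) : α a ∈ gen α T :=
  IntermediateField.subset_adjoin _ _ (.inl ⟨a, rfl⟩)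

omit [Rk] in
lemma gen_r {L M : Fld K} (α : L →ₐ[K] M) {κ : Type} (T : κ → M) (i : κ) : T i ∈ gen α T :=
  IntermediateField.subset_adjoin _ _ (.inr ⟨i, rfl⟩)

omit [Rk] in
lemma gen_le {L M : Fld K} (α : L →ₐ[K] M) {κ κ' : Type} {T : κ → M} {T' : κ' → M}
    (h : ∀ i, T i ∈ gen α T') : gen α T ≤ gen α T' := by
  refine IntermediateField.adjoin_le_iff.2 ?_
  rintro _ (⟨a, rfl⟩ | ⟨i, rfl⟩)
  exacts [gen_l α T' a, h i]

lemma free {T : QS K (Γ.prod (.vec ω))} {r : ℕ} (E : AB S T r) {j : ℕ} {L M : Fld K}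
    {α : L →ₐ[K] M} {b : c.X L} {p : Λ → M} (i : E.ι) (hb : (E.U i).mem L b) :
    GenA T r j α b p ↔ T.mem M (c.map α b, p) ∧ Free j α fun k => p (E.e i k) := by
  have hb' : (E.U i).mem M (c.map α b) := ((E.U i).S.map_iff α b).2 hb
  refine ⟨fun h => ⟨h.mem, h.gL, (E.card i).symm ▸ h.gM, top_le_iff.1 (h.top.ge.trans ?_)⟩,
    fun h => ⟨h.2.gL, E.card i ▸ h.2.gM, top_le_iff.1 (h.2.top.ge.trans ?_), h.1⟩⟩
  · refine gen_le α fun μ => ?_
    have := (E.reg i).all_sub (gen α fun k => p (E.e i k))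
      (x := (c.map α b, fun k => p (E.e i k))) ⟨hb', trivial⟩
      ⟨(c.all_iff _ _).2 fun l => by rw [c.co_map]; exact gen_l α _ _, gen_r α _⟩ μ
    exact (congrFun (E.uq i M _ p hb' h.mem) μ).symm ▸ this
  · exact gen_le α fun k => gen_r α p _

/-- The trivial atlas. -/
def sb (ω : Λ → Tr → ℤ) (S : QS K Γ) {r : ℕ} (h : Fintype.card Λ = r) : AB S (S.pu (.vec ω)) r where
  sub _ _ m := m.1
  ι := Unit
  U _ := S
  usub _ _ _ m := m
  opn _ _ _ _ _ _ m _ _ := m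
  cov _ _ m := ⟨(), m⟩
  κ _ := Λ
  card _ := Nat.card_eq_fintype_card.trans h
  e _ := id
  τ _ _ _ t := t
  reg _ _ _ _ _ _ _ _ e := e.2
  mem _ _ _ _ m := ⟨m, trivial⟩
  co _ _ _ _ _ _ := rfl
  uq _ _ _ _ _ _ := rfl

variable {γ : Fin 2 → Tr → ℤ} (k : K2 S Λ ω γ)

lemma mnr_hom (μ ν : Λ) : Hom S (γ 0 - ω μ + (γ 1 - ω ν)) fun L b => mnr (k.n L b) μ ν where
  reg _ _ R _ _ m m' e :=
    Rel.sub (R.mul ((k.hom 0 μ).reg R m m' e) ((k.hom 1 ν).reg R m m' e))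
      (R.mul ((k.hom 0 ν).reg R m m' e) ((k.hom 1 μ).reg R m m' e))
  hom L a x h0 m := by
    have e : wt a (γ 0 - ω ν) * wt a (γ 1 - ω μ) = wt a (γ 0 - ω μ) * wt a (γ 1 - ω ν) := by
      rw [← wt_add h0, ← wt_add h0]
      exact congrArg _ (by abel)
    simp only [mnr]
    rw [(k.hom 0 μ).hom L a x h0 m, (k.hom 1 ν).hom L a x h0 m, (k.hom 0 ν).hom L a x h0 m,
      (k.hom 1 μ).hom L a x h0 m, wt_add h0]
    linear_combination (-(k.n L x 0 ν * k.n L x 1 μ)) * e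

/-- The set where a given minor does not vanish. -/
def ch (μ ν : Λ) : QS K Γ :=
  S.sub (S.S.opn (fun L b => mnr (k.n L b) μ ν ≠ 0) fun _ _ R _ _ m m' e h =>
      Rel.ne_zero ((mnr_hom k μ ν).reg R m m' e) h)
    (fun _ _ m => m.1) fun L a x h0 m => ⟨S.inv L a x h0 m.1,
      ((mnr_hom k μ ν).hom L a x h0 m.1).trans_ne (mul_ne_zero (wt_ne h0 _) m.2)⟩

/-- The remaining indices. -/
abbrev Re (μ ν : Λ) : Type := {l : Λ // l ≠ μ ∧ l ≠ ν}

open Classical in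
/-- The solution of the two linear equations. -/
noncomputable def sol (μ ν : Λ) {L : Type} [Field L] (n : Fin 2 → Λ → L) (t : Re μ ν → L)
    (a : Λ) : L :=
  if h : a = μ then ((∑ l : Re μ ν, n 1 l * t l) * n 0 ν - (∑ l : Re μ ν, n 0 l * t l) * n 1 ν) /
    mnr n μ ν
  else if h' : a = ν then ((∑ l : Re μ ν, n 0 l * t l) * n 1 μ -
    (∑ l : Re μ ν, n 1 l * t l) * n 0 μ) / mnr n μ ν
  else t ⟨a, h, h'⟩

open Classical in
lemma sum_eq {μ ν : Λ} (h : μ ≠ ν) {A : Type} [AddCommMonoid A] (f : Λ → A) :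
    ∑ a, f a = f μ + (f ν + ∑ l : Re μ ν, f l) := by
  rw [← Finset.add_sum_erase _ f (Finset.mem_univ μ),
    ← Finset.add_sum_erase _ f (Finset.mem_erase.2 ⟨h.symm, Finset.mem_univ ν⟩),
    Finset.sum_subtype (p := fun l => l ≠ μ ∧ l ≠ ν) _ (fun _ => by simp [and_comm]) f]

variable {μ ν : Λ} {L : Type} [Field L] {n : Fin 2 → Λ → L}

lemma sol_ne (t : Re μ ν → L) (l : Re μ ν) : sol μ ν n t l = t l :=
  (dif_neg l.2.1).trans (dif_neg l.2.2)

lemma sol_sum (e : μ ≠ ν) (h : mnr n μ ν ≠ 0) (t : Re μ ν → L) (r : Fin 2) :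
    ∑ a, n r a * sol μ ν n t a = 0 := by
  rw [sum_eq e]
  simp only [sol_ne]
  rw [sol, dif_pos rfl, sol, dif_neg e.symm, dif_pos rfl]
  field_simp
  simp only [mnr]
  fin_cases r
  · simp only [Fin.zero_eta]
    ring
  · simp only [Fin.mk_one]
    ring

lemma sol_uq {p : Λ → L} (e : μ ≠ ν) (h : mnr n μ ν ≠ 0) (h' : ∀ r, ∑ a, n r a * p a = 0) :
    p = sol μ ν n fun l => p l := by
  have h0 := h' 0
  have h1 := h' 1
  rw [sum_eq e] at h0 h1
  funext a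
  unfold sol
  split_ifs with e1 e2
  · rw [e1, eq_div_iff h, mnr]
    linear_combination n 1 ν * h0 - n 0 ν * h1
  · rw [e2, eq_div_iff h, mnr]
    linear_combination n 0 μ * h1 - n 1 μ * h0
  · rfl

/-- The atlas of the kernel of two independent rows. -/
noncomputable def kb {r : ℕ} (h : Fintype.card Λ = r + 2) : AB S k.tot r where
  sub _ _ m := m.1.1
  ι := {a : Λ × Λ // a.1 ≠ a.2}
  U a := ch k a.1.1 a.1.2
  usub _ _ _ m := m.1
  opn a _ _ R _ _ m m' e := ⟨m, Rel.ne_zero ((mnr_hom k _ _).reg R m m'.1 e) m'.2⟩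
  cov L b m := by
    obtain ⟨μ, ν, h⟩ := k.uni L b m
    exact ⟨⟨(μ, ν), fun e : μ = ν => h (by rw [e, mnr, sub_self])⟩, m, h⟩
  κ a := Re a.1.1 a.1.2
  card a := by
    classical
    have := sum_eq a.2 fun _ => 1
    simp only [Finset.sum_const, Finset.card_univ, smul_eq_mul, mul_one,
      ← Nat.card_eq_fintype_card] at this h
    omega
  e _ := Subtype.val
  τ a L b t := sol a.1.1 a.1.2 (k.n L b) t
  reg a _ _ R x x' m m' e l := by
    have h1 := fun r l => (k.hom r l).reg R m.1.1 m'.1.1 e.1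
    have h2 := (mnr_hom k a.1.1 a.1.2).reg R m.1.1 m'.1.1 e.1
    dsimp only [sol]
    split_ifs
    · exact Rel.div (Rel.sub (R.mul (Rel.sum _ fun l _ => R.mul (h1 1 l) (e.2 l)) (h1 0 _))
        (R.mul (Rel.sum _ fun l _ => R.mul (h1 0 l) (e.2 l)) (h1 1 _))) h2 m'.1.2
    · exact Rel.div (Rel.sub (R.mul (Rel.sum _ fun l _ => R.mul (h1 0 l) (e.2 l)) (h1 1 _))
        (R.mul (Rel.sum _ fun l _ => R.mul (h1 1 l) (e.2 l)) (h1 0 _))) h2 m'.1.2
    · exact e.2 _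
  mem a _ _ t m := ⟨⟨m.1, trivial⟩, sol_sum a.2 m.2 t⟩
  co _ _ _ t l _ := sol_ne t l
  uq a _ _ _ m m' := sol_uq a.2 m.2 m'.2

end ADa

/-- Generic points of affine bundles. -/
theorem AD_thm [FW0 K] [WB K] : AD K where
  free := ADa.free
  ex := fun {c _ _ _ _ _ _ _} E {_ L b} hL hb => by
    obtain ⟨i, hi⟩ := E.cov L b hb
    have hi' : (E.U i).mem _ (c.map (frα L (E.κ i)) b) := ((E.U i).S.map_iff _ b).2 hi
    refine ⟨_, frα L (E.κ i), E.τ i _ (c.map (frα L (E.κ i)) b) (frT L (E.κ i)),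
      (ADa.free E i hi).2 ⟨E.mem i _ _ _ hi', ?_⟩⟩
    simp only [E.co i _ _ _ _ hi']
    exact FA1.fr_free _ hL
  low := fun {c _ Λ _ _ _ _ r} E {j m} θ {L b} p hb hm => by
    by_contra h0
    have hT := (WB.mem θ h0).2
    obtain ⟨i, hi⟩ := E.cov L b (E.sub L _ hT)
    have hr : Reg ((E.U i).S.prod (.univ K (.vec (E.κ i)))) (c.prod (.vec Λ))
        fun L x => (x.1, E.τ i L x.1 x.2) := fun _ _ R _ _ a a' e => ⟨e.1, E.reg i R a a' e⟩
    have := FA3.dm_reg (x := (b, fun k => p (E.e i k))) hr ⟨hi, trivial⟩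
      (FA3.dm_pair hb (FA3.dm_vec _))
    rw [E.card i] at this
    dsimp only at this
    rw [← E.uq i L b p hi hT] at this
    exact h0 (WB.low θ this (by omega))
  sb ω S _ h := ⟨ADa.sb ω S h⟩
  kb k _ h := ⟨ADa.kb k h⟩

end Pool.Agent.Lib.MP_557161_ag.HG.MC
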