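import Pool.Agent.Lib.MP_557161_ag.DL.Defs2

/-!
The closure of the double cover `z ^ 2 = lam + x 1 + ... + x D + 1 / (x 1 ... x D)` of a torus in a
projective embedding by monomials.
-/

namespace Pool.Agent.Lib.MP_557161_ag.HG.MC

open MvPolynomial

variable {k : Type} [Field k]

/-- The equation `(∏ x i) (z ^ 2 - lam - ∑ x i) - 1` in the variables `T = X none`,
`z = X (some none)`, `x i = X (some (some i))`. -/
noncomputable def mcF (D : ℕ) (lam : k) : MvPolynomial (Option (Option (Fin D))) k :=
  (∏ i, X (some (some i))) * (X (some none) ^ 2 - C lam - ∑ i, X (some (some i))) - 1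

/-- The homogeneous ideal of the closure of the image under the monomials in `z, x` with exponents
`m s`: the kernel of `k[N] → k[T, z, x] / (mcF)`, `N s ↦ T * (z, x) ^ m s`. -/
noncomputable def mcI {D : ℕ} {σ : Type} (m : σ → Option (Fin D) → ℕ) (lam : k) :
    Ideal (MvPolynomial σ k) :=
  (Ideal.span {mcF D lam}).comap (aeval (R := k) fun s => X none * ∏ l, X (some l) ^ m s l)

end Pool.Agent.Lib.MP_557161_ag.HG.MC
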