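import Pool.Agent.Lib.MP_557161_ag.MC.MQ

/-!
Smooth projective fans that are adapted to a simplex: definitions and statements.
-/

namespace Pool.Agent.Lib.MP_557161_ag.HG.MC

open Matrix

/-- The indices of the coordinates `z` (`none`) and `x i`. -/
abbrev Jd (D : ℕ) : Type := Option (Fin D)

/-- The indices of the monomials `z ^ 2` (`none`), `1` (`some none`) and `X i`. -/
abbrev Sd (D : ℕ) : Type := Option (Option (Fin (D + 1)))

/-- The exponents of `X 0 = 1 / ∏ x i` and `X (i + 1) = x i`. -/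
def ev (D : ℕ) (i : Fin (D + 1)) : Jd D → ℤ :=
  Fin.cases (fun l => l.elim 0 fun _ => -1) (fun i => Pi.single (some i) 1) i

/-- The exponents of the monomials of the equation. -/
def sp (D : ℕ) (s : Sd D) : Jd D → ℤ := s.elim (Pi.single none 2) fun s => s.elim 0 (ev D)

/-- A complete simplicial fan with a strictly convex support function; every cone lies in a cone of
the normal fan of the points `S`, and the coordinate vector `j₀` is a ray. -/
structure PF {J κ : Type} [Fintype J] [DecidableEq J] (S : κ → J → ℤ) (j₀ : J) where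
  R : Type
  [fR : Fintype R]
  V : Type
  [fV : Fintype V]
  ρ : R → J → ℤ
  c : V → J → R
  φ : R → ℚ
  mv : V → J → ℚ
  ind : ∀ v, (Matrix.of fun i => ρ (c v i)).det ≠ 0
  on : ∀ v i, ∑ j, ρ (c v i) j * mv v j = φ (c v i)
  str : ∀ v r, r ∉ Set.range (c v) → φ r < ∑ j, ρ r j * mv v j
  cov : ∀ w : J → ℚ, ∃ (v : V) (t : J → ℚ), (∀ i, 0 ≤ t i) ∧ ∀ j, w j = ∑ i, t i * ρ (c v i) j
  ad : ∀ v, ∃ s₀, ∀ i s, ρ (c v i) ⬝ᵥ S s₀ ≤ ρ (c v i) ⬝ᵥ S s
  ray : ∃ v i, ρ (c v i) = Pi.single j₀ 1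

attribute [instance] PF.fR PF.fV

/-- The multiplicity of a cone. -/
def PF.mu {J κ : Type} [Fintype J] [DecidableEq J] {S : κ → J → ℤ} {j₀ : J} (P : PF S j₀)
    (v : P.V) : ℕ := (Matrix.of fun i => P.ρ (P.c v i)).det.natAbs

/-- The measure that drops under a star subdivision. -/
def PF.ms {J κ : Type} [Fintype J] [DecidableEq J] {S : κ → J → ℤ} {j₀ : J} (P : PF S j₀) : ℕ :=
  ∑ v, (Fintype.card J + 1) ^ P.mu v

/-- A smooth projective fan with rays `ρ r`, maximal cones `c v` with dual bases `e v`, and points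
`m s` of the polytope `φ r ≤ ρ r ⬝ᵥ m`, among them the vertices and their neighbours. -/
structure Fan (D : ℕ) (R : Type) where
  V : Type
  [fV : Fintype V]
  σ : Type
  [fσ : Fintype σ]
  ρ : R → Jd D → ℤ
  c : V → Jd D → R
  e : V → Jd D → Jd D → ℤ
  dual : ∀ v i j, ρ (c v i) ⬝ᵥ e v j = if i = j then 1 else 0
  m : σ → Jd D → ℕ
  φ : R → ℤ
  ge : ∀ r s, φ r ≤ ρ r ⬝ᵥ fun l => (m s l : ℤ)
  vx : V → σ
  eq : ∀ v r, (ρ r ⬝ᵥ fun l => (m (vx v) l : ℤ)) = φ r ↔ r ∈ Set.range (c v)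
  nb : V → Jd D → σ
  nb_eq : ∀ v i l, (m (nb v i) l : ℤ) = m (vx v) l + e v i l
  conv : ∀ s, ∃ (N : ℕ) (a : V → ℕ), 0 < N ∧ ∑ v, a v = N ∧ ∀ l, N * m s l = ∑ v, a v * m (vx v) l
  ψ : R → ℤ
  le : ∀ r s, ψ r ≤ ρ r ⬝ᵥ sp D s
  ad : ∀ v, ∃ s, ∀ i, ρ (c v i) ⬝ᵥ sp D s = ψ (c v i)
  v0 : V
  z0 : ρ (c v0 none) = Pi.single none 1

attribute [instance] Fan.fV Fan.fσ

namespace Fan

variable {D : ℕ} {R : Type} (F : Fan D R)

/-- The exponents of the monomials of the equation in the homogeneous coordinates. -/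
def ea (r : R) (s : Sd D) : ℕ := (F.ρ r ⬝ᵥ sp D s - F.ψ r).toNat

/-- The exponents of the coordinates of the embedding in the homogeneous coordinates. -/
def eb (r : R) (s : F.σ) : ℕ := ((F.ρ r ⬝ᵥ fun l => (F.m s l : ℤ)) - F.φ r).toNat

lemma ea_eq (r : R) (s : Sd D) : (F.ea r s : ℤ) = F.ρ r ⬝ᵥ sp D s - F.ψ r :=
  Int.toNat_of_nonneg (sub_nonneg.2 (F.le r s))

lemma eb_eq (r : R) (s : F.σ) : (F.eb r s : ℤ) = (F.ρ r ⬝ᵥ fun l => (F.m s l : ℤ)) - F.φ r :=
  Int.toNat_of_nonneg (sub_nonneg.2 (F.ge r s))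

lemma inj (v : F.V) : Function.Injective (F.c v) := fun i j h => by
  have h1 := F.dual v i j
  rw [h, F.dual, if_pos rfl] at h1
  by_contra n
  rw [if_neg n] at h1
  exact one_ne_zero h1

lemma dual' (v : F.V) (l l' : Jd D) :
    ∑ i, F.e v i l * F.ρ (F.c v i) l' = if l = l' then 1 else 0 := by
  have h : (Matrix.of fun i => F.ρ (F.c v i)) * (Matrix.of fun l i => F.e v i l) = 1 := by
    ext i j
    exact (F.dual v i j).trans (Matrix.one_apply).symm
  have h' := Matrix.ext_iff.2 (mul_eq_one_comm.1 h) l l'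
  rwa [Matrix.one_apply] at h'

lemma expand (v : F.V) (r k : Jd D → ℤ) : ∑ i, (r ⬝ᵥ F.e v i) * (F.ρ (F.c v i) ⬝ᵥ k) = r ⬝ᵥ k := by
  have h : ∀ i, (r ⬝ᵥ F.e v i) * (F.ρ (F.c v i) ⬝ᵥ k) =
      ∑ l, ∑ l', r l * k l' * (F.e v i l * F.ρ (F.c v i) l') := fun i => by
    rw [dotProduct, dotProduct, Finset.sum_mul_sum]
    exact Finset.sum_congr rfl fun l _ => Finset.sum_congr rfl fun l' _ => by ring
  simp only [h]
  rw [Finset.sum_comm]
  refine Finset.sum_congr rfl fun l _ => ?_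
  rw [Finset.sum_comm]
  simp only [← Finset.mul_sum, F.dual', mul_ite, mul_one, mul_zero, Finset.sum_ite_eq,
    Finset.mem_univ, if_true]

end Fan

section Cox

variable [Rk]

/-- Half the dimension. -/
abbrev dd : ℕ := Rk.d

/-- The indices of the coordinates of the big torus. -/
abbrev Jx : Type := Jd (2 * dd)

/-- The rays. -/
abbrev Ry : Type := Tr ⊕ Jx

/-- The homogeneous coordinates, and one more coordinate. -/
abbrev Vr : Type := Option Ry

/-- The weights of the coordinates. -/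
def wv (F : Fan (2 * dd) Ry) (l : Vr) : Tr → ℤ :=
  l.elim 0 (Sum.elim (fun τ => Pi.single τ 1) fun j τ => -(F.ρ (.inl τ) ⬝ᵥ F.e F.v0 j))

/-- `u` enumerates the rays that are not in the cone `v`. -/
def Cm (F : Fan (2 * dd) Ry) (v : F.V) (u : Tr → Vr) : Prop :=
  Function.Injective u ∧ ∀ l, l ∈ Set.range u ↔ ∃ r, l = some r ∧ r ∉ Set.range (F.c v)

/-- A fan whose base cone consists of the rays `inr j`. -/
structure TD extends Fan (2 * dd) Ry where
  base : c v0 = Sum.inr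
  cm : ∀ v, ∃ u, Cm toFan v u
  det : ∀ u, (∃ v, Cm toFan v u) → IsUnit (Matrix.of fun r s => wv toFan (u r) s).det
  cvx : Cvx (wv toFan) (fun u => ∃ v, Cm toFan v u) fun l => l ≠ none

lemma wv_rel (F : Fan (2 * dd) Ry) (h : F.c F.v0 = Sum.inr) (k : Jx → ℤ) :
    ∑ r, (F.ρ r ⬝ᵥ k) • wv F (some r) = 0 := by
  funext τ
  have := F.expand F.v0 (F.ρ (.inl τ)) k
  rw [h] at this
  simp only [Finset.sum_apply, Fintype.sum_sum_type, wv, Option.elim, Sum.elim_inl, Sum.elim_inr,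
    Pi.smul_apply, smul_eq_mul, Pi.single_apply, mul_ite, mul_one, mul_zero, Finset.sum_ite_eq,
    Finset.mem_univ, if_true, mul_neg, Finset.sum_neg_distrib, Pi.zero_apply]
  rw [← this, add_neg_eq_zero]
  exact Finset.sum_congr rfl fun _ _ => mul_comm _ _

end Cox

/-- The normal fan of the simplex. -/
class F1 : Prop where
  ex : ∀ D : ℕ, Nonempty (PF (sp D) none)

/-- A lattice point in the fundamental parallelotope. -/
class F2 : Prop where
  pt : ∀ {J : Type} [Fintype J] [DecidableEq J] (A : Matrix J J ℤ), 1 < A.det.natAbs →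
    ∃ (t : J → ℚ) (w : J → ℤ), t ≠ 0 ∧ (∀ i, 0 ≤ t i ∧ t i < 1) ∧ ∀ j, (w j : ℚ) = ∑ i, t i * A i j

/-- The star subdivision. -/
class F3 : Prop where
  step : ∀ {J κ : Type} [Fintype J] [DecidableEq J] {S : κ → J → ℤ} {j₀ : J} (P : PF S j₀)
    (v : P.V), 1 < P.mu v → ∃ P' : PF S j₀, P'.ms < P.ms

/-- Points of the polytope are rational convex combinations of the vertices. -/
class F4 : Prop where
  conv : ∀ {J κ : Type} [Fintype J] [DecidableEq J] {S : κ → J → ℤ} {j₀ : J} (P : PF S j₀)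
    (x : J → ℚ), (∀ r, P.φ r ≤ ∑ j, P.ρ r j * x j) →
    ∃ a : P.V → ℚ, (∀ v, 0 ≤ a v) ∧ ∑ v, a v = 1 ∧ ∀ j, x j = ∑ v, a v * P.mv v j

/-- From a unimodular fan to integral data. -/
class F5 : Prop where
  ex : ∀ {D : ℕ} (P : PF (sp D) none), (∀ v, P.mu v = 1) → Nonempty (Fan D P.R)

/-- The weights of a fan. -/
class F6 : Prop where
  cm : ∀ [Rk] (F : Fan (2 * dd) Ry) (v : F.V), ∃ u, Cm F v u
  det : ∀ [Rk] (F : Fan (2 * dd) Ry), F.c F.v0 = Sum.inr → ∀ u, (∃ v, Cm F v u) →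
    IsUnit (Matrix.of fun r s => wv F (u r) s).det
  cvx : ∀ [Rk] (F : Fan (2 * dd) Ry), F.c F.v0 = Sum.inr →
    Cvx (wv F) (fun u => ∃ v, Cm F v u) fun l => l ≠ none

/-- The fan exists. -/
class F7 : Prop where
  ex : ∀ d : ℕ, ∃ t : ℕ, Nonempty (@TD ⟨t, d⟩)
  gen : ∀ {D : ℕ} {R : Type} (F : Fan D R), AddSubgroup.closure
    (Set.range fun s : F.σ × F.σ => fun l => (F.m s.1 l : ℤ) - F.m s.2 l) = ⊤

end Pool.Agent.Lib.MP_557161_ag.HG.MC
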