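import Pool.Agent.Lib.MP_557161_ag.DW.Count
import Pool.Agent.Lib.MP_557161_ag.DW.Rec

/-!
The slopes of the character sums `∑ χ (lam + ∑ X)` over `∏ X = 1`: definitions and statements.
-/

namespace Pool.Agent.Lib.MP_557161_ag.HG.MC

open Pool.Agent.Lib.MP_557161_ag.DW Polynomial Filter Topology

/-- The monomials `Y i`, `y` (`inr true`) and `W` (`inr false`). -/
abbrev Ka (n : ℕ) : Type := Fin n ⊕ Bool

/-- The relation between the monomials. -/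
def rho (n : ℕ) : Ka n → ℤ := Sum.elim (fun _ => 1) fun b => bif b then -(n : ℤ) else 0

/-- The shift that belongs to the quadratic characters. -/
def hh (n c : ℕ) : Ka n → ℕ := Sum.elim (fun _ => 0) fun _ => c

/-- The exponent of the monomial `s`. -/
def ex {n : ℕ} (p : ℕ) (v v' : Ka n → ℕ) (t : ℕ) (s : Ka n) : ℤ :=
  p * v s - v' s + hh n (p / 2) s + t * rho n s

/-- Extension by zero to negative indices. -/
def ze {R : Type} [Zero R] (e : ℕ → R) (m : ℤ) : R := if 0 ≤ m then e m.toNat else 0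

/-- Truncation. -/
def tc {R : Type} [Zero R] (J : ℕ) (e : ℕ → R) (k : ℕ) : R := if k ≤ J then e k else 0

/-- The entries of the matrix of Dwork, as polynomials in the parameter. -/
noncomputable def Bp {R : Type} [CommRing R] {n : ℕ} (p : ℕ) (e : ℕ → R) (v v' : Ka n → ℕ) :
    R[X] :=
  ∑ t ∈ Finset.range (p * v (.inr true) + p),
    C (∏ s, ze e (ex p v v' t s)) * X ^ (ex p v v' t (.inr true)).toNat

/-- The indices of weight less than `b`. -/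
def Ib (n b : ℕ) : Type := {v : Ka n → ℕ // ∑ s, v s < b ∧ ∃ i, v (.inl i) = 0}

instance (n b : ℕ) : Finite (Ib n b) :=
  Finite.of_injective (fun (v : Ib n b) s => (⟨v.1 s, (Finset.single_le_sum
    (fun _ _ => Nat.zero_le _) (Finset.mem_univ s)).trans_lt v.2.1⟩ : Fin b))
    fun _ _ h => Subtype.ext (funext fun s => congrArg Fin.val (congrFun h s))

noncomputable instance (n b : ℕ) : Fintype (Ib n b) := Fintype.ofFinite _

instance (n b : ℕ) : DecidableEq (Ib n b) :=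
  fun v w => decidable_of_iff (v.1 = w.1) Subtype.ext_iff.symm

/-- The weight of an index. -/
def Ib.w {n b : ℕ} (v : Ib n b) : ℕ := ∑ s, v.1 s

/-- The minor on the indices of weight less than `s`. -/
noncomputable def Hs {R : Type} [CommRing R] (p : ℕ) (e : ℕ → R) (n s : ℕ) : R[X] :=
  (Matrix.of fun v v' : Ib n s => Bp p e v.1 v'.1).det

/-- The matrix of Dwork. -/
noncomputable def Am {R : Type} [CommRing R] (p : ℕ) (θ : ℕ → R) (n b : ℕ) (l : R) :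
    Matrix (Ib n b) (Ib n b) R := Matrix.of fun v v' => (Bp p θ v.1 v'.1).eval l

/-- The product `A (N - 1) * ... * A 0`. -/
def prM {R α : Type} [CommRing R] [Fintype α] [DecidableEq α] (A : ℕ → Matrix α α R) :
    ℕ → Matrix α α R
  | 0 => 1
  | N + 1 => A N * prM A N

/-- The block cyclic matrix. -/
def cyc {R α : Type} [Zero R] (A : ℕ → Matrix α α R) (a : ℕ) :
    Matrix (α × ZMod a) (α × ZMod a) R :=
  Matrix.of fun u u' => if u.2 = u'.2 + 1 then A u'.2.val u.1 u'.1 else 0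

/-- The coefficients of the monomials. -/
def cf {R : Type} [One R] {n : ℕ} (l : R) : Ka n → R :=
  Sum.elim (fun _ => 1) fun b => bif b then l else 1

open Classical in
/-- The truncated character sum over the roots of unity of order `p ^ N - 1`. -/
noncomputable def Tsum {R : Type} [Field R] (p : ℕ) (θ : ℕ → R) (n J : ℕ) (l : ℕ → R) (N : ℕ) : R :=
  ∑ t ∈ (Fintype.piFinset fun _ : Ka n => nthRootsFinset (p ^ N - 1) (1 : R)) with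
      ∏ i, t (.inl i) = t (.inr true) ^ n,
    (t (.inr true) * t (.inr false)) ^ ((p ^ N - 1) / 2) *
      ∏ i ∈ Finset.range N, ∏ s, ∑ k ∈ Finset.range (J + 1), θ k * (cf (l i) s * t s ^ p ^ i) ^ k

/-- The number of points `(X, z)` with `X ^ Q = X` and `z ^ Q = ± z`. -/
noncomputable def cn {K : Type} [Field K] (n : ℕ) (lam : K) (Q : ℕ) (ε : Bool) : ℕ :=
  Nat.card {A : (Fin n → K) × K // ∏ i, A.1 i = 1 ∧ A.2 ^ 2 = ∑ i, A.1 i + lam ∧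
    (∀ i, A.1 i ^ Q = A.1 i) ∧ A.2 ^ Q = bif ε then -A.2 else A.2}

/-- The normalised character sums. -/
noncomputable def xs {K : Type} [Field K] (d : ℕ) (lam : K) (q m : ℕ) : ℚ :=
  ((cn (2 * d + 1) lam (q ^ m) false : ℚ) - cn (2 * d + 1) lam (q ^ m) true) / 2 / ((q : ℚ) ^ d) ^ m

/-- The `p`-adic integers in the `p`-adic complex numbers. -/
noncomputable def zc (p : ℕ) [Fact p.Prime] : ℤ_[p] →+* ℂ_[p] :=
  (algebraMap ℚ_[p] ℂ_[p]).comp PadicInt.Coe.ringHom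

/-- The coefficients of the series of Artin and Hasse. -/
def AH (p : ℕ) [Fact p.Prime] (e : ℕ → ℤ_[p]) : Prop :=
  Theta.Sol (Theta.G ℚ_[p] p) (PowerSeries.mk fun k => (e k : ℚ_[p]))

/-- The lift is additive modulo the maximal ideal. -/
def Te {p : ℕ} [Fact p.Prime] {K : Type} [Field K] (τ : K →*₀ ℂ_[p]) : Prop :=
  (∀ x, x ≠ 0 → ‖τ x‖ = 1) ∧ ∀ x y, ‖τ (x + y) - τ x - τ y‖ < 1

/-- The sum of the multiplicities off `w` and `-w`. -/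
noncomputable def off {F : Type} [Neg F] (ν : F →₀ ℤ) (w : F) : ℤ :=
  (ν.sum fun _ c => c) - ν w - ν (-w)

variable (p : ℕ) [Fact p.Prime]

/-- The series of Artin and Hasse and a zero of its logarithm. -/
class NA : Prop where
  ex : ∃ e, AH p e
  rc : ∀ {e : ℕ → ℤ_[p]}, AH p e → e 0 = 1 ∧
    ∀ k : ℕ, (k : ℤ_[p]) * e k = ∑ i ∈ Finset.range k, if p ^ i ≤ k then e (k - p ^ i) else 0
  gam : ∃ γ : ℂ_[p], ‖γ‖ ^ (p - 1) = (p : ℝ)⁻¹ ∧ HasSum (fun j : ℕ => γ ^ p ^ j / (p : ℂ_[p]) ^ j) 0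

/-- The splitting function of Artin and Hasse. -/
class NB : Prop where
  spl : ∀ {e : ℕ → ℤ_[p]}, AH p e → ∀ {γ : ℂ_[p]}, ‖γ‖ ^ (p - 1) = (p : ℝ)⁻¹ →
    HasSum (fun j : ℕ => γ ^ p ^ j / (p : ℂ_[p]) ^ j) 0 →
    ∀ (K : Type) [Field K] [IsAlgClosed K] [CharP K p], (∀ x : K, ∃ m, 0 < m ∧ x ^ p ^ m = x) →
    ∃ τ : K →*₀ ℂ_[p], Split (fun k => zc p (e k) * γ ^ k) ‖γ‖ τ ∧ Te τ

/-- Triangular decompositions modulo `p`. -/
class NU : Prop where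
  lu : ∀ e : ℕ → ZMod p, e 0 = 1 →
    (∀ k : ℕ, (k : ZMod p) * e k = ∑ i ∈ Finset.range k, if p ^ i ≤ k then e (k - p ^ i) else 0) →
    ∀ c, c < p → ∃ L U : ℕ → ℕ → ZMod p, (∀ a i, a < i → L a i = 0) ∧ (∀ i j, j < i → U i j = 0) ∧
      (∀ a, L a a ≠ 0 ∧ U a a ≠ 0) ∧
      ∀ a j : ℕ, ze e (p * a - j + c) = ∑ i ∈ Finset.range (j + 1), L a i * U i j
  ten : ∀ {F κ α : Type} [Field F] [Fintype κ] [Fintype α] [DecidableEq α] (v : α → κ → ℕ),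
    Function.Injective v → (∀ a u, u ≤ v a → u ∈ Set.range v) → ∀ L U : κ → ℕ → ℕ → F,
    (∀ s a i, a < i → L s a i = 0) → (∀ s i j, j < i → U s i j = 0) →
    (∀ s a, L s a a ≠ 0 ∧ U s a a ≠ 0) → (Matrix.of fun a a' =>
      ∏ s, ∑ i ∈ Finset.range (v a' s + 1), L s (v a s) i * U s i (v a' s)).det ≠ 0

/-- The minors do not vanish modulo `p`. -/
class NH : Prop where
  ne : p ≠ 2 → ∀ {e : ℕ → ℤ_[p]}, AH p e → ∀ n s, 0 < n → s ≤ n →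
    (Hs p e n s).map PadicInt.toZMod ≠ 0

/-- Reduction modulo the maximal ideal. -/
class NR : Prop where
  unit : ∀ {K : Type} [Field K] [Algebra (ZMod p) K] {τ : K →*₀ ℂ_[p]}, Te τ →
    ∀ (P : ℤ_[p][X]) (x : K), aeval x (P.map PadicInt.toZMod) ≠ 0 →
    ∀ i : ℕ, ‖(P.map (zc p)).eval (τ x ^ p ^ i)‖ = 1

omit [Fact p.Prime] in
/-- The trace formula for a lattice. -/
class NT1 : Prop where
  tr : ∀ {R ι α : Type} [Field R] [IsAlgClosed R] [CharZero R] [Fintype ι] [DecidableEq ι]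
    [Fintype α] [DecidableEq α], 2 ≤ p → ∀ (F : ℕ → (ι → ℤ) →₀ R) (e : α → ι → ℤ),
    Function.Injective e → ∀ N, 0 < N →
    (∀ v : ℕ → ι → ℤ, v N = v 0 → (∀ i, i < N → F i ((p : ℤ) • v (i + 1) - v i) ≠ 0) →
      ∀ i, i < N → v i ∈ Set.range e) →
    (∑ t ∈ Fintype.piFinset fun _ : ι => nthRootsFinset (p ^ N - 1) (1 : R),
      ∏ i ∈ Finset.range N, (F i).sum fun m c => c * ∏ j, (t j ^ p ^ i) ^ m j) =
      ((p : R) ^ N - 1) ^ Fintype.card ι *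
        (prM (fun i => Matrix.of fun a a' => F i ((p : ℤ) • e a - e a')) N).trace

omit [Fact p.Prime] in
/-- The trace formula. -/
class NT : Prop where
  tr : ∀ {R : Type} [Field R] [IsAlgClosed R] [CharZero R], Odd p → 1 < p → ∀ (θ : ℕ → R)
    (n J b : ℕ) (l : ℕ → R) (N : ℕ), 0 < n → (n + 2) * J < b → 0 < N →
    Tsum p θ n J l N = ((p : R) ^ N - 1) ^ (n + 1) *
      (prM (fun i => Am p (tc J θ) n b (l i)) N).trace

/-- Block cyclic matrices. -/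
class NC : Prop where
  tr : ∀ {R α : Type} [CommRing R] [Fintype α] [DecidableEq α] (A : ℕ → Matrix α α R) (a : ℕ)
    [NeZero a], (∀ i, A (i + a) = A i) → ∀ N, 0 < N →
    (cyc A a ^ N).trace = if a ∣ N then a * (prM A N).trace else 0
  pw : ∀ {R α : Type} [CommRing R] [Fintype α] [DecidableEq α] (A : ℕ → Matrix α α R) (a : ℕ),
    (∀ i, A (i + a) = A i) → ∀ j, prM A a ^ j = prM A (a * j)
  det : ∀ {R α : Type} [NormedField R] [Fintype α] [DecidableEq α] (A : ℕ → Matrix α α R) (a : ℕ)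
    [NeZero a], ‖(cyc A a).det‖ = ∏ i ∈ Finset.range a, ‖(A i).det‖
  big : ∀ {R α : Type} [NormedField R] [IsUltrametricDist R] [Fintype α] [DecidableEq α]
    (D : α → R) (B : Matrix α α R) (V : α → Prop) [DecidablePred V], (∀ u v, ‖B u v‖ ≤ 1) →
    (∀ u, V u → 1 < ‖D u‖) → (∀ u, ¬ V u → ‖D u‖ < 1) →
    ‖(B.submatrix (Subtype.val : {u // V u} → α) Subtype.val).det‖ = 1 →
    ‖(1 - Matrix.diagonal D * B).det‖ = ∏ u with V u, ‖D u‖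

/-- Uniform bounds. -/
class NG : Prop where
  bd : ∀ C : ℕ → ℕ, ∃ h : ℕ → ℕ, (∀ M : ℕ, ∀ᶠ j in atTop, M * j ≤ h j) ∧
    ∀ (α : Type) [Fintype α] [DecidableEq α] (w : α → ℕ),
    (∀ m, (Finset.univ.filter fun u => w u ≤ m).card ≤ C m) → ∀ (c : ℝ) (M : Matrix α α ℂ_[p]),
    0 < c → c < 1 → (∀ u v, ‖M u v‖ * c ^ w v ≤ c ^ (p * w u)) →
    ∀ j, ‖M.charpolyRev.coeff j‖ ≤ c ^ h j
  cnt : ∀ n b m : ℕ, (Finset.univ.filter fun u : Ib n b => u.w ≤ m).card ≤ (m + 1) ^ (n + 2)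
  ent : ∀ {e : ℕ → ℂ_[p]} {γ l : ℂ_[p]}, p ≠ 2 → (∀ k, ‖e k‖ ≤ 1) → ‖l‖ ≤ 1 →
    ∀ (n J b : ℕ) (v v' : Ib n b), ‖Am p (tc J e) n b l v v'‖ ≤ 1 ∧
      Am p (tc J fun k => e k * γ ^ k) n b l v v' * γ ^ v'.w =
        γ ^ (p * v.w + (p - 1)) * Am p (tc J e) n b l v v'
  mul : ∀ {α : Type} [Fintype α] [DecidableEq α] (w : α → ℕ) (c : ℝ) (A : ℕ → Matrix α α ℂ_[p]),
    0 < c → c < 1 → (∀ i u v, ‖A i u v‖ * c ^ w v ≤ c ^ (p * w u)) →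
    ∀ N, 0 < N → ∀ u v, ‖prM A N u v‖ * c ^ w v ≤ c ^ (p * w u)

/-- The size of the characteristic series. -/
class ND : Prop where
  val : p ≠ 2 → ∀ (e : ℕ → ℤ_[p]) {γ : ℂ_[p]}, ‖γ‖ ^ (p - 1) = (p : ℝ)⁻¹ →
    ∀ (n s a : ℕ) [NeZero a] (l : ℕ → ℂ_[p]), (∀ i, ‖l i‖ ≤ 1) →
    (∀ i, ‖((Hs p e n s).map (zc p)).eval (l i)‖ = 1) → ∀ J b : ℕ, 2 * (p * s + p) ≤ J → s ≤ b →
    ∀ T : ℂ_[p], (s = 0 ∨ (p : ℝ) ^ s < ‖T‖) → ‖T‖ < (p : ℝ) ^ (s + 1) →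
    ‖(cyc (fun i => Am p (tc J fun k => zc p (e k) * γ ^ k) n b (l i)) a).charpolyRev.eval T‖ =
      (∏ v : Ib n s, ‖T‖ / (p : ℝ) ^ (v.w + 1)) ^ a

/-- The passage to the limit. -/
class NL : Prop where
  lim : ∀ (Δ : ℕ → ℂ_[p][X]) (u : ℕ → ℕ → ℂ_[p]) (c : ℝ) (h : ℕ → ℕ), 0 < c → c < 1 →
    (∀ M : ℕ, ∀ᶠ j in atTop, M * j ≤ h j) → (∀ J, (Δ J).coeff 0 = 1) →
    (∀ J, (Δ J : PowerSeries ℂ_[p]) * ser (u J) =
      -(PowerSeries.X * PowerSeries.derivative _ (Δ J : PowerSeries ℂ_[p]))) →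
    (∀ J j, ‖(Δ J).coeff j‖ ≤ c ^ h j) → ∀ (N a : ℕ) (ν : ℂ_[p] →₀ ℤ), 0 < a →
    (∀ m, 0 < m → Tendsto (fun J => ((p : ℂ_[p]) ^ m - 1) ^ N * u J m) atTop
      (𝓝 (if a ∣ m then a * ν.sum fun z k => k * z ^ (m / a) else 0))) →
    ∀ (T : ℂ_[p]) (α : ℕ → ℝ), (∀ i, i ≤ N → 0 < α i ∧
      ∀ᶠ J in atTop, ‖(Δ J).eval ((p : ℂ_[p]) ^ i * T)‖ = α i) →
    (∀ z ∈ ν.support, z * T ^ a ≠ 1) → (ν.prod fun z k => ‖1 - z * T ^ a‖ ^ k) =
      ∏ i ∈ Finset.range (N + 1), α i ^ ((-1 : ℤ) ^ (N - i) * N.choose i)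

/-- The count of the indices. -/
class NW : Prop where
  prod : ∀ (n s : ℕ) (P ρ : ℝ), Odd n → s ≤ n → 0 < P → 0 < ρ →
    ∏ i ∈ Finset.range (n + 2), (∏ v : Ib n (s - i), ρ / P ^ i / P ^ (v.w + 1)) ^
      ((-1 : ℤ) ^ (n + 1 - i) * (n + 1).choose i) = ∏ k ∈ Finset.range s, ρ / P ^ (k + 1)

/-- Counting by slopes. -/
class NK : Prop where
  cnt : ∀ (d a : ℕ) (ν : ℂ_[p] →₀ ℤ), 0 < a →
    (∀ s, s ≤ 2 * d + 1 → ∀ T : ℂ_[p], (p : ℝ) ^ s < ‖T‖ → ‖T‖ < (p : ℝ) ^ (s + 1) →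
      (∀ z ∈ ν.support, ‖z * T ^ a‖ ≠ 1) → (ν.prod fun z k => ‖1 - z * T ^ a‖ ^ k) =
        (∏ k ∈ Finset.range s, ‖T‖ / (p : ℝ) ^ (k + 1)) ^ a) →
    ∀ w : ℂ_[p], ‖w‖ = (((p : ℝ) ^ a) ^ (d + 1))⁻¹ → (∀ z, z ≠ w → z ≠ -w → 0 ≤ ν z) →
    p ≠ 2 → 2 * (d : ℤ) ≤ off ν w

open Classical in
/-- Character sums over a finite field. -/
class NS1 : Prop where
  sum : ∀ {F R : Type} [Field F] [Fintype F] [Field R] [CharZero R], ringChar F ≠ 2 →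
    ∀ ψ : AddChar F R, ψ.IsPrimitive → ∀ (n : ℕ) (lam : F),
    (∑ t : Ka n → F with (∀ s, t s ≠ 0) ∧ ∏ i, t (.inl i) = t (.inr true) ^ n,
      (quadraticChar F (t (.inr true) * t (.inr false)) : R) * ψ (∑ s, cf lam s * t s)) =
      (quadraticChar F (-1) : R) * Fintype.card F *
        ∑ X : Fin n → F with ∏ i, X i = 1, (quadraticChar F (∑ i, X i + lam) : R)

open Classical in
/-- Points and characters. -/
class NS2 : Prop where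
  cnt : ∀ {K : Type} [Field K] [IsAlgClosed K] [Algebra (ZMod p) K], p ≠ 2 → ∀ (N : ℕ), 0 < N →
    ∀ [Fintype (Count.Fx p K N)] (n : ℕ) (lam : Count.Fx p K N),
    (cn n (lam : K) (p ^ N) false : ℤ) - cn n (lam : K) (p ^ N) true =
      2 * ∑ X : Fin n → Count.Fx p K N with ∏ i, X i = 1,
        quadraticChar (Count.Fx p K N) (∑ i, X i + lam)

/-- The limit of the truncated sums. -/
class NS : Prop where
  lim : ∀ {K : Type} [Field K] [IsAlgClosed K] [Algebra (ZMod p) K], p ≠ 2 →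
    ∀ {θ : ℕ → ℂ_[p]} {c : ℝ} {τ : K →*₀ ℂ_[p]}, Split θ c τ → ∀ (n N : ℕ) (lam : K), 0 < N →
    lam ^ p ^ N = lam → Tendsto (fun J => Tsum p θ n J (fun i => τ lam ^ p ^ i) N) atTop
      (𝓝 ((-1) ^ ((p ^ N - 1) / 2) * (p : ℂ_[p]) ^ N *
        (((cn n lam (p ^ N) false : ℂ_[p]) - cn n lam (p ^ N) true) / 2)))

/-- The slopes over the `p`-adic complex numbers. -/
class NX : Prop where
  main : p ≠ 2 → ∀ d : ℕ, ∃ H : (ZMod p)[X], H ≠ 0 ∧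
    ∀ (K : Type) [Field K] [IsAlgClosed K] [Algebra (ZMod p) K],
    (∀ x : K, ∃ m, 0 < m ∧ x ^ p ^ m = x) → ∀ (a : ℕ) (lam : K), 0 < a → lam ^ p ^ a = lam →
    aeval lam H ≠ 0 → Mer (fun m => (xs d lam (p ^ a) m : ℂ_[p])) ∧ ∀ ν : ℂ_[p] →₀ ℤ,
      (∀ m, 0 < m → (xs d lam (p ^ a) m : ℂ_[p]) = ν.sum fun z k => k * z ^ m) →
      (∀ z, z ≠ 1 → z ≠ -1 → 0 ≤ ν z) → 2 * (d : ℤ) ≤ off ν 1

/-- From the `p`-adic complex numbers to the complex numbers. -/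
class NY : Prop where
  tr : ∀ (x : ℕ → ℚ), Mer (fun m => (x m : ℂ_[p])) → ∀ g : ℚ[X], g.coeff 0 ≠ 0 →
    (∀ t, 0 < t → (g.sum fun j c => c * x (j + t)) = 0) →
    ∃ (ν : ℂ →₀ ℤ) (ν' : ℂ_[p] →₀ ℤ), ν 0 = 0 ∧
      (∀ m, 0 < m → (x m : ℂ) = ν.sum fun z k => k * z ^ m) ∧
      (∀ m, 0 < m → (x m : ℂ_[p]) = ν'.sum fun z k => k * z ^ m) ∧ off ν 1 = off ν' 1 ∧
      ((∀ z, z ≠ 1 → z ≠ -1 → 0 ≤ ν z) → ∀ z, z ≠ 1 → z ≠ -1 → 0 ≤ ν' z)

end Pool.Agent.Lib.MP_557161_ag.HG.MC
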