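import Pool.Agent.Lib.MP_557161_ag.MC.MQ
import Pool.Agent.Lib.MP_557161_ag.TW.StW

/-!
Functionals on quotients by a torus: Cartier divisors, affine bundles, kernels of two rows,
slices.
-/

namespace Pool.Agent.Lib.MP_557161_ag.HG

open Pool.Agent.Lib.MP_557161_ag.DL

variable [MC.Rk] {K : Type} [Field K] {c : Cd} {Γ : MC.Wt c} {j : ℕ} {P : Sp (Γ.amb K)}

/-- The value at the class of a point. -/
noncomputable abbrev Pre.mq (θ : Pre j P) (L : Fld K) (x : c.X L) : ℂ := θ.v L (Γ.pt x)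

/-- The value at the reduction of the class of a point. -/
noncomputable abbrev Pre.mr (θ : Pre j P) {M : Fld K} (O : Pl M) (x : c.X M) : ℂ :=
  θ.v O.res ((Γ.amb K).red O (Γ.pt x))

end Pool.Agent.Lib.MP_557161_ag.HG

namespace Pool.Agent.Lib.MP_557161_ag.HG.MC

open Pool.Agent.Lib.MP_557161_ag.DL

export TW.P2 (mnr Cmp KlA c0 CE CP RC)

variable [Rk]

section Defs

variable {K : Type} [Field K] {c d : Cd} {Γ : Wt c} {Δ : Wt d}

/-- Functionals on a quotient. -/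
abbrev QF (j : ℕ) (S : QS K Γ) := Fe j S.sp

/-- Homogeneous regular functions of weight `k`. -/
structure Hom (S : QS K Γ) (k : Tr → ℤ) (s : ∀ L : Fld K, c.X L → L) : Prop where
  reg : Reg S.S .one s
  hom : ∀ (L : Fld K) (a : Tr → L) (x : c.X L), Un a → S.mem L x →
    s L (Γ.scl a x) = wt a k * s L x

/-- Equivariant regular maps. -/
structure EqM (S : QS K Γ) (T : QS K Δ) (f : ∀ L : Fld K, c.X L → d.X L) : Prop where
  mp : Mp S.S T.S f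
  eqv : ∀ (L : Fld K) (a : Tr → L) (x : c.X L), Un a → S.mem L x →
    f L (Γ.scl a x) = Δ.scl a (f L x)

/-- Properness of a map from an affine space to a quotient. -/
def ProA (T : ASp K d) (S : QS K Γ) (g : ∀ L : Fld K, d.X L → c.X L) : Prop :=
  ∀ (M : Fld K) (O : Pl M) (x : d.X M) (a : Tr → M) (z : c.X O.res), O.IsDVR → T.mem M x → Un a →
    S.mem O.res z → c.lift (Rel.ofPl O).r (Γ.scl a (g M x)) z →
    ∃ x', T.mem O.res x' ∧ d.lift (Rel.ofPl O).r x x'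

/-- Properness of an invariant map from a quotient to an affine space. -/
def ProB (S : QS K Γ) (T : ASp K d) (g : ∀ L : Fld K, c.X L → d.X L) : Prop :=
  ∀ (M : Fld K) (O : Pl M) (x : c.X M) (z : d.X O.res), O.IsDVR → S.mem M x → T.mem O.res z →
    d.lift (Rel.ofPl O).r (g M x) z →
    ∃ (a : Tr → M) (x' : c.X O.res), Un a ∧ S.mem O.res x' ∧ c.lift (Rel.ofPl O).r (Γ.scl a x) x'

/-- The function `s` only depends on the coordinates in `q`. -/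
def LocF (S : QS K Γ) (q : c.ι → Prop) (s : ∀ L : Fld K, c.X L → L) : Prop :=
  ∀ (L : Fld K) (F : IntermediateField K L) (x : c.X L), S.mem L x → (∀ i, q i → c.co x i ∈ F) →
    s L x ∈ F

namespace QS

variable (S : QS K Γ)

/-- The product with a space of weight zero. -/
def pw (W : ASp K d) : QS K (Γ.prod (.triv d)) where
  S := S.S.prod W
  inv L a x h0 h := ⟨S.inv L a x.1 h0 h.1, h.2⟩
  nz L x h := Γ.nz_prod _ (S.nz L x.1 h.1) x.2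

/-- The product with an affine space. -/
def pu (Δ : Wt d) : QS K (Γ.prod Δ) where
  S := S.S.prod (.univ K d)
  inv L a x h0 h := ⟨S.inv L a x.1 h0 h.1, trivial⟩
  nz L x h := Γ.nz_prod _ (S.nz L x.1 h.1) x.2

/-- An invariant subspace. -/
def sub (T : ASp K c) (h : ∀ L x, T.mem L x → S.mem L x)
    (h' : ∀ (L : Fld K) (a : Tr → L) (x : c.X L), Un a → T.mem L x → T.mem L (Γ.scl a x)) :
    QS K Γ :=
  ⟨T, h', fun L x m => S.nz L x (h L x m)⟩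

/-- The zero set of a homogeneous function. -/
def zer {k : Tr → ℤ} {s : ∀ L : Fld K, c.X L → L} (h : Hom S k s) : QS K Γ :=
  S.sub (S.S.cl (fun L x => s L x = 0) fun _ _ R _ _ m m' e h0 => Rel.eq_zero (h.reg R m m' e) h0)
    (fun _ _ m => m.1) fun L a x h0 m =>
      ⟨S.inv L a x h0 m.1, (h.hom L a x h0 m.1).trans (mul_eq_zero_of_right _ m.2)⟩

end QS

/-- `ψ` is the composition of the intersection with the divisor of the section `s` of weight `k`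
and of `φ`. -/
def IsC (S : QS K Γ) (k : Tr → ℤ) (s : ∀ L : Fld K, c.X L → L) {j : ℕ} {D P : Sp (Γ.amb K)}
    (φ : Pre j D) (ψ : Pre (j + 1) P) : Prop :=
  ∀ (M : Fld K) (x : c.X M) (τ : M), Good (j + 1) M → S.mem M x → τ ≠ 0 →
    (s M x ≠ 0 → τ = s M x) →
    HasS (fun O : Dv M j => (Γ.ow O.1 k τ x : ℂ) * φ.mr O.1 x) (ψ.mq M x)

variable {Λ : Type} [Fintype Λ] {ω : Λ → Tr → ℤ}

/-- `(b, p)` is a generic point of the fibre of dimension `r` of `T` over `b`. -/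
structure GenA (T : QS K (Γ.prod (.vec ω))) (r j : ℕ) {L M : Fld K} (α : L →ₐ[K] M) (b : c.X L)
    (p : Λ → M) : Prop where
  gL : Good j L
  gM : Good (j + r) M
  top : gen α p = ⊤
  mem : T.mem M (c.map α b, p)

/-- The values of `θ` at the generic points of the fibres are the values of `φ`. -/
def IsUp (T : QS K (Γ.prod (.vec ω))) (r j : ℕ) (φ : ∀ L : Fld K, c.X L → ℂ)
    (θ : ∀ L : Fld K, (c.prod (.vec Λ)).X L → ℂ) : Prop :=
  ∀ (L M : Fld K) (α : L →ₐ[K] M) (b : c.X L) (p : Λ → M), GenA T r j α b p →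
    θ M (c.map α b, p) = φ L b

/-- `T` is a bundle of affine spaces of dimension `r` over `S`; on the chart `U i` the coordinates
`e i` are free and determine the others. -/
structure AB (S : QS K Γ) (T : QS K (Γ.prod (.vec ω))) (r : ℕ) where
  sub : ∀ (L : Fld K) (x : (c.prod (.vec Λ)).X L), T.mem L x → S.mem L x.1
  ι : Type
  [fin : Finite ι]
  U : ι → QS K Γ
  usub : ∀ i L b, (U i).mem L b → S.mem L b
  opn : ∀ i ⦃M L : Fld K⦄ (R : Rel M L) ⦃b : c.X M⦄ ⦃b' : c.X L⦄, S.mem M b → (U i).mem L b' →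
    c.lift R.r b b' → (U i).mem M b
  cov : ∀ L b, S.mem L b → ∃ i, (U i).mem L b
  κ : ι → Type
  [fκ : ∀ i, Finite (κ i)]
  card : ∀ i, Nat.card (κ i) = r
  e : ∀ i, κ i → Λ
  τ : ∀ i (L : Fld K), c.X L → (κ i → L) → Λ → L
  reg : ∀ i, Reg ((U i).S.prod (.univ K (.vec (κ i)))) (.vec Λ) fun L x => τ i L x.1 x.2
  mem : ∀ i L b t, (U i).mem L b → T.mem L (b, τ i L b t)
  co : ∀ i L b t k, (U i).mem L b → τ i L b t (e i k) = t k
  uq : ∀ i L b p, (U i).mem L b → T.mem L (b, p) → p = τ i L b fun k => p (e i k)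

attribute [instance] AB.fin AB.fκ

/-- The charts only depend on the coordinates in `q`. -/
def AB.Loc {S : QS K Γ} {T : QS K (Γ.prod (.vec ω))} {r : ℕ} (E : AB S T r) (q : c.ι → Prop) :
    Prop :=
  ∀ i (L : Fld K) (F : IntermediateField K L) (b : c.X L) (t : E.κ i → L), (E.U i).mem L b →
    (∀ l, q l → c.co b l ∈ F) → (∀ k, t k ∈ F) → ∀ μ, E.τ i L b t μ ∈ F

/-- Two rows that are independent at every point. -/
structure K2 (S : QS K Γ) (Λ : Type) [Fintype Λ] (ω : Λ → Tr → ℤ) (γ : Fin 2 → Tr → ℤ) where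
  n : ∀ L : Fld K, c.X L → Fin 2 → Λ → L
  hom : ∀ r μ, Hom S (γ r - ω μ) fun L b => n L b r μ
  uni : ∀ L b, S.mem L b → ∃ μ ν, mnr (n L b) μ ν ≠ 0

/-- The linear forms of the rows. -/
lemma K2.lin {S : QS K Γ} {γ : Fin 2 → Tr → ℤ} (k : K2 S Λ ω γ) (r : Fin 2) :
    Hom (S.pu (.vec ω)) (γ r) fun L x => ∑ μ, k.n L x.1 r μ * x.2 μ where
  reg _ _ R _ _ m m' e := Rel.sum _ fun μ _ => R.mul ((k.hom r μ).reg R m.1 m'.1 e.1) (e.2 μ)
  hom L a x h0 m := by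
    rw [Finset.mul_sum]
    refine Finset.sum_congr rfl fun μ _ => ?_
    rw [(k.hom r μ).hom L a x.1 h0 m.1, wt_sub h0]
    have := wt_ne h0 (ω μ)
    show _ * (wt a (ω μ) * x.2 μ) = _
    field_simp

/-- The kernel of the two rows. -/
def K2.tot {S : QS K Γ} {γ : Fin 2 → Tr → ℤ} (k : K2 S Λ ω γ) : QS K (Γ.prod (.vec ω)) :=
  (S.pu (.vec ω)).sub ((S.pu (.vec ω)).S.cl (fun L x => ∀ r, ∑ μ, k.n L x.1 r μ * x.2 μ = 0)
    fun _ _ R _ _ m m' e h r => Rel.eq_zero ((k.lin r).reg R m m' e) (h r)) (fun _ _ m => m.1)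
    fun L a x h0 m => ⟨(S.pu (.vec ω)).inv L a x h0 m.1,
      fun r => ((k.lin r).hom L a x h0 m.1).trans (mul_eq_zero_of_right _ (m.2 r))⟩

end Defs

variable (K : Type) [Field K]

/-- Atlases and morphisms. -/
class WA : Prop where
  atl : ∀ {c : Cd} {Γ : Wt c} (S : QS K Γ), Atl S.sp
  mor : ∀ {c d : Cd} {Γ : Wt c} {Δ : Wt d} {S : QS K Γ} {T : QS K Δ}
    {f : ∀ L : Fld K, c.X L → d.X L}, EqM S T f → ∃ m : Mor S.sp T.sp,
      (∀ (L : Fld K) (x : c.X L), S.mem L x → m.f (L := L) (Γ.pt x) = Δ.pt (f L x)) ∧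
      (Pro S.S T.S f → m.Proper)
  morA : ∀ {c d : Cd} {Γ : Wt c} {S : QS K Γ} {T : ASp K d} {g : ∀ L : Fld K, d.X L → c.X L},
    Mp T S.S g → ∃ m : Mor T.sp S.sp,
      (∀ (L : Fld K) (x : d.X L), m.f (L := L) (some x) = Γ.pt (g L x)) ∧ (ProA T S g → m.Proper)
  line : ∀ {c : Cd} {Γ : Wt c} (S : QS K Γ) {σ : Type} [Finite σ] (k : Tr → ℤ)
    (f : ∀ L : Fld K, c.X L → σ → L), (∀ i, Hom S k fun L x => f L x i) →
    (∀ L x, S.mem L x → f L x ≠ 0) → ∃ m : Mor S.sp (Lines K σ),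
      ∀ (L : Fld K) (x : c.X L), S.mem L x → m.f (L := L) (Γ.pt x) = Submodule.span L {f L x}

/-- Basic operations on functionals on quotients. -/
class WB : Prop where
  mem : ∀ {c : Cd} {Γ : Wt c} {S : QS K Γ} {j : ℕ} (θ : Pre j S.sp) {L : Fld K} {x : c.X L},
    θ.mq L x ≠ 0 → Good j L ∧ S.mem L x
  low : ∀ {c : Cd} {Γ : Wt c} {P : Sp (Γ.amb K)} {j m : ℕ} (θ : Pre j P) {L : Fld K} {x : c.X L},
    c.Dm L x m → m < j → θ.mq L x = 0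
  r_eq : ∀ {c : Cd} {Γ : Wt c} {P : Sp (Γ.amb K)} {j : ℕ} (θ : Pre j P) {M : Fld K} {O : Pl M}
    {a : Tr → M} {x : c.X M} {x' : c.X O.res}, Un a → c.lift (Rel.ofPl O).r (Γ.scl a x) x' →
    Γ.nz x' → θ.mr O x = θ.mq O.res x'
  r_ne : ∀ {c : Cd} {Γ : Wt c} {S : QS K Γ} {j : ℕ} (θ : Pre j S.sp) {M : Fld K} {O : Pl M}
    {x : c.X M}, θ.mr O x ≠ 0 → ∃ u x', Γ.Ch u x ∧
      c.lift (Rel.ofPl O).r (Γ.scl (Γ.nm u x) x) x' ∧ S.mem O.res x' ∧ θ.mr O x = θ.mq O.res x'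
  prim : ∀ {c : Cd} (Γ : Wt c) {M : Fld K} (O : Pl M) {x : c.X M}, Γ.nz x →
    ∃ u, Γ.Ch u x ∧ Γ.Prim O (Γ.nm u x) x
  ow_eq : ∀ {c : Cd} (Γ : Wt c) {M : Fld K} {O : Pl M} {a : Tr → M} {τ : M} {x : c.X M}
    (k : Tr → ℤ), O.IsDVR → τ ≠ 0 → Γ.Prim O a x → Γ.ow O k τ x = O.ord (wt a k * τ)
  pull : ∀ {c d : Cd} {Γ : Wt c} {Δ : Wt d} {S : QS K Γ} {T : QS K Δ}
    {f : ∀ L : Fld K, c.X L → d.X L}, EqM S T f → Pro S.S T.S f → ∀ {j : ℕ} (θ : QF j T),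
    ∃ θ' : QF j S, ∀ L x, S.mem L x → θ'.mq L x = θ.mq L (f L x)
  pullA : ∀ {c d : Cd} {Γ : Wt c} {S : QS K Γ} {T : ASp K d} {g : ∀ L : Fld K, d.X L → c.X L},
    Mp T S.S g → ProA T S g → ∀ {j : ℕ} (θ : QF j S),
    ∃ θ' : AF j T, ∀ L x, T.mem L x → θ'.a L x = θ.mq L (g L x)
  pullB : ∀ {c d : Cd} {Γ : Wt c} {S : QS K Γ} {T : ASp K d} {g : ∀ L : Fld K, c.X L → d.X L},
    Mp S.S T g → (∀ (L : Fld K) (a : Tr → L) x, Un a → S.mem L x → g L (Γ.scl a x) = g L x) →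
    ProB S T g → ∀ {j : ℕ} (θ : AF j T),
    ∃ θ' : QF j S, ∀ L x, S.mem L x → θ'.mq L x = θ.a L (g L x)
  lin : ∀ {A : Amb K} {P : Sp A} {j : ℕ} {α : Type} (s : Finset α) (a : α → ℂ) (θ : α → Fe j P),
    ∃ Θ : Fe j P, ∀ L y, Θ.v L y = ∑ i ∈ s, a i * (θ i).v L y
  res : ∀ {A : Amb K} {P : Sp A} (U : Sp A) {j : ℕ} (θ : Fe j P),
    (∀ (L : Fld K) (y : A.pt L), U.mem y → P.mem y) → (∀ L y, θ.v L y ≠ 0 → U.mem y) →
    ∃ θ' : Fe j U, ∀ L y, θ'.v L y = θ.v L y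
  ext : ∀ {A : Amb K} {P U : Sp A}, Opn U P → ∀ {j : ℕ} (θ : Fe j U),
    ∃ θ' : Fe j P, ∀ L y, θ'.v L y = θ.v L y
  opn : ∀ {c : Cd} {Γ : Wt c} {S S' : QS K Γ}, (∀ L x, S'.mem L x → S.mem L x) → AOpn S'.S S.S →
    Opn S'.sp S.sp
  opnA : ∀ {c : Cd} {S S' : ASp K c}, (∀ L x, S'.mem L x → S.mem L x) → AOpn S' S →
    Opn S'.sp S.sp

/-- Intersection with a divisor. -/
class WC : Prop where
  cart : ∀ {c : Cd} {Γ : Wt c} {S : QS K Γ} {k : Tr → ℤ} {s : ∀ L : Fld K, c.X L → L}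
    (h : Hom S k s) {j : ℕ} (φ : QF j (S.zer h)), ∃ ψ : QF (j + 1) S, IsC S k s φ.toPre ψ.toPre
  kills : ∀ {c : Cd} {Γ : Wt c} {S : QS K Γ} {k : Tr → ℤ} {s : ∀ L : Fld K, c.X L → L} {j : ℕ}
    {D : QS K Γ} {φ : Pre j D.sp} {ψ : Pre (j + 1) S.sp}, IsC S k s φ ψ → ∀ q : c.ι → Prop,
    Γ.Ad q → LocF S q s → KlP c q j φ.mq → KlP c q (j + 1) ψ.mq

/-- Connected families. -/
class WN : Prop where
  conn : ∀ {c : Cd} {Γ : Wt c} {S : QS K Γ} {B : Amb K} (Z : Sp B) (Ω : ASp K .one)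
    (γ δ : ∀ L : Fld K, (Cd.one.prod c).X L → c.X L), Mp (Ω.prod S.S) S.S γ →
    Mp (Ω.prod S.S) S.S δ →
    (∀ (L : Fld K) (t : L) (a : Tr → L) x, Un a → Ω.mem L t → S.mem L x →
      γ L (t, Γ.scl a x) = Γ.scl a (γ L (t, x)) ∧ δ L (t, Γ.scl a x) = Γ.scl a (δ L (t, x))) →
    (∀ (L : Fld K) (t : L) x, Ω.mem L t → S.mem L x → δ L (t, γ L (t, x)) = x) →
    (∀ (L : Fld K) (T : L), Transcendental K T → Ω.mem L T) → ∀ a b : K, Ω.mem (.base K) a →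
    Ω.mem (.base K) b →
    (∀ {j : ℕ} (φ : Fe j (S.sp.prod Z)) (L : Fld K) (x : c.X L) (z : B.pt L), S.mem L x → Z.mem z →
      φ.v L (Γ.pt (γ L (algebraMap K L a, x)), z) = φ.v L (Γ.pt (γ L (algebraMap K L b, x)), z)) ∧
    ∀ {j : ℕ} (φ : QF j S) (L : Fld K) (x : c.X L), S.mem L x →
      φ.mq L (γ L (algebraMap K L a, x)) = φ.mq L (γ L (algebraMap K L b, x))

/-- Generic points of affine bundles. -/
class AD : Prop where
  free : ∀ {c : Cd} {Γ : Wt c} {Λ : Type} [Fintype Λ] {ω : Λ → Tr → ℤ} {S : QS K Γ}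
    {T : QS K (Γ.prod (.vec ω))} {r : ℕ} (E : AB S T r) {j : ℕ} {L M : Fld K} {α : L →ₐ[K] M}
    {b : c.X L} {p : Λ → M} (i : E.ι), (E.U i).mem L b →
    (GenA T r j α b p ↔ T.mem M (c.map α b, p) ∧ Free j α fun k => p (E.e i k))
  ex : ∀ {c : Cd} {Γ : Wt c} {Λ : Type} [Fintype Λ] {ω : Λ → Tr → ℤ} {S : QS K Γ}
    {T : QS K (Γ.prod (.vec ω))} {r : ℕ}, AB S T r → ∀ {j : ℕ} {L : Fld K} {b : c.X L}, Good j L →
    S.mem L b → ∃ (M : Fld K) (α : L →ₐ[K] M) (p : Λ → M), GenA T r j α b p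
  low : ∀ {c : Cd} {Γ : Wt c} {Λ : Type} [Fintype Λ] {ω : Λ → Tr → ℤ} {S : QS K Γ}
    {T : QS K (Γ.prod (.vec ω))} {r : ℕ}, AB S T r → ∀ {j m : ℕ} (θ : Pre (j + r) T.sp)
    {L : Fld K} {b : c.X L} (p : Λ → L), c.Dm L b m → m < j → θ.mq L (b, p) = 0
  sb : ∀ {c : Cd} {Γ : Wt c} {Λ : Type} [Fintype Λ] (ω : Λ → Tr → ℤ) (S : QS K Γ) {r : ℕ},
    Fintype.card Λ = r → Nonempty (AB S (S.pu (.vec ω)) r)
  kb : ∀ {c : Cd} {Γ : Wt c} {Λ : Type} [Fintype Λ] {ω : Λ → Tr → ℤ} {S : QS K Γ}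
    {γ : Fin 2 → Tr → ℤ} (k : K2 S Λ ω γ) {r : ℕ}, Fintype.card Λ = r + 2 →
    Nonempty (AB S k.tot r)

/-- The flat pull back of cycles along an affine bundle. -/
class DN : Prop where
  down : ∀ {c : Cd} {Γ : Wt c} {Λ : Type} [Fintype Λ] {ω : Λ → Tr → ℤ} {S : QS K Γ}
    {T : QS K (Γ.prod (.vec ω))} {r : ℕ} (E : AB S T r) {j : ℕ} (θ : QF (j + r) T),
    ∃ φ : QF j S, IsUp T r j φ.mq θ.mq ∧ ∀ q : c.ι → Prop, E.Loc q →
      KlP (c.prod (.vec Λ)) (Sum.elim q fun _ => True) (j + r) θ.mq → KlP c q j φ.mq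

/-- The flat pull back is onto. -/
class UP : Prop where
  up : ∀ {c : Cd} {Γ : Wt c} {Λ : Type} [Fintype Λ] {ω : Λ → Tr → ℤ} {S : QS K Γ}
    {T : QS K (Γ.prod (.vec ω))} {r : ℕ}, AB S T r → ∀ {i : ℕ} (θ : QF i T),
    (∀ j, i = j + r → IsUp T r j (fun _ _ => 0) θ.mq) → ∀ L x, θ.mq L x = 0

/-- The intersection with the zero section of a sum of line bundles. -/
class SE : Prop where
  ex : ∀ {c : Cd} {Γ : Wt c} {Λ : Type} [Fintype Λ] (ω : Λ → Tr → ℤ) {S : QS K Γ} {r : ℕ},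
    Fintype.card Λ = r → ∀ {j : ℕ} (φ : QF j S), ∃ θ : QF (j + r) (S.pu (.vec ω)),
      IsUp (S.pu (.vec ω)) r j φ.mq θ.mq ∧ ∀ q : c.ι → Prop, Γ.Ad q → KlP c q j φ.mq →
        KlP (c.prod (.vec Λ)) (Sum.elim q fun _ => True) (j + r) θ.mq

/-- The intersection with the zero section of the kernel of two rows. -/
class KE : Prop where
  ex : ∀ {c : Cd} {Γ : Wt c} {Λ : Type} [Fintype Λ] {ω : Λ → Tr → ℤ} {S : QS K Γ}
    {γ : Fin 2 → Tr → ℤ} (k : K2 S Λ ω γ) {r : ℕ}, Fintype.card Λ = r + 2 →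
    ∀ {j : ℕ} (φ : QF j S), ∃ θ : QF (j + r) k.tot, IsUp k.tot r j φ.mq θ.mq ∧
      ∀ q : c.ι → Prop, Γ.Ad q → (∀ i μ, LocF S q fun L b => k.n L b i μ) → KlP c q j φ.mq →
      KlP (c.prod (.vec Λ)) (Sum.elim q fun _ => True) (j + r) θ.mq

/-- Naturality. -/
class KN : Prop where
  nat : ∀ {c c' : Cd} {Γ : Wt c} {Γ' : Wt c'} {Λ : Type} [Fintype Λ] {ω : Λ → Tr → ℤ}
    {S : QS K Γ} {S' : QS K Γ'} {γ : Fin 2 → Tr → ℤ} (k : K2 S Λ ω γ) (k' : K2 S' Λ ω γ)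
    {r : ℕ}, Fintype.card Λ = r + 2 → ∀ {f : ∀ L : Fld K, c'.X L → c.X L}, EqM S' S f →
    Pro S'.S S.S f → (∀ L b, S'.mem L b → k'.n L b = k.n L (f L b)) →
    ∀ {j : ℕ} {φ : ∀ L : Fld K, c.X L → ℂ} {φ' : ∀ L : Fld K, c'.X L → ℂ} (θ : QF (j + r) k.tot)
      (θ' : QF (j + r) k'.tot) (χ : ℂ), IsUp k.tot r j φ θ.mq → IsUp k'.tot r j φ' θ'.mq →
      (∀ L b, S'.mem L b → φ' L b = χ * φ L (f L b)) →
      ∀ L b v, S'.mem L b → θ'.mq L (b, v) = χ * θ.mq L (f L b, v)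

/-- Slices. -/
class SL : Prop where
  qs : ∀ {c d : Cd} {Γ : Wt c} {S : QS K Γ} {W : ASp K d} {k j : ℕ} (θ : QF (k + j) (S.pw W))
    {B : Fld K} (w : d.X B), Good j B → ∃ Θ : QF k S,
      (∀ (A N : Fld K) (ι : A →ₐ[K] N) (α : B →ₐ[K] N) (x : c.X A), Cmp k j ι α →
        Θ.mq A x = θ.mq N (c.map ι x, d.map α w)) ∧
      ∀ (A N : Fld K) (ι : A →ₐ[K] N) (α : B →ₐ[K] N) (x : c.X A) (t : A) (g : ℤ → ℂ) (val : ℂ),
        Cmp (k + 1) j ι α → t ≠ 0 → g 0 = 0 →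
        HasS (fun O : Dv N (k + j) => g (O.1.ord (ι t)) * θ.mr O.1 (c.map ι x, d.map α w)) val →
        HasS (fun O : Dv A k => g (O.1.ord t) * Θ.mr O.1 x) val
  pt : ∀ {d : Cd} {W : ASp K d} {j : ℕ} (φ : AF j W) {B : Fld K} (w : d.X B), Good j B →
    ∃ φ₀ : AF 0 (ASp.univ K c0), ∀ (L : Fld K) (x : c0.X L), Good 0 L → φ₀.a L x = φ.a B w

end Pool.Agent.Lib.MP_557161_ag.HG.MC
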