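import Pool.Agent.Lib.MP_557161_ag.HN.St4
import Pool.Agent.Lib.MP_557161_ag.MC.StW
import Pool.Agent.Lib.MP_557161_ag.MC.StF
import Pool.Agent.Lib.MP_557161_ag.MC.StN
import Pool.Agent.Lib.MP_557161_ag.MC.Defs

/-!
The compactification as a quotient by a torus: points, Frobenius, contraction laws, diagrams;
statements.
-/

namespace Pool.Agent.Lib.MP_557161_ag.HG.MC

open Pool.Agent.Lib.MP_557161_ag.DL MvPolynomial Matrix
open Pool.Agent.Lib.MP_60ec62_ag.DL (Cyc)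

/-- The coefficients of the equation. -/
def cfs {R : Type} [CommRing R] {D : ℕ} (lam : R) (s : Sd D) : R :=
  s.elim 1 fun s => s.elim (-lam) fun _ => -1

/-- The cocharacters that act on the boundary. -/
def eta (D : ℕ) (i : Fin (D + 1)) (l : Jd D) : ℤ :=
  l.elim 1 fun l => if l.succ = i then -2 * D else 2

/-- The points of the torus. -/
noncomputable def Gm (K : Type) [Field K] (ι : Type) [Finite ι] : ASp K (.vec ι) :=
  (ASp.univ K (.vec ι)).opn (fun _ y => ∀ i, y i ≠ 0)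
    fun _ _ _ _ _ _ _ e h i => Rel.ne_zero (e i) (h i)

/-- The hypersurface `∑ c s * y ^ a s = 0` in the torus. -/
noncomputable def HS {K ι κ : Type} [Field K] [Fintype ι] [Fintype κ] (a : κ → ι → ℤ) (c : κ → K) :
    ASp K (.vec ι) :=
  (Gm K ι).cl (fun L y => ∑ s, algebraMap K L (c s) * ∏ i, y i ^ a s i = 0)
    fun _ _ R _ _ _ m e h => Rel.eq_zero (Rel.sum _ fun _ _ => R.mul (R.const _)
      (Rel.prod _ fun i _ => Rel.zpow (e i) (m.2 i) _)) h

variable [Rk]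

/-- The shape of points in homogeneous coordinates. -/
abbrev cw : Cd := .vec Vr

/-- The shape of points `(X, z)`. -/
abbrev xz : Cd := HN.xz dd

/-- The dimension of the torsor over the boundary. -/
abbrev dl : ℕ := 2 * dd + Rk.t

/-- The dimension of the torsor. -/
abbrev dm : ℕ := dl + 1

lemma card_vr : Fintype.card Vr = dm + 2 := by
  simp only [Fintype.card_option, Fintype.card_sum, Fintype.card_fin, dm, dl]
  omega

lemma card_ot : Nat.card (Option Tr) = Rk.t + 2 := by simp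

section Ring

variable {R : Type} [CommRing R] (F : Fan (2 * dd) Ry)

/-- A monomial in the homogeneous coordinates. -/
def mon (a : Ry → ℕ) (w : Vr → R) : R := ∏ r, w (some r) ^ a r

lemma map_mon {S Φ : Type} [CommRing S] [FunLike Φ R S] [RingHomClass Φ R S] (f : Φ) (a : Ry → ℕ)
    (w : Vr → R) : f (mon a w) = mon a fun l => f (w l) := by
  simp only [mon, map_prod, map_pow]

/-- The embedding. -/
def nu (w : Vr → R) : F.σ → R := fun s => mon (F.eb · s) w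

/-- The inverse of the embedding on the chart of the vertex `v`. -/
def unp (v : F.V) (N : F.σ → R) : Vr → R :=
  fun l => l.elim 0 fun r => ∏ j, if F.c v j = r then N (F.nb v j) else 1

/-- The point is normalised for the chart of the vertex `v`. -/
def Nrm (v : F.V) (w : Vr → R) : Prop :=
  w none = 0 ∧ ∀ r, r ∉ Set.range (F.c v) → w (some r) = 1

/-- The two equations. -/
noncomputable def eqs (lam : R) : Fin 2 → MvPolynomial Vr R :=
  ![X none, ∑ s, C (cfs lam s) * mon (F.ea · s) X]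

variable {S : Type} [CommRing S] [Algebra R S] (lam : R) (w : Vr → S)

lemma eqs0 : aeval w (eqs F lam 0) = w none := aeval_X _ _

lemma eqs1 : aeval w (eqs F lam 1) = ∑ s, algebraMap R S (cfs lam s) * mon (F.ea · s) w := by
  simp only [eqs, Matrix.cons_val_one, Matrix.cons_val_zero, map_sum, map_mul, aeval_C, map_mon,
    aeval_X]

/-- The weights of the equations. -/
def wγ : Fin 2 → Tr → ℤ := ![0, -∑ r, F.ψ r • wv F (some r)]

/-- The weight of the coordinates of the embedding. -/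
def wν : Tr → ℤ := -∑ r, F.φ r • wv F (some r)

lemma mon_hom (a : Ry → ℕ) :
    (mon a (X : Vr → MvPolynomial Vr R)).IsWeightedHomogeneous (wv F)
      (∑ r, (a r : ℤ) • wv F (some r)) :=
  IsWeightedHomogeneous.prod _ _ _ fun r _ => by
    rw [natCast_zsmul]
    exact (isWeightedHomogeneous_X R (wv F) (some r)).pow _

end Ring

lemma aeval_scl {σ k L : Type} [CommRing k] [Field L] [Algebra k L] {ω : σ → Tr → ℤ} {n : Tr → ℤ}
    {f : MvPolynomial σ k} (hf : f.IsWeightedHomogeneous ω n) {a : Tr → L} (h0 : Un a)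
    (w : σ → L) : aeval (fun l => wt a (ω l) * w l) f = wt a n * aeval w f := by
  have e : ∀ d : σ →₀ ℕ, wt a (Finsupp.weight ω d) = d.prod fun l m => wt a (ω l) ^ m := fun d => by
    induction d using Finsupp.induction_linear with
    | zero => simp
    | add d d' h h' =>
      rw [map_add, wt_add h0, h, h', Finsupp.prod_add_index' (by simp) fun _ _ _ => pow_add _ _ _]
    | single l m => rw [Finsupp.weight_single, Finsupp.prod_single_index (by simp), wt_nsmul]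
  induction hf using IsWeightedHomogeneous.induction_on with
  | zero => simp
  | add p q _ _ hp hq => rw [map_add, map_add, hp, hq, mul_add]
  | monomial d r hd =>
    rw [aeval_monomial, aeval_monomial, ← hd, e]
    simp only [mul_pow, Finsupp.prod_mul]
    ring

namespace TD

variable (T : TD)

/-- The action of the torus. -/
abbrev Γ : Wt cw :=
  .tor (wv T.toFan) (fun u => ∃ v, Cm T.toFan v u) (fun l => l ≠ none)
    (fun u ⟨_, h⟩ s e => ((h.2 _).1 ⟨s, e⟩).elim fun _ h => nomatch h.1) T.det T.cvx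

lemma wt_ea (s : Sd (2 * dd)) : ∑ r, (T.ea r s : ℤ) • wv T.toFan (some r) = wγ T.toFan 1 := by
  simp only [T.ea_eq, sub_smul, Finset.sum_sub_distrib, wv_rel _ T.base, zero_sub]
  rfl

lemma wt_eb (s : T.σ) : ∑ r, (T.eb r s : ℤ) • wv T.toFan (some r) = wν T.toFan := by
  simp only [T.eb_eq, sub_smul, Finset.sum_sub_distrib, wv_rel _ T.base, zero_sub]
  rfl

lemma eqs_hom {k : Type} [CommRing k] (lam : k) (r : Fin 2) :
    (eqs T.toFan lam r).IsWeightedHomogeneous (wv T.toFan) (wγ T.toFan r) := by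
  fin_cases r
  · exact isWeightedHomogeneous_X k (wv T.toFan) none
  · exact IsWeightedHomogeneous.sum Finset.univ _ _ fun s _ => by
      simpa only [zero_add, T.wt_ea] using
        (isWeightedHomogeneous_C (wv T.toFan) (cfs lam s)).mul (mon_hom T.toFan (T.ea · s))

lemma mon_scl {L : Type} [Field L] (e : Ry → ℕ) {a : Tr → L} (h0 : Un a) (w : Vr → L) :
    mon e (T.Γ.scl a w) = wt a (∑ r, (e r : ℤ) • wv T.toFan (some r)) * mon e w := by
  simpa only [map_mon, aeval_X] using aeval_scl (mon_hom (R := L) T.toFan e) h0 w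

end TD

section Defs

variable {K : Type} [Field K] {c d d' : Cd}

/-- The involution `z ↦ -z`. -/
def ngz (L : Fld K) (x : xz.X L) : xz.X L := (x.1, -x.2)

/-- The identity or the involution `z ↦ -z`. -/
def sg (ε : Bool) (L : Fld K) (y : xz.X L) : xz.X L := bif ε then ngz L y else y

/-- The map `(X, z) ↦ (X ^ Q, z ^ Q)`. -/
def frb (Q : ℕ) (L : Fld K) (y : xz.X L) : xz.X L := (fun i => y.1 i ^ Q, y.2 ^ Q)

/-- The point `X` with `X (i + 1) = x i` and `∏ X = 1`. -/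
def xc {L : Type} [Field L] (x : Fin (2 * dd) → L) : Fin (2 * dd + 1) → L :=
  Fin.cons (∏ i, x i)⁻¹ x

/-- The exponents of the scaling of the coordinate of `z = 0`. -/
def gz (l : Vr) : ℤ := l.elim 0 (Sum.elim (fun _ => 0) fun j => j.elim 1 fun _ => 0)

/-- The action of a one parameter group. -/
def gam {L : Type} [Field L] (g : Vr → ℤ) (τ : L) (w : Vr → L) : Vr → L := fun l => τ ^ g l * w l

/-- The identity or the involution. -/
def sw {L : Type} [Field L] (ε : Bool) (w : Vr → L) : Vr → L := bif ε then gam gz (-1) w else w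

/-- The map `w ↦ w ^ Q`, or its composition with the involution. -/
def gg {L : Type} [Field L] (Q : ℕ) (ε : Bool) (w : Vr → L) : Vr → L := sw ε fun l => w l ^ Q

/-- The fan and the parameter. -/
structure GD (K : Type) [Field K] extends TD where
  lam : K
  pos : 0 < dd
  two : (2 : K) ≠ 0
  ch : ((2 * dd + 1 : ℕ) : K) ≠ 0
  l0 : lam ≠ 0
  disc : lam ^ (2 * dd + 1) ≠ (-((2 * dd + 1 : ℕ) : K)) ^ (2 * dd + 1)

namespace GD

variable (G : GD K)

/-- The branch function. -/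
noncomputable def om (L : Fld K) (x : Fin (2 * dd + 1) → L) : L := ∑ i, x i + algebraMap K L G.lam

lemma om_rel {M L : Fld K} (R : Rel M L) {x : Fin (2 * dd + 1) → M} {x' : Fin (2 * dd + 1) → L}
    (e : ∀ i, R.r (x i) (x' i)) : R.r (G.om M x) (G.om L x') :=
  R.add (Rel.sum _ fun i _ => e i) (R.const _)

/-- The double cover of the torus. -/
noncomputable def UU : ASp K xz :=
  (ASp.univ K xz).cl (fun L x => ∏ i, x.1 i = 1 ∧ x.2 ^ 2 = G.om L x.1)
    fun _ _ R _ _ _ _ e h => ⟨Rel.eq (Rel.prod _ fun i _ => e.1 i) R.one h.1,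
      Rel.eq (Rel.pow e.2 2) (G.om_rel R e.1) h.2⟩

lemma UU_iff {L : Fld K} {x : xz.X L} : G.UU.mem L x ↔ ∏ i, x.1 i = 1 ∧ x.2 ^ 2 = G.om L x.1 :=
  ⟨fun h => h.2, fun h => ⟨trivial, h⟩⟩

variable {G} in
lemma UU_ne {L : Fld K} {x : xz.X L} (h : G.UU.mem L x) (i : Fin (2 * dd + 1)) : x.1 i ≠ 0 :=
  Finset.prod_ne_zero_iff.1 (h.2.1.trans_ne one_ne_zero) i (Finset.mem_univ i)

/-- The equations. -/
noncomputable abbrev E : Fin 2 → MvPolynomial Vr K := eqs G.toFan G.lam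

/-- The ideal. -/
noncomputable abbrev I : Ideal (MvPolynomial G.σ K) := mcI G.m G.lam

/-- The embedding. -/
abbrev ν {R : Type} [CommRing R] (w : Vr → R) : G.σ → R := nu G.toFan w

lemma homE (r : Fin 2) : (G.E r).IsWeightedHomogeneous (wv G.toFan) (wγ G.toFan r) :=
  G.eqs_hom G.lam r

/-- Points of the torsor. -/
def Cn (L : Fld K) (w : Vr → L) : Prop := G.Γ.nz w ∧ ∀ r, aeval w (G.E r) = 0

/-- The torsor. -/
noncomputable def CC : QS K G.Γ where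
  S := (((ASp.univ K cw).opn (fun _ w => G.Γ.nz w) fun _ _ _ _ _ _ _ e h => G.Γ.nz_lift e h).cl
    (fun _ w => ∀ r, aeval w (G.E r) = 0) fun _ _ _ _ _ _ _ e h r =>
      Rel.eq_zero (Rel.aeval e _) (h r)).copy G.Cn
        fun _ _ => ⟨fun h => ⟨⟨trivial, h.1⟩, h.2⟩, fun h => ⟨h.1.2, h.2⟩⟩
  inv _ _ w h0 h := ⟨(G.Γ.nz_scl h0).2 h.1,
    fun r => (aeval_scl (G.homE r) h0 w).trans (mul_eq_zero_of_right _ (h.2 r))⟩
  nz _ _ h := h.1

/-- The monomials of the equation. -/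
def ms (s : Sd (2 * dd)) (L : Fld K) (w : Vr → L) : L := mon (G.ea · s) w

lemma hom_ms (s : Sd (2 * dd)) : Hom G.CC (wγ G.toFan 1) (G.ms s) where
  reg _ _ _ _ _ _ _ e := Rel.prod Finset.univ fun r _ => Rel.pow (e (some r)) _
  hom _ _ w h0 _ := (G.mon_scl _ h0 w).trans (congrArg (wt _ · * _) (G.wt_ea s))

/-- The equation of the boundary. -/
abbrev bd (L : Fld K) (w : Vr → L) : L := G.ms (some none) L w

lemma hom_bd : Hom G.CC (wγ G.toFan 1) G.bd := G.hom_ms _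

/-- Points over the torus. -/
def Co (L : Fld K) (w : Vr → L) : Prop := G.Cn L w ∧ G.bd L w ≠ 0

/-- The torsor over the open part. -/
noncomputable def CO : QS K G.Γ :=
  G.CC.sub ((G.CC.S.opn (fun L w => G.bd L w ≠ 0) fun _ _ R _ _ m m' e h =>
    Rel.ne_zero (G.hom_bd.reg R m m' e) h).copy G.Co fun _ _ => Iff.rfl) (fun _ _ m => m.1)
    fun L a w h0 m => ⟨G.CC.inv L a w h0 m.1,
      (G.hom_bd.hom L a w h0 m.1).trans_ne (mul_ne_zero (wt_ne h0 _) m.2)⟩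

/-- The torsor over the boundary. -/
noncomputable abbrev BO : QS K G.Γ := G.CC.zer G.hom_bd

/-- The parts of the boundary. -/
noncomputable abbrev BI (i : Fin (2 * dd + 1)) : QS K G.Γ := G.CC.zer (G.hom_ms (some (some i)))

/-- The exponents of the action on the part `i` of the boundary. -/
def gx (i : Fin (2 * dd + 1)) (l : Vr) : ℤ :=
  l.elim 0 (Sum.elim (fun _ => 0) fun j => eta _ i ⬝ᵥ G.e G.v0 j)

/-- The exponents of the equation of a stratum. -/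
def sa (v : G.V) (Z : Finset Jx) (s : Sd (2 * dd)) (j : {j // j ∉ Z}) : ℤ := G.ea (G.c v j) s

/-- The coefficients of the equation of a stratum. -/
def sc (v : G.V) (Z : Finset Jx) (s : Sd (2 * dd)) : K :=
  if ∀ j ∈ Z, G.ea (G.c v j) s = 0 then cfs G.lam s else 0

/-- The gradients of the equations. -/
noncomputable def row (L : Fld K) (w : Vr → L) (r : Fin 2) (l : Vr) : L :=
  aeval w (pderiv l (G.E r))

/-- The section over the open part. -/
noncomputable def sec (L : Fld K) (A : xz.X L) : Vr → L := fun l =>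
  l.elim 0 (Sum.elim (fun _ => 1) fun j =>
    (j.elim A.2 fun _ => 1) * ∏ i, A.1 i.succ ^ G.e G.v0 j (some i))

/-- The character `k` of the big torus in the homogeneous coordinates. -/
noncomputable def lm {L : Type} [Field L] (w : Vr → L) (k : Jx → ℤ) : L :=
  ∏ r, w (some r) ^ (G.ρ r ⬝ᵥ k)

/-- The projection to the open part. -/
noncomputable def pr (L : Fld K) (w : Vr → L) : xz.X L :=
  (fun i => G.lm w (ev _ i), G.lm w (Pi.single none 1))

/-- The element of the torus that moves a point into the section. -/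
def ns (_ : GD K) (L : Fld K) (w : Vr → L) : Tr → L := fun s => (w (some (.inl s)))⁻¹

/-- `Q` is a power of the characteristic and the parameter lies in the field with `Q` elements. -/
def Fr (p Q : ℕ) : Prop := (∃ f, Q = p ^ f) ∧ G.lam ^ Q = G.lam

/-- The number of fixed points in `S` of Frobenius, or of its composition with the involution. -/
noncomputable def fs (S : (Vr → Fld.base K) → Prop) (Q : ℕ) (ε : Bool) : ℕ :=
  Nat.card {E : (G.Γ.amb K).pt (.base K) // ∃ w, S w ∧ E = G.Γ.pt w ∧ E = G.Γ.pt (gg Q ε w)}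

/-- The number of fixed points. -/
noncomputable abbrev fx : ℕ → Bool → ℕ := G.fs (G.Cn (.base K))

/-- The number of fixed points in the open part. -/
noncomputable abbrev fu : ℕ → Bool → ℕ := G.fs (G.Co (.base K))

/-- The number of fixed points in the boundary. -/
noncomputable abbrev fb : ℕ → Bool → ℕ := G.fs (G.BO.mem (.base K))

/-- The trace of the powers of Frobenius on the anti-invariant part; `c` for the identity. -/
noncomputable def PP (c : ℂ) (q m : ℕ) : ℂ :=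
  if m = 0 then c else ((G.fx (q ^ m) false : ℂ) - G.fx (q ^ m) true) / 2

/-- `y` is a generic point of the double cover over `L`, and `M` is its function field. -/
structure GenU (j : ℕ) {L M : Fld K} (α : L →ₐ[K] M) (y : xz.X M) : Prop where
  gL : Good j L
  gM : Good (j + 2 * dd) M
  mem : G.UU.mem M y
  top : gen α (xz.co y) = ⊤

end GD

/-- The type of relations between functionals on `W` and on `U × U × W`. -/
abbrev CRel (G : GD K) : Type 1 :=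
  ∀ ⦃d : Cd⦄ ⦃W : ASp K d⦄ ⦃j : ℕ⦄, AF j W → AF (j + 2 * dd) ((G.UU.prod G.UU).prod W) → Prop

/-- The laws of the contraction with the diagonal. -/
structure ConL (G : GD K) (p : ℕ) (c₀ : ℂ) (AC : CRel G) : Prop where
  ex : ∀ {d : Cd} {W : ASp K d} {j : ℕ} (φ : AF j W), ∃ Φ, AC φ Φ
  anti : ∀ {d : Cd} {W : ASp K d} {j : ℕ} {φ : AF j W} {Φ}, AC φ Φ → ∀ (L : Fld K)
    (A B : xz.X L) (w : d.X L), Φ.a L ((ngz L A, B), w) = -Φ.a L ((A, B), w) ∧
      Φ.a L ((A, ngz L B), w) = -Φ.a L ((A, B), w)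
  nat : ∀ {d d' : Cd} {W : ASp K d} {W' : ASp K d'} {j : ℕ} {φ : AF j W} {φ' : AF j W'} {Φ Φ'},
    AC φ Φ → AC φ' Φ' → ∀ {g : ∀ L : Fld K, d'.X L → d.X L}, Mp W' W g → Pro W' W g → ∀ χ : ℂ,
    (∀ L w, W'.mem L w → φ'.a L w = χ * φ.a L (g L w)) →
    ∀ (L : Fld K) (A B : xz.X L) (w : d'.X L), W'.mem L w →
      Φ'.a L ((A, B), w) = χ * Φ.a L ((A, B), g L w)
  kills : ∀ {d : Cd} {W : ASp K d} {j : ℕ} {φ : AF j W} {Φ}, AC φ Φ → ∀ q : d.ι → Prop,
    KlP d q j φ.a → KlP ((xz.prod xz).prod d) (Sum.elim (fun _ => True) q) (j + 2 * dd) Φ.a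
  unit : ∀ {c d : Cd} {S : ASp K c} {W : ASp K d} {j : ℕ} {φ : AF j W} {Φ}, AC φ Φ →
    ∀ {g : ∀ L : Fld K, (xz.prod c).X L → d.X L}, Mp (G.UU.prod S) W g → Pro (G.UU.prod S) W g →
    ∀ {L M : Fld K} {α : L →ₐ[K] M} {y : xz.X M}, G.GenU j α y →
    ∀ (R : xz.X L) (u : c.X L), G.UU.mem L R → S.mem L u →
      Φ.a M ((xz.map α R, y), g M (y, c.map α u)) =
        (φ.a L (g L (R, u)) - φ.a L (g L (ngz L R, u))) / 2
  loop : ∀ {d : Cd} {W : ASp K d} {j : ℕ} {φ : AF j W} {Φ}, AC φ Φ → ∀ {Q : ℕ}, 1 < Q → G.Fr p Q →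
    ∀ {L M : Fld K} {α : L →ₐ[K] M} {y : xz.X M}, G.GenU j α y → ∀ w : d.X L, W.mem L w →
      Φ.a M ((frb Q M y, y), d.map α w) = ((G.fx Q false : ℂ) - G.fx Q true) / 2 * φ.a L w ∧
      Φ.a M ((y, frb Q M y), d.map α w) = ((G.fx Q false : ℂ) - G.fx Q true) / 2 * φ.a L w
  diag : ∀ {d : Cd} {W : ASp K d} {j : ℕ} {φ : AF j W} {Φ}, AC φ Φ →
    ∀ {L M : Fld K} {α : L →ₐ[K] M} {y : xz.X M}, G.GenU j α y → ∀ w : d.X L, W.mem L w →
      Φ.a M ((y, y), d.map α w) = c₀ * φ.a L w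

section Diagrams

variable {T : Type}

/-- The point with coordinates the Frobenius images of `P`. -/
def cfg (q : ℕ) (e : T → ℕ) (L : Fld K) (P : T → xz.X L) : T → xz.X L :=
  fun i => frb (q ^ e i) L (P i)

/-- The field generated by the coordinates `X`. -/
noncomputable def xf (L : Fld K) (P : T → xz.X L) : IntermediateField K L :=
  IntermediateField.adjoin K (Set.range fun s : T × Fin (2 * dd + 1) => (P s.1).1 s.2)

/-- The normalised value of `a` on the product of graphs of Frobenius given by `τ` and `e`. -/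
def DV (G : GD K) (q : ℕ) (a : ∀ L : Fld K, (T → xz.X L) → ℂ) (τ : T → T) (e : T → ℕ)
    (v : ℂ) : Prop :=
  ∀ (L : Fld K) (P : T → xz.X L), Good (dd * Nat.card T) L → (∀ i, G.UU.mem L (P i)) →
    (∀ i, P (τ i) = P i) → a L (cfg q e L P) = Bridge.dg (xf L P) * v

/-- The functional changes sign under the involution of every factor. -/
def AntiP [DecidableEq T] (a : ∀ L : Fld K, (T → xz.X L) → ℂ) : Prop :=
  ∀ (i : T) (L : Fld K) (x : T → xz.X L), a L (Function.update x i (ngz L (x i))) = -a L x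

/-- The functional vanishes on exterior products for the partition `sd` of the factors. -/
def KlS [Finite T] (sd : T → Bool) (a : ∀ L : Fld K, (T → xz.X L) → ℂ) : Prop :=
  KlP (Cd.pi T xz) (fun s => sd s.1 = true) (dd * Nat.card T) a

end Diagrams

end Defs

omit [Rk] in
/-- The equation is prime. -/
class XP : Prop where
  pf : ∀ {k : Type} [Field k] {D : ℕ} (lam : k), 0 < D → Prime (mcF D lam) ∧ ∀ l, ¬ mcF D lam ∣ X l

omit [Rk] in
/-- The ideal. -/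
class XJ : Prop where
  hom : ∀ {k σ : Type} [Field k] {D : ℕ} (m : σ → Jd D → ℕ) (lam : k), Homog (mcI m lam)
  up : ∀ {k σ : Type} [Field k] {D : ℕ} (m : σ → Jd D → ℕ) (lam : k),
    upI (mcI m lam) = mcI m (algebraMap k (AlgebraicClosure k) lam)
  prime : ∀ {k σ : Type} [Field k] {D : ℕ} (m : σ → Jd D → ℕ) (lam : k), 0 < D →
    (mcI m lam).IsPrime

omit [Rk] in
/-- The dimension. -/
class XM : Prop where
  dim : ∀ {k R : Type} [Field k] {D : ℕ} (F : Fan D R) (lam : k), 0 < D →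
    ringKrullDim (MvPolynomial F.σ k ⧸ mcI F.m lam) = (D + 1 : ℕ)

/-- Points of the zero locus over a ring. -/
class XR : Prop where
  bin : ∀ {k R : Type} [Field k] [CommRing R] [Algebra k R] {σ ι κ : Type} [Fintype ι] [Fintype κ]
    {D : ℕ} (m : σ → Jd D → ℕ) (lam : k) (N : σ → R), (∀ f ∈ mcI m lam, aeval N f = 0) →
    ∀ (s : ι → σ) (s' : κ → σ) (a : ι → ℕ) (b : κ → ℕ), ∑ i, a i = ∑ i, b i →
      (∀ l, ∑ i, a i * m (s i) l = ∑ i, b i * m (s' i) l) → ∏ i, N (s i) ^ a i = ∏ i, N (s' i) ^ b i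
  ring : ∀ {k R : Type} [Field k] [CommRing R] [Algebra k R] (F : Fan (2 * dd) Ry) (lam : k),
    0 < dd → ∀ (v : F.V) (N : F.σ → R), (∀ f ∈ mcI F.m lam, aeval N f = 0) → N (F.vx v) = 1 →
      (∀ r, aeval (unp F v N) (eqs F lam r) = 0) ∧ nu F (unp F v N) = N ∧ Nrm F v (unp F v N)
  cv : ∀ {k R : Type} [Field k] [CommRing R] [Algebra k R] (F : Fan (2 * dd) Ry) (lam : k)
    (N : F.σ → R), (∀ f ∈ mcI F.m lam, aeval N f = 0) → ∀ s, ∃ (v : F.V) (n : ℕ), 0 < n ∧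
      N (F.vx v) ∣ N s ^ n

/-- The embedding and its inverse. -/
class XU : Prop where
  one : ∀ {R : Type} [CommRing R] (F : Fan (2 * dd) Ry) (v : F.V) (w : Vr → R), Nrm F v w →
    nu F w (F.vx v) = 1
  back : ∀ {R : Type} [CommRing R] (F : Fan (2 * dd) Ry) (v : F.V) (w : Vr → R), Nrm F v w →
    unp F v (nu F w) = w
  map : ∀ {R S : Type} [CommRing R] [CommRing S] (f : R →+* S) (F : Fan (2 * dd) Ry) (w : Vr → R),
    (fun s => f (nu F w s)) = nu F fun l => f (w l)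
  pow : ∀ {R : Type} [CommRing R] (F : Fan (2 * dd) Ry) (Q : ℕ) (w : Vr → R),
    (nu F fun l => w l ^ Q) = fun s => nu F w s ^ Q
  ch : ∀ {L : Type} [Field L] (T : TD) {w : Vr → L},
    T.Γ.nz w ↔ ∃ v, ∀ r, r ∉ Set.range (T.c v) → w (some r) ≠ 0
  vx : ∀ {L : Type} [Field L] (F : Fan (2 * dd) Ry) (w : Vr → L) (v : F.V),
    nu F w (F.vx v) ≠ 0 ↔ ∀ r, r ∉ Set.range (F.c v) → w (some r) ≠ 0
  nz : ∀ {L : Type} [Field L] {T : TD} {w : Vr → L}, nu T.toFan w ≠ 0 ↔ T.Γ.nz w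
  scl : ∀ {L : Type} [Field L] (T : TD) {a : Tr → L} (w : Vr → L), Un a →
    nu T.toFan (T.Γ.scl a w) = wt a (wν T.toFan) • nu T.toFan w
  nrm : ∀ {L : Type} [Field L] {T : TD} {w : Vr → L} {v : T.V}, w none = 0 →
    nu T.toFan w (T.vx v) ≠ 0 → ∃ a, Un a ∧ Nrm T.toFan v (T.Γ.scl a w)
  inj : ∀ {L : Type} [Field L] {T : TD} {w w' : Vr → L} {c : L}, T.Γ.nz w → w none = 0 →
    w' none = 0 → c ≠ 0 → nu T.toFan w' = c • nu T.toFan w → T.Γ.pt w = T.Γ.pt w'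
  rel : ∀ {K : Type} [Field K] {M L : Fld K} (R : Rel M L) (F : Fan (2 * dd) Ry) {w : Vr → M}
    {w' : Vr → L}, (∀ l, R.r (w l) (w' l)) → ∀ s, R.r (nu F w s) (nu F w' s)

/-- The charts are smooth. -/
class XK (k : Type) [Field k] : Prop where
  smooth : ∀ (G : GD (AlgebraicClosure k)) {lam : k},
    algebraMap k (AlgebraicClosure k) lam = G.lam → ∀ s, Algebra.Smooth k (Chart (mcI G.m lam) s)

/-- The rays of the fan. -/
class X3 : Prop where
  z : ∀ T : TD, T.ρ (.inr none) = Pi.single none 1 ∧ T.ψ (.inr none) = 0 ∧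
    ∀ j, T.e T.v0 j none = if j = none then 1 else 0
  neg : ∀ (T : TD) (v : T.V) (j : Jx), T.c v j ≠ .inr none →
    T.ea (T.c v j) (some none) ≠ 0 ∧ ∃ i, T.ea (T.c v j) (some (some i)) ≠ 0
  vtx : ∀ (T : TD) (v : T.V), ∃ s, ∀ j, T.ea (T.c v j) s = 0
  rel : ∀ (T : TD) (r : Ry), ∑ i, T.ea r (some (some i)) = (2 * dd + 1) * T.ea r (some none)
  span : ∀ (T : TD) {A : Type} [CommRing A] (x : Jx → A),
    (∀ j, ∑ l, (T.ρ (.inr j) l : A) * x l = 0) → x = 0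

section Geo

variable (K : Type) [Field K]

/-- The top exterior power of the motive of the double cover is a sum of products. -/
class ALT : Prop where
  alt : ∀ (G : GD K) (κ : Type) [Fintype κ] [DecidableEq κ], Nat.card κ = 2 * dd + 1 →
    AltS G.UU ngz κ

/-- The gradients of the equations are independent. -/
class X0 : Prop where
  sm : ∀ (G : GD K) (L : Fld K) (w : Vr → L), G.Cn L w → ∃ μ ν, mnr (G.row L w) μ ν ≠ 0

/-- The section and the projection. -/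
class X1 : Prop where
  co : ∀ {G : GD K} {L : Fld K} {w : Vr → L},
    G.Co L w ↔ G.Cn L w ∧ ∀ r, r ≠ .inr none → w (some r) ≠ 0
  lm_add : ∀ {G : GD K} {L : Fld K} {w : Vr → L}, (∀ r, r ≠ .inr none → w (some r) ≠ 0) →
    ∀ k k' : Jx → ℤ, 0 ≤ k none → 0 ≤ k' none → G.lm w (k + k') = G.lm w k * G.lm w k'
  ms_lm : ∀ {G : GD K} {L : Fld K} {w : Vr → L}, (∀ r, r ≠ .inr none → w (some r) ≠ 0) →
    ∀ s, G.ms s L w = G.bd L w * G.lm w (sp _ s)
  lm_sec : ∀ {G : GD K} {L : Fld K} {A : xz.X L}, (∀ i, A.1 i ≠ 0) → ∀ k : Jx → ℤ,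
    G.lm (G.sec L A) k = A.2 ^ k none * ∏ i, A.1 i.succ ^ k (some i)
  nu_lm : ∀ {G : GD K} {L : Fld K} {w : Vr → L}, (∀ r, w (some r) ≠ 0) →
    ∃ c, c ≠ 0 ∧ ∀ s, G.ν w s = c * G.lm w fun l => G.m s l
  sec_co : ∀ {G : GD K} {L : Fld K} {A : xz.X L}, G.UU.mem L A → G.Co L (G.sec L A)
  pr_uu : ∀ {G : GD K} {L : Fld K} {w : Vr → L}, G.Co L w → G.UU.mem L (G.pr L w)
  pr_sec : ∀ {G : GD K} {L : Fld K} {A : xz.X L}, G.UU.mem L A → G.pr L (G.sec L A) = A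
  sec_pr : ∀ {G : GD K} {L : Fld K} {w : Vr → L}, G.Co L w →
    Un (G.ns L w) ∧ G.sec L (G.pr L w) = G.Γ.scl (G.ns L w) w
  pr_scl : ∀ (G : GD K) {L : Fld K} {a : Tr → L} (w : Vr → L), Un a →
    G.pr L (G.Γ.scl a w) = G.pr L w
  sec_rel : ∀ {G : GD K} {M L : Fld K} (R : Rel M L) {A : xz.X M} {A' : xz.X L}, G.UU.mem L A' →
    xz.lift R.r A A' → cw.lift R.r (G.sec M A) (G.sec L A')
  pr_rel : ∀ {G : GD K} {M L : Fld K} (R : Rel M L) {w : Vr → M} {w' : Vr → L}, G.Co L w' →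
    cw.lift R.r w w' → xz.lift R.r (G.pr M w) (G.pr L w') ∧ ∀ s, R.r (G.ns M w s) (G.ns L w' s)
  sec_map : ∀ (G : GD K) {L M : Fld K} (α : L →ₐ[K] M) (A : xz.X L),
    cw.map α (G.sec L A) = G.sec M (xz.map α A)
  pr_map : ∀ (G : GD K) {L M : Fld K} (α : L →ₐ[K] M) (w : Vr → L),
    xz.map α (G.pr L w) = G.pr M (cw.map α w)
  sec_mem : ∀ (G : GD K) {L : Fld K} {F : IntermediateField K L} {A : xz.X L},
    (∀ i, xz.co A i ∈ F) → ∀ l, G.sec L A l ∈ F
  pr_mem : ∀ (G : GD K) {L : Fld K} {F : IntermediateField K L} {w : Vr → L}, (∀ l, w l ∈ F) →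
    (∀ i, xz.co (G.pr L w) i ∈ F) ∧ ∀ s, G.ns L w s ∈ F

/-- The involution. -/
class X2 : Prop where
  gam_one : ∀ {L : Fld K} (g : Vr → ℤ) (w : Vr → L), gam g 1 w = w
  gam_gam : ∀ {L : Fld K} (g : Vr → ℤ) (τ τ' : L) (w : Vr → L),
    gam g τ (gam g τ' w) = gam g (τ * τ') w
  gam_scl : ∀ (G : GD K) {L : Fld K} (g : Vr → ℤ) (τ : L) (a : Tr → L) (w : Vr → L),
    gam g τ (G.Γ.scl a w) = G.Γ.scl a (gam g τ w)
  gam_rel : ∀ {M L : Fld K} (R : Rel M L) (g : Vr → ℤ) {τ : M} {τ' : L} {w : Vr → M} {w' : Vr → L},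
    R.r τ τ' → τ' ≠ 0 → cw.lift R.r w w' → cw.lift R.r (gam g τ w) (gam g τ' w')
  gam_ms : ∀ (G : GD K) {L : Fld K} (g : Vr → ℤ) {τ : L} (w : Vr → L) (s : Sd (2 * dd)), τ ≠ 0 →
    (G.ms s L (gam g τ w) = 0 ↔ G.ms s L w = 0)
  gam_neg : ∀ (G : GD K) {L : Fld K} (i : Fin (2 * dd + 1)) (w : Vr → L),
    gam (G.gx i) (-1) w = sw true w
  gam_bi : ∀ {G : GD K} {L : Fld K} {i : Fin (2 * dd + 1)} {τ : L} {w : Vr → L}, τ ≠ 0 →
    (G.BI i).mem L w → (G.BI i).mem L (gam (G.gx i) τ w)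
  cov : ∀ {G : GD K} {L : Fld K} {w : Vr → L}, G.BO.mem L w ↔ ∃ i, (G.BI i).mem L w
  sw_sw : ∀ {L : Fld K} (ε : Bool) (w : Vr → L), sw ε (sw ε w) = w
  sw_scl : ∀ (G : GD K) {L : Fld K} (ε : Bool) (a : Tr → L) (w : Vr → L),
    sw ε (G.Γ.scl a w) = G.Γ.scl a (sw ε w)
  sw_rel : ∀ {M L : Fld K} (R : Rel M L) (ε : Bool) {w : Vr → M} {w' : Vr → L},
    cw.lift R.r w w' → cw.lift R.r (sw ε w) (sw ε w')
  sw_map : ∀ {L M : Fld K} (α : L →ₐ[K] M) (ε : Bool) (w : Vr → L),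
    cw.map α (sw ε w) = sw ε (cw.map α w)
  sw_cn : ∀ {G : GD K} {L : Fld K} (ε : Bool) {w : Vr → L}, G.Cn L (sw ε w) ↔ G.Cn L w
  sw_co : ∀ {G : GD K} {L : Fld K} (ε : Bool) {w : Vr → L}, G.Co L (sw ε w) ↔ G.Co L w
  sec_sg : ∀ (G : GD K) {L : Fld K} (ε : Bool) (A : xz.X L),
    G.sec L (sg ε L A) = sw ε (G.sec L A)
  pr_sw : ∀ (G : GD K) {L : Fld K} (ε : Bool) (w : Vr → L), G.pr L (sw ε w) = sg ε L (G.pr L w)
  sg_sg : ∀ (ε : Bool) (L : Fld K) (A : xz.X L), sg ε L (sg ε L A) = A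
  sg_uu : ∀ {G : GD K} {L : Fld K} (ε : Bool) {A : xz.X L}, G.UU.mem L (sg ε L A) ↔ G.UU.mem L A
  sg_rel : ∀ {M L : Fld K} (R : Rel M L) (ε : Bool) {A : xz.X M} {A' : xz.X L},
    xz.lift R.r A A' → xz.lift R.r (sg ε M A) (sg ε L A')
  sg_map : ∀ {L M : Fld K} (α : L →ₐ[K] M) (ε : Bool) (A : xz.X L),
    xz.map α (sg ε L A) = sg ε M (xz.map α A)

/-- The dimension of the boundary. -/
class BD : Prop where
  dm : ∀ {G : GD K} {L : Fld K} {w : Vr → L}, G.BO.mem L w → cw.Dm L w dl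

omit [Rk] in
/-- Cycles on the product with a torus are generated by exterior products. -/
class CT : Prop where
  gm : ∀ (ι : Type) [Fintype ι], CK (Gm K ι).sp
  sub : ∀ {ι : Type} [Fintype ι] (k g : ι → ℤ), g ⬝ᵥ k = 1 →
    CK (HS (fun b : Bool => bif b then k else 0) fun b => bif b then (1 : K) else -1).sp

omit [Rk] in
/-- The same for a hypersurface in a torus that is linear in one character. -/
class CH : Prop where
  ck : ∀ {ι κ : Type} [Fintype ι] [Fintype κ] (a : κ → ι → ℤ) (c : κ → K) (s₁ : κ) (g : ι → ℤ)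
    (n : ℤ), c s₁ ≠ 0 → g ⬝ᵥ a s₁ = n + 1 → (∀ s, s ≠ s₁ → c s ≠ 0 → g ⬝ᵥ a s = n) →
    CK (HS a c).sp

/-- The same for the strata of the boundary. -/
class CS : Prop where
  ck : ∀ (G : GD K) (v : G.V) (Z : Finset Jx), (∃ j ∈ Z, G.c v j ≠ .inr none) →
    CK (HS (G.sa v Z) (G.sc v Z)).sp

/-- The same for the boundary. -/
class CB : Prop where
  ck : ∀ G : GD K, CK G.BO.sp

/-- The branch function is not a square. -/
class XA : Prop where
  nsq : ∀ (G : GD K) {j : ℕ} {L M : Fld K} {α : L →ₐ[K] M} {x : Fin (2 * dd) → M}, Free j α x →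
    ∀ z : M, z ^ 2 ≠ G.om M (xc x)

/-- Generic points of the double cover. -/
class XG : Prop where
  ex : ∀ (G : GD K) {j : ℕ} {L : Fld K}, Good j L →
    ∃ (M : Fld K) (α : L →ₐ[K] M) (y : xz.X M), G.GenU j α y
  neg : ∀ {G : GD K} {j : ℕ} {L M : Fld K} {α : L →ₐ[K] M} {y : xz.X M}, G.GenU j α y →
    ∀ ε, G.GenU j α (sg ε M y)
  chart : ∀ {G : GD K} {j : ℕ} {L M : Fld K} {α : L →ₐ[K] M} {y : xz.X M}, G.GenU j α y →
    ∃ (M₀ : Fld K) (α₀ : L →ₐ[K] M₀) (β : M₀ →ₐ[K] M) (x : Fin (2 * dd) → M₀),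
      β.comp α₀ = α ∧ (∀ i, β (xc x i) = y.1 i) ∧ Free j α₀ x ∧ deg β = 2 ∧ Gen β y.2 ∧ y.2 ≠ 0
  iso : ∀ {G : GD K} {j j' : ℕ} {L M L' M' : Fld K} {α : L →ₐ[K] M} {α' : L' →ₐ[K] M'} {y : xz.X M}
    {y' : xz.X M'}, G.GenU j α y → G.GenU j' α' y' → ∀ ι : L →ₐ[K] L',
    ∃ ρ : M →ₐ[K] M', ρ.comp α = α'.comp ι ∧ xz.map ρ y = y' ∧ (j = j' → deg ρ = deg ι)
  dgr : ∀ {G : GD K} {j : ℕ} {L M : Fld K} {α : L →ₐ[K] M} {y : xz.X M}, G.GenU j α y →
    ∀ s : Set L, Bridge.dg (IntermediateField.adjoin K (α '' s ∪ Set.range y.1)) =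
      2 * Bridge.dg (IntermediateField.adjoin K s)

/-- The open part is dense. -/
class DS : Prop where
  den : ∀ (G : GD K) (f : MvPolynomial Vr K),
    (∀ (L : Fld K) w, G.Cn L w → (∀ r, w (some r) ≠ 0) → aeval w f = 0) →
    ∀ (L : Fld K) w, G.Cn L w → aeval w f = 0

/-- The zero locus of the ideal. -/
class XL : Prop where
  zl : ∀ {G : GD K} {L : Fld K} {w : Vr → L}, G.Cn L w → G.ν w ∈ zeroLocus L G.I
  srj : ∀ {G : GD K} {L : Fld K} {N : G.σ → L}, N ∈ zeroLocus L G.I → N ≠ 0 →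
    ∃ (w : Vr → L) (c : L), c ≠ 0 ∧ G.Cn L w ∧ c • G.ν w = N

/-- The generic point of the zero locus. -/
class XN : Prop where
  ker : ∀ {G : GD K} {j : ℕ} {L M : Fld K} {α : L →ₐ[K] M} {y : xz.X M}, G.GenU j α y →
    ∀ {f : MvPolynomial G.σ K} {n : ℕ}, f.IsHomogeneous n → aeval (G.ν (G.sec M y)) f = 0 →
      f ∈ G.I
  ff : ∀ {G : GD K} {M : Fld K} {α : Fld.base K →ₐ[K] M} {y : xz.X M}, G.GenU 0 α y →
    ∀ u : G.σ → M, Bridge.FF u (G.ν (G.sec M y)) = ⊤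

/-- Frobenius. -/
class XF (p : ℕ) : Prop where
  pow : ∀ {G : GD K} {q : ℕ}, G.Fr p q → ∀ m, G.Fr p (q ^ m)
  gg_cn : ∀ {G : GD K} {Q : ℕ}, G.Fr p Q → ∀ {L : Fld K} (ε : Bool) {w : Vr → L},
    G.Cn L (gg Q ε w) ↔ G.Cn L w
  gg_co : ∀ {G : GD K} {Q : ℕ}, G.Fr p Q → ∀ {L : Fld K} (ε : Bool) {w : Vr → L},
    G.Co L (gg Q ε w) ↔ G.Co L w
  gg_scl : ∀ (G : GD K) (Q : ℕ) (ε : Bool) {L : Fld K} (a : Tr → L) (w : Vr → L),
    gg Q ε (G.Γ.scl a w) = G.Γ.scl (a ^ Q) (gg Q ε w)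
  gg_rel : ∀ (Q : ℕ) (ε : Bool) {M L : Fld K} (R : Rel M L) {w : Vr → M} {w' : Vr → L},
    cw.lift R.r w w' → cw.lift R.r (gg Q ε w) (gg Q ε w')
  gg_map : ∀ (Q : ℕ) (ε : Bool) {L M : Fld K} (α : L →ₐ[K] M) (w : Vr → L),
    cw.map α (gg Q ε w) = gg Q ε (cw.map α w)
  mem : ∀ {G : GD K} {Q : ℕ}, G.Fr p Q → ∀ {L : Fld K} {A : xz.X L},
    G.UU.mem L (frb Q L A) ↔ G.UU.mem L A
  map : ∀ (Q : ℕ) {L M : Fld K} (α : L →ₐ[K] M) (A : xz.X L),
    xz.map α (frb Q L A) = frb Q M (xz.map α A)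
  one : ∀ (L : Fld K) (A : xz.X L), frb 1 L A = A
  mul : ∀ (Q Q' : ℕ) (L : Fld K) (A : xz.X L), frb Q L (frb Q' L A) = frb (Q * Q') L A
  sg : ∀ {G : GD K} {Q : ℕ}, G.Fr p Q → ∀ (ε : Bool) (L : Fld K) (A : xz.X L),
    frb Q L (sg ε L A) = sg ε L (frb Q L A)
  sec : ∀ {G : GD K} {Q : ℕ}, G.Fr p Q → ∀ (ε : Bool) {L : Fld K} (A : xz.X L),
    G.sec L (MC.sg ε L (frb Q L A)) = gg Q ε (G.sec L A)
  pr : ∀ (G : GD K) (Q : ℕ) (ε : Bool) {L : Fld K} (w : Vr → L),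
    G.pr L (gg Q ε w) = MC.sg ε L (frb Q L (G.pr L w))
  mp : ∀ {G : GD K} {Q : ℕ}, G.Fr p Q → Mp G.UU G.UU (frb Q) ∧ Pro G.UU G.UU (frb Q) ∧
    Srj G.UU G.UU (frb Q) ∧ ∀ L : Fld K, Function.Injective (frb Q L)

/-- Fixed points and the graph of Frobenius. -/
class XI (p : ℕ) : Prop where
  fix : ∀ (G : GD K) (Y : Sm K G.σ), Y.I = G.I → ∀ Q, G.Fr p Q → Y.fixed Q = G.fx Q false
  gr : ∀ (G : GD K) (Y : Sm K G.σ), Y.I = G.I → ∀ Q, G.Fr p Q → ∀ {M : Fld K}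
    {α : Fld.base K →ₐ[K] M} {y : xz.X M}, G.GenU 0 α y →
    Y.grC Q = Finsupp.single (Bridge.PP (G.ν (G.sec M (frb Q M y))) (G.ν (G.sec M y))) 1

/-- The fixed points in the open part and in the boundary. -/
class XB1 : Prop where
  cnt : ∀ (G : GD K) {Q : ℕ}, 1 < Q → ∀ ε, G.fx Q ε = G.fu Q ε + G.fb Q ε

/-- The fixed points in the boundary. -/
class XB2 (p : ℕ) : Prop where
  cnt : ∀ {G : GD K} {Q : ℕ}, 1 < Q → G.Fr p Q → G.fb Q false = G.fb Q true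

/-- The fixed points in the open part. -/
class XB3 (p : ℕ) : Prop where
  cnt : ∀ {G : GD K} {Q : ℕ}, G.Fr p Q → ∀ ε, G.fu Q ε = cn (2 * dd + 1) G.lam Q ε

/-- Frobenius and functionals. -/
class XV (p : ℕ) : Prop where
  pull : ∀ {G : GD K} {q : ℕ}, G.Fr p q → ∀ {T : Type} [Finite T] [DecidableEq T] {j : ℕ}
    (φ : AF j (G.UU.pi T)) (e : T → ℕ), ∃ ψ : AF j (G.UU.pi T),
      (∀ L x, ψ.a L x = φ.a L (cfg q e L x)) ∧ (AntiP φ.a → AntiP ψ.a) ∧
      ∀ sd : T → Bool, KlS sd φ.a → KlS sd ψ.a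
  desc : ∀ {G : GD K} {q : ℕ}, G.Fr p q → ∀ {T : Type} [Finite T] [DecidableEq T] {j : ℕ}
    (φ : AF j (G.UU.pi T)) (e : T → ℕ), ∃ ψ : AF j (G.UU.pi T),
      (∀ L x, φ.a L x = ψ.a L (cfg q e L x)) ∧ (AntiP φ.a → AntiP ψ.a) ∧
      ∀ sd : T → Bool, KlS sd φ.a → KlS sd ψ.a

/-- Normalised values. -/
class XW (p : ℕ) : Prop where
  shift : ∀ {G : GD K} {q : ℕ}, G.Fr p q → ∀ {T : Type} [Finite T]
    (φ : AF (dd * Nat.card T) (G.UU.pi T)) {τ : T → T}, Inv τ →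
    ∀ (e e' : T → ℕ) (i : T) (m : ℕ) (v : ℂ),
    e' i = e i + m → e' (τ i) = e (τ i) + m → (∀ t, t ≠ i → t ≠ τ i → e' t = e t) →
    (DV G q φ.a τ e' (((q : ℂ) ^ dd) ^ (2 * m) * v) ↔ DV G q φ.a τ e v)
  val : ∀ {G : GD K} {q : ℕ}, G.Fr p q → ∀ φ : AF (dd * Nat.card Bool) (G.UU.pi Bool),
    AntiP φ.a → ∀ e : Bool → ℕ, ∃ v, DV G q φ.a not e v
  gen : ∀ (G : GD K) (κ : Type) [Finite κ], ∃ (L : Fld K) (P : κ → xz.X L),
    Good (dd * (2 * Nat.card κ)) L ∧ (∀ i, G.UU.mem L (P i)) ∧ Bridge.dg (xf L P) ≠ 0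

/-- The contraction with the diagonal exists. -/
class ZO (p : ℕ) : Prop where
  ex : ∀ G : GD K, ∃ (c₀ : ℂ) (AC : CRel G), ConL G p c₀ AC

open Classical in
/-- One contraction. -/
class ZS (p : ℕ) : Prop where
  step : ∀ {G : GD K} {c₀ : ℂ} {AC : CRel G}, ConL G p c₀ AC → ∀ {q : ℕ}, 1 < q → G.Fr p q →
    ∀ {T : Type} [Finite T] [DecidableEq T] (φ : AF (dd * Nat.card T) (G.UU.pi T)), AntiP φ.a →
    ∃ Φ : AF (dd * Nat.card (Option (Option T))) (G.UU.pi (Option (Option T))), AntiP Φ.a ∧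
      (∀ (sd : T → Bool) (s : Bool), KlS sd φ.a →
        KlS (fun t : Option (Option T) => (Option.bind t id).elim s sd) Φ.a) ∧
      ∀ (τ : Option (Option T) → Option (Option T)) (e : Option (Option T) → ℕ) (v : ℂ), Inv τ →
        DV G q φ.a (rτ τ) (re τ e) v → DV G q Φ.a τ e
          ((if Lp τ then lamP ((q : ℂ) ^ dd) (G.PP c₀ q) (e none) (e (some none)) else 1) * v / 2)

/-- The relation between the graphs of the powers of Frobenius. -/
class ZR (p : ℕ) : Prop where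
  rel : ∀ {G : GD K} {c₀ : ℂ} {AC : CRel G}, ConL G p c₀ AC → ∀ {q : ℕ}, 1 < q → G.Fr p q →
    ∀ {n r : ℕ}, n = 2 * dd + 1 → ∀ (sd : ℕ → Bool) (E : Fin n ⊕ Fin n ≃ Tw r),
    (∀ i, side sd r (E (Sum.inl i)) = true) → (∀ i, side sd r (E (Sum.inr i)) = false) →
    ∀ e : Tw r → ℕ, dsum E (lamP ((q : ℂ) ^ dd) (G.PP c₀ q)) ((q : ℂ) ^ dd) e ≠ 0 →
    ∃ f : Polynomial ℂ, f.eval ((q : ℂ) ^ dd) ≠ 0 ∧ f.eval 0 ≠ 0 ∧
      ∀ φ : AF (dd * Nat.card Bool) (G.UU.pi Bool), AntiP φ.a → KlS id φ.a → ∀ v : ℕ → ℂ,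
      (∀ j, DV G q φ.a not (fun b => bif b then j else 0) (v j)) →
      ∀ t, (f.sum fun j a => a * v (j + t)) = 0

/-- From linear forms on cycles to functionals. -/
class XQ [Base K] (p : ℕ) : Prop where
  brg : ∀ (G : GD K) (Y : Sm K G.σ), Y.I = G.I → ∀ q, G.Fr p q →
    ∀ b : Cyc (MvPolynomial (G.σ ⊕ G.σ) K) →ₗ[ℚ] ℚ,
    RatB Y.I ⊔ ⨆ δ, ProdB Y.I δ ≤ LinearMap.ker b →
    ∃ φ : AF (dd * Nat.card Bool) (G.UU.pi Bool), AntiP φ.a ∧ KlS id φ.a ∧
      ∀ j, DV G q φ.a not (fun b => bif b then j else 0) ((b (Y.grC (q ^ j)) : ℂ) / 2)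

end Geo

end Pool.Agent.Lib.MP_557161_ag.HG.MC
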