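import Pool.Agent.Lib.MP_557161_ag.HG.All1
import Pool.Agent.Lib.MP_557161_ag.HN.A2a
import Pool.Agent.Lib.MP_557161_ag.HN.A2b
import Pool.Agent.Lib.MP_557161_ag.HN.A4
import Pool.Agent.Lib.MP_557161_ag.HN.A5a
import Pool.Agent.Lib.MP_557161_ag.HN.A5
import Pool.Agent.Lib.MP_557161_ag.HN.A6
import Pool.Agent.Lib.MP_557161_ag.MC.StY

/-!
The top exterior power of the motive of the double cover of the torus is a sum of products.
-/

namespace Pool.Agent.Lib.MP_557161_ag.HG.MC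

open Pool.Agent.Lib.MP_557161_ag.DL

variable [Rk] {K : Type} [Field K]

namespace ALTp

/-- The hypergeometric datum with all exponents equal to one. -/
def hd (G : GD K) : HN.HD K dd where
  b l := l.elim dd fun _ => 0
  lam := G.lam
  hb := by simp
  l0 := G.l0
  two := G.two
  ch l := by
    cases l
    · exact G.ch
    · simp
  disc := by simpa using G.disc

lemma mem_iff (G : GD K) (L : Fld K) (x : xz.X L) : (hd G).U3.mem L x ↔ G.UU.mem L x := by
  have e : ∏ i, x.1 i ^ (hd G).aa (some i) = ∏ i, x.1 i :=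
    Finset.prod_congr rfl fun i _ => pow_one _
  exact ⟨fun m => G.UU_iff.2 ⟨e.symm.trans m.1.2, m.2⟩,
    fun m => ⟨⟨⟨trivial, GD.UU_ne m⟩, e.trans m.2.1⟩, m.2.2⟩⟩

end ALTp

theorem ALT_thm [Base K] : ALT K := by
  obtain ⟨p, hp, _⟩ := Base.char (K := K)
  have : Fact p.Prime := ⟨hp⟩
  have : FW0 K := FW0_thm
  have : FWp K p := FWp_thm
  have : MT K p := MT_all
  have : TV K p := TV_thm
  have : A3 K := A3_thm
  have : HN.A5a K p dd := HN.A5a_thm
  refine ⟨fun G κ _ _ h => ?_⟩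
  refine A1p.transfer (U := G.UU) (V := (ALTp.hd G).U3) (τ := ngz) (τ' := HN.ngz)
    (f := fun _ x => x) (g := fun _ x => x)
    ⟨⟨fun _ _ _ _ _ _ _ e => e, fun L x m => (ALTp.mem_iff G L x).2 m⟩,
      ⟨fun _ _ _ _ _ _ _ e => e, fun L x m => (ALTp.mem_iff G L x).1 m⟩,
      fun _ _ _ => rfl, fun _ _ _ => rfl⟩
    (fun L x => and_congr Iff.rfl (by simp only [HN.ngz, neg_sq])) (fun _ _ _ => rfl) κ ?_
  exact (HN.A2a_thm (p := p)).red _ κ (HN.A2b_thm.red _ κ (HN.A4_thm.red _ κ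
    (HN.A5_thm.red _ κ (HN.A6_thm.van _ κ h))))

end Pool.Agent.Lib.MP_557161_ag.HG.MC
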