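import Pool.Agent.Lib.MP_557161_ag.MC.StF

/-!
The normal fan of the simplex.
-/

namespace Pool.Agent.Lib.MP_557161_ag.HG.MC

open Matrix

namespace F1a

variable (D : ℕ)

/-- The index of a vertex among the monomials. -/
def idx (r : Option (Jd D)) : Sd D :=
  r.elim (some (some 0)) fun j => j.elim none fun l => some (some l.succ)

/-- The inner normal of the facet opposite to a vertex. -/
def rho (r : Option (Jd D)) : Jd D → ℤ :=
  r.elim (fun l => l.elim (-1) fun _ => -2) fun j =>
    j.elim (Pi.single none 1) fun m l => l.elim (-1) fun m' => if m' = m then 2 * D else -2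

def ph (r : Option (Jd D)) : ℤ := r.elim (-2) fun j => j.elim 0 fun _ => -2

def gp (r : Option (Jd D)) : ℤ := r.elim (2 * D + 2) fun j => j.elim 2 fun _ => 2 * D + 2

def cn (v : Option (Jd D)) (i : Jd D) : Option (Jd D) := Equiv.swap none v (some i)

variable {D}

lemma gp_pos (r : Option (Jd D)) : 0 < gp D r := by
  rcases r with _ | _ | m <;> simp only [gp, Option.elim] <;> positivity

lemma ph_le (r : Option (Jd D)) : ph D r ≤ 0 := by
  rcases r with _ | _ | m <;> simp [ph]

lemma sum_ite (m : Fin D) (a b : ℚ) :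
    ∑ m' : Fin D, (if m' = m then a else b) = a - b + D * b := by
  have : ∀ m' : Fin D, (if m' = m then a else b) = (if m' = m then a - b else 0) + b := by
    intro m'
    split_ifs <;> ring
  simp [this, Finset.sum_add_distrib]

lemma pair (r r' : Option (Jd D)) :
    rho D r ⬝ᵥ sp D (idx D r') = ph D r + if r = r' then gp D r else 0 := by
  rcases r' with _ | _ | m'
  · have e : ∀ w : Jd D → ℤ, w ⬝ᵥ sp D (idx D none) = -∑ l : Fin D, w (some l) := fun w => by
      simp [idx, sp, ev, dotProduct, Fintype.sum_option]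
    rw [e]
    rcases r with _ | _ | m
    · simp [rho, ph, gp]
      ring
    · simp [rho, ph]
    · have := sum_ite m (2 * D) (-2)
      have h : ∑ l : Fin D, (if l = m then (2 * D : ℤ) else -2) = 2 := by
        have h' : ((∑ l : Fin D, (if l = m then (2 * D : ℤ) else -2) : ℤ) : ℚ) = 2 := by
          push_cast
          rw [this]
          ring
        exact_mod_cast h'
      simp [rho, ph, h]
  · have e : ∀ w : Jd D → ℤ, w ⬝ᵥ sp D (idx D (some none)) = w none * 2 := fun w => by
      simp [idx, sp]
    rw [e]
    rcases r with _ | _ | m <;> simp [rho, ph, gp]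
  · have e : ∀ w : Jd D → ℤ, w ⬝ᵥ sp D (idx D (some (some m'))) = w (some m') := fun w => by
      simp [idx, sp, ev]
    rw [e]
    rcases r with _ | _ | m
    · simp [rho, ph]
    · simp [rho, ph]
    · by_cases h : m' = m
      · simp [rho, ph, gp, h]
      · simp [rho, ph, h, Ne.symm h]

lemma sumA (j : Jd D) : ∑ r, (rho D r j : ℚ) / gp D r = 0 := by
  have h : (2 * D + 2 : ℚ) ≠ 0 := by positivity
  rcases j with _ | m
  · simp [Fintype.sum_option, rho, gp]
    field_simp
    ring
  · simp only [Fintype.sum_option, rho, gp, Option.elim]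
    push_cast
    rw [← Finset.sum_div]
    simp only [eq_comm (a := m)]
    rw [sum_ite]
    simp
    field_simp
    ring

lemma sumB (l j : Jd D) :
    ∑ r, (sp D (idx D r) l : ℚ) * ((rho D r j : ℚ) / gp D r) = if l = j then 1 else 0 := by
  have h : (2 * D + 2 : ℚ) ≠ 0 := by positivity
  rcases l with _ | m
  · rcases j with _ | m' <;> simp [Fintype.sum_option, rho, gp, idx, sp, ev]
  · rcases j with _ | m'
    · simp [Fintype.sum_option, rho, gp, idx, sp, ev, Pi.single_apply]
    · by_cases e : m' = m
      · simp [Fintype.sum_option, rho, gp, idx, sp, ev, Pi.single_apply, e]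
        field_simp
        ring
      · simp [Fintype.sum_option, rho, gp, idx, sp, ev, Pi.single_apply, e, Ne.symm e]

lemma cn_ne (v : Option (Jd D)) (i : Jd D) : cn D v i ≠ v := fun h => by
  have := (Equiv.swap none v).injective (h.trans (Equiv.swap_apply_left none v).symm)
  simp at this

lemma eq_of (v r : Option (Jd D)) (h : r ∉ Set.range (cn D v)) : r = v := by
  obtain ⟨x, rfl⟩ := (Equiv.swap none v).surjective r
  rcases x with _ | i
  · exact Equiv.swap_apply_left _ _
  · exact absurd ⟨i, rfl⟩ h

lemma sum_cn (v : Option (Jd D)) (f : Option (Jd D) → ℚ) (h : f v = 0) :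
    ∑ i, f (cn D v i) = ∑ r, f r := by
  rw [← Equiv.sum_comp (Equiv.swap none v) f, Fintype.sum_option (α := Jd D),
    Equiv.swap_apply_left, h, zero_add]
  rfl

lemma expand (v : Option (Jd D)) (l j : Jd D) :
    ∑ i, ((sp D (idx D (cn D v i)) l : ℚ) - sp D (idx D v) l) / gp D (cn D v i)
      * rho D (cn D v i) j = if l = j then 1 else 0 := by
  rw [sum_cn v (fun r => ((sp D (idx D r) l : ℚ) - sp D (idx D v) l) / gp D r * rho D r j)
    (by simp), ← sumB, ← sub_zero (∑ r, (sp D (idx D r) l : ℚ) * _),
    ← mul_zero (sp D (idx D v) l : ℚ), ← sumA j, Finset.mul_sum, ← Finset.sum_sub_distrib]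
  exact Finset.sum_congr rfl fun r _ => by ring

lemma pairQ (r r' : Option (Jd D)) : ∑ j, (rho D r j : ℚ) * (sp D (idx D r') j : ℚ)
    = ph D r + if r = r' then (gp D r : ℚ) else 0 := by
  have := congrArg (Int.cast : ℤ → ℚ) (pair r r')
  simpa [dotProduct] using this

lemma low (r : Option (Jd D)) (s : Sd D) : ph D r ≤ rho D r ⬝ᵥ sp D s := by
  have k : ∀ r', ph D r ≤ rho D r ⬝ᵥ sp D (idx D r') := fun r' => by
    have := gp_pos r
    rw [pair]
    split_ifs <;> omega
  rcases s with _ | _ | i
  · exact k (some none)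
  · simpa [sp] using ph_le r
  · induction i using Fin.cases with
    | zero => exact k none
    | succ l => exact k (some (some l))

/-- The normal fan. -/
def pf (D : ℕ) : PF (sp D) none where
  R := Option (Jd D)
  V := Option (Jd D)
  ρ := rho D
  c := cn D
  φ r := ph D r
  mv v j := sp D (idx D v) j
  ind v h := by
    have e : (Matrix.of fun l i => ((sp D (idx D (cn D v i)) l : ℚ) - sp D (idx D v) l)
        / gp D (cn D v i)) * (Int.castRingHom ℚ).mapMatrix (Matrix.of fun i => rho D (cn D v i))
        = 1 := by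
      ext l j
      exact (expand v l j).trans Matrix.one_apply.symm
    have := congrArg Matrix.det e
    rw [Matrix.det_mul, ← RingHom.map_det, h] at this
    simp at this
  on v i := by rw [pairQ, if_neg (cn_ne v i), add_zero]
  str v r h := by
    rw [pairQ, if_pos (eq_of v r h)]
    have : (0 : ℚ) < gp D r := by exact_mod_cast gp_pos r
    linarith
  cov w := by
    obtain ⟨v, -, hv⟩ := Finset.exists_min_image Finset.univ
      (fun r => ∑ l, w l * (sp D (idx D r) l : ℚ)) ⟨none, Finset.mem_univ _⟩
    refine ⟨v, fun i => ∑ l, w l * (((sp D (idx D (cn D v i)) l : ℚ) - sp D (idx D v) l)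
      / gp D (cn D v i)), fun i => ?_, fun j => ?_⟩
    · have h1 := hv (cn D v i) (Finset.mem_univ _)
      have h2 : (0 : ℚ) < gp D (cn D v i) := by exact_mod_cast gp_pos _
      simp only [← mul_div_assoc, ← Finset.sum_div, mul_sub, Finset.sum_sub_distrib]
      exact div_nonneg (sub_nonneg.2 h1) h2.le
    · simp only [Finset.sum_mul, mul_assoc]
      rw [Finset.sum_comm]
      simp only [← Finset.mul_sum, expand]
      simp
  ad v := ⟨idx D v, fun i s => by
    rw [pair, if_neg (cn_ne v i), add_zero]
    exact low _ s⟩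
  ray := ⟨none, none, by simp [cn, rho]⟩

end F1a

theorem F1_thm : F1 := ⟨fun D => ⟨F1a.pf D⟩⟩

end Pool.Agent.Lib.MP_557161_ag.HG.MC
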