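import Pool.Agent.Lib.MP_557161_ag.MC.StF

/-!
A lattice point in the fundamental parallelotope of a cone of multiplicity larger than one.
-/

namespace Pool.Agent.Lib.MP_557161_ag.HG.MC

open Matrix

namespace F2

lemma inv_row {J : Type} [Fintype J] [DecidableEq J] (A : Matrix J J ℤ) (h : A.det ≠ 0) :
    ∃ B : J → J → ℚ, ∀ k j, ∑ i, B k i * A i j = if k = j then 1 else 0 := by
  have hd : (A.map (Int.castRingHom ℚ)).det ≠ 0 := by
    have := (Int.castRingHom ℚ).map_det A
    rw [RingHom.mapMatrix_apply] at this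
    rw [← this]
    exact fun h0 => h (by simpa using h0)
  have h1 := Matrix.nonsing_inv_mul (A.map (Int.castRingHom ℚ)) (isUnit_iff_ne_zero.2 hd)
  refine ⟨fun k i => (A.map (Int.castRingHom ℚ))⁻¹ k i, fun k j => ?_⟩
  have h2 := Matrix.ext_iff.2 h1 k j
  rw [Matrix.mul_apply, Matrix.one_apply] at h2
  exact h2

end F2

theorem F2_thm : F2 := ⟨fun {J} _ _ A hA => by
  obtain ⟨B, hB⟩ := F2.inv_row A (fun h => by rw [h] at hA; simp at hA)
  by_cases hz : ∀ k, (fun i => Int.fract (B k i)) = 0
  · exfalso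
    have h1 : (Matrix.of fun k i => ⌊B k i⌋) * A = 1 := by
      ext k j
      have h2 : ∀ i, ((⌊B k i⌋ : ℤ) : ℚ) = B k i := fun i => by
        have h3 : Int.fract (B k i) = 0 := congrFun (hz k) i
        have h4 := Int.floor_add_fract (B k i)
        rwa [h3, add_zero] at h4
      have h5 := hB k j
      rw [Matrix.mul_apply, Matrix.one_apply]
      refine Int.cast_injective (α := ℚ) ?_
      push_cast
      simp only [Matrix.of_apply, h2, h5]
    have h6 : IsUnit A.det := Matrix.isUnit_det_of_left_inverse h1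
    rw [Int.isUnit_iff_natAbs_eq] at h6
    omega
  · obtain ⟨k, hk⟩ := not_forall.1 hz
    refine ⟨fun i => Int.fract (B k i), fun j => (if k = j then 1 else 0) - ∑ i, ⌊B k i⌋ * A i j,
      hk, fun i => ⟨Int.fract_nonneg _, Int.fract_lt_one _⟩, fun j => ?_⟩
    push_cast
    rw [← hB k j, ← Finset.sum_sub_distrib]
    refine Finset.sum_congr rfl fun i _ => ?_
    rw [← sub_mul, Int.self_sub_floor]⟩

end Pool.Agent.Lib.MP_557161_ag.HG.MC
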