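import Pool.Agent.Lib.MP_557161_ag.MC.StF

/-!
The star subdivision of a simplicial fan at a lattice point of a fundamental parallelotope.
-/

namespace Pool.Agent.Lib.MP_557161_ag.HG.MC

open Matrix

namespace F3a

variable {J κ : Type} [Fintype J] [DecidableEq J] {S : κ → J → ℤ} {j₀ : J}

lemma inj (P : PF S j₀) (v : P.V) : Function.Injective (P.c v) := fun i k h => by
  by_contra n
  exact P.ind v (Matrix.det_zero_of_row_eq n (by funext j; simp [h]))

/-- The matrix of a cone, over the rationals. -/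
def mat (P : PF S j₀) (v : P.V) : Matrix J J ℚ := Matrix.of fun i j => (P.ρ (P.c v i) j : ℚ)

lemma det_cast (A : Matrix J J ℤ) :
    ((A.det : ℤ) : ℚ) = (Matrix.of fun i j => (A i j : ℚ)).det := by
  have h := RingHom.map_det (Int.castRingHom ℚ) A
  exact h

lemma mat_det (P : PF S j₀) (v : P.V) :
    (((Matrix.of fun i => P.ρ (P.c v i)).det : ℤ) : ℚ) = (mat P v).det := det_cast _

lemma dual (P : PF S j₀) (v : P.V) : ∃ g : J → J → ℚ, ∀ k i,
    ∑ j, (P.ρ (P.c v k) j : ℚ) * g i j = if k = i then 1 else 0 := by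
  have hA : (mat P v).det ≠ 0 := by
    rw [← mat_det]
    exact Int.cast_ne_zero.2 (P.ind v)
  refine ⟨fun i j => (mat P v)⁻¹ j i, fun k i => ?_⟩
  have := Matrix.ext_iff.2 (Matrix.mul_nonsing_inv _ (isUnit_iff_ne_zero.2 hA)) k i
  rw [Matrix.mul_apply, Matrix.one_apply] at this
  exact this

lemma small {ι : Type} [Finite ι] (a b : ι → ℚ) (p : ι → Prop) (h : ∀ i, p i → 0 < a i) :
    ∀ᶠ ε in nhds (0 : ℚ), ∀ i, p i → 0 < a i + ε * b i := by
  refine Filter.eventually_all.2 fun i => ?_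
  by_cases hp : p i
  · have hc : ContinuousAt (fun ε : ℚ => a i + ε * b i) 0 := by fun_prop
    have h0 : 0 < (fun ε : ℚ => a i + ε * b i) 0 := by simpa using h i hp
    exact (hc.eventually (lt_mem_nhds h0)).mono fun ε hε _ => hε
  · exact Filter.Eventually.of_forall fun ε hp' => absurd hp' hp

/-- The data of a star subdivision. -/
structure Dt (P : PF S j₀) where
  T : P.R → ℚ
  w : J → ℤ
  g : P.V → J → J → ℚ
  ε : ℚ
  nn : ∀ r, 0 ≤ T r
  lt : ∀ r, T r < 1
  ex : ∃ r, 0 < T r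
  hw : ∀ j, (w j : ℚ) = ∑ r, T r * P.ρ r j
  hg : ∀ v k i, ∑ j, (P.ρ (P.c v k) j : ℚ) * g v i j = if k = i then 1 else 0
  pos : 0 < ε
  e1 : ∀ v, ¬ (∀ r, 0 < T r → r ∈ Set.range (P.c v)) →
    ∑ r, T r * P.φ r + ε < ∑ j, w j * P.mv v j
  e2 : ∀ v i r, r ∉ Set.range (P.c v) →
    P.φ r < ∑ j, P.ρ r j * (P.mv v j + ε / T (P.c v i) * g v i j)
  sb : ∃ v, ∀ r, 0 < T r → r ∈ Set.range (P.c v)

lemma ge (P : PF S j₀) (v : P.V) (r : P.R) : P.φ r ≤ ∑ j, P.ρ r j * P.mv v j := by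
  by_cases h : r ∈ Set.range (P.c v)
  · obtain ⟨i, rfl⟩ := h
    exact (P.on v i).ge
  · exact (P.str v r h).le

lemma sum_rng (P : PF S j₀) (v : P.V) (T : P.R → ℚ)
    (h : ∀ r, r ∉ Set.range (P.c v) → T r = 0) (f : P.R → ℚ) :
    ∑ r, T r * f r = ∑ i, T (P.c v i) * f (P.c v i) := by
  refine (Fintype.sum_of_injective (P.c v) (inj P v) _ (fun r => T r * f r) (fun r hr => ?_)
    fun _ => rfl).symm
  rw [h r hr, zero_mul]

lemma pair (P : PF S j₀) (T : P.R → ℚ) (w : J → ℤ)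
    (hw : ∀ j, (w j : ℚ) = ∑ r, T r * P.ρ r j) (x : J → ℚ) :
    ∑ j, (w j : ℚ) * x j = ∑ r, T r * ∑ j, P.ρ r j * x j := by
  simp only [hw, Finset.sum_mul, Finset.mul_sum]
  rw [Finset.sum_comm]
  exact Finset.sum_congr rfl fun r _ => Finset.sum_congr rfl fun j _ => mul_assoc _ _ _

lemma data [F2] (P : PF S j₀) (v : P.V) (h : 1 < P.mu v) : Nonempty (Dt P) := by
  classical
  obtain ⟨t, w, t0, ht, hw⟩ := F2.pt _ h
  choose g hg using dual P
  let T : P.R → ℚ := Function.extend (P.c v) t 0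
  have hT : ∀ i, T (P.c v i) = t i := fun i => (inj P v).extend_apply t 0 i
  have hT0 : ∀ r, r ∉ Set.range (P.c v) → T r = 0 := fun r hr =>
    Function.extend_apply' t (0 : P.R → ℚ) r hr
  have nn : ∀ r, 0 ≤ T r := fun r => by
    by_cases hr : r ∈ Set.range (P.c v)
    · obtain ⟨i, rfl⟩ := hr
      rw [hT]
      exact (ht i).1
    · exact (hT0 r hr).ge
  have lt : ∀ r, T r < 1 := fun r => by
    by_cases hr : r ∈ Set.range (P.c v)
    · obtain ⟨i, rfl⟩ := hr
      rw [hT]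
      exact (ht i).2
    · rw [hT0 r hr]
      exact one_pos
  have ex : ∃ r, 0 < T r := by
    obtain ⟨i, hi⟩ := Function.ne_iff.1 t0
    exact ⟨P.c v i, by rw [hT]; exact lt_of_le_of_ne (ht i).1 (Ne.symm hi)⟩
  have hw' : ∀ j, (w j : ℚ) = ∑ r, T r * P.ρ r j := fun j => by
    rw [sum_rng P v T hT0 fun r => (P.ρ r j : ℚ), hw]
    exact Finset.sum_congr rfl fun i _ => by rw [hT]; rfl
  have s1 := small (fun v' : P.V => ∑ j, (w j : ℚ) * P.mv v' j - ∑ r, T r * P.φ r)
    (fun _ => -1) (fun v' => ¬ ∀ r, 0 < T r → r ∈ Set.range (P.c v')) fun v' hv => by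
      obtain ⟨r, hr⟩ := not_forall.1 hv
      obtain ⟨h1, h2⟩ := Classical.not_imp.1 hr
      rw [sub_pos, pair P T w hw']
      exact Finset.sum_lt_sum (fun r' _ => mul_le_mul_of_nonneg_left (ge P v' r') (nn r'))
        ⟨r, Finset.mem_univ _, mul_lt_mul_of_pos_left (P.str v' r h2) h1⟩
  have s2 := small (fun x : P.V × J × P.R => ∑ j, (P.ρ x.2.2 j : ℚ) * P.mv x.1 j - P.φ x.2.2)
    (fun x => ∑ j, (P.ρ x.2.2 j : ℚ) * ((T (P.c x.1 x.2.1))⁻¹ * g x.1 x.2.1 j))
    (fun x => x.2.2 ∉ Set.range (P.c x.1)) fun x hx => sub_pos.2 (P.str _ _ hx)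
  have s3 : ∀ᶠ ε in nhdsWithin (0 : ℚ) (Set.Ioi 0), ε ∈ Set.Ioi (0 : ℚ) := self_mem_nhdsWithin
  obtain ⟨ε, hε, h1, h2⟩ := (s3.and ((s1.and s2).filter_mono nhdsWithin_le_nhds)).exists
  refine ⟨⟨T, w, g, ε, nn, lt, ex, hw', hg, hε, fun v' hv => ?_, fun v' i r hr => ?_,
    v, fun r hr => ?_⟩⟩
  · have := h1 v' hv
    linarith
  · have := h2 (v', i, r) hr
    have e : ∑ j, (P.ρ r j : ℚ) * (P.mv v' j + ε / T (P.c v' i) * g v' i j) =
        ∑ j, (P.ρ r j : ℚ) * P.mv v' j +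
          ε * ∑ j, (P.ρ r j : ℚ) * ((T (P.c v' i))⁻¹ * g v' i j) := by
      rw [Finset.mul_sum, ← Finset.sum_add_distrib]
      exact Finset.sum_congr rfl fun j _ => by rw [div_eq_mul_inv]; ring
    rw [e]
    simp only at this
    linarith
  · by_contra hn
    exact hr.ne' (hT0 r hn)

namespace Dt

variable {P : PF S j₀} (d : Dt P)

/-- The cone contains the new ray. -/
def sub (v : P.V) : Prop := ∀ r, 0 < d.T r → r ∈ Set.range (P.c v)

/-- The new cones. -/
def ok (x : P.V × Option J) : Prop :=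
  x.2.elim (¬ d.sub x.1) fun i => d.sub x.1 ∧ 0 < d.T (P.c x.1 i)

/-- The new rays. -/
def ρ' (r : Option P.R) : J → ℤ := r.elim d.w P.ρ

/-- The rays of the new cones. -/
def c' (x : P.V × Option J) (k : J) : Option P.R := if x.2 = some k then none else some (P.c x.1 k)

/-- The new support function. -/
def φ' (r : Option P.R) : ℚ := r.elim (∑ r, d.T r * P.φ r + d.ε) P.φ

/-- The new vertices. -/
def mv' (x : P.V × Option J) (j : J) : ℚ :=
  x.2.elim (P.mv x.1 j) fun i => P.mv x.1 j + d.ε / d.T (P.c x.1 i) * d.g x.1 i j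

lemma c_none (v : P.V) (k : J) : c' (P := P) (v, none) k = some (P.c v k) := if_neg (by simp)

lemma c_self (v : P.V) (i : J) : c' (P := P) (v, some i) i = none := if_pos rfl

lemma c_ne (v : P.V) {i k : J} (h : k ≠ i) : c' (P := P) (v, some i) k = some (P.c v k) :=
  if_neg fun e => h (Option.some.inj e).symm

lemma sum_sub {v : P.V} (h : d.sub v) (f : P.R → ℚ) :
    ∑ r, d.T r * f r = ∑ i, d.T (P.c v i) * f (P.c v i) :=
  sum_rng P v d.T (fun r hr => le_antisymm (not_lt.1 fun h' => hr (h r h')) (d.nn r)) f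

lemma ex_sub {v : P.V} (h : d.sub v) : ∃ i, 0 < d.T (P.c v i) := by
  obtain ⟨r, hr⟩ := d.ex
  obtain ⟨i, rfl⟩ := h r hr
  exact ⟨i, hr⟩

lemma det_none (v : P.V) : (Matrix.of fun k => d.ρ' (c' (v, none) k)).det =
    (Matrix.of fun k => P.ρ (P.c v k)).det := by
  simp only [c_none]
  rfl

lemma det_some {v : P.V} (h : d.sub v) (i : J) :
    (((Matrix.of fun k => d.ρ' (c' (v, some i) k)).det : ℤ) : ℚ) =
      d.T (P.c v i) * (((Matrix.of fun k => P.ρ (P.c v k)).det : ℤ) : ℚ) := by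
  rw [mat_det, det_cast, ← smul_eq_mul,
    ← Matrix.det_updateRow_sum (mat P v) i fun k => d.T (P.c v k)]
  congr 1
  ext k j
  by_cases hk : k = i
  · subst hk
    rw [Matrix.updateRow_self, Matrix.of_apply, Matrix.of_apply, c_self, Finset.sum_apply]
    exact (d.hw j).trans (d.sum_sub h fun r => (P.ρ r j : ℚ))
  · rw [Matrix.updateRow_ne hk, Matrix.of_apply, Matrix.of_apply, c_ne v hk]
    rfl

lemma pair_mv (v : P.V) (i k : J) :
    ∑ j, (P.ρ (P.c v k) j : ℚ) * d.mv' (v, some i) j =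
      P.φ (P.c v k) + if k = i then d.ε / d.T (P.c v i) else 0 := by
  have e : ∑ j, (P.ρ (P.c v k) j : ℚ) * d.mv' (v, some i) j =
      ∑ j, (P.ρ (P.c v k) j : ℚ) * P.mv v j +
        d.ε / d.T (P.c v i) * ∑ j, (P.ρ (P.c v k) j : ℚ) * d.g v i j := by
    rw [Finset.mul_sum, ← Finset.sum_add_distrib]
    refine Finset.sum_congr rfl fun j _ => ?_
    simp only [mv', Option.elim]
    ring
  rw [e, P.on, d.hg, mul_ite, mul_one, mul_zero]

lemma ind (x : P.V × Option J) (hx : d.ok x) :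
    (Matrix.of fun k => d.ρ' (c' x k)).det ≠ 0 := by
  obtain ⟨v, _ | i⟩ := x
  · rw [det_none]
    exact P.ind v
  · rw [← Int.cast_ne_zero (α := ℚ), d.det_some hx.1]
    exact mul_ne_zero hx.2.ne' (Int.cast_ne_zero.2 (P.ind v))

lemma on (x : P.V × Option J) (hx : d.ok x) (k : J) :
    ∑ j, d.ρ' (c' x k) j * d.mv' x j = d.φ' (c' x k) := by
  obtain ⟨v, _ | i⟩ := x
  · rw [c_none]
    exact P.on v k
  · by_cases hk : k = i
    · subst hk
      rw [c_self]
      change ∑ j, (d.w j : ℚ) * d.mv' (v, some k) j = ∑ r, d.T r * P.φ r + d.ε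
      rw [pair P d.T d.w d.hw, d.sum_sub hx.1, d.sum_sub hx.1]
      simp only [pair_mv, mul_add, Finset.sum_add_distrib, mul_ite, mul_zero, Finset.sum_ite_eq',
        Finset.mem_univ, if_true]
      rw [mul_div_cancel₀ _ hx.2.ne']
    · rw [c_ne v hk]
      change ∑ j, (P.ρ (P.c v k) j : ℚ) * d.mv' (v, some i) j = P.φ (P.c v k)
      rw [pair_mv, if_neg hk, add_zero]

lemma str (x : P.V × Option J) (hx : d.ok x) (r : Option P.R) (hr : r ∉ Set.range (c' x)) :
    d.φ' r < ∑ j, d.ρ' r j * d.mv' x j := by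
  obtain ⟨v, _ | i⟩ := x
  · obtain _ | r := r
    · exact d.e1 v hx
    · refine P.str v r fun ⟨k, hk⟩ => hr ⟨k, ?_⟩
      rw [c_none, hk]
  · obtain _ | r := r
    · exact absurd ⟨i, c_self v i⟩ hr
    · by_cases h : r ∈ Set.range (P.c v)
      · obtain ⟨k, rfl⟩ := h
        have hk : k = i := by
          by_contra hk
          exact hr ⟨k, c_ne v hk⟩
        subst hk
        change P.φ (P.c v k) < ∑ j, (P.ρ (P.c v k) j : ℚ) * d.mv' (v, some k) j
        rw [pair_mv, if_pos rfl]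
        exact lt_add_of_pos_right _ (div_pos d.pos hx.2)
      · exact d.e2 v i r h

lemma cov (y : J → ℚ) : ∃ (x : {x // d.ok x}) (t : J → ℚ), (∀ i, 0 ≤ t i) ∧
    ∀ j, y j = ∑ i, t i * d.ρ' (c' x.1 i) j := by
  classical
  obtain ⟨v, a, ha, hy⟩ := P.cov y
  by_cases h : d.sub v
  · obtain ⟨i₁, h₁⟩ := d.ex_sub h
    obtain ⟨i, hi, hm⟩ := Finset.exists_min_image
      (Finset.univ.filter fun k => 0 < d.T (P.c v k)) (fun k => a k / d.T (P.c v k))
      ⟨i₁, Finset.mem_filter.2 ⟨Finset.mem_univ _, h₁⟩⟩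
    have hi' := (Finset.mem_filter.1 hi).2
    refine ⟨⟨(v, some i), h, hi'⟩, fun k => if k = i then a i / d.T (P.c v i)
      else a k - a i / d.T (P.c v i) * d.T (P.c v k), fun k => ?_, fun j => ?_⟩
    · by_cases hk : k = i
      · simp only [if_pos hk]
        exact div_nonneg (ha i) hi'.le
      · simp only [if_neg hk]
        rcases (d.nn (P.c v k)).eq_or_lt with e | e
        · rw [← e, mul_zero, sub_zero]
          exact ha k
        · exact sub_nonneg.2 ((le_div_iff₀ e).1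
            (hm k (Finset.mem_filter.2 ⟨Finset.mem_univ _, e⟩)))
    · have e : ∀ k, (if k = i then a i / d.T (P.c v i)
            else a k - a i / d.T (P.c v i) * d.T (P.c v k)) * (d.ρ' (c' (v, some i) k) j : ℚ) =
          (a k * P.ρ (P.c v k) j - a i / d.T (P.c v i) * (d.T (P.c v k) * P.ρ (P.c v k) j)) +
            if k = i then a i / d.T (P.c v i) * d.w j else 0 := fun k => by
        by_cases hk : k = i
        · subst hk
          rw [if_pos rfl, if_pos rfl, c_self, ← mul_assoc, div_mul_cancel₀ _ hi'.ne', sub_self,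
            zero_add]
          rfl
        · rw [if_neg hk, if_neg hk, c_ne v hk, add_zero, sub_mul, mul_assoc]
          rfl
      simp only [e]
      rw [Finset.sum_add_distrib, Finset.sum_sub_distrib, ← Finset.mul_sum,
        ← d.sum_sub h fun r => (P.ρ r j : ℚ), ← d.hw, ← hy, Finset.sum_ite_eq',
        if_pos (Finset.mem_univ _), sub_add_cancel]
  · refine ⟨⟨(v, none), h⟩, a, ha, fun j => ?_⟩
    simp only [c_none]
    exact hy j

lemma ad (x : P.V × Option J) (hx : d.ok x) :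
    ∃ s₀, ∀ k s, d.ρ' (c' x k) ⬝ᵥ S s₀ ≤ d.ρ' (c' x k) ⬝ᵥ S s := by
  obtain ⟨v, _ | i⟩ := x
  · simp only [c_none]
    exact P.ad v
  · obtain ⟨s₀, hs⟩ := P.ad v
    refine ⟨s₀, fun k s => ?_⟩
    by_cases hk : k = i
    · subst hk
      rw [c_self]
      have e : ∀ s, ((d.w ⬝ᵥ S s : ℤ) : ℚ) =
          ∑ i, d.T (P.c v i) * ((P.ρ (P.c v i) ⬝ᵥ S s : ℤ) : ℚ) := fun s => by
        simp only [dotProduct, Int.cast_sum, Int.cast_mul]
        rw [pair P d.T d.w d.hw, d.sum_sub hx.1]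
      change d.w ⬝ᵥ S s₀ ≤ d.w ⬝ᵥ S s
      rw [← Int.cast_le (R := ℚ), e, e]
      exact Finset.sum_le_sum fun i _ =>
        mul_le_mul_of_nonneg_left (Int.cast_le.2 (hs i s)) (d.nn _)
    · rw [c_ne v hk]
      exact hs k s

lemma ray : ∃ (x : {x // d.ok x}) (k : J), d.ρ' (c' x.1 k) = Pi.single j₀ 1 := by
  obtain ⟨v, k, hk⟩ := P.ray
  by_cases h : d.sub v
  · by_cases h' : ∃ i, k ≠ i ∧ 0 < d.T (P.c v i)
    · obtain ⟨i, hi, hT⟩ := h'
      refine ⟨⟨(v, some i), h, hT⟩, k, ?_⟩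
      rw [c_ne v hi]
      exact hk
    · exfalso
      have z : ∀ i, i ≠ k → d.T (P.c v i) = 0 := fun i hi =>
        le_antisymm (not_lt.1 fun e => h' ⟨i, hi.symm, e⟩) (d.nn _)
      obtain ⟨i, hi⟩ := d.ex_sub h
      have e : i = k := by
        by_contra n
        exact hi.ne' (z i n)
      subst e
      have e := (d.hw j₀).trans (d.sum_sub h fun r => (P.ρ r j₀ : ℚ))
      rw [Finset.sum_eq_single i (fun l _ hl => by rw [z l hl, zero_mul])
        (fun n => absurd (Finset.mem_univ _) n), hk, Pi.single_eq_same, Int.cast_one, mul_one] at e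
      have h1 := d.lt (P.c v i)
      rw [← e] at hi h1
      have h2 : 0 < d.w j₀ := by exact_mod_cast hi
      have h3 : d.w j₀ < 1 := by exact_mod_cast h1
      omega
  · refine ⟨⟨(v, none), h⟩, k, ?_⟩
    rw [c_none]
    exact hk

open Classical in
/-- The subdivided fan. -/
noncomputable def star : PF S j₀ where
  R := Option P.R
  V := {x // d.ok x}
  ρ := d.ρ'
  c x := c' x.1
  φ := d.φ'
  mv x := d.mv' x.1
  ind x := d.ind x.1 x.2
  on x := d.on x.1 x.2
  str x := d.str x.1 x.2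
  cov := d.cov
  ad x := d.ad x.1 x.2
  ray := d.ray

lemma mu_lt {v : P.V} {i : J} (h : d.ok (v, some i)) :
    (Matrix.of fun k => d.ρ' (c' (v, some i) k)).det.natAbs < P.mu v := by
  have e := congrArg abs (d.det_some h.1 i)
  rw [abs_mul, abs_of_pos h.2] at e
  have h0 : (0 : ℚ) < |(((Matrix.of fun k => P.ρ (P.c v k)).det : ℤ) : ℚ)| :=
    abs_pos.2 (Int.cast_ne_zero.2 (P.ind v))
  have h1 := mul_lt_of_lt_one_left h0 (d.lt (P.c v i))
  rw [← e, ← Int.cast_abs, ← Int.cast_abs, Int.cast_lt, ← Int.natCast_natAbs,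
    ← Int.natCast_natAbs] at h1
  exact_mod_cast h1

open Classical in
lemma ms_lt : d.star.ms < P.ms := by
  let f : P.V × Option J → ℕ := fun x =>
    (Fintype.card J + 1) ^ (Matrix.of fun k => d.ρ' (c' x k)).det.natAbs
  have e : d.star.ms = ∑ x, if d.ok x then f x else 0 := by
    rw [← Finset.sum_filter]
    exact (Finset.sum_subtype _ (by simp) f).symm
  have h1 : ∀ v, ¬ d.sub v → ∑ o, (if d.ok (v, o) then f (v, o) else 0) =
      (Fintype.card J + 1) ^ P.mu v := fun v hv => by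
    rw [Fintype.sum_option, if_pos (show d.ok (v, none) from hv),
      Finset.sum_eq_zero fun i _ => if_neg fun h => hv h.1, add_zero]
    simp only [f, det_none]
    rfl
  have h2 : ∀ v, d.sub v → ∑ o, (if d.ok (v, o) then f (v, o) else 0) <
      (Fintype.card J + 1) ^ P.mu v := fun v hv => by
    rw [Fintype.sum_option, if_neg (show ¬ d.ok (v, none) from fun h => h hv), zero_add]
    obtain ⟨m, hm⟩ : ∃ m, P.mu v = m + 1 :=
      Nat.exists_eq_succ_of_ne_zero (Int.natAbs_ne_zero.2 (P.ind v))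
    have : ∑ i : J, (if d.ok (v, some i) then f (v, some i) else 0) ≤
        ∑ _i : J, (Fintype.card J + 1) ^ m := Finset.sum_le_sum fun i _ => by
      split_ifs with h
      · refine Nat.pow_le_pow_right (Nat.succ_pos _) ?_
        have := d.mu_lt h
        omega
      · exact Nat.zero_le _
    refine this.trans_lt ?_
    rw [Finset.sum_const, Finset.card_univ, smul_eq_mul, hm, pow_succ']
    exact Nat.mul_lt_mul_of_lt_of_le (Nat.lt_succ_self _) le_rfl (Nat.pow_pos (Nat.succ_pos _))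
  rw [e, Fintype.sum_prod_type]
  obtain ⟨v, hv⟩ := d.sb
  refine Finset.sum_lt_sum (fun v' _ => ?_) ⟨v, Finset.mem_univ _, h2 v hv⟩
  by_cases h : d.sub v'
  · exact (h2 v' h).le
  · exact (h1 v' h).le

end Dt

end F3a

theorem F3_thm [F2] : F3 := ⟨fun P v h => by
  obtain ⟨d⟩ := F3a.data P v h
  exact ⟨d.star, d.ms_lt⟩⟩

end Pool.Agent.Lib.MP_557161_ag.HG.MC
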