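import Pool.Agent.Lib.MP_557161_ag.MC.StF

/-!
Points of the polytope are rational convex combinations of the vertices.
-/

namespace Pool.Agent.Lib.MP_557161_ag.HG.MC

namespace F4a

/-- The lemma of Farkas over the rational numbers. -/
lemma farkas {W ι : Type} [AddCommGroup W] [Module ℚ W] (s : Finset ι) :
    ∀ (a : ι → W →ₗ[ℚ] ℚ) (b : W →ₗ[ℚ] ℚ), (∀ w, (∀ i ∈ s, 0 ≤ a i w) → 0 ≤ b w) →
      ∃ l : ι → ℚ, (∀ i, 0 ≤ l i) ∧ ∀ w, b w = ∑ i ∈ s, l i * a i w := by
  classical
  induction s using Finset.induction_on with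
  | empty =>
    intro a b h
    refine ⟨0, fun _ => le_rfl, fun w => ?_⟩
    have h1 := h w (by simp)
    have h2 := h (-w) (by simp)
    rw [map_neg] at h2
    rw [Finset.sum_empty]
    linarith
  | insert m s hm ih =>
    intro a b h
    by_cases h0 : ∀ w, (∀ i ∈ s, 0 ≤ a i w) → 0 ≤ b w
    · obtain ⟨l, l0, e⟩ := ih a b h0
      refine ⟨Function.update l m 0, fun i => ?_, fun w => ?_⟩
      · by_cases hi : i = m
        · simp [hi]
        · simp [hi, l0]
      · rw [Finset.sum_insert hm, Function.update_self, zero_mul, zero_add, e]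
        exact Finset.sum_congr rfl fun i hi => by
          rw [Function.update_of_ne (ne_of_mem_of_not_mem hi hm)]
    · push Not at h0
      obtain ⟨w₀, h1, h2⟩ := h0
      have h3 : a m w₀ < 0 := by
        by_contra! h3
        exact absurd (h w₀ fun i hi => (Finset.mem_insert.1 hi).elim (fun e => e ▸ h3) (h1 i))
          h2.not_ge
      have h4 : 0 < -(a m w₀)⁻¹ := neg_pos.2 (inv_lt_zero.2 h3)
      let T : W →ₗ[ℚ] W := LinearMap.id + (a m).smulRight (-(a m w₀)⁻¹ • w₀)
      have hT : ∀ (f : W →ₗ[ℚ] ℚ) (w : W), f (T w) = f w + a m w * (-(a m w₀)⁻¹ * f w₀) :=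
        fun f w => by simp [T]
      obtain ⟨l, l0, e⟩ := ih (fun i => (a i).comp T) (b.comp T) fun w hw => h (T w) fun i hi => by
        rcases Finset.mem_insert.1 hi with rfl | hi
        · rw [hT, neg_mul, inv_mul_cancel₀ h3.ne]
          linarith
        · exact hw i hi
      have h5 : 0 ≤ ∑ i ∈ s, l i * a i w₀ :=
        Finset.sum_nonneg fun i hi => mul_nonneg (l0 i) (h1 i hi)
      refine ⟨Function.update l m (-(a m w₀)⁻¹ * (∑ i ∈ s, l i * a i w₀ - b w₀)), fun i => ?_,
        fun w => ?_⟩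
      · by_cases hi : i = m
        · rw [hi, Function.update_self]
          exact mul_nonneg h4.le (by linarith)
        · simp [hi, l0]
      · have e1 := e w
        simp only [LinearMap.comp_apply, hT, mul_add, Finset.sum_add_distrib] at e1
        have e2 : ∑ i ∈ s, l i * (a m w * (-(a m w₀)⁻¹ * a i w₀)) =
            a m w * -(a m w₀)⁻¹ * ∑ i ∈ s, l i * a i w₀ := by
          rw [Finset.mul_sum]
          exact Finset.sum_congr rfl fun i _ => by ring
        have e3 : ∑ i ∈ s, Function.update l m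
            (-(a m w₀)⁻¹ * (∑ i ∈ s, l i * a i w₀ - b w₀)) i * a i w = ∑ i ∈ s, l i * a i w :=
          Finset.sum_congr rfl fun i hi => by
            rw [Function.update_of_ne (ne_of_mem_of_not_mem hi hm)]
        rw [Finset.sum_insert hm, Function.update_self, e3]
        linear_combination e1 + e2

/-- The affine function attached to a point. -/
def af {J : Type} [Fintype J] (x : J → ℚ) : ((J → ℚ) × ℚ) →ₗ[ℚ] ℚ where
  toFun w := ∑ j, w.1 j * x j + w.2
  map_add' w w' := by
    simp only [Prod.fst_add, Prod.snd_add, Pi.add_apply, add_mul, Finset.sum_add_distrib]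
    ring
  map_smul' t w := by
    simp only [Prod.smul_fst, Prod.smul_snd, Pi.smul_apply, smul_eq_mul, RingHom.id_apply, mul_add,
      Finset.mul_sum, mul_assoc]

lemma af_apply {J : Type} [Fintype J] (x : J → ℚ) (w : (J → ℚ) × ℚ) :
    af x w = ∑ j, w.1 j * x j + w.2 := rfl

end F4a

open F4a in
theorem F4_thm : F4 := ⟨fun {J κ _ _ S j₀} P x hx => by
  obtain ⟨l, l0, e⟩ := farkas Finset.univ (fun v => af (P.mv v)) (af x) fun w hw => by
    obtain ⟨v, t, t0, ht⟩ := P.cov w.1
    refine (hw v (Finset.mem_univ v)).trans ?_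
    have k : ∀ y : J → ℚ, ∑ j, w.1 j * y j = ∑ i, t i * ∑ j, P.ρ (P.c v i) j * y j := fun y => by
      simp only [ht, Finset.sum_mul, Finset.mul_sum, mul_assoc]
      exact Finset.sum_comm
    rw [af_apply, af_apply, k, k]
    refine add_le_add (Finset.sum_le_sum fun i _ => mul_le_mul_of_nonneg_left ?_ (t0 i)) le_rfl
    rw [P.on]
    exact hx _
  refine ⟨l, l0, ?_, fun j => ?_⟩
  · simpa [af_apply] using (e (0, 1)).symm
  · simpa [af_apply, Pi.single_apply] using e (Pi.single j 1, 0)⟩

end Pool.Agent.Lib.MP_557161_ag.HG.MC
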