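import Pool.Agent.Lib.MP_557161_ag.MC.StF

/-!
From a unimodular fan to integral data.
-/

namespace Pool.Agent.Lib.MP_557161_ag.HG.MC

open Matrix

namespace F5a

lemma den {ι : Type} [Fintype ι] (q : ι → ℚ) :
    ∃ (N : ℕ) (z : ι → ℤ), 0 < N ∧ ∀ i, (z i : ℚ) = N * q i := by
  classical
  have h : ∀ i, ∃ z : ℤ, (z : ℚ) = (∏ j, (q j).den : ℕ) * q i := fun i => by
    obtain ⟨k, hk⟩ := Finset.dvd_prod_of_mem (fun j => (q j).den) (Finset.mem_univ i)
    refine ⟨k * (q i).num, ?_⟩
    rw [hk]
    push_cast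
    rw [← Rat.den_mul_eq_num]
    ring
  choose z hz using h
  exact ⟨_, z, Finset.prod_pos fun j _ => (q j).den_pos, hz⟩

lemma bd {ι : Type} [Fintype ι] (f : ι → ℤ) : ∃ K : ℕ, 0 < K ∧ ∀ i, -(K : ℤ) ≤ f i := by
  refine ⟨∑ i, (f i).natAbs + 1, Nat.succ_pos _, fun i => ?_⟩
  have := Finset.single_le_sum (f := fun i => (f i).natAbs) (fun _ _ => Nat.zero_le _)
    (Finset.mem_univ i)
  omega

end F5a

theorem F5_thm [F4] : F5 where
  ex {D} P hP := by
    classical
    obtain ⟨v0, i0, h0⟩ := P.ray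
    have hu : ∀ v, IsUnit (Matrix.of fun i => P.ρ (P.c v i)).det := fun v =>
      Int.isUnit_iff_natAbs_eq.2 (hP v)
    obtain ⟨e, he⟩ : ∃ e : P.V → Jd D → Jd D → ℤ, ∀ v i j,
        P.ρ (P.c v (Equiv.swap none i0 i)) ⬝ᵥ e v j = if i = j then 1 else 0 := by
      refine ⟨fun v j l => (Matrix.of fun i => P.ρ (P.c v i))⁻¹ l (Equiv.swap none i0 j),
        fun v i j => ?_⟩
      have := Matrix.ext_iff.2 (Matrix.mul_nonsing_inv _ (hu v)) (Equiv.swap none i0 i)
        (Equiv.swap none i0 j)
      rw [Matrix.one_apply] at this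
      simp only [EmbeddingLike.apply_eq_iff_eq] at this
      exact this
    have rg : ∀ v, Set.range (fun i => P.c v (Equiv.swap none i0 i)) = Set.range (P.c v) := fun v =>
      (Equiv.swap none i0).surjective.range_comp (P.c v)
    obtain ⟨N, z, hN, hz⟩ := F5a.den (Sum.elim (fun x : P.V × Jd D => P.mv x.1 x.2) P.φ)
    obtain ⟨K, hK, hk⟩ := F5a.bd fun x : P.R × P.V × Jd D => P.ρ x.1 ⬝ᵥ e x.2.1 x.2.2
    have hN' : (0 : ℚ) < N := by exact_mod_cast hN
    have hK' : (0 : ℚ) < K := by exact_mod_cast hK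
    have z1 : ∀ v l, (z (.inl (v, l)) : ℚ) = N * P.mv v l := fun v l => hz _
    have z2 : ∀ r, (z (.inr r) : ℚ) = N * P.φ r := fun r => hz _
    have dz : ∀ v r, ((P.ρ r ⬝ᵥ fun l => z (.inl (v, l)) : ℤ) : ℚ) =
        N * ∑ j, P.ρ r j * P.mv v j := fun v r => by
      simp only [dotProduct, Int.cast_sum, Int.cast_mul, z1, Finset.mul_sum]
      exact Finset.sum_congr rfl fun _ _ => by ring
    have on : ∀ v r, r ∈ Set.range (P.c v) →
        (P.ρ r ⬝ᵥ fun l => z (.inl (v, l))) = z (.inr r) := by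
      rintro v _ ⟨i, rfl⟩
      have := dz v (P.c v i)
      rw [P.on, ← z2] at this
      exact_mod_cast this
    have off : ∀ v r, r ∉ Set.range (P.c v) →
        z (.inr r) < P.ρ r ⬝ᵥ fun l => z (.inl (v, l)) := fun v r h => by
      have := mul_lt_mul_of_pos_left (P.str v r h) hN'
      rw [← dz, ← z2] at this
      exact_mod_cast this
    let p : P.V × Option (Jd D) → Jd D → ℤ := fun s l =>
      K * z (.inl (s.1, l)) + s.2.elim 0 fun i => e s.1 i l
    have dp : ∀ r s, P.ρ r ⬝ᵥ p s = K * (P.ρ r ⬝ᵥ fun l => z (.inl (s.1, l))) +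
        s.2.elim 0 fun i => P.ρ r ⬝ᵥ e s.1 i := by
      rintro r ⟨v, _ | i⟩
      · simp only [p, dotProduct, Option.elim, add_zero, Finset.mul_sum]
        exact Finset.sum_congr rfl fun _ _ => by ring
      · simp only [p, dotProduct, Option.elim, Finset.mul_sum, ← Finset.sum_add_distrib]
        exact Finset.sum_congr rfl fun _ _ => by ring
    have ge : ∀ r s, K * z (.inr r) ≤ P.ρ r ⬝ᵥ p s := by
      rintro r ⟨v, o⟩
      rw [dp]
      by_cases h : r ∈ Set.range (P.c v)
      · rw [on v r h]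
        obtain ⟨j, rfl⟩ := (rg v).symm ▸ h
        obtain _ | i := o
        · simp
        · simp only [Option.elim, he]
          split_ifs <;> simp
      · have h1 : (K : ℤ) * (z (.inr r) + 1) ≤ K * (P.ρ r ⬝ᵥ fun l => z (.inl (v, l))) :=
          mul_le_mul_of_nonneg_left (off v r h) (Int.natCast_nonneg K)
        obtain _ | i := o
        · simp only [Option.elim]
          linarith [Int.natCast_nonneg K]
        · simp only [Option.elim]
          linarith [hk (r, v, i)]
    obtain ⟨B, -, hB⟩ := F5a.bd fun x : (P.V × Option (Jd D)) × Jd D => p x.1 x.2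
    have mm : ∀ s l, (((p s l + B).toNat : ℕ) : ℤ) = p s l + B := fun s l =>
      Int.toNat_of_nonneg (by linarith [hB (s, l)])
    have dm : ∀ r s, (P.ρ r ⬝ᵥ fun l => (((p s l + B).toNat : ℕ) : ℤ)) =
        P.ρ r ⬝ᵥ p s + B * ∑ j, P.ρ r j := fun r s => by
      simp only [mm, dotProduct, Finset.mul_sum, ← Finset.sum_add_distrib]
      exact Finset.sum_congr rfl fun _ _ => by ring
    refine ⟨{
      V := P.V
      σ := P.V × Option (Jd D)
      ρ := P.ρ
      c := fun v i => P.c v (Equiv.swap none i0 i)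
      e := e
      dual := he
      m := fun s l => (p s l + B).toNat
      φ := fun r => K * z (.inr r) + B * ∑ j, P.ρ r j
      ge := fun r s => ?_
      vx := fun v => (v, none)
      eq := fun v r => ?_
      nb := fun v i => (v, some i)
      nb_eq := fun v i l => ?_
      conv := fun s => ?_
      ψ := fun r => Finset.univ.inf' Finset.univ_nonempty fun s => P.ρ r ⬝ᵥ sp D s
      le := fun r s => Finset.inf'_le _ (Finset.mem_univ s)
      ad := fun v => ?_
      v0 := v0
      z0 := by rw [Equiv.swap_apply_left, h0] }⟩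
    · rw [dm]
      linarith [ge r s]
    · rw [dm, rg, dp]
      simp only [Option.elim, add_zero, add_left_inj]
      refine ⟨fun h => by_contra fun n => ?_, fun h => by rw [on v r h]⟩
      exact (off v r n).ne' (mul_left_cancel₀ (by exact_mod_cast hK.ne') h)
    · rw [mm, mm]
      simp only [p, Option.elim]
      ring
    · obtain ⟨a, a0, a1, a2⟩ := F4.conv P (fun l => (p s l : ℚ) / (K * N)) fun r => by
        have h1 : ((K * z (.inr r) : ℤ) : ℚ) ≤ ((P.ρ r ⬝ᵥ p s : ℤ) : ℚ) := by
          exact_mod_cast ge r s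
        simp only [dotProduct, Int.cast_sum, Int.cast_mul, Int.cast_natCast, z2] at h1
        simp only [← mul_div_assoc, ← Finset.sum_div]
        rw [le_div_iff₀ (by positivity)]
        linarith
      obtain ⟨L, y, hL, hy⟩ := F5a.den a
      have y0 : ∀ v, (((y v).toNat : ℕ) : ℚ) = L * a v := fun v => by
        have h1 : (0 : ℚ) ≤ y v := by
          rw [hy]
          exact mul_nonneg (Nat.cast_nonneg L) (a0 v)
        have h2 : (((y v).toNat : ℕ) : ℤ) = y v := Int.toNat_of_nonneg (by exact_mod_cast h1)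
        rw [← hy, ← h2, Int.cast_natCast, h2]
      have mq : ∀ s l, (((p s l + B).toNat : ℕ) : ℚ) = p s l + B := fun s l => by
        exact_mod_cast mm s l
      refine ⟨L, fun v => (y v).toNat, hL, ?_, fun l => ?_⟩
      · have : ((∑ v, (y v).toNat : ℕ) : ℚ) = L := by
          simp only [Nat.cast_sum, y0, ← Finset.mul_sum, a1, mul_one]
        exact_mod_cast this
      · have h1 := a2 l
        rw [div_eq_iff (by positivity)] at h1
        have : ((L * (p s l + B).toNat : ℕ) : ℚ) =
            ((∑ v, (y v).toNat * (p (v, none) l + B).toNat : ℕ) : ℚ) := by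
          simp only [Nat.cast_sum, Nat.cast_mul, y0, mq, h1]
          simp only [p, Option.elim, add_zero, Int.cast_mul, Int.cast_natCast, z1]
          have e1 : ∀ v, (L : ℚ) * a v * (K * (N * P.mv v l) + B) =
              L * (K * N) * (a v * P.mv v l) + L * B * a v := fun v => by ring
          simp only [e1, Finset.sum_add_distrib, ← Finset.mul_sum, a1]
          ring
        exact_mod_cast this
    · obtain ⟨s, hs⟩ := P.ad v
      exact ⟨s, fun i => le_antisymm (Finset.le_inf' _ _ fun s' _ => hs _ s')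
        (Finset.inf'_le _ (Finset.mem_univ s))⟩

end Pool.Agent.Lib.MP_557161_ag.HG.MC
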