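import Pool.Agent.Lib.MP_557161_ag.MC.StF

/-!
The weights of a fan.
-/

namespace Pool.Agent.Lib.MP_557161_ag.HG.MC

open Matrix

namespace F6a

section
variable {D : ℕ} {R : Type} (F : Fan D R)

lemma eb_zero (v : F.V) (r : R) : F.eb r (F.vx v) = 0 ↔ r ∈ Set.range (F.c v) := by
  rw [← F.eq, ← Nat.cast_eq_zero (R := ℤ), F.eb_eq, sub_eq_zero]

lemma eb_congr {v v' : F.V} (h : ∀ i, F.c v i ∈ Set.range (F.c v')) (r : R) :
    F.eb r (F.vx v) = F.eb r (F.vx v') := by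
  rw [Fan.eb, Fan.eb, ← F.expand v, ← F.expand v]
  simp only [fun i => (F.eq v (F.c v i)).2 ⟨i, rfl⟩, fun i => (F.eq v' (F.c v i)).2 (h i)]

lemma eb_nb (v : F.V) (i j : Jd D) : F.eb (F.c v i) (F.nb v j) = if i = j then 1 else 0 := by
  have h : (fun l => (F.m (F.nb v j) l : ℤ)) = (fun l => (F.m (F.vx v) l : ℤ)) + F.e v j :=
    funext fun l => F.nb_eq v j l
  rw [Fan.eb, h, dotProduct_add, (F.eq v _).2 ⟨i, rfl⟩, add_sub_cancel_left, F.dual]
  split_ifs <;> rfl

lemma eb_conv {s : F.σ} {N : ℕ} {a : F.V → ℕ} (h1 : ∑ v, a v = N)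
    (h2 : ∀ l, N * F.m s l = ∑ v, a v * F.m (F.vx v) l) (r : R) :
    ∑ v, F.eb r (F.vx v) * a v = F.eb r s * N := by
  have h3 : ∀ l, (N : ℤ) * F.m s l = ∑ v, (a v : ℤ) * F.m (F.vx v) l := fun l => by
    exact_mod_cast h2 l
  have h4 : (N : ℤ) = ∑ v, (a v : ℤ) := by exact_mod_cast h1.symm
  have h5 : (F.ρ r ⬝ᵥ fun l => (F.m s l : ℤ)) * N =
      ∑ v, (F.ρ r ⬝ᵥ fun l => (F.m (F.vx v) l : ℤ)) * a v := by
    simp only [dotProduct, Finset.sum_mul]
    rw [Finset.sum_comm]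
    refine Finset.sum_congr rfl fun l _ => ?_
    rw [mul_assoc, mul_comm _ (N : ℤ), h3, Finset.mul_sum]
    exact Finset.sum_congr rfl fun v _ => by ring
  apply Nat.cast_injective (R := ℤ)
  push_cast
  simp only [F.eb_eq, sub_mul, Finset.sum_sub_distrib, ← Finset.mul_sum, h5, ← h4]

end

variable [Rk] {F : Fan (2 * dd) Ry} {v : F.V} {u : Tr → Vr}

lemma cm (F : Fan (2 * dd) Ry) (v : F.V) : ∃ u, Cm F v u := by
  classical
  have h : Fintype.card Tr = Fintype.card {r // r ∉ Set.range (F.c v)} := by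
    rw [Fintype.card_subtype_compl, Set.card_range_of_injective (F.inj v), Fintype.card_sum,
      Nat.add_sub_cancel]
  let e := Fintype.equivOfCardEq h
  refine ⟨fun τ => some (e τ).1, fun a b hab => e.injective (Subtype.ext (Option.some.inj hab)),
    fun l => ⟨?_, ?_⟩⟩
  · rintro ⟨τ, rfl⟩
    exact ⟨_, rfl, (e τ).2⟩
  · rintro ⟨r, rfl, hr⟩
    exact ⟨e.symm ⟨r, hr⟩, by simp only [Equiv.apply_symm_apply]⟩

lemma eqv (h : Cm F v u) : ∃ E : Jx ⊕ Tr ≃ Ry, (∀ j, E (.inl j) = F.c v j) ∧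
    ∀ τ, u τ = some (E (.inr τ)) ∧ E (.inr τ) ∉ Set.range (F.c v) := by
  choose w hw hw' using fun τ => (h.2 (u τ)).1 ⟨τ, rfl⟩
  refine ⟨Equiv.ofBijective (Sum.elim (F.c v) w) ⟨?_, fun r => ?_⟩, fun _ => rfl,
    fun τ => ⟨hw τ, hw' τ⟩⟩
  · rintro (a | a) (b | b) e
    · exact congrArg _ (F.inj v e)
    · exact absurd ⟨a, e⟩ (hw' b)
    · exact absurd ⟨b, e.symm⟩ (hw' a)
    · exact congrArg _ (h.1 (by rw [hw, hw]; exact congrArg _ e))
  · by_cases hr : r ∈ Set.range (F.c v)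
    · exact hr.elim fun j e => ⟨.inl j, e⟩
    · obtain ⟨τ, e⟩ := (h.2 (some r)).2 ⟨r, rfl, hr⟩
      exact ⟨.inr τ, Option.some.inj ((hw τ).symm.trans e)⟩

lemma det (h0 : F.c F.v0 = Sum.inr) (h : Cm F v u) :
    IsUnit (Matrix.of fun r s => wv F (u r) s).det := by
  obtain ⟨E, e1, e2⟩ := eqv h
  have h1 : ∀ r, wv F (some r) ∈ Submodule.span ℤ (Set.range fun τ => wv F (u τ)) := fun r => by
    obtain ⟨j | τ, rfl⟩ := E.surjective r
    · have h2 := wv_rel F h0 (F.e v j)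
      rw [← E.sum_comp, Fintype.sum_sum_type] at h2
      simp only [e1, F.dual, ite_smul, one_smul, zero_smul, Finset.sum_ite_eq', Finset.mem_univ,
        if_true] at h2
      rw [e1, eq_neg_of_add_eq_zero_left h2]
      exact neg_mem (Submodule.sum_mem _ fun τ _ => Submodule.smul_mem _ _
        (Submodule.subset_span ⟨τ, by simp only [(e2 τ).1]⟩))
    · exact Submodule.subset_span ⟨τ, by simp only [(e2 τ).1]⟩
  choose B hB using fun s => (Submodule.mem_span_range_iff_exists_fun ℤ).1 (h1 (.inl s))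
  refine Matrix.isUnit_det_of_left_inverse (B := Matrix.of B) ?_
  ext s s'
  have h2 := congrFun (hB s) s'
  rw [Finset.sum_apply] at h2
  rw [Matrix.mul_apply, Matrix.one_apply]
  refine h2.trans ?_
  show Pi.single (M := fun _ => ℤ) s 1 s' = _
  rw [Pi.single_apply]
  simp only [eq_comm]

open Classical in
/-- The exponents of the vertex monomial of a chart. -/
noncomputable def nn (F : Fan (2 * dd) Ry) (u : Tr → Vr) (τ : Tr) : ℕ :=
  if h : ∃ v, Cm F v u then (u τ).elim 0 fun r => F.eb r (F.vx h.choose) else 0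

lemma nn_eq (h : Cm F v u) {τ : Tr} {r : Ry} (e : u τ = some r) :
    nn F u τ = F.eb r (F.vx v) := by
  have h1 : ∃ v, Cm F v u := ⟨v, h⟩
  rw [nn, dif_pos h1, e]
  refine eb_congr F (fun i => ?_) r
  by_contra n
  obtain ⟨r', e', n'⟩ := (h1.choose_spec.2 _).1 ((h.2 _).2 ⟨_, rfl, n⟩)
  exact n' ⟨i, Option.some.inj e'⟩

lemma prod_nn {M : Type} [CommMonoid M] (h : Cm F v u) (x : Vr → M) :
    ∏ τ, x (u τ) ^ nn F u τ = ∏ r, x (some r) ^ F.eb r (F.vx v) := by
  obtain ⟨E, e1, e2⟩ := eqv h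
  rw [← E.prod_comp, Fintype.prod_sum_type]
  simp only [e1, fun j => (eb_zero F v (F.c v j)).2 ⟨j, rfl⟩, pow_zero, Finset.prod_const_one,
    one_mul]
  exact Finset.prod_congr rfl fun τ _ => by rw [nn_eq h (e2 τ).1, (e2 τ).1]

lemma cvx (h0 : F.c F.v0 = Sum.inr) :
    Cvx (wv F) (fun u => ∃ v, Cm F v u) fun l => l ≠ none := by
  refine ⟨-∑ r, F.φ r • wv F (some r), nn F, ?_, ?_⟩
  · rintro u ⟨v, h⟩
    refine ⟨fun τ => ?_, ?_⟩
    · obtain ⟨r, e, n⟩ := (h.2 (u τ)).1 ⟨τ, rfl⟩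
      rw [nn_eq h e]
      exact Nat.pos_of_ne_zero fun e' => n ((eb_zero F v r).1 e')
    · have h1 : ∑ τ, nn F u τ • wv F (u τ) = ∑ r, F.eb r (F.vx v) • wv F (some r) :=
        prod_nn (M := Multiplicative (Tr → ℤ)) h fun l => Multiplicative.ofAdd (wv F l)
      rw [h1]
      simp only [← natCast_zsmul, F.eb_eq, sub_smul, Finset.sum_sub_distrib, wv_rel F h0, zero_sub]
  · rintro u (_ | r) ⟨v, h⟩ hi
    · exact absurd rfl hi
    obtain ⟨E, e1, e2⟩ := eqv h
    obtain ⟨j | τ, rfl⟩ := E.surjective r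
    · obtain ⟨N, a, hN, h1, h2⟩ := F.conv (F.nb v j)
      choose ch hch using cm F
      refine ⟨N, Finset.univ.toList.flatMap fun v' => List.replicate (a v') (ch v'), hN,
        fun u' hu' => ?_, fun L _ x hx => ?_⟩
      · obtain ⟨v', -, h3⟩ := List.mem_flatMap.1 hu'
        exact ⟨v', (List.eq_of_mem_replicate h3).symm ▸ hch v'⟩
      · rw [List.map_flatMap, List.flatMap_def, List.prod_flatten, List.map_map]
        simp only [Function.comp_def, List.map_replicate, List.prod_replicate]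
        rw [Finset.prod_map_toList]
        simp only [fun v' => prod_nn (hch v') x, ← Finset.prod_pow, ← pow_mul]
        rw [Finset.prod_comm]
        simp only [Finset.prod_pow_eq_pow_sum, eb_conv F h1 h2]
        rw [← E.prod_comp, Fintype.prod_sum_type]
        simp only [e1, eb_nb, fun τ => (e2 τ).1.symm, hx, one_pow, Finset.prod_const_one, mul_one,
          ite_mul, one_mul, zero_mul, pow_ite, pow_zero, Finset.prod_ite_eq', Finset.mem_univ,
          if_true]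
    · exact ⟨1, [], one_pos, fun _ h => absurd h List.not_mem_nil, fun L _ x hx => by
        rw [pow_one, ← (e2 τ).1, hx, List.map_nil, List.prod_nil]⟩

end F6a

theorem F6_thm : F6 where
  cm F v := F6a.cm F v
  det _ h0 _ h := h.elim fun _ h => F6a.det h0 h
  cvx _ h0 := F6a.cvx h0

end Pool.Agent.Lib.MP_557161_ag.HG.MC
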