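import Pool.Agent.Lib.MP_557161_ag.MC.StN

/-!
The splitting function of Artin and Hasse.
-/

namespace Pool.Agent.Lib.MP_557161_ag.HG.MC

open Pool.Agent.Lib.MP_557161_ag.DW

namespace NBa

open Theta PowerSeries

variable {p : ℕ} [hp : Fact p.Prime]

lemma norm_pc : ‖(p : ℂ_[p])‖ = (p : ℝ)⁻¹ := by rw [norm_nat, Padic.norm_p]

lemma norm_zc (x : ℤ_[p]) : ‖zc p x‖ ≤ 1 :=
  (norm_map (x : ℚ_[p])).trans_le x.2

lemma gam_pos {γ : ℂ_[p]} (h : ‖γ‖ ^ (p - 1) = (p : ℝ)⁻¹) : 0 < ‖γ‖ ∧ ‖γ‖ < 1 := by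
  have hp1 : (1 : ℝ) < p := by exact_mod_cast hp.out.one_lt
  have hq : p - 1 ≠ 0 := (Nat.sub_pos_of_lt hp.out.one_lt).ne'
  refine ⟨(norm_nonneg γ).lt_of_ne fun h0 => ?_, ?_⟩
  · rw [← h0, zero_pow hq] at h
    exact absurd h (by positivity : (0 : ℝ) < (p : ℝ)⁻¹).ne
  · exact (pow_lt_one_iff_of_nonneg (norm_nonneg _) hq).1 (h ▸ inv_lt_one_of_one_lt₀ hp1)

/-- The partial sums. -/
noncomputable def be (γ : ℂ_[p]) (j : ℕ) : ℂ_[p] :=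
  (p : ℂ_[p]) ^ (j + 1) * ∑ i ∈ Finset.range (j + 1), γ ^ p ^ i / (p : ℂ_[p]) ^ i

lemma be_zero (γ : ℂ_[p]) : be γ 0 = p * γ := by simp [be]

lemma be_succ (γ : ℂ_[p]) (j : ℕ) : be γ (j + 1) = p * γ ^ p ^ (j + 1) + p * be γ j := by
  have hpK : (p : ℂ_[p]) ≠ 0 := by exact_mod_cast hp.out.ne_zero
  rw [be, be, Finset.sum_range_succ _ (j + 1)]
  field_simp
  ring

lemma bern (k : ℕ) : (p - 1) * k + 1 ≤ p ^ k := by
  obtain ⟨q, hq⟩ : ∃ q, p = q + 1 := ⟨p - 1, (Nat.sub_add_cancel hp.out.one_le).symm⟩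
  have h := one_add_mul_le_pow (a := (q : ℤ)) (by omega) k
  rw [hq, Nat.add_sub_cancel]
  have h2 : ((q * k + 1 : ℕ) : ℤ) ≤ ((q + 1) ^ k : ℕ) := by push_cast; linarith [add_comm (1 : ℤ) q ▸ h]
  exact_mod_cast h2

lemma norm_be {γ : ℂ_[p]} (h : ‖γ‖ ^ (p - 1) = (p : ℝ)⁻¹)
    (hs : HasSum (fun j : ℕ => γ ^ p ^ j / (p : ℂ_[p]) ^ j) 0) (j : ℕ) :
    ‖be γ j‖ ≤ ‖γ‖ ^ p ^ (j + 1) := by
  have hpK : (p : ℂ_[p]) ≠ 0 := by exact_mod_cast hp.out.ne_zero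
  obtain ⟨g0, g1⟩ := gam_pos h
  have h1 := hs.summable.sum_add_tsum_nat_add (j + 1)
  rw [hs.tsum_eq] at h1
  rw [be, eq_neg_of_add_eq_zero_left h1, mul_neg, norm_neg, ← tsum_mul_left]
  refine IsUltrametricDist.norm_tsum_le_of_forall_le fun k => ?_
  have h2 : (p : ℂ_[p]) ^ (j + 1) * (γ ^ p ^ (k + (j + 1)) / (p : ℂ_[p]) ^ (k + (j + 1))) =
      γ ^ p ^ (k + (j + 1)) / (p : ℂ_[p]) ^ k := by
    field_simp
    ring
  have h3 : p ^ (j + 1) + (p - 1) * k ≤ p ^ (k + (j + 1)) := by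
    have h4 := bern (p := p) k
    have h5 : 1 ≤ p ^ (j + 1) := Nat.one_le_pow _ _ hp.out.pos
    rw [pow_add p k]
    nlinarith [Nat.zero_le ((p - 1) * k)]
  rw [h2, norm_div, norm_pow, norm_pow, norm_pc, ← h, ← pow_mul, div_le_iff₀ (by positivity),
    ← pow_add]
  exact pow_le_pow_of_le_one g0.le g1.le h3

/-- The logarithmic derivative of the auxiliary series. -/
noncomputable def gg (γ : ℂ_[p]) : PowerSeries ℂ_[p] :=
  PowerSeries.mk fun n => coeff n (G ℂ_[p] p) * be γ (Nat.log p n)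

lemma G_pow (i : ℕ) : coeff (p ^ i) (G ℂ_[p] p) = 1 := by
  rw [G, coeff_mk, if_pos ⟨i, rfl⟩]

lemma G_not {n : ℕ} (h : ¬∃ i, n = p ^ i) : coeff n (G ℂ_[p] p) = 0 := by
  rw [G, coeff_mk, if_neg h]

lemma gg_eq (γ : ℂ_[p]) : C (p : ℂ_[p]) * rescale γ (G ℂ_[p] p) +
    C (p : ℂ_[p]) * expand p hp.out.ne_zero (gg γ) = gg γ := by
  ext n
  rw [map_add, coeff_C_mul, coeff_C_mul, coeff_rescale, coeff_expand, gg, coeff_mk, coeff_mk]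
  by_cases hn : ∃ i, n = p ^ i
  · obtain ⟨i, rfl⟩ := hn
    rw [G_pow, Nat.log_pow hp.out.one_lt, one_mul, mul_one]
    rcases i with _ | i
    · rw [pow_zero, if_neg hp.out.not_dvd_one, be_zero, pow_one, mul_zero, add_zero]
    · rw [if_pos (dvd_pow_self p i.succ_ne_zero), be_succ, pow_succ' p i,
        Nat.mul_div_cancel_left _ hp.out.pos, G_pow, Nat.log_pow hp.out.one_lt, one_mul]
  · rw [G_not hn, mul_zero, mul_zero, zero_mul, zero_add]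
    split_ifs with h
    · obtain ⟨m, rfl⟩ := h
      rw [Nat.mul_div_cancel_left _ hp.out.pos, G_not, zero_mul, mul_zero]
      rintro ⟨i, rfl⟩
      exact hn ⟨i + 1, by rw [pow_succ']⟩
    · rw [mul_zero]

lemma norm_gg {γ : ℂ_[p]} (h : ‖γ‖ ^ (p - 1) = (p : ℝ)⁻¹)
    (hs : HasSum (fun j : ℕ => γ ^ p ^ j / (p : ℂ_[p]) ^ j) 0) (n : ℕ) :
    ‖coeff n (gg γ)‖ ≤ ‖γ‖ ^ (p * n) := by
  rw [gg, coeff_mk]
  by_cases hn : ∃ i, n = p ^ i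
  · obtain ⟨i, rfl⟩ := hn
    rw [G_pow, Nat.log_pow hp.out.one_lt, one_mul, ← pow_succ']
    exact norm_be h hs i
  · rw [G_not hn, zero_mul, norm_zero]
    positivity

lemma exists_Y {γ : ℂ_[p]} (h : ‖γ‖ ^ (p - 1) = (p : ℝ)⁻¹)
    (hs : HasSum (fun j : ℕ => γ ^ p ^ j / (p : ℂ_[p]) ^ j) 0) :
    ∃ Y : PowerSeries ℂ_[p], Sol (gg γ) Y ∧ ∀ k, ‖coeff k Y‖ ≤ (p : ℝ)⁻¹ ^ k := by
  obtain ⟨g0, g1⟩ := gam_pos h
  have hγ : γ ^ p ≠ 0 := pow_ne_zero _ (norm_pos_iff.1 g0)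
  obtain ⟨Z, hZ⟩ := exists_sol (g := rescale (γ ^ p)⁻¹ (gg γ)) (by
    rw [coeff_rescale, gg, coeff_mk, G_zero hp.out.ne_zero, zero_mul, mul_zero])
  have hb := hZ.bound (M := 1) le_rfl fun n => by
    rw [coeff_rescale, norm_mul, norm_pow, norm_inv, norm_pow, inv_pow, ← pow_mul,
      inv_mul_le_iff₀ (by positivity), mul_one]
    exact norm_gg h hs n
  have hY := hZ.rescale (γ ^ p)
  rw [rescale_rescale, inv_mul_cancel₀ hγ, rescale_one, RingHom.id_apply] at hY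
  refine ⟨_, hY, fun k => ?_⟩
  rcases eq_or_ne k 0 with rfl | hk
  · rw [hY.2.1, norm_one, pow_zero]
  have h1 : ‖γ‖ ^ (k - 1) ≤ ‖(k.factorial : ℂ_[p])‖ := by
    rw [norm_nat]
    exact norm_fact g0.le g1.le le_rfl h.le hk
  have h2 : ‖γ‖ ^ k * ‖coeff k Z‖ ≤ 1 :=
    (mul_le_mul_of_nonneg_right ((pow_le_pow_of_le_one g0.le g1.le (Nat.sub_le k 1)).trans h1)
      (norm_nonneg _)).trans ((hb k).trans (one_pow k).le)
  rw [coeff_rescale, norm_mul, norm_pow, norm_pow, ← pow_sub_one_mul hp.out.ne_zero, h, mul_pow,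
    mul_assoc]
  exact mul_le_of_le_one_right (by positivity) h2

lemma prod_pow {θ : PowerSeries ℂ_[p]} {γ : ℂ_[p]} (h : ‖γ‖ ^ (p - 1) = (p : ℝ)⁻¹)
    (hs : HasSum (fun j : ℕ => γ ^ p ^ j / (p : ℂ_[p]) ^ j) 0)
    (hθ : Sol (rescale γ (G ℂ_[p] p)) θ) (hθb : ∀ k, ‖coeff k θ‖ ≤ ‖γ‖ ^ k) {s : ℕ} (hs0 : 0 < s)
    {t : ℂ_[p]} (ht : t ^ p ^ s = t) : (∏ i ∈ Finset.range s, ev (t ^ p ^ i) θ) ^ p = 1 := by
  have hp0 := hp.out.ne_zero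
  have hp1 : (1 : ℝ) < p := by exact_mod_cast hp.out.one_lt
  have hpi : (0 : ℝ) < (p : ℝ)⁻¹ := by positivity
  have hpi1 : (p : ℝ)⁻¹ < 1 := inv_lt_one_of_one_lt₀ hp1
  obtain ⟨g0, g1⟩ := gam_pos h
  obtain ⟨Y, hY, hYb⟩ := exists_Y h hs
  have key : θ ^ p * expand p hp0 Y = Y := by
    refine Sol.unique ?_ hY
    have h1 := (hθ.pow p).mul (hY.expand p hp0)
    rwa [gg_eq] at h1
  have sθ := sm_of_le g0.le g1 hθb
  have sY := sm_of_le hpi.le hpi1 hYb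
  have ht1 : ‖t‖ ≤ 1 := Char.norm_le (Nat.one_lt_pow hs0.ne' hp.out.one_lt) ht
  have ht2 : ∀ i, ‖t ^ p ^ i‖ ≤ 1 := fun i => by
    rw [norm_pow]; exact pow_le_one₀ (norm_nonneg _) ht1
  have h1 : ∀ i, ev (t ^ p ^ i) θ ^ p * ev (t ^ p ^ (i + 1)) Y = ev (t ^ p ^ i) Y := fun i => by
    rw [pow_succ, pow_mul, ← ev_expand Y hp0, ← ev_pow sθ (ht2 i),
      ← ev_mul (sθ.pow p) (sY.expand hp0) (ht2 i), key]
  have h2 : ∀ m, (∏ i ∈ Finset.range m, ev (t ^ p ^ i) θ) ^ p * ev (t ^ p ^ m) Y = ev t Y := by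
    intro m
    induction m with
    | zero => simp
    | succ m ih => rw [Finset.prod_range_succ, mul_pow, mul_assoc, h1, ih]
  have h3 := h2 s
  rw [ht] at h3
  exact (mul_eq_right₀ (ev_ne_zero hpi.le hpi1 hY.2.1 hYb ht1)).1 h3

lemma split_of {θ : ℕ → ℂ_[p]} {γ : ℂ_[p]} (h : ‖γ‖ ^ (p - 1) = (p : ℝ)⁻¹)
    (hθ : ∀ k, ‖θ k‖ ≤ ‖γ‖ ^ k) (h0 : θ 0 = 1) (h1 : θ 1 = γ)
    (h3 : ∀ s, 0 < s → ∀ t : ℂ_[p], t ^ p ^ s = t →
      (∏ i ∈ Finset.range s, ∑' k, θ k * (t ^ p ^ i) ^ k) ^ p = 1)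
    (K : Type) [Field K] [IsAlgClosed K] [CharP K p] (hK : ∀ x : K, ∃ m, 0 < m ∧ x ^ p ^ m = x) :
    ∃ τ : K →*₀ ℂ_[p], Split θ ‖γ‖ τ ∧ Te τ := by
  obtain ⟨r0, r1⟩ := gam_pos h
  have hq : 0 < p - 1 := Nat.sub_pos_of_lt hp.out.one_lt
  obtain ⟨π, hπ⟩ := IsAlgClosed.exists_pow_nat_eq (-(p : ℂ_[p])) hq
  have hπγ : ‖π‖ = ‖γ‖ := by
    refine (pow_left_inj₀ (norm_nonneg _) (norm_nonneg _) hq.ne').1 ?_
    rw [← norm_pow, hπ, norm_neg, norm_pc, h]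
  have h2 : ∀ k, 2 ≤ k → ‖θ k‖ ≤ ‖γ‖ ^ 2 := fun k hk =>
    (hθ k).trans (pow_le_pow_of_le_one r0.le r1.le hk)
  obtain ⟨τ, t1, t2, t3, t4⟩ := exists_teich p K hK
  have r2 : ‖γ‖ ^ 2 < ‖γ‖ := by nlinarith
  have t5 : ∀ x, ‖τ x‖ ≤ 1 := fun x => by
    rcases eq_or_ne x 0 with rfl | h
    · simp
    · exact (t3 x h).le
  have hn : ∀ s x, Char.Near γ (psi θ τ s x) (∑ i ∈ Finset.range s, τ (x ^ p ^ i)) := by
    intro s x
    simp only [psi, ← map_pow τ x]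
    exact Char.Near.prod r1.le (fun i => Char.near_tsum r0 r1 hθ h0 h1 h2 (t5 _)) s
  have hr : ∀ s, 0 < s → ∀ x : K, x ^ p ^ s = x → psi θ τ s x ^ p = 1 := fun s hs x hx =>
    h3 s hs (τ x) (by rw [← map_pow, hx])
  refine ⟨τ, ⟨r0, r1, h0, hθ, t1, t2, fun s hs x y hx hy => ?_, fun s hs => ?_⟩, t3, t4⟩
  · refine Char.root_eq hπ (hr s hs _ (by rw [add_pow_char_pow, hx, hy]))
      (by rw [mul_pow, hr s hs x hx, hr s hs y hy, one_mul]) ?_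
    rw [hπγ]
    have a1 := (hn s (x + y)).2
    have a2 := ((hn s x).mul r1.le (hn s y)).2
    have a3 := Char.sum_lt (fun i => t4 (x ^ p ^ i) (y ^ p ^ i)) s
    simp only [← add_pow_char_pow, Finset.sum_sub_distrib] at a3
    rw [← norm_neg] at a2
    have a4 := mul_lt_of_lt_one_right r0 a3
    rw [← norm_mul] at a4
    refine lt_of_eq_of_lt (congrArg norm ?_)
      (Char.add_lt (Char.add_lt (a1.trans_lt r2) (a2.trans_lt r2)) a4)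
    ring
  · obtain ⟨x, hx, e⟩ := Char.exists_tr p K hs
    refine ⟨x, hx, fun h => ?_⟩
    have a1 : ∀ n, ‖τ (∑ i ∈ Finset.range n, x ^ p ^ i)
        - ∑ i ∈ Finset.range n, τ (x ^ p ^ i)‖ < 1 := fun n => by
      induction n with
      | zero => simp
      | succ n ih =>
        rw [Finset.sum_range_succ, Finset.sum_range_succ]
        refine lt_of_eq_of_lt (congrArg norm ?_)
          (Char.add_lt (t4 (∑ i ∈ Finset.range n, x ^ p ^ i) (x ^ p ^ n)) ih)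
        ring
    have a2 := (hn s x).2
    rw [h, sub_self, zero_sub, norm_neg, norm_mul, sq] at a2
    have a3 := Char.add_lt (a1 s) ((le_of_mul_le_mul_left a2 r0).trans_lt r1)
    rw [sub_add_cancel, e, map_one, norm_one] at a3
    exact lt_irrefl _ a3

end NBa

open Theta PowerSeries in
theorem NB_thm {p : ℕ} [Fact p.Prime] : NB p := by
  refine ⟨fun {e} he {γ} h hs K _ _ _ hK => ?_⟩
  have hE := (Sol.map (algebraMap ℚ_[p] ℂ_[p]) he).rescale γ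
  rw [map_G] at hE
  have hc : ∀ k, coeff k (rescale γ (map (algebraMap ℚ_[p] ℂ_[p])
      (PowerSeries.mk fun k => (e k : ℚ_[p])))) = zc p (e k) * γ ^ k := fun k => by
    rw [coeff_rescale, coeff_map, coeff_mk, mul_comm]
    rfl
  have hb : ∀ k, ‖zc p (e k) * γ ^ k‖ ≤ ‖γ‖ ^ k := fun k => by
    rw [norm_mul, norm_pow]
    exact mul_le_of_le_one_left (by positivity) (NBa.norm_zc _)
  refine NBa.split_of h hb ((hc 0).symm.trans hE.2.1) ?_ (fun s hs0 t ht => ?_) K hK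
  · have h1 := hE.step 1
    have h2 := NBa.G_pow (p := p) 0
    rw [pow_zero] at h2
    rw [Finset.sum_range_one, hE.2.1, hc, coeff_rescale, Nat.sub_zero, h2] at h1
    simpa using h1
  · have h1 := NBa.prod_pow h hs hE (fun k => (hc k).symm ▸ hb k) hs0 ht
    simpa only [ev, hc] using h1

end Pool.Agent.Lib.MP_557161_ag.HG.MC
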