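import Pool.Agent.Lib.MP_557161_ag.MC.Once

/-!
Block cyclic matrices.
-/

namespace Pool.Agent.Lib.MP_557161_ag.HG.MC

open Matrix

namespace NCa

section ring
variable {R α : Type} [CommRing R] [Fintype α] [DecidableEq α]

theorem prM_add (A : ℕ → Matrix α α R) (m n : ℕ) :
    prM A (m + n) = prM (fun i => A (m + i)) n * prM A m := by
  induction n with
  | zero => simp [prM]
  | succ n ih => rw [← add_assoc, prM, prM, ih, mul_assoc]

omit [CommRing R] [Fintype α] [DecidableEq α] in
theorem per {A : ℕ → Matrix α α R} {a : ℕ} (h : ∀ i, A (i + a) = A i) (j i : ℕ) :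
    A (a * j + i) = A i := by
  induction j with
  | zero => simp
  | succ j ih => rw [show a * (j + 1) + i = a * j + i + a by ring, h, ih]

theorem pw (A : ℕ → Matrix α α R) (a : ℕ) (h : ∀ i, A (i + a) = A i) (j : ℕ) :
    prM A a ^ j = prM A (a * j) := by
  induction j with
  | zero => simp [prM]
  | succ j ih =>
    rw [Nat.mul_succ, prM_add, pow_succ', ih]
    simp only [per h]

theorem pow_apply (A : ℕ → Matrix α α R) (a : ℕ) [NeZero a] (h : ∀ i, A (i + a) = A i) (N : ℕ)
    (u u' : α × ZMod a) : (cyc A a ^ N) u u' =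
      if u.2 = u'.2 + N then prM (fun i => A (u'.2.val + i)) N u.1 u'.1 else 0 := by
  induction N generalizing u with
  | zero =>
    obtain ⟨x, i⟩ := u
    obtain ⟨y, j⟩ := u'
    by_cases h1 : i = j <;> by_cases h2 : x = y <;> simp [prM, one_apply, h1, h2]
  | succ N ih =>
    have hA : A (u'.2 + (N : ZMod a)).val = A (u'.2.val + N) := by
      rw [ZMod.val_add, ZMod.val_natCast, Nat.add_mod_mod]
      conv_rhs => rw [← Nat.div_add_mod (u'.2.val + N) a, per h]
    rw [pow_succ', mul_apply, Fintype.sum_prod_type_right, Finset.sum_eq_single (u'.2 + N)]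
    · have hc : ∀ x : α, cyc A a u (x, u'.2 + N) =
          if u.2 = u'.2 + (N + 1) then A (u'.2.val + N) u.1 x else 0 := by
        intro x
        rw [← hA, ← add_assoc]
        rfl
      simp only [ih, if_true, hc, prM, mul_apply, Nat.cast_succ]
      split_ifs <;> simp
    · intro b _ hb
      simp [ih, hb]
    · simp

theorem tr_shift (A : ℕ → Matrix α α R) (N k : ℕ) (h : ∀ i, A (N + i) = A i) (hk : k ≤ N) :
    (prM (fun i => A (k + i)) N).trace = (prM A N).trace := by
  obtain ⟨m, rfl⟩ := Nat.exists_eq_add_of_le hk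
  rw [prM_add A k m, trace_mul_comm]
  conv_lhs => rw [add_comm k m, prM_add]
  simp only [← add_assoc, h]

theorem tr (A : ℕ → Matrix α α R) (a : ℕ) [NeZero a] (h : ∀ i, A (i + a) = A i) (N : ℕ)
    (hN : 0 < N) : (cyc A a ^ N).trace = if a ∣ N then a * (prM A N).trace else 0 := by
  rw [trace, Fintype.sum_prod_type_right]
  simp only [diag_apply, pow_apply A a h, left_eq_add, ZMod.natCast_eq_zero_iff]
  split_ifs with hd
  · have : ∀ i : ZMod a, ∑ x, prM (fun j => A (i.val + j)) N x x = (prM A N).trace := by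
      intro i
      refine tr_shift A N i.val (fun j => ?_) ((ZMod.val_lt i).le.trans (Nat.le_of_dvd hN hd))
      obtain ⟨c, rfl⟩ := hd
      exact per h c j
    simp [this, ZMod.card]
  · simp

end ring

theorem det {R α : Type} [NormedField R] [Fintype α] [DecidableEq α] (A : ℕ → Matrix α α R)
    (a : ℕ) [NeZero a] : ‖(cyc A a).det‖ = ∏ i ∈ Finset.range a, ‖(A i).det‖ := by
  have e : cyc A a = (blockDiagonal fun i : ZMod a => A i.val).submatrix
      (Equiv.prodCongr (Equiv.refl α) (Equiv.subRight (1 : ZMod a))) id := by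
    ext ⟨x, i⟩ ⟨y, j⟩
    simp only [cyc, of_apply, submatrix_apply, Equiv.prodCongr_apply, Prod.map, id,
      Equiv.coe_refl, Equiv.subRight_apply, blockDiagonal_apply, sub_eq_iff_eq_add]
    split_ifs with h
    · rw [h, add_sub_cancel_right]
    · rfl
  rw [e, det_permute, norm_mul, det_blockDiagonal, norm_prod]
  have s : ∀ z : ℤˣ, ‖((z : ℤ) : R)‖ = 1 := by
    intro z
    rcases Int.units_eq_one_or z with rfl | rfl <;> simp
  rw [s, one_mul]
  refine Finset.prod_nbij (fun i : ZMod a => i.val) (fun i _ => ?_) (fun i _ j _ h => ?_)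
    (fun i hi => ?_) fun _ _ => rfl
  · exact Finset.mem_range.2 (ZMod.val_lt i)
  · exact ZMod.val_injective a h
  · exact ⟨i, by simp, ZMod.val_cast_of_lt (Finset.mem_range.1 hi)⟩

section ultra
variable {R : Type} [NormedField R] [IsUltrametricDist R]

theorem sum_lt {ι : Type} (s : Finset ι) (f : ι → R) (h : ∀ i, ‖f i‖ < 1) : ‖∑ i ∈ s, f i‖ < 1 := by
  classical
  induction s using Finset.induction_on with
  | empty => simp
  | insert a s ha ih =>
    rw [Finset.sum_insert ha]
    exact (IsUltrametricDist.norm_add_le_max _ _).trans_lt (max_lt (h a) ih)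

theorem prod_near {ι : Type} (s : Finset ι) (f g : ι → R) (hf : ∀ i, ‖f i‖ ≤ 1)
    (hg : ∀ i, ‖g i‖ ≤ 1) (h : ∀ i, ‖f i - g i‖ < 1) : ‖∏ i ∈ s, f i - ∏ i ∈ s, g i‖ < 1 := by
  classical
  induction s using Finset.induction_on with
  | empty => simp
  | insert a s ha ih =>
    rw [Finset.prod_insert ha, Finset.prod_insert ha,
      show f a * ∏ i ∈ s, f i - g a * ∏ i ∈ s, g i =
        f a * (∏ i ∈ s, f i - ∏ i ∈ s, g i) + (f a - g a) * ∏ i ∈ s, g i by ring]
    have h1 : ‖∏ i ∈ s, g i‖ ≤ 1 := by
      rw [norm_prod]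
      exact Finset.prod_le_one (fun _ _ => norm_nonneg _) fun i _ => hg i
    refine (IsUltrametricDist.norm_add_le_max _ _).trans_lt (max_lt ?_ ?_)
    · rw [norm_mul]
      exact (mul_le_of_le_one_left (norm_nonneg _) (hf a)).trans_lt ih
    · rw [norm_mul]
      exact (mul_le_of_le_one_right (norm_nonneg _) h1).trans_lt (h a)

theorem det_near {α : Type} [Fintype α] [DecidableEq α] (M M' : Matrix α α R)
    (hM' : ∀ u v, ‖M' u v‖ ≤ 1) (h : ∀ u v, ‖M u v - M' u v‖ < 1) : ‖M.det - M'.det‖ < 1 := by
  have hM : ∀ u v, ‖M u v‖ ≤ 1 := by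
    intro u v
    rw [show M u v = (M u v - M' u v) + M' u v by ring]
    exact (IsUltrametricDist.norm_add_le_max _ _).trans (max_le (h u v).le (hM' u v))
  rw [det_apply', det_apply', ← Finset.sum_sub_distrib]
  refine sum_lt _ _ fun σ => ?_
  have s : ∀ z : ℤˣ, ‖((z : ℤ) : R)‖ = 1 := by
    intro z
    rcases Int.units_eq_one_or z with rfl | rfl <;> simp
  rw [← mul_sub, norm_mul, s, one_mul]
  exact prod_near _ _ _ (fun _ => hM _ _) (fun _ => hM' _ _) fun _ => h _ _

theorem big {α : Type} [Fintype α] [DecidableEq α]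
    (D : α → R) (B : Matrix α α R) (V : α → Prop) [DecidablePred V] (hB : ∀ u v, ‖B u v‖ ≤ 1)
    (h1 : ∀ u, V u → 1 < ‖D u‖) (h2 : ∀ u, ¬ V u → ‖D u‖ < 1)
    (h3 : ‖(B.submatrix (Subtype.val : {u // V u} → α) Subtype.val).det‖ = 1) :
    ‖(1 - Matrix.diagonal D * B).det‖ = ∏ u with V u, ‖D u‖ := by
  let E : α → R := fun u => if V u then -D u else 1
  let M : Matrix α α R := of fun u v =>
    if V u then B u v - (D u)⁻¹ * (1 : Matrix α α R) u v else (1 : Matrix α α R) u v - D u * B u v
  let M' : Matrix α α R := of fun u v => if V u then B u v else (1 : Matrix α α R) u v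
  have o : ∀ u v, ‖(1 : Matrix α α R) u v‖ ≤ 1 := by
    intro u v
    rw [one_apply]
    split_ifs <;> simp
  have e : 1 - Matrix.diagonal D * B = Matrix.diagonal E * M := by
    ext u v
    simp only [Matrix.sub_apply, diagonal_mul, E, M, of_apply]
    split_ifs with h
    · have : D u ≠ 0 := norm_pos_iff.1 (zero_lt_one.trans (h1 u h))
      field_simp
      ring
    · ring
  have d' : ‖M'.det‖ = 1 := by
    rw [twoBlockTriangular_det M' V, norm_mul]
    · have a1 : toSquareBlockProp M' V = B.submatrix (Subtype.val : {u // V u} → α) Subtype.val := by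
        ext u v
        simp [toSquareBlockProp_def, M', u.2]
      have a2 : (toSquareBlockProp M' fun i => ¬ V i) = 1 := by
        ext u v
        simp [toSquareBlockProp_def, M', u.2, one_apply, Subtype.ext_iff]
      rw [a1, a2, h3]
      simp
    · intro i hi j hj
      have : i ≠ j := fun h => hi (h ▸ hj)
      simp [M', hi, this]
  have n : ‖M.det - M'.det‖ < 1 := by
    refine det_near M M' (fun u v => ?_) fun u v => ?_
    · simp only [M', of_apply]
      split_ifs
      · exact hB u v
      · exact o u v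
    · simp only [M, M', of_apply]
      split_ifs with h
      · rw [sub_sub_cancel_left, norm_neg, norm_mul, norm_inv]
        exact (mul_le_of_le_one_right (by positivity) (o u v)).trans_lt
          (inv_lt_one_of_one_lt₀ (h1 u h))
      · rw [sub_sub_cancel_left, norm_neg, norm_mul]
        exact (mul_le_of_le_one_right (norm_nonneg _) (hB u v)).trans_lt (h2 u h)
  have d : ‖M.det‖ = 1 := by
    rw [show M.det = (M.det - M'.det) + M'.det by ring,
      IsUltrametricDist.norm_add_eq_max_of_norm_ne_norm (by rw [d']; exact n.ne), d']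
    exact max_eq_right n.le
  rw [e, det_mul, norm_mul, d, mul_one, det_diagonal, norm_prod, Finset.prod_filter]
  refine Finset.prod_congr rfl fun u _ => ?_
  simp only [E]
  split_ifs <;> simp

end ultra

end NCa

theorem NC_thm : NC where
  tr := fun A a _ h N hN => NCa.tr A a h N hN
  pw := fun A a h j => NCa.pw A a h j
  det := fun A a _ => NCa.det A a
  big := fun D B V _ hB h1 h2 h3 => NCa.big D B V hB h1 h2 h3

end Pool.Agent.Lib.MP_557161_ag.HG.MC
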