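import Pool.Agent.Lib.MP_557161_ag.MC.StN

/-!
The size of the characteristic series.
-/

namespace Pool.Agent.Lib.MP_557161_ag.HG.MC

open Pool.Agent.Lib.MP_557161_ag.DW Polynomial

namespace NDa

lemma ev_rev {R α : Type} [CommRing R] [Fintype α] [DecidableEq α] (M : Matrix α α R) (T : R) :
    M.charpolyRev.eval T = (1 - T • M).det := by
  rw [Matrix.charpolyRev, ← coe_evalRingHom, RingHom.map_det]
  congr 1
  ext u v
  by_cases h : u = v <;> simp [h, mul_comm T]

lemma bp_tc {R : Type} [CommRing R] {n p s J : ℕ} (e : ℕ → R) (hJ : 2 * (p * s + p) ≤ J)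
    {v : Ka n → ℕ} (v' : Ka n → ℕ) (hv : ∑ k, v k < s) : Bp p (tc J e) v v' = Bp p e v v' := by
  refine Finset.sum_congr rfl fun t ht => ?_
  congr 2
  refine Finset.prod_congr rfl fun k _ => ?_
  have h1 : ∀ k, p * v k ≤ p * s := fun k => Nat.mul_le_mul_left p
    ((Finset.single_le_sum (fun _ _ => Nat.zero_le _) (Finset.mem_univ k)).trans hv.le)
  have h2 := Finset.mem_range.1 ht
  have h3 : hh n (p / 2) k ≤ p := by
    rcases k with k | k
    exacts [Nat.zero_le p, Nat.div_le_self p 2]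
  have h4 : (t : ℤ) * rho n k ≤ t := by
    refine mul_le_of_le_one_right (Int.natCast_nonneg t) ?_
    rcases k with k | _ | _ <;> simp [rho]
  have h5 : (ex p v v' t k).toNat ≤ J := by
    have h6 := h1 k
    have h7 := h1 (.inr true)
    rw [Int.toNat_le, ex]
    zify at h2 h3 h6 h7 hJ
    linarith [Int.natCast_nonneg (v' k)]
  simp only [ze, tc, if_pos h5]

lemma bp_map {R S : Type} [CommRing R] [CommRing S] (f : R →+* S) {n : ℕ} (p : ℕ) (e : ℕ → R)
    (v v' : Ka n → ℕ) : (Bp p e v v').map f = Bp p (fun k => f (e k)) v v' := by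
  simp only [Bp, Polynomial.map_sum, Polynomial.map_mul, map_C, Polynomial.map_pow, map_X, map_prod,
    Polynomial.map_prod, ze, apply_ite f, map_zero]

lemma det_am {R S : Type} [CommRing R] [CommRing S] (f : R →+* S) {n p s J : ℕ} (e : ℕ → R)
    (hJ : 2 * (p * s + p) ≤ J) (l : S) :
    (Am p (tc J fun k => f (e k)) n s l).det = ((Hs p e n s).map f).eval l := by
  rw [Hs, ← coe_mapRingHom, RingHom.map_det, ← coe_evalRingHom, RingHom.map_det]
  congr 1
  ext v v'
  simp [Am, bp_tc _ hJ _ v.2.1, bp_map]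

/-- The indices of small weight. -/
def eqv {n s b : ℕ} (h : s ≤ b) (β : Type) : Ib n s × β ≃ {u : Ib n b × β // u.1.w < s} where
  toFun x := ⟨(⟨x.1.1, x.1.2.1.trans_le h, x.1.2.2⟩, x.2), x.1.2.1⟩
  invFun u := (⟨u.1.1.1, u.2, u.1.1.2.2⟩, u.1.2)
  left_inv _ := rfl
  right_inv _ := rfl

end NDa

open NDa in
theorem ND_thm {p : ℕ} [Fact p.Prime] [NC] [NG p] : ND p := by
  refine ⟨fun hp e γ hγ n s a _ l hl hH J b hJ hsb T hT1 hT2 => ?_⟩
  have hp1 : (1 : ℝ) < p := by exact_mod_cast (Fact.out : p.Prime).one_lt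
  have hp2 : p - 1 + 1 = p := Nat.sub_add_cancel (Fact.out : p.Prime).one_le
  have hγ0 : γ ≠ 0 := by
    rintro rfl
    have := (Fact.out : p.Prime).one_lt
    rw [norm_zero, zero_pow (by omega)] at hγ
    exact (inv_pos.2 (by linarith)).ne hγ
  have he : ∀ k, ‖zc p (e k)‖ ≤ 1 := fun k => by
    simpa [zc] using (e k).norm_le_one
  have ent := fun i => NG.ent (γ := γ) hp he (hl i) n J b
  set B := cyc (fun i => Am p (tc J fun k => zc p (e k)) n b (l i)) a with hB
  set D : Ib n b × ZMod a → ℂ_[p] := fun u => T * γ ^ ((p - 1) * (u.1.w + 1)) with hD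
  have hDn : ∀ u, ‖D u‖ = ‖T‖ / (p : ℝ) ^ (u.1.w + 1) := fun u => by
    rw [hD, norm_mul, norm_pow, pow_mul, hγ, inv_pow, div_eq_mul_inv]
  have h1 : (1 - T • cyc (fun i => Am p (tc J fun k => zc p (e k) * γ ^ k) n b (l i)) a) *
      Matrix.diagonal (fun u => γ ^ u.1.w) =
      Matrix.diagonal (fun u => γ ^ u.1.w) * (1 - Matrix.diagonal D * B) := by
    rw [sub_mul, mul_sub, one_mul, mul_one]
    congr 1
    ext u u'
    simp only [Matrix.mul_diagonal, Matrix.diagonal_mul, Matrix.smul_apply, smul_eq_mul, hB, hD,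
      cyc, Matrix.of_apply]
    split_ifs
    · have h2 : p * u.1.w + (p - 1) = u.1.w + (p - 1) * (u.1.w + 1) := by
        conv_lhs => rw [← hp2, Nat.add_sub_cancel]
        ring
      rw [mul_assoc, (ent _ u.1 u'.1).2, h2]
      ring
    · simp
  have h2 := congrArg Matrix.det h1
  rw [Matrix.det_mul, Matrix.det_mul, mul_comm] at h2
  have h3 := mul_left_cancel₀ (by
    rw [Matrix.det_diagonal]
    exact Finset.prod_ne_zero_iff.2 fun u _ => pow_ne_zero _ hγ0) h2
  rw [ev_rev, h3, NC.big D B (fun u => u.1.w < s)]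
  · rw [Finset.prod_subtype (p := fun u : Ib n b × ZMod a => u.1.w < s) _ (by simp),
      ← (eqv hsb (ZMod a)).prod_comp, Fintype.prod_prod_type_right]
    simp only [hDn]
    exact (Finset.prod_const (s := Finset.univ)
      (∏ v : Ib n s, ‖T‖ / (p : ℝ) ^ (v.w + 1))).trans (by rw [Finset.card_univ, ZMod.card])
  · intro u v
    simp only [hB, cyc, Matrix.of_apply]
    split_ifs
    exacts [(ent _ _ _).1, by simp]
  · intro u hu
    rw [hDn, one_lt_div (by positivity)]
    exact (pow_le_pow_right₀ hp1.le hu).trans_lt (hT1.resolve_left (by omega))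
  · intro u hu
    rw [hDn, div_lt_one (by positivity)]
    exact hT2.trans_le (pow_le_pow_right₀ hp1.le (by omega))
  · rw [← Matrix.det_submatrix_equiv_self (eqv hsb (ZMod a))]
    refine (NC.det (fun i => Am p (tc J fun k => zc p (e k)) n s (l i)) a).trans ?_
    simp only [det_am _ e hJ, hH, Finset.prod_const_one]

end Pool.Agent.Lib.MP_557161_ag.HG.MC
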