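import Pool.Agent.Lib.MP_557161_ag.MC.Once

/-! Uniform bounds. -/

namespace Pool.Agent.Lib.MP_557161_ag.HG.MC

open Pool.Agent.Lib.MP_557161_ag.DW Polynomial Filter Topology

namespace NGa

theorem sum_w {α : Type} [Fintype α] (w : α → ℕ) (s : Finset α) (m C : ℕ)
    (h : (Finset.univ.filter fun u => w u ≤ m).card ≤ C) : m * (s.card - C) ≤ ∑ u ∈ s, w u := by
  have h1 : (s.filter fun u => w u ≤ m).card ≤ C :=
    (Finset.card_le_card (Finset.filter_subset_filter _ (Finset.subset_univ s))).trans h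
  have h2 := Finset.card_filter_add_card_filter_not (s := s) fun u => w u ≤ m
  calc m * (s.card - C) ≤ (s.filter fun u => ¬ w u ≤ m).card • m := by
        rw [smul_eq_mul, mul_comm]
        exact Nat.mul_le_mul_right _ (by omega)
    _ ≤ ∑ u ∈ s.filter fun u => ¬ w u ≤ m, w u :=
        Finset.card_nsmul_le_sum _ _ _ fun u hu => (not_le.1 (Finset.mem_filter.1 hu).2).le
    _ ≤ _ := Finset.sum_le_sum_of_subset (Finset.filter_subset _ _)

theorem cnt (n b m : ℕ) :
    (Finset.univ.filter fun u : Ib n b => u.w ≤ m).card ≤ (m + 1) ^ (n + 2) := by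
  have e : (m + 1) ^ (n + 2) = Fintype.card (Ka n → Fin (m + 1)) := by simp
  rw [e, ← Fintype.card_coe]
  refine Fintype.card_le_of_injective (fun u s => ⟨u.1.1 s, Nat.lt_succ_of_le
    ((Finset.single_le_sum (fun _ _ => Nat.zero_le _) (Finset.mem_univ s)).trans
      (Finset.mem_filter.1 u.2).2)⟩) fun u v h => ?_
  exact Subtype.ext (Subtype.ext (funext fun s => congrArg Fin.val (congrFun h s)))

theorem sum_ex {n p : ℕ} (hp : Odd p) (v v' : Ka n → ℕ) (t : ℕ) :
    ∑ s, ex p v v' t s + ((∑ s, v' s : ℕ) : ℤ) = (p * ∑ s, v s + (p - 1) : ℕ) := by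
  have h1 : ∑ s, rho n s = 0 := by simp [rho, Fintype.sum_sum_type]
  have h2 : ∑ s, (hh n (p / 2) s : ℤ) = (p - 1 : ℕ) := by
    obtain ⟨k, rfl⟩ := hp
    have : (2 * k + 1) / 2 = k := by omega
    simp [hh, Fintype.sum_sum_type, this]
  simp only [ex, Finset.sum_add_distrib, Finset.sum_sub_distrib, ← Finset.mul_sum, h1, h2]
  push_cast
  ring

theorem ze_mul {R : Type} [CommRing R] (J : ℕ) (e : ℕ → R) (γ : R) (m : ℤ) :
    ze (tc J fun k => e k * γ ^ k) m = ze (tc J e) m * γ ^ m.toNat := by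
  unfold ze tc
  split_ifs <;> simp

theorem term {R : Type} [CommRing R] {n p : ℕ} (hp : Odd p) (J : ℕ) (e : ℕ → R) (γ : R)
    (v v' : Ka n → ℕ) (t : ℕ) :
    (∏ s, ze (tc J fun k => e k * γ ^ k) (ex p v v' t s)) * γ ^ ∑ s, v' s =
      γ ^ (p * ∑ s, v s + (p - 1)) * ∏ s, ze (tc J e) (ex p v v' t s) := by
  simp only [ze_mul, Finset.prod_mul_distrib, Finset.prod_pow_eq_pow_sum]
  by_cases h : ∀ s, 0 ≤ ex p v v' t s
  · have h1 : ∑ s, (ex p v v' t s).toNat + ∑ s, v' s = p * ∑ s, v s + (p - 1) := by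
      apply Nat.cast_injective (R := ℤ)
      rw [← sum_ex hp v v' t, Nat.cast_add, Nat.cast_sum]
      exact congrArg (· + _) (Finset.sum_congr rfl fun s _ => Int.toNat_of_nonneg (h s))
    rw [mul_assoc, ← pow_add, h1, mul_comm]
  · obtain ⟨s, hs⟩ := not_forall.1 h
    rw [Finset.prod_eq_zero (Finset.mem_univ s) (if_neg hs), zero_mul, zero_mul, mul_zero]

theorem am_eq {R : Type} [CommRing R] (p : ℕ) (θ : ℕ → R) (n b : ℕ) (l : R) (v v' : Ib n b) :
    Am p θ n b l v v' = ∑ t ∈ Finset.range (p * v.1 (.inr true) + p),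
      (∏ s, ze θ (ex p v.1 v'.1 t s)) * l ^ (ex p v.1 v'.1 t (.inr true)).toNat := by
  simp only [Am, Bp, Matrix.of_apply, eval_finsetSum, eval_mul, eval_C, eval_pow, eval_X]

end NGa

theorem NG_thm {p : ℕ} [Fact p.Prime] : NG p where
  bd C := by
    refine ⟨fun j => (Finset.range (j + 1)).sup fun m => m * (j - C m), fun M => ?_,
      fun α _ _ w hw c A hc hc1 hA j => ?_⟩
    · filter_upwards [eventually_ge_atTop (2 * M), eventually_ge_atTop (2 * C (2 * M))] with j h1 h2
      refine le_trans ?_ (Finset.le_sup (f := fun m => m * (j - C m))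
        (Finset.mem_range.2 (Nat.lt_succ_of_le h1)))
      calc M * j ≤ M * (2 * (j - C (2 * M))) := Nat.mul_le_mul_left _ (by omega)
        _ = _ := by ring
    · have hrev : A.charpolyRev =
          Matrix.det (1 + (Polynomial.X : Polynomial ℂ_[p]) • (-A).map Polynomial.C) := by
        simp only [Matrix.charpolyRev, sub_eq_add_neg]
        rw [Matrix.map_neg Polynomial.C (map_neg Polynomial.C), smul_neg]
      rw [hrev, Matrix.coeff_det_one_add_X_smul_eq_sum_minors]
      refine IsUltrametricDist.norm_sum_le_of_forall_le_of_nonneg (pow_pos hc _).le fun s hs => ?_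
      refine (Det.minor_bound hc hc1 _ (fun u => w u.1) fun u v => ?_).trans ?_
      · rw [Matrix.submatrix_apply, Matrix.neg_apply, norm_neg]
        exact hA _ _
      · refine pow_le_pow_of_le_one hc.le hc1.le (Finset.sup_le fun m _ => ?_)
        rw [Finset.sum_coe_sort s w, ← (Finset.mem_powersetCard.1 hs).2]
        exact NGa.sum_w w s m _ (hw m)
  cnt := NGa.cnt
  ent {e γ l} hp he hl n J b v v' := by
    constructor
    · rw [NGa.am_eq]
      refine IsUltrametricDist.norm_sum_le_of_forall_le_of_nonneg zero_le_one fun t _ => ?_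
      rw [norm_mul, norm_prod, norm_pow]
      refine mul_le_one₀ (Finset.prod_le_one (fun _ _ => norm_nonneg _) fun s _ => ?_)
        (by positivity) (pow_le_one₀ (norm_nonneg _) hl)
      unfold ze tc
      split_ifs
      · exact he _
      · simp
      · simp
    · rw [NGa.am_eq, NGa.am_eq, Finset.sum_mul, Finset.mul_sum]
      refine Finset.sum_congr rfl fun t _ => ?_
      rw [mul_right_comm, Ib.w, Ib.w,
        NGa.term ((Fact.out : p.Prime).odd_of_ne_two hp) J e γ v.1 v'.1 t, mul_assoc]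
  mul {α _ _} w c A hc hc1 hA N hN := by
    induction N, hN using Nat.le_induction with
    | base => simpa [prM] using hA 0
    | succ N _ ih =>
      intro u v
      rw [prM, Matrix.mul_apply, ← le_div_iff₀ (pow_pos hc _)]
      refine IsUltrametricDist.norm_sum_le_of_forall_le_of_nonneg (by positivity) fun k _ => ?_
      rw [le_div_iff₀ (pow_pos hc _), norm_mul, mul_assoc]
      refine le_trans (mul_le_mul_of_nonneg_left ((ih k v).trans ?_) (norm_nonneg _)) (hA N u k)
      exact pow_le_pow_of_le_one hc.le hc1.le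
        (Nat.le_mul_of_pos_left _ (Fact.out : p.Prime).pos)

end Pool.Agent.Lib.MP_557161_ag.HG.MC
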