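import Pool.Agent.Lib.MP_557161_ag.MC.StN

/-!
The minors of the matrix of Dwork do not vanish modulo `p`.
-/

namespace Pool.Agent.Lib.MP_557161_ag.HG.MC

open Pool.Agent.Lib.MP_557161_ag.DW Polynomial

namespace NHa

variable {R : Type} [CommRing R]

theorem cp {ι : Type} (s : Finset ι) (f : ι → R[X]) (d : ι → ℕ) (h : ∀ i, (f i).natDegree ≤ d i) :
    (∏ i ∈ s, f i).coeff (∑ i ∈ s, d i) = ∏ i ∈ s, (f i).coeff (d i) := by
  classical
  induction s using Finset.induction_on with
  | empty => simp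
  | insert a s ha ih =>
    rw [Finset.prod_insert ha, Finset.sum_insert ha, Finset.prod_insert ha,
      coeff_mul_add_eq_of_natDegree_le (h a)
        ((natDegree_prod_le s f).trans (Finset.sum_le_sum fun i _ => h i)), ih]

theorem cdet {α : Type} [Fintype α] [DecidableEq α] (B : Matrix α α R[X]) (D : α → ℕ)
    (h : ∀ i j, (B i j).natDegree ≤ D i) :
    B.det.coeff (∑ i, D i) = (Matrix.of fun i j => (B i j).coeff (D i)).det := by
  rw [← Matrix.det_transpose B, ← Matrix.det_transpose (Matrix.of _), Matrix.det_apply',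
    Matrix.det_apply', finsetSum_coeff]
  refine Finset.sum_congr rfl fun σ _ => ?_
  rw [coeff_intCast_mul]
  congr 1
  exact cp _ (fun i => B i (σ i)) D fun i => h i _

theorem ze_map {S : Type} [CommRing S] (f : R →+* S) (e : ℕ → R) (m : ℤ) :
    f (ze e m) = ze (fun k => f (e k)) m := by
  unfold ze
  split_ifs <;> simp

theorem Hs_map {S : Type} [CommRing S] (f : R →+* S) (p : ℕ) (e : ℕ → R) (n s : ℕ) :
    (Hs p e n s).map f = Hs p (fun k => f (e k)) n s := by
  unfold Hs
  rw [← coe_mapRingHom, RingHom.map_det]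
  congr 1
  ext1 v v'
  simp only [RingHom.mapMatrix_apply, Matrix.map_apply, Matrix.of_apply, coe_mapRingHom, Bp,
    Polynomial.map_sum, Polynomial.map_mul, map_C, Polynomial.map_pow, map_X]
  simp only [map_prod f, ze_map f]

theorem term {n : ℕ} (p : ℕ) (e : ℕ → R) (v v' : Ka n → ℕ) (t : ℕ) :
    (∏ s, ze e (ex p v v' t s)) = 0 ∨ (ex p v v' t (.inr true)).toNat + v' (.inr true) + t * n =
      p * v (.inr true) + p / 2 := by
  by_cases h : 0 ≤ ex p v v' t (.inr true)
  · right
    have h1 := Int.toNat_of_nonneg h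
    have h2 : ex p v v' t (.inr true) =
        (p * v (.inr true) : ℕ) - v' (.inr true) + (p / 2 : ℕ) - (t * n : ℕ) := by
      simp only [ex, hh, rho, Sum.elim_inr, cond_true, Nat.cast_mul]
      ring
    omega
  · exact Or.inl (Finset.prod_eq_zero (Finset.mem_univ (Sum.inr true)) (if_neg h))

theorem deg {n : ℕ} (p : ℕ) (e : ℕ → R) (v v' : Ka n → ℕ) :
    (X ^ v' (.inr true) * Bp p e v v').natDegree ≤ p * v (.inr true) + p / 2 := by
  rw [Bp, Finset.mul_sum]
  refine natDegree_sum_le_of_forall_le _ _ fun t _ => ?_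
  rw [mul_comm, mul_assoc, ← pow_add]
  rcases term p e v v' t with h | h
  · simp [h]
  · exact (natDegree_C_mul_X_pow_le _ _).trans (by omega)

theorem co {n p : ℕ} (hn : 0 < n) (hp : 0 < p) (e : ℕ → R) (v v' : Ka n → ℕ) :
    (X ^ v' (.inr true) * Bp p e v v').coeff (p * v (.inr true) + p / 2) =
      ∏ s, ze e (ex p v v' 0 s) := by
  rw [Bp, Finset.mul_sum, finsetSum_coeff, Finset.sum_eq_single 0]
  · rw [mul_comm, mul_assoc, ← pow_add, coeff_C_mul_X_pow]
    rcases term p e v v' 0 with h | h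
    · simp [h]
    · exact if_pos (by omega)
  · intro t _ ht
    rw [mul_comm, mul_assoc, ← pow_add, coeff_C_mul_X_pow]
    rcases term p e v v' t with h | h
    · simp [h]
    · have := Nat.mul_pos (Nat.pos_of_ne_zero ht) hn
      exact if_neg (by omega)
  · intro h
    exact absurd (Finset.mem_range.2 (by omega)) h

end NHa

theorem NH_thm {p : ℕ} [Fact p.Prime] [NA p] [NU p] : NH p := by
  refine ⟨fun _ e he n s hn _ h0 => ?_⟩
  have hp : 0 < p := (Fact.out : p.Prime).pos
  rw [NHa.Hs_map] at h0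
  obtain ⟨e0, er⟩ := NA.rc he
  have l := NU.lu (p := p) (fun k => PadicInt.toZMod (e k)) (by simp [e0]) fun k => by
    have := congrArg PadicInt.toZMod (er k)
    simpa [map_sum, apply_ite PadicInt.toZMod] using this
  generalize (fun k => PadicInt.toZMod (e k)) = f at h0 l
  have hc : ∀ s : Ka n, hh n (p / 2) s < p := by
    rintro (i | b)
    · exact hp
    · exact Nat.div_lt_self hp (by norm_num)
  choose L U hL hU hd hLU using fun s : Ka n => l _ (hc s)
  refine NU.ten (p := p) (α := Ib n s) (fun v => v.1) Subtype.val_injective ?_ L U hL hU hd ?_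
  · rintro ⟨v, h1, i, h2⟩ u hu
    exact ⟨⟨u, (Finset.sum_le_sum fun s _ => hu s).trans_lt h1, i,
      Nat.le_zero.1 ((hu (.inl i)).trans h2.le)⟩, rfl⟩
  · have h1 := NHa.cdet (Matrix.of fun v v' : Ib n s => X ^ v'.1 (.inr true) * Bp p f v.1 v'.1)
      (fun v => p * v.1 (.inr true) + p / 2) fun v v' => NHa.deg p f v.1 v'.1
    have h2 := Matrix.det_mul_row (fun v' : Ib n s => (X : (ZMod p)[X]) ^ v'.1 (.inr true))
      (Matrix.of fun v v' : Ib n s => Bp p f v.1 v'.1)
    simp only [Matrix.of_apply] at h1 h2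
    rw [Hs] at h0
    rw [h2, h0, mul_zero, coeff_zero] at h1
    rw [h1]
    congr 1
    ext v v'
    simp only [Matrix.of_apply]
    rw [NHa.co hn hp]
    refine Finset.prod_congr rfl fun s _ => ?_
    rw [← hLU, ex]
    simp

end Pool.Agent.Lib.MP_557161_ag.HG.MC
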