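import Pool.Agent.Lib.MP_557161_ag.MC.StN

/-!
Counting by slopes.
-/

namespace Pool.Agent.Lib.MP_557161_ag.HG.MC

open Pool.Agent.Lib.MP_557161_ag.DW Finset

namespace NKa

variable {p : ℕ} [Fact p.Prime]

theorem one_lt : (1 : ℝ) < p := by exact_mod_cast (Fact.out : p.Prime).one_lt

theorem nrm : ‖(p : ℂ_[p])‖ = (p : ℝ)⁻¹ := by
  rw [← map_natCast (algebraMap ℚ_[p] ℂ_[p]), norm_algebraMap', Padic.norm_p]

theorem inf (s : ℕ) :
    {r : ℝ | (p : ℝ) ^ s < r ∧ r < (p : ℝ) ^ (s + 1) ∧ ∃ T : ℂ_[p], ‖T‖ = r}.Infinite := by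
  have p1 := one_lt (p := p)
  have p0 : (0 : ℝ) < p := by linarith
  choose y hy using fun n : ℕ => IsAlgClosed.exists_pow_nat_eq ((p : ℂ_[p])⁻¹) (n := n + 2)
    (by omega)
  have h1 : ∀ n, ‖y n‖ ^ (n + 2) = p := fun n => by rw [← norm_pow, hy, norm_inv, nrm, inv_inv]
  have h2 : ∀ n, 1 < ‖y n‖ := fun n => by
    by_contra k
    have := pow_le_one₀ (n := n + 2) (norm_nonneg (y n)) (not_lt.1 k)
    linarith [h1 n]
  have h3 : ∀ n, ‖y n‖ < p := fun n => by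
    rw [← h1 n]
    simpa using pow_lt_pow_right₀ (h2 n) (show 1 < n + 2 by omega)
  refine Set.infinite_of_injective_forall_mem (f := fun n : ℕ => (p : ℝ) ^ s * ‖y n‖)
    (fun n m k => ?_) fun n => ⟨lt_mul_of_one_lt_right (by positivity) (h2 n), ?_,
      (p : ℂ_[p])⁻¹ ^ s * y n, by rw [norm_mul, norm_pow, norm_inv, nrm, inv_inv]⟩
  · have e : ‖y n‖ = ‖y m‖ := mul_left_cancel₀ (by positivity) k
    have e2 : ‖y m‖ ^ (n + 2) = ‖y m‖ ^ (m + 2) := by rw [h1 m, ← e, h1 n]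
    have := pow_right_injective₀ (by linarith [h2 m]) (h2 m).ne' e2
    omega
  · rw [pow_succ]
    exact mul_lt_mul_of_pos_left (h3 n) (by positivity)

theorem lg {x : ℂ_[p]} (h : ‖x‖ ≠ 1) :
    ‖1 - x‖ ≠ 0 ∧ Real.log ‖1 - x‖ = if 1 < ‖x‖ then Real.log ‖x‖ else 0 := by
  have e : ‖1 - x‖ = max 1 ‖x‖ := by
    rw [sub_eq_add_neg, IsUltrametricDist.norm_add_eq_max_of_norm_ne_norm (by simpa using h.symm),
      norm_one, norm_neg]
  rw [e]
  refine ⟨(one_pos.trans_le (le_max_left _ _)).ne', ?_⟩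
  split_ifs with k
  · rw [max_eq_right k.le]
  · rw [max_eq_left (not_lt.1 k), Real.log_one]

theorem key {a s : ℕ} {ν : ℂ_[p] →₀ ℤ} (ha : 0 < a)
    (h : ∀ T : ℂ_[p], (p : ℝ) ^ s < ‖T‖ → ‖T‖ < (p : ℝ) ^ (s + 1) →
      (∀ z ∈ ν.support, ‖z * T ^ a‖ ≠ 1) → (ν.prod fun z k => ‖1 - z * T ^ a‖ ^ k) =
        (∏ k ∈ range s, ‖T‖ / (p : ℝ) ^ (k + 1)) ^ a) :
    ∃ r : ℝ, (p : ℝ) ^ s < r ∧ r < (p : ℝ) ^ (s + 1) ∧
      ∑ z ∈ ν.support with 1 < ‖z‖ * r ^ a, ν z = s := by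
  have p0 : (0 : ℝ) < p := one_pos.trans one_lt
  have fin : {r : ℝ | 0 < r ∧ ∃ z ∈ ν.support, ‖z‖ * r ^ a = 1}.Finite := by
    refine (ν.support.finite_toSet.biUnion (t := fun z => {r : ℝ | 0 < r ∧ ‖z‖ * r ^ a = 1})
      fun z _ => Set.Subsingleton.finite fun r hr r' hr' => ?_).subset
      fun r ⟨k, z, k1, k2⟩ => Set.mem_biUnion (t := fun z => {r : ℝ | 0 < r ∧ ‖z‖ * r ^ a = 1})
        k1 ⟨k, k2⟩
    have z0 : ‖z‖ ≠ 0 := fun k => by simpa [k] using hr.2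
    exact (pow_left_inj₀ hr.1.le hr'.1.le ha.ne').1 (mul_left_cancel₀ z0 (hr.2.trans hr'.2.symm))
  have eq : ∀ r ∈ {r : ℝ | (p : ℝ) ^ s < r ∧ r < (p : ℝ) ^ (s + 1) ∧ ∃ T : ℂ_[p], ‖T‖ = r} \
      {r : ℝ | 0 < r ∧ ∃ z ∈ ν.support, ‖z‖ * r ^ a = 1},
      ∑ z ∈ ν.support with 1 < ‖z‖ * r ^ a, (ν z : ℝ) * (Real.log ‖z‖ + a * Real.log r) =
        a * (s * Real.log r - ∑ k ∈ range s, Real.log ((p : ℝ) ^ (k + 1))) := by
    rintro r ⟨⟨k1, k2, T, rfl⟩, k3⟩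
    have r0 : 0 < ‖T‖ := (pow_pos p0 s).trans k1
    have k4 : ∀ z ∈ ν.support, ‖z * T ^ a‖ ≠ 1 := fun z hz k =>
      k3 ⟨r0, z, hz, by rwa [norm_mul, norm_pow] at k⟩
    have k5 := congrArg Real.log (h T k1 k2 k4)
    rw [Finsupp.prod, Real.log_prod fun z hz => zpow_ne_zero _ (lg (k4 z hz)).1, Real.log_pow,
      Real.log_prod fun k _ => by positivity] at k5
    have k6 : ∑ k ∈ range s, Real.log (‖T‖ / (p : ℝ) ^ (k + 1)) =
        s * Real.log ‖T‖ - ∑ k ∈ range s, Real.log ((p : ℝ) ^ (k + 1)) := by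
      rw [sum_congr rfl fun k _ => Real.log_div r0.ne' (by positivity), sum_sub_distrib]
      simp
    rw [← k6, ← k5, sum_filter]
    refine sum_congr rfl fun z hz => ?_
    rw [Real.log_zpow, (lg (k4 z hz)).2, norm_mul, norm_pow]
    split_ifs with k
    · have z0 : ‖z‖ ≠ 0 := fun k' => by
        rw [k', zero_mul] at k
        linarith
      rw [Real.log_mul z0 (by positivity), Real.log_pow]
    · simp
  obtain ⟨r, hr, r', hr', ne, e⟩ := ((inf (p := p) s).sdiff fin).exists_ne_map_eq_of_mapsTo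
    (f := fun r : ℝ => {z ∈ ν.support | 1 < ‖z‖ * r ^ a}) (t := ν.support.powerset)
    (fun r _ => mem_coe.2 (mem_powerset.2 (filter_subset _ _))) (finite_toSet _)
  refine ⟨r, hr.1.1, hr.1.2.1, ?_⟩
  have e1 := eq r hr
  have e2 := eq r' hr'
  rw [← e] at e2
  have l : Real.log r - Real.log r' ≠ 0 := sub_ne_zero.2 fun k => ne (Real.log_injOn_pos
    ((pow_pos p0 s).trans hr.1.1) ((pow_pos p0 s).trans hr'.1.1) k)
  have a0 : (a : ℝ) ≠ 0 := by exact_mod_cast ha.ne'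
  simp only [mul_add, sum_add_distrib, ← sum_mul] at e1 e2
  have e3 : ((∑ z ∈ ν.support with 1 < ‖z‖ * r ^ a, (ν z : ℝ)) - s) *
      (a * (Real.log r - Real.log r')) = 0 := by linear_combination e1 - e2
  have e4 := sub_eq_zero.1 ((mul_eq_zero.1 e3).resolve_right (mul_ne_zero a0 l))
  exact_mod_cast e4

end NKa

open NKa

theorem NK_thm {p : ℕ} [Fact p.Prime] : NK p := by
  classical
  refine ⟨fun d a ν ha h w hw pos _ => ?_⟩
  have p1 := one_lt (p := p)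
  have p0 : (0 : ℝ) < p := by linarith
  choose r h1 h2 h3 using fun s (hs : s ≤ 2 * d + 1) => key ha (h s hs)
  have w0 : w ≠ 0 := fun k => by
    rw [k, norm_zero] at hw
    exact absurd hw.symm (by positivity)
  have w1 : w ≠ -w := fun k => w0 (self_eq_neg.1 k)
  have mono : ∀ s t hs ht, s ≤ t → r s hs ≤ r t ht := fun s t hs ht k => by
    rcases k.eq_or_lt with rfl | k
    · exact le_rfl
    · exact ((h2 s hs).trans_le ((pow_le_pow_right₀ p1.le k).trans (h1 t ht).le)).le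
  have sub : ∀ s t hs ht, s ≤ t → ∀ z : ℂ_[p], 1 < ‖z‖ * r s hs ^ a → 1 < ‖z‖ * r t ht ^ a :=
    fun s t hs ht k z k1 => k1.trans_le (mul_le_mul_of_nonneg_left
      (pow_le_pow_left₀ ((pow_pos p0 s).trans (h1 s hs)).le (mono s t hs ht k) a) (norm_nonneg z))
  have d1 : d ≤ 2 * d + 1 := by omega
  have d2 : d + 1 ≤ 2 * d + 1 := by omega
  have q0 : (0 : ℝ) < ((p : ℝ) ^ a) ^ (d + 1) := by positivity
  have n1 : ¬1 < ‖w‖ * r d d1 ^ a := by
    rw [hw, not_lt, inv_mul_le_iff₀ q0, mul_one, pow_right_comm]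
    exact pow_le_pow_left₀ ((pow_pos p0 d).trans (h1 d d1)).le (h2 d d1).le a
  have n2 : 1 < ‖w‖ * r (d + 1) d2 ^ a := by
    rw [hw, lt_inv_mul_iff₀ q0, mul_one, pow_right_comm]
    exact pow_lt_pow_left₀ (h1 _ d2) (by positivity) ha.ne'
  have e1 := h3 d d1
  have e2 := h3 (d + 1) d2
  have e3 := h3 (2 * d + 1) le_rfl
  have e4 : off ν w = ∑ z ∈ ν.support, if z ≠ w ∧ z ≠ -w then ν z else 0 := by
    have k : ∀ x, ν x = ∑ z ∈ ν.support, if z = x then ν z else 0 := fun x => by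
      rw [sum_ite_eq']
      split_ifs with k
      · rfl
      · exact Finsupp.notMem_support_iff.1 k
    rw [off, k w, k (-w), Finsupp.sum, ← sum_sub_distrib, ← sum_sub_distrib]
    refine sum_congr rfl fun z _ => ?_
    by_cases a1 : z = w
    · simp [a1, w1]
    · by_cases a2 : z = -w
      · simp [a2, w1.symm]
      · simp [a1, a2]
  rw [sum_filter] at e1 e2 e3
  have e5 : 2 * (d : ℤ) = ∑ z ∈ ν.support, ((if 1 < ‖z‖ * r d d1 ^ a then ν z else 0) +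
      (if 1 < ‖z‖ * r (2 * d + 1) le_rfl ^ a then ν z else 0) -
      if 1 < ‖z‖ * r (d + 1) d2 ^ a then ν z else 0) := by
    rw [sum_sub_distrib, sum_add_distrib, e1, e2, e3]
    push_cast
    ring
  rw [e4, e5]
  refine sum_le_sum fun z _ => ?_
  have s1 := sub d (d + 1) d1 d2 (by omega) z
  have s2 := sub (d + 1) (2 * d + 1) d2 le_rfl d2 z
  by_cases k : z ≠ w ∧ z ≠ -w
  · have := pos z k.1 k.2
    rw [if_pos k]
    split_ifs <;> first | omega | tauto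
  · have k' : ‖z‖ = ‖w‖ := by
      by_cases a1 : z = w
      · rw [a1]
      · rw [not_not.1 fun a2 => k ⟨a1, a2⟩, norm_neg]
    rw [k'] at s2 ⊢
    rw [if_neg k, if_neg n1, if_pos n2, if_pos (s2 n2)]
    simp

end Pool.Agent.Lib.MP_557161_ag.HG.MC
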