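import Pool.Agent.Lib.MP_557161_ag.MC.StN

/-!
The passage to the limit.
-/

namespace Pool.Agent.Lib.MP_557161_ag.HG.MC

open Pool.Agent.Lib.MP_557161_ag.DW Filter Topology

namespace NLa

open PowerSeries Theta

variable {p : ℕ} [Fact p.Prime]

/-- The formal exponential of `g` is a quotient of convergent series, of size `r` at `1`. -/
def Rt (g : PowerSeries ℂ_[p]) (r : ℝ) : Prop :=
  ∃ gA gB A B : PowerSeries ℂ_[p], Sol gA A ∧ Sol gB B ∧ Sm A ∧ Sm B ∧ g = gA - gB ∧
    ev 1 B ≠ 0 ∧ ‖ev 1 A‖ = r * ‖ev 1 B‖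

lemma cc_ser (x : ℕ → ℂ_[p]) : constantCoeff (ser x) = 0 := by
  rw [← coeff_zero_eq_constantCoeff_apply, Mer.coeff_ser, if_pos rfl]

lemma sol_one : Sol (0 : PowerSeries ℂ_[p]) 1 := by
  refine ⟨by simp, by simp, ?_⟩
  ext n
  rw [coeff_dd, coeff_one]
  split_ifs with hn <;> simp [*]

lemma ev_coe (t : ℂ_[p]) (U : Polynomial ℂ_[p]) : ev t (U : PowerSeries ℂ_[p]) = U.eval t := by
  rw [ev, Polynomial.eval_eq_sum, Polynomial.sum_def, tsum_eq_sum (s := U.support) fun k hk => by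
    rw [Polynomial.coeff_coe, Polynomial.notMem_support_iff.1 hk, zero_mul]]
  simp only [Polynomial.coeff_coe]

lemma sm_coe (U : Polynomial ℂ_[p]) : Sm (U : PowerSeries ℂ_[p]) :=
  summable_of_ne_finset_zero (s := U.support) fun k hk => by
    rw [Polynomial.coeff_coe, Polynomial.notMem_support_iff.1 hk, norm_zero]

lemma sm_one : Sm (1 : PowerSeries ℂ_[p]) := Polynomial.coe_one (R := ℂ_[p]) ▸ sm_coe 1

lemma ev_one : ev 1 (1 : PowerSeries ℂ_[p]) = 1 := by
  rw [← Polynomial.coe_one, ev_coe, Polynomial.eval_one]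

variable {g g' A : PowerSeries ℂ_[p]} {r r' : ℝ}

lemma Rt.base (h : Sol g A) (hs : Sm A) : Rt g ‖ev 1 A‖ :=
  ⟨g, 0, A, 1, h, sol_one, hs, sm_one, (sub_zero _).symm, by rw [ev_one]; exact one_ne_zero,
    by rw [ev_one, norm_one, mul_one]⟩

lemma Rt.zero : Rt (0 : PowerSeries ℂ_[p]) 1 := by
  have := Rt.base (sol_one (p := p)) sm_one
  rwa [ev_one, norm_one] at this

lemma Rt.add (h : Rt g r) (h' : Rt g' r') : Rt (g + g') (r * r') := by
  obtain ⟨a, b, A, B, h1, h2, h3, h4, rfl, h6, h7⟩ := h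
  obtain ⟨a', b', A', B', k1, k2, k3, k4, rfl, k6, k7⟩ := h'
  refine ⟨_, _, _, _, h1.mul k1, h2.mul k2, h3.mul k3, h4.mul k4, by ring, ?_, ?_⟩
  · rw [ev_mul h4 k4 norm_one.le]
    exact mul_ne_zero h6 k6
  · rw [ev_mul h3 k3 norm_one.le, ev_mul h4 k4 norm_one.le, norm_mul, norm_mul, h7, k7]
    ring

lemma Rt.neg (h : Rt g r) (hr : r ≠ 0) : Rt (-g) r⁻¹ := by
  obtain ⟨a, b, A, B, h1, h2, h3, h4, rfl, h6, h7⟩ := h
  refine ⟨_, _, _, _, h2, h1, h4, h3, by ring, ?_, ?_⟩
  · rw [← norm_ne_zero_iff, h7]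
    exact mul_ne_zero hr (norm_ne_zero_iff.2 h6)
  · rw [h7, inv_mul_cancel_left₀ hr]

lemma Rt.nsmul (h : Rt g r) (k : ℕ) : Rt (k • g) (r ^ k) := by
  induction k with
  | zero => simpa using Rt.zero
  | succ k ih => rw [succ_nsmul, pow_succ]; exact ih.add h

lemma Rt.zsmul (h : Rt g r) (hr : r ≠ 0) (k : ℤ) : Rt (k • g) (r ^ k) := by
  rcases k with k | k
  · simpa using h.nsmul k
  · rw [negSucc_zsmul, zpow_negSucc]
    exact (h.nsmul _).neg (pow_ne_zero _ hr)

lemma Rt.sum {ι : Type} (S : Finset ι) {g : ι → PowerSeries ℂ_[p]} {r : ι → ℝ}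
    (h : ∀ i ∈ S, Rt (g i) (r i)) : Rt (∑ i ∈ S, g i) (∏ i ∈ S, r i) := by
  classical
  induction S using Finset.induction_on with
  | empty => simpa using Rt.zero
  | insert x S hx ih =>
    rw [Finset.sum_insert hx, Finset.prod_insert hx]
    exact (h x (Finset.mem_insert_self _ _)).add
      (ih fun y hy => h y (Finset.mem_insert_of_mem hy))

lemma Rt.unique (h : Rt g r) (h' : Rt g r') : r = r' := by
  obtain ⟨a, b, A, B, h1, h2, h3, h4, h5, h6, h7⟩ := h
  obtain ⟨a', b', A', B', k1, k2, k3, k4, k5, k6, k7⟩ := h'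
  have e : a + b' = a' + b := by linear_combination k5 - h5
  have e1 : A * B' = A' * B := (h1.mul k2).unique (e ▸ k1.mul h2)
  have e2 := congrArg (fun f => ‖ev 1 f‖) e1
  simp only [ev_mul h3 k4 norm_one.le, ev_mul k3 h4 norm_one.le, norm_mul, h7, k7] at e2
  have := mul_ne_zero (norm_ne_zero_iff.2 h6) (norm_ne_zero_iff.2 k6)
  apply mul_right_cancel₀ this
  linear_combination e2

/-- The factor `1 - w X ^ a`. -/
lemma Rt.fac (w : ℂ_[p]) {a : ℕ} (ha : 0 < a) :
    Rt (-ser fun m => if a ∣ m then (a : ℂ_[p]) * w ^ (m / a) else 0) ‖1 - w‖ := by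
  have h1 : Sol (-ser fun _ => (1 : ℂ_[p])) (1 - X) := by
    refine ⟨by simp [cc_ser], by simp, ?_⟩
    ext n
    rw [mul_sub, mul_one, map_sub, coeff_dd]
    rcases n with _ | n
    · simp [cc_ser]
    · rw [coeff_succ_mul_X]
      rcases n with _ | n <;> simp [Mer.coeff_ser, coeff_one, coeff_X, cc_ser]
  have h2 := (h1.rescale w).expand a ha.ne'
  have h3 : expand a ha.ne' (rescale w (1 - X : PowerSeries ℂ_[p])) =
      ((1 - Polynomial.C w * Polynomial.X ^ a : Polynomial ℂ_[p]) : PowerSeries ℂ_[p]) := by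
    simp [rescale_X, expand_C]
  rw [h3] at h2
  have h4 := Rt.base h2 (sm_coe _)
  rw [ev_coe] at h4
  convert h4 using 1
  · ext m
    rw [coeff_C_mul, coeff_expand, map_neg, Mer.coeff_ser]
    by_cases hm : a ∣ m
    · obtain ⟨k, rfl⟩ := hm
      simp [Nat.mul_div_cancel_left _ ha, coeff_rescale, Mer.coeff_ser, ha.ne']
    · simp [hm]
  · simp

lemma summable_bd {c : ℝ} (hc : 0 < c) (hc' : c < 1) {h : ℕ → ℕ}
    (hh : ∀ M : ℕ, ∀ᶠ j in atTop, M * j ≤ h j) {r : ℝ} (hr : 0 ≤ r) :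
    Summable fun k => c ^ h k * r ^ k := by
  obtain ⟨M, hM⟩ : ∃ M : ℕ, c ^ M * r < 1 := by
    have := (tendsto_pow_atTop_nhds_zero_of_lt_one hc.le hc').mul_const r
    rw [zero_mul] at this
    exact (this.eventually (gt_mem_nhds one_pos)).exists
  refine Summable.of_norm_bounded_eventually_nat
    (summable_geometric_of_lt_one (by positivity) hM) ?_
  filter_upwards [hh M] with j hj
  rw [Real.norm_of_nonneg (by positivity), mul_pow, ← pow_mul]
  exact mul_le_mul_of_nonneg_right (pow_le_pow_of_le_one hc.le hc'.le hj) (by positivity)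

/-- The coefficients converge. -/
lemma exists_lim {u : ℕ → ℕ → ℂ_[p]} {D : ℕ → PowerSeries ℂ_[p]} {x : ℕ → ℂ_[p]}
    (h0 : ∀ L, coeff 0 (D L) = 1) (hD : ∀ L, D L * ser (u L) = -(X * derivative _ (D L)))
    (hu : ∀ t, 0 < t → Tendsto (fun L => u L t) atTop (𝓝 (x t))) :
    ∃ F, Sol (-ser x) F ∧ ∀ j, Tendsto (fun L => coeff j (D L)) atTop (𝓝 (coeff j F)) := by
  obtain ⟨F, hF⟩ := exists_sol (g := -ser x) (by simp [cc_ser])
  have hS : ∀ L, Sol (-ser (u L)) (D L) := fun L => by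
    refine ⟨by simp [cc_ser], h0 L, ?_⟩
    ext n
    rw [neg_mul, mul_comm, hD, neg_neg, Mer.coeff_X_mul_derivative, coeff_dd]
  refine ⟨F, hF, fun j => ?_⟩
  induction j using Nat.strong_induction_on with
  | _ j ih =>
    rcases Nat.eq_zero_or_pos j with rfl | hj
    · simp only [h0, hF.2.1]
      exact tendsto_const_nhds
    · have hj' : (j : ℂ_[p]) ≠ 0 := Nat.cast_ne_zero.mpr hj.ne'
      have h1 : Tendsto (fun L => (j : ℂ_[p]) * coeff j (D L)) atTop (𝓝 (j * coeff j F)) := by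
        simp only [(hS _).step, hF.step]
        refine tendsto_finsetSum _ fun i hi => (ih i (Finset.mem_range.1 hi)).mul ?_
        have := Finset.mem_range.1 hi
        simp only [map_neg, Mer.coeff_ser, if_neg (show j - i ≠ 0 by omega)]
        exact (hu _ (by omega)).neg
      simpa only [inv_mul_cancel_left₀ hj'] using h1.const_mul (j : ℂ_[p])⁻¹

end NLa

open NLa PowerSeries Theta in
theorem NL_thm {p : ℕ} [hp : Fact p.Prime] : NL p where
  lim := by
    intro Δ u c h hc hc' hh h0 hD hb N a ν ha hu T α hα hz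
    have hp1 : ∀ m, 0 < m → ((p : ℂ_[p]) ^ m - 1) ^ N ≠ 0 := fun m hm => by
      refine pow_ne_zero _ (sub_ne_zero.2 ?_)
      exact_mod_cast (Nat.one_lt_pow hm.ne' hp.out.one_lt).ne'
    set x : ℕ → ℂ_[p] := fun m =>
      if a ∣ m then a * ν.sum fun z k => k * z ^ (m / a) else 0 with hx
    obtain ⟨F, hF, hl⟩ := exists_lim (u := u) (D := fun J => (Δ J : PowerSeries ℂ_[p]))
      (x := fun m => (((p : ℂ_[p]) ^ m - 1) ^ N)⁻¹ * x m)
      (fun L => by rw [Polynomial.coeff_coe, h0]) hD fun m hm => by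
        simpa only [inv_mul_cancel_left₀ (hp1 m hm)] using
          (hu m hm).const_mul (((p : ℂ_[p]) ^ m - 1) ^ N)⁻¹
    have hFb : ∀ j, ‖coeff j F‖ ≤ c ^ h j := fun j =>
      le_of_tendsto' (hl j).norm fun L => by rw [Polynomial.coeff_coe]; exact hb L j
    have hsm : ∀ t : ℂ_[p], Sm (rescale t F) := fun t =>
      Summable.of_nonneg_of_le (fun _ => norm_nonneg _) (fun k => by
        rw [coeff_rescale, norm_mul, norm_pow, mul_comm]
        exact mul_le_mul_of_nonneg_right (hFb k) (by positivity))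
        (summable_bd hc hc' hh (norm_nonneg t))
    have hev : ∀ t : ℂ_[p], Tendsto (fun J => (Δ J).eval t) atTop (𝓝 (ev 1 (rescale t F))) := by
      intro t
      have e : ev 1 (rescale t F) = ev t F := by
        refine tsum_congr fun k => ?_
        rw [coeff_rescale, one_pow, mul_one, mul_comm]
      have e' : Tendsto (fun J => ∑' k, coeff k (Δ J : PowerSeries ℂ_[p]) * t ^ k) atTop
          (𝓝 (∑' k, coeff k F * t ^ k)) := by
        refine tendsto_tsum_of_dominated_convergence (summable_bd hc hc' hh (norm_nonneg t))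
          (fun k => (hl k).mul_const (t ^ k)) (Eventually.of_forall fun J k => ?_)
        rw [norm_mul, norm_pow, Polynomial.coeff_coe]
        exact mul_le_mul_of_nonneg_right (hb J k) (by positivity)
      rw [e]
      exact e'.congr fun J => ev_coe t (Δ J)
    have hal : ∀ i, i ≤ N → ‖ev 1 (rescale ((p : ℂ_[p]) ^ i * T) F)‖ = α i := fun i hi =>
      tendsto_nhds_unique (hev _).norm (tendsto_const_nhds.congr'
        ((hα i hi).2.mono fun J hJ => hJ.symm))
    have h1 := Rt.sum ν.support fun z hz' =>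
      (Rt.fac (z * T ^ a) ha).zsmul (norm_ne_zero_iff.2 (sub_ne_zero.2 (hz z hz').symm)) (ν z)
    have h2 := Rt.sum (Finset.range (N + 1)) fun i hi =>
      (hal i (Nat.lt_succ_iff.1 (Finset.mem_range.1 hi)) ▸
        Rt.base (hF.rescale ((p : ℂ_[p]) ^ i * T)) (hsm _)).zsmul
        (hα i (Nat.lt_succ_iff.1 (Finset.mem_range.1 hi))).1.ne' ((-1 : ℤ) ^ (N - i) * N.choose i)
    refine h1.unique ?_
    convert h2 using 1
    ext m
    simp only [map_sum, map_zsmul, map_neg, coeff_rescale, Mer.coeff_ser]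
    simp only [zsmul_eq_mul]
    rcases Nat.eq_zero_or_pos m with rfl | hm
    · simp
    simp only [if_neg hm.ne']
    have e1 : ((p : ℂ_[p]) ^ m - 1) ^ N = ∑ i ∈ Finset.range (N + 1),
        (((-1 : ℤ) ^ (N - i) * N.choose i : ℤ) : ℂ_[p]) * ((p : ℂ_[p]) ^ i) ^ m := by
      rw [sub_eq_add_neg, add_pow]
      refine Finset.sum_congr rfl fun i _ => ?_
      rw [← pow_mul, ← pow_mul, mul_comm m i]
      push_cast
      ring
    have e2 : x m * T ^ m = ∑ z ∈ ν.support, (ν z : ℂ_[p]) *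
        if a ∣ m then (a : ℂ_[p]) * (z * T ^ a) ^ (m / a) else 0 := by
      simp only [hx]
      split_ifs with hd
      · obtain ⟨k, rfl⟩ := hd
        rw [Nat.mul_div_cancel_left _ ha, Finsupp.sum, Finset.mul_sum, Finset.sum_mul]
        refine Finset.sum_congr rfl fun z _ => ?_
        rw [mul_pow, ← pow_mul]
        ring
      · simp
    calc _ = -(x m * T ^ m) := by rw [e2, ← Finset.sum_neg_distrib]; simp only [mul_neg]
      _ = ((p : ℂ_[p]) ^ m - 1) ^ N * -(T ^ m * ((((p : ℂ_[p]) ^ m - 1) ^ N)⁻¹ * x m)) := by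
        field_simp [hp1 m hm]
      _ = _ := by
        rw [e1, Finset.sum_mul, ← e1]
        refine Finset.sum_congr rfl fun i _ => ?_
        rw [mul_pow]
        ring

end Pool.Agent.Lib.MP_557161_ag.HG.MC
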