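import Pool.Agent.Lib.MP_557161_ag.MC.StN

/-! Reduction modulo the maximal ideal. -/

namespace Pool.Agent.Lib.MP_557161_ag.HG.MC

open Pool.Agent.Lib.MP_557161_ag.DW Polynomial Filter Topology

namespace NRa

variable {p : ℕ} [Fact p.Prime] {K : Type} [Field K] {τ : K →*₀ ℂ_[p]}

theorem add_lt {a b : ℂ_[p]} (ha : ‖a‖ < 1) (hb : ‖b‖ < 1) : ‖a + b‖ < 1 :=
  (IsUltrametricDist.norm_add_le_max a b).trans_lt (max_lt ha hb)

theorem le_one (h : Te τ) (x : K) : ‖τ x‖ ≤ 1 := by
  by_cases hx : x = 0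
  · simp [hx]
  · exact (h.1 x hx).le

theorem nat (h : Te τ) (n : ℕ) : ‖τ (n : K) - n‖ < 1 := by
  induction n with
  | zero => simp
  | succ n ih =>
    have := add_lt (h.2 (n : K) 1) ih
    rw [map_one] at this
    push_cast
    convert this using 2
    ring

theorem int [Algebra (ZMod p) K] (h : Te τ) (a : ℤ_[p]) :
    ‖zc p a - τ (algebraMap (ZMod p) K (PadicInt.toZMod a))‖ < 1 := by
  obtain ⟨n, hn⟩ : ∃ n : ℕ, PadicInt.toZMod a = n :=
    ⟨(PadicInt.toZMod a).val, (ZMod.natCast_zmod_val _).symm⟩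
  have h1 : ‖a - n‖ < 1 := by
    have : a - n ∈ RingHom.ker (PadicInt.toZMod (p := p)) := by
      rw [RingHom.mem_ker, map_sub, map_natCast, hn, sub_self]
    rw [PadicInt.ker_toZMod] at this
    exact PadicInt.mem_nonunits.1 this
  have h2 : ‖zc p a - n‖ < 1 := by
    have e : zc p a - n = algebraMap ℚ_[p] ℂ_[p] ((a - n : ℤ_[p]) : ℚ_[p]) := by
      rw [← map_natCast (zc p) n, ← map_sub]; rfl
    rw [e, norm_algebraMap']
    exact h1
  have h3 := nat h n
  rw [norm_sub_rev] at h3
  rw [hn, map_natCast]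
  have := add_lt h2 h3
  convert this using 2
  ring

theorem poly [Algebra (ZMod p) K] (h : Te τ) (P : ℤ_[p][X]) (y : K) :
    ‖(P.map (zc p)).eval (τ y) - τ (aeval y (P.map PadicInt.toZMod))‖ < 1 := by
  induction P using Polynomial.induction_on' with
  | add P Q hP hQ =>
    rw [Polynomial.map_add, Polynomial.map_add, eval_add, map_add]
    have h1 := h.2 (aeval y (P.map PadicInt.toZMod)) (aeval y (Q.map PadicInt.toZMod))
    rw [← norm_neg] at h1
    have := add_lt (add_lt hP hQ) h1
    convert this using 2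
    ring
  | monomial n a =>
    rw [Polynomial.map_monomial, Polynomial.map_monomial, eval_monomial, aeval_monomial, map_mul,
      map_pow, ← sub_mul, norm_mul, norm_pow]
    exact mul_lt_one_of_nonneg_of_lt_one_left (norm_nonneg _) (int h a)
      (pow_le_one₀ (norm_nonneg _) (le_one h y))

theorem frob [Algebra (ZMod p) K] (f : (ZMod p)[X]) (x : K) (i : ℕ) :
    aeval (x ^ p ^ i) f = aeval x f ^ p ^ i := by
  induction i with
  | zero => simp
  | succ i ih => rw [pow_succ, pow_mul, pow_mul, ← ih, ← expand_aeval, ZMod.expand_card, map_pow]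

end NRa

theorem NR_thm {p : ℕ} [Fact p.Prime] : NR p where
  unit := by
    intro K _ _ τ h P x hx i
    have h1 := NRa.poly h P (x ^ p ^ i)
    have h2 := h.1 (aeval (x ^ p ^ i) (P.map PadicInt.toZMod))
      (by rw [NRa.frob]; exact pow_ne_zero _ hx)
    rw [map_pow] at h1
    have h3 := IsUltrametricDist.norm_add_eq_max_of_norm_ne_norm (h1.trans_eq h2.symm).ne
    rw [sub_add_cancel, h2] at h3
    rw [h3]
    exact max_eq_right h1.le

end Pool.Agent.Lib.MP_557161_ag.HG.MC
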