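import Pool.Agent.Lib.MP_557161_ag.MC.StN

/-!
The limit of the truncated character sums.
-/

namespace Pool.Agent.Lib.MP_557161_ag.HG.MC

open Pool.Agent.Lib.MP_557161_ag.DW Polynomial Filter Topology

namespace NSa

variable {p : ℕ} [Fact p.Prime] {K : Type} [Field K] [Algebra (ZMod p) K] {θ : ℕ → ℂ_[p]} {c : ℝ}
  {τ : K →*₀ ℂ_[p]}

theorem ringChar_ne (hp : p ≠ 2) (N : ℕ) : ringChar (Count.Fx p K N) ≠ 2 := by
  have := Count.charP p K
  rwa [ringChar.eq (Count.Fx p K N) p]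

theorem tau_neg (hp : p ≠ 2) (h : Split θ c τ) : τ (-1) = -1 := by
  have := Count.charP p K
  have h1 : τ (-1) ^ 2 = 1 := by rw [← map_pow, neg_one_sq, map_one]
  refine (sq_eq_one_iff.1 h1).resolve_left fun e => ?_
  have h2 : (-1 : K) = 1 := h.inj (e.trans (map_one τ).symm)
  exact Ring.neg_one_ne_one_of_char_ne_two (by rwa [ringChar.eq K p]) h2

theorem half (hp : p ≠ 2) (N : ℕ) : (p ^ N - 1) / 2 = p ^ N / 2 := by
  obtain ⟨k, hk⟩ : Odd (p ^ N) := ((Fact.out : p.Prime).odd_of_ne_two hp).pow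
  omega

theorem qc [IsAlgClosed K] (hp : p ≠ 2) (h : Split θ c τ) {N : ℕ} (hN : 0 < N)
    [Fintype (Count.Fx p K N)] [DecidableEq (Count.Fx p K N)] {x : Count.Fx p K N} (hx : x ≠ 0) :
    τ (x : K) ^ ((p ^ N - 1) / 2) = (quadraticChar (Count.Fx p K N) x : ℂ_[p]) := by
  have hc : Fintype.card (Count.Fx p K N) = p ^ N := by
    rw [← Nat.card_eq_fintype_card, Count.card_Fx hN]
  rw [quadraticChar_eq_pow_of_char_ne_two (ringChar_ne hp N) hx, half hp, ← hc, ← map_pow,
    ← SubmonoidClass.coe_pow]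
  split_ifs with h1
  · rw [h1]; simp
  · rw [(FiniteField.pow_dichotomy (ringChar_ne hp N) hx).resolve_left h1]
    simpa using tau_neg hp h

theorem cf_eq {n N : ℕ} (lam : Count.Fx p K N) (t : Ka n → Count.Fx p K N) (i : ℕ) (s : Ka n) :
    cf (τ (lam : K) ^ p ^ i) s * τ (t s : K) ^ p ^ i =
      τ ((cf lam s * t s : Count.Fx p K N) : K) ^ p ^ i := by
  rcases s with j | _ | _ <;> simp [cf, mul_pow]

open Classical in
theorem tsum_eq [IsAlgClosed K] (hp : p ≠ 2) (h : Split θ c τ) {N : ℕ} (hN : 0 < N)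
    [Fintype (Count.Fx p K N)] [inst : DecidableEq (Count.Fx p K N)] (n J : ℕ)
    (lam : Count.Fx p K N) (S : Finset (Ka n → Count.Fx p K N))
    (hS : ∀ t, t ∈ S ↔ (∀ s, t s ≠ 0) ∧ ∏ i, t (.inl i) = t (.inr true) ^ n) :
    Tsum p θ n J (fun i => τ (lam : K) ^ p ^ i) N =
      ∑ t ∈ S, (@quadraticChar (Count.Fx p K N) _ _ inst (t (.inr true) * t (.inr false)) : ℂ_[p]) *
        ∏ s, ∏ i ∈ Finset.range N, ∑ k ∈ Finset.range (J + 1),
          θ k * (τ ((cf lam s * t s : Count.Fx p K N) : K) ^ p ^ i) ^ k := by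
  have hprod : ∀ t : Ka n → Count.Fx p K N, (∏ i, τ (t (.inl i) : K) = τ (t (.inr true) : K) ^ n) ↔
      ∏ i, t (.inl i) = t (.inr true) ^ n := by
    intro t
    rw [← map_prod, ← map_pow, h.inj.eq_iff, ← SubmonoidClass.coe_finsetProd,
      ← SubmonoidClass.coe_pow, Subtype.coe_inj]
  unfold Tsum
  symm
  refine Finset.sum_nbij (fun t s => τ (t s : K)) (fun t ht => ?_) (fun x _ y _ e => ?_)
    (fun z hz => ?_) fun t ht => ?_
  · obtain ⟨h1, h2⟩ := (hS t).1 ht
    refine Finset.mem_filter.2 ⟨Fintype.mem_piFinset.2 fun s => (Sum.root_iff hN).2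
      ⟨(map_ne_zero τ).2 fun e => h1 s (Subtype.ext e), ?_⟩, (hprod t).2 h2⟩
    rw [← map_pow, Count.mem_Fx.1 (t s).2]
  · exact funext fun s => Subtype.ext (h.inj (congrFun e s))
  · obtain ⟨hz1, hz2⟩ := Finset.mem_filter.1 hz
    have h1 := fun j => (Sum.root_iff hN).1 (Fintype.mem_piFinset.1 hz1 j)
    choose x hx using fun j => h.surj N hN (z j) (h1 j).2
    have hm : ∀ j, x j ∈ Count.Fx p K N := fun j =>
      Count.mem_Fx.2 (h.inj (by rw [map_pow, hx j, (h1 j).2]))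
    refine ⟨fun j => ⟨x j, hm j⟩, (hS _).2 ⟨fun j h0 => (h1 j).1 ?_,
      (hprod fun j => ⟨x j, hm j⟩).1 ?_⟩, funext hx⟩
    · rw [← hx j, show x j = 0 from congrArg Subtype.val h0, map_zero]
    · simpa only [hx] using hz2
  · obtain ⟨h1, -⟩ := (hS t).1 ht
    rw [← qc hp h hN (mul_ne_zero (h1 _) (h1 _)), Finset.prod_comm, MulMemClass.coe_mul, map_mul]
    simp only [cf_eq]

end NSa

theorem NS_thm {p : ℕ} [Fact p.Prime] [h1 : NS1] [h2 : NS2 p] : NS p where
  lim := by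
    intro K _ _ _ hp θ c τ h n N lam hN hlam
    have := Count.finite_Fx (p := p) (K := K) hN
    let := Fintype.ofFinite (Count.Fx p K N)
    have hc : Fintype.card (Count.Fx p K N) = p ^ N := by
      rw [← Nat.card_eq_fintype_card, Count.card_Fx hN]
    let l : Count.Fx p K N := ⟨lam, hlam⟩
    have e1 := h1.sum (NSa.ringChar_ne (K := K) hp N) (Count.chi h hN) (Count.chi_prim h hN) n l
    have e2 := h2.cnt (K := K) hp N hN n l
    let inst : DecidableEq (Count.Fx p K N) := fun a b => Classical.propDecidable (a = b)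
    have e3 := NSa.qc hp h hN (x := -1) (neg_ne_zero.2 one_ne_zero)
    have e4 : ((cn n lam (p ^ N) false : ℂ_[p]) - cn n lam (p ^ N) true) / 2 =
        ∑ X : Fin n → Count.Fx p K N with ∏ i, X i = 1,
          (quadraticChar (Count.Fx p K N) (∑ i, X i + l) : ℂ_[p]) := by
      have := congrArg (Int.cast : ℤ → ℂ_[p]) e2
      push_cast at this
      rw [div_eq_iff two_ne_zero, mul_comm]
      exact this.trans (congrArg (fun i : DecidableEq (Count.Fx p K N) =>
        2 * ∑ X : Fin n → Count.Fx p K N with ∏ i, X i = 1,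
          (quadraticChar (Count.Fx p K N) (∑ i, X i + l) : ℂ_[p])) (Subsingleton.elim _ _))
    have e5 : τ ((-1 : Count.Fx p K N) : K) = -1 := by simpa using NSa.tau_neg hp h
    rw [e5] at e3
    rw [hc, ← e3, Nat.cast_pow] at e1
    rw [e4, ← e1]
    refine (tendsto_finsetSum _ fun t _ => ?_).congr fun J =>
      (NSa.tsum_eq hp h hN n J l _ fun t => by simp).symm
    rw [Count.chi_sum]
    refine (tendsto_finsetProd _ fun s _ => ?_).const_mul _
    exact (Sum.psi_lim h hN (Count.mem_Fx.1 (cf l s * t s).2)).comp (tendsto_add_atTop_nat 1)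

end Pool.Agent.Lib.MP_557161_ag.HG.MC
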