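import Pool.Agent.Lib.MP_557161_ag.MC.StN

/-!
The character sum over a finite field.
-/

namespace Pool.Agent.Lib.MP_557161_ag.HG.MC

open Pool.Agent.Lib.MP_557161_ag.DW

namespace NS1a

theorem shift {F R : Type} [Field F] [Fintype F] [Field R] {χ : MulChar F R} (h1 : χ ≠ 1)
    (h2 : χ.IsQuadratic) (ψ : AddChar F R) (f : F) :
    ∑ y, χ y * ψ (f * y) = χ f * gaussSum χ ψ := by
  by_cases hf : f = 0
  · subst hf
    simp [MulChar.sum_eq_zero_of_ne_one h1, MulChar.map_zero]
  · have h := gaussSum_mulShift_eq χ ψ (Units.mk0 f hf)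
    rw [h2.inv] at h
    simpa [gaussSum, AddChar.mulShift_apply] using h

open Classical in
theorem drop {F R : Type} [Field F] [Fintype F] [Field R] (χ : MulChar F R) (g : F → R) :
    ∑ y ∈ Finset.univ.filter (fun y : F => y ≠ 0), χ y * g y = ∑ y, χ y * g y := by
  refine Finset.sum_subset (Finset.filter_subset _ _) fun y _ hy => ?_
  have : y = 0 := by simpa using hy
  rw [this, MulChar.map_zero, zero_mul]

open Classical in
theorem main {F R : Type} [Field F] [Fintype F] [Field R] {χ : MulChar F R} (h1 : χ ≠ 1)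
    (h2 : χ.IsQuadratic) {ψ : AddChar F R} (hψ : ψ.IsPrimitive) (n : ℕ) (lam : F) :
    (∑ t : Ka n → F with (∀ s, t s ≠ 0) ∧ ∏ i, t (.inl i) = t (.inr true) ^ n,
      χ (t (.inr true) * t (.inr false)) * ψ (∑ s, cf lam s * t s)) =
      χ (-1) * Fintype.card F * ∑ X : Fin n → F with ∏ i, X i = 1, χ (∑ i, X i + lam) := by
  have hb : (∑ t : Ka n → F with (∀ s, t s ≠ 0) ∧ ∏ i, t (.inl i) = t (.inr true) ^ n,
      χ (t (.inr true) * t (.inr false)) * ψ (∑ s, cf lam s * t s)) =
      ∑ u ∈ (Finset.univ.filter fun X : Fin n → F => ∏ i, X i = 1) ×ˢ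
        ((Finset.univ.filter fun y : F => y ≠ 0) ×ˢ (Finset.univ.filter fun y : F => y ≠ 0)),
        (χ u.2.1 * ψ ((∑ i, u.1 i + lam) * u.2.1)) * (χ u.2.2 * ψ u.2.2) := by
    refine Finset.sum_nbij' (fun t => (fun i => t (.inl i) / t (.inr true), t (.inr true),
      t (.inr false))) (fun u => Sum.elim (fun i => u.2.1 * u.1 i) fun b => bif b then u.2.1 else u.2.2)
      ?_ ?_ ?_ ?_ ?_
    · intro t ht
      simp only [Finset.mem_filter, Finset.mem_univ, true_and, Finset.mem_product] at ht ⊢
      refine ⟨?_, ht.1 _, ht.1 _⟩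
      rw [Finset.prod_div_distrib, ht.2, Finset.prod_const, Finset.card_univ, Fintype.card_fin]
      exact div_self (pow_ne_zero _ (ht.1 _))
    · intro u hu
      simp only [Finset.mem_filter, Finset.mem_univ, true_and, Finset.mem_product] at hu ⊢
      refine ⟨?_, ?_⟩
      · rintro (i | _ | _)
        · refine mul_ne_zero hu.2.1 fun h0 => ?_
          have := Finset.prod_eq_zero (Finset.mem_univ i) h0
          rw [hu.1] at this
          exact one_ne_zero this
        · exact hu.2.2
        · exact hu.2.1
      · simp only [Sum.elim_inl, Sum.elim_inr, cond_true]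
        rw [Finset.prod_mul_distrib, hu.1, mul_one, Finset.prod_const, Finset.card_univ,
          Fintype.card_fin]
    · intro t ht
      simp only [Finset.mem_filter, Finset.mem_univ, true_and] at ht
      funext s
      rcases s with (i | _ | _)
      · exact mul_div_cancel₀ _ (ht.1 _)
      · rfl
      · rfl
    · intro u hu
      simp only [Finset.mem_filter, Finset.mem_univ, true_and, Finset.mem_product] at hu
      refine Prod.ext (funext fun i => ?_) rfl
      exact mul_div_cancel_left₀ _ hu.2.1
    · intro t ht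
      simp only [Finset.mem_filter, Finset.mem_univ, true_and] at ht
      have e : ∑ s, cf lam s * t s =
          (∑ i, t (.inl i) / t (.inr true) + lam) * t (.inr true) + t (.inr false) := by
        rw [Fintype.sum_sum_type, Fintype.sum_bool, add_mul, Finset.sum_mul]
        simp only [cf, Sum.elim_inl, Sum.elim_inr, cond_true, cond_false, one_mul,
          div_mul_cancel₀ _ (ht.1 (.inr true))]
        ring
      rw [e, AddChar.map_add_eq_mul, map_mul]
      ring
  rw [hb, Finset.sum_product, Finset.mul_sum]
  refine Finset.sum_congr rfl fun X _ => ?_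
  rw [Finset.sum_product]
  simp only [← Finset.mul_sum, ← Finset.sum_mul]
  rw [drop χ fun y => ψ ((∑ i, X i + lam) * y), drop χ fun y => ψ y, shift h1 h2,
    ← gaussSum_sq h1 h2 hψ, gaussSum]
  ring

end NS1a

theorem NS1_thm : NS1 where
  sum := by
    intro F R _ _ _ _ hF ψ hψ n lam
    classical
    have h1 : (quadraticChar F).ringHomComp (Int.castRingHom R) ≠ 1 :=
      (MulChar.ringHomComp_ne_one_iff (Int.castRingHom R).injective_int).2 (quadraticChar_ne_one hF)
    have h := NS1a.main h1 ((quadraticChar_isQuadratic F).comp _) hψ n lam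
    simpa only [MulChar.ringHomComp_apply, eq_intCast] using h

end Pool.Agent.Lib.MP_557161_ag.HG.MC
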