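import Pool.Agent.Lib.MP_557161_ag.MC.StN

/-!
The trace formula for the truncated character sums.
-/

namespace Pool.Agent.Lib.MP_557161_ag.HG.MC

open Pool.Agent.Lib.MP_557161_ag.DW Polynomial

namespace NTa

variable {n : ℕ}

/-- The class of an exponent modulo the relation. -/
def cl (w : Ka (n + 1) → ℤ) : Ka n → ℤ :=
  Sum.elim (fun i => w (.inl i.succ) - w (.inl 0))
    fun b => w (.inr b) + (bif b then (n : ℤ) + 1 else 0) * w (.inl 0)

theorem cl_lin (p : ℤ) (v v' : Ka (n + 1) → ℤ) :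
    p • cl v - cl v' = cl fun s => p * v s - v' s := by
  funext j
  rcases j with i | b
  · simp only [cl, Pi.sub_apply, Pi.smul_apply, Sum.elim_inl, smul_eq_mul]
    ring
  · simp only [cl, Pi.sub_apply, Pi.smul_apply, Sum.elim_inr, smul_eq_mul]
    ring

theorem cl_eq {w w' : Ka (n + 1) → ℤ} :
    cl w = cl w' ↔ ∃ t : ℤ, ∀ s, w s = w' s + t * rho (n + 1) s := by
  constructor
  · intro h
    refine ⟨w (.inl 0) - w' (.inl 0), fun s => ?_⟩
    rcases s with i | b
    · refine Fin.cases ?_ (fun i => ?_) i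
      · simp [rho]
      · have := congrFun h (.inl i)
        simp only [cl, Sum.elim_inl] at this
        simp only [rho, Sum.elim_inl]
        linarith
    · have := congrFun h (.inr b)
      cases b
      · simpa [cl, rho] using this
      · simp only [cl, Sum.elim_inr, cond_true] at this
        simp only [rho, Sum.elim_inr, cond_true]
        push_cast
        linarith
  · rintro ⟨t, ht⟩
    funext j
    rcases j with i | b
    · simp [cl, ht, rho]
    · cases b
      · simp [cl, ht, rho]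
      · simp only [cl, ht, rho, Sum.elim_inr, Sum.elim_inl, cond_true]
        push_cast
        ring

/-- Every class has a representative whose first coordinates have the minimum zero. -/
theorem exists_rep (z : Ka n → ℤ) :
    ∃ w : Ka (n + 1) → ℤ, cl w = z ∧ (∀ i, 0 ≤ w (.inl i)) ∧ ∃ i, w (.inl i) = 0 := by
  let w : Ka (n + 1) → ℤ := Sum.elim (Fin.cases 0 fun i => z (.inl i)) fun b => z (.inr b)
  have hw : cl w = z := by
    funext j
    rcases j with i | b <;> simp [cl, w]
  obtain ⟨i, -, hi⟩ := Finset.exists_min_image Finset.univ (fun i => w (.inl i))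
    Finset.univ_nonempty
  refine ⟨fun s => w s + -w (.inl i) * rho (n + 1) s, ?_, fun j => ?_, i, ?_⟩
  · rw [← hw]
    exact cl_eq.2 ⟨_, fun _ => rfl⟩
  · have := hi j (Finset.mem_univ j)
    simp only [rho, Sum.elim_inl]
    linarith
  · simp [rho]

theorem sum_rho : ∑ s, rho n s = 0 := by
  simp [Fintype.sum_sum_type, rho]

/-- A periodic sequence has a minimum with a predecessor. -/
theorem exists_min (a : ℕ → ℤ) {N : ℕ} (hN : 0 < N) (h : a N = a 0) :
    ∃ j, j < N ∧ ∀ i, i < N → a (j + 1) ≤ a i := by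
  obtain ⟨k, hk, H⟩ := Finset.exists_min_image (Finset.range N) a ⟨0, Finset.mem_range.2 hN⟩
  rw [Finset.mem_range] at hk
  rcases k with _ | k
  · refine ⟨N - 1, by omega, fun i hi => ?_⟩
    rw [Nat.sub_add_cancel hN, h]
    exact H i (Finset.mem_range.2 hi)
  · exact ⟨k, by omega, fun i hi => H i (Finset.mem_range.2 hi)⟩

/-- The Laurent polynomial on the torus. -/
noncomputable def FF {R : Type} [CommRing R] (n c J : ℕ) (θ : ℕ → R) (l : R) :
    (Ka n → ℤ) →₀ R :=
  ∑ m ∈ Fintype.piFinset fun _ : Ka (n + 1) => Finset.range (J + 1),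
    Finsupp.single (cl fun s => (m s : ℤ) - hh (n + 1) c s) (∏ s, θ (m s) * cf l s ^ m s)

theorem mon {R : Type} [Field R] (x : Ka (n + 1) → R) (hx : ∀ s, x s ≠ 0)
    (hr : ∏ i, x (.inl i) = x (.inr true) ^ (n + 1)) (w : Ka (n + 1) → ℤ) :
    ∏ j : Ka n, x (Sum.map Fin.succ id j) ^ cl w j = ∏ s, x s ^ w s := by
  rw [Fintype.prod_sum_type, Fintype.prod_sum_type, Fin.prod_univ_succ, Fintype.prod_bool,
    Fintype.prod_bool]
  rw [Fin.prod_univ_succ] at hr
  have h1 : x (.inr true) ^ (((n : ℤ) + 1) * w (.inl 0)) =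
      (x (.inl 0) * ∏ i : Fin n, x (.inl i.succ)) ^ w (.inl 0) := by
    rw [hr, zpow_mul, ← zpow_natCast]
    push_cast
    rfl
  have h2 : (∏ i : Fin n, x (.inl i.succ)) ^ w (.inl 0) ≠ 0 :=
    zpow_ne_zero _ (Finset.prod_ne_zero_iff.2 fun _ _ => hx _)
  simp only [cl, Sum.map_inl, Sum.map_inr, Sum.elim_inl, Sum.elim_inr, id, cond_true, cond_false,
    zero_mul, add_zero, zpow_sub₀ (hx _), zpow_add₀ (hx _), Finset.prod_div_distrib,
    Finset.prod_zpow, h1, mul_zpow]
  field_simp

theorem FF_sum {R : Type} [Field R] (c J : ℕ) (θ : ℕ → R) (l : R) (x : Ka (n + 1) → R)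
    (hx : ∀ s, x s ≠ 0) (hr : ∏ i, x (.inl i) = x (.inr true) ^ (n + 1)) :
    ((FF n c J θ l).sum fun m a => a * ∏ j, x (Sum.map Fin.succ id j) ^ m j) =
      ((x (.inr true) * x (.inr false)) ^ c)⁻¹ *
        ∏ s, ∑ k ∈ Finset.range (J + 1), θ k * (cf l s * x s) ^ k := by
  rw [FF, ← Finsupp.sum_finsetSum_index (fun _ => zero_mul _) (fun _ _ _ => add_mul _ _ _),
    Finset.prod_univ_sum, Finset.mul_sum]
  refine Finset.sum_congr rfl fun m _ => ?_
  rw [Finsupp.sum_single_index (zero_mul _), mon x hx hr]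
  have : (x (.inr true) * x (.inr false)) ^ c = ∏ s, x s ^ hh (n + 1) c s := by
    simp [Fintype.prod_sum_type, hh, mul_pow]
  rw [this, ← Finset.prod_inv_distrib, ← Finset.prod_mul_distrib, ← Finset.prod_mul_distrib]
  refine Finset.prod_congr rfl fun s _ => ?_
  rw [zpow_sub₀ (hx s), zpow_natCast, zpow_natCast, mul_pow]
  ring

theorem half {p : ℕ} (hp : Odd p) (N : ℕ) :
    2 * ∑ i ∈ Finset.range N, p ^ i * (p / 2) + 1 = p ^ N := by
  obtain ⟨c, rfl⟩ := hp
  have hc : (2 * c + 1) / 2 = c := by omega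
  rw [hc]
  induction N with
  | zero => simp
  | succ N ih =>
    rw [Finset.sum_range_succ, pow_succ, mul_add, add_right_comm, ih]
    ring

theorem tsum_eq {R : Type} [Field R] {p : ℕ} (hp : Odd p) (h1 : 1 < p) (θ : ℕ → R) (J : ℕ)
    (l : ℕ → R) {N : ℕ} (hN : 0 < N) :
    Tsum p θ (n + 1) J l N =
      ∑ u ∈ Fintype.piFinset fun _ : Ka n => nthRootsFinset (p ^ N - 1) (1 : R),
        ∏ i ∈ Finset.range N,
          (FF n (p / 2) J θ (l i)).sum fun m a => a * ∏ j, (u j ^ p ^ i) ^ m j := by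
  have hQ : 0 < p ^ N - 1 := Nat.sub_pos_of_lt (Nat.one_lt_pow hN.ne' h1)
  have h0 : ∀ x : R, x ^ (p ^ N - 1) = 1 → x ≠ 0 := fun x hx h => by
    rw [h, zero_pow hQ.ne'] at hx
    exact zero_ne_one hx
  unfold Tsum
  refine Finset.sum_nbij (fun t j => t (Sum.map Fin.succ id j)) ?_ ?_ ?_ ?_
  · intro t ht
    simp only [Finset.mem_filter, Fintype.mem_piFinset] at ht
    exact Fintype.mem_piFinset.2 fun j => ht.1 _
  · intro t ht t' ht' h
    simp only [Finset.coe_filter, Fintype.mem_piFinset, Set.mem_ofPred_eq,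
      mem_nthRootsFinset hQ, Fin.prod_univ_succ] at ht ht'
    have e1 : ∀ i : Fin n, t (.inl i.succ) = t' (.inl i.succ) := fun i => congrFun h (.inl i)
    have e2 : ∀ b, t (.inr b) = t' (.inr b) := fun b => congrFun h (.inr b)
    funext s
    rcases s with i | b
    · refine Fin.cases ?_ e1 i
      have h2 := ht.2
      simp only [e1, e2, ← ht'.2] at h2
      exact mul_right_cancel₀ (Finset.prod_ne_zero_iff.2 fun _ _ => h0 _ (ht'.1 _)) h2
    · exact e2 b
  · intro u hu
    simp only [Fintype.coe_piFinset, Set.mem_pi, Set.mem_univ, Finset.mem_coe,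
      mem_nthRootsFinset hQ, forall_const] at hu
    have hP : ∏ i, u (.inl i) ≠ 0 := Finset.prod_ne_zero_iff.2 fun _ _ => h0 _ (hu _)
    refine ⟨Sum.elim (Fin.cases (u (.inr true) ^ (n + 1) / ∏ i, u (.inl i)) fun i => u (.inl i))
      fun b => u (.inr b), ?_, ?_⟩
    · simp only [Finset.coe_filter, Fintype.mem_piFinset, Set.mem_ofPred_eq,
        mem_nthRootsFinset hQ, Fin.prod_univ_succ]
      refine ⟨fun s => ?_, ?_⟩
      · rcases s with i | b
        · refine Fin.cases ?_ (fun i => hu _) i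
          simp only [Sum.elim_inl, Fin.cases_zero]
          rw [div_pow, ← pow_mul, mul_comm, pow_mul, hu, ← Finset.prod_pow]
          simp [hu]
        · exact hu _
      · simp only [Sum.elim_inl, Sum.elim_inr, Fin.cases_zero, Fin.cases_succ]
        exact div_mul_cancel₀ _ hP
    · funext j
      rcases j with i | b <;> simp
  · intro t ht
    simp only [Finset.mem_filter, Fintype.mem_piFinset, mem_nthRootsFinset hQ] at ht
    have key : ∀ i ∈ Finset.range N, ((FF n (p / 2) J θ (l i)).sum fun m a =>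
        a * ∏ j, (t (Sum.map Fin.succ id j) ^ p ^ i) ^ m j) =
        ((t (.inr true) * t (.inr false)) ^ (p ^ i * (p / 2)))⁻¹ *
          ∏ s, ∑ k ∈ Finset.range (J + 1), θ k * (cf (l i) s * t s ^ p ^ i) ^ k := by
      intro i _
      rw [FF_sum (p / 2) J θ (l i) (fun s => t s ^ p ^ i) (fun s => pow_ne_zero _ (h0 _ (ht.1 s)))
        (by rw [Finset.prod_pow, ht.2, pow_right_comm]), ← mul_pow, ← pow_mul]
    rw [Finset.prod_congr rfl key, Finset.prod_mul_distrib, Finset.prod_inv_distrib,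
      Finset.prod_pow_eq_pow_sum]
    have hh := half hp N
    have e1 : (p ^ N - 1) / 2 = ∑ i ∈ Finset.range N, p ^ i * (p / 2) := by omega
    have e2 : p ^ N - 1 = (p ^ N - 1) / 2 + (p ^ N - 1) / 2 := by omega
    rw [← e1]
    congr 1
    refine eq_inv_of_mul_eq_one_left ?_
    rw [← pow_add, ← e2, mul_pow, ht.1, ht.1, one_mul]

theorem FF_ne {R : Type} [CommRing R] {c J : ℕ} {θ : ℕ → R} {l : R} {z : Ka n → ℤ}
    (h : FF n c J θ l z ≠ 0) : ∃ m : Ka (n + 1) → ℕ, (∀ s, m s ≤ J) ∧
      (cl fun s => (m s : ℤ) - hh (n + 1) c s) = z := by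
  rw [FF, Finsupp.finsetSum_apply] at h
  obtain ⟨m, hm, h⟩ := Finset.exists_ne_zero_of_sum_ne_zero h
  refine ⟨m, fun s => Nat.lt_succ_iff.1 (Finset.mem_range.1 (Fintype.mem_piFinset.1 hm s)), ?_⟩
  by_contra hne
  exact h (Finsupp.single_eq_of_ne' hne)

theorem entry {R : Type} [CommRing R] {p : ℕ} (hp : 0 < p) (J : ℕ) (θ : ℕ → R) (l : R)
    (v v' : Ka (n + 1) → ℕ) (hv : ∃ i, v (.inl i) = 0) :
    FF n (p / 2) J θ l ((p : ℤ) • cl (fun s => (v s : ℤ)) - cl fun s => (v' s : ℤ)) =
      (Bp p (tc J θ) v v').eval l := by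
  rw [cl_lin, FF, Finsupp.finsetSum_apply, Bp, eval_finsetSum]
  simp only [Finsupp.single_apply, eval_mul, eval_C, eval_pow, eval_X]
  symm
  rw [← Finset.sum_filter_of_ne (p := fun t => ∀ s, 0 ≤ ex p v v' t s ∧ ex p v v' t s ≤ J)]
  · refine Finset.sum_of_injOn (fun t s => (ex p v v' t s).toNat) ?_ ?_ ?_ ?_
    · intro t ht t' ht' h
      simp only [Finset.coe_filter, Set.mem_ofPred_eq] at ht ht'
      have h1 := congrFun h (.inl 0)
      have h2 := (ht.2 (.inl 0)).1
      have h3 := (ht'.2 (.inl 0)).1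
      simp only [ex, rho, Sum.elim_inl, mul_one] at h1 h2 h3
      omega
    · intro t ht
      simp only [Finset.coe_filter, Set.mem_ofPred_eq] at ht
      simp only [Finset.mem_coe, Fintype.mem_piFinset, Finset.mem_range]
      intro s
      have := ht.2 s
      omega
    · intro m hm hn
      rw [if_neg]
      intro h
      obtain ⟨t, ht⟩ := cl_eq.1 h
      obtain ⟨i, hi⟩ := hv
      have h0 : 0 ≤ t := by
        have := ht (.inl i)
        simp only [hi, hh, rho, Sum.elim_inl] at this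
        omega
      lift t to ℕ using h0
      have hm' : ∀ s, ex p v v' t s = m s := fun s => by
        have := ht s
        simp only [ex]
        linarith
      refine hn ⟨t, ?_, funext fun s => by simp only [hm', Int.toNat_natCast]⟩
      simp only [Finset.coe_filter, Set.mem_ofPred_eq, Finset.mem_range]
      refine ⟨?_, fun s => ?_⟩
      · have h1 := ht (.inr true)
        simp only [hh, rho, Sum.elim_inr, cond_true] at h1
        have h2 : p / 2 < p := by omega
        have h3 : (0 : ℤ) ≤ (t : ℤ) * n := by positivity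
        zify at h2 ⊢
        push_cast at h1
        have h4 : (0 : ℤ) ≤ m (.inr true) := Nat.cast_nonneg _
        have h5 : (0 : ℤ) ≤ v' (.inr true) := Nat.cast_nonneg _
        linarith
      · have := Finset.mem_range.1 (Fintype.mem_piFinset.1 hm s)
        rw [hm']
        omega
    · intro t ht
      have h := (Finset.mem_filter.1 ht).2
      rw [if_pos, Finset.prod_mul_distrib]
      · congr 1
        · refine Finset.prod_congr rfl fun s _ => ?_
          have := h s
          rw [ze, if_pos this.1, tc, if_pos (by omega)]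
        · simp [Fintype.prod_sum_type, cf]
      · refine cl_eq.2 ⟨t, fun s => ?_⟩
        rw [Int.toNat_of_nonneg (h s).1, ex]
        ring
  · intro t _ h s
    have h1 : ze (tc J θ) (ex p v v' t s) ≠ 0 := fun h0 =>
      h (by rw [Finset.prod_eq_zero (Finset.mem_univ s) h0, zero_mul])
    unfold ze tc at h1
    split_ifs at h1 with h2 h3
    · omega
    · exact absurd rfl h1
    · exact absurd rfl h1

theorem cl_inj (b : ℕ) : Function.Injective fun v : Ib (n + 1) b => cl fun s => (v.1 s : ℤ) := by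
  intro v v' h
  obtain ⟨t, ht⟩ := cl_eq.1 h
  obtain ⟨i, hi⟩ := v.2.2
  obtain ⟨j, hj⟩ := v'.2.2
  have h1 := ht (.inl i)
  have h2 := ht (.inl j)
  simp only [hi, hj, rho, Sum.elim_inl] at h1 h2
  have h0 : t = 0 := by omega
  refine Subtype.ext (funext fun s => ?_)
  have := ht s
  rw [h0] at this
  omega

theorem closed {p : ℕ} (hp : Odd p) (h1 : 1 < p) {J b N : ℕ} (hb : (n + 1 + 2) * J < b)
    (hN : 0 < N) (v : ℕ → Ka n → ℤ) (hv : v N = v 0)
    (h : ∀ i, i < N → ∃ m : Ka (n + 1) → ℕ, (∀ s, m s ≤ J) ∧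
      (cl fun s => (m s : ℤ) - hh (n + 1) (p / 2) s) = (p : ℤ) • v (i + 1) - v i) :
    ∀ i, i < N → v i ∈ Set.range fun u : Ib (n + 1) b => cl fun s => (u.1 s : ℤ) := by
  choose r hr hr0 hr1 using exists_rep (n := n)
  obtain ⟨c, rfl⟩ := hp
  have hc : (2 * c + 1) / 2 = c := by omega
  have hc0 : (0 : ℤ) < c := by omega
  rw [hc] at h
  have key : ∀ i, i < N → ∃ (m : Ka (n + 1) → ℕ) (t : ℤ), (∀ s, m s ≤ J) ∧ 0 ≤ t ∧
      ∀ s, (m s : ℤ) - hh (n + 1) c s =
        (2 * c + 1) * r (v (i + 1)) s - r (v i) s + t * rho (n + 1) s := by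
    intro i hi
    obtain ⟨m, hm, e⟩ := h i hi
    rw [← hr (v (i + 1)), ← hr (v i), cl_lin] at e
    obtain ⟨t, ht⟩ := cl_eq.1 e
    push_cast at ht
    refine ⟨m, t, hm, ?_, ht⟩
    obtain ⟨j, hj⟩ := hr1 (v (i + 1))
    have h2 := ht (.inl j)
    have h3 := hr0 (v i) j
    simp only [hj, hh, rho, Sum.elim_inl] at h2
    omega
  have pos : ∀ i, i < N → ∀ s, 0 ≤ r (v i) s := by
    intro i hi s
    rcases s with j | β
    · exact hr0 _ _
    · obtain ⟨j, hj, H⟩ := exists_min (fun i => r (v i) (.inr β)) hN (by simp only [hv])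
      obtain ⟨m, t, -, ht, e⟩ := key j hj
      have h2 := e (.inr β)
      have h3 := H j hj
      have h4 := H i hi
      have h5 : t * rho (n + 1) (.inr β) ≤ 0 := by
        refine mul_nonpos_of_nonneg_of_nonpos ht ?_
        cases β
        · simp [rho]
        · simp only [rho, Sum.elim_inr, cond_true]
          omega
      have h6 : (0 : ℤ) ≤ m (.inr β) := Nat.cast_nonneg _
      simp only [hh, Sum.elim_inr] at h2 h3 h4
      by_contra hneg
      have h7 : r (v (j + 1)) (.inr β) ≤ -1 := by omega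
      nlinarith
  have wt : ∀ i, i < N → ∑ s, r (v i) s < b := by
    intro i hi
    obtain ⟨j, hj, H⟩ := exists_min (fun i => -∑ s, r (v i) s) hN (by simp only [hv])
    obtain ⟨m, t, hm, -, e⟩ := key j hj
    have h2 := Finset.sum_congr (s₁ := Finset.univ) rfl fun s _ => e s
    rw [Finset.sum_add_distrib, Finset.sum_sub_distrib, Finset.sum_sub_distrib, ← Finset.mul_sum,
      ← Finset.mul_sum, sum_rho] at h2
    have h3 := H j hj
    have h4 := H i hi
    have h5 : ∑ s, (m s : ℤ) ≤ (n + 1 + 2) * J := by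
      refine (Finset.sum_le_card_nsmul _ _ (J : ℤ) fun s _ => Nat.cast_le.2 (hm s)).trans ?_
      simp
    have h6 : (0 : ℤ) ≤ ∑ s, (hh (n + 1) c s : ℤ) := Finset.sum_nonneg fun _ _ => Nat.cast_nonneg _
    have h7 : ((n : ℤ) + 1 + 2) * J < b := by exact_mod_cast hb
    have h8 : (0 : ℤ) ≤ b := Nat.cast_nonneg _
    by_contra hneg
    have h9 : (b : ℤ) ≤ ∑ s, r (v (j + 1)) s := by omega
    nlinarith
  intro i hi
  have e : ∀ s, ((r (v i) s).toNat : ℤ) = r (v i) s := fun s => Int.toNat_of_nonneg (pos i hi s)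
  refine ⟨⟨fun s => (r (v i) s).toNat, ?_, ?_⟩, ?_⟩
  · have := wt i hi
    rw [← Finset.sum_congr rfl fun s _ => e s] at this
    exact_mod_cast this
  · obtain ⟨j, hj⟩ := hr1 (v i)
    exact ⟨j, by simp only [hj, Int.toNat_zero]⟩
  · simp only [e]
    exact hr _

end NTa

/-- The trace formula. -/
theorem NT_thm {p : ℕ} [NT1 p] : NT p := by
  refine ⟨fun {R} _ _ _ hp h1 θ n J b l N hn hb hN => ?_⟩
  obtain ⟨n, rfl⟩ : ∃ m, n = m + 1 := ⟨n - 1, by omega⟩
  rw [NTa.tsum_eq hp h1 θ J l hN, NT1.tr (p := p) h1 (fun i => NTa.FF n (p / 2) J θ (l i)) _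
    (NTa.cl_inj b) N hN fun v hv h => NTa.closed hp h1 hb hN v hv fun i hi => NTa.FF_ne (h i hi)]
  have e : (fun i => Matrix.of fun a a' : Ib (n + 1) b => NTa.FF n (p / 2) J θ (l i)
      ((p : ℤ) • NTa.cl (fun s => (a.1 s : ℤ)) - NTa.cl fun s => (a'.1 s : ℤ))) =
      fun i => Am p (tc J θ) (n + 1) b (l i) := by
    funext i
    ext a a'
    exact NTa.entry (by omega) J θ (l i) a.1 a'.1 a.2.2
  rw [e]
  simp

end Pool.Agent.Lib.MP_557161_ag.HG.MC

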