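import Pool.Agent.Lib.MP_557161_ag.MC.StN
import Pool.Agent.Lib.MP_557161_ag.DW.Trace

/-!
The trace formula for a lattice.
-/

namespace Pool.Agent.Lib.MP_557161_ag.HG.MC

open Pool.Agent.Lib.MP_557161_ag.DW Polynomial

namespace NT1a

theorem root_sum_int {R : Type} [Field R] [IsAlgClosed R] [CharZero R] {n : ℕ} (hn : 0 < n)
    (k : ℤ) : ∑ z ∈ nthRootsFinset n (1 : R), z ^ k = if (n : ℤ) ∣ k then (n : R) else 0 := by
  have hn' : (0 : ℤ) < n := by exact_mod_cast hn
  have h0 : 0 ≤ k % n := Int.emod_nonneg _ hn'.ne'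
  have h1 : ∀ z ∈ nthRootsFinset n (1 : R), z ^ k = z ^ (k % n).toNat := by
    intro z hz
    have h2 := (mem_nthRootsFinset hn 1).1 hz
    have h3 : z ≠ 0 := by rintro rfl; simp [hn.ne'] at h2
    conv_lhs => rw [← Int.mul_ediv_add_emod k n, zpow_add₀ h3, zpow_mul, zpow_natCast, h2, one_zpow,
      one_mul]
    rw [← zpow_natCast, Int.toNat_of_nonneg h0]
  rw [Finset.sum_congr rfl h1, Trace.root_sum hn]
  refine if_congr ?_ rfl rfl
  rw [← Int.natCast_dvd_natCast, Int.toNat_of_nonneg h0, Int.dvd_iff_emod_eq_zero,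
    Int.emod_emod, Int.dvd_iff_emod_eq_zero]

theorem paths {R α : Type} [CommRing R] [Fintype α] [DecidableEq α] (A : ℕ → Matrix α α R)
    (N : ℕ) (K : α → α → R) : ∑ a, ∑ b, K a b * prM A N a b =
      ∑ v : Fin (N + 1) → α, K (v (Fin.last N)) (v 0) *
        ∏ i : Fin N, A i (v i.succ) (v i.castSucc) := by
  induction N generalizing K with
  | zero =>
    simp only [prM, Matrix.one_apply, mul_ite, mul_one, mul_zero, Finset.sum_ite_eq,
      Finset.mem_univ, if_true, Finset.univ_eq_empty, Finset.prod_empty]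
    exact Fintype.sum_equiv (Equiv.funUnique (Fin 1) α).symm _ _ fun a => rfl
  | succ N ih =>
    have h1 : ∑ a, ∑ b, K a b * prM A (N + 1) a b
        = ∑ c, ∑ b, (∑ a, K a b * A N a c) * prM A N c b := by
      simp only [prM, Matrix.mul_apply, Finset.mul_sum, Finset.sum_mul, mul_assoc]
      rw [Finset.sum_comm]
      conv_rhs => rw [Finset.sum_comm]
      exact Finset.sum_congr rfl fun b _ => Finset.sum_comm
    rw [h1, ih, ← (Fin.snocEquiv fun _ : Fin (N + 2) => α).sum_comp, Fintype.sum_prod_type_right]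
    refine Finset.sum_congr rfl fun v _ => ?_
    rw [Finset.sum_mul]
    refine Finset.sum_congr rfl fun a _ => ?_
    have e0 : (0 : Fin (N + 2)) = Fin.castSucc 0 := rfl
    rw [Fin.prod_univ_castSucc, e0]
    simp only [Fin.snocEquiv_apply, Fin.snoc_last, Fin.snoc_castSucc, Fin.succ_last,
      Fin.succ_castSucc, Fin.val_castSucc, Fin.val_last]
    ring

theorem tele {G : Type} [AddCommGroup G] (p N : ℕ) (x : Fin (N + 1) → G) :
    ∑ i : Fin N, (p : ℤ) ^ (i : ℕ) • ((p : ℤ) • x i.succ - x i.castSucc)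
      = (p : ℤ) ^ N • x (Fin.last N) - x 0 := by
  have h1 := Fin.sum_univ_succ fun i : Fin (N + 1) => (p : ℤ) ^ (i : ℕ) • x i
  have h2 := Fin.sum_univ_castSucc fun i : Fin (N + 1) => (p : ℤ) ^ (i : ℕ) • x i
  simp only [Fin.val_zero, pow_zero, one_smul, Fin.val_succ, Fin.val_castSucc, Fin.val_last] at h1 h2
  simp only [smul_sub, smul_smul, ← pow_succ, Finset.sum_sub_distrib]
  rw [h1] at h2
  rw [sub_eq_sub_iff_add_eq_add, add_comm, h2, add_comm]

theorem lift {G : Type} [AddCommGroup G] (p N : ℕ) (m : Fin N → G) (u : G) :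
    ∃ v : ℕ → G, v N = u ∧ ∀ i : Fin N, (p : ℤ) • v (i + 1) - v i = m i := by
  induction N generalizing u with
  | zero => exact ⟨fun _ => u, rfl, fun i => i.elim0⟩
  | succ N ih =>
    obtain ⟨v, h1, h2⟩ := ih (fun i => m i.castSucc) ((p : ℤ) • u - m (Fin.last N))
    refine ⟨Function.update v (N + 1) u, by simp, fun i => ?_⟩
    refine Fin.lastCases ?_ (fun i => ?_) i
    · simp [h1]
    · have := i.2
      rw [Fin.val_castSucc, Function.update_of_ne (by omega), Function.update_of_ne (by omega), h2]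

end NT1a

open NT1a in
theorem NT1_thm {p : ℕ} : NT1 p := by
  refine ⟨fun {R ι α} _ _ _ _ _ _ _ hp F e he N hN hcl => ?_⟩
  classical
  have hQ : 1 < p ^ N := Nat.one_lt_pow hN.ne' hp
  have hn : 0 < p ^ N - 1 := by omega
  have hc : ((p ^ N - 1 : ℕ) : ℤ) = (p : ℤ) ^ N - 1 := by push_cast [hQ.le]; rfl
  have hcR : ((p ^ N - 1 : ℕ) : R) = (p : R) ^ N - 1 := by push_cast [hQ.le]; rfl
  have hn' : ((p : ℤ) ^ N - 1) ≠ 0 := by rw [← hc]; exact_mod_cast hn.ne'
  let S : (Fin N → ι → ℤ) → ι → ℤ := fun m => ∑ i : Fin N, (p : ℤ) ^ (i : ℕ) • m i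
  have h1 : (∑ t ∈ Fintype.piFinset fun _ : ι => nthRootsFinset (p ^ N - 1) (1 : R),
      ∏ i ∈ Finset.range N, (F i).sum fun m c => c * ∏ j, (t j ^ p ^ i) ^ m j) =
      ((p : R) ^ N - 1) ^ Fintype.card ι *
        ∑ m ∈ (Fintype.piFinset fun i : Fin N => (F i).support) with
          ∀ j, ((p : ℤ) ^ N - 1) ∣ S m j, ∏ i : Fin N, F i (m i) := by
    simp only [Finset.prod_range, Finsupp.sum, Finset.prod_univ_sum]
    rw [Finset.sum_comm, Finset.sum_filter, Finset.mul_sum]
    refine Finset.sum_congr rfl fun m _ => ?_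
    have h2 : ∀ t ∈ Fintype.piFinset fun _ : ι => nthRootsFinset (p ^ N - 1) (1 : R),
        ∏ i : Fin N, (F i (m i) * ∏ j, (t j ^ p ^ (i : ℕ)) ^ m i j)
          = (∏ i : Fin N, F i (m i)) * ∏ j, t j ^ S m j := by
      intro t ht
      rw [Finset.prod_mul_distrib, Finset.prod_comm]
      congr 1
      refine Finset.prod_congr rfl fun j _ => ?_
      have h3 : t j ≠ 0 := by
        intro h
        have := (mem_nthRootsFinset hn 1).1 (Fintype.mem_piFinset.1 ht j)
        simp [h, hn.ne'] at this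
      simp only [S, Finset.sum_apply, Pi.smul_apply, smul_eq_mul]
      induction (Finset.univ : Finset (Fin N)) using Finset.induction_on with
      | empty => simp
      | insert i s hi ih =>
        rw [Finset.prod_insert hi, Finset.sum_insert hi, ih, zpow_add₀ h3, zpow_mul,
          ← zpow_natCast, Nat.cast_pow]
    rw [Finset.sum_congr rfl h2, ← Finset.mul_sum, ← Finset.prod_univ_sum
      (fun _ : ι => nthRootsFinset (p ^ N - 1) (1 : R)) fun j z => z ^ S m j]
    simp only [root_sum_int hn, hc, hcR]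
    by_cases hd : ∀ j, ((p : ℤ) ^ N - 1) ∣ S m j
    · rw [if_pos hd, Finset.prod_congr rfl fun j _ => if_pos (hd j), Finset.prod_const,
        Finset.card_univ, mul_comm]
    · rw [if_neg hd, mul_zero]
      obtain ⟨j, hj⟩ := not_forall.1 hd
      rw [Finset.prod_eq_zero (Finset.mem_univ j) (if_neg hj), mul_zero]
  rw [h1]
  congr 1
  have h4 := paths (fun i => Matrix.of fun a a' => F i ((p : ℤ) • e a - e a')) N
    fun a b => if a = b then 1 else 0
  simp only [ite_mul, one_mul, zero_mul, Finset.sum_ite_eq, Finset.mem_univ, if_true,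
    Matrix.of_apply] at h4
  rw [Matrix.trace]
  simp only [Matrix.diag_apply]
  rw [h4, ← Finset.sum_filter]
  have hS : ∀ x : Fin (N + 1) → ι → ℤ, x (Fin.last N) = x 0 →
      S (fun i => (p : ℤ) • x i.succ - x i.castSucc) = ((p : ℤ) ^ N - 1) • x 0 := by
    intro x hx
    simp only [S]
    rw [tele, hx, sub_smul, one_smul]
  symm
  refine Finset.sum_bij_ne_zero (fun v _ _ i => (p : ℤ) • e (v i.succ) - e (v i.castSucc))
    (fun v hv h => ?_) (fun v hv _ w hw _ h => ?_) (fun m hm h => ?_) fun _ _ _ => rfl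
  · refine Finset.mem_filter.2 ⟨Fintype.mem_piFinset.2 fun i => Finsupp.mem_support_iff.2
      (Finset.prod_ne_zero_iff.1 h i (Finset.mem_univ i)), fun j => ?_⟩
    rw [hS (fun i => e (v i)) (congrArg e (Finset.mem_filter.1 hv).2)]
    exact Dvd.intro _ rfl
  · have h5 := hS (fun i => e (v i)) (congrArg e (Finset.mem_filter.1 hv).2)
    have h6 := hS (fun i => e (w i)) (congrArg e (Finset.mem_filter.1 hw).2)
    rw [h, h6] at h5
    funext i
    induction i using Fin.induction with
    | zero => exact he (smul_right_injective _ hn' h5).symm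
    | succ i ih =>
      have h7 := congrFun h i
      simp only [ih, sub_left_inj] at h7
      exact he (smul_right_injective _ (by positivity) h7)
  · obtain ⟨hm1, hm2⟩ := Finset.mem_filter.1 hm
    choose u hu using hm2
    obtain ⟨v, hv1, hv2⟩ := lift p N m u
    have h5 := tele p N fun i : Fin (N + 1) => v i
    simp only [Fin.val_succ, Fin.val_castSucc, hv2, Fin.val_last, Fin.val_zero, hv1] at h5
    have h6 : v N = v 0 := by
      have h7 : S m = ((p : ℤ) ^ N - 1) • u := funext hu
      simp only [S] at h7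
      rw [h5, sub_smul, one_smul, sub_right_inj] at h7
      rw [hv1, h7]
    have h8 := hcl v h6 fun i hi => by
      rw [hv2 ⟨i, hi⟩]
      exact Finset.prod_ne_zero_iff.1 h ⟨i, hi⟩ (Finset.mem_univ _)
    have h9 : ∀ i : Fin (N + 1), v i ∈ Set.range e := by
      intro i
      refine Fin.lastCases ?_ (fun i => h8 i i.2) i
      rw [Fin.val_last, h6]
      exact h8 0 hN
    choose a ha using h9
    have h10 : (fun i : Fin N => (p : ℤ) • e (a i.succ) - e (a i.castSucc)) = m :=
      funext fun i => by rw [ha, ha]; exact hv2 i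
    refine ⟨a, Finset.mem_filter.2 ⟨Finset.mem_univ _, he (by rw [ha, ha]; exact h6)⟩, ?_, h10⟩
    simpa only [← h10] using h

end Pool.Agent.Lib.MP_557161_ag.HG.MC
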