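import Pool.Agent.Lib.MP_557161_ag.MC.StN

/-!
Triangular decompositions modulo `p` and the determinant of a tensor product of them.
-/

namespace Pool.Agent.Lib.MP_557161_ag.HG.MC

open Pool.Agent.Lib.MP_557161_ag.DW Finset

namespace NUa

/-- The sum of the shifts by the powers of `p`. -/
def sh {R : Type} [AddCommMonoid R] (p : ℕ) (φ : ℕ → R) (a : ℕ) : R :=
  ∑ i ∈ range a, if p ^ i ≤ a then φ (a - p ^ i) else 0

/-- The lower triangular factor. -/
def lo {R : Type} [AddCommMonoid R] (p : ℕ) (φ : ℕ → R) : ℕ → ℕ → R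
  | 0 => φ
  | i + 1 => sh p (lo p φ i)

/-- The upper triangular factor (column first). -/
def up {R : Type} [CommRing R] (c : R) : ℕ → ℕ → R
  | 0, 0 => 1
  | 0, _ + 1 => 0
  | j + 1, 0 => (c - j) * up c j 0
  | j + 1, i + 1 => (c - j) * up c j (i + 1) - up c j i

theorem up_zero {R : Type} [CommRing R] (c : R) : ∀ j i, j < i → up c j i = 0
  | 0, 0, h => absurd h (lt_irrefl _)
  | 0, _ + 1, _ => rfl
  | _ + 1, 0, h => absurd h (Nat.not_lt_zero _)
  | j + 1, i + 1, h => by
    rw [up, up_zero c j (i + 1) (by omega), up_zero c j i (by omega)]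
    ring

theorem up_diag {R : Type} [CommRing R] (c : R) : ∀ j, up c j j = (-1) ^ j
  | 0 => by simp [up]
  | j + 1 => by
    rw [up, up_zero c j (j + 1) (by omega), up_diag c j]
    ring

theorem lo_zero {R : Type} [AddCommMonoid R] {p : ℕ} (hp : 0 < p) (φ : ℕ → R) :
    ∀ i a, a < i → lo p φ i a = 0
  | 0, _, h => absurd h (Nat.not_lt_zero _)
  | i + 1, a, h => by
    rw [lo, sh]
    refine sum_eq_zero fun k _ => ?_
    split_ifs with hk
    · have : 0 < p ^ k := pow_pos hp k
      exact lo_zero hp φ i _ (by omega)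
    · rfl

theorem lo_diag {R : Type} [AddCommMonoid R] {p : ℕ} (hp : 1 < p) (φ : ℕ → R) :
    ∀ i, lo p φ i i = φ 0
  | 0 => rfl
  | i + 1 => by
    rw [lo, sh, sum_range_succ', sum_eq_zero, zero_add, pow_zero, if_pos (by omega),
      Nat.add_sub_cancel, lo_diag hp φ i]
    intro k _
    split_ifs with hk
    · have : 1 < p ^ (k + 1) := Nat.one_lt_pow (by omega) hp
      exact lo_zero (by omega) φ i _ (by omega)
    · rfl

theorem sh_sum {R : Type} [CommRing R] (p N : ℕ) (φ : ℕ → ℕ → R) (u : ℕ → R) (a : ℕ) :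
    sh p (fun b => ∑ i ∈ range N, φ i b * u i) a = ∑ i ∈ range N, sh p (φ i) a * u i := by
  simp only [sh, sum_mul]
  rw [sum_comm]
  refine sum_congr rfl fun k _ => ?_
  split_ifs <;> simp

theorem ze_neg {R : Type} [Zero R] (e : ℕ → R) {m : ℤ} (h : m < 0) : ze e m = 0 := by
  rw [ze, if_neg (by omega)]

theorem ze_nat {R : Type} [Zero R] (e : ℕ → R) (k : ℕ) : ze e k = e k := by
  rw [ze, if_pos (by omega), Int.toNat_natCast]

/-- The recursion for all integers. -/
theorem rec_int {R : Type} [CommRing R] {p : ℕ} (hp : 1 < p) (e : ℕ → R)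
    (h : ∀ k : ℕ, (k : R) * e k = ∑ i ∈ range k, if p ^ i ≤ k then e (k - p ^ i) else 0)
    (m : ℤ) (N : ℕ) (hN : m < p ^ N) :
    (m : R) * ze e m = ∑ i ∈ range N, ze e (m - p ^ i) := by
  have hpos : ∀ i : ℕ, (0 : ℤ) < (p : ℤ) ^ i := fun i => by positivity
  rcases lt_or_ge m 0 with hm | hm
  · rw [ze_neg e hm, mul_zero, sum_eq_zero]
    intro i _
    exact ze_neg e (by have := hpos i; omega)
  · obtain ⟨k, rfl⟩ := Int.eq_ofNat_of_zero_le hm
    have hz : ∀ i : ℕ, ze e ((k : ℤ) - p ^ i) = if p ^ i ≤ k then e (k - p ^ i) else 0 := by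
      intro i
      split_ifs with hi
      · rw [← ze_nat e]
        congr 1
        push_cast [hi]
        ring
      · refine ze_neg e ?_
        have : (k : ℤ) < (p ^ i : ℕ) := by exact_mod_cast not_le.mp hi
        push_cast at this
        omega
    rw [ze_nat, Int.cast_natCast, h k]
    simp only [hz]
    have hN' : k < p ^ N := by exact_mod_cast hN
    have h1 : ∀ M M' : ℕ, M ≤ M' → k < p ^ M →
        (∑ i ∈ range M, if p ^ i ≤ k then e (k - p ^ i) else 0) =
          ∑ i ∈ range M', if p ^ i ≤ k then e (k - p ^ i) else 0 := by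
      intro M M' hM hk
      refine sum_subset (range_subset_range.mpr hM) fun i _ hi => if_neg ?_
      have : p ^ M ≤ p ^ i := Nat.pow_le_pow_right (by omega) (by simpa using hi)
      omega
    rw [h1 k (k + N) (by omega) (Nat.lt_pow_self hp), h1 N (k + N) (by omega) hN']

theorem step {p : ℕ} [Fact p.Prime] (e : ℕ → ZMod p)
    (h : ∀ k : ℕ, (k : ZMod p) * e k = ∑ i ∈ range k, if p ^ i ≤ k then e (k - p ^ i) else 0)
    {c : ℕ} (hc : c < p) (j a : ℕ) :
    ze e (p * a - (j + 1 : ℕ) + c) = ((c : ZMod p) - j) * ze e (p * a - j + c) -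
      sh p (fun b => ze e (p * b - j + c)) a := by
  have hp : 1 < p := (Fact.out : p.Prime).one_lt
  have hlt : ((p : ℤ) * a - j + c) < p ^ (a + 1) := by
    have h1 : a + 1 ≤ p ^ a := Nat.lt_pow_self hp
    have h2 : p * (a + 1) ≤ p ^ (a + 1) := by
      rw [pow_succ']
      exact Nat.mul_le_mul_left p h1
    have h3 : (p : ℤ) * (a + 1) ≤ p ^ (a + 1) := by exact_mod_cast h2
    have h4 : (c : ℤ) < p := by exact_mod_cast hc
    have h5 : (0 : ℤ) ≤ j := by positivity
    linarith
  have h0 := rec_int hp e h _ (a + 1) hlt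
  rw [sum_range_succ'] at h0
  have h1 : (((p : ℤ) * a - j + c : ℤ) : ZMod p) = (c : ZMod p) - j := by
    push_cast
    rw [ZMod.natCast_self]
    ring
  have h2 : sh p (fun b => ze e (p * b - j + c)) a =
      ∑ i ∈ range a, ze e ((p : ℤ) * a - j + c - p ^ (i + 1)) := by
    refine sum_congr rfl fun i _ => ?_
    split_ifs with hi
    · refine congrArg (ze e) ?_
      push_cast [hi]
      ring
    · refine (ze_neg e ?_).symm
      have h1 : a + 1 ≤ p ^ i := by omega
      have h2 : p * (a + 1) ≤ p ^ (i + 1) := by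
        rw [pow_succ']
        exact Nat.mul_le_mul_left p h1
      have h3 : (p : ℤ) * (a + 1) ≤ p ^ (i + 1) := by exact_mod_cast h2
      have h4 : (c : ℤ) < p := by exact_mod_cast hc
      have h5 : (0 : ℤ) ≤ j := by positivity
      linarith
  have h3 : (p : ℤ) * a - (j + 1 : ℕ) + c = (p : ℤ) * a - j + c - p ^ 0 := by
    push_cast
    ring
  rw [h1] at h0
  rw [h2, h3, h0]
  ring

theorem ne_zero {p : ℕ} [Fact p.Prime] (e : ℕ → ZMod p) (h0 : e 0 = 1)
    (h : ∀ k : ℕ, (k : ZMod p) * e k = ∑ i ∈ range k, if p ^ i ≤ k then e (k - p ^ i) else 0) :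
    ∀ c, c < p → e c ≠ 0
  | 0, _ => by rw [h0]; exact one_ne_zero
  | c + 1, hc => by
    intro hz
    have h1 := h (c + 1)
    rw [hz, mul_zero, sum_range_succ', sum_eq_zero, zero_add, pow_zero, if_pos (by omega),
      Nat.add_sub_cancel] at h1
    · exact ne_zero e h0 h c (by omega) h1.symm
    · intro i _
      refine if_neg ?_
      have : p ≤ p ^ (i + 1) := Nat.le_self_pow (by omega) p
      omega

theorem lu {p : ℕ} [Fact p.Prime] (e : ℕ → ZMod p)
    (h : ∀ k : ℕ, (k : ZMod p) * e k = ∑ i ∈ range k, if p ^ i ≤ k then e (k - p ^ i) else 0)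
    {c : ℕ} (hc : c < p) : ∀ j a : ℕ, ze e (p * a - j + c) =
      ∑ i ∈ range (j + 1), lo p (fun b => ze e (p * b + c)) i a * up (c : ZMod p) j i
  | 0, a => by simp [lo, up]
  | j + 1, a => by
    rw [step e h hc]
    have h1 : (fun b : ℕ => ze e (p * b - j + c)) = fun b : ℕ =>
        ∑ i ∈ range (j + 1), lo p (fun b => ze e (p * b + c)) i b * up (c : ZMod p) j i :=
      funext fun b => lu e h hc j b
    rw [h1, sh_sum, lu e h hc j a, sum_range_succ' _ (j + 1)]
    have h2 : ∑ i ∈ range (j + 1), lo p (fun b => ze e (p * b + c)) i a * up (c : ZMod p) j i =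
        ∑ i ∈ range (j + 1), lo p (fun b => ze e (p * b + c)) (i + 1) a *
          up (c : ZMod p) j (i + 1) + lo p (fun b => ze e (p * b + c)) 0 a * up (c : ZMod p) j 0 := by
      rw [← sum_range_succ' (fun i => lo p (fun b => ze e (p * b + c)) i a * up (c : ZMod p) j i),
        sum_range_succ _ (j + 1), up_zero _ j (j + 1) (by omega), mul_zero, add_zero]
    rw [h2]
    simp only [up, mul_sub, sum_sub_distrib, mul_add, mul_sum]
    simp only [lo]
    have h3 : ∀ x y z : ZMod p, x * (y * z) = y * (x * z) := fun x y z => by ring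
    simp only [h3 ((c : ZMod p) - j)]
    ring

/-- A matrix that is triangular for a weight. -/
theorem det_tri {F α : Type} [CommRing F] [Fintype α] [DecidableEq α] (w : α → ℕ)
    (M : Matrix α α F) (h : ∀ a b, M a b ≠ 0 → a = b ∨ w b < w a) : M.det = ∏ a, M a a := by
  rw [Matrix.det_apply, sum_eq_single 1]
  · simp
  · intro σ _ hσ
    by_cases hz : ∃ i, M (σ i) i = 0
    · obtain ⟨i, hi⟩ := hz
      rw [prod_eq_zero (f := fun i => M (σ i) i) (mem_univ i) hi, smul_zero]
    · exfalso
      push Not at hz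
      have h1 : ∀ i ∈ (univ : Finset α), w i ≤ w (σ i) := fun i _ => by
        rcases h _ _ (hz i) with h1 | h1
        · rw [h1]
        · exact h1.le
      have h2 := (sum_eq_sum_iff_of_le h1).mp (Equiv.sum_comp σ w).symm
      refine hσ (Equiv.ext fun i => ?_)
      rcases h _ _ (hz i) with h3 | h3
      · exact h3
      · exact absurd (h2 i (mem_univ i)) h3.ne
  · simp

theorem det_ten {F κ α : Type} [Field F] [Fintype κ] [Fintype α] [DecidableEq α] (v : α → κ → ℕ)
    (hv : Function.Injective v) (L : κ → ℕ → ℕ → F) (hL : ∀ s a i, a < i → L s a i = 0)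
    (hd : ∀ s a, L s a a ≠ 0) :
    (Matrix.of fun a b => ∏ s, L s (v a s) (v b s)).det ≠ 0 := by
  rw [det_tri (fun a => ∑ s, v a s)]
  · exact prod_ne_zero_iff.mpr fun a _ => prod_ne_zero_iff.mpr fun s _ => hd s _
  · intro a b hab
    have h1 : ∀ s ∈ (univ : Finset κ), v b s ≤ v a s := fun s hs => by
      by_contra hlt
      exact hab (prod_eq_zero hs (hL s _ _ (not_le.mp hlt)))
    rcases (sum_le_sum h1).eq_or_lt with h2 | h2
    · exact Or.inl (hv (funext fun s => ((sum_eq_sum_iff_of_le h1).mp h2 s (mem_univ s)).symm))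
    · exact Or.inr h2

theorem ten {F κ α : Type} [Field F] [Fintype κ] [Fintype α] [DecidableEq α] (v : α → κ → ℕ)
    (hv : Function.Injective v) (hd : ∀ a u, u ≤ v a → u ∈ Set.range v) (L U : κ → ℕ → ℕ → F)
    (hL : ∀ s a i, a < i → L s a i = 0) (hU : ∀ s i j, j < i → U s i j = 0)
    (h0 : ∀ s a, L s a a ≠ 0 ∧ U s a a ≠ 0) : (Matrix.of fun a a' =>
      ∏ s, ∑ i ∈ Finset.range (v a' s + 1), L s (v a s) i * U s i (v a' s)).det ≠ 0 := by
  classical
  have hM : (Matrix.of fun a a' =>
      ∏ s, ∑ i ∈ Finset.range (v a' s + 1), L s (v a s) i * U s i (v a' s)) =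
      (Matrix.of fun a b => ∏ s, L s (v a s) (v b s)) *
        (Matrix.of fun a b => ∏ s, U s (v b s) (v a s)).transpose := by
    ext a a'
    simp only [Matrix.of_apply, Matrix.mul_apply, Matrix.transpose_apply]
    rw [prod_univ_sum]
    symm
    rw [← sum_subset (subset_univ (univ.filter fun b => v b ≤ v a'))]
    · refine sum_of_injOn v hv.injOn ?_ ?_ ?_
      · intro b hb
        have hb' : v b ≤ v a' := by simpa using hb
        exact mem_coe.mpr (Fintype.mem_piFinset.mpr fun s =>
          mem_range.mpr (Nat.lt_succ_of_le (hb' s)))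
      · intro u hu hn
        exfalso
        have hu' : u ≤ v a' := fun s => by
          have := Fintype.mem_piFinset.mp hu s
          exact Nat.lt_succ_iff.mp (mem_range.mp this)
        obtain ⟨b, rfl⟩ := hd a' u hu'
        exact hn ⟨b, by simpa using hu', rfl⟩
      · intro b _
        rw [prod_mul_distrib]
    · intro b _ hb
      have hb' : ¬ v b ≤ v a' := by simpa using hb
      obtain ⟨s, hs⟩ := not_forall.mp hb'
      rw [prod_eq_zero (f := fun s => U s (v b s) (v a' s)) (mem_univ s)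
        (hU s _ _ (not_le.mp hs)), mul_zero]
  rw [hM, Matrix.det_mul, Matrix.det_transpose]
  exact mul_ne_zero (det_ten v hv L hL fun s a => (h0 s a).1)
    (det_ten v hv (fun s a i => U s i a) (fun s a i h => hU s i a h) fun s a => (h0 s a).2)

end NUa

theorem NU_thm {p : ℕ} [Fact p.Prime] : NU p where
  lu e h0 h c hc := by
    have hp : 1 < p := (Fact.out : p.Prime).one_lt
    refine ⟨fun a i => NUa.lo p (fun b => ze e (p * b + c)) i a,
      fun i j => NUa.up (c : ZMod p) j i, fun a i hi => NUa.lo_zero (by omega) _ i a hi,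
      fun i j hj => NUa.up_zero _ j i hj, fun a => ⟨?_, ?_⟩, fun a j => NUa.lu e h hc j a⟩
    · beta_reduce
      rw [NUa.lo_diag hp]
      simp only [Nat.cast_zero, mul_zero, zero_add, NUa.ze_nat]
      exact NUa.ne_zero e h0 h c hc
    · beta_reduce
      rw [NUa.up_diag]
      exact pow_ne_zero _ (neg_ne_zero.mpr one_ne_zero)
  ten v hv hd L U hL hU h0 := NUa.ten v hv hd L U hL hU h0

end Pool.Agent.Lib.MP_557161_ag.HG.MC
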