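import Pool.Agent.Lib.MP_557161_ag.MC.StN

/-!
The count of the indices.
-/

namespace Pool.Agent.Lib.MP_557161_ag.HG.MC

open Pool.Agent.Lib.MP_557161_ag.DW

namespace NWa

theorem alt (m k : ℕ) : ∑ i ∈ Finset.range (m + 1),
    (if i ≤ k then ((m + (k - i)).choose m : ℤ) else 0) * ((-1) ^ i * m.choose i) = 1 := by
  have h : ((1 - PowerSeries.X) ^ m *
      (PowerSeries.mk fun j => ((m + j).choose m : ℤ)) : PowerSeries ℤ) = PowerSeries.mk 1 := by
    rw [← PowerSeries.mk_one_pow_eq_mk_choose_add, pow_succ, ← mul_assoc, ← mul_pow,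
      mul_comm (1 - _), PowerSeries.mk_one_mul_one_sub_eq_one, one_pow, one_mul]
  have h2 := congrArg (PowerSeries.coeff k) h
  rw [sub_eq_neg_add, add_pow, Finset.sum_mul, map_sum, PowerSeries.coeff_mk, Pi.one_apply] at h2
  refine Eq.trans (Finset.sum_congr rfl fun i _ => ?_) h2
  have h3 : ((-PowerSeries.X) ^ i * 1 ^ (m - i) * (m.choose i : PowerSeries ℤ) *
      PowerSeries.mk fun j => ((m + j).choose m : ℤ)) = PowerSeries.X ^ i *
      (PowerSeries.mk fun j => ((m + j).choose m : ℤ)) *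
        PowerSeries.C ((-1 : ℤ) ^ i * m.choose i) := by
    rw [neg_pow, map_mul, map_pow, map_neg, map_one, map_natCast]
    ring
  rw [h3, PowerSeries.coeff_mul_C, PowerSeries.coeff_X_pow_mul', PowerSeries.coeff_mk]

theorem card (n b j : ℕ) (hb : b ≤ n) (hj : j < b) :
    (Finset.univ.filter fun v : Ib n b => v.w = j).card = (n + 1 + j).choose (n + 1) := by
  have h := Finset.card_finsuppAntidiag_nat_eq_choose (s := (Finset.univ : Finset (Ka n))) j
  have h1 : (Finset.univ : Finset (Ka n)).card + j - 1 = n + 1 + j := by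
    simp only [Finset.card_univ, Fintype.card_sum, Fintype.card_fin, Fintype.card_bool]
    omega
  rw [h1, ← Nat.choose_symm_add] at h
  rw [← h]
  refine Finset.card_bij (fun v _ => Finsupp.equivFunOnFinite.symm v.1) ?_ ?_ ?_
  · intro v hv
    rw [Finset.mem_finsuppAntidiag]
    exact ⟨(Finset.mem_filter.1 hv).2, Finset.subset_univ _⟩
  · intro v _ w _ e
    exact Subtype.ext (Finsupp.equivFunOnFinite.symm.injective e)
  · intro f hf
    have h2 : ∑ s, f s = j := (Finset.mem_finsuppAntidiag.1 hf).1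
    refine ⟨⟨f, h2 ▸ hj, ?_⟩, Finset.mem_filter.2 ⟨Finset.mem_univ _, h2⟩, ?_⟩
    · by_contra hc
      have h3 : ∀ i, 1 ≤ f (.inl i) := fun i =>
        Nat.one_le_iff_ne_zero.2 fun e => hc ⟨i, e⟩
      have h4 : ∑ _i : Fin n, 1 ≤ ∑ i, f (.inl i) := Finset.sum_le_sum fun i _ => h3 i
      rw [Fintype.sum_sum_type] at h2
      simp only [Finset.sum_const, Finset.card_univ, Fintype.card_fin, smul_eq_mul, mul_one] at h4
      omega
    · exact Finsupp.equivFunOnFinite_symm_coe f

theorem prodw (n b : ℕ) (hb : b ≤ n) (g : ℕ → ℝ) :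
    ∏ v : Ib n b, g v.w = ∏ j ∈ Finset.range b, g j ^ (n + 1 + j).choose (n + 1) := by
  rw [← Finset.prod_fiberwise_of_maps_to (s := Finset.univ) (t := Finset.range b)
    (g := fun v : Ib n b => v.w) (fun v _ => Finset.mem_range.2 v.2.1)]
  refine Finset.prod_congr rfl fun j hj => ?_
  rw [← card n b j hb (Finset.mem_range.1 hj), ← Finset.prod_const]
  exact Finset.prod_congr rfl fun v hv => by rw [(Finset.mem_filter.1 hv).2]

theorem shift (s i : ℕ) (g : ℕ → ℝ) (c : ℕ → ℕ) :
    ∏ j ∈ Finset.range (s - i), g (i + j) ^ c j =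
      ∏ k ∈ Finset.range s, g k ^ (if i ≤ k then (c (k - i) : ℤ) else 0) := by
  induction s with
  | zero => simp
  | succ s ih =>
    rw [Finset.prod_range_succ, ← ih]
    split_ifs with h
    · rw [Nat.succ_sub h, Finset.prod_range_succ, Nat.add_sub_cancel' h, zpow_natCast]
    · rw [show s + 1 - i = s - i by omega, zpow_zero, mul_one]

theorem zsum {x : ℝ} (hx : x ≠ 0) (m : ℕ) (e : ℕ → ℤ) :
    ∏ i ∈ Finset.range m, x ^ e i = x ^ ∑ i ∈ Finset.range m, e i := by
  induction m with
  | zero => simp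
  | succ m ih => rw [Finset.prod_range_succ, Finset.sum_range_succ, ih, zpow_add₀ hx]

end NWa

theorem NW_thm : NW where
  prod n s P ρ hn hs hP hρ := by
    have h1 : ∀ i ∈ Finset.range (n + 2), (∏ v : Ib n (s - i), ρ / P ^ i / P ^ (v.w + 1)) ^
        ((-1 : ℤ) ^ (n + 1 - i) * (n + 1).choose i) = ∏ k ∈ Finset.range s, (ρ / P ^ (k + 1)) ^
          ((if i ≤ k then ((n + 1 + (k - i)).choose (n + 1) : ℤ) else 0) *
            ((-1) ^ i * (n + 1).choose i)) := by
      intro i hi
      have h2 : (-1 : ℤ) ^ (n + 1 - i) = (-1) ^ i := by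
        obtain ⟨m, rfl⟩ := hn
        have h3 := Finset.mem_range.1 hi
        rcases Nat.even_or_odd' i with ⟨r, rfl | rfl⟩
        · rw [show 2 * m + 1 + 1 - 2 * r = 2 * (m + 1 - r) by omega, pow_mul, pow_mul]
          simp
        · rw [show 2 * m + 1 + 1 - (2 * r + 1) = 2 * (m - r) + 1 by omega, pow_succ, pow_succ,
            pow_mul, pow_mul]
          simp
      rw [NWa.prodw n (s - i) (by omega) fun j => ρ / P ^ i / P ^ (j + 1), h2]
      simp only [div_div, ← pow_add, ← add_assoc]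
      rw [NWa.shift s i (fun k => ρ / P ^ (k + 1)) fun j => (n + 1 + j).choose (n + 1),
        ← Finset.prod_zpow]
      simp only [zpow_mul]
    rw [Finset.prod_congr rfl h1, Finset.prod_comm]
    refine Finset.prod_congr rfl fun k _ => ?_
    rw [NWa.zsum (by positivity), NWa.alt (n + 1) k, zpow_one]

end Pool.Agent.Lib.MP_557161_ag.HG.MC
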