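import Pool.Agent.Lib.MP_557161_ag.MC.StN

/-!
The slopes of the character sums: assembly.
-/

namespace Pool.Agent.Lib.MP_557161_ag.HG.MC

open Pool.Agent.Lib.MP_557161_ag.DW Polynomial Filter Topology

namespace NXa

theorem sign_pow {R : Type} [Ring R] {q : ℕ} (hq : Odd q) (m : ℕ) :
    (-1 : R) ^ ((q ^ m - 1) / 2) = ((-1) ^ ((q - 1) / 2)) ^ m := by
  induction m with
  | zero => simp
  | succ m ih =>
    obtain ⟨k, hk⟩ := hq.pow (n := m)
    obtain ⟨r, hr⟩ := hq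
    have h1 : (q ^ m - 1) / 2 = k := by omega
    have h2 : (q - 1) / 2 = r := by omega
    have h3 : (q ^ (m + 1) - 1) / 2 = 2 * (k * r) + k + r := by
      have : q ^ (m + 1) = 2 * (2 * (k * r) + k + r) + 1 := by rw [pow_succ, hk, hr]; ring
      omega
    rw [h3, pow_succ, ← ih, h1, h2, pow_add, pow_add, pow_mul, neg_one_sq, one_pow, one_mul]

variable {p : ℕ} [Fact p.Prime]

theorem norm_p : ‖(p : ℂ_[p])‖ = (p : ℝ)⁻¹ := by
  rw [Theta.norm_nat, Padic.norm_p]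

theorem norm_zc (x : ℤ_[p]) : ‖zc p x‖ ≤ 1 := by
  rw [zc, RingHom.comp_apply, Theta.norm_map]
  exact x.norm_le_one

theorem rev_zero {R α : Type} [CommRing R] [Fintype α] [DecidableEq α] (M : Matrix α α R) :
    M.charpolyRev.coeff 0 = 1 := by
  rw [coeff_zero_eq_eval_zero, Matrix.eval_charpolyRev]

theorem ent [NG p] (hp : p ≠ 2) (e : ℕ → ℤ_[p]) {γ l : ℂ_[p]} (h1 : ‖γ‖ < 1) (hl : ‖l‖ ≤ 1)
    (n J b : ℕ) (u v : Ib n b) :
    ‖Am p (tc J fun k => zc p (e k) * γ ^ k) n b l u v‖ * ‖γ‖ ^ v.w ≤ ‖γ‖ ^ (p * u.w) := by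
  obtain ⟨h2, h3⟩ := NG.ent (γ := γ) hp (fun k => norm_zc (e k)) hl n J b u v
  rw [← norm_pow, ← norm_mul, h3, norm_mul, norm_pow, pow_add, mul_assoc]
  exact mul_le_of_le_one_right (by positivity)
    (mul_le_one₀ (pow_le_one₀ (norm_nonneg _) h1.le) (norm_nonneg _) h2)

theorem card_prod [NG p] (n b a : ℕ) [NeZero a] (m : ℕ) :
    (Finset.univ.filter fun u : Ib n b × ZMod a => u.1.w ≤ m).card ≤ (m + 1) ^ (n + 2) * a := by
  have h : (Finset.univ.filter fun u : Ib n b × ZMod a => u.1.w ≤ m) =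
      (Finset.univ.filter fun u : Ib n b => u.w ≤ m) ×ˢ Finset.univ := by
    ext u
    simp
  rw [h, Finset.card_product, Finset.card_univ, ZMod.card]
  exact Nat.mul_le_mul_right _ (NG.cnt p n b m)

theorem xs_eq {K : Type} [Field K] (hp : Odd p) (d a m : ℕ) (lam : K) :
    (-1) ^ ((p ^ (a * m) - 1) / 2) * (p : ℂ_[p]) ^ (a * m) *
      (((cn (2 * d + 1) lam (p ^ (a * m)) false : ℂ_[p]) -
        cn (2 * d + 1) lam (p ^ (a * m)) true) / 2) =
    ((-1) ^ ((p ^ a - 1) / 2) * ((p : ℂ_[p]) ^ a) ^ (d + 1)) ^ m *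
      (xs d lam (p ^ a) m : ℂ_[p]) := by
  have h0 : (p : ℂ_[p]) ≠ 0 := Nat.cast_ne_zero.2 (Fact.out : p.Prime).ne_zero
  rw [pow_mul p, sign_pow (hp.pow (n := a)), xs]
  push_cast
  rw [mul_pow, pow_succ' _ d, mul_pow, pow_mul (p : ℂ_[p])]
  field_simp

theorem fix_pow {K : Type} [Field K] {lam : K} {q : ℕ} (h : lam ^ q = lam) (m : ℕ) :
    lam ^ q ^ m = lam := by
  induction m with
  | zero => simp
  | succ m ih => rw [pow_succ, pow_mul, ih, h]

end NXa

open NXa in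
theorem NX_thm {p : ℕ} [Fact p.Prime] [NA p] [NB p] [NH p] [NR p] [NT p] [NC] [NG p] [ND p]
    [NL p] [NW] [NK p] [NS p] : NX p := by
  refine ⟨fun hp d => ?_⟩
  have hpp : p.Prime := Fact.out
  have hodd : Odd p := hpp.odd_of_ne_two hp
  have hP : (1 : ℝ) < p := by exact_mod_cast hpp.one_lt
  have hP0 : (0 : ℝ) < p := one_pos.trans hP
  obtain ⟨e, he⟩ := NA.ex (p := p)
  obtain ⟨γ, hγ, hs⟩ := NA.gam (p := p)
  set n := 2 * d + 1 with hn
  have hn0 : 0 < n := Nat.succ_pos _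
  refine ⟨∏ s ∈ Finset.range (n + 1), (Hs p e n s).map PadicInt.toZMod,
    Finset.prod_ne_zero_iff.2 fun s hs =>
      NH.ne hp he n s hn0 (Nat.lt_succ_iff.1 (Finset.mem_range.1 hs)), ?_⟩
  intro K _ _ _ hK a lam ha hlam hH
  have : CharP K p := charP_of_injective_algebraMap (algebraMap (ZMod p) K).injective p
  have : NeZero a := ⟨ha.ne'⟩
  obtain ⟨τ, hτ, hT⟩ := NB.spl he hγ hs K hK
  have c0 := hτ.pos
  have c1 := hτ.lt
  set θ : ℕ → ℂ_[p] := fun k => zc p (e k) * γ ^ k with hθ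
  set l : ℕ → ℂ_[p] := fun i => τ lam ^ p ^ i with hl
  have hl1 : ∀ i, ‖l i‖ ≤ 1 := fun i => by
    rw [hl, norm_pow]
    refine pow_le_one₀ (norm_nonneg _) ?_
    rcases eq_or_ne lam 0 with h | h
    · rw [h, map_zero, norm_zero]
      exact zero_le_one
    · exact (hT.1 lam h).le
  let A : ∀ J : ℕ, ℕ → Matrix (Ib n ((n + 2) * J + 1)) (Ib n ((n + 2) * J + 1)) ℂ_[p] :=
    fun J i => Am p (tc J θ) n ((n + 2) * J + 1) (l i)
  have hA : ∀ J i, A J (i + a) = A J i := fun J i => by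
    have : l (i + a) = l i := by
      rw [hl]
      dsimp only
      rw [pow_add, mul_comm, pow_mul, ← map_pow, hlam]
    simp only [A, this]
  have hE : ∀ J i u v, ‖A J i u v‖ * ‖γ‖ ^ v.w ≤ ‖γ‖ ^ (p * u.w) := fun J i u v =>
    ent hp e c1 (hl1 i) n J _ u v
  set w : ℂ_[p] := (-1) ^ ((p ^ a - 1) / 2) * ((p : ℂ_[p]) ^ a) ^ (d + 1) with hw
  have hwn : ‖w‖ = (((p : ℝ) ^ a) ^ (d + 1))⁻¹ := by
    rw [hw, norm_mul, norm_pow, norm_neg, norm_one, one_pow, one_mul, norm_pow, norm_pow, norm_p,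
      inv_pow, inv_pow]
  have hw0 : w ≠ 0 := norm_pos_iff.1 (by rw [hwn]; positivity)
  have hlim : ∀ m, 0 < m → Tendsto
      (fun J => ((p : ℂ_[p]) ^ (a * m) - 1) ^ (n + 1) * (prM (A J) (a * m)).trace) atTop
      (𝓝 (w ^ m * (xs d lam (p ^ a) m : ℂ_[p]))) := fun m hm => by
    have h1 := NS.lim hp hτ n (a * m) lam (Nat.mul_pos ha hm) (by rw [pow_mul]; exact fix_pow hlam m)
    rw [xs_eq hodd] at h1
    exact h1.congr fun J =>
      NT.tr hodd hpp.one_lt θ n J _ l _ hn0 (Nat.lt_succ_self _) (Nat.mul_pos ha hm)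
  refine ⟨?_, fun ν hν hpos => ?_⟩
  · obtain ⟨h, hh, hb⟩ := NG.bd (p := p) fun m => (m + 1) ^ (n + 2)
    have hq : ∀ m, 0 < m → (((p : ℂ_[p]) ^ a) ^ m - 1) ^ (n + 1) ≠ 0 := fun m hm => by
      refine pow_ne_zero _ (sub_ne_zero.2 ?_)
      rw [← pow_mul]
      exact_mod_cast (Nat.one_lt_pow (Nat.mul_pos ha hm).ne' hpp.one_lt).ne'
    have h1 : Mer fun m => ((((p : ℂ_[p]) ^ a) ^ m - 1) ^ (n + 1))⁻¹ *
        (w ^ m * (xs d lam (p ^ a) m : ℂ_[p])) := by
      refine mer_of_limit (u := fun J t => (prM (A J) a ^ t).trace)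
        (D := fun J => ((prM (A J) a).charpolyRev : PowerSeries ℂ_[p])) c0 c1 hh
        (fun J => ?_) (fun J => newton _) (fun J j => ?_) fun t ht => ?_
      · rw [constantCoeff_coe, rev_zero]
      · rw [coeff_coe]
        exact hb _ Ib.w (NG.cnt p n _) _ _ c0 c1 (NG.mul Ib.w _ _ c0 c1 (hE J) a ha) j
      · refine ((hlim t ht).const_mul _).congr fun J => ?_
        rw [NC.pw _ a (hA J), pow_mul, inv_mul_cancel_left₀ (hq t ht)]
    refine ((h1.mul_pow ((p : ℂ_[p]) ^ a) (n + 1)).scale w⁻¹).congr fun t ht => ?_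
    rw [mul_inv_cancel_left₀ (hq t ht), inv_pow, inv_mul_cancel_left₀ (pow_ne_zero _ hw0)]
  · let ν' : ℂ_[p] →₀ ℤ := Finsupp.equivMapDomain (Equiv.mulLeft₀ w hw0) ν
    have hν' : ∀ z, ν' z = ν (w⁻¹ * z) := fun z => rfl
    have hoff : off ν' w = off ν 1 := by
      rw [off, off, hν', hν', mul_neg, inv_mul_cancel₀ hw0, Finsupp.sum_equivMapDomain]
    rw [← hoff]
    refine NK.cnt d a ν' ha (fun s hs T h1 h2 h3 => ?_) w hwn (fun z z1 z2 => ?_) hp
    swap
    · rw [hν']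
      refine hpos _ (fun h => z1 ?_) fun h => z2 ?_
      · rw [← mul_inv_cancel_left₀ hw0 z, h, mul_one]
      · rw [← mul_inv_cancel_left₀ hw0 z, h, mul_neg_one]
    obtain ⟨h, hh, hb⟩ := NG.bd (p := p) fun m => (m + 1) ^ (n + 2) * a
    have hT0 : 0 < ‖T‖ := (pow_pos hP0 s).trans h1
    have hn1 : ∀ i : ℕ, ‖(p : ℂ_[p]) ^ i * T‖ = ‖T‖ / (p : ℝ) ^ i := fun i => by
      rw [norm_mul, norm_pow, norm_p, inv_pow, div_eq_inv_mul]
    rw [NL.lim (fun J => (cyc (A J) a).charpolyRev) (fun J m => (cyc (A J) a ^ m).trace) ‖γ‖ h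
      c0 c1 hh (fun J => rev_zero _) (fun J => newton _) (fun J j => ?_) (n + 1) a ν' ha
      (fun m hm => ?_) T
      (fun i => (∏ v : Ib n (s - i), ‖T‖ / (p : ℝ) ^ i / (p : ℝ) ^ (v.w + 1)) ^ a)
      (fun i _ => ⟨by positivity, ?_⟩) fun z hz h => h3 z hz (by rw [h, norm_one]),
      ← NW.prod n s p ‖T‖ ⟨d, hn⟩ hs hP0 hT0, ← Finset.prod_pow]
    · refine Finset.prod_congr rfl fun i _ => ?_
      rw [← zpow_natCast _ a, ← zpow_natCast _ a, ← zpow_mul, ← zpow_mul, mul_comm]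
    · refine hb _ (fun u : Ib n _ × ZMod a => u.1.w) (card_prod (p := p) n _ a) _ _ c0 c1 (fun u v => ?_) j
      rw [cyc, Matrix.of_apply]
      split_ifs
      · exact hE J _ _ _
      · rw [norm_zero, zero_mul]
        positivity
    · simp only [NC.tr _ a (hA _) m hm]
      split_ifs with hd
      · obtain ⟨k, rfl⟩ := hd
        have hk : 0 < k := Nat.pos_of_mul_pos_left hm
        have h4 : (ν'.sum fun z c => c * z ^ k) = w ^ k * (xs d lam (p ^ a) k : ℂ_[p]) := by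
          rw [hν k hk, Finsupp.sum_equivMapDomain, Finsupp.mul_sum]
          refine Finsupp.sum_congr fun z _ => ?_
          rw [Equiv.mulLeft₀_apply, mul_pow, mul_left_comm]
        rw [Nat.mul_div_cancel_left _ ha, h4]
        exact ((hlim k hk).const_mul _).congr fun J => mul_left_comm _ _ _
      · simp only [mul_zero]
        exact tendsto_const_nhds
    · filter_upwards [eventually_ge_atTop (2 * (p * (s - i) + p)), eventually_ge_atTop s]
        with J j1 j2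
      rw [← hn1]
      refine ND.val hp e hγ n (s - i) a l hl1 (fun j => NR.unit hT _ lam (fun h => hH ?_) j) J _ j1
        (by nlinarith [Nat.sub_le s i]) _ ?_ ?_
      · rw [map_prod]
        exact Finset.prod_eq_zero (Finset.mem_range.2 (by omega)) h
      · rw [hn1, lt_div_iff₀ (pow_pos hP0 i), ← pow_add]
        rcases le_total s i with k | k
        · exact Or.inl (Nat.sub_eq_zero_of_le k)
        · exact Or.inr (by rwa [Nat.sub_add_cancel k])
      · rw [hn1, div_lt_iff₀ (pow_pos hP0 i), ← pow_add]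
        exact h2.trans_le (pow_le_pow_right₀ hP.le (by omega))

end Pool.Agent.Lib.MP_557161_ag.HG.MC
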