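import Pool.Agent.Lib.MP_557161_ag.MC.NA
import Pool.Agent.Lib.MP_557161_ag.MC.NB
import Pool.Agent.Lib.MP_557161_ag.MC.NC
import Pool.Agent.Lib.MP_557161_ag.MC.ND
import Pool.Agent.Lib.MP_557161_ag.MC.NG
import Pool.Agent.Lib.MP_557161_ag.MC.NH
import Pool.Agent.Lib.MP_557161_ag.MC.NK
import Pool.Agent.Lib.MP_557161_ag.MC.NL
import Pool.Agent.Lib.MP_557161_ag.MC.NR
import Pool.Agent.Lib.MP_557161_ag.MC.NS
import Pool.Agent.Lib.MP_557161_ag.MC.NS1
import Pool.Agent.Lib.MP_557161_ag.MC.NS2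
import Pool.Agent.Lib.MP_557161_ag.MC.NT
import Pool.Agent.Lib.MP_557161_ag.MC.NT1
import Pool.Agent.Lib.MP_557161_ag.MC.NU
import Pool.Agent.Lib.MP_557161_ag.MC.NW
import Pool.Agent.Lib.MP_557161_ag.MC.NX
import Pool.Agent.Lib.MP_557161_ag.MC.F1
import Pool.Agent.Lib.MP_557161_ag.MC.F2
import Pool.Agent.Lib.MP_557161_ag.MC.F3
import Pool.Agent.Lib.MP_557161_ag.MC.F4
import Pool.Agent.Lib.MP_557161_ag.MC.F5
import Pool.Agent.Lib.MP_557161_ag.MC.F6
import Pool.Agent.Lib.MP_557161_ag.MC.F7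

/-!
The slopes of the character sums and the fan, assembled.
-/

namespace Pool.Agent.Lib.MP_557161_ag.HG.MC

theorem NX_all (p : ℕ) [Fact p.Prime] : NX p := by
  have : NA p := NA_thm
  have : NB p := NB_thm
  have : NC := NC_thm
  have : NG p := NG_thm
  have : ND p := ND_thm
  have : NU p := NU_thm
  have : NH p := NH_thm
  have : NK p := NK_thm
  have : NL p := NL_thm
  have : NR p := NR_thm
  have : NS1 := NS1_thm
  have : NS2 p := NS2_thm
  have : NS p := NS_thm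
  have : NT1 p := NT1_thm
  have : NT p := NT_thm
  have : NW := NW_thm
  exact NX_thm

theorem F7_all : F7 := by
  have : F1 := F1_thm
  have : F2 := F2_thm
  have : F3 := F3_thm
  have : F4 := F4_thm
  have : F5 := F5_thm
  have : F6 := F6_thm
  exact F7_thm

end Pool.Agent.Lib.MP_557161_ag.HG.MC
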