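import Pool.Agent.Lib.MP_557161_ag.MC.StY

/-!
The dimension of the boundary.
-/

namespace Pool.Agent.Lib.MP_557161_ag.HG.MC

open Pool.Agent.Lib.MP_557161_ag.DL MvPolynomial Matrix

namespace BDa

lemma sp_inj {D : ℕ} (h : 0 < D) : Function.Injective (sp D) := by
  have e : ∀ i : Fin (D + 1), ev D i none = 0 := fun i =>
    Fin.cases rfl (fun i => by simp [ev]) i
  have e1 : ∀ i : Fin (D + 1), ev D i ≠ 0 := fun i => Fin.cases
    (fun q => by simpa [ev] using congrFun q (some ⟨0, h⟩))
    (fun i q => by simpa [ev] using congrFun q (some i)) i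
  have e2 : Function.Injective (ev D) := fun i j => Fin.cases
    (Fin.cases (fun _ => rfl) (fun j q => by simpa [ev] using congrFun q (some j)) j)
    (fun i => Fin.cases (fun q => by simpa [ev] using congrFun q (some i))
      (fun j q => by simpa [ev, Pi.single_apply] using congrFun q (some i)) j) i
  rintro (_ | _ | i) (_ | _ | j) q
  · rfl
  · simpa [sp] using congrFun q none
  · simpa [sp, e] using congrFun q none
  · simpa [sp] using congrFun q none
  · rfl
  · exact absurd q.symm (e1 j)
  · simpa [sp, e] using congrFun q none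
  · exact absurd q (e1 i)
  · rw [e2 q]

lemma uniq {D : ℕ} {R : Type} (h : 0 < D) (F : Fan D R) (v : F.V) {s s' : Sd D}
    (hs : ∀ j, F.ea (F.c v j) s = 0) (hs' : ∀ j, F.ea (F.c v j) s' = 0) : s = s' := by
  refine sp_inj h (funext fun l => ?_)
  have e := F.expand v (Pi.single l 1) (sp D s - sp D s')
  rw [single_dotProduct, one_mul, Finset.sum_eq_zero fun i _ => ?_] at e
  · exact sub_eq_zero.1 e.symm
  · have h1 := F.ea_eq (F.c v i) s
    have h2 := F.ea_eq (F.c v i) s'
    rw [hs] at h1
    rw [hs', h1, sub_left_inj] at h2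
    rw [dotProduct_sub, h2, sub_self, mul_zero]

lemma tr_le {K : Type} [Field K] [FA1 K] {L : Fld K} {κ : Type} [Finite κ] {n : ℕ} (T : κ → L)
    (hn : Nat.card κ = n + 1) {P : MvPolynomial κ K} (hP : P ≠ 0) (h : aeval T P = 0) :
    (L.sub (gen (L := .base K) (Algebra.ofId K L) T)).tr ≤ n := by
  by_contra hc
  have h1 := FA1.tr_gen (L := .base K) (Algebra.ofId K L) T
  rw [good_base.2, ← Nat.cast_add] at h1
  obtain ⟨M, α, β, U, e₁, e₂, hF⟩ := FA1.sub (L := .base K) (Algebra.ofId K L) T good_base
    (h1.antisymm (by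
      rw [hn, zero_add, Nat.cast_succ]
      exact Cardinal.natCast_add_one_le_iff.2 (not_le.1 hc)))
  refine FA1.ne hF P hP (β.injective ?_)
  rw [map_zero, ← h, Subsingleton.elim α (Algebra.ofId K M), ← funext e₂]
  exact comp_aeval_apply U β P

end BDa

variable [Rk] {K : Type} [Field K]

open Classical in
theorem BD_thm [FA1 K] [X3] [XU] : BD K where
  dm {G L w} m := by
    obtain ⟨v, hv⟩ := (XU.ch G.toTD).1 m.1.1
    obtain ⟨r₀, -, h0⟩ := Finset.prod_eq_zero_iff.1
      (show ∏ r, w (some r) ^ G.ea r (some none) = 0 from m.2)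
    have h1 : w (some r₀) = 0 := (pow_eq_zero_iff'.1 h0).1
    have h2 : r₀ ∈ Set.range (G.c v) := by_contra fun q => hv r₀ q h1
    have h3 : w none = 0 := (eqs0 _ _ _).symm.trans (m.1.2 0)
    let φ : Vr → MvPolynomial {r // r ≠ r₀} K :=
      fun l => l.elim 0 fun r => if h : r = r₀ then 0 else X ⟨r, h⟩
    have hn : Nat.card {r // r ≠ r₀} = dl + 1 := by
      have := card_vr
      rw [Fintype.card_option] at this
      rw [Nat.card_eq_fintype_card, Fintype.card_subtype_compl, Fintype.card_subtype_eq]
      unfold dm at this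
      omega
    refine ⟨_, fun l => ?_, BDa.tr_le (fun r : {r // r ≠ r₀} => w (some r)) hn
      (P := aeval φ (G.E 1)) (fun q => ?_) ?_⟩
    · rcases l with _ | r
      · exact h3.symm ▸ zero_mem _
      · by_cases h : r = r₀
        · exact (show w (some r) = 0 from h ▸ h1).symm ▸ zero_mem _
        · exact IntermediateField.subset_adjoin _ _ (.inr ⟨⟨r, h⟩, rfl⟩)
    · obtain ⟨s₀, hs⟩ := X3.vtx G.toTD v
      have e := congrArg (aeval fun r : {r // r ≠ r₀} =>
        if r.1 ∈ Set.range (G.c v) then (0 : K) else 1) q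
      have e1 : ∀ r, aeval (fun r : {r // r ≠ r₀} =>
          if r.1 ∈ Set.range (G.c v) then (0 : K) else 1) (φ (some r)) =
          if r ∈ Set.range (G.c v) then (0 : K) else 1 := fun r => by
        by_cases h : r = r₀
        · simp only [φ, Option.elim, dif_pos h, map_zero, if_pos (h ▸ h2)]
        · simp only [φ, Option.elim, dif_neg h, aeval_X]
      rw [map_zero, comp_aeval_apply, eqs1, Finset.sum_eq_single s₀ (fun s _ n => ?_)
        (fun q => absurd (Finset.mem_univ _) q), mon, Finset.prod_eq_one fun r _ => ?_,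
        mul_one] at e
      · rcases s₀ with _ | _ | i
        · exact one_ne_zero e
        · exact G.l0 (neg_eq_zero.1 e)
        · exact one_ne_zero (neg_eq_zero.1 e)
      · rw [e1]
        split_ifs with h
        · obtain ⟨j, rfl⟩ := h
          exact (congrArg _ (hs j)).trans (pow_zero _)
        · exact one_pow _
      · obtain ⟨j, hj⟩ := not_forall.1 fun q =>
          n (BDa.uniq (mul_pos two_pos G.pos) G.toFan v q hs)
        refine mul_eq_zero_of_right _ (Finset.prod_eq_zero (Finset.mem_univ (G.c v j)) ?_)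
        beta_reduce
        rw [e1, if_pos ⟨j, rfl⟩, zero_pow hj]
    · rw [comp_aeval_apply, ← m.1.2 1]
      congr 2
      funext l
      rcases l with _ | r
      · exact (map_zero _).trans h3.symm
      · by_cases h : r = r₀
        · simp only [φ, Option.elim, dif_pos h, map_zero]
          exact h ▸ h1.symm
        · simp only [φ, Option.elim, dif_neg h, aeval_X]

end Pool.Agent.Lib.MP_557161_ag.HG.MC
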