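import Pool.Agent.Lib.MP_557161_ag.MC.StY
import Pool.Agent.Lib.MP_557161_ag.DL.CKL1

/-!
The boundary is stratified by hypersurfaces in tori.
-/

namespace Pool.Agent.Lib.MP_557161_ag.HG.MC

open Pool.Agent.Lib.MP_557161_ag.DL MvPolynomial

variable [Rk]

namespace Cb

/-- The number of homogeneous coordinates that vanish. -/
noncomputable def zc {L : Type} [Field L] (w : Vr → L) : ℕ := {r : Ry | w (some r) = 0}.ncard

section
variable {L L' : Type} [Field L] [Field L']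

lemma zs_scl (T : TD) {a : Tr → L} (h : Un a) (w : Vr → L) :
    {r : Ry | T.Γ.scl a w (some r) = 0} = {r : Ry | w (some r) = 0} :=
  Set.ext fun r => by
    show wt a _ * w (some r) = 0 ↔ w (some r) = 0
    rw [mul_eq_zero, or_iff_right (wt_ne h _)]

lemma zc_scl (T : TD) {a : Tr → L} (h : Un a) (w : Vr → L) : zc (T.Γ.scl a w) = zc w :=
  congrArg Set.ncard (zs_scl T h w)

lemma zc_map (f : L →+* L') (w : Vr → L) : zc (cw.map f w) = zc w :=
  congrArg Set.ncard (Set.ext fun _ => map_eq_zero f)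

lemma zc_le (w : Vr → L) : zc w ≤ Nat.card Ry := by
  rw [← Set.ncard_univ]
  exact Set.ncard_le_ncard (Set.subset_univ _) (Set.toFinite _)

open Classical in
/-- The number of vanishing coordinates of a class. -/
noncomputable def rk (T : TD) : Quotient (T.Γ.st L) → ℕ :=
  Quotient.lift (fun w => if T.Γ.nz w then zc w else 0) (by
    rintro x y (h | ⟨a, h, rfl⟩)
    · simp only [if_neg h.1, if_neg h.2]
    · simp only [T.Γ.nz_scl h, zc_scl T h])

lemma rk_pt (T : TD) {w : Vr → L} (h : T.Γ.nz w) : rk T (T.Γ.pt w) = zc w := if_pos h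

lemma rk_map (T : TD) (f : L →+* L') (E : Quotient (T.Γ.st L)) :
    rk T (T.Γ.qmap f E) = rk T E := by
  obtain ⟨w, rfl⟩ := T.Γ.pt_surj E
  by_cases h : T.Γ.nz w
  · rw [rk_pt T h]
    exact (rk_pt T ((T.Γ.nz_map f).2 h)).trans (zc_map f w)
  · exact (if_neg fun e => h ((T.Γ.nz_map f).1 e)).trans (if_neg h).symm

/-- The coordinates of the cone. -/
def yz (Z : Finset Jx) (y : {j // j ∉ Z} → L) (j : Jx) : L := if h : j ∈ Z then 0 else y ⟨j, h⟩

/-- The point with the given coordinates of the cone. -/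
def em (T : TD) (v : T.V) (x : Jx → L) : Vr → L :=
  fun l => l.elim 0 fun r => ∏ j, if T.c v j = r then x j else 1

lemma em_on (T : TD) (v : T.V) (x : Jx → L) (j : Jx) : em T v x (some (T.c v j)) = x j := by
  show (∏ i, if T.c v i = T.c v j then x i else 1) = x j
  simp only [(T.inj v).eq_iff, Finset.prod_ite_eq', Finset.mem_univ, if_true]

lemma em_off (T : TD) (v : T.V) (x : Jx → L) {r : Ry} (h : r ∉ Set.range (T.c v)) :
    em T v x (some r) = 1 := by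
  show (∏ i, if T.c v i = r then x i else 1) = 1
  exact Finset.prod_eq_one fun j _ => if_neg fun e => h ⟨j, e⟩

lemma mon_em (T : TD) (v : T.V) (x : Jx → L) (n : Ry → ℕ) :
    mon n (em T v x) = ∏ j, x j ^ n (T.c v j) := by
  show (∏ r, (∏ j, if T.c v j = r then x j else 1) ^ n r) = _
  simp only [← Finset.prod_pow, ite_pow, one_pow]
  rw [Finset.prod_comm]
  simp only [Finset.prod_ite_eq, Finset.mem_univ, if_true]

lemma prod_yz (Z : Finset Jx) (y : {j // j ∉ Z} → L) (n : Jx → ℕ) :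
    ∏ j, yz Z y j ^ n j =
      if ∀ j ∈ Z, n j = 0 then ∏ j : {j // j ∉ Z}, y j ^ (n j : ℤ) else 0 := by
  split_ifs with h
  · rw [← Fintype.prod_subtype_mul_prod_subtype (· ∈ Z), Finset.prod_eq_one, one_mul]
    · exact Finset.prod_congr rfl fun j _ => by rw [zpow_natCast, yz, dif_neg j.2]
    · exact fun j _ => by rw [h j.1 j.2, pow_zero]
  · push Not at h
    obtain ⟨j, h1, h2⟩ := h
    exact Finset.prod_eq_zero (Finset.mem_univ j) (by rw [yz, dif_pos h1, zero_pow h2])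

lemma zs_em (T : TD) (v : T.V) (Z : Finset Jx) {y : {j // j ∉ Z} → L} (h : ∀ j, y j ≠ 0) :
    {r : Ry | em T v (yz Z y) (some r) = 0} = T.c v '' (Z : Set Jx) := by
  ext r
  constructor
  · intro e
    by_cases hr : r ∈ Set.range (T.c v)
    · obtain ⟨j, rfl⟩ := hr
      refine ⟨j, by_contra fun n => ?_, rfl⟩
      have e' : em T v (yz Z y) (some (T.c v j)) = 0 := e
      rw [em_on, yz, dif_neg (show j ∉ Z from n)] at e'
      exact h _ e'
    · exact absurd ((em_off T v _ hr).symm.trans e) one_ne_zero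
  · rintro ⟨j, hj, rfl⟩
    exact (em_on T v _ j).trans (dif_pos hj)

lemma zc_em (T : TD) (v : T.V) (Z : Finset Jx) {y : {j // j ∉ Z} → L} (h : ∀ j, y j ≠ 0) :
    zc (em T v (yz Z y)) = Z.card := by
  rw [zc, zs_em T v Z h, Set.ncard_image_of_injective _ (T.inj v), Set.ncard_coe_finset]

end

variable {K : Type} [Field K] (G : GD K)

lemma zc_rel {M L : Fld K} (R : Rel M L) {w : Vr → M} {w' : Vr → L} (e : cw.lift R.r w w') :
    zc w ≤ zc w' :=
  Set.ncard_le_ncard (fun r h => Rel.eq_zero (e (some r)) h) (Set.toFinite _)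

/-- The points of the boundary with `m` vanishing coordinates. -/
noncomputable def LV (m : ℕ) : QS K G.Γ :=
  G.BO.sub ((G.BO.S.opn (fun _ w => zc w ≤ m) fun _ _ R _ _ _ _ e h => (zc_rel R e).trans h).cl
    (fun _ w => m ≤ zc w) fun _ _ R _ _ _ _ e h => h.trans (zc_rel R e)) (fun _ _ h => h.1.1)
    fun L a w h0 h => ⟨⟨G.BO.inv L a w h0 h.1.1, (zc_scl G.toTD h0 w).trans_le h.1.2⟩,
      h.2.trans (zc_scl G.toTD h0 w).ge⟩

lemma LV_iff {m : ℕ} {L : Fld K} {w : Vr → L} : (LV G m).mem L w ↔ G.BO.mem L w ∧ zc w = m :=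
  ⟨fun h => ⟨h.1.1, le_antisymm h.1.2 h.2⟩, fun h => ⟨⟨h.1, h.2.le⟩, h.2.ge⟩⟩

lemma eq_em (v : G.V) (Z : Finset Jx) (L : Fld K) (y : {j // j ∉ Z} → L) :
    aeval (em G.toTD v (yz Z y)) (G.E 1) =
      ∑ s, algebraMap K L (G.sc v Z s) * ∏ i, y i ^ G.sa v Z s i := by
  rw [eqs1]
  refine Finset.sum_congr rfl fun s _ => ?_
  rw [mon_em, prod_yz, GD.sc]
  split_ifs
  · rfl
  · rw [mul_zero, map_zero, zero_mul]

lemma em_rel (v : G.V) (Z : Finset Jx) {M L : Fld K} (R : Rel M L) {y : {j // j ∉ Z} → M}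
    {y' : {j // j ∉ Z} → L} (e : ∀ j, R.r (y j) (y' j)) :
    cw.lift R.r (em G.toTD v (yz Z y)) (em G.toTD v (yz Z y')) := by
  rintro (_ | r)
  · exact R.zero
  · show R.r (∏ j, if G.c v j = r then yz Z y j else 1) (∏ j, if G.c v j = r then yz Z y' j else 1)
    refine Rel.prod _ fun j _ => ?_
    split_ifs
    · unfold yz
      split_ifs
      exacts [R.zero, e _]
    · exact R.one

lemma mp [XU] [X3] (v : G.V) (Z : Finset Jx) (h : ∃ j ∈ Z, G.c v j ≠ .inr none) :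
    Mp (HS (G.sa v Z) (G.sc v Z)) (LV G Z.card).S fun _ y => em G.toTD v (yz Z y) where
  reg _ _ R _ _ _ _ e := em_rel G v Z R e
  mem L y hy := by
    refine (LV_iff G).2 ⟨⟨⟨(XU.ch G.toTD).2 ⟨v, fun r hr => ?_⟩, fun r => ?_⟩, ?_⟩,
      zc_em G.toTD v Z hy.1.2⟩
    · rw [em_off G.toTD v _ hr]
      exact one_ne_zero
    · fin_cases r
      · exact eqs0 _ _ _
      · exact (eq_em G v Z L y).trans hy.2
    · obtain ⟨j, h1, h2⟩ := h
      refine (mon_em G.toTD v _ _).trans (Finset.prod_eq_zero (Finset.mem_univ j) ?_)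
      rw [yz, dif_pos h1, zero_pow (X3.neg G.toTD v j h2).1]

lemma pro (v : G.V) (Z : Finset Jx) :
    ProA (HS (G.sa v Z) (G.sc v Z)) (LV G Z.card) fun _ y => em G.toTD v (yz Z y) := by
  intro M O y a z _ hy a0 hz e
  have e1 : G.c v '' (Z : Set Jx) = {r : Ry | z (some r) = 0} := by
    rw [← zs_em G.toTD v Z hy.1.2, ← zs_scl G.toTD a0]
    refine Set.eq_of_subset_of_ncard_le (fun r h => Rel.eq_zero (e (some r)) h) ?_ (Set.toFinite _)
    exact ((LV_iff G).1 hz).2.le.trans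
      ((zc_scl G.toTD a0 _).trans (zc_em G.toTD v Z hy.1.2)).ge
  have z0 : ∀ r, r ∉ G.c v '' (Z : Set Jx) → z (some r) ≠ 0 := fun r h h' => h (e1 ▸ h')
  obtain ⟨u, hu⟩ := G.cm v
  have hu' : ∀ s, ∃ r, u s = some r ∧ r ∉ Set.range (G.c v) := fun s => (hu.2 _).1 ⟨s, rfl⟩
  have u0 : Un fun s => z (u s) := fun s => by
    obtain ⟨r, h1, h2⟩ := hu' s
    show z (u s) ≠ 0
    rw [h1]
    exact z0 r fun h => h2 (Set.image_subset_range _ _ h)
  have a1 : Un fun s => wt (fun s => z (u s)) (G.Γ.iv u s) := fun s => wt_ne u0 _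
  have a2 : ∀ s, (Rel.ofPl O).r (a s) (wt (fun s => z (u s)) (G.Γ.iv u s)) := fun s => by
    rw [G.Γ.eq_wt (u := u) ⟨v, hu⟩ a0 s]
    refine wt_rel (fun s => ?_) u0 _
    obtain ⟨r, h1, h2⟩ := hu' s
    have e2 : (Rel.ofPl O).r (wt a (G.Γ.ω (u s)) * em G.toTD v (yz Z y) (u s)) (z (u s)) := e (u s)
    rwa [show em G.toTD v (yz Z y) (u s) = 1 from h1 ▸ em_off G.toTD v _ h2, mul_one] at e2
  have e3 := G.Γ.lift_scl (R := Rel.ofPl O) (a := a⁻¹)
    (a' := (fun s => wt (fun s => z (u s)) (G.Γ.iv u s))⁻¹)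
    (fun s => (Rel.ofPl O).inv (a2 s) (a1 s)) a1.inv e
  rw [G.Γ.scl_inv a0] at e3
  set z' := G.Γ.scl (fun s => wt (fun s => z (u s)) (G.Γ.iv u s))⁻¹ z with hz'
  have e4 : ∀ j : {j // j ∉ Z}, (Rel.ofPl O).r (y j) (z' (some (G.c v j))) := fun j => by
    have e5 : (Rel.ofPl O).r (em G.toTD v (yz Z y) (some (G.c v j))) (z' (some (G.c v j))) := e3 _
    rwa [em_on, yz, dif_neg j.2] at e5
  have n : ∀ j : {j // j ∉ Z}, z' (some (G.c v j)) ≠ 0 := fun j =>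
    mul_ne_zero (wt_ne a1.inv _) (z0 _ fun ⟨i, h1, h2⟩ => j.2 (G.inj v h2 ▸ h1))
  exact ⟨fun j => z' (some (G.c v j)), ⟨⟨trivial, n⟩, Rel.eq_zero (Rel.sum _ fun _ _ =>
    (Rel.ofPl O).mul ((Rel.ofPl O).const _) (Rel.prod _ fun i _ => Rel.zpow (e4 i) (n i) _))
      hy.2⟩, e4⟩

lemma srj [XU] [X1 K] {m : ℕ} {L : Fld K} {w : Vr → L} (h : (LV G m).mem L w) :
    ∃ (v : G.V) (Z : Finset Jx) (y : {j // j ∉ Z} → L), Z.card = m ∧
      (∃ j ∈ Z, G.c v j ≠ .inr none) ∧ (HS (G.sa v Z) (G.sc v Z)).mem L y ∧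
      G.Γ.pt (em G.toTD v (yz Z y)) = G.Γ.pt w := by
  classical
  obtain ⟨v, hv⟩ := (XU.ch G.toTD).1 h.1.1.1.1
  obtain ⟨a, a0, hn⟩ := XU.nrm (T := G.toTD) ((eqs0 _ _ _).symm.trans (h.1.1.1.2 0))
    ((XU.vx G.toFan w v).2 hv)
  have h' := (LV_iff G).1 ((LV G m).inv L a w a0 h)
  rw [← G.Γ.pt_scl a0 w]
  generalize G.Γ.scl a w = w' at hn h'
  let Z : Finset Jx := Finset.univ.filter fun j => w' (some (G.c v j)) = 0
  have hZ : ∀ j, j ∈ Z ↔ w' (some (G.c v j)) = 0 := fun j => by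
    simp only [Z, Finset.mem_filter, Finset.mem_univ, true_and]
  have n : ∀ j : {j // j ∉ Z}, w' (some (G.c v j)) ≠ 0 := fun j e => j.2 ((hZ j).2 e)
  have e : em G.toTD v (yz Z fun j => w' (some (G.c v j))) = w' := by
    funext l
    rcases l with _ | r
    · exact hn.1.symm
    · by_cases hr : r ∈ Set.range (G.c v)
      · obtain ⟨j, rfl⟩ := hr
        rw [em_on, yz]
        split_ifs with hj
        exacts [((hZ j).1 hj).symm, rfl]
      · rw [em_off G.toTD v _ hr, hn.2 r hr]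
  refine ⟨v, Z, fun j => w' (some (G.c v j)), ?_, ?_, ⟨⟨trivial, n⟩, ?_⟩, congrArg _ e⟩
  · rw [← zc_em G.toTD v Z n, e, h'.2]
  · by_contra! k
    refine (X1.co.2 ⟨h'.1.1, fun r hr e' => ?_⟩ : G.Co L w').2 h'.1.2
    by_cases h1 : r ∈ Set.range (G.c v)
    · obtain ⟨j, rfl⟩ := h1
      exact hr (k j ((hZ j).2 e'))
    · exact one_ne_zero ((hn.2 r h1).symm.trans e')
  · exact (eq_em G v Z L _).symm.trans (by rw [e]; exact h'.1.1.2 1)

lemma lev [Base K] [WA K] [X3] [XU] [X1 K] [CS K] (m : ℕ) : CK (LV G m).sp := by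
  have hm : ∀ p : {p : G.V × Finset Jx // p.2.card = m ∧ ∃ j ∈ p.2, G.c p.1 j ≠ .inr none},
      ∃ f : Mor (HS (G.sa p.1.1 p.1.2) (G.sc p.1.1 p.1.2)).sp (LV G m).sp,
        (∀ (L : Fld K) y, f.f (L := L) (some y) = G.Γ.pt (em G.toTD p.1.1 (yz p.1.2 y))) ∧
          f.Proper := by
    rintro ⟨⟨v, Z⟩, rfl, h⟩
    obtain ⟨f, h1, h2⟩ := WA.morA (S := LV G Z.card) (mp G v Z h)
    exact ⟨f, h1, h2 (pro G v Z)⟩
  choose f h1 h2 using hm
  refine CK.family f h2 ?_ fun p => CS.ck G _ _ p.2.2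
  rintro L _ _ ⟨w, hw, rfl⟩
  obtain ⟨v, Z, y, k1, k2, k3, k4⟩ := srj G hw
  exact ⟨⟨(v, Z), k1, k2⟩, some y, ⟨y, rfl, k3⟩, (h1 ⟨(v, Z), k1, k2⟩ L y).trans k4⟩

end Cb

theorem CB_thm {K : Type} [Field K] [Base K] [WA K] [X3] [XU] [X1 K] [CS K] : CB K where
  ck G := by
    refine CK.strata (A := G.Γ.amb K) (fun E => Cb.rk G.toTD E)
      (fun ι E => Cb.rk_map G.toTD ι.toRingHom E) ?_ (Nat.card Ry) ?_
      fun m => (Cb.lev G m).congr fun L E => ⟨?_, ?_⟩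
    · rintro M O _ - ⟨w, hw, rfl⟩ ⟨w', hw', e⟩
      obtain ⟨u, x, hu, l, h, e'⟩ := G.Γ.qred_nz e.symm (G.BO.nz _ _ hw')
      rw [← e, ← e']
      show Cb.rk G.toTD (G.Γ.pt w) ≤ Cb.rk G.toTD (G.Γ.pt x)
      rw [Cb.rk_pt _ (G.BO.nz _ _ hw), Cb.rk_pt _ h, ← Cb.zc_scl G.toTD (Wt.nm_un hu)]
      exact Cb.zc_rel _ l
    · rintro L _ ⟨w, hw, rfl⟩
      exact (Cb.rk_pt _ (G.BO.nz _ _ hw)).trans_le (Cb.zc_le w)
    · rintro ⟨w, hw, rfl⟩
      have h := (Cb.LV_iff G).1 hw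
      exact ⟨⟨w, h.1, rfl⟩, (Cb.rk_pt _ (G.BO.nz _ _ h.1)).trans h.2⟩
    · rintro ⟨⟨w, hw, rfl⟩, h⟩
      exact ⟨w, (Cb.LV_iff G).2 ⟨hw, (Cb.rk_pt _ (G.BO.nz _ _ hw)).symm.trans h⟩, rfl⟩

end Pool.Agent.Lib.MP_557161_ag.HG.MC
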