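import Pool.Agent.Lib.MP_557161_ag.MC.StY

/-!
A hypersurface in a torus that is linear in one character is an open part of a subtorus.
-/

namespace Pool.Agent.Lib.MP_557161_ag.HG.MC

open Pool.Agent.Lib.MP_557161_ag.DL Matrix

namespace CHa

section Alg

variable {L ι : Type} [Field L] [Fintype ι]

/-- The character with exponents `a`. -/
def ch (a : ι → ℤ) (y : ι → L) : L := ∏ i, y i ^ a i

/-- The action of the cocharacter `g`. -/
def act (g : ι → ℤ) (t : L) (y : ι → L) : ι → L := fun j => t ^ g j * y j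

lemma ch_ne (a : ι → ℤ) {y : ι → L} (h : ∀ i, y i ≠ 0) : ch a y ≠ 0 :=
  Finset.prod_ne_zero_iff.2 fun i _ => zpow_ne_zero _ (h i)

omit [Fintype ι] in
lemma prod_zpow' {t : L} (ht : t ≠ 0) (s : Finset ι) (e : ι → ℤ) :
    ∏ i ∈ s, t ^ e i = t ^ ∑ i ∈ s, e i := by
  classical
  induction s using Finset.induction_on with
  | empty => simp
  | insert i s hi ih => rw [Finset.prod_insert hi, Finset.sum_insert hi, ih, zpow_add₀ ht]

lemma ch_act (a g : ι → ℤ) {t : L} (ht : t ≠ 0) (y : ι → L) :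
    ch a (act g t y) = t ^ (g ⬝ᵥ a) * ch a y := by
  simp only [ch, act, mul_zpow, Finset.prod_mul_distrib, ← _root_.zpow_mul, prod_zpow' ht, dotProduct]

lemma ch_sub (a b : ι → ℤ) {y : ι → L} (h : ∀ i, y i ≠ 0) : ch (a - b) y = ch a y / ch b y := by
  simp only [ch, Pi.sub_apply, zpow_sub₀ (h _), Finset.prod_div_distrib]

omit [Fintype ι] in
lemma act_ne (g : ι → ℤ) {t : L} (ht : t ≠ 0) {y : ι → L} (h : ∀ i, y i ≠ 0) (i : ι) :
    act g t y i ≠ 0 := mul_ne_zero (zpow_ne_zero _ ht) (h i)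

omit [Fintype ι] in
lemma act_inv (g : ι → ℤ) {t : L} (ht : t ≠ 0) (y : ι → L) : act g t⁻¹ (act g t y) = y := by
  funext j
  simp only [act, _root_.inv_zpow']
  rw [← mul_assoc, ← zpow_add₀ ht, neg_add_cancel, zpow_zero, one_mul]

omit [Fintype ι] in
lemma act_inv' (g : ι → ℤ) {t : L} (ht : t ≠ 0) (y : ι → L) : act g t (act g t⁻¹ y) = y := by
  simpa only [inv_inv] using act_inv g (inv_ne_zero ht) y

end Alg

variable {K ι κ : Type} [Field K] [Fintype ι] [Fintype κ] [DecidableEq κ]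

lemma ch_rel {M L : Fld K} (R : Rel M L) (a : ι → ℤ) {y : ι → M} {y' : ι → L}
    (e : ∀ i, R.r (y i) (y' i)) (h : ∀ i, y' i ≠ 0) : R.r (ch a y) (ch a y') :=
  Rel.prod _ fun i _ => Rel.zpow (e i) (h i) _

omit [Fintype ι] in
lemma act_rel {M L : Fld K} (R : Rel M L) (g : ι → ℤ) {t : M} {t' : L} {y : ι → M} {y' : ι → L}
    (et : R.r t t') (ht : t' ≠ 0) (e : ∀ i, R.r (y i) (y' i)) (i : ι) :
    R.r (act g t y i) (act g t' y' i) := R.mul (Rel.zpow et ht _) (e i)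

variable (a : κ → ι → ℤ) (c : κ → K) (s₁ : κ)

/-- The sum of the other terms. -/
noncomputable def fo (L : Fld K) (y : ι → L) : L :=
  ∑ s ∈ Finset.univ.erase s₁, algebraMap K L (c s) * ch (a s) y

/-- The value of the parameter. -/
noncomputable def tv (L : Fld K) (y : ι → L) : L :=
  -fo a c s₁ L y / (algebraMap K L (c s₁) * ch (a s₁) y)

lemma fo_rel {M L : Fld K} (R : Rel M L) {y : ι → M} {y' : ι → L}
    (e : ∀ i, R.r (y i) (y' i)) (h : ∀ i, y' i ≠ 0) : R.r (fo a c s₁ M y) (fo a c s₁ L y') :=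
  Rel.sum _ fun _ _ => R.mul (R.const _) (ch_rel R _ e h)

lemma hs_iff {L : Fld K} {y : ι → L} : (HS a c).mem L y ↔
    (∀ i, y i ≠ 0) ∧ algebraMap K L (c s₁) * ch (a s₁) y + fo a c s₁ L y = 0 := by
  rw [fo, Finset.add_sum_erase _ (fun s => algebraMap K L (c s) * ch (a s) y) (Finset.mem_univ s₁)]
  exact ⟨fun h => ⟨h.1.2, h.2⟩, fun h => ⟨⟨trivial, h.1⟩, h.2⟩⟩

omit [Fintype κ] [DecidableEq κ] in
lemma sub_iff (k : ι → ℤ) {L : Fld K} {y : ι → L} :
    (HS (fun b : Bool => bif b then k else 0) fun b => bif b then (1 : K) else -1).mem L y ↔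
      (∀ i, y i ≠ 0) ∧ ch k y = 1 := by
  have : ∑ b : Bool, algebraMap K L (bif b then (1 : K) else -1) *
      ∏ i, y i ^ (bif b then k else 0) i = ch k y - 1 := by
    simp [ch, sub_eq_add_neg]
  refine ⟨fun h => ⟨h.1.2, sub_eq_zero.1 (this ▸ h.2)⟩, fun h => ⟨⟨trivial, h.1⟩, ?_⟩⟩
  exact this.trans (sub_eq_zero.2 h.2)

variable {a c s₁} {g : ι → ℤ} {n : ℤ}

lemma fo_act (h : ∀ s, s ≠ s₁ → c s ≠ 0 → g ⬝ᵥ a s = n) {L : Fld K} {t : L} (ht : t ≠ 0)
    (y : ι → L) : fo a c s₁ L (act g t y) = t ^ n * fo a c s₁ L y := by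
  rw [fo, fo, Finset.mul_sum]
  refine Finset.sum_congr rfl fun s hs => ?_
  by_cases hc : c s = 0
  · simp [hc]
  · rw [ch_act _ _ ht, h s (Finset.ne_of_mem_erase hs) hc]
    ring

variable (a c s₁) in
/-- The open part of the subtorus. -/
noncomputable def VV (k : ι → ℤ) : ASp K (.vec ι) :=
  (HS (fun b : Bool => bif b then k else 0) fun b => bif b then (1 : K) else -1).opn
    (fun L y => fo a c s₁ L y ≠ 0)
    fun _ _ R _ _ _ m e h => Rel.ne_zero (fo_rel a c s₁ R e m.1.2) h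

lemma vv_iff {k : ι → ℤ} {L : Fld K} {y : ι → L} : (VV a c s₁ k).mem L y ↔
    ((∀ i, y i ≠ 0) ∧ ch k y = 1) ∧ fo a c s₁ L y ≠ 0 :=
  and_congr_left' (sub_iff k)

omit [Fintype κ] [DecidableEq κ] in
lemma den_ne (hc : c s₁ ≠ 0) {L : Fld K} {y : ι → L} (h : ∀ i, y i ≠ 0) :
    algebraMap K L (c s₁) * ch (a s₁) y ≠ 0 :=
  mul_ne_zero ((map_ne_zero _).2 hc) (ch_ne _ h)

lemma iso {k : ι → ℤ} (hc : c s₁ ≠ 0) (h₁ : g ⬝ᵥ a s₁ = n + 1)
    (h : ∀ s, s ≠ s₁ → c s ≠ 0 → g ⬝ᵥ a s = n) (hk : g ⬝ᵥ k = 1) :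
    Iso (VV a c s₁ k) (HS a c) (fun L y => act g (tv a c s₁ L y) y)
      fun _ y => act g (ch k y)⁻¹ y := by
  have tne : ∀ (L : Fld K) (y : ι → L), (VV a c s₁ k).mem L y → tv a c s₁ L y ≠ 0 := fun L y m =>
    div_ne_zero (neg_ne_zero.2 (vv_iff.1 m).2) (den_ne hc (vv_iff.1 m).1.1)
  refine ⟨⟨fun M L R y y' _ m' e => ?_, fun L y m => ?_⟩, ⟨fun M L R y y' _ m' e => ?_,
    fun L y m => ?_⟩, fun L y m => ?_, fun L y m => ?_⟩
  · have h' := (vv_iff.1 m').1.1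
    exact act_rel R g (Rel.div (Rel.neg (fo_rel a c s₁ R e h'))
      (R.mul (R.const _) (ch_rel R _ e h')) (den_ne hc h')) (tne L y' m') e
  · have ht := tne L y m
    have h' := (vv_iff.1 m).1.1
    refine (hs_iff a c s₁).2 ⟨act_ne g ht h', ?_⟩
    have e : tv a c s₁ L y * (algebraMap K L (c s₁) * ch (a s₁) y) = -fo a c s₁ L y :=
      div_mul_cancel₀ _ (den_ne hc h')
    rw [ch_act _ _ ht, fo_act h ht, h₁, zpow_add_one₀ ht]
    linear_combination tv a c s₁ L y ^ n * e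
  · have h' := m'.1.2
    exact act_rel R g (R.inv (ch_rel R k e h') (ch_ne k h')) (inv_ne_zero (ch_ne k h')) e
  · obtain ⟨h', e⟩ := (hs_iff a c s₁).1 m
    have hu := inv_ne_zero (ch_ne k h')
    refine vv_iff.2 ⟨⟨act_ne g hu h', ?_⟩, ?_⟩
    · rw [ch_act _ _ hu, hk, zpow_one, inv_mul_cancel₀ (ch_ne k h')]
    · rw [fo_act h hu]
      refine mul_ne_zero (zpow_ne_zero _ hu) fun e' => den_ne (a := a) hc h' ?_
      rwa [e', add_zero] at e
  · have ht := tne L y m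
    have e : ch k (act g (tv a c s₁ L y) y) = tv a c s₁ L y := by
      rw [ch_act _ _ ht, hk, zpow_one, (vv_iff.1 m).1.2, mul_one]
    rw [e, act_inv g ht]
  · obtain ⟨h', e⟩ := (hs_iff a c s₁).1 m
    have hv := ch_ne k h'
    have hu := inv_ne_zero hv
    have e' : tv a c s₁ L (act g (ch k y)⁻¹ y) = ch k y := by
      have hd := den_ne (a := a) hc (act_ne g hu h')
      rw [tv, div_eq_iff hd, fo_act h hu, ch_act _ _ hu, h₁, zpow_add_one₀ hu]
      have e₁ : ch k y * (ch k y)⁻¹ = 1 := mul_inv_cancel₀ hv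
      linear_combination (-(ch k y)⁻¹ ^ n) * e -
        (ch k y)⁻¹ ^ n * (algebraMap K L (c s₁) * ch (a s₁) y) * e₁
    rw [e', act_inv' g hv]

lemma ck_vv [Base K] [CT K] {k : ι → ℤ} (hk : g ⬝ᵥ k = 1) : CK (VV a c s₁ k).sp := by
  have hZ : ((Gm K ι).cl (fun L y => fo a c s₁ L y = 0) fun _ _ R _ _ _ m e h =>
      Rel.eq_zero (fo_rel a c s₁ R e m.2) h).sp.Closed
      (HS (fun b : Bool => bif b then k else 0) fun b => bif b then (1 : K) else -1).sp := by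
    rintro M O _ _ ⟨x, rfl, -⟩ hz ⟨x', e, hx'⟩
    have hz' := (ASp.sp_some _).1 hz
    exact ⟨x', e, hx'.1, Rel.eq_zero (fo_rel a c s₁ _ (Cd.lift_of_red e) hx'.1.2) hz'.2⟩
  refine (CK.open hZ (CT.sub k g hk)).congr fun L y => ⟨?_, ?_⟩
  · rintro ⟨⟨x, rfl, hx⟩, hn⟩
    exact ⟨x, rfl, hx, fun e => hn ⟨x, rfl, hx.1, e⟩⟩
  · rintro ⟨x, rfl, hx, hn⟩
    exact ⟨⟨x, rfl, hx⟩, fun hz => hn ((ASp.sp_some _).1 hz).2⟩

end CHa

open CHa in
theorem CH_thm {K : Type} [Field K] [Base K] [CT K] : CH K where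
  ck := by
    intro ι κ _ _ a c s₁ g n hc h₁ h
    classical
    by_cases h₀ : ∃ s₀, s₀ ≠ s₁ ∧ c s₀ ≠ 0
    · obtain ⟨s₀, e₀, c₀⟩ := h₀
      have hk : g ⬝ᵥ (a s₁ - a s₀) = 1 := by
        rw [dotProduct_sub, h₁, h s₀ e₀ c₀]
        ring
      have I := iso hc h₁ h hk
      exact CK.image I.mf.mor (I.pro.mor I.mf) (I.srj.mor I.mf) (ck_vv hk)
    · refine CK.of_const ?_
      rintro L _ _ ⟨y, rfl, m⟩
      obtain ⟨h', e⟩ := (hs_iff a c s₁).1 m
      have z : fo a c s₁ L y = 0 := Finset.sum_eq_zero fun s hs => by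
        have : c s = 0 := not_not.1 fun hs' => h₀ ⟨s, Finset.ne_of_mem_erase hs, hs'⟩
        simp [this]
      rw [z, add_zero] at e
      exact absurd e (den_ne hc h')

end Pool.Agent.Lib.MP_557161_ag.HG.MC
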