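import Pool.Agent.Lib.MP_557161_ag.MC.StY

/-!
The strata of the boundary are tori, or hypersurfaces in tori that are linear in one character.
-/

namespace Pool.Agent.Lib.MP_557161_ag.HG.MC

open Pool.Agent.Lib.MP_557161_ag.DL Matrix

namespace CSa

/-- The cocharacter that separates the monomial `l` from the others. -/
def et {D : ℕ} (l i₀ : Fin (D + 1)) (t : Jd D) : ℤ :=
  t.elim 0 fun t => (if t.succ = l then 1 else 0) - (if t.succ = i₀ then 1 else 0)

lemma sum_succ {D : ℕ} (l : Fin (D + 1)) :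
    ∑ t : Fin D, (if t.succ = l then (1 : ℤ) else 0) = 1 - if 0 = l then 1 else 0 := by
  have h : ∑ i : Fin (D + 1), (if i = l then (1 : ℤ) else 0) = 1 := by simp
  rw [Fin.sum_univ_succ] at h
  linarith

lemma et_ev {D : ℕ} (l i₀ i : Fin (D + 1)) :
    et l i₀ ⬝ᵥ ev D i = (if i = l then 1 else 0) - (if i = i₀ then 1 else 0) := by
  refine Fin.cases ?_ (fun t => ?_) i
  · simp only [dotProduct, Fintype.sum_option, ev, Fin.cases_zero, et, Option.elim, mul_zero,
      zero_add, mul_neg, mul_one, Finset.sum_neg_distrib, Finset.sum_sub_distrib, sum_succ]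
    ring
  · simp only [ev, Fin.cases_succ, dotProduct_single, mul_one, et, Option.elim]

lemma et_none {D : ℕ} (l i₀ : Fin (D + 1)) : et l i₀ ⬝ᵥ sp D none = 0 := by
  simp only [sp, Option.elim, dotProduct_single, et, zero_mul]

variable [Rk] {K : Type} [Field K] (G : GD K) (v : G.V) (Z : Finset Jx)

lemma pair (η : Jx → ℤ) {s : Sd (2 * dd)} (h : ∀ j ∈ Z, G.ea (G.c v j) s = 0) :
    (fun j : {j // j ∉ Z} => η ⬝ᵥ G.e v j) ⬝ᵥ G.sa v Z s =
      η ⬝ᵥ sp _ s - ∑ j, (η ⬝ᵥ G.e v j) * G.ψ (G.c v j) := by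
  have h1 := Fintype.sum_subtype_add_sum_subtype (fun j : Jx => j ∈ Z)
    fun j => (η ⬝ᵥ G.e v j) * (G.ea (G.c v j) s : ℤ)
  rw [Finset.sum_eq_zero fun (j : {j : Jx // j ∈ Z}) _ => by
    rw [h j j.2, Nat.cast_zero, mul_zero], zero_add] at h1
  rw [← G.expand v η (sp _ s), ← Finset.sum_sub_distrib]
  refine Eq.trans ?_ (h1.trans (Finset.sum_congr rfl fun j _ => by rw [G.ea_eq, mul_sub]))
  rfl

variable {G v Z}

lemma of_ne {s : Sd (2 * dd)} (h : G.sc v Z s ≠ 0) : ∀ j ∈ Z, G.ea (G.c v j) s = 0 := by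
  by_contra n
  exact h (if_neg n)

lemma sc_eq {s : Sd (2 * dd)} (h : ∀ j ∈ Z, G.ea (G.c v j) s = 0) : G.sc v Z s = cfs G.lam s :=
  if_pos h

end CSa

variable [Rk]

open CSa in
theorem CS_thm {K : Type} [Field K] [Base K] [X3] [CT K] [CH K] : CS K where
  ck := by
    rintro G v Z ⟨j₀, hj, hn⟩
    obtain ⟨h0, i₀, hi⟩ := X3.neg G.toTD v j₀ hn
    by_cases h1 : ∃ l, ∀ j ∈ Z, G.ea (G.c v j) (some (some l)) = 0
    · obtain ⟨l, hl⟩ := h1
      have hli : l ≠ i₀ := fun e => hi (e ▸ hl j₀ hj)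
      refine CH.ck _ _ (some (some l)) (fun j => et l i₀ ⬝ᵥ G.e v j)
        (-∑ j, (et l i₀ ⬝ᵥ G.e v j) * G.ψ (G.c v j)) ?_ ?_ ?_
      · rw [sc_eq hl]
        exact neg_ne_zero.2 one_ne_zero
      · rw [pair G v Z _ hl]
        have : et l i₀ ⬝ᵥ sp _ (some (some l)) = 1 := by
          refine (et_ev l i₀ l).trans ?_
          rw [if_pos rfl, if_neg hli, sub_zero]
        rw [this]
        ring
      · intro s hs hc
        have h2 := of_ne hc
        rw [pair G v Z _ h2]
        have : et l i₀ ⬝ᵥ sp _ s = 0 := by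
          rcases s with _ | _ | i
          · exact et_none l i₀
          · exact absurd (h2 j₀ hj) h0
          · refine (et_ev l i₀ i).trans ?_
            have e1 : i ≠ l := fun e => hs (by rw [e])
            have e2 : i ≠ i₀ := fun e => hi (e ▸ h2 j₀ hj)
            rw [if_neg e1, if_neg e2, sub_zero]
        rw [this, zero_sub]
    · have h3 : ∀ s, s ≠ none → G.sc v Z s = 0 := fun s hs => by
        by_contra hc
        rcases s with _ | _ | i
        · exact hs rfl
        · exact h0 (of_ne hc j₀ hj)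
        · exact h1 ⟨i, of_ne hc⟩
      by_cases h2 : G.sc v Z none = 0
      · have h4 : ∀ s, G.sc v Z s = 0 := fun s => by
          by_cases e : s = none
          · rw [e, h2]
          · exact h3 s e
        refine (CT.gm (K := K) {j // j ∉ Z}).congr fun L y => ⟨?_, ?_⟩
        · rintro ⟨x, rfl, hx⟩
          exact ⟨x, rfl, hx, Finset.sum_eq_zero fun s _ => by rw [h4, map_zero, zero_mul]⟩
        · rintro ⟨x, rfl, hx⟩
          exact ⟨x, rfl, hx.1⟩
      · exact CH.ck _ _ none 0 (-1) h2 (by simp) fun s hs hc => absurd (h3 s hs) hc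

end Pool.Agent.Lib.MP_557161_ag.HG.MC
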