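import Pool.Agent.Lib.MP_557161_ag.MC.StY
import Pool.Agent.Lib.MP_557161_ag.DL.Pen

/-!
Cycles on the product with a torus are generated by exterior products.
-/

namespace Pool.Agent.Lib.MP_557161_ag.HG.MC

open Pool.Agent.Lib.MP_557161_ag.DL

namespace CTa

variable {K : Type} [Field K] {c d : Cd}

lemma gm_mem {ι : Type} [Finite ι] {L : Fld K} {y : ι → L} : (Gm K ι).mem L y ↔ ∀ i, y i ≠ 0 :=
  ⟨fun h => h.2, fun h => ⟨trivial, h⟩⟩

lemma mem_of_pow {M : Fld K} (O : Pl M) {a : M} {m : ℕ} (h : a ^ (m + 1) ∈ O.O) : a ∈ O.O := by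
  rcases O.O.mem_or_inv_mem a with h1 | h1
  · exact h1
  · by_cases h0 : a = 0
    · rw [h0]; exact zero_mem _
    · have : a = a ^ (m + 1) * a⁻¹ ^ m := by
        rw [pow_succ', mul_assoc, ← mul_pow, mul_inv_cancel₀ h0, one_pow, mul_one]
      rw [this]
      exact mul_mem h (pow_mem h1 m)

/-- If a power is a unit at the place, so is the element. -/
lemma unit_of_zpow {M : Fld K} (O : Pl M) {a : M} {z : O.res} {n : ℤ} (hn : n ≠ 0) (ha : a ≠ 0)
    (h : (Rel.ofPl O).r (a ^ n) z) (hz : z ≠ 0) : ∃ a', a' ≠ 0 ∧ (Rel.ofPl O).r a a' := by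
  have h1 : a ^ n ∈ O.O := h.1
  have h2 : (a ^ n)⁻¹ ∈ O.O := ((Rel.ofPl O).inv h hz).1
  have key : a ∈ O.O ∧ a⁻¹ ∈ O.O := by
    obtain ⟨m, rfl | rfl⟩ := n.eq_nat_or_neg
    · obtain ⟨m, rfl⟩ : ∃ l, m = l + 1 := Nat.exists_eq_succ_of_ne_zero (by simpa using hn)
      rw [zpow_natCast] at h1 h2
      exact ⟨mem_of_pow O h1, mem_of_pow O (by rwa [inv_pow])⟩
    · obtain ⟨m, rfl⟩ : ∃ l, m = l + 1 := Nat.exists_eq_succ_of_ne_zero (by
        intro e; exact hn (by rw [e]; rfl))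
      rw [zpow_neg, zpow_natCast] at h1 h2
      rw [inv_inv] at h2
      exact ⟨mem_of_pow O h2, mem_of_pow O (by rwa [inv_pow])⟩
  exact ⟨O.rd a, (O.rd_ne_zero_iff key.1).2 ⟨ha, key.2⟩, key.1, rfl⟩

lemma exists_zpow {L : Type} [Field L] [IsAlgClosed L] {z : L} (hz : z ≠ 0) {n : ℤ} (hn : n ≠ 0) :
    ∃ u : L, u ≠ 0 ∧ u ^ n = z := by
  obtain ⟨m, rfl | rfl⟩ := n.eq_nat_or_neg
  · have hm : 0 < m := Nat.pos_of_ne_zero (by simpa using hn)
    obtain ⟨u, hu⟩ := IsAlgClosed.exists_pow_nat_eq z hm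
    refine ⟨u, ?_, by rw [zpow_natCast, hu]⟩
    rintro rfl
    exact hz (by rw [← hu, zero_pow hm.ne'])
  · have hm : 0 < m := Nat.pos_of_ne_zero (by intro e; exact hn (by rw [e]; rfl))
    obtain ⟨u, hu⟩ := IsAlgClosed.exists_pow_nat_eq z⁻¹ hm
    refine ⟨u, ?_, by rw [zpow_neg, zpow_natCast, hu, inv_inv]⟩
    rintro rfl
    exact inv_ne_zero hz (by rw [← hu, zero_pow hm.ne'])

lemma prod_zpow_sum {L : Type} [Field L] {ζ : L} (h : ζ ≠ 0) {α : Type} (s : Finset α)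
    (e : α → ℤ) : ∏ i ∈ s, ζ ^ e i = ζ ^ ∑ i ∈ s, e i := by
  classical
  induction s using Finset.induction_on with
  | empty => simp
  | insert a s ha ih => rw [Finset.prod_insert ha, Finset.sum_insert ha, ih, zpow_add₀ h]

lemma hs_mem {ι : Type} [Fintype ι] (k : ι → ℤ) {L : Fld K} {y : ι → L} :
    (HS (fun b : Bool => bif b then k else 0) fun b => bif b then (1 : K) else -1).mem L y ↔
      (∀ i, y i ≠ 0) ∧ ∏ i, y i ^ k i = 1 := by
  refine and_congr gm_mem ?_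
  simp [add_neg_eq_zero]

variable [Base K]

/-- Images under proper surjective regular maps. -/
lemma ck_img {S : ASp K c} {T : ASp K d} {f : ∀ L : Fld K, c.X L → d.X L} (h : Mp S T f)
    (hp : Pro S T f) (hs : Srj S T f) (hS : CK S.sp) : CK T.sp :=
  hS.image h.mor (hp.mor h) (hs.mor h)

lemma ck_iso {S : ASp K c} {T : ASp K d} {f : ∀ L : Fld K, c.X L → d.X L}
    {g : ∀ L : Fld K, d.X L → c.X L} (h : Iso S T f g) (hS : CK S.sp) : CK T.sp :=
  ck_img h.mf h.pro h.srj hS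

/-- Products. -/
lemma ck_prod {S : ASp K c} {T : ASp K d} (hS : CK S.sp) (hT : CK T.sp) : CK (S.prod T).sp := by
  refine (hS.prod hT).image (Y := (S.prod T).sp)
    ⟨fun {L} (y : Option (c.X L) × Option (d.X L)) =>
      (Option.bind y.1 fun a => Option.map (fun b => (a, b)) y.2 : Option (c.X L × d.X L)),
      ?_, ?_, ?_⟩ ?_ ?_
  · rintro L ⟨_, _⟩ ⟨⟨a, rfl, ha⟩, b, rfl, hb⟩
    exact ⟨(a, b), rfl, ha, hb⟩
  · rintro L L' ι ⟨_, _⟩ ⟨⟨a, rfl, ha⟩, b, rfl, hb⟩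
    rfl
  · rintro M O ⟨_, _⟩ _ ⟨⟨a, rfl, ha⟩, b, rfl, hb⟩ ⟨⟨a', ea, ha'⟩, b', eb, hb'⟩
    have e := Cd.red_some (c := c.prod d) (O := O) (x := (a, b)) (x' := (a', b'))
      ⟨Cd.lift_of_red ea, Cd.lift_of_red eb⟩
    refine Eq.trans ?_ e.symm
    show Option.bind ((c.amb K).red O (some a))
      (fun a => Option.map (fun b => (a, b)) ((d.amb K).red O (some b))) = _
    have ea' : (c.amb K).red O (some a) = some a' := ea
    have eb' : (d.amb K).red O (some b) = some b' := eb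
    rw [ea', eb']
    rfl
  · rintro M O ⟨_, _⟩ _ ⟨⟨a, rfl, ha⟩, b, rfl, hb⟩ ⟨z, e, hz⟩
    have h := Cd.lift_of_red (c := c.prod d) (O := O) (x := (a, b)) (x' := z) e
    exact ⟨⟨z.1, Cd.red_some h.1, hz.1⟩, z.2, Cd.red_some h.2, hz.2⟩
  · rintro L _ _ ⟨z, rfl, hz⟩
    exact ⟨(some z.1, some z.2), ⟨⟨_, rfl, hz.1⟩, _, rfl, hz.2⟩, rfl⟩

/-- Open subsets. -/
lemma ck_opn {S : ASp K c} (q : ∀ L : Fld K, c.X L → Prop)
    (h : ∀ ⦃M L : Fld K⦄ (R : Rel M L) ⦃x : c.X M⦄ ⦃x' : c.X L⦄, S.mem M x → S.mem L x' →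
      c.lift R.r x x' → q L x' → q M x) (hS : CK S.sp) : CK (S.opn q h).sp := by
  refine (CK.open (Z := (S.cl (fun L x => ¬ q L x)
    fun _ _ R _ _ m m' e n n' => n (h R m m' e n')).sp) ?_ hS).congr fun L y => ?_
  · rintro M O _ _ _ ⟨x, rfl, hx, n⟩ ⟨x', e, hx'⟩
    exact ⟨x', e, hx', fun n' => n (h _ hx hx' (Cd.lift_of_red e) n')⟩
  · constructor
    · rintro ⟨⟨x, rfl, hx⟩, n⟩
      exact ⟨x, rfl, hx, not_not.1 fun n' => n ⟨x, rfl, hx, n'⟩⟩
    · rintro ⟨x, rfl, hx, n⟩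
      exact ⟨⟨x, rfl, hx⟩, fun n' => (ASp.sp_some _).1 n' |>.2 n⟩

lemma ck_line : CK (ASp.univ K (.vec Unit)).sp :=
  (ck_a1 (K := K)).image (Y := (ASp.univ K (.vec Unit)).sp)
    ⟨fun y => y, fun _ h => h, fun _ _ _ => rfl, fun _ _ _ _ _ => rfl⟩ (fun _ _ _ _ h => h)
    fun _ _ y hy => ⟨y, hy, rfl⟩

lemma ck_gm1 : CK (Gm K Unit).sp := ck_opn _ _ ck_line

lemma ck_gm (ι : Type) [Fintype ι] : CK (Gm K ι).sp := by
  refine Fintype.induction_empty_option (P := fun ι _ => CK (Gm K ι).sp) ?_ ?_ ?_ ι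
  · intro α β _ e h
    let := Fintype.ofEquiv β e.symm
    exact ck_iso (S := Gm K α) (T := Gm K β) (f := fun _ y j => y (e.symm j))
      (g := fun _ y i => y (e i))
      ⟨⟨fun _ _ _ _ _ _ _ r j => r _, fun _ _ m => gm_mem.2 fun j => m.2 _⟩,
        ⟨fun _ _ _ _ _ _ _ r j => r _, fun _ _ m => gm_mem.2 fun j => m.2 _⟩,
        fun _ x _ => funext fun i => congrArg x (e.symm_apply_apply i),
        fun _ x _ => funext fun i => congrArg x (e.apply_symm_apply i)⟩ h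
  · refine CK.of_const ?_
    rintro L _ _ ⟨x, rfl, -⟩
    exact ⟨some fun i => i.elim, congrArg some (funext fun i => i.elim)⟩
  · intro α _ h
    exact ck_iso (S := (Gm K α).prod (Gm K Unit)) (T := Gm K (Option α))
      (f := fun _ y o => Option.elim o (y.2 ()) y.1)
      (g := fun _ y => (fun i => y (some i), fun _ => y none))
      ⟨⟨fun _ _ _ _ _ _ _ r o => by cases o; exacts [r.2 _, r.1 _],
        fun _ _ m => gm_mem.2 fun o => by cases o; exacts [m.2.2 _, m.1.2 _]⟩,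
        ⟨fun _ _ _ _ _ _ _ r => ⟨fun _ => r _, fun _ => r _⟩,
          fun _ _ m => ⟨gm_mem.2 fun _ => m.2 _, gm_mem.2 fun _ => m.2 _⟩⟩,
        fun _ _ _ => rfl, fun _ x _ => funext fun o => by cases o <;> rfl⟩ (ck_prod h ck_gm1)

/-- The finite cover of the subtorus. -/
noncomputable def cov {ι : Type} [Fintype ι] [DecidableEq ι] (k : ι → ℤ) (j₀ : ι) {L : Type}
    [Field L] (u : {j // j ≠ j₀} → L) (j : ι) : L :=
  if h : j = j₀ then ∏ i, u i ^ (-k i) else u ⟨j, h⟩ ^ k j₀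

omit [Base K] in
lemma cov_self {ι : Type} [Fintype ι] [DecidableEq ι] (k : ι → ℤ) (j₀ : ι) {L : Type}
    [Field L] (u : {j // j ≠ j₀} → L) : cov k j₀ u j₀ = ∏ i, u i ^ (-k i) := dif_pos rfl

omit [Base K] in
lemma cov_ne {ι : Type} [Fintype ι] [DecidableEq ι] (k : ι → ℤ) (j₀ : ι) {L : Type}
    [Field L] (u : {j // j ≠ j₀} → L) (i : {j // j ≠ j₀}) : cov k j₀ u i = u i ^ k j₀ :=
  dif_neg i.2

lemma ck_sub {ι : Type} [Fintype ι] (k g : ι → ℤ) (h : g ⬝ᵥ k = 1) :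
    CK (HS (fun b : Bool => bif b then k else 0) fun b => bif b then (1 : K) else -1).sp := by
  classical
  obtain ⟨j₀, h0⟩ : ∃ j, k j ≠ 0 := by
    by_contra e
    simp only [not_exists, not_not] at e
    simp [dotProduct, e] at h
  refine ck_img (S := Gm K {j // j ≠ j₀}) (f := fun _ u => cov k j₀ u) ⟨?_, ?_⟩ ?_ ?_ (ck_gm _)
  · intro M L R u u' _ m' r j
    by_cases e : j = j₀
    · subst e
      show R.r (cov k j u j) (cov k j u' j)
      rw [cov_self, cov_self]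
      exact Rel.prod _ fun i _ => Rel.zpow (r i) (m'.2 i) _
    · show R.r (cov k j₀ u (⟨j, e⟩ : {j // j ≠ j₀})) (cov k j₀ u' (⟨j, e⟩ : {j // j ≠ j₀}))
      rw [cov_ne, cov_ne]
      exact Rel.zpow (r _) (m'.2 _) _
  · intro L u m
    refine (hs_mem k).2 ⟨fun j => ?_, ?_⟩
    · by_cases e : j = j₀
      · subst e
        rw [cov_self]
        exact Finset.prod_ne_zero_iff.2 fun i _ => zpow_ne_zero _ (m.2 i)
      · show cov k j₀ u (⟨j, e⟩ : {j // j ≠ j₀}) ≠ 0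
        rw [cov_ne]
        exact zpow_ne_zero _ (m.2 _)
    · rw [Fintype.prod_eq_mul_prod_subtype_ne _ j₀, cov_self, ← Finset.prod_zpow,
        ← Finset.prod_mul_distrib]
      refine Finset.prod_eq_one fun i _ => ?_
      rw [cov_ne, ← zpow_mul, ← zpow_mul, ← zpow_add₀ (m.2 i)]
      rw [show -k i * k j₀ + k j₀ * k i = 0 by ring, zpow_zero]
  · intro M O u z _ m hz r
    have hz' := ((hs_mem k).1 hz).1
    have key : ∀ i : {j // j ≠ j₀}, ∃ a', a' ≠ 0 ∧ (Rel.ofPl O).r (u i) a' := fun i =>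
      unit_of_zpow O h0 (m.2 i) (cov_ne k j₀ u i ▸ r i) (hz' i)
    choose u' h1 h2 using key
    exact ⟨u', gm_mem.2 h1, h2⟩
  · intro L _ z hz
    obtain ⟨hz1, hz2⟩ := (hs_mem k).1 hz
    choose u h1 h2 using fun i : {j // j ≠ j₀} => exists_zpow (hz1 i) h0
    set ζ : L := z j₀ * ∏ i, u i ^ k i with hζ
    have hp : ∏ i : {j // j ≠ j₀}, u i ^ k i ≠ 0 :=
      Finset.prod_ne_zero_iff.2 fun i _ => zpow_ne_zero _ (h1 i)
    have ζ0 : ζ ≠ 0 := mul_ne_zero (hz1 _) hp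
    have ζ1 : ζ ^ k j₀ = 1 := by
      rw [← hz2, Fintype.prod_eq_mul_prod_subtype_ne _ j₀, hζ, mul_zpow, ← Finset.prod_zpow]
      refine congrArg _ (Finset.prod_congr rfl fun i _ => ?_)
      rw [← h2 i, ← zpow_mul, ← zpow_mul, mul_comm]
    refine ⟨fun i => u i * ζ ^ (-g i), gm_mem.2 fun i => mul_ne_zero (h1 i) (zpow_ne_zero _ ζ0),
      funext fun j => ?_⟩
    by_cases e : j = j₀
    · subst e
      show cov k j _ j = z j
      rw [cov_self]
      simp only [mul_zpow, ← zpow_mul, Finset.prod_mul_distrib]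
      rw [prod_zpow_sum ζ0]
      have hs : ∑ i : {i // i ≠ j}, -g i * -k i = 1 + k j * -g j := by
        rw [dotProduct, Fintype.sum_eq_add_sum_subtype_ne _ j] at h
        simp only [neg_mul_neg]
        linear_combination h
      rw [hs, zpow_add₀ ζ0, zpow_one, zpow_mul, ζ1, one_zpow, mul_one, hζ]
      simp only [zpow_neg, Finset.prod_inv_distrib]
      field_simp
    · show cov k j₀ _ (⟨j, e⟩ : {j // j ≠ j₀}) = z (⟨j, e⟩ : {j // j ≠ j₀})
      rw [cov_ne, mul_zpow, h2, ← zpow_mul, mul_comm (-g _), zpow_mul, ζ1, one_zpow, mul_one]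

end CTa

theorem CT_thm {K : Type} [Field K] [Base K] : CT K := ⟨CTa.ck_gm, CTa.ck_sub⟩

end Pool.Agent.Lib.MP_557161_ag.HG.MC
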