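import Pool.Agent.Lib.MP_557161_ag.MC.StV

/-!
The open part of the torsor is dense.
-/

namespace Pool.Agent.Lib.MP_557161_ag.HG.MC

open Pool.Agent.Lib.MP_557161_ag.DL MvPolynomial

variable [Rk] {K : Type} [Field K]

namespace DSa

lemma aeval_map {L M : Fld K} (α : L →ₐ[K] M) (w : Vr → L) (f : MvPolynomial Vr K) :
    aeval (fun l => α (w l)) f = α (aeval w f) := by
  rw [← AlgHom.comp_apply, comp_aeval]

lemma good [YA K] [YP K] (G : GD K) (f : MvPolynomial Vr K)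
    (hf : ∀ (L : Fld K) w, G.Cn L w → (∀ r, w (some r) ≠ 0) → aeval w f = 0) {j : ℕ} {L : Fld K} (hL : Good j L)
    {w : Vr → L} (hw : G.Cn L w) : aeval w f = 0 := by
  obtain ⟨M, α, y, t, g⟩ := YA.exC G hL
  obtain ⟨O, h, h1, h2, -⟩ := YP.pt g w hw _ rfl
  have t0 : t ≠ 0 := fun e => by
    rw [e, Pl.ord_zero _ O.2.1] at h1
    exact zero_ne_one h1
  obtain ⟨s1, s2⟩ := (Pl.ord_pos_iff O.2.1 t0).1 (h1 ▸ one_pos)
  have r : ∀ l, (Rel.ofPl O.1).r (y l) (h.hom (w l)) := fun l => by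
    have e := Rel.sub (R := Rel.ofPl O.1) ⟨h (w l), (h.hom_apply _).symm⟩
      ((Rel.ofPl O.1).mul ⟨s1, s2⟩ ⟨h2 l, rfl⟩)
    have e' : α (w l) - t * (t⁻¹ * (α (w l) - y l)) = y l := by field_simp; ring
    rw [zero_mul, sub_zero] at e
    exact e' ▸ e
  have := Rel.eq_zero (Rel.aeval r f) (hf M y g.mem (YA.ne g))
  rw [aeval_map] at this
  exact (map_eq_zero _).1 this

end DSa

theorem DS_thm [YA K] [YP K] : DS K where
  den G f hf L w hw := by
    obtain ⟨j, hj⟩ := good_adjoin L _ (Set.finite_range w)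
    let ι : L.sub (IntermediateField.adjoin K (Set.range w)) →ₐ[K] L := IntermediateField.val _
    let w' : Vr → L.sub (IntermediateField.adjoin K (Set.range w)) :=
      fun l => ⟨w l, IntermediateField.subset_adjoin _ _ ⟨l, rfl⟩⟩
    have e : ∀ g : MvPolynomial Vr K, aeval w g = ι (aeval w' g) := DSa.aeval_map ι w'
    rw [e, DSa.good G f hf hj ⟨(G.Γ.nz_map ι.toRingHom).1 hw.1, fun r =>
      (map_eq_zero ι).1 ((e _).symm.trans (hw.2 r))⟩, map_zero]

end Pool.Agent.Lib.MP_557161_ag.HG.MC
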