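import Pool.Agent.Lib.MP_557161_ag.MC.StV
import Pool.Agent.Lib.MP_557161_ag.TW.StZ2

/-!
A polynomial in the graph of Frobenius that does not vanish at `q ^ dd` is rationally equivalent
to a sum of products: otherwise the character sums would have too few slopes.
-/

namespace Pool.Agent.Lib.MP_557161_ag.HG.MC

open Pool.Agent.Lib.MP_557161_ag.DL Pool.Agent.Lib.MP_557161_ag.DW MvPolynomial

variable [Rk] {k : Type} [Field k] {G : GD (AlgebraicClosure k)} {lam : k}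

namespace FNa

lemma hd [XJ] [XM] (G : GD (AlgebraicClosure k)) (lam : k) : ∀ P ∈ (mcI G.m lam).minimalPrimes,
    ringKrullDim (MvPolynomial G.σ k ⧸ P) = (2 * dd + 1 : ℕ) := fun P hP => by
  have h0 : 0 < 2 * dd := Nat.mul_pos two_pos G.pos
  have := XJ.prime G.m lam h0
  rw [Ideal.minimalPrimes_eq_subsingleton_self] at hP
  rw [Set.mem_singleton_iff.1 hP]
  exact XM.dim G.toFan lam h0

lemma upI_eq [XJ] (hl : algebraMap k (AlgebraicClosure k) lam = G.lam) :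
    upI (mcI G.m lam) = G.I := by
  rw [XJ.up, hl]

lemma fr [Finite k] (p : ℕ) [CharP k p] (hl : algebraMap k (AlgebraicClosure k) lam = G.lam) :
    G.Fr p (Nat.card k) := by
  have := Fintype.ofFinite k
  obtain ⟨n, -, hn⟩ := FiniteField.card k p
  refine ⟨⟨n, by rw [Nat.card_eq_fintype_card, hn]⟩, ?_⟩
  rw [← hl, ← map_pow, Nat.card_eq_fintype_card, FiniteField.pow_card]

end FNa

/-- The character sums have many slopes. -/
def Sl (p : ℕ) [Fact p.Prime] (x : ℕ → ℚ) : Prop :=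
  Mer (fun m => (x m : ℂ_[p])) ∧ ∀ ν : ℂ_[p] →₀ ℤ,
    (∀ m, 0 < m → (x m : ℂ_[p]) = ν.sum fun z k => k * z ^ m) →
    (∀ z, z ≠ 1 → z ≠ -1 → 0 ≤ ν z) → 2 * (dd : ℤ) ≤ off ν 1

variable [Finite k] {p : ℕ} [Fact p.Prime] [CharP k p] [XT] [XZ] [XJ] [XM] [XK k] [ZA] [ZB] [ZD] [ZT]
  [TW.P2.ZB2] [NY p] [XI (AlgebraicClosure k) p] [XF (AlgebraicClosure k) p]
  [XB1 (AlgebraicClosure k)] [XB2 (AlgebraicClosure k) p] [XB3 (AlgebraicClosure k) p]
  [ZO (AlgebraicClosure k) p] [ZR (AlgebraicClosure k) p] [XQ (AlgebraicClosure k) p]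

theorem decomp (hl : algebraMap k (AlgebraicClosure k) lam = G.lam)
    (hx : Sl p (xs dd G.lam (Nat.card k))) :
    ∃ u : Polynomial ℚ, u.eval ((Nat.card k : ℚ) ^ dd) ≠ 0 ∧ u.coeff 0 ≠ 0 ∧
      ∀ t, (u.sum fun j a => a • (T0.sm (AlgebraicClosure k) (XJ.hom G.m lam) (XK.smooth G hl)
        (FNa.hd G lam)).grC (Nat.card k ^ (j + t))) ∈
        RatB (upI (mcI G.m lam)) ⊔ ⨆ δ, ProdB (upI (mcI G.m lam)) δ := by
  have hq : 1 < Nat.card k := Finite.one_lt_card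
  have q0 : (Nat.card k : ℂ) ≠ 0 := Nat.cast_ne_zero.2 (by omega)
  have Q0 : (Nat.card k : ℂ) ^ dd ≠ 0 := pow_ne_zero _ q0
  have hF := FNa.fr p hl
  have hY : (T0.sm (AlgebraicClosure k) (XJ.hom G.m lam) (XK.smooth G hl) (FNa.hd G lam)).I = G.I :=
    FNa.upI_eq hl
  obtain ⟨c₀, AC, hC⟩ := ZO.ex (p := p) G
  obtain ⟨r, sd, E, h1, h2, h3⟩ := ZA.frob dd
  by_cases hA : ∃ e, dsum E (lamP ((Nat.card k : ℂ) ^ dd) (G.PP c₀ (Nat.card k)))
      ((Nat.card k : ℂ) ^ dd) e ≠ 0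
  · obtain ⟨e, he⟩ := hA
    obtain ⟨u, k1, k2, k3⟩ := ZR.rel hC hq hF rfl sd E h1 h2 e he
    obtain ⟨u, h4, h5⟩ := XZ.one (RatB (upI (mcI G.m lam)) ⊔ ⨆ δ, ProdB (upI (mcI G.m lam)) δ)
      (fun j => (T0.sm (AlgebraicClosure k) (XJ.hom G.m lam) (XK.smooth G hl)
        (FNa.hd G lam)).grC (Nat.card k ^ j))
      {(Nat.card k : ℂ) ^ dd, 0} fun β hβ => by
        refine ⟨u, hβ.elim (fun e => e ▸ k1) fun e => e ▸ k2, fun b hb t => ?_⟩
        obtain ⟨φ, l1, l2, l3⟩ := XQ.brg (p := p) G _ hY _ hF b hb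
        have h4 := k3 φ l1 l2 _ l3 t
        rw [Polynomial.sum_def] at h4 ⊢
        simp only [← mul_div_assoc, ← Finset.sum_div] at h4
        exact (div_eq_zero_iff.1 h4).resolve_right two_ne_zero
    have h6 : ∀ x : ℚ, u.eval x = 0 → Polynomial.aeval (x : ℂ) u = 0 := fun x h => by
      have h7 := Polynomial.aeval_algebraMap_apply ℂ x u
      rwa [Polynomial.coe_aeval_eq_eval, h, map_zero] at h7
    exact ⟨u, fun h => h4 _ (Or.inl rfl) (by simpa using h6 _ h), fun h => h4 0 (Or.inr rfl) (by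
      simpa using h6 0 (by rwa [← Polynomial.coeff_zero_eq_eval_zero])), h5⟩
  · obtain ⟨σ, hσ⟩ := ZB.ex fun m => G.PP c₀ (Nat.card k) m / ((Nat.card k : ℂ) ^ dd) ^ m
    have h4 : ∀ a, phi σ dd (chD a) = 0 := fun a => by
      obtain ⟨e, he⟩ := h3 a
      have h5 := (he _ _ σ Q0 hσ).symm.trans (by_contra fun h => hA ⟨e, h⟩)
      exact (mul_eq_zero.1 h5).resolve_left (mul_ne_zero (mul_ne_zero (by simp)
        (Nat.cast_ne_zero.2 (Nat.factorial_ne_zero _))) (pow_ne_zero _ Q0))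
    have hP : ∀ m : ℕ, 0 < m → σ (chC m) = (xs dd G.lam (Nat.card k) m : ℂ) := fun m hm => by
      have l := Nat.one_lt_pow hm.ne' hq
      have f := XF.pow hF m
      rw [hσ, GD.PP, if_neg hm.ne', XB1.cnt G l, XB1.cnt G l, XB2.cnt l f, XB3.cnt f, XB3.cnt f, xs]
      push_cast
      ring
    obtain ⟨g, g0, hg⟩ := ZB.rc σ _ h4
    obtain ⟨g', g1, hg'⟩ := Fn2.Rc.rat (a := fun m => xs dd G.lam (Nat.card k) (m + 1))
      ⟨g, g0, funext fun t => by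
        rw [Fn2.aeval_sh, Pi.zero_apply, ← hg (t + 1 : ℕ)]
        exact Finset.sum_congr rfl fun j _ => by
          simp only [← Nat.cast_add, hP (j + (t + 1)) (by omega), add_assoc]⟩
    obtain ⟨ν, ν', ν0, n1, n2, n3, n4⟩ := NY.tr (p := p) _ hx.1 g' g1 fun t ht => by
      obtain ⟨t, rfl⟩ := Nat.exists_eq_succ_of_ne_zero ht.ne'
      exact hg' t
    obtain ⟨n5, n6⟩ := TW.P2.ZB2.cnt σ dd h4 ν ν0 fun m hm => (hP m hm).trans (n1 m hm)
    have n7 := hx.2 ν' n2 (n4 n5)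
    rw [← n3, off] at n7
    omega

theorem zeta_dec [XU] [XL (AlgebraicClosure k)] [X1 (AlgebraicClosure k)]
    [XG (AlgebraicClosure k)] (hl : algebraMap k (AlgebraicClosure k) lam = G.lam)
    (hx : Sl p (xs dd G.lam (Nat.card k))) (L : ℕ → Type) [∀ m, Field (L m)]
    [∀ m, Algebra k (L m)] (hL : ∀ m, Module.finrank k (L m) = m + 1) :
    (∃ ζ : ℂ → ℂ, IsZeta (mcI G.m lam) (2 * dd) L ζ ∧
      ∀ F : ∀ P : Var (mcI G.m lam) dd, Res (mcI G.m lam) P.1, ∃ ρ : ℕ,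
        Module.rank ℤ (Num (mcI G.m lam) dd dd F) = ρ ∧
          meromorphicOrderAt ζ dd = (-(ρ : ℤ) : ℤ)) ∧
    ([ZY] → TateAt (Nat.card k) dd (upI (mcI G.m lam))) := by
  have hI := XJ.hom G.m lam
  have hs := XK.smooth G hl
  have hd := FNa.hd G lam
  obtain ⟨u, h5, h0, h6⟩ := decomp hl hx
  obtain ⟨g, g0, hg⟩ := ZT.rc hI hs hd u h0 h6 L hL
  obtain ⟨ν, -, h1⟩ := ZD.rat hI L hL g g0 hg
  obtain ⟨ζ, h3, h4⟩ := ZT.zeta hI hd L hL ν h1
  refine ⟨⟨ζ, h3, fun F => ?_⟩, ZY.tate hI hs hd ?_ ?_ u dd h5 (h6 0)⟩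
  · obtain ⟨ρ, h7, h8⟩ := ZT.tate hI hs hd u dd dd (two_mul dd).symm h5 h6 L hL ν h1 F
    exact ⟨ρ, h7, by rw [h4, Complex.cpow_natCast, ← h8]⟩
  · rw [FNa.upI_eq hl]
    exact XJ.prime _ _ (Nat.mul_pos two_pos G.pos)
  · rw [FNa.upI_eq hl]
    obtain ⟨M, α, y, hy⟩ := XG.ex G (j := 0) (L := .base _) good_base
    have h7 := (X1.sec_co hy.mem).1
    obtain ⟨s, hs⟩ := Function.ne_iff.1 (XU.nz.2 h7.1)
    exact ⟨s, fun h => hs ((aeval_X _ _).symm.trans (XL.zl h7 _ h))⟩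

end Pool.Agent.Lib.MP_557161_ag.HG.MC
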