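import Pool.Agent.Lib.MP_557161_ag.MC.StN

/-!
From the `p`-adic complex numbers to the complex numbers.
-/

namespace Pool.Agent.Lib.MP_557161_ag.HG.MC

open Pool.Agent.Lib.MP_557161_ag.DW Polynomial

namespace NY

variable {A F : Type} [Field A] [Field F] (φ : A →+* F) (μ : A →₀ ℤ)

lemma sum_map (m : ℕ) : ((μ.mapDomain φ).sum fun z k => (k : F) * z ^ m) =
    φ (μ.sum fun z k => (k : A) * z ^ m) := by
  rw [Finsupp.sum_mapDomain_index (by simp) fun _ _ _ => by push_cast; ring, map_finsuppSum]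
  simp only [map_mul, map_pow, map_intCast]

lemma off_map : off (μ.mapDomain φ) 1 = off μ 1 := by
  have h := Finsupp.mapDomain_apply φ.injective μ
  rw [off, off, Finsupp.sum_mapDomain_index (by simp) fun _ _ _ => rfl, ← h 1, ← h (-1), φ.map_neg,
    φ.map_one]

lemma ex {k : Type} [Field k] [Algebra k A] [Algebra k F] [IsAlgClosed A] (i : A →ₐ[k] F)
    {g : k[X]} (hg : g.coeff 0 ≠ 0) {S : Finset F} (n : F → ℤ)
    (h1 : ∀ z ∈ S, (g.map (algebraMap k F)).IsRoot z) :
    ∃ μ : A →₀ ℤ, μ 0 = 0 ∧ ∀ m : ℕ,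
      i (μ.sum fun z c => (c : A) * z ^ m) = ∑ z ∈ S, n z * z ^ m := by
  have h3 : ∀ z ∈ S, ∃ y, i y = z := fun z hz =>
    (IsAlgClosed.splits (g.map (algebraMap k A))).mem_range_of_isRoot
      (i := i.toRingHom) (Polynomial.map_ne_zero fun e => hg (by simp [e]))
      (by rw [map_map, AlgHom.toRingHom_eq_coe, i.comp_algebraMap]; exact h1 z hz)
  choose! y hy using h3
  refine ⟨∑ z ∈ S, Finsupp.single (y z) (n z), ?_, fun m => ?_⟩
  · rw [Finsupp.finsetSum_apply]
    refine Finset.sum_eq_zero fun z hz => Finsupp.single_eq_of_ne fun e => hg ?_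
    have h2 := h1 z hz
    rw [← hy z hz, ← e, map_zero, IsRoot, ← coeff_zero_eq_eval_zero] at h2
    simpa using h2
  · rw [← Finsupp.sum_finsetSum_index (by simp) fun _ _ _ => by push_cast; ring, map_sum]
    refine Finset.sum_congr rfl fun z hz => ?_
    rw [Finsupp.sum_single_index (by simp), map_mul, map_pow, map_intCast, hy z hz]

lemma homs (k E F : Type) [Field k] [Field E] [Field F] [Algebra k E] [Algebra k F]
    [IsAlgClosed E] [IsAlgClosed F] {g : k[X]} (hg : g.coeff 0 ≠ 0) {S : Finset E} (n : E → ℤ)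
    (h1 : ∀ z ∈ S, (g.map (algebraMap k E)).IsRoot z) :
    ∃ (i : AlgebraicClosure k →+* E) (_ : AlgebraicClosure k →+* F) (μ : AlgebraicClosure k →₀ ℤ),
      μ 0 = 0 ∧ ∀ m : ℕ, i (μ.sum fun z c => c * z ^ m) = ∑ z ∈ S, n z * z ^ m :=
  ⟨(IsAlgClosed.lift : AlgebraicClosure k →ₐ[k] E), (IsAlgClosed.lift : AlgebraicClosure k →ₐ[k] F),
    ex (IsAlgClosed.lift : AlgebraicClosure k →ₐ[k] E) hg n h1⟩

end NY

theorem NY_thm {p : ℕ} [Fact p.Prime] : NY p := by
  refine ⟨fun x h g hg hr => ?_⟩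
  obtain ⟨S, n, h1, h2⟩ := h.expand (g := g.map (algebraMap ℚ ℂ_[p])) (by simpa using hg)
    fun t ht => by
      have h1 := congrArg (algebraMap ℚ ℂ_[p]) (hr t ht)
      rw [sum_over_range _ (by simp), map_sum] at h1
      rw [sum_over_range _ (by simp), natDegree_map]
      simpa using h1
  obtain ⟨i, j, μ, h3, h4⟩ := NY.homs ℚ ℂ_[p] ℂ hg n h1
  have h5 : ∀ m, 0 < m → (x m : AlgebraicClosure ℚ) = μ.sum fun z c => c * z ^ m := fun m hm =>
    i.injective (by rw [h4, ← h2 m hm, map_ratCast])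
  have hj := Finsupp.mapDomain_apply j.injective μ
  refine ⟨μ.mapDomain j, μ.mapDomain i, ?_, fun m hm => ?_, fun m hm => ?_,
    by rw [NY.off_map, NY.off_map], fun h6 z z1 z2 => ?_⟩
  · rw [← h3, ← hj, j.map_zero]
  · rw [NY.sum_map, ← h5 m hm, map_ratCast]
  · rw [NY.sum_map, ← h5 m hm, map_ratCast]
  · by_cases hz : z ∈ Set.range i
    · obtain ⟨a, rfl⟩ := hz
      rw [Finsupp.mapDomain_apply i.injective, ← hj]
      refine h6 _ (fun e => z1 ?_) fun e => z2 ?_
      · rw [j.injective (e.trans j.map_one.symm), i.map_one]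
      · rw [← j.map_one, ← j.map_neg] at e
        rw [j.injective e, i.map_neg, i.map_one]
    · rw [Finsupp.mapDomain_of_notMem_range _ _ hz]

end Pool.Agent.Lib.MP_557161_ag.HG.MC
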