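import Pool.Agent.Lib.MP_557161_ag.MC.StW

/-!
The intersection with the zero section of a sum of line bundles.
-/

namespace Pool.Agent.Lib.MP_557161_ag.HG.MC

open Pool.Agent.Lib.MP_557161_ag.DL

variable [Rk] {K : Type} [Field K] {c : Cd} {Γ : Wt c} {Λ : Type} [Fintype Λ]

namespace Se

omit [Rk] in
lemma gl {L M : Fld K} (α : L →ₐ[K] M) {κ : Type} (T : κ → M) (a : L) : α a ∈ gen α T :=
  IntermediateField.subset_adjoin _ _ (Or.inl ⟨a, rfl⟩)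

omit [Rk] in
lemma gr {L M : Fld K} (α : L →ₐ[K] M) {κ : Type} (T : κ → M) (a : κ) : T a ∈ gen α T :=
  IntermediateField.subset_adjoin _ _ (Or.inr ⟨a, rfl⟩)

lemma low [WB K] {P : Sp (Γ.amb K)} {j : ℕ} (θ : Pre j P) {L : Fld K} {x : c.X L}
    (F : IntermediateField K L) (h : ∀ i, c.co x i ∈ F) (h' : (L.sub F).tr < j) :
    θ.mq L x = 0 := by
  obtain ⟨m, hm⟩ := Cardinal.lt_aleph0.1 (h'.trans (Cardinal.natCast_lt_aleph0 (n := j)))
  refine WB.low θ (m := m) ⟨F, (c.all_iff _ _).2 h, hm.le⟩ ?_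
  rw [hm] at h'
  exact_mod_cast h'

/-- The coordinate `s`. -/
lemma hom (ω : Λ → Tr → ℤ) (S : QS K Γ) (s : Λ) : Hom (S.pu (.vec ω)) (ω s) fun _ x => x.2 s :=
  ⟨fun _ _ _ _ _ _ _ e => e.2 s, fun _ _ _ _ _ => rfl⟩

lemma eqm (ω : Λ → Tr → ℤ) (S : QS K Γ) (s : Λ) :
    EqM ((S.pu (.vec ω)).zer (hom ω S s)) (S.pu (.vec fun a : {a // a ≠ s} => ω a))
      fun _ x => (x.1, fun a => x.2 a) :=
  ⟨⟨fun _ _ _ _ _ _ _ e => ⟨e.1, fun a => e.2 a⟩, fun _ _ m => ⟨m.1.1, trivial⟩⟩,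
    fun _ _ _ _ _ => rfl⟩

lemma pro (ω : Λ → Tr → ℤ) (S : QS K Γ) (s : Λ) :
    Pro ((S.pu (.vec ω)).zer (hom ω S s)).S (S.pu (.vec fun a : {a // a ≠ s} => ω a)).S
      fun _ x => (x.1, fun a => x.2 a) := by
  classical
  intro M O x z _ hx hz e
  refine ⟨(z.1, fun a => if h : a = s then 0 else z.2 ⟨a, h⟩), ⟨⟨hz.1, trivial⟩, dif_pos rfl⟩,
    e.1, fun a => ?_⟩
  by_cases h : a = s
  · subst h
    have h0 : x.2 a = 0 := hx.2
    show (Rel.ofPl O).r (x.2 a) (if h : a = a then 0 else z.2 ⟨a, h⟩)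
    rw [dif_pos rfl, h0]
    exact (Rel.ofPl O).zero
  · show (Rel.ofPl O).r (x.2 a) (if h : a = s then 0 else z.2 ⟨a, h⟩)
    rw [dif_neg h]
    exact e.2 ⟨a, h⟩

variable [FW0 K] [WB K]

/-- The places other than the zero place do not contribute. -/
lemma other {ω : Λ → Tr → ℤ} {S : QS K Γ} {s : Λ} {j r : ℕ} (hr : Nat.card {a // a ≠ s} = r)
    (φ : Pre (j + r) ((S.pu (.vec ω)).zer (hom ω S s)).sp) {L M : Fld K} {α : L →ₐ[K] M}
    (hL : Good j L) (b : c.X L) (p : Λ → M) (O : Pl M)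
    (h : (∀ a, p a ∈ O.O) → O.rd (p s) = 0 → ∃ m, m < j + r ∧
      (O.res.sub (gen (Pl.over_comap α O).resHom fun a => O.rd (p a))).tr ≤ m) :
    φ.mr O (c.map α b, p) = 0 := by
  by_contra hn
  obtain ⟨u, x', hu, e, hx, e'⟩ := WB.r_ne φ hn
  obtain ⟨u, rfl, -⟩ := Γ.ch_prod _ hu
  refine hn (e'.trans ?_)
  have ec : (Γ.prod (.vec ω)).nm (fun s => Sum.inl (u s)) (c.map α b, p) =
      fun s => α (Γ.nm u b s) := Γ.nm_map α.toRingHom u b
  have a0 : Un fun s => α (Γ.nm u b s) := ec ▸ Wt.nm_un hu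
  rw [ec] at e
  generalize Γ.nm u b = a at e a0
  have mw : ∀ {N : Fld K} (β : L →ₐ[K] N) (k : Tr → ℤ), β (wt a k) = wt (fun s => β (a s)) k :=
    fun β k => map_wt β.toRingHom a k
  have e1 : ∀ l, c.co x'.1 l =
      (Pl.over_comap α O).resHom ((Pl.comap α O).rd (wt a (Γ.ω l) * c.co b l)) := fun l => by
    have := ((c.lift_iff _ _ _).1 e.1 l).2
    rw [Pl.Over.resHom_rd, ← this, map_mul, mw]
    exact congrArg O.rd ((Γ.co_scl _ _ l).trans (congrArg _ (c.co_map α b l)))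
  have e2 : ∀ l, (Rel.ofPl O).r (α (wt a (ω l)) * p l) (x'.2 l) := fun l => mw α _ ▸ e.2 l
  have hs : x'.2 s = 0 := hx.2
  by_cases hT : Pl.Triv α O
  · have u : ∀ l, (Rel.ofPl O).r (p l) (hT.hom (wt a (ω l))⁻¹ * x'.2 l) := fun l => by
      have h1 : (Rel.ofPl O).r (α (wt a (ω l))⁻¹) (hT.hom (wt a (ω l))⁻¹) :=
        ⟨hT _, (hT.hom_apply _).symm⟩
      have h2 := (Rel.ofPl O).mul h1 (e2 l)
      rwa [map_inv₀ α, inv_mul_cancel_left₀ (mw α _ ▸ wt_ne a0 _)] at h2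
    obtain ⟨m, m1, m2⟩ := h (fun l => (u l).1) (by rw [(u s).2, hs, mul_zero])
    refine low φ _ (fun l => ?_) (m2.trans_lt (by exact_mod_cast m1))
    obtain l | l := l
    · exact e1 l ▸ gl _ _ _
    · have h1 : x'.2 l =
          (Pl.over_comap α O).resHom ((Pl.comap α O).rd (wt a (ω l))) * O.rd (p l) := by
        rw [Pl.Over.resHom_rd, ← O.rd_mul (hT _) (u l).1, (e2 l).2]
      show x'.2 l ∈ _
      rw [h1]
      exact mul_mem (gl _ _ _) (gr _ (fun a => O.rd (p a)) l)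
  · have h1 : (Pl.comap α O).res.tr < j := Pl.tr_res_lt _ (fun e => hT fun x =>
      (show x ∈ (Pl.comap α O).O from e ▸ ValuationSubring.mem_top x)) hL.2.le
    refine low φ (gen (Pl.over_comap α O).resHom fun a : {a // a ≠ s} => x'.2 a) (fun l => ?_)
      ((FA1.tr_gen _ _).trans_lt ?_)
    · obtain l | l := l
      · exact e1 l ▸ gl _ _ _
      · show x'.2 l ∈ _
        by_cases hl : l = s
        · rw [hl, hs]
          exact zero_mem _
        · exact gr _ (fun a : {a // a ≠ s} => x'.2 a) ⟨l, hl⟩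
    · obtain ⟨m, hm⟩ := Cardinal.lt_aleph0.1 (h1.trans (Cardinal.natCast_lt_aleph0 (n := j)))
      rw [hm] at h1 ⊢
      rw [hr]
      have : m < j := by exact_mod_cast h1
      exact_mod_cast Nat.add_lt_add_right this r

lemma base [IsEmpty Λ] (ω : Λ → Tr → ℤ) {S : QS K Γ} {j : ℕ} (φ : QF j S) :
    ∃ θ : QF (j + 0) (S.pu (.vec ω)), IsUp (S.pu (.vec ω)) 0 j φ.mq θ.mq ∧
      ∀ q : c.ι → Prop, Γ.Ad q → KlP c q j φ.mq →
        KlP (c.prod (.vec Λ)) (Sum.elim q fun _ => True) (j + 0) θ.mq := by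
  obtain ⟨θ, hθ⟩ := WB.pull (S := S.pu (.vec ω)) (T := S) (f := fun _ x => x.1)
    ⟨⟨fun _ _ _ _ _ _ _ e => e.1, fun _ _ m => m.1⟩, fun _ _ _ _ _ => rfl⟩
    (fun M O x z _ _ hz e => ⟨(z, isEmptyElim), ⟨hz, trivial⟩, e, isEmptyElim⟩) φ
  refine ⟨θ, fun L M α b p h => ?_, fun q _ h L L₁ L₂ ι₁ ι₂ w h1 h2 h3 => ?_⟩
  · have hs : Function.Surjective α := (FA1.zero.1 (⟨h.gL, by simpa using h.gM, h.top⟩ :
      Free j α p)).2
    rw [hθ M _ h.mem]
    exact (φ.ext α (Γ.pt b) h.gL h.gM).trans (by rw [deg_of_surj hs, Nat.cast_one, one_mul])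
  · by_contra hn
    rw [hθ L w (WB.mem θ.toPre hn).2] at hn
    exact hn (h L L₁ L₂ ι₁ ι₂ w.1 (fun i => h1 (.inl i)) (fun i => h2 (.inl i)) h3)

lemma step [WC K] [DecidableEq Λ] (ω : Λ → Tr → ℤ) {S : QS K Γ} (s : Λ) {j r : ℕ}
    (hr : Nat.card {a // a ≠ s} = r) (hc : Nat.card Λ = r + 1) (φ : QF j S)
    (θ : QF (j + r) (S.pu (.vec fun a : {a // a ≠ s} => ω a)))
    (h1 : IsUp (S.pu (.vec fun a : {a // a ≠ s} => ω a)) r j φ.mq θ.mq) :
    ∃ ψ : QF (j + (r + 1)) (S.pu (.vec ω)), IsUp (S.pu (.vec ω)) (r + 1) j φ.mq ψ.mq ∧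
      ∀ q : c.ι → Prop, Γ.Ad q →
        KlP (c.prod (.vec {a // a ≠ s})) (Sum.elim q fun _ => True) (j + r) θ.mq →
        KlP (c.prod (.vec Λ)) (Sum.elim q fun _ => True) (j + (r + 1)) ψ.mq := by
  obtain ⟨θ', hθ⟩ := WB.pull (eqm ω S s) (pro ω S s) θ
  obtain ⟨ψ, hψ⟩ := WC.cart (hom ω S s) θ'
  refine ⟨ψ, fun L M α b p h => ?_, fun q hq h => WC.kills hψ _ ?_ ?_ ?_⟩
  · have hF : Free j α p := ⟨h.gL, hc ▸ h.gM, h.top⟩
    obtain ⟨O, hT, z1, z2, z3, z4, z5⟩ := FA2.zero hF (i := j + r) (by rw [hc]; rfl) s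
    have p0 : p s ≠ 0 := fun e => by
      have := FA1.trans hF s Polynomial.X (by rw [Polynomial.eval₂_X, e])
      exact Polynomial.X_ne_zero this
    have hb : S.mem L b := (S.S.map_iff α b).1 h.mem.1
    have hb' : S.mem O.1.res (c.map hT.hom b) := (S.S.map_iff hT.hom b).2 hb
    have e : (c.prod (.vec Λ)).lift (Rel.ofPl O.1).r (c.map α b, p)
        (c.map hT.hom b, fun a => O.1.rd (p a)) := ⟨Cd.lift_triv hT b, fun a => ⟨z1 a, rfl⟩⟩
    have e' := ((c.prod (.vec Λ)).lift_iff _ _ _).1 e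
    have n0 := Γ.nz_prod (.vec ω) (S.nz _ _ hb') fun a => O.1.rd (p a)
    have hP : (Γ.prod (.vec ω)).Prim O.1 1 (c.map α b, p) :=
      ⟨Un.one, fun l _ => by rw [Wt.scl_one]; exact (e' l).1, by
        obtain ⟨u, hu, u0⟩ := (Wt.nz_iff _).1 n0
        exact ⟨u, hu, fun t => by rw [Wt.scl_one, (e' _).2]; exact u0 t⟩⟩
    rw [← (hψ M (c.map α b, p) (p s) h.gM h.mem p0 fun _ => rfl).2,
      finsum_eq_single _ O fun O' hO => by
        rw [other hr θ'.toPre h.gL b p O'.1 (z5 O' hO), mul_zero],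
      WB.ow_eq (Γ.prod (.vec ω)) _ O.2.1 p0 hP, one_wt, one_mul, z2, Int.cast_one, one_mul,
      WB.r_eq θ'.toPre (x' := (c.map hT.hom b, fun a => O.1.rd (p a))) Un.one
        (by rw [Wt.scl_one]; exact e) n0,
      hθ _ _ ⟨⟨hb', trivial⟩, z3⟩]
    exact h1 L _ hT.hom b _ ⟨h.gL, hr ▸ z4.gM, z4.top, hb', trivial⟩
  · rintro (i | i) hi
    exacts [hq i hi, absurd trivial hi]
  · exact fun L F x _ h => h (.inr s) trivial
  · intro L L₁ L₂ ι₁ ι₂ w h1 h2 h3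
    by_contra hn
    rw [hθ L w (WB.mem θ'.toPre hn).2] at hn
    refine hn (h L L₁ L₂ ι₁ ι₂ _ ?_ ?_ h3)
    · rintro (i | i) hi
      exacts [h1 (.inl i) hi, h1 (.inr i) trivial]
    · rintro (i | i) hi
      exacts [h2 (.inl i) hi, absurd trivial hi]

end Se

theorem SE_thm [FW0 K] [WB K] [WC K] : SE K where
  ex {c Γ Λ} _ ω {S r} hr {j} φ := by
    classical
    induction r generalizing Λ with
    | zero =>
      have := Fintype.card_eq_zero_iff.1 hr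
      exact Se.base ω φ
    | succ r ih =>
      obtain ⟨s⟩ : Nonempty Λ := Fintype.card_pos_iff.1 (by omega)
      have h : Fintype.card {a // a ≠ s} = r := by
        rw [Fintype.card_subtype_compl, Fintype.card_subtype_eq, hr]
        rfl
      obtain ⟨θ, h1, h2⟩ := ih _ (fun a : {a // a ≠ s} => ω a) h
      obtain ⟨ψ, h3, h4⟩ := Se.step ω s (Nat.card_eq_fintype_card.trans h)
        (Nat.card_eq_fintype_card.trans hr) φ θ h1
      exact ⟨ψ, h3, fun q hq hk => h4 q hq (h2 q hq hk)⟩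

end Pool.Agent.Lib.MP_557161_ag.HG.MC
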