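import Pool.Agent.Lib.MP_557161_ag.MC.StW
import Pool.Agent.Lib.MP_557161_ag.HG.FC1

/-!
Basic operations on functionals on quotients by a torus.
-/

namespace Pool.Agent.Lib.MP_557161_ag.HG.MC

open Pool.Agent.Lib.MP_557161_ag.DL

variable [Rk]

namespace WBa

variable {K : Type} [Field K] {c d : Cd} {Γ : Wt c} {S : QS K Γ} {T : ASp K d}
  {g : ∀ L : Fld K, c.X L → d.X L}

/-- If the reduction of a class lies in `S`, a multiple of the point reduces to a point of `S`. -/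
lemma red_mem {M : Fld K} {O : Pl M} {x : c.X M}
    (h : S.sp.mem ((Γ.amb K).red O (Γ.pt x))) : ∃ u x', Γ.Ch u x ∧
      c.lift (Rel.ofPl O).r (Γ.scl (Γ.nm u x) x) x' ∧ S.mem O.res x' ∧
      (Γ.amb K).red O (Γ.pt x) = Γ.pt x' := by
  obtain ⟨y, m, e⟩ := h
  obtain ⟨u, x', h1, h3, -, h4⟩ := Γ.qred_nz e.symm (S.nz _ y m)
  exact ⟨u, x', h1, h3, S.mem_of_pt m h4.symm, e.symm.trans h4.symm⟩

lemma morB (hg : Mp S.S T g)
    (hi : ∀ (L : Fld K) (a : Tr → L) x, Un a → S.mem L x → g L (Γ.scl a x) = g L x) :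
    ∃ m : Mor S.sp T.sp, (∀ (L : Fld K) (x : c.X L), S.mem L x →
      m.f (L := L) (Γ.pt x) = some (g L x)) ∧ (ProB S T g → m.Proper) := by
  classical
  let f : ∀ L : Fld K, (Γ.amb K).pt L → (d.amb K).pt L := fun L y =>
    if h : S.sp.mem y then some (g L h.choose) else none
  have hf : ∀ (L : Fld K) (x : c.X L), S.mem L x → f L (Γ.pt x) = some (g L x) := fun L x m => by
    have h : S.sp.mem (L := L) (Γ.pt x) := S.sp_pt.2 m
    obtain ⟨a, h0, e⟩ := (Γ.pt_eq (S.nz L x m)).1 h.choose_spec.2.symm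
    exact (dif_pos h).trans (congrArg some ((congrArg (g L) e).trans (hi L a x h0 m)))
  refine ⟨⟨fun {L} => f L, ?_, ?_, ?_⟩, hf, fun hp => ?_⟩
  · rintro L _ ⟨x, m, rfl⟩
    exact ⟨_, hf L x m, hg.mem L x m⟩
  · rintro L L' ι _ ⟨x, m, rfl⟩
    rw [hf L x m]
    exact (hf L' _ ((S.S.map_iff ι x).2 m)).trans (congrArg some (hg.reg.nat ι m))
  · rintro M O _ - ⟨x, m, rfl⟩ h
    obtain ⟨u, x', h2, h3, h4, h5⟩ := red_mem h
    rw [h5, hf _ x' h4, hf M x m, ← hi M _ x (Wt.nm_un h2) m]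
    exact (Cd.red_some (hg.reg _ (S.inv M _ x (Wt.nm_un h2) m) h4 h3)).symm
  · rintro M O _ hO ⟨x, m, rfl⟩ ⟨z, e, hz⟩
    obtain ⟨a, x', h0, h1, h2⟩ := hp M O x z hO m hz
      (Cd.lift_of_red ((congrArg _ (hf M x m)).symm.trans e))
    exact ⟨x', h1, (Γ.red_pt h0 h2 (S.nz _ x' h1)).symm⟩

lemma prim (Γ : Wt c) {M : Fld K} (O : Pl M) {x : c.X M} (h : Γ.nz x) :
    ∃ u, Γ.Ch u x ∧ Γ.Prim O (Γ.nm u x) x := by
  obtain ⟨κ, n, k1, k2⟩ := Γ.cvx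
  have := c.fin
  obtain ⟨u₀, hu, u0⟩ := Γ.nz_iff.1 h
  obtain ⟨⟨u, hA⟩, h2, h3⟩ := exists_scale O
    (x := fun u : {u // Γ.A u} => ∏ r, c.co x (u.1 r) ^ n u.1 r) fun e =>
      Finset.prod_ne_zero_iff.2 (fun r _ => pow_ne_zero _ (u0 r)) (congrFun e ⟨u₀, hu⟩)
  have hc : Γ.Ch u x := fun r => ⟨hA, fun z => Finset.prod_ne_zero_iff.1 h2 r (Finset.mem_univ r)
    (by rw [z, zero_pow ((k1 u hA).1 r).ne'])⟩
  have h0 := Wt.nm_un hc
  have p : ∀ w, Γ.A w → ∏ r, c.co (Γ.scl (Γ.nm u x) x) (w r) ^ n w r =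
      wt (Γ.nm u x) κ * ∏ r, c.co x (w r) ^ n w r := fun w hw => by
    simp only [Γ.co_scl, mul_pow, Finset.prod_mul_distrib, ← wt_nsmul, ← wt_sum h0, (k1 w hw).2]
  have e : wt (Γ.nm u x) κ = (∏ r, c.co x (u r) ^ n u r)⁻¹ := eq_inv_of_mul_eq_one_left (by
    rw [← p u hA]
    simp only [Wt.co_nm hc, one_pow, Finset.prod_const_one])
  refine ⟨u, hc, h0, fun i hi => ?_, u, hA, fun s => ?_⟩
  · obtain ⟨N, l, hN, hl, k3⟩ := k2 u i hA hi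
    have h4 : c.co (Γ.scl (Γ.nm u x) x) i ^ N ∈ O.O := by
      rw [k3 M _ (Wt.co_nm hc)]
      refine list_prod_mem fun y hy => ?_
      obtain ⟨w, hw, rfl⟩ := List.mem_map.1 hy
      rw [p w (hl w hw), e]
      exact h3 ⟨w, hl w hw⟩
    rw [← O.O.valuation_le_one_iff] at h4 ⊢
    rwa [map_pow, pow_le_one_iff hN.ne'] at h4
  · rw [Wt.co_nm hc, O.rd_one]
    exact one_ne_zero

end WBa

open WBa in
theorem WB_thm {K : Type} [Field K] [FW0 K] [WA K] : WB K where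
  mem {c Γ S j} θ L x h := ⟨(θ.supp _ _ h).1, S.sp_pt.1 (θ.supp _ _ h).2⟩
  low {c Γ P j m} θ L x h h' := by
    obtain ⟨L₀, κ, y₀, e, t⟩ := FA3.dm_iff.1 h
    cases y₀ with
    | none => exact nomatch e
    | some x₀ => exact FA3.low θ ⟨L₀, κ, Γ.pt x₀, congrArg Γ.pt (Option.some.inj e), t⟩ h'
  r_eq {c Γ P j} θ M O a x x' h0 e h := congrArg (θ.v O.res) (Γ.red_pt h0 e h)
  r_ne θ M O x h := by
    obtain ⟨u, x', h1, h3, h4, h5⟩ := red_mem (θ.supp _ _ h).2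
    exact ⟨u, x', h1, h3, h4, congrArg (θ.v O.res) h5⟩
  prim Γ M O x h := WBa.prim Γ O h
  ow_eq Γ M O a τ x k hO h1 h := by
    have e : ∃ a, Γ.Prim O a x := ⟨a, h⟩
    have h' := e.choose_spec
    rw [Wt.ow, dif_pos e]
    generalize e.choose = b at h' ⊢
    have e' : b * a⁻¹ * a = b := by rw [mul_assoc, h.un.inv_mul, mul_one]
    have h0 := h'.un.mul h.un.inv
    obtain ⟨a', h2, h3⟩ := Γ.unit_of_hom (R := .ofPl O) h0 (x := Γ.scl a x)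
      (fun i hi => ⟨h.int i hi, rfl⟩)
      (fun i hi => by rw [Γ.scl_scl, e']; exact ⟨h'.int i hi, rfl⟩) h.ne h'.ne
    have h4 := wt_rel h3 h2 k
    have h5 := (O.rd_ne_zero_iff h4.1).1 (h4.2 ▸ wt_ne h2 k)
    rw [← e', mul_wt, mul_assoc, Pl.ord_mul hO h5.1 (mul_ne_zero (wt_ne h.un k) h1),
      Pl.ord_eq_zero_of_mem h5.1 h4.1 h5.2, zero_add]
  pull {c d Γ Δ S T f} hf hp j θ := by
    obtain ⟨m, h1, h2⟩ := WA.mor hf
    exact ⟨θ.pull m (h2 hp), fun L x hx =>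
      (Fe.pull_of_mem _ _ _ (S.sp_pt.2 hx)).trans (congrArg (θ.v L) (h1 L x hx))⟩
  pullA {c d Γ S T g} hg hp j θ := by
    obtain ⟨m, h1, h2⟩ := WA.morA hg
    exact ⟨θ.pull m (h2 hp), fun L x hx =>
      (Fe.pull_of_mem _ _ _ (T.sp_some.2 hx)).trans (congrArg (θ.v L) (h1 L x))⟩
  pullB {c d Γ S T g} hg hi hp j θ := by
    obtain ⟨m, h1, h2⟩ := morB hg hi
    exact ⟨θ.pull m (h2 hp), fun L x hx =>
      (Fe.pull_of_mem _ _ _ (S.sp_pt.2 hx)).trans (congrArg (θ.v L) (h1 L x hx))⟩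
  lin s a θ := Fe.exists_sum s fun i => FC1A.smul (a i) (θ i)
  res U j θ h h' := ⟨⟨⟨θ.v, fun L y e => ⟨(θ.supp L y e).1, h' L y e⟩, θ.ext, θ.low⟩,
    fun M y f hM hy hf => θ.rat M y f hM (h M y hy) hf⟩, fun _ _ => rfl⟩
  ext {A P U} h j θ := by
    refine ⟨⟨⟨θ.v, fun L y e => ⟨(θ.supp L y e).1, h.sub L y (θ.supp L y e).2⟩, θ.ext, θ.low⟩,
      fun M y f hM hy hf => ?_⟩, fun _ _ => rfl⟩
    by_cases m : U.mem y
    · exact θ.rat M y f hM m hf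
    · have e : ∀ O : Dv M j, θ.v O.1.res (A.red O.1 y) = 0 := fun O =>
        not_not.1 fun e => m (h.gz M O.1 y O.2.1 hy (θ.supp _ _ e).2)
      simp [HasS, e]
  opn {c Γ S S'} h ho := by
    refine ⟨?_, ?_⟩
    · rintro L _ ⟨x, m, rfl⟩
      exact ⟨x, h L x m, rfl⟩
    · rintro M O _ - ⟨x, m, rfl⟩ h'
      obtain ⟨u, x', h2, h3, h4, -⟩ := red_mem h'
      exact ⟨_, ho M O _ x' (S.inv M _ x (Wt.nm_un h2) m) h4 h3, Γ.pt_scl (Wt.nm_un h2) x⟩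
  opnA h ho := by
    refine ⟨?_, ?_⟩
    · rintro L _ ⟨x, rfl, m⟩
      exact ⟨x, rfl, h L x m⟩
    · rintro M O _ - ⟨x, rfl, m⟩ ⟨x', e, m'⟩
      exact ⟨x, rfl, ho M O x x' m m' (Cd.lift_of_red e)⟩

end Pool.Agent.Lib.MP_557161_ag.HG.MC
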