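import Pool.Agent.Lib.MP_557161_ag.MC.StW
import Pool.Agent.Lib.MP_557161_ag.HG.YK

/-!
The intersection with the divisor of a homogeneous function on a quotient by a torus.
-/

namespace Pool.Agent.Lib.MP_557161_ag.HG.MC

open Pool.Agent.Lib.MP_557161_ag.DL

variable [Rk]

namespace WCa

variable {K : Type} [Field K] {c : Cd} {Γ : Wt c} {S T : QS K Γ} {k : Tr → ℤ}
  {s f : ∀ L : Fld K, c.X L → L} {L : Fld K}

/-- The part in a chart. -/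
def ch (S : QS K Γ) (u : Tr → c.ι) : QS K Γ :=
  S.sub (S.S.opn (fun _ x => Γ.Ch u x) fun _ _ _ _ _ _ _ e h => Γ.ch_lift e h) (fun _ _ m => m.1)
    fun L a x h0 m => ⟨S.inv L a x h0 m.1, (Γ.ch_scl h0).2 m.2⟩

/-- The function on classes. -/
noncomputable def dn (Γ : Wt c) (f : ∀ L : Fld K, c.X L → L) (L : Fld K) (E : (Γ.amb K).pt L) : L :=
  f L (Γ.pt_surj E).choose

lemma dn_eq (h : Hom T 0 f) {x : c.X L} (m : T.mem L x) : dn Γ f L (Γ.pt x) = f L x := by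
  obtain ⟨a, h0, e⟩ := (Γ.pt_eq (T.nz L x m)).1 (Γ.pt_surj (Γ.pt x)).choose_spec.symm
  rw [dn, e, h.hom L a x h0 m, wt_zero, one_mul]

lemma rfn (h : Hom T 0 f) {U : Sp (Γ.amb K)} (hU : ∀ (L : Fld K) (y : (Γ.amb K).pt L), U.mem y →
    T.sp.mem y) : RFn U (dn Γ f) where
  nat ι y m₀ := by
    obtain ⟨x, m, rfl⟩ := hU _ y m₀
    rw [dn_eq h m, Γ.map_pt, dn_eq h ((T.S.map_iff ι x).2 m)]
    exact h.reg.nat ι m
  cont {M} O y _ m₀ m₁ := by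
    obtain ⟨x, m, rfl⟩ := hU _ y m₀
    obtain ⟨z, m', e⟩ := hU _ _ m₁
    obtain ⟨u, x', h1, h2, -, h3⟩ := Γ.qred_nz e.symm (T.nz _ z m')
    have h4 := T.mem_of_pt m' h3.symm
    have h5 := h.reg _ (T.inv M _ x (Wt.nm_un h1) m) h4 h2
    replace h5 : (Rel.ofPl O).r (f M _) (f _ x') := h5
    rw [h.hom M _ x (Wt.nm_un h1) m, wt_zero, one_mul] at h5
    rw [← e, ← h3, dn_eq h m, dn_eq h h4]
    exact h5

lemma hom_t (S : QS K Γ) (k : Tr → ℤ) (u u' : Tr → c.ι) :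
    Hom (ch (ch S u) u') 0 fun _ x => wt (Γ.nm u x) k / wt (Γ.nm u' x) k where
  reg _ _ _ _ _ _ m' e := Rel.div (wt_rel (Γ.nm_rel e m'.1.2) (Wt.nm_un m'.1.2) k)
    (wt_rel (Γ.nm_rel e m'.2) (Wt.nm_un m'.2) k) (wt_ne (Wt.nm_un m'.2) k)
  hom _ a x h0 m := by
    rw [wt_zero, one_mul, ← Wt.nm_scl h0 m.1.2, ← Wt.nm_scl h0 m.2, mul_wt, mul_wt,
      mul_div_mul_right _ _ (wt_ne h0 k)]

lemma hom_s (h : Hom S k s) (u : Tr → c.ι) :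
    Hom (ch S u) 0 fun L x => wt (Γ.nm u x) k * s L x where
  reg _ _ R _ _ m m' e := R.mul (wt_rel (Γ.nm_rel e m'.2) (Wt.nm_un m'.2) k) (h.reg R m.1 m'.1 e)
  hom L a x h0 m := by
    rw [wt_zero, one_mul, h.hom L a x h0 m.1, ← mul_assoc, ← mul_wt, Wt.nm_scl h0 m.2]

lemma two {u u' : Tr → c.ι} {y : (Γ.amb K).pt L} (m : (ch S u).sp.mem y)
    (m' : (ch S u').sp.mem y) : ∃ x, (ch (ch S u) u').mem L x ∧ Γ.pt x = y := by
  obtain ⟨x, m, rfl⟩ := m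
  exact ⟨x, ⟨m, ((ch S u').sp_pt.1 m').2⟩, rfl⟩

/-- The line bundle of the functions of weight `k`. -/
noncomputable def car [WB K] (h : Hom S k s) : Car S.sp (S.zer h).sp where
  ι := Tr → c.ι
  fin := inferInstance
  U u := (ch S u).sp
  opn _ := WB.opn (fun _ _ m => m.1) fun _ _ _ _ m m' e => ⟨m, Γ.ch_lift e m'.2⟩
  cov := by
    rintro L _ ⟨x, m, rfl⟩
    exact (S.nz L x m).imp fun u hu => ⟨x, ⟨m, hu⟩, rfl⟩
  t u u' := dn Γ fun _ x => wt (Γ.nm u x) k / wt (Γ.nm u' x) k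
  s u := dn Γ fun L x => wt (Γ.nm u x) k * s L x
  rt u u' := rfn (hom_t S k u u') fun _ _ m => two m.1 m.2
  rs u := rfn (hom_s h u) fun _ _ m => m
  t_ne u u' L y m₀ m' := by
    obtain ⟨x, m, rfl⟩ := two m₀ m'
    rw [dn_eq (hom_t S k u u') m]
    exact div_ne_zero (wt_ne (Wt.nm_un m.1.2) k) (wt_ne (Wt.nm_un m.2) k)
  coc u u' u'' L y m₀ m' m'' := by
    obtain ⟨x, m, rfl⟩ := two m₀ m'
    have n := (ch S u'').sp_pt.1 m''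
    rw [dn_eq (hom_t S k u u') m, dn_eq (hom_t S k u' u'') ⟨⟨m.1.1, m.2⟩, n.2⟩,
      dn_eq (hom_t S k u u'') ⟨m.1, n.2⟩, div_mul_div_cancel₀ (wt_ne (Wt.nm_un m.2) k)]
  s_eq u u' L y m₀ m' := by
    obtain ⟨x, m, rfl⟩ := two m₀ m'
    rw [dn_eq (hom_t S k u u') m, dn_eq (hom_s h u) m.1, dn_eq (hom_s h u') ⟨m.1.1, m.2⟩,
      ← mul_assoc, div_mul_cancel₀ _ (wt_ne (Wt.nm_un m.2) k)]
  sub _ _ := fun ⟨x, m, e⟩ => ⟨x, m.1, e⟩
  zero u L y m := by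
    obtain ⟨x, m, rfl⟩ := m
    rw [dn_eq (hom_s h u) m, QS.sp_pt, mul_eq_zero, or_iff_right (wt_ne (Wt.nm_un m.2) k)]
    exact (and_iff_right m.1).symm

end WCa

open WCa YKp in
theorem WC_thm {K : Type} [Field K] [FW0 K] [WA K] [WB K] : WC K where
  cart {c Γ S k s} h j φ := by
    obtain ⟨ψ, hψ⟩ := FB4.cart (WA.atl S) (car h) φ
    refine ⟨ψ, fun M x τ g m τ0 e => ?_⟩
    have hs : (car h).Sec (Γ.pt x) fun u => wt (Γ.nm u x) k * τ := by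
      refine ⟨fun u n => mul_ne_zero (wt_ne (Wt.nm_un ((ch S u).sp_pt.1 n).2) k) τ0,
        fun u u' n n' => ?_, fun n u n' => ?_⟩
      · have n1 := (ch S u').sp_pt.1 n'
        refine Eq.trans ?_ (congrArg (· * _)
          (dn_eq (hom_t S k u u') ⟨(ch S u).sp_pt.1 n, n1.2⟩).symm)
        rw [← mul_assoc, div_mul_cancel₀ _ (wt_ne (Wt.nm_un n1.2) k)]
      · rw [e fun e => n ((S.zer h).sp_pt.2 ⟨m, e⟩)]
        exact (dn_eq (hom_s h u) ((ch S u).sp_pt.1 n')).symm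
    have := hψ M (Γ.pt x) _ g (S.sp_pt.2 m) hs
    refine (congrArg (HasS · _) (funext fun O : Dv M j => ?_)).mp this
    by_cases n : φ.mr O.1 x = 0
    · exact (mul_eq_zero_of_right _ n).trans (mul_eq_zero_of_right _ n).symm
    obtain ⟨u, x', h1, h2, h3, -⟩ := WB.r_ne φ.toPre n
    have h4 := (c.lift_iff _ _ _).1 h2
    have h5 : ∀ r, c.co x' (u r) = 1 := fun r =>
      (Rel.eq (h4 (u r)) (Rel.ofPl O.1).one (Wt.co_nm h1 r))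
    have h6 : Γ.Ch u x' := fun r => ⟨(h1 r).1, h5 r ▸ one_ne_zero⟩
    rw [FB4.ord_eq (car h) (i := u) O.2.1 (S.sp_pt.2 m) hs
      ⟨x', ⟨h3.1, h6⟩, (Γ.red_pt (Wt.nm_un h1) h2 ⟨u, h6⟩).symm⟩,
      WB.ow_eq Γ k O.2.1 τ0 ⟨Wt.nm_un h1, fun i _ => (h4 i).1,
        u, (h1 0).1, fun r => (h4 (u r)).2.trans_ne (h6 r).2⟩]
  kills {c Γ S k s j D φ ψ} h q hq hs hk L L₁ L₂ ι₁ ι₂ w k1 k2 k3 := by
    classical
    by_contra h0
    obtain ⟨g, m⟩ := WB.mem ψ h0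
    obtain ⟨t, t0, ht⟩ : ∃ t, ι₁ t ≠ 0 ∧ (s L w ≠ 0 → ι₁ t = s L w) := by
      obtain ⟨t, ht⟩ := hs L ι₁.fieldRange w m k1
      by_cases e : s L w = 0
      exacts [⟨1, by simp, fun n => (n e).elim⟩, ⟨t, ht ▸ e, fun _ => ht⟩]
    have nm : ∀ {u : Tr → c.ι}, Γ.Ch u w → ∀ r, Γ.nm u w r ∈ ι₁.fieldRange := fun hu =>
      Γ.nm_mem fun r => k1 _ (hq.of_P (hu r).1)
    have sc : ∀ {u : Tr → c.ι}, Γ.Ch u w → ∀ l, q l →
        c.co (Γ.scl (Γ.nm u w) w) l ∈ ι₁.fieldRange := fun hu l hl => by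
      rw [Γ.co_scl]
      exact mul_mem (wt_mem (nm hu) _) (k1 l hl)
    refine h0 (hasS_zero (h L w _ g m t0 ht) fun O => ?_)
    by_cases hO : Pl.Triv ι₁ O.1
    · obtain ⟨u, hu⟩ := S.nz L w m
      obtain ⟨b, hb⟩ := wt_mem (nm hu) k
      have b0 := wt_ne (Wt.nm_un hu) k
      have e : wt (Γ.nm u w) k * ι₁ t = ι₁ (b * t) := by rw [map_mul, ← hb]; rfl
      rw [WB.ow_eq Γ k O.2.1 t0 ⟨Wt.nm_un hu, fun i hi =>
        (sc hu i (hq.of_H hi)).elim fun a ha => ha ▸ hO a, u, (hu 0).1, fun r => by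
          rw [Wt.co_nm hu, O.1.rd_one]; exact one_ne_zero⟩, e,
        Pl.ord_eq_zero_of_mem (e ▸ mul_ne_zero b0 t0) (hO _) (map_inv₀ ι₁ (b * t) ▸ hO _)]
      simp
    · refine mul_eq_zero_of_right _ (by_contra fun n => n ?_)
      obtain ⟨u, x', hu, e, -, e'⟩ := WB.r_ne φ n
      obtain ⟨L₃, ι₃, k4, k5, k6⟩ := Spl.red (w := Γ.scl (Γ.nm u w) w) ⟨L₂, ι₂, sc hu,
        fun l hl => by simpa only [Γ.co_scl, (hq l hl).1, wt_zero, one_mul] using k2 l hl, k3⟩ hO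
      rw [e', ← ((Cd.lift_pl O.1).1 e).2]
      exact hk _ _ _ _ ι₃ _ k4 k5 k6

end Pool.Agent.Lib.MP_557161_ag.HG.MC
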