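import Pool.Agent.Lib.MP_557161_ag.MC.StW

/-!
Connected families of automorphisms of a quotient by a torus act trivially on functionals.
-/

namespace Pool.Agent.Lib.MP_557161_ag.HG.MC

open Pool.Agent.Lib.MP_557161_ag.DL

variable [Rk] {K : Type} [Field K]

namespace WNa

variable {c : Cd} {Γ : Wt c} {S : QS K Γ} {Ω : ASp K .one}
  {γ : ∀ L : Fld K, (Cd.one.prod c).X L → c.X L}

/-- The map on classes. -/
noncomputable def fm (Γ : Wt c) (γ : ∀ L : Fld K, (Cd.one.prod c).X L → c.X L) {L : Fld K}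
    (y : ((Cd.one.amb K).prod (Γ.amb K)).pt L) : (Γ.amb K).pt L :=
  Γ.pt (γ L (Option.getD y.1 0, (Γ.pt_surj y.2).choose))

lemma fm_pt (he : ∀ (L : Fld K) (t : L) (a : Tr → L) x, Un a → Ω.mem L t → S.mem L x →
      γ L (t, Γ.scl a x) = Γ.scl a (γ L (t, x))) {L : Fld K} {t : L} {x : c.X L} (ht : Ω.mem L t)
    (hx : S.mem L x) : fm Γ γ (L := L) (some t, Γ.pt x) = Γ.pt (γ L (t, x)) := by
  obtain ⟨a, h0, e⟩ := (Γ.pt_eq (S.nz L x hx)).1 (Γ.pt_surj (Γ.pt x)).choose_spec.symm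
  show Γ.pt (γ L (t, (Γ.pt_surj (Γ.pt x)).choose)) = _
  rw [e, he L t a x h0 ht hx, Γ.pt_scl h0]

/-- The family as a morphism. -/
noncomputable def fam (h : Mp (Ω.prod S.S) S.S γ)
    (he : ∀ (L : Fld K) (t : L) (a : Tr → L) x, Un a → Ω.mem L t → S.mem L x →
      γ L (t, Γ.scl a x) = Γ.scl a (γ L (t, x))) : Mor (Ω.sp.prod S.sp) S.sp where
  f y := fm Γ γ y
  mem := by
    rintro L ⟨_, _⟩ ⟨⟨t, rfl, ht⟩, ⟨x, hx, rfl⟩⟩
    exact ⟨_, h.mem L (t, x) ⟨ht, hx⟩, (fm_pt he ht hx).symm⟩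
  nat := by
    rintro L L' ι ⟨_, _⟩ ⟨⟨t, rfl, ht⟩, ⟨x, hx, rfl⟩⟩
    rw [fm_pt he ht hx, Γ.map_pt, ← h.reg.nat ι (x := (t, x)) ⟨ht, hx⟩]
    exact fm_pt he ((Ω.map_iff ι t).2 ht) ((S.S.map_iff ι x).2 hx)
  cont := by
    rintro M O ⟨_, _⟩ - ⟨⟨t, rfl, ht⟩, ⟨x, hx, rfl⟩⟩ ⟨⟨t', e, ht'⟩, ⟨y, hy, e'⟩⟩
    obtain ⟨u, x', hu, l, -, e2⟩ := Γ.qred_nz e'.symm (S.nz _ y hy)
    have hx' : S.mem _ x' := S.mem_of_pt hy e2.symm
    have h0 := Wt.nm_un hu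
    have l' := h.reg (Rel.ofPl O) (x := (t, Γ.scl (Γ.nm u x) x)) (x' := (t', x'))
      ⟨ht, S.inv _ _ x h0 hx⟩ ⟨ht', hx'⟩ ⟨Cd.lift_of_red (c := .one) e, l⟩
    rw [he M t _ x h0 ht hx] at l'
    rw [fm_pt he ht hx, Γ.red_pt h0 l' (S.nz _ _ (h.mem _ (t', x') ⟨ht', hx'⟩)), ← fm_pt he ht' hx']
    exact congrArg (fm Γ γ) (Prod.ext e (e'.symm.trans e2.symm))

/-- A family acting on the first factor of a product. -/
def ext {A B C : Amb K} {T : Sp C} {P : Sp A} (Z : Sp B) (m : Mor (T.prod P) P) :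
    Mor (T.prod (P.prod Z)) (P.prod Z) where
  f y := (m.f (y.1, y.2.1), y.2.2)
  mem y h := ⟨m.mem (y.1, y.2.1) ⟨h.1, h.2.1⟩, h.2.2⟩
  nat ι y h := Prod.ext (m.nat ι (y.1, y.2.1) ⟨h.1, h.2.1⟩) rfl
  cont O y hO h h' := Prod.ext (m.cont O (y.1, y.2.1) hO ⟨h.1, h.2.1⟩ ⟨h'.1, h'.2.1⟩) rfl

end WNa

theorem WN_thm [FW0 K] : WN K where
  conn {c Γ S B} Z Ω γ δ hγ hδ he hi hT a b ha hb := by
    have e1 := fun L t a x h0 ht hx => (he L t a x h0 ht hx).1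
    have e2 := fun L t a x h0 ht hx => (he L t a x h0 ht hx).2
    have hm : ∀ (L : Fld K) (s : K), Ω.mem (.base K) s → Ω.mem L (algebraMap K L s) :=
      fun L s hs => (Ω.map_iff (M := .base K) (Algebra.ofId K L) s).2 hs
    have key : ∀ (L : Fld K) (t : L) (y : (Γ.amb K).pt L), Ω.mem L t → S.sp.mem y →
        (WNa.fam hδ e2).f (L := L) (some t, (WNa.fam hγ e1).f (L := L) (some t, y)) = y := by
      rintro L t _ ht ⟨x, hx, rfl⟩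
      show WNa.fm Γ δ (L := L) (some t, WNa.fm Γ γ (L := L) (some t, Γ.pt x)) = _
      rw [WNa.fm_pt e1 ht hx, WNa.fm_pt e2 ht (hγ.mem L (t, x) ⟨ht, hx⟩), hi L t x ht hx]
    refine ⟨fun φ L x z hx hz => ?_, fun φ L x hx => ?_⟩
    · have := FB5.conn Ω (WNa.ext Z (WNa.fam hγ e1)) (WNa.ext Z (WNa.fam hδ e2))
        (fun L t y ht hy => Prod.ext (key L t y.1 ht hy.1) rfl) hT a b ha hb φ L (Γ.pt x, z)
        ⟨S.sp_pt.2 hx, hz⟩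
      rw [← WNa.fm_pt e1 (hm L a ha) hx, ← WNa.fm_pt e1 (hm L b hb) hx]
      exact this
    · have := FB5.conn Ω (WNa.fam hγ e1) (WNa.fam hδ e2) key hT a b ha hb φ L (Γ.pt x)
        (S.sp_pt.2 hx)
      show φ.v L (Γ.pt _) = φ.v L (Γ.pt _)
      rw [← WNa.fm_pt e1 (hm L a ha) hx, ← WNa.fm_pt e1 (hm L b hb) hx]
      exact this

end Pool.Agent.Lib.MP_557161_ag.HG.MC
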