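import Pool.Agent.Lib.MP_557161_ag.MC.StY

/-! The gradients of the equations are independent. -/

namespace Pool.Agent.Lib.MP_557161_ag.HG.MC

open Pool.Agent.Lib.MP_557161_ag.DL MvPolynomial Matrix

variable [Rk]

namespace X0a

lemma eul {K L : Type} [CommRing K] [CommRing L] [Algebra K L] (a : Ry → ℕ) (w : Vr → L) (r : Ry) :
    w (some r) * aeval w (pderiv (some r) (mon a (X : Vr → MvPolynomial Vr K))) =
      a r * mon a w := by
  have e : mon a (X : Vr → MvPolynomial Vr K) =
      monomial (Finsupp.equivFunOnFinite.symm fun l : Vr => l.elim 0 a) 1 := by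
    rw [monomial_eq, Finsupp.prod_fintype _ _ (by simp), Fintype.prod_option]
    simp [mon]
  have h := congrArg (aeval w) (X_mul_pderiv_monomial (R := K) (i := some r)
    (m := Finsupp.equivFunOnFinite.symm fun l : Vr => l.elim 0 a) (r := 1))
  rw [← e, map_mul, aeval_X, map_nsmul, map_mon (aeval (R := K) w)] at h
  simpa only [aeval_X, nsmul_eq_mul, Finsupp.equivFunOnFinite_symm_apply_apply, Option.elim_some]
    using h

omit [Rk] in
lemma core {L : Type} [Field L] {D : ℕ} {lam : L} {M : Sd D → L} (two : (2 : L) ≠ 0)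
    (ch : ((D + 1 : ℕ) : L) ≠ 0) (disc : lam ^ (D + 1) ≠ (-((D + 1 : ℕ) : L)) ^ (D + 1))
    (h0 : ∑ s, cfs lam s * M s = 0) (h1 : ∀ l, ∑ s, (sp D s l : L) * (cfs lam s * M s) = 0)
    (h2 : ∏ i, M (some (some i)) = M (some none) ^ (D + 1)) (s : Sd D) : M s = 0 := by
  have z : M none = 0 := by
    have e : ∀ i, ev D i none = 0 := fun i => by cases i using Fin.cases <;> simp [ev]
    simpa [Fintype.sum_option, sp, cfs, e, two] using h1 none
  have a : ∀ i, M (some (some i)) = M (some (some 0)) := fun i => by
    cases i using Fin.cases with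
    | zero => rfl
    | succ l =>
      have := h1 (some l)
      simp [Fintype.sum_option, Fin.sum_univ_succ, sp, cfs, ev, Pi.single_apply] at this
      linear_combination -this
  have b : lam * M (some none) = -((D + 1 : ℕ) : L) * M (some (some 0)) := by
    simp only [Fintype.sum_option, cfs, Option.elim, z, a, Finset.sum_const, Finset.card_univ,
      Fintype.card_fin, nsmul_eq_mul] at h0
    linear_combination -h0
  have c : M (some none) = 0 := by
    simp only [a, Finset.prod_const, Finset.card_univ, Fintype.card_fin] at h2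
    have := congrArg (· ^ (D + 1)) b
    simp only [mul_pow, h2] at this
    exact pow_eq_zero_iff (Nat.succ_ne_zero D) |>.1
      ((mul_eq_mul_right_iff.1 this).resolve_left disc)
  rcases s with _ | _ | i
  · exact z
  · exact c
  · rw [c, mul_zero] at b
    rw [a, (mul_eq_zero.1 b.symm).resolve_left (neg_ne_zero.2 ch)]

end X0a

theorem X0_thm [X3] [XU] {K : Type} [Field K] : X0 K where
  sm G L w h := by
    by_contra hn
    simp only [not_exists, not_not] at hn
    have cf : ∀ s : Sd (2 * dd), algebraMap K L (cfs G.lam s) = cfs (algebraMap K L G.lam) s := by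
      rintro (_ | _ | _) <;> simp [cfs]
    have h0 : ∑ s, cfs (algebraMap K L G.lam) s * G.ms s L w = 0 := by
      simpa only [cf, GD.ms] using (eqs1 _ _ w).symm.trans (h.2 1)
    have h1 : ∀ r, ∑ s, (G.ea r s : L) * (cfs (algebraMap K L G.lam) s * G.ms s L w) = 0 :=
      fun r => by
      have e : G.row L w 1 (some r) = 0 := by
        simpa [TW.P2.mnr, GD.row, eqs, pderiv_X] using hn none (some r)
      have e' := congrArg (w (some r) * ·) e
      simp only [GD.row, eqs, Matrix.cons_val_one, Matrix.cons_val_zero, map_sum, pderiv_C_mul,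
        map_mul, aeval_C, cf, mul_zero, Finset.mul_sum] at e'
      rw [← e']
      exact Finset.sum_congr rfl fun s _ => by
        rw [mul_left_comm, mul_left_comm (w _), X0a.eul]
        rfl
    have h2 := X3.span G.toTD (fun l => ∑ s, (sp _ s l : L) *
        (cfs (algebraMap K L G.lam) s * G.ms s L w)) fun j => by
      have e := h1 (.inr j)
      simp only [← Int.cast_natCast (R := L), G.ea_eq, Int.cast_sub, sub_mul,
        Finset.sum_sub_distrib, ← Finset.mul_sum, h0, mul_zero, sub_zero] at e
      simp only [Finset.mul_sum]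
      rw [Finset.sum_comm, ← e]
      refine Finset.sum_congr rfl fun s _ => ?_
      simp only [dotProduct, Int.cast_sum, Int.cast_mul, Finset.sum_mul, mul_assoc]
    obtain ⟨v, hv⟩ := (XU.ch G.toTD).1 h.1
    obtain ⟨s, hs⟩ := X3.vtx G.toTD v
    have n : ∏ r, w (some r) ^ G.ea r s ≠ 0 := Finset.prod_ne_zero_iff.2 fun r _ => by
      by_cases k : r ∈ Set.range (G.c v)
      · obtain ⟨j, rfl⟩ := k
        simp only [hs, pow_zero]
        exact one_ne_zero
      · exact pow_ne_zero _ (hv r k)
    refine n (X0a.core (M := fun s => G.ms s L w) ?_ ?_ ?_ h0 (congrFun h2) ?_ s)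
    · simpa only [map_ofNat] using (map_ne_zero (algebraMap K L)).2 G.two
    · simpa only [map_natCast] using (map_ne_zero (algebraMap K L)).2 G.ch
    · simpa only [map_natCast, map_pow, map_neg] using (algebraMap K L).injective.ne G.disc
    · simp only [GD.ms, mon]
      rw [Finset.prod_comm, ← Finset.prod_pow]
      exact Finset.prod_congr rfl fun r _ => by
        rw [Finset.prod_pow_eq_pow_sum, X3.rel G.toTD r, mul_comm, pow_mul]

end Pool.Agent.Lib.MP_557161_ag.HG.MC
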