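import Pool.Agent.Lib.MP_557161_ag.MC.StY

/-!
The involution of the compactification and the actions on the boundary.
-/

namespace Pool.Agent.Lib.MP_557161_ag.HG.MC

open Pool.Agent.Lib.MP_557161_ag.DL MvPolynomial Matrix

variable [Rk] {K : Type} [Field K]

namespace X2a

omit [Rk] in
lemma neg_even {L : Type} [Field L] {a b : ℤ} (h : Even (a - b)) : (-1 : L) ^ a = (-1) ^ b := by
  rw [← sub_add_cancel a b, zpow_add₀ (neg_ne_zero.2 one_ne_zero), h.neg_one_zpow, one_mul]

omit [Rk] in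
lemma ev_none (D : ℕ) (i : Fin (D + 1)) : ev D i none = 0 := by
  cases i using Fin.cases <;> simp [ev]

omit [Rk] in
lemma eta_ev {D : ℕ} {i l : Fin (D + 1)} (h : l ≠ i) : eta D i ⬝ᵥ ev D l = 2 := by
  cases l using Fin.cases with
  | zero =>
    obtain ⟨i, rfl⟩ := Fin.exists_succ_eq.2 h.symm
    have e : ∀ l : Fin D, (if l = i then -2 * (D : ℤ) else 2) =
        2 + if l = i then -2 * (D : ℤ) - 2 else 0 := fun l => by split_ifs <;> ring
    simp only [dotProduct, Fintype.sum_option, eta, ev, Fin.cases_zero, Option.elim, Fin.succ_inj,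
      e, mul_zero, zero_add, mul_neg, mul_one, Finset.sum_neg_distrib, Finset.sum_add_distrib,
      Finset.sum_ite_eq', Finset.mem_univ, if_true, Finset.sum_const, Finset.card_univ,
      Fintype.card_fin, nsmul_eq_mul]
    ring
  | succ l => simp [ev, eta, h]

section
variable {L : Type} [Field L] (g : Vr → ℤ) (τ : L) (w : Vr → L)

lemma one : gam g 1 w = w := funext fun l => by simp [gam]

lemma mul (τ' : L) : gam g τ (gam g τ' w) = gam g (τ * τ') w :=
  funext fun l => by simp only [gam, mul_zpow, mul_assoc]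

lemma ss (ε : Bool) : sw ε (sw ε w) = w := by
  cases ε
  · rfl
  · exact (mul gz (-1) w (-1)).trans (by rw [neg_mul_neg, one_mul, one])

variable {τ} in
lemma prod_gam (h : τ ≠ 0) (k : Ry → ℤ) : ∏ r, gam g τ w (some r) ^ k r =
    τ ^ (∑ r, g (some r) * k r) * ∏ r, w (some r) ^ k r := by
  simp only [gam, mul_zpow, Finset.prod_mul_distrib, ← _root_.zpow_mul, prod_zpow_sum h]

lemma sum_gz (k : Ry → ℤ) : ∑ r, gz (some r) * k r = k (.inr none) := by
  simp [gz, Fintype.sum_sum_type, Fintype.sum_option]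

end

variable {G : GD K} {M L : Fld K} {τ : L} {w : Vr → L} {g : Vr → ℤ}

lemma scl (g : Vr → ℤ) (τ : L) (a : Tr → L) (w : Vr → L) :
    gam g τ (G.Γ.scl a w) = G.Γ.scl a (gam g τ w) :=
  funext fun _ => mul_left_comm _ _ _

lemma rel (R : Rel M L) (g : Vr → ℤ) {σ : M} {v : Vr → M} (h : R.r σ τ) (h0 : τ ≠ 0)
    (e : cw.lift R.r v w) : cw.lift R.r (gam g σ v) (gam g τ w) :=
  fun l => R.mul (Rel.zpow h h0 _) (e l)

lemma nz (h : τ ≠ 0) (m : G.Γ.nz w) : G.Γ.nz (gam g τ w) :=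
  m.imp fun _ hu s => ⟨(hu s).1, mul_ne_zero (zpow_ne_zero _ h) (hu s).2⟩

lemma ms (h : τ ≠ 0) (g : Vr → ℤ) (w : Vr → L) (s : Sd (2 * dd)) :
    G.ms s L (gam g τ w) = τ ^ (∑ r, g (some r) * G.ea r s) * G.ms s L w := by
  simpa only [GD.ms, mon, _root_.zpow_natCast] using prod_gam g w h fun r => (G.ea r s : ℤ)

lemma cng (h : τ ≠ 0) (m : G.Cn L w) (n : ℤ)
    (e : ∀ s, G.ms s L (gam g τ w) = τ ^ n * G.ms s L w) : G.Cn L (gam g τ w) := by
  have h0 := m.2 0
  have h1 := m.2 1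
  rw [eqs0] at h0
  rw [eqs1] at h1
  refine ⟨nz h m.1, Fin.forall_fin_two.2 ⟨?_, ?_⟩⟩
  · rw [eqs0, gam, h0, mul_zero]
  · rw [eqs1]
    refine (Finset.sum_congr rfl fun s _ => (congrArg (_ * ·) (e s)).trans
      (mul_left_comm _ _ _)).trans ?_
    rw [← Finset.mul_sum]
    exact mul_eq_zero_of_right _ h1

lemma sum_gx (i : Fin (2 * dd + 1)) (s : Sd (2 * dd)) : ∑ r, G.gx i (some r) * G.ea r s =
    eta _ i ⬝ᵥ sp _ s - ∑ j, (eta _ i ⬝ᵥ G.e G.v0 j) * G.ψ (.inr j) := by
  have := G.expand G.v0 (eta _ i) (sp _ s)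
  rw [G.base] at this
  simp only [Fintype.sum_sum_type, GD.gx, Option.elim, Sum.elim_inl, Sum.elim_inr, zero_mul,
    Finset.sum_const_zero, zero_add, G.ea_eq, mul_sub, Finset.sum_sub_distrib, this]

variable [X3]

lemma pm (w : Vr → L) : ∏ i, G.ms (some (some i)) L w = G.bd L w ^ (2 * dd + 1) := by
  simp only [GD.bd, GD.ms, mon]
  rw [Finset.prod_comm, ← Finset.prod_pow]
  exact Finset.prod_congr rfl fun r _ => by
    rw [Finset.prod_pow_eq_pow_sum, X3.rel G.toTD r, mul_comm, pow_mul]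

lemma msw (ε : Bool) (w : Vr → L) (s : Sd (2 * dd)) : G.ms s L (sw ε w) = G.ms s L w := by
  cases ε
  · rfl
  · have e : Even ((G.ea (.inr none) s : ℤ) - 0) := by
      rw [G.ea_eq, (X3.z G.toTD).1, (X3.z G.toTD).2.1, single_dotProduct]
      rcases s with _ | _ | i <;> simp [sp, ev_none]
    rw [sw, cond_true, ms (neg_ne_zero.2 one_ne_zero), sum_gz fun r => (G.ea r s : ℤ), neg_even e,
      zpow_zero, one_mul]

lemma swn (ε : Bool) (m : G.Cn L w) : G.Cn L (sw ε w) := by
  cases ε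
  exacts [m, cng (neg_ne_zero.2 one_ne_zero) m 0 fun s => by
    rw [zpow_zero, one_mul]; exact msw true w s]

lemma swo (ε : Bool) (m : G.Co L w) : G.Co L (sw ε w) :=
  ⟨swn ε m.1, (msw ε w _).trans_ne m.2⟩

lemma lm (w : Vr → L) (k : Jx → ℤ) : G.lm (gam gz (-1) w) k = (-1) ^ k none * G.lm w k := by
  rw [GD.lm, prod_gam _ _ (neg_ne_zero.2 one_ne_zero), sum_gz fun r => G.ρ r ⬝ᵥ k,
    (X3.z G.toTD).1, single_dotProduct, one_mul, GD.lm]

end X2a

open X2a

theorem X2_thm [X3] : X2 K where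
  gam_one g w := one g w
  gam_gam g τ τ' w := mul g τ w τ'
  gam_scl _ _ := scl
  gam_rel R g _ _ _ _ := rel R g
  gam_ms G L g τ w s h := by rw [ms h, mul_eq_zero, or_iff_right (zpow_ne_zero _ h)]
  gam_neg G L i w := by
    funext l
    refine congrArg (· * w l) (neg_even ?_)
    rcases l with _ | r | j
    · simp [GD.gx, gz]
    · simp [GD.gx, gz]
    · have e : gz (some (.inr j)) = G.e G.v0 j none := by
        rw [(X3.z G.toTD).2.2]
        cases j <;> simp [gz]
      rw [e]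
      simp only [GD.gx, Option.elim, Sum.elim_inr, dotProduct, Fintype.sum_option, eta, one_mul,
        add_sub_cancel_left]
      refine Finset.even_sum _ fun l _ => Even.mul_right ?_ _
      split_ifs
      exacts [(even_two.neg).mul_right _, even_two]
  gam_bi {G L i τ w} h m := by
    have h0 : G.ms (some none) L w = 0 := by
      refine pow_eq_zero_iff (n := 2 * dd + 1) (by omega) |>.1 ((pm w).symm.trans ?_)
      exact Finset.prod_eq_zero (Finset.mem_univ i) m.2
    refine ⟨cng h m.1 (2 - ∑ j, (eta _ i ⬝ᵥ G.e G.v0 j) * G.ψ (.inr j)) fun s => ?_,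
      (ms h _ w _).trans (mul_eq_zero_of_right _ m.2)⟩
    rw [ms h, sum_gx]
    rcases s with _ | _ | l
    · simp [sp, eta]
    · rw [h0, mul_zero, mul_zero]
    · by_cases e : l = i
      · have h1 : G.ms (some (some l)) L w = 0 := e ▸ m.2
        rw [h1, mul_zero, mul_zero]
      · exact congrArg (fun n : ℤ => τ ^ (n - _) * _) (eta_ev e)
  cov {G L w} := by
    constructor
    · intro m
      have h : ∏ i, G.ms (some (some i)) L w = 0 :=
        (pm w).trans ((pow_eq_zero_iff (by omega)).2 m.2)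
      obtain ⟨i, -, hi⟩ := Finset.prod_eq_zero_iff.1 h
      exact ⟨i, m.1, hi⟩
    · rintro ⟨i, m⟩
      refine ⟨m.1, pow_eq_zero_iff (n := 2 * dd + 1) (by omega) |>.1 ((pm w).symm.trans ?_)⟩
      exact Finset.prod_eq_zero (Finset.mem_univ i) m.2
  sw_sw ε w := ss w ε
  sw_scl _ _ ε a w := by
    cases ε
    exacts [rfl, scl _ _ a w]
  sw_rel R ε _ _ e := by
    cases ε
    exacts [e, rel R _ (Rel.neg R.one) (neg_ne_zero.2 one_ne_zero) e]
  sw_map α ε w := by
    cases ε
    · rfl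
    · funext l
      show α (_ * _) = _ * α _
      rw [map_mul, map_zpow₀, map_neg, map_one]
  sw_cn ε w := ⟨fun m => ss w ε ▸ swn ε m, swn ε⟩
  sw_co ε w := ⟨fun m => ss w ε ▸ swo ε m, swo ε⟩
  sec_sg G L ε A := by
    cases ε
    · rfl
    · funext l
      rcases l with _ | r | _ | j <;> simp [GD.sec, sg, sw, ngz, gam, gz]
  pr_sw G L ε w := by
    cases ε
    · rfl
    · simp only [GD.pr, sw, sg, ngz, cond_true, lm, ev_none, zpow_zero, one_mul,
        Pi.single_eq_same, zpow_one, neg_mul]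
  sg_sg ε L A := by
    cases ε
    exacts [rfl, Prod.ext rfl (neg_neg _)]
  sg_uu {G L} ε A := by
    cases ε
    · rfl
    · simp [GD.UU_iff, sg, ngz]
  sg_rel R ε _ _ e := by
    cases ε
    exacts [e, ⟨e.1, Rel.neg e.2⟩]
  sg_map α ε A := by
    cases ε
    exacts [rfl, Prod.ext rfl (map_neg α _)]

end Pool.Agent.Lib.MP_557161_ag.HG.MC
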