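import Pool.Agent.Lib.MP_557161_ag.MC.StY

/-!
The rays of the fan.
-/

namespace Pool.Agent.Lib.MP_557161_ag.HG.MC

open Pool.Agent.Lib.MP_557161_ag.DL Matrix

namespace X3a

lemma sum_ev (D : ℕ) : ∑ i, ev D i = 0 := by
  funext l
  rw [Finset.sum_apply, Fin.sum_univ_succ]
  cases l with
  | none => simp [ev]
  | some l => simp [ev, Pi.single_apply]

lemma ev_none (D : ℕ) (i : Fin (D + 1)) : ev D i none = 0 := by
  induction i using Fin.cases with
  | zero => rfl
  | succ i => simp [ev]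

lemma ev_succ (D : ℕ) (i : Fin D) : ev D i.succ = Pi.single (some i) 1 := rfl

lemma sp_none (D : ℕ) : sp D none = Pi.single none 2 := rfl

lemma sp_one (D : ℕ) : sp D (some none) = 0 := rfl

lemma sp_some (D : ℕ) (i : Fin (D + 1)) : sp D (some (some i)) = ev D i := rfl

variable {D : ℕ} {R : Type} (F : Fan D R)

lemma sum_dot (r : Jd D → ℤ) : ∑ i, r ⬝ᵥ ev D i = 0 := by
  rw [← dotProduct_sum, sum_ev, dotProduct_zero]

lemma ea_one (r : R) : (F.ea r (some none) : ℤ) = -F.ψ r := by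
  rw [F.ea_eq, sp_one, dotProduct_zero, zero_sub]

lemma rel (r : R) : ∑ i, F.ea r (some (some i)) = (D + 1) * F.ea r (some none) := by
  have h : ∑ i, (F.ea r (some (some i)) : ℤ) = (D + 1) * (F.ea r (some none) : ℤ) := by
    simp only [F.ea_eq, sp_some, sp_one, dotProduct_zero, Finset.sum_sub_distrib, sum_dot,
      Finset.sum_const, Finset.card_univ, Fintype.card_fin, nsmul_eq_mul]
    push_cast
    ring
  exact_mod_cast h

lemma psi0 : F.ψ (F.c F.v0 none) = 0 := by
  have h1 := F.le (F.c F.v0 none) (some none)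
  rw [sp_one, dotProduct_zero] at h1
  obtain ⟨s, hs⟩ := F.ad F.v0
  have h2 := hs none
  rw [F.z0, single_one_dotProduct] at h2
  rcases s with _ | _ | i
  · rw [sp_none, Pi.single_eq_same] at h2
    omega
  · exact h2.symm
  · rw [sp_some, ev_none] at h2
    exact h2.symm

lemma e0 (j : Jd D) : F.e F.v0 j none = if j = none then 1 else 0 := by
  have h := F.dual F.v0 none j
  rw [F.z0, single_one_dotProduct] at h
  rw [h]
  simp only [eq_comm]

lemma ray (v : F.V) (j : Jd D) (h : F.ψ (F.c v j) = 0) : F.ρ (F.c v j) = Pi.single none 1 := by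
  have h0 : ∀ i, 0 ≤ F.ρ (F.c v j) ⬝ᵥ ev D i := fun i => h ▸ F.le (F.c v j) (some (some i))
  have h1 := (Finset.sum_eq_zero_iff_of_nonneg fun i _ => h0 i).1 (sum_dot (F.ρ (F.c v j)))
  have h2 : ∀ l, F.ρ (F.c v j) (some l) = 0 := fun l => by
    have := h1 l.succ (Finset.mem_univ _)
    rwa [ev_succ, dotProduct_single_one] at this
  have h3 := F.le (F.c v j) none
  rw [h, sp_none, dotProduct_single] at h3
  have h4 := F.dual v j j
  rw [if_pos rfl, dotProduct, Fintype.sum_option] at h4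
  simp only [h2, zero_mul, Finset.sum_const_zero, add_zero] at h4
  have h5 : F.ρ (F.c v j) none = 1 := Int.eq_one_of_mul_eq_one_right (by omega) h4
  funext l
  cases l with
  | none => rw [h5, Pi.single_eq_same]
  | some l => rw [h2, Pi.single_eq_of_ne (by simp)]

lemma same {v v' : F.V} {j j' : Jd D} (h : F.ρ (F.c v j) = F.ρ (F.c v' j')) :
    F.c v j = F.c v' j' := by
  have h1 := (F.eq v (F.c v j)).2 ⟨j, rfl⟩
  have h2 := (F.eq v' (F.c v' j')).2 ⟨j', rfl⟩
  have h3 := F.ge (F.c v j) (F.vx v')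
  have h4 := F.ge (F.c v' j') (F.vx v)
  rw [h] at h1 h3
  obtain ⟨i, hi⟩ := (F.eq v (F.c v' j')).1 (by omega)
  have h5 := F.dual v i j
  rw [hi, ← h, F.dual, if_pos rfl] at h5
  by_cases e : i = j
  · rw [← hi, e]
  · rw [if_neg e] at h5
    exact absurd h5 one_ne_zero

lemma neg (v : F.V) (j : Jd D) (h : F.c v j ≠ F.c F.v0 none) : F.ea (F.c v j) (some none) ≠ 0 :=
  fun e => h (same F ((ray F v j (by
    have := ea_one F (F.c v j)
    rw [e] at this
    omega)).trans F.z0.symm))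

lemma vtx (v : F.V) : ∃ s, ∀ j, F.ea (F.c v j) s = 0 := by
  obtain ⟨s, hs⟩ := F.ad v
  exact ⟨s, fun j => by rw [Fan.ea, hs, sub_self, Int.toNat_zero]⟩

lemma span (v : F.V) {A : Type} [CommRing A] (x : Jd D → A)
    (h : ∀ j, ∑ l, (F.ρ (F.c v j) l : A) * x l = 0) : x = 0 := by
  funext l
  have e : ∀ l', ∑ i, (F.e v i l : A) * (F.ρ (F.c v i) l' : A) = if l = l' then 1 else 0 :=
    fun l' => by exact_mod_cast congrArg (Int.cast (R := A)) (F.dual' v l l')
  calc x l = ∑ l', (∑ i, (F.e v i l : A) * (F.ρ (F.c v i) l' : A)) * x l' := by simp [e]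
    _ = ∑ i, (F.e v i l : A) * ∑ l', (F.ρ (F.c v i) l' : A) * x l' := by
      simp only [Finset.sum_mul, Finset.mul_sum, mul_assoc]
      exact Finset.sum_comm
    _ = 0 := by simp [h]

end X3a

variable [Rk]

theorem X3_thm : X3 where
  z T := by
    have b : T.c T.v0 none = .inr none := congrFun T.base none
    exact ⟨b ▸ T.z0, b ▸ X3a.psi0 T.toFan, X3a.e0 T.toFan⟩
  neg T v j h := by
    have h1 := X3a.neg T.toFan v j (by rwa [congrFun T.base none])
    refine ⟨h1, ?_⟩
    by_contra n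
    simp only [not_exists, not_not] at n
    have h2 := X3a.rel T.toFan (T.c v j)
    simp only [n, Finset.sum_const_zero] at h2
    exact mul_ne_zero (Nat.succ_ne_zero _) h1 h2.symm
  vtx T v := X3a.vtx T.toFan v
  rel T r := X3a.rel T.toFan r
  span T _ _ x h := X3a.span T.toFan T.v0 x (by rw [T.base]; exact h)

end Pool.Agent.Lib.MP_557161_ag.HG.MC
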