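import Pool.Agent.Lib.MP_557161_ag.MC.StY
import Pool.Agent.Lib.MP_557161_ag.HG.FA1

/-!
The branch function is not a square.
-/

namespace Pool.Agent.Lib.MP_557161_ag.HG.MC

open Pool.Agent.Lib.MP_557161_ag.DL MvPolynomial

namespace XAa

lemma not_sq {L ι : Type} [Field L] [Fintype ι] (i₀ : ι) (f g : MvPolynomial ι L) :
    g ^ 2 ≠ (∏ i, X i) * ((∏ i, X i) * f + 1) := fun h => by
  classical
  let φ := aeval (R := L) fun i : ι => if i = i₀ then (Polynomial.X : Polynomial L) else 1
  have e : φ (∏ i, X i) = Polynomial.X := by simp [φ]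
  have h1 := congrArg φ h
  rw [map_pow, map_mul, map_add, map_mul, map_one, e] at h1
  obtain ⟨u, hu⟩ := Polynomial.prime_X.dvd_of_dvd_pow (Dvd.intro _ h1.symm)
  rw [hu, mul_pow, pow_two, mul_assoc] at h1
  have h2 := congrArg (Polynomial.eval 0) (mul_left_cancel₀ Polynomial.X_ne_zero h1)
  simp at h2

end XAa

theorem XA_thm [Rk] {K : Type} [Field K] : XA K where
  nsq G j L M α x h z e := by
    let := (eval₂Hom α.toRingHom x).toAlgebra
    have := Fa1.isFrac h
    have hX : ∀ i, algebraMap (MvPolynomial (Fin (2 * dd)) L) M (X i) = x i := fun i =>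
      eval₂Hom_X' _ _ i
    have hC : algebraMap (MvPolynomial (Fin (2 * dd)) L) M (C (algebraMap K L G.lam)) =
        algebraMap K M G.lam := (eval₂Hom_C _ _ _).trans (α.commutes _)
    have hP : ∏ i, x i ≠ 0 := Finset.prod_ne_zero_iff.2 fun i _ => by
      simpa using Fa1.ne h (X i) (X_ne_zero i)
    have e1 : (z * ∏ i, x i) ^ 2 = algebraMap (MvPolynomial (Fin (2 * dd)) L) M
        ((∏ i, X i) * ((∏ i, X i) * (∑ i, X i + C (algebraMap K L G.lam)) + 1)) := by
      simp only [map_mul, map_add, map_prod, map_sum, map_one, hX, hC]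
      rw [mul_pow, e, GD.om, Fin.sum_univ_succ]
      simp only [xc, Fin.cons_zero, Fin.cons_succ]
      field_simp
      ring
    have : IsIntegrallyClosed (MvPolynomial (Fin (2 * dd)) L) :=
      UniqueFactorizationMonoid.instIsIntegrallyClosed
    obtain ⟨g, hg⟩ := IsIntegrallyClosed.exists_algebraMap_eq_of_isIntegral_pow
      (R := MvPolynomial (Fin (2 * dd)) L) two_pos (e1 ▸ isIntegral_algebraMap)
    exact XAa.not_sq ⟨0, by have := G.pos; omega⟩ _ g
      (IsFractionRing.injective _ M (by rw [map_pow, hg, e1]))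

end Pool.Agent.Lib.MP_557161_ag.HG.MC
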