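import Pool.Agent.Lib.MP_557161_ag.MC.StY

/-!
The fixed points of Frobenius in the open part and in the boundary.
-/

namespace Pool.Agent.Lib.MP_557161_ag.HG.MC

open Pool.Agent.Lib.MP_557161_ag.DL

variable [Rk]

namespace XB1a

variable {L : Type} [Field L]

/-- The signs in the twisted Frobenius map. -/
def sn (L : Type) [Field L] (ε : Bool) (l : Vr) : L := bif ε then (-1) ^ gz l else 1

lemma sn_ne (ε : Bool) (l : Vr) : sn L ε l ≠ 0 := by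
  cases ε
  exacts [one_ne_zero, zpow_ne_zero _ (neg_ne_zero.2 one_ne_zero)]

lemma gg_eq (Q : ℕ) (ε : Bool) (w : Vr → L) (l : Vr) : gg Q ε w l = sn L ε l * w l ^ Q := by
  cases ε
  exacts [(one_mul _).symm, rfl]

omit [Rk] in
lemma fin_root {Q : ℕ} (hQ : 1 < Q) {a : L} (ha : a ≠ 0) (b : L) :
    {x : L | a * x ^ Q = b * x}.Finite := by
  have h : (Polynomial.C a * Polynomial.X ^ Q - Polynomial.C b * Polynomial.X :
      Polynomial L) ≠ 0 := fun h => by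
    have := congrArg (Polynomial.coeff · Q) h
    simp [Polynomial.coeff_X, hQ.ne, ha] at this
  refine (Polynomial.finite_setOfPred_isRoot h).subset fun x hx => ?_
  simpa [Polynomial.IsRoot, sub_eq_zero] using hx

lemma fin_fix (Γ : Wt cw) {Q : ℕ} (hQ : 1 < Q) (ε : Bool) :
    {E : Quotient (Γ.st L) | ∃ w, Γ.nz w ∧ E = Γ.pt w ∧ E = Γ.pt (gg Q ε w)}.Finite := by
  refine (Set.finite_iUnion fun u : Tr → Vr => (Set.Finite.pi' fun l => fin_root hQ (sn_ne ε l)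
    (wt (fun s => wt (fun r => sn L ε (u r)) (Γ.iv u s)) (Γ.ω l))).image Γ.pt).subset ?_
  rintro _ ⟨w, ⟨u, hu⟩, rfl, h⟩
  obtain ⟨b, hb, e⟩ := (Γ.pt_eq ⟨u, hu⟩).1 h
  have ha := Wt.nm_un hu
  have h1 : ∀ s, Γ.scl (Γ.nm u w) w (u s) = 1 := Wt.co_nm hu
  have hc : Un (Γ.nm u w ^ Q * b * (Γ.nm u w)⁻¹) := ((ha.pow Q).mul hb).mul ha.inv
  have h2 : ∀ l, sn L ε l * Γ.scl (Γ.nm u w) w l ^ Q =
      wt (Γ.nm u w ^ Q * b * (Γ.nm u w)⁻¹) (Γ.ω l) * Γ.scl (Γ.nm u w) w l := fun l => by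
    have e1 : sn L ε l * w l ^ Q = wt b (Γ.ω l) * w l :=
      (gg_eq Q ε w l).symm.trans ((congrFun e l).trans (Γ.co_scl b w l))
    have e2 : Γ.scl (Γ.nm u w) w l = wt (Γ.nm u w) (Γ.ω l) * w l := Γ.co_scl _ w l
    rw [e2, mul_wt, mul_wt, pow_wt, inv_wt, mul_pow, mul_left_comm, e1, mul_assoc, mul_assoc,
      inv_mul_cancel_left₀ (wt_ne ha _)]
  refine Set.mem_iUnion.2 ⟨u, _, fun l => ?_, Γ.pt_scl ha w⟩
  refine (h2 l).trans (congrArg (wt · _ * _) (funext fun s => ?_))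
  refine (Γ.eq_wt (hu s).1 hc s).trans (congrArg (wt · _) (funext fun r => ?_))
  simpa only [h1, one_pow, mul_one] using (h2 (u r)).symm

end XB1a

open XB1a in
theorem XB1_thm {K : Type} [Field K] : XB1 K := by
  refine ⟨fun G Q hQ ε => ?_⟩
  have hf := fin_fix (L := Fld.base K) G.Γ hQ ε
  have e : {E : (G.Γ.amb K).pt (.base K) |
      ∃ w, G.Cn (.base K) w ∧ E = G.Γ.pt w ∧ E = G.Γ.pt (gg Q ε w)} =
      {E | ∃ w, G.Co (.base K) w ∧ E = G.Γ.pt w ∧ E = G.Γ.pt (gg Q ε w)} ∪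
      {E | ∃ w, G.BO.mem (.base K) w ∧ E = G.Γ.pt w ∧ E = G.Γ.pt (gg Q ε w)} := by
    ext E
    constructor
    · rintro ⟨w, h, h'⟩
      by_cases h0 : G.bd (.base K) w = 0
      exacts [.inr ⟨w, ⟨h, h0⟩, h'⟩, .inl ⟨w, ⟨h, h0⟩, h'⟩]
    · rintro (⟨w, h, h'⟩ | ⟨w, h, h'⟩)
      exacts [⟨w, h.1, h'⟩, ⟨w, h.1, h'⟩]
  refine (congrArg Set.ncard e).trans (Set.ncard_union_eq ?_
    (hf.subset fun _ ⟨w, h, h'⟩ => ⟨w, h.1.1, h'⟩) (hf.subset fun _ ⟨w, h, h'⟩ => ⟨w, h.1.1, h'⟩))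
  refine Set.disjoint_left.2 ?_
  rintro _ ⟨w, h, rfl, -⟩ ⟨w', h', e', -⟩
  exact h.2 (G.BO.mem_of_pt h' e'.symm).2

end Pool.Agent.Lib.MP_557161_ag.HG.MC
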