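import Pool.Agent.Lib.MP_557161_ag.MC.StY

/-!
The number of fixed points in the boundary.
-/

namespace Pool.Agent.Lib.MP_557161_ag.HG.MC

open Pool.Agent.Lib.MP_557161_ag.DL

variable [Rk]

namespace XB2a

variable {K : Type} [Field K] (G : GD K) {L : Fld K}

/-- A part of the boundary that contains the point. -/
noncomputable def ix (w : Vr → L) : Fin (2 * dd + 1) :=
  Classical.epsilon fun i => G.ms (some (some i)) L w = 0

/-- The twist. -/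
noncomputable def tw (τ : L) (w : Vr → L) : Vr → L := gam (G.gx (ix G w)) τ w

lemma ix_scl {a : Tr → L} (h0 : Un a) (w : Vr → L) : ix G (G.Γ.scl a w) = ix G w :=
  congrArg Classical.epsilon (funext fun _ => propext (by
    rw [GD.ms, G.mon_scl _ h0, mul_eq_zero, or_iff_right (wt_ne h0 _), GD.ms]))

lemma nz_gam (g : Vr → ℤ) {τ : L} {w : Vr → L} (h : G.Γ.nz (gam g τ w)) : G.Γ.nz w :=
  h.imp fun _ hu s => ⟨(hu s).1, right_ne_zero_of_mul (hu s).2⟩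

lemma gam_pow (g : Vr → ℤ) (τ : L) (w : Vr → L) (Q : ℕ) :
    (fun l => gam g τ w l ^ Q) = gam g (τ ^ Q) fun l => w l ^ Q :=
  funext fun l => by
    rw [gam, gam, mul_pow, ← zpow_natCast τ, ← zpow_natCast (τ ^ g l), ← zpow_mul, ← zpow_mul,
      mul_comm (g l)]

variable [X2 K]

lemma tw_scl (τ : L) {a : Tr → L} (h0 : Un a) (w : Vr → L) :
    tw G τ (G.Γ.scl a w) = G.Γ.scl a (tw G τ w) := by
  rw [tw, ix_scl G h0, X2.gam_scl, tw]

lemma tw_tw (τ : L) {σ : L} (h0 : σ ≠ 0) (w : Vr → L) : tw G τ (tw G σ w) = tw G (τ * σ) w := by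
  have e : ix G (tw G σ w) = ix G w :=
    congrArg Classical.epsilon (funext fun _ => propext (X2.gam_ms G _ w _ h0))
  rw [tw, e, tw, X2.gam_gam, tw]

lemma tw_bo {τ : L} (h0 : τ ≠ 0) {w : Vr → L} (h : G.BO.mem L w) : G.BO.mem L (tw G τ w) := by
  obtain ⟨i, hi⟩ := X2.cov.1 h
  have h1 : G.ms (some (some (ix G w))) L w = 0 :=
    Classical.epsilon_spec (p := fun i => G.ms (some (some i)) L w = 0) ⟨i, hi.2⟩
  exact X2.cov.2 ⟨ix G w, X2.gam_bi h0 ⟨hi.1, h1⟩⟩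

lemma gg_gam {Q : ℕ} {τ : L} (h : τ ^ Q = -τ) (ε : Bool) (i : Fin (2 * dd + 1)) (w : Vr → L) :
    gg Q (!ε) (gam (G.gx i) τ w) = gam (G.gx i) τ (gg Q ε w) := by
  rw [gg, gg, gam_pow, h]
  cases ε
  · rw [Bool.not_false, ← X2.gam_neg G i, X2.gam_gam, neg_one_mul, neg_neg]
    rfl
  · rw [← X2.gam_neg G i, X2.gam_gam, mul_neg_one]
    rfl

/-- The twist on classes. -/
noncomputable def tq (τ : L) : Quotient (G.Γ.st L) → Quotient (G.Γ.st L) :=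
  Quotient.map (tw G τ) (by
    rintro x y (h | ⟨a, h, rfl⟩)
    · exact .inl ⟨fun e => h.1 (nz_gam G _ e), fun e => h.2 (nz_gam G _ e)⟩
    · exact .inr ⟨a, h, tw_scl G τ h x⟩)

lemma tq_tq {τ σ : L} (h : τ * σ = 1) (E : Quotient (G.Γ.st L)) : tq G τ (tq G σ E) = E := by
  obtain ⟨x, rfl⟩ := G.Γ.pt_surj E
  exact congrArg G.Γ.pt (((tw_tw G τ (right_ne_zero_of_mul_eq_one h) x).trans (congrArg (tw G · x) h)).trans (X2.gam_one _ x))

lemma tq_fix {Q : ℕ} {τ : L} (h0 : τ ≠ 0) (h : τ ^ Q = -τ) (ε : Bool) {E : Quotient (G.Γ.st L)}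
    (hE : ∃ w, G.BO.mem L w ∧ E = G.Γ.pt w ∧ E = G.Γ.pt (gg Q ε w)) :
    ∃ w, G.BO.mem L w ∧ tq G τ E = G.Γ.pt w ∧ tq G τ E = G.Γ.pt (gg Q (!ε) w) := by
  obtain ⟨w, hw, rfl, e⟩ := hE
  obtain ⟨a, ha, e⟩ := (G.Γ.pt_eq (G.BO.nz L w hw)).1 e
  refine ⟨tw G τ w, tw_bo G h0 hw, rfl, ?_⟩
  rw [tw, gg_gam G h, e, X2.gam_scl, G.Γ.pt_scl ha]
  rfl

end XB2a

open XB2a in
theorem XB2_thm {K : Type} [Field K] [Base K] {p : ℕ} [X2 K] : XB2 K p := by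
  refine ⟨fun {G Q} hQ _ => ?_⟩
  obtain ⟨τ, hτ⟩ := IsAlgClosed.exists_pow_nat_eq (-1 : K) (Nat.sub_pos_of_lt hQ)
  have h0 : τ ≠ 0 := by
    rintro rfl
    rw [zero_pow (Nat.sub_pos_of_lt hQ).ne'] at hτ
    exact neg_ne_zero.2 one_ne_zero hτ.symm
  have h1 : τ ^ Q = -τ := by rw [← pow_sub_one_mul (by omega) τ, hτ, neg_one_mul]
  have h2 : τ⁻¹ ^ Q = -τ⁻¹ := by rw [inv_pow, h1, inv_neg]
  exact Nat.card_congr
    ⟨fun E => ⟨tq (L := .base K) G τ E.1, tq_fix (L := .base K) G h0 h1 false E.2⟩,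
      fun E => ⟨tq (L := .base K) G τ⁻¹ E.1, tq_fix (L := .base K) G (inv_ne_zero h0) h2 true E.2⟩,
      fun E => Subtype.ext (tq_tq (L := .base K) G (inv_mul_cancel₀ h0) E.1),
      fun E => Subtype.ext (tq_tq (L := .base K) G (mul_inv_cancel₀ h0) E.1)⟩

end Pool.Agent.Lib.MP_557161_ag.HG.MC
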