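import Pool.Agent.Lib.MP_557161_ag.MC.StY

/-!
The fixed points in the open part.
-/

namespace Pool.Agent.Lib.MP_557161_ag.HG.MC

open Pool.Agent.Lib.MP_557161_ag.DL

variable [Rk] {K : Type} [Field K] {p : ℕ} [X1 K] [X2 K] [XF K p]

lemma XB3a.uu {G : GD K} {Q : ℕ} (h : G.Fr p Q) (ε : Bool) : G.fu Q ε =
    Nat.card {A : xz.X (Fld.base K) // G.UU.mem _ A ∧ frb Q _ A = sg ε _ A} := by
  have h1 : ∀ A : xz.X (Fld.base K), G.UU.mem _ A ∧ frb Q _ A = sg ε _ A →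
      G.Γ.pt (G.sec _ A) = G.Γ.pt (gg Q ε (G.sec _ A)) := fun A m => by
    have e := XF.sec h ε A
    rw [m.2, X2.sg_sg] at e
    exact congrArg G.Γ.pt e
  refine (Nat.card_eq_of_bijective
    (fun A => ⟨G.Γ.pt (G.sec _ A.1), _, X1.sec_co A.2.1, rfl, h1 A.1 A.2⟩)
    ⟨fun A B e => ?_, ?_⟩).symm
  · obtain ⟨a, h0, e⟩ := (G.Γ.pt_eq (X1.sec_co A.2.1).1.1).1 (congrArg Subtype.val e)
    have := congrArg (G.pr _) e
    rw [X1.pr_scl G _ h0, X1.pr_sec A.2.1, X1.pr_sec B.2.1] at this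
    exact Subtype.ext this.symm
  · rintro ⟨_, w, hw, rfl, e⟩
    obtain ⟨a, h0, e⟩ := (G.Γ.pt_eq hw.1.1).1 e
    have := congrArg (G.pr _) e
    rw [X1.pr_scl G _ h0, XF.pr p G Q ε w] at this
    refine ⟨⟨G.pr _ w, X1.pr_uu hw, ?_⟩, Subtype.ext ?_⟩
    · rw [← X2.sg_sg ε _ (frb Q _ _), this]
    · exact (congrArg G.Γ.pt (X1.sec_pr hw).2).trans (G.Γ.pt_scl (X1.sec_pr hw).1 _)

theorem XB3_thm : XB3 K p where
  cnt {G Q} h ε := by
    rw [XB3a.uu h ε]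
    refine Nat.card_congr (Equiv.subtypeEquivRight fun A => ?_)
    rw [G.UU_iff, and_assoc]
    refine and_congr Iff.rfl (and_congr Iff.rfl ?_)
    cases ε
    · exact ⟨fun e => ⟨fun i => congrFun (congrArg Prod.fst e) i, congrArg Prod.snd e⟩,
        fun e => Prod.ext (funext e.1) e.2⟩
    · exact ⟨fun e => ⟨fun i => congrFun (congrArg Prod.fst e) i, congrArg Prod.snd e⟩,
        fun e => Prod.ext (funext e.1) e.2⟩

end Pool.Agent.Lib.MP_557161_ag.HG.MC
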