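import Pool.Agent.Lib.MP_557161_ag.MC.StY

/-!
The Frobenius maps of the double cover of the torus and of the torsor.
-/

namespace Pool.Agent.Lib.MP_557161_ag.HG.MC

open Pool.Agent.Lib.MP_557161_ag.DL MvPolynomial

variable [Rk]

namespace XFa

variable {K : Type} [Field K]

omit [Rk] in
theorem pw_zpow {L : Type} [Field L] (a : L) (Q : ℕ) (n : ℤ) : (a ^ Q) ^ n = (a ^ n) ^ Q := by
  rw [← zpow_natCast, ← zpow_natCast, ← zpow_mul, ← zpow_mul, mul_comm]

theorem pw_scl (G : GD K) (Q : ℕ) {L : Fld K} (a : Tr → L) (w : Vr → L) :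
    (fun l => G.Γ.scl a w l ^ Q) = G.Γ.scl (a ^ Q) fun l => w l ^ Q :=
  funext fun l => (mul_pow _ _ _).trans (congrArg (· * w l ^ Q) (pow_wt a Q _).symm)

theorem lm_pw (G : GD K) (Q : ℕ) {L : Fld K} (w : Vr → L) (k : Jx → ℤ) :
    G.lm (fun l => w l ^ Q) k = G.lm w k ^ Q := by
  rw [GD.lm, GD.lm, ← Finset.prod_pow]
  exact Finset.prod_congr rfl fun r _ => pw_zpow _ _ _

theorem pr_pw (G : GD K) (Q : ℕ) {L : Fld K} (w : Vr → L) :
    G.pr L (fun l => w l ^ Q) = frb Q L (G.pr L w) :=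
  Prod.ext (funext fun _ => lm_pw G Q w _) (lm_pw G Q w _)

theorem sec_frb (G : GD K) {Q : ℕ} (h0 : Q ≠ 0) {L : Fld K} (A : xz.X L) :
    G.sec L (frb Q L A) = fun l => G.sec L A l ^ Q := by
  funext l
  rcases l with _ | s | j
  · exact (zero_pow h0).symm
  · exact (one_pow Q).symm
  · refine Eq.trans ?_ (mul_pow _ _ _).symm
    rw [← Finset.prod_pow]
    refine congrArg₂ (· * ·) ?_ (Finset.prod_congr rfl fun i _ => pw_zpow _ _ _)
    cases j
    · rfl
    · exact (one_pow Q).symm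

omit [Rk] in
theorem mem_of_pow {Q : ℕ} {M : Fld K} {O : Pl M} {a : M} (h0 : Q ≠ 0) (h : a ^ Q ∈ O.O) :
    a ∈ O.O := by
  rw [← O.O.valuation_le_one_iff] at h ⊢
  rw [map_pow] at h
  exact (pow_le_one_iff h0).1 h

variable {p : ℕ} {G : GD K} {Q : ℕ}

theorem pow (h : G.Fr p Q) (m : ℕ) : G.Fr p (Q ^ m) := by
  obtain ⟨⟨f, e⟩, h1⟩ := h
  refine ⟨⟨f * m, by rw [e, pow_mul]⟩, ?_⟩
  induction m with
  | zero => rw [pow_zero, pow_one]
  | succ m ih => rw [pow_succ, pow_mul, ih, h1]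

variable [Fact p.Prime]

theorem ne (h : G.Fr p Q) : Q ≠ 0 := by
  obtain ⟨⟨f, rfl⟩, -⟩ := h
  exact pow_ne_zero _ (Fact.out : p.Prime).ne_zero

variable [CharP K p]

theorem hom (h : G.Fr p Q) (L : Fld K) : ∃ F : L →+* L, (∀ a, a ^ Q = F a) ∧
    F (algebraMap K L G.lam) = algebraMap K L G.lam := by
  obtain ⟨⟨f, rfl⟩, h1⟩ := h
  have : CharP L p := charP_of_injective_algebraMap (algebraMap K L).injective p
  exact ⟨iterateFrobenius L p f, fun _ => rfl, by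
    rw [iterateFrobenius_def, ← map_pow, h1]⟩

theorem pw_cn (h : G.Fr p Q) {L : Fld K} {w : Vr → L} :
    G.Cn L (fun l => w l ^ Q) ↔ G.Cn L w := by
  obtain ⟨F, e, hF⟩ := hom h L
  simp only [e]
  refine and_congr (G.Γ.nz_map F) (forall_congr' fun r => ?_)
  rw [← map_eq_zero F (a := aeval w (G.E r))]
  refine Eq.congr_left ?_
  fin_cases r
  · exact (eqs0 _ _ _).trans (congrArg F (eqs0 _ _ _)).symm
  · refine (eqs1 _ _ _).trans (Eq.trans ?_ (congrArg F (eqs1 _ _ _)).symm)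
    rw [map_sum]
    refine Finset.sum_congr rfl fun s _ => ?_
    rw [map_mul, map_mon]
    refine congrArg (· * _) ?_
    rcases s with _ | _ | s <;> simp only [cfs, Option.elim, map_one, map_neg, hF]

theorem pw_co (h : G.Fr p Q) {L : Fld K} {w : Vr → L} :
    G.Co L (fun l => w l ^ Q) ↔ G.Co L w := by
  refine and_congr (pw_cn h) ?_
  obtain ⟨F, e, -⟩ := hom h L
  simp only [e]
  rw [GD.bd, GD.bd, GD.ms, GD.ms, ← map_mon, map_ne_zero]

theorem mem (h : G.Fr p Q) {L : Fld K} {A : xz.X L} :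
    G.UU.mem L (frb Q L A) ↔ G.UU.mem L A := by
  obtain ⟨F, e, hF⟩ := hom h L
  have a : ∀ y : L, y ^ Q = F y := e
  rw [GD.UU_iff, GD.UU_iff, frb, GD.om, GD.om]
  simp only [a]
  refine and_congr ?_ ?_
  · rw [← map_prod, ← map_one F, F.injective.eq_iff, map_one]
  · rw [← map_sum, ← map_pow, ← F.injective.eq_iff (a := A.2 ^ 2), map_add, hF]

theorem mp (h : G.Fr p Q) : Mp G.UU G.UU (frb Q) where
  reg _ _ _ _ _ _ _ e := ⟨fun i => Rel.pow (e.1 i) Q, Rel.pow e.2 Q⟩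
  mem _ _ m := (mem h).2 m

theorem pro (h : G.Fr p Q) : Pro G.UU G.UU (frb Q) := fun M O x z _ _ m' e => by
  have l : xz.lift (Rel.ofPl O).r x (xz.map O.rd x) :=
    ⟨fun i => ⟨mem_of_pow (ne h) (e.1 i).1, rfl⟩, mem_of_pow (ne h) e.2.1, rfl⟩
  have l' : xz.lift (Rel.ofPl O).r (frb Q M x) (frb Q O.res (xz.map O.rd x)) :=
    ⟨fun i => Rel.pow (l.1 i) Q, Rel.pow (R := Rel.ofPl O) l.2 Q⟩
  exact ⟨_, (mem h).1 (Cd.lift_eq e l' rfl ▸ m'), l⟩

theorem srj (h : G.Fr p Q) : Srj G.UU G.UU (frb Q) := fun L _ z m => by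
  choose r hr using fun a : L => IsAlgClosed.exists_pow_nat_eq a (Nat.pos_of_ne_zero (ne h))
  have e : frb Q L (fun i => r (z.1 i), r z.2) = z := Prod.ext (funext fun i => hr _) (hr _)
  exact ⟨_, (mem h).1 (e.symm ▸ m), e⟩

theorem inj (h : G.Fr p Q) (L : Fld K) : Function.Injective (frb Q L) := fun A B e => by
  obtain ⟨F, a, -⟩ := hom h L
  exact Prod.ext (funext fun i => F.injective
      ((a _).symm.trans ((congrFun (congrArg Prod.fst e) i).trans (a _))))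
    (F.injective ((a _).symm.trans ((congrArg Prod.snd e).trans (a _))))

end XFa

open XFa in
theorem XF_thm {K : Type} [Field K] {p : ℕ} [Fact p.Prime] [CharP K p] [X2 K] : XF K p where
  pow := XFa.pow
  gg_cn h _ ε _ := (X2.sw_cn ε).trans (pw_cn h)
  gg_co h _ ε _ := (X2.sw_co ε).trans (pw_co h)
  gg_scl G Q ε _ a w := (congrArg (sw ε) (pw_scl G Q a w)).trans (X2.sw_scl G ε _ _)
  gg_rel Q ε _ _ R _ _ e := X2.sw_rel R ε fun l => Rel.pow (e l) Q
  gg_map Q ε _ _ α w :=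
    (X2.sw_map α ε _).trans (congrArg (sw ε) (funext fun l => map_pow α (w l) Q))
  mem h := XFa.mem h
  map Q _ _ α A := Prod.ext (funext fun i => map_pow α (A.1 i) Q) (map_pow α A.2 Q)
  one _ A := Prod.ext (funext fun i => pow_one (A.1 i)) (pow_one A.2)
  mul Q Q' _ A := Prod.ext (funext fun i => (pow_mul' (A.1 i) Q Q').symm) (pow_mul' A.2 Q Q').symm
  sg {G Q} h ε L A := by
    obtain ⟨F, a, -⟩ := hom h L
    cases ε
    · rfl
    · exact Prod.ext rfl ((a _).trans ((map_neg F A.2).trans (congrArg Neg.neg (a _).symm)))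
  sec {G Q} h ε L A := by
    rw [X2.sec_sg, sec_frb G (XFa.ne h)]
    rfl
  pr G Q ε L w := by
    rw [← pr_pw]
    exact X2.pr_sw G ε _
  mp h := ⟨XFa.mp h, pro h, srj h, inj h⟩

end Pool.Agent.Lib.MP_557161_ag.HG.MC
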