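import Pool.Agent.Lib.MP_557161_ag.MC.StY
import Pool.Agent.Lib.MP_557161_ag.TW.XG

/-!
Generic points of the double cover.
-/

namespace Pool.Agent.Lib.MP_557161_ag.HG.MC

open Pool.Agent.Lib.MP_557161_ag.DL MvPolynomial

variable [Rk] {K : Type} [Field K]

namespace XGa

variable {L M M₀ M' : Fld K} {j : ℕ}

lemma om_map (G : GD K) (β : M₀ →ₐ[K] M) (x : Fin (2 * dd + 1) → M₀) :
    β (G.om M₀ x) = G.om M fun i => β (x i) := by
  simp only [GD.om, map_add, map_sum, AlgHom.commutes]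

lemma xc_prod {L : Type} [Field L] {x : Fin (2 * dd) → L} (h : ∀ i, x i ≠ 0) :
    ∏ i, xc x i = 1 := by
  rw [xc, Fin.prod_cons]
  exact inv_mul_cancel₀ (Finset.prod_ne_zero_iff.2 fun i _ => h i)

lemma xc_map (β : M₀ →ₐ[K] M) {x : Fin (2 * dd) → M₀} {y : Fin (2 * dd + 1) → M}
    (hy : ∏ i, y i = 1) (h : ∀ i, β (x i) = y i.succ) (i : Fin (2 * dd + 1)) :
    β (xc x i) = y i := by
  refine Fin.cases ?_ h i
  show β (∏ i, x i)⁻¹ = y 0
  rw [Fin.prod_univ_succ] at hy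
  rw [map_inv₀, map_prod, funext h]
  exact (eq_inv_of_mul_eq_one_left hy).symm

theorem ex [XA K] (G : GD K) (hL : Good j L) :
    ∃ (M : Fld K) (α : L →ₐ[K] M) (y : xz.X M), G.GenU j α y := by
  obtain ⟨M₀, α₀, T, hf⟩ : ∃ (M₀ : Fld K) (α₀ : L →ₐ[K] M₀) (T : Fin (2 * dd) → M₀),
      Free j α₀ T := ⟨_, _, _, Fa1.fr_free _ hL⟩
  obtain ⟨z, hz⟩ := IsAlgClosed.exists_pow_nat_eq (M₀.toCl (G.om M₀ (xc T))) two_pos
  obtain ⟨M, β, ρ, θ, hc, hθ, hg⟩ := exists_gen M₀.toCl z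
  have h1 : θ ^ 2 = β (G.om M₀ (xc T)) := ρ.injective (by
    show ρ (θ ^ 2) = (ρ.comp β) _
    rw [map_pow, hθ, hz, hc])
  have h2 := hf.gM
  rw [Nat.card_fin] at h2
  refine ⟨M, β.comp α₀, (fun i => β (xc T i), θ), hL, h2.of_fin (Xg.fin_sq h1 hg),
    G.UU_iff.2 ⟨?_, h1.trans (om_map _ β _)⟩, ?_⟩
  · show ∏ i, β (xc T i) = 1
    rw [← map_prod, xc_prod fun i => ?_, map_one]
    have h3 := Fa1.ne hf (X i) (X_ne_zero _)
    rwa [eval₂_X] at h3
  · rw [eq_top_iff, ← (Xg.gen_one β θ).2 hg]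
    refine Fa1.gen_le (fun a => ?_) fun _ => Fa1.right_mem _ _ (Sum.inr ())
    have h3 : gen α₀ T ≤ (gen (β.comp α₀) (xz.co (fun i => β (xc T i), θ))).comap β :=
      Fa1.gen_le (fun a => Fa1.left_mem (β.comp α₀) _ a) fun i =>
        Fa1.right_mem (β.comp α₀) (xz.co (fun i => β (xc T i), θ)) (Sum.inl i.succ)
    rw [hf.top] at h3
    exact h3 IntermediateField.mem_top

variable {G : GD K} {α : L →ₐ[K] M} {y : xz.X M}

theorem neg (h : G.GenU j α y) (ε : Bool) : G.GenU j α (sg ε M y) := by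
  cases ε
  · exact h
  · refine ⟨h.gL, h.gM, G.UU_iff.2 ⟨h.mem.2.1, (neg_sq y.2).trans h.mem.2.2⟩, ?_⟩
    rw [eq_top_iff, ← h.top]
    refine Fa1.gen_le (Fa1.left_mem _ _) ?_
    rintro (i | i)
    · exact Fa1.right_mem α (xz.co (ngz M y)) (Sum.inl i)
    · exact neg_mem_iff.1 (Fa1.right_mem α (xz.co (ngz M y)) (Sum.inr i))

lemma sq (h : G.GenU j α y) {β : M₀ →ₐ[K] M} {x : Fin (2 * dd + 1) → M₀}
    (hx : ∀ i, β (x i) = y.1 i) : y.2 ^ 2 = β (G.om M₀ x) := by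
  rw [om_map, funext hx]
  exact h.mem.2.2

theorem chart [XA K] (h : G.GenU j α y) :
    ∃ (M₀ : Fld K) (α₀ : L →ₐ[K] M₀) (β : M₀ →ₐ[K] M) (x : Fin (2 * dd) → M₀),
      β.comp α₀ = α ∧ (∀ i, β (xc x i) = y.1 i) ∧ Free j α₀ x ∧ deg β = 2 ∧ Gen β y.2 ∧
        y.2 ≠ 0 := by
  obtain ⟨α₀, β, T, hc, hT, ht⟩ := Fa1.exists_sub α fun i : Fin (2 * dd) => y.1 i.succ
  replace hT := xc_map β h.mem.2.1 hT
  have hs := sq h hT
  have hg : Gen β y.2 := by
    rw [← Xg.gen_one, eq_top_iff, ← h.top]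
    refine Fa1.gen_le (fun a => ?_) ?_
    · rw [← show β (α₀ a) = α a from AlgHom.congr_fun hc a]; exact Fa1.left_mem β _ _
    · rintro (i | i)
      · show y.1 i ∈ _
        rw [← hT]; exact Fa1.left_mem β _ _
      · exact Fa1.right_mem β (fun _ : Unit => y.2) ()
  have hf : Free j α₀ T := by
    refine ⟨h.gL, ?_, ht⟩
    rw [Nat.card_fin]
    exact h.gM.down (ι := β) ((Xg.fin_sq hs hg).tr_eq.symm.trans h.gM.2)
  refine ⟨_, α₀, β, T, hc, hT, hf, Xg.deg_sq hs hg (XA.nsq G hf), hg,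
    fun h0 => XA.nsq G hf 0 (β.injective ?_)⟩
  show β (0 ^ 2) = β _
  rw [← hs, h0, map_pow, map_zero]

theorem iso [XA K] {j' : ℕ} {L' : Fld K} {α' : L' →ₐ[K] M'} {y' : xz.X M'} (h : G.GenU j α y)
    (h' : G.GenU j' α' y') (ι : L →ₐ[K] L') :
    ∃ ρ : M →ₐ[K] M', ρ.comp α = α'.comp ι ∧ xz.map ρ y = y' ∧ (j = j' → deg ρ = deg ι) := by
  obtain ⟨M₀, α₀, β, x, hc, hx, hF, hd, hg, -⟩ := chart h
  obtain ⟨M₁, α₁, β', x', hc', hx', hF', hd', -⟩ := chart h'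
  obtain ⟨ρ₀, h1, h2, h3⟩ := Fa1.lift hF hF' ι
  replace h2 : ∀ i, ρ₀ (xc x i) = xc x' i := xc_map ρ₀ (β'.injective (by
    show β' _ = β' 1
    rw [map_prod, funext hx', map_one]
    exact h'.mem.2.1)) h2
  obtain ⟨ρ, h4, h5⟩ := TW.P2.XGa.lift_sq (sq h hx) hg (XA.nsq G hF) (γ := β'.comp ρ₀)
    (sq h' fun i => (congrArg β' (h2 i)).trans (hx' i))
  refine ⟨ρ, by rw [← hc, ← AlgHom.comp_assoc, h4, AlgHom.comp_assoc, h1, ← AlgHom.comp_assoc, hc'],
    Prod.ext (funext fun i => ?_) h5, fun _ => ?_⟩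
  · show ρ (y.1 i) = y'.1 i
    rw [← hx, ← hx', ← h2]
    exact AlgHom.congr_fun h4 (xc x i)
  · have h6 := congrArg deg h4
    rw [deg_comp, deg_comp, hd, hd', h3] at h6
    omega

theorem dgr [XA K] (h : G.GenU j α y) (s : Set L) :
    Bridge.dg (IntermediateField.adjoin K (α '' s ∪ Set.range y.1)) =
      2 * Bridge.dg (IntermediateField.adjoin K s) := by
  obtain ⟨M₀, α₀, β, x, hc, hx, hF, hd, -⟩ := chart h
  let ι : L.sub (IntermediateField.adjoin K s) →ₐ[K] L := (IntermediateField.adjoin K s).val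
  obtain ⟨α₁, ρ, T, hc', hT, ht⟩ := Fa1.exists_sub (α₀.comp ι) x
  have h1 : deg ρ = deg ι := Xg.deg_free (by rw [funext hT]; exact hF) ht hc'
  have h2 : ∀ a, β (ρ (α₁ a)) = α (ι a) := fun a => by
    rw [← hc]; exact congrArg β (AlgHom.congr_fun hc' a)
  have h3 : IntermediateField.adjoin K (α '' s ∪ Set.range y.1) =
      IntermediateField.map (β.comp ρ) ⊤ := by
    refine le_antisymm (IntermediateField.adjoin_le_iff.2 ?_) ?_
    · rintro _ (⟨a, ha, rfl⟩ | ⟨i, rfl⟩)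
      · exact ⟨α₁ ⟨a, IntermediateField.subset_adjoin K s ha⟩, trivial, h2 _⟩
      · exact ⟨xc T i, trivial, xc_map (β.comp ρ) h.mem.2.1
          (fun i => (congrArg β (hT i)).trans (hx i.succ)) i⟩
    · rw [IntermediateField.map_le_iff_le_comap, ← ht]
      refine Fa1.gen_le (fun a => ?_) fun i => ?_
      · show β (ρ (α₁ a)) ∈ IntermediateField.adjoin K (α '' s ∪ Set.range y.1)
        have h4 : IntermediateField.adjoin K s ≤
            (IntermediateField.adjoin K (α '' s ∪ Set.range y.1)).comap α :=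
          IntermediateField.adjoin_le_iff.2 fun b hb =>
            IntermediateField.subset_adjoin K _ (Or.inl ⟨b, hb, rfl⟩)
        rw [h2]
        exact h4 a.2
      · show β (ρ (T i)) ∈ IntermediateField.adjoin K (α '' s ∪ Set.range y.1)
        rw [hT, show β (x i) = y.1 i.succ from hx i.succ]
        exact IntermediateField.subset_adjoin K _ (Or.inr ⟨i.succ, rfl⟩)
  rw [h3, Bridge.dg_map, Bridge.dg_top, one_mul, deg_comp, h1, hd, mul_comm]
  rfl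

end XGa

theorem XG_thm [XA K] : XG K where
  ex G _ _ hL := XGa.ex G hL
  neg := XGa.neg
  chart := XGa.chart
  iso := XGa.iso
  dgr := XGa.dgr

end Pool.Agent.Lib.MP_557161_ag.HG.MC
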