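import Pool.Agent.Lib.MP_557161_ag.MC.StY

/-!
The ideal of the closure of the double cover.
-/

namespace Pool.Agent.Lib.MP_557161_ag.HG.MC

open Pool.Agent.Lib.MP_557161_ag.DL MvPolynomial

namespace XJa

variable {k σ : Type} [Field k] {D : ℕ}

theorem aeval_smul {B : Type} [CommRing B] [Algebra k B] {f : MvPolynomial σ k} {n : ℕ}
    (hf : f.IsHomogeneous n) (c : B) (x : σ → B) : aeval (c • x) f = c ^ n * aeval x f := by
  rw [aeval_def, aeval_def, eval₂_eq, eval₂_eq, Finset.mul_sum]
  refine Finset.sum_congr rfl fun d hd => ?_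
  simp only [Pi.smul_apply, smul_eq_mul, mul_pow, Finset.prod_mul_distrib,
    Finset.prod_pow_eq_pow_sum]
  rw [← hf.degree_eq_sum_deg_support hd]
  ring

theorem cmp {A B : Type} [CommRing A] [Algebra k A] [CommRing B] [Algebra k B] (q : A →ₐ[k] B)
    (ψ : A →ₐ[k] Polynomial B) (N : σ → A)
    (e : ∀ s, ψ (N s) = Polynomial.X * Polynomial.C (q (N s))) {f : MvPolynomial σ k}
    (h1 : ψ (aeval N f) = 0) (n : ℕ) : q (aeval N (homogeneousComponent n f)) = 0 := by
  let π : A →ₐ[k] Polynomial B := Polynomial.CAlgHom.comp q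
  have e4 : (fun s => ψ (N s)) = (Polynomial.X : Polynomial B) • fun s => π (N s) := funext e
  rw [comp_aeval_apply, e4, ← sum_homogeneousComponent f, map_sum] at h1
  have h2 : ∀ i, aeval ((Polynomial.X : Polynomial B) • fun s => π (N s))
      (homogeneousComponent i f) = Polynomial.monomial i
        (q (aeval N (homogeneousComponent i f))) := fun i => by
    rw [aeval_smul (homogeneousComponent_isHomogeneous i f),
      ← Polynomial.C_mul_X_pow_eq_monomial, mul_comm, ← comp_aeval_apply]
    rfl
  have h3 := congrArg (Polynomial.coeff · n) h1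
  simp only [h2, Polynomial.finsetSum_coeff, Polynomial.coeff_monomial, Finset.sum_ite_eq',
    Polynomial.coeff_zero] at h3
  split_ifs at h3 with h4
  · exact h3
  · rw [homogeneousComponent_eq_zero _ _ (by simpa using h4), map_zero, map_zero]

theorem hom' {B : Type} [CommRing B] [Algebra k B] (m : σ → Jd D → ℕ) (lam : k)
    (q : MvPolynomial (Option (Jd D)) k →ₐ[k] B) (h0 : q (mcF D lam) = 0) {f : MvPolynomial σ k}
    (hf : f ∈ mcI m lam) (n : ℕ) :
    q (aeval (fun s => X none * ∏ l, X (some l) ^ m s l) (homogeneousComponent n f)) = 0 := by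
  let ψ : MvPolynomial (Option (Jd D)) k →ₐ[k] Polynomial B := aeval fun l : Option (Jd D) =>
    l.elim (Polynomial.X * Polynomial.C (q (X none))) fun l => Polynomial.C (q (X (some l)))
  have e1 : ∀ l, ψ (X (some l)) = Polynomial.C (q (X (some l))) := fun l => aeval_X _ _
  have e2 : ψ (X none) = Polynomial.X * Polynomial.C (q (X none)) := aeval_X _ _
  have e3 : ψ (mcF D lam) = Polynomial.C (q (mcF D lam)) := by
    simp only [mcF, map_sub, map_mul, map_prod, map_pow, map_sum, map_one, e1, algHom_C,
      Polynomial.algebraMap_apply]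
  obtain ⟨a, ha⟩ := Ideal.mem_span_singleton'.1 (Ideal.mem_comap.1 hf)
  refine cmp q ψ _ (fun s => ?_) ?_ n
  · simp only [map_mul, map_prod, map_pow, e1, e2, mul_assoc]
  · rw [← ha, map_mul, e3, h0, map_zero, mul_zero]

theorem hom (m : σ → Jd D → ℕ) (lam : k) : Homog (mcI m lam) := fun _ hf n =>
  Ideal.mem_comap.2 ((Ideal.Quotient.eq_zero_iff_mem (I := Ideal.span {mcF D lam})).1
    (hom' m lam (Ideal.Quotient.mkₐ k (Ideal.span {mcF D lam}))
      ((Ideal.Quotient.eq_zero_iff_mem (I := Ideal.span {mcF D lam})).2 (Ideal.subset_span rfl))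
      hf n))

section Up

variable {K : Type} [Field K] [Algebra k K]

theorem co_C (φ : K →ₗ[k] k) (c : K) : T0.co φ (C c : MvPolynomial σ K) = C (φ c) := by
  classical
  ext m
  rw [T0.coeff_co, coeff_C, coeff_C]
  split_ifs
  exacts [rfl, map_zero φ]

theorem up_aeval {τ : Type} (x : σ → MvPolynomial τ k) (f : MvPolynomial σ k) :
    T0.up K (aeval x f) = aeval (fun i => T0.up K (x i)) (T0.up K f) := by
  induction f using MvPolynomial.induction_on with
  | C c => simp
  | add f g hf hg => simp only [map_add, hf, hg]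
  | mul_X f s hf => simp only [map_mul, hf, map_X, aeval_X]

theorem co_aeval {τ : Type} (x : σ → MvPolynomial τ k) (φ : K →ₗ[k] k) (f : MvPolynomial σ K) :
    T0.co φ (aeval (fun i => T0.up K (x i)) f) = aeval x (T0.co φ f) := by
  induction f using MvPolynomial.induction_on' with
  | monomial m c =>
    rw [show monomial m c = T0.up K (monomial m (1 : k)) * C c by
      rw [map_monomial, map_one, mul_comm, C_mul_monomial, mul_one], map_mul, ← up_aeval, algHom_C,
      algebraMap_eq, T0.co_mul, T0.co_mul, co_C, co_C, map_mul, algHom_C, algebraMap_eq]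
  | add f g hf hg => simp only [map_add, hf, hg]

theorem up (m : σ → Jd D → ℕ) (lam : k) :
    (mcI m lam).map (T0.up K) = mcI m (algebraMap k K lam) := by
  ext f
  have e1 : Ideal.span {mcF D (algebraMap k K lam)} = (Ideal.span {mcF D lam}).map (T0.up K) := by
    rw [Ideal.map_span, Set.image_singleton]
    simp only [mcF, map_sub, map_mul, map_prod, map_pow, map_sum, map_one, map_X, map_C]
  have e2 : (fun s => (X none * ∏ l, X (some l) ^ m s l : MvPolynomial (Option (Jd D)) K)) =
      fun s => T0.up (k := k) K (X none * ∏ l, X (some l) ^ m s l) := by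
    simp only [map_mul, map_prod, map_pow, map_X]
  simp only [mcI, T0.mem_up, e1, e2, Ideal.mem_comap, co_aeval]

end Up

end XJa

theorem XJ_thm [XP] : XJ :=
  ⟨XJa.hom, XJa.up, fun _ lam h =>
    have := (Ideal.span_singleton_prime (XP.pf lam h).1.ne_zero).2 (XP.pf lam h).1
    Ideal.comap_isPrime _ _⟩

end Pool.Agent.Lib.MP_557161_ag.HG.MC
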