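import Pool.Agent.Lib.MP_557161_ag.MC.StY
import Pool.Agent.Lib.MP_557161_ag.TW.XK

/-!
The charts of the compactification are smooth.
-/

namespace Pool.Agent.Lib.MP_557161_ag.HG.MC

open Pool.Agent.Lib.MP_557161_ag.DL MvPolynomial

variable [Rk]

namespace XKa

variable {k : Type} [Field k] {F : Fan (2 * dd) Ry} {lam : k} {s : F.σ}

omit [Rk] in
theorem scale {σ B : Type} [CommRing B] [Algebra k B] {I : Ideal (MvPolynomial σ k)} (h : Homog I)
    {N : σ → B} (hN : ∀ f ∈ I, aeval N f = 0) (c : B) :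
    ∀ f ∈ I, aeval (fun t => c * N t) f = 0 := fun f hf => by
  rw [← sum_homogeneousComponent f, map_sum]
  exact Finset.sum_eq_zero fun n _ => by
    rw [TW.P2.XKa.homog (homogeneousComponent_isHomogeneous n f), hN _ (h f hf n), mul_zero]

theorem map_nu {R S Φ : Type} [CommRing R] [CommRing S] [FunLike Φ R S] [RingHomClass Φ R S] (f : Φ)
    (w : Vr → R) (t : F.σ) : f (nu F w t) = nu F (fun l => f (w l)) t :=
  map_mon f _ w

theorem eqs_map {K : Type} [Field K] [Algebra k K] (r : Fin 2) :
    eqs F (algebraMap k K lam) r = map (algebraMap k K) (eqs F lam r) := by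
  have e : ∀ t : Sd (2 * dd), cfs (algebraMap k K lam) t = algebraMap k K (cfs lam t) := by
    rintro (_ | _ | _) <;> simp [cfs]
  fin_cases r
  · simp [eqs]
  · simp [eqs, e, map_mon]

variable (F lam s) in
/-- The ideal of the points with a chosen inverse of the coordinate `s`. -/
noncomputable def JB : Ideal (MvPolynomial (Option Vr) k) :=
  Ideal.span ({X none * nu F (fun l => X (some l)) s - 1} ∪
    Set.range fun r => rename some (eqs F lam r))

theorem jb_iff {R : Type} [CommRing R] [Algebra k R] (x : Option Vr → R) :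
    (∀ f ∈ JB F lam s, aeval x f = 0) ↔ x none * nu F (fun l => x (some l)) s = 1 ∧
      ∀ r, aeval (fun l => x (some l)) (eqs F lam r) = 0 := by
  have : (∀ f ∈ JB F lam s, aeval x f = 0) ↔ JB F lam s ≤ RingHom.ker (aeval x) := Iff.rfl
  rw [this, JB, Ideal.span_le]
  simp only [Set.union_subset_iff, Set.singleton_subset_iff, Set.range_subset_iff, SetLike.mem_coe,
    RingHom.mem_ker, map_sub, map_one, map_mul, map_nu, aeval_X, sub_eq_zero, aeval_rename]
  rfl

theorem lift_pt {a : Vr × Vr → MvPolynomial (Option Vr) k}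
    (ha : 1 - ∑ j, a j * mnr (fun r l => rename some (pderiv l (eqs F lam r))) j.1 j.2 ∈ JB F lam s)
    {B : Type} [CommRing B] [Algebra k B] {N : Ideal B} (hN : N ^ 2 = ⊥)
    {x : Option Vr → B ⧸ N} (hx : ∀ f ∈ JB F lam s, aeval x f = 0) :
    ∃ x' : Option Vr → B, (∀ j, Ideal.Quotient.mk N (x' j) = x j) ∧
      ∀ f ∈ JB F lam s, aeval x' f = 0 := by
  choose y hy using fun j => Ideal.Quotient.mk_surjective (x j)
  have hm : ∀ {τ : Type} (y : τ → B) (p : MvPolynomial τ k), Ideal.Quotient.mk N (aeval y p) =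
      aeval (fun l => Ideal.Quotient.mk N (y l)) p := fun y p => by
    rw [← Ideal.Quotient.mkₐ_eq_mk k, ← AlgHom.comp_apply, comp_aeval]
  have sq : ∀ u ∈ N, ∀ v ∈ N, u * v = 0 := fun u hu v hv => by
    rw [← Ideal.mem_bot, ← hN, pow_two]
    exact Ideal.mul_mem_mul hu hv
  have mem : ∀ f ∈ JB F lam s, aeval y f ∈ N := fun f hf => by
    rw [← Ideal.Quotient.eq_zero_iff_mem, hm]
    simp only [hy]
    exact hx f hf
  obtain ⟨n1, n5⟩ := (jb_iff x).1 hx
  obtain ⟨w, hw⟩ : ∃ w : Vr → B, y ∘ some = w := ⟨_, rfl⟩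
  have hw' : ∀ l, Ideal.Quotient.mk N (w l) = x (some l) := fun l => by rw [← hw]; exact hy _
  have he : ∀ r, aeval w (eqs F lam r) ∈ N := fun r => by
    rw [← Ideal.Quotient.eq_zero_iff_mem, hm]
    simp only [hw']
    exact n5 r
  have h1 := mem _ ha
  simp only [map_sub, map_one, map_sum, map_mul, mnr, aeval_rename, hw] at h1
  generalize hD : (fun r l => aeval w (pderiv l (eqs F lam r))) = D
  have hD' : ∀ r l, aeval w (pderiv l (eqs F lam r)) = D r l := fun r l => by rw [← hD]
  simp only [hD'] at h1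
  let δ : Vr → B := fun l => ∑ j : Vr × Vr, aeval y (a j) *
    ((if l = j.1 then aeval w (eqs F lam 1) * D 0 j.2 - aeval w (eqs F lam 0) * D 1 j.2 else 0) +
      if l = j.2 then aeval w (eqs F lam 0) * D 1 j.1 - aeval w (eqs F lam 1) * D 0 j.1 else 0)
  have hδ : ∀ l, δ l ∈ N := fun l => sum_mem fun j _ => Ideal.mul_mem_left _ _ (add_mem
    (by split_ifs
        exacts [sub_mem (N.mul_mem_right _ (he _)) (N.mul_mem_right _ (he _)), zero_mem _])
    (by split_ifs
        exacts [sub_mem (N.mul_mem_right _ (he _)) (N.mul_mem_right _ (he _)), zero_mem _]))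
  have e1 : ∀ r, aeval (fun l => w l + δ l) (eqs F lam r) = 0 := fun r => by
    rw [TW.P2.XKa.taylor _ _ fun i j => sq _ (hδ i) _ (hδ j), ← sq _ (he r) _ h1, mul_sub, mul_one,
      sub_eq_add_neg, Finset.mul_sum, ← Finset.sum_neg_distrib]
    congr 1
    simp only [δ, hD', Finset.sum_mul]
    rw [Finset.sum_comm]
    refine Finset.sum_congr rfl fun j _ => ?_
    simp only [mul_add, add_mul, Finset.sum_add_distrib, mul_ite, ite_mul, mul_zero, zero_mul,
      Finset.sum_ite_eq', Finset.mem_univ, if_true]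
    fin_cases r <;> simp only [Fin.zero_eta, Fin.mk_one] <;> ring
  have e2 : ∀ l, Ideal.Quotient.mk N (w l + δ l) = x (some l) := fun l => by
    rw [map_add, hw', Ideal.Quotient.eq_zero_iff_mem.2 (hδ l), add_zero]
  obtain ⟨v, e1, e2⟩ : ∃ v : Vr → B, (∀ r, aeval v (eqs F lam r) = 0) ∧
    ∀ l, Ideal.Quotient.mk N (v l) = x (some l) := ⟨_, e1, e2⟩
  have m : y none * nu F v s - 1 ∈ N := by
    rw [← Ideal.Quotient.eq_zero_iff_mem, map_sub, map_mul, map_nu, map_one, hy]
    simp only [e2]
    rw [n1, sub_self]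
  refine ⟨fun o => o.elim (y none * (1 - (y none * nu F v s - 1))) v, ?_, (jb_iff _).2 ⟨?_, e1⟩⟩
  · rintro (_ | l)
    · change Ideal.Quotient.mk N (y none * (1 - (y none * nu F v s - 1))) = _
      rw [map_mul, map_sub, Ideal.Quotient.eq_zero_iff_mem.2 m, map_one, sub_zero, mul_one, hy]
    · exact e2 l
  · change y none * (1 - (y none * nu F v s - 1)) * nu F v s = 1
    linear_combination -sq _ m _ m

end XKa

open XKa in
/-- The compactification is smooth. -/
theorem XK_thm {k : Type} [Field k] [h0 : X0 (AlgebraicClosure k)] [hL : XL (AlgebraicClosure k)]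
    [hU : XU] [hR : XR] [hJ : XJ] : XK k where
  smooth G lam eL s := by
    have eE : ∀ r, G.E r = map (algebraMap k _) (eqs G.toFan lam r) := fun r => by
      rw [← eqs_map, eL]
    have cn : ∀ x : Option Vr → AlgebraicClosure k, (∀ f ∈ JB G.toFan lam s, aeval x f = 0) →
        G.Cn (.base _) fun l => x (some l) := fun x hx => by
      obtain ⟨h1, h2⟩ := (jb_iff x).1 hx
      exact ⟨hU.nz.1 fun e => right_ne_zero_of_mul_eq_one h1 (congrFun e s),
        fun r => by rw [eE]; exact (aeval_map_algebraMap _ _ _).trans (h2 r)⟩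
    have top : Ideal.span (Set.range fun j : Vr × Vr =>
        mnr (fun r l => rename some (pderiv l (eqs G.toFan lam r))) j.1 j.2) ⊔
          JB G.toFan lam s = ⊤ := by
      rw [← Ideal.radical_eq_top, ← vanishingIdeal_zeroLocus_eq_radical (K := AlgebraicClosure k),
        eq_top_iff]
      intro f _ x hx
      obtain ⟨μ, ν, hm⟩ := h0.sm G (.base _) _ (cn x fun f hf => hx f (Ideal.mem_sup_right hf))
      have := hx _ (Ideal.mem_sup_left (Ideal.subset_span ⟨(μ, ν), rfl⟩))
      have e : ∀ r l, G.row (.base _) (fun l => x (some l)) r l =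
          aeval (x ∘ some) (pderiv l (eqs G.toFan lam r)) := fun r l => by
        rw [GD.row, eE, pderiv_map]
        exact aeval_map_algebraMap _ _ _
      simp only [mnr, map_sub, map_mul, e, aeval_rename] at hm this
      exact (hm this).elim
    obtain ⟨u, hu, v, hv, huv⟩ := Submodule.mem_sup.1 ((Ideal.eq_top_iff_one _).1 top)
    obtain ⟨a, rfl⟩ := Ideal.mem_span_range_iff_exists_fun.1 hu
    have ha := eq_sub_of_add_eq' huv ▸ hv
    have ev : ∀ {σ R : Type} [CommRing R] [Algebra k R] {J : Ideal (MvPolynomial σ k)}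
        (φ : (MvPolynomial σ k ⧸ J) →ₐ[k] R), ∀ f ∈ J,
        aeval (fun l => φ (Ideal.Quotient.mk J (X l))) f = 0 := fun {σ R} _ _ J φ f hf => by
      have := comp_aeval (f := X) (φ.comp (Ideal.Quotient.mkₐ k J))
      rw [aeval_X_left] at this
      refine (AlgHom.congr_fun this f).symm.trans ?_
      change φ (Ideal.Quotient.mk J f) = 0
      rw [Ideal.Quotient.eq_zero_iff_mem.2 hf, map_zero]
    have sB : Algebra.Smooth k (MvPolynomial (Option Vr) k ⧸ JB G.toFan lam s) :=
      ⟨.of_comp_surjective fun B _ _ N hN φ => by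
        obtain ⟨w, h1, h2⟩ := lift_pt ha hN (ev φ)
        refine ⟨Ideal.Quotient.liftₐ _ (aeval w) h2, Ideal.Quotient.algHom_ext k
          (MvPolynomial.algHom_ext fun l => ?_)⟩
        exact (congrArg (Ideal.Quotient.mk N) (aeval_X w l)).trans (h1 l),
      Algebra.FinitePresentation.of_finiteType.1 inferInstance⟩
    have rad : (JB G.toFan lam s).radical = JB G.toFan lam s :=
      ((Ideal.isRadical_iff_quotient_reduced _).2 (Model.smooth_reduced k _)).radical
    have key : ∀ f ∈ mcI G.m lam,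
        aeval (fun t => X none * nu G.toFan (fun l => X (some l)) t) f ∈ JB G.toFan lam s :=
      fun f hf => by
        rw [← rad, ← vanishingIdeal_zeroLocus_eq_radical (K := AlgebraicClosure k)]
        intro x hx
        rw [← AlgHom.comp_apply, comp_aeval]
        simp only [map_mul, map_nu, aeval_X]
        refine scale (hJ.hom _ _) (fun g hg => ?_) _ f hf
        have := hL.zl (cn x hx) (map (algebraMap k _) g) (by
          rw [GD.I, ← eL, ← hJ.up]
          exact Ideal.mem_map_of_mem _ hg)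
        exact (aeval_map_algebraMap _ _ _).symm.trans this
    refine ⟨.of_comp_surjective fun B _ _ N hN φ => ?_,
      Algebra.FinitePresentation.of_finiteType.1 inferInstance⟩
    have z := ev φ
    obtain ⟨n, hn⟩ : ∃ n : G.σ → B ⧸ N, (fun l => φ (Ideal.Quotient.mk _ (X l))) = n := ⟨_, rfl⟩
    rw [hn] at z
    have zI : ∀ f ∈ mcI G.m lam, aeval n f = 0 := fun f hf => z f (Ideal.mem_sup_left hf)
    have zs : n s = 1 := by
      simpa [sub_eq_zero] using z _ (Ideal.mem_sup_right (Ideal.mem_span_singleton_self _))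
    obtain ⟨q, m, -, c, hc⟩ := hR.cv G.toFan lam n zI s
    rw [zs, one_pow] at hc
    obtain ⟨r1, r2, -⟩ := hR.ring G.toFan lam G.pos q _ (scale (hJ.hom _ _) zI c)
      ((mul_comm _ _).trans hc.symm)
    have r3 : ∀ t, n (G.vx q) * nu G.toFan (unp G.toFan q fun t => c * n t) t = n t := fun t => by
      rw [r2, ← mul_assoc, ← hc, one_mul]
    obtain ⟨w, h1, h2⟩ := lift_pt ha hN
      (x := fun o => o.elim (n (G.vx q)) (unp G.toFan q fun t => c * n t))
      ((jb_iff _).2 ⟨(r3 s).trans zs, r1⟩)
    refine ⟨Ideal.Quotient.liftₐ _ (aeval fun t => w none * nu G.toFan (fun l => w (some l)) t)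
      fun f hf => ?_, Ideal.Quotient.algHom_ext k (MvPolynomial.algHom_ext fun l => ?_)⟩
    · refine (sup_le (fun g hg => ?_) (Ideal.span_le.2 ?_) :
        _ ≤ RingHom.ker (aeval fun t => w none * nu G.toFan (fun l => w (some l)) t)) hf
      · have := h2 _ (key g hg)
        rw [← AlgHom.comp_apply, comp_aeval] at this
        simp only [map_mul, map_nu, aeval_X] at this
        exact this
      · rintro _ rfl
        simpa [sub_eq_zero] using ((jb_iff w).1 h2).1
    · refine (congrArg (Ideal.Quotient.mk N) (aeval_X _ l)).trans ?_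
      rw [map_mul, map_nu]
      simp only [h1]
      exact (r3 l).trans (congrFun hn l).symm

end Pool.Agent.Lib.MP_557161_ag.HG.MC
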