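import Pool.Agent.Lib.MP_557161_ag.MC.StY

/-!
The zero locus of the ideal is the image of the torsor.
-/

namespace Pool.Agent.Lib.MP_557161_ag.HG.MC

open Pool.Agent.Lib.MP_557161_ag.DL MvPolynomial

namespace XLa

lemma aeval_smul {σ k L : Type} [Field k] [Field L] [Algebra k L] {f : MvPolynomial σ k} {n : ℕ}
    (hf : f.IsHomogeneous n) (c : L) (N : σ → L) : aeval (c • N) f = c ^ n * aeval N f := by
  induction hf using IsWeightedHomogeneous.induction_on with
  | zero => simp
  | add p q _ _ hp hq => rw [map_add, map_add, hp, hq, mul_add]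
  | monomial d r hd =>
    rw [aeval_monomial, aeval_monomial, ← hd, Finsupp.weight_apply, Finsupp.sum, Finsupp.prod,
      Finsupp.prod, ← Finset.prod_pow_eq_pow_sum]
    simp only [Pi.smul_apply, smul_eq_mul, mul_pow, Finset.prod_mul_distrib, Pi.one_apply, mul_one]
    ring

lemma smul_mem {σ k L : Type} [Field k] [Field L] [Algebra k L] {I : Ideal (MvPolynomial σ k)}
    (hI : Homog I) (c : L) {N : σ → L} (h : N ∈ zeroLocus L I) : c • N ∈ zeroLocus L I := by
  intro f hf
  rw [← sum_homogeneousComponent f, map_sum]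
  refine Finset.sum_eq_zero fun n _ => ?_
  rw [aeval_smul (homogeneousComponent_isHomogeneous n f), h _ (hI f hf n), mul_zero]

/-- Points of the double cover lie in the zero locus. -/
lemma cover {k L σ : Type} [Field k] [Field L] [Algebra k L] {D : ℕ} (m : σ → Option (Fin D) → ℕ)
    (lam : k) (c z : L) (x : Fin D → L)
    (hz : (∏ i, x i) * (z ^ 2 - algebraMap k L lam - ∑ i, x i) = 1) :
    (fun s => c * (z ^ m s none * ∏ i, x i ^ m s (some i))) ∈ zeroLocus L (mcI m lam) := by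
  intro F hF
  let ev : MvPolynomial (Option (Option (Fin D))) k →ₐ[k] L :=
    aeval fun o => o.elim c fun l => l.elim z x
  have h0 : ev (mcF D lam) = 0 := by
    simp only [mcF, ev, map_sub, map_mul, map_prod, map_pow, map_sum, map_one, aeval_X, aeval_C,
      Option.elim, hz, sub_self]
  obtain ⟨u, hu⟩ := Ideal.mem_span_singleton'.1 (Ideal.mem_comap.1 hF)
  have h1 : ev (aeval (R := k) (fun s => X none * ∏ l, X (some l) ^ m s l) F) = 0 := by
    rw [← hu, map_mul, h0, mul_zero]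
  rw [← AlgHom.comp_apply, comp_aeval] at h1
  convert h1 using 3
  funext s
  simp only [ev, map_mul, map_prod, map_pow, aeval_X, Option.elim, Fintype.prod_option]

variable [Rk] {K : Type} [Field K] [X1 K] [XU] [XJ]

lemma co {G : GD K} {L : Fld K} {w : Vr → L} (hw : G.Cn L w) (h0 : ∀ r, w (some r) ≠ 0) :
    G.ν w ∈ zeroLocus L G.I := by
  have hc : G.Co L w := X1.co.2 ⟨hw, fun r _ => h0 r⟩
  have hu := X1.pr_uu hc
  obtain ⟨ha, he⟩ := X1.sec_pr hc
  obtain ⟨c, -, hν⟩ := X1.nu_lm (G := G) (L := L) (w := G.sec L (G.pr L w)) fun r => by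
    rw [he]
    exact (G.Γ.co_scl (G.ns L w) w (some r)).trans_ne (mul_ne_zero (wt_ne ha _) (h0 r))
  obtain ⟨h1, h2⟩ := (GD.UU_iff G).1 hu
  have h3 := cover G.m G.lam c (G.pr L w).2 (fun i => (G.pr L w).1 i.succ) (by
    rw [Fin.prod_univ_succ] at h1
    rw [h2, GD.om, Fin.sum_univ_succ]
    linear_combination h1)
  have h4 : G.ν (G.sec L (G.pr L w)) ∈ zeroLocus L G.I := by
    convert h3 using 1
    funext s
    rw [hν, X1.lm_sec fun i => GD.UU_ne hu i]
    simp only [zpow_natCast]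
  have h5 := smul_mem (XJ.hom G.m G.lam) (wt (G.ns L w) (wν G.toFan))⁻¹ h4
  rw [he] at h5
  have h6 : G.ν (G.Γ.scl (G.ns L w) w) = wt (G.ns L w) (wν G.toFan) • G.ν w :=
    XU.scl G.toTD w ha
  rwa [h6, smul_smul, inv_mul_cancel₀ (wt_ne ha _), one_smul] at h5

end XLa

theorem XL_thm [Rk] {K : Type} [Field K] [X1 K] [XU] [XR] [XJ] [DS K] : XL K where
  zl {G L w} hw F hF := by
    have e : ∀ (L : Fld K) (w : Vr → L),
        aeval w (aeval (nu G.toFan (X : Vr → MvPolynomial Vr K)) F) = aeval (G.ν w) F :=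
      fun L w => by
        rw [← AlgHom.comp_apply, comp_aeval]
        congr 2
        refine (XU.map (aeval w : MvPolynomial Vr K →ₐ[K] L).toRingHom G.toFan X).trans ?_
        congr 1
        funext l
        simp
    rw [← e]
    exact DS.den G _ (fun L w hw h0 => (e L w).trans (XLa.co hw h0 F hF)) L w hw
  srj {G L N} hN h0 := by
    obtain ⟨s, hs⟩ := Function.ne_iff.1 h0
    replace hs : N s ≠ 0 := hs
    obtain ⟨v, n, -, hv⟩ := XR.cv G.toFan G.lam N hN s
    have hv0 : N (G.vx v) ≠ 0 := fun e => pow_ne_zero n hs (zero_dvd_iff.1 (e ▸ hv))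
    have e1 : ((N (G.vx v))⁻¹ • N) (G.vx v) = 1 := inv_mul_cancel₀ hv0
    obtain ⟨h1, h2, -⟩ := XR.ring G.toFan G.lam G.pos v ((N (G.vx v))⁻¹ • N)
      (XLa.smul_mem (XJ.hom G.m G.lam) _ hN) e1
    refine ⟨unp G.toFan v ((N (G.vx v))⁻¹ • N), N (G.vx v), hv0,
      ⟨XU.nz.1 (h2.trans_ne fun e => one_ne_zero (e1.symm.trans (congrFun e _))), h1⟩, ?_⟩
    rw [show G.ν _ = _ from h2, smul_smul, mul_inv_cancel₀ hv0, one_smul]

end Pool.Agent.Lib.MP_557161_ag.HG.MC
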