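import Pool.Agent.Lib.MP_557161_ag.MC.StY
import Pool.Agent.Lib.MP_60ec62_ag.DL.Dim

/-!
The dimension of the cone over the compactification.
-/

namespace Pool.Agent.Lib.MP_557161_ag.HG.MC

open Pool.Agent.Lib.MP_557161_ag.DL MvPolynomial

namespace XMa

variable {k : Type} [Field k]

theorem alg_all {V C K : Type} [CommRing C] [IsDomain C] [Field K] [Algebra k C] [Algebra k K]
    [Algebra C K] [IsScalarTower k C K] (φ : MvPolynomial V k →ₐ[k] K)
    (hs : ∀ κ : K, ∃ a b, κ = φ a / φ b) (h : ∀ l, IsAlgebraic C (φ (X l))) (κ : K) :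
    IsAlgebraic C κ := by
  have h1 : ∀ a, IsAlgebraic C (φ a) := fun a => by
    induction a using MvPolynomial.induction_on with
    | C c =>
      rw [algHom_C, IsScalarTower.algebraMap_apply k C K]
      exact isAlgebraic_algebraMap _
    | add f f' hf hf' => rw [map_add]; exact hf.add hf'
    | mul_X f l hf => rw [map_mul]; exact hf.mul (h l)
  obtain ⟨a, b, rfl⟩ := hs κ
  rw [div_eq_mul_inv]
  exact (h1 a).mul (h1 b).inv

theorem alg_prod {C K ι : Type} [CommRing C] [IsDomain C] [Field K] [Algebra C K] (s : Finset ι)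
    {f : ι → K} (h : ∀ i, IsAlgebraic C (f i)) : IsAlgebraic C (∏ i ∈ s, f i) :=
  Finset.prod_induction f (IsAlgebraic C) (fun _ _ => IsAlgebraic.mul) isAlgebraic_one
    fun i _ => h i

theorem alg_sum {C K ι : Type} [CommRing C] [IsDomain C] [Field K] [Algebra C K] (s : Finset ι)
    {f : ι → K} (h : ∀ i, IsAlgebraic C (f i)) : IsAlgebraic C (∑ i ∈ s, f i) :=
  Finset.sum_induction f (IsAlgebraic C) (fun _ _ => IsAlgebraic.add) isAlgebraic_zero
    fun i _ => h i

theorem alg_zpow {C K : Type} [CommRing C] [IsDomain C] [Field K] [Algebra C K] {x : K}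
    (h : IsAlgebraic C x) (n : ℤ) : IsAlgebraic C (x ^ n) := by
  obtain ⟨n, rfl | rfl⟩ := n.eq_nat_or_neg
  · rw [zpow_natCast]; exact h.pow n
  · rw [zpow_neg, zpow_natCast]; exact (h.pow n).inv

variable {D : ℕ} {lam : k}

/-- The variables other than `z`. -/
def em (D : ℕ) (l : Option (Fin D)) : Option (Option (Fin D)) := l.map some

theorem ev_mcF {K : Type} [CommRing K] [Algebra k K]
    (φ : MvPolynomial (Option (Option (Fin D))) k →ₐ[k] K) :
    φ (mcF D lam) = (∏ i, φ (X (some (some i)))) *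
      (φ (X (some none)) ^ 2 - algebraMap k K lam - ∑ i, φ (X (some (some i)))) - 1 := by
  simp only [mcF, map_sub, map_mul, map_prod, map_pow, map_sum, map_one, algHom_C]

theorem free {g : MvPolynomial (Option (Fin D)) k} (h : mcF D lam ∣ rename (em D) g) : g = 0 := by
  let Ω := AlgebraicClosure (FractionRing (MvPolynomial (Option (Fin D)) k))
  let ι : MvPolynomial (Option (Fin D)) k →ₐ[k] Ω := IsScalarTower.toAlgHom k _ Ω
  have hι : Function.Injective ι :=
    (algebraMap (FractionRing (MvPolynomial (Option (Fin D)) k)) Ω).injective.comp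
      (IsFractionRing.injective (MvPolynomial (Option (Fin D)) k) _)
  have h0 : ∏ i, ι (X (some i)) ≠ 0 := Finset.prod_ne_zero_iff.2 fun i _ e =>
    X_ne_zero _ (hι (e.trans (map_zero ι).symm))
  obtain ⟨z, hz⟩ := IsAlgClosed.exists_pow_nat_eq
    (algebraMap k Ω lam + ∑ i, ι (X (some i)) + (∏ i, ι (X (some i)))⁻¹) (n := 2) two_pos
  let χ : MvPolynomial (Option (Option (Fin D))) k →ₐ[k] Ω :=
    aeval fun l => l.elim (ι (X none)) fun l => l.elim z fun i => ι (X (some i))
  have e : χ.comp (rename (em D)) = ι := algHom_ext fun l => by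
    cases l <;> simp [χ, em]
  have e0 : χ (mcF D lam) = 0 := by
    rw [ev_mcF]
    simp only [χ, aeval_X, Option.elim_some, Option.elim_none, hz]
    linear_combination mul_inv_cancel₀ h0
  obtain ⟨q, hq⟩ := h
  refine hι ?_
  rw [← e, AlgHom.comp_apply, hq, map_mul, e0, zero_mul, map_zero]

theorem main {R K : Type} [Field K] [Algebra k K] (F : Fan D R) (hp : (mcI F.m lam).IsPrime)
    (φ : MvPolynomial (Option (Option (Fin D))) k →ₐ[k] K)
    (hs : ∀ κ : K, ∃ a b, κ = φ a / φ b) (hk : ∀ f, φ f = 0 ↔ mcF D lam ∣ f)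
    (h0 : ∀ l, φ (X l) ≠ 0) :
    Algebra.trdeg k (MvPolynomial F.σ k ⧸ mcI F.m lam) = ((D + 1 : ℕ) : Cardinal) := by
  have hm : ∀ f, f ∈ mcI F.m lam ↔
      φ (aeval (fun s => X none * ∏ l, X (some l) ^ F.m s l) f) = 0 := fun f => by
    rw [hk, mcI, Ideal.mem_comap, Ideal.mem_span_singleton]
  let ψ : (MvPolynomial F.σ k ⧸ mcI F.m lam) →ₐ[k] K := Ideal.Quotient.liftₐ _
    (φ.comp (aeval fun s => X none * ∏ l, X (some l) ^ F.m s l)) fun f hf => (hm f).1 hf
  have hψ : Function.Injective ψ := (injective_iff_map_eq_zero ψ).2 fun b hb => by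
    obtain ⟨f, rfl⟩ := Ideal.Quotient.mk_surjective b
    exact Ideal.Quotient.eq_zero_iff_mem.2 ((hm f).2 hb)
  have e1 := MP_60ec62_ag.DL.Dim.trdeg_eq_of_alg ψ hψ (by
    let := ψ.toRingHom.toAlgebra
    have : IsScalarTower k (MvPolynomial F.σ k ⧸ mcI F.m lam) K :=
      IsScalarTower.of_algebraMap_eq fun c => (ψ.commutes c).symm
    have a1 : ∀ s, IsAlgebraic (MvPolynomial F.σ k ⧸ mcI F.m lam)
        (φ (X none) * ∏ l, φ (X (some l)) ^ F.m s l) := fun s => by
      have e : φ (X none) * ∏ l, φ (X (some l)) ^ F.m s l =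
          algebraMap (MvPolynomial F.σ k ⧸ mcI F.m lam) K (Ideal.Quotient.mk _ (X s)) := by
        change _ = φ (aeval _ (X s))
        simp only [aeval_X, map_mul, map_prod, map_pow]
      rw [e]
      exact isAlgebraic_algebraMap _
    have n1 : ∀ s, ∏ l, φ (X (some l)) ^ F.m s l ≠ 0 := fun s =>
      Finset.prod_ne_zero_iff.2 fun l _ => pow_ne_zero _ (h0 _)
    have a2 : ∀ j, IsAlgebraic (MvPolynomial F.σ k ⧸ mcI F.m lam)
        (∏ l, φ (X (some l)) ^ F.e F.v0 j l) := fun j => by
      have e : ∏ l, φ (X (some l)) ^ F.m (F.nb F.v0 j) l =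
          (∏ l, φ (X (some l)) ^ F.m (F.vx F.v0) l) * ∏ l, φ (X (some l)) ^ F.e F.v0 j l := by
        rw [← Finset.prod_mul_distrib]
        exact Finset.prod_congr rfl fun l _ => by
          rw [← zpow_natCast, ← zpow_natCast, F.nb_eq, zpow_add₀ (h0 _)]
      have := (a1 (F.nb F.v0 j)).mul (a1 (F.vx F.v0)).inv
      rwa [e, ← mul_assoc, mul_right_comm, mul_inv_cancel₀ (mul_ne_zero (h0 _) (n1 _)),
        one_mul] at this
    have a3 : ∀ l, IsAlgebraic (MvPolynomial F.σ k ⧸ mcI F.m lam) (φ (X (some l))) := fun l => by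
      have e : ∏ j, (∏ l', φ (X (some l')) ^ F.e F.v0 j l') ^ F.ρ (F.c F.v0 j) l =
          φ (X (some l)) := by
        simp only [← Finset.prod_zpow, ← zpow_mul]
        rw [Finset.prod_comm, Finset.prod_congr rfl fun l' _ =>
          (prod_zpow_sum (h0 _) _ _).trans (congrArg _ (F.dual' F.v0 l' l)),
          Finset.prod_eq_single l (fun l' _ n => by rw [if_neg n, zpow_zero]) (by simp),
          if_pos rfl, zpow_one]
      rw [← e]
      exact alg_prod _ fun j => alg_zpow (a2 j) _
    refine alg_all φ hs fun l => ?_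
    cases l with
    | some l => exact a3 l
    | none =>
      have := (a1 (F.vx F.v0)).mul
        (alg_prod Finset.univ fun l => (a3 l).pow (F.m (F.vx F.v0) l)).inv
      rwa [mul_inv_cancel_right₀ (n1 _)] at this)
  let ψ' : MvPolynomial (Option (Fin D)) k →ₐ[k] K := φ.comp (rename (em D))
  have e2 := MP_60ec62_ag.DL.Dim.trdeg_eq_of_alg ψ'
    ((injective_iff_map_eq_zero ψ').2 fun g hg => free ((hk _).1 hg)) (by
    let := ψ'.toRingHom.toAlgebra
    have : IsScalarTower k (MvPolynomial (Option (Fin D)) k) K :=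
      IsScalarTower.of_algebraMap_eq fun c => (ψ'.commutes c).symm
    have a1 : ∀ l, IsAlgebraic (MvPolynomial (Option (Fin D)) k) (φ (X (em D l))) := fun l => by
      have e : φ (X (em D l)) = algebraMap (MvPolynomial (Option (Fin D)) k) K (X l) := by
        change _ = φ (rename _ (X l))
        rw [rename_X]
      rw [e]
      exact isAlgebraic_algebraMap _
    refine alg_all φ hs ?_
    rintro (_ | _ | i)
    · exact a1 none
    · have n1 : ∏ i, φ (X (some (some i))) ≠ 0 := Finset.prod_ne_zero_iff.2 fun l _ => h0 _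
      have e := (ev_mcF φ).symm.trans ((hk _).2 dvd_rfl)
      have e' : φ (X (some none)) ^ 2 = algebraMap k K lam + ∑ i, φ (X (some (some i))) +
          (∏ i, φ (X (some (some i))))⁻¹ := by
        refine mul_left_cancel₀ n1 ?_
        linear_combination e - mul_inv_cancel₀ n1
      refine IsAlgebraic.of_pow (n := 2) two_pos ?_
      rw [e', IsScalarTower.algebraMap_apply k (MvPolynomial (Option (Fin D)) k) K]
      exact ((isAlgebraic_algebraMap _).add (alg_sum _ fun i => a1 (some i))).add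
        (alg_prod _ fun i => a1 (some i)).inv
    · exact a1 (some i))
  rw [e1, ← e2]
  simp

end XMa

open XMa Pool.Agent.Lib.MP_60ec62_ag.DL in
theorem XM_thm [XP] [XJ] : XM := ⟨fun {k R _ D} F lam hD => by
  have hp := XJ.prime F.m lam hD
  obtain ⟨p1, p2⟩ := XP.pf lam hD
  have hq : (Ideal.span {mcF D lam}).IsPrime := (Ideal.span_singleton_prime p1.ne_zero).2 p1
  let A := MvPolynomial (Option (Option (Fin D))) k ⧸ Ideal.span {mcF D lam}
  let φ : MvPolynomial (Option (Option (Fin D))) k →ₐ[k] FractionRing A :=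
    (IsScalarTower.toAlgHom k A (FractionRing A)).comp (Ideal.Quotient.mkₐ k _)
  have hk : ∀ f, φ f = 0 ↔ mcF D lam ∣ f := fun f =>
    ((map_eq_zero_iff _ (IsFractionRing.injective A (FractionRing A))).trans
      Ideal.Quotient.eq_zero_iff_mem).trans Ideal.mem_span_singleton
  have h4 := main F hp φ (fun κ => by
    obtain ⟨a, b, -, rfl⟩ := IsFractionRing.div_surjective (A := A) κ
    obtain ⟨a, rfl⟩ := Ideal.Quotient.mk_surjective a
    obtain ⟨b, rfl⟩ := Ideal.Quotient.mk_surjective b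
    exact ⟨a, b, rfl⟩) hk fun l e => p2 l ((hk _).1 e)
  obtain ⟨s, h1, h2⟩ := Dim.trdeg_ft (𝕜 := k) (⟨mcI F.m lam, hp⟩ : PrimeSpectrum _)
  have h3 := MP_2c79a0_ag.H68Dim.ringKrullDim_quot (⟨mcI F.m lam, hp⟩ : PrimeSpectrum _)
  have h5 : s = D + 1 := by
    rw [h4] at h1
    exact_mod_cast h1.symm
  rw [h2, h5] at h3
  exact h3⟩

end Pool.Agent.Lib.MP_557161_ag.HG.MC
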