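import Pool.Agent.Lib.MP_557161_ag.MC.StY

/-!
The generic point of the zero locus.
-/

namespace Pool.Agent.Lib.MP_557161_ag.HG.MC

open Pool.Agent.Lib.MP_557161_ag.DL MvPolynomial

namespace XNa

variable {K : Type} [Field K]

lemma hsm {S σ : Type} [CommRing S] [Algebra K S] {f : MvPolynomial σ K} {n : ℕ}
    (hf : f.IsHomogeneous n) (c : S) (x : σ → S) :
    aeval (fun s => c * x s) f = c ^ n * aeval x f := by
  rw [f.as_sum, map_sum, map_sum, Finset.mul_sum]
  refine Finset.sum_congr rfl fun m hm => ?_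
  have := hf (mem_support_iff.1 hm)
  rw [aeval_monomial, aeval_monomial, ← this, Finsupp.weight_apply, Finsupp.prod, Finsupp.prod,
    Finsupp.sum, ← Finset.prod_pow_eq_pow_sum, mul_left_comm, ← Finset.prod_mul_distrib]
  simp [mul_pow]

lemma div {D : ℕ} (lam : K) (g : MvPolynomial (Option (Fin D)) K) :
    ∃ (N : ℕ) (A B : MvPolynomial (Fin D) K) (Q : MvPolynomial (Option (Option (Fin D))) K),
      (∏ i, X (some (some i))) ^ N * rename some g =
        rename (fun i => some (some i)) A + rename (fun i => some (some i)) B * X (some none) +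
          Q * mcF D lam := by
  obtain ⟨P, hP⟩ : ∃ P : MvPolynomial (Fin D) K, rename (fun i => some (some i)) P =
      (∏ i, X (some (some i)) : MvPolynomial (Option (Option (Fin D))) K) :=
    ⟨∏ i, X i, by simp only [map_prod, rename_X]⟩
  obtain ⟨W, hW⟩ : ∃ W : MvPolynomial (Fin D) K, mcF D lam =
      rename (fun i => some (some i)) P * X (some none) ^ 2 - rename (fun i => some (some i)) W :=
    ⟨P * (C lam + ∑ i, X i) + 1, by
      simp only [mcF, map_add, map_mul, map_sum, rename_X, rename_C, map_one, hP]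
      ring⟩
  rw [← hP]
  induction g using MvPolynomial.induction_on with
  | C c => exact ⟨0, C c, 0, 0, by simp⟩
  | add F F' h h' =>
    obtain ⟨N, A, B, T, e⟩ := h
    obtain ⟨N', A', B', T', e'⟩ := h'
    refine ⟨N + N', P ^ N' * A + P ^ N * A', P ^ N' * B + P ^ N * B',
      rename (fun i => some (some i)) P ^ N' * T + rename (fun i => some (some i)) P ^ N * T', ?_⟩
    simp only [map_add, map_mul, map_pow]
    linear_combination rename (fun i => some (some i)) P ^ N' * e +
      rename (fun i => some (some i)) P ^ N * e'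
  | mul_X F s h =>
    obtain ⟨N, A, B, T, e⟩ := h
    rcases s with _ | s
    · refine ⟨N + 1, B * W, P * A, rename (fun i => some (some i)) B +
        rename (fun i => some (some i)) P * T * X (some none), ?_⟩
      simp only [map_mul, rename_X]
      linear_combination rename (fun i => some (some i)) P * X (some none) * e -
        rename (fun i => some (some i)) B * hW
    · refine ⟨N, A * X s, B * X s, T * X (some (some s)), ?_⟩
      simp only [map_mul, rename_X]
      linear_combination X (some (some s)) * e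

variable [Rk] {G : GD K}

lemma indep [FA1 K] [XA K] [XG K] {j : ℕ} {L M : Fld K} {α : L →ₐ[K] M} {y : xz.X M}
    (hy : G.GenU j α y) {U V : MvPolynomial (Fin (2 * dd)) K}
    (h : aeval (fun i : Fin (2 * dd) => y.1 i.succ) U +
      aeval (fun i : Fin (2 * dd) => y.1 i.succ) V * y.2 = 0) : U = 0 ∧ V = 0 := by
  obtain ⟨M₀, α₀, β, x, -, h1, h2, -⟩ := XG.chart hy
  have e : ∀ W : MvPolynomial (Fin (2 * dd)) K,
      aeval (fun i : Fin (2 * dd) => y.1 i.succ) W = β (aeval x W) := fun W => by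
    rw [comp_aeval_apply]
    exact congrArg (fun v => aeval v W) (funext fun i => (h1 i.succ).symm)
  have n : ∀ W : MvPolynomial (Fin (2 * dd)) K, aeval x W = 0 → W = 0 := fun W hW => by
    by_contra c
    refine FA1.ne h2 (MvPolynomial.map (algebraMap K L) W)
      ((map_ne_zero_iff _ (map_injective _ (algebraMap K L).injective)).2 c) ?_
    rw [eval₂_map, ← hW, aeval_def]
    exact congrArg (fun f => eval₂ f x W) (RingHom.ext α₀.commutes)
  have o : β (G.om M₀ (xc x)) = G.om M y.1 := by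
    simp only [GD.om, map_add, map_sum, AlgHom.commutes, h1]
  rw [e, e] at h
  have v : aeval x V = 0 := by
    by_contra c
    refine XA.nsq G h2 (aeval x U / aeval x V) (β.toRingHom.injective ?_)
    have c' : β (aeval x V) ≠ 0 := (map_ne_zero β).2 c
    show β _ = β _
    rw [o, ← (G.UU_iff.1 hy.mem).2, map_pow, map_div₀, eq_neg_of_add_eq_zero_left h, neg_div,
      mul_div_cancel_left₀ _ c', neg_sq]
  rw [v, map_zero, zero_mul, add_zero, map_eq_zero] at h
  exact ⟨n U h, n V v⟩

/-- The coordinates of the big torus. -/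
def cz {M : Type} (y : xz.X M) : Jx → M := fun l => l.elim y.2 fun i => y.1 i.succ

lemma cz_ne [XG K] {j : ℕ} {L M : Fld K} {α : L →ₐ[K] M} {y : xz.X M} (hy : G.GenU j α y)
    (l : Jx) : cz y l ≠ 0 := by
  obtain ⟨-, -, -, -, -, -, -, -, -, h⟩ := XG.chart hy
  rcases l with _ | l
  · exact h
  · exact GD.UU_ne hy.mem _

lemma nu_sec [X1 K] [XG K] {j : ℕ} {L M : Fld K} {α : L →ₐ[K] M} {y : xz.X M}
    (hy : G.GenU j α y) : ∃ c : M, c ≠ 0 ∧
      ∀ s, G.ν (G.sec M y) s = c * ∏ l, cz y l ^ G.m s l := by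
  obtain ⟨c, c0, h⟩ := X1.nu_lm (G := G) (w := G.sec M y) fun r => by
    rcases r with r | r
    · exact one_ne_zero
    · refine mul_ne_zero ?_ (Finset.prod_ne_zero_iff.2 fun i _ =>
        zpow_ne_zero _ (GD.UU_ne hy.mem _))
      rcases r with _ | r
      · exact cz_ne hy none
      · exact one_ne_zero
  refine ⟨c, c0, fun s => ?_⟩
  rw [h, X1.lm_sec (GD.UU_ne hy.mem), Fintype.prod_option]
  simp only [zpow_natCast]
  rfl

lemma ker [FA1 K] [XP] [X1 K] [XA K] [XG K] {j : ℕ} {L M : Fld K} {α : L →ₐ[K] M} {y : xz.X M}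
    (hy : G.GenU j α y) {f : MvPolynomial G.σ K} {n : ℕ} (hf : f.IsHomogeneous n)
    (h : aeval (G.ν (G.sec M y)) f = 0) : f ∈ G.I := by
  obtain ⟨c, c0, hc⟩ := nu_sec hy
  obtain ⟨N, A, B, T, e⟩ := div G.lam (aeval (fun s => ∏ l, X l ^ G.m s l) f)
  obtain ⟨hp, hx⟩ := XP.pf (D := 2 * dd) G.lam (Nat.mul_pos two_pos G.pos)
  rw [funext hc, hsm hf] at h
  have h0 := (mul_eq_zero.1 h).resolve_left (pow_ne_zero _ c0)
  have e1 := congrArg (aeval (R := K) fun l : Option Jx => l.elim (1 : M) (cz y)) e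
  have z : aeval (fun l : Option Jx => l.elim (1 : M) (cz y)) (mcF (2 * dd) G.lam) = 0 := by
    obtain ⟨u1, u2⟩ := G.UU_iff.1 hy.mem
    rw [Fin.prod_univ_succ] at u1
    rw [GD.om, Fin.sum_univ_succ] at u2
    simp only [mcF, map_sub, map_mul, map_prod, map_sum, map_pow, aeval_X, aeval_C, map_one]
    show (∏ i : Fin (2 * dd), y.1 i.succ) * (y.2 ^ 2 - _ - ∑ i : Fin (2 * dd), y.1 i.succ) - 1 = 0
    rw [u2]
    linear_combination u1
  have g0 : aeval (fun l : Option Jx => l.elim (1 : M) (cz y))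
      (rename some (aeval (fun s => ∏ l, (X l : MvPolynomial Jx K) ^ G.m s l) f)) = 0 := by
    rw [aeval_rename, comp_aeval_apply, ← h0]
    simp only [map_prod, map_pow, aeval_X]
    rfl
  rw [map_mul, g0, mul_zero, map_add, map_add, map_mul, map_mul, z, mul_zero, add_zero,
    aeval_rename, aeval_rename, aeval_X] at e1
  obtain ⟨a0, b0⟩ := indep hy (U := A) (V := B) e1.symm
  rw [a0, b0, map_zero, zero_mul, add_zero, zero_add] at e
  have dv := (hp.dvd_or_dvd (e ▸ dvd_mul_left _ T)).resolve_left fun d => by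
    obtain ⟨i, -, hi⟩ := (Prime.dvd_finsetProd_iff hp _).1 (hp.dvd_of_dvd_pow d)
    exact hx _ hi
  refine Ideal.mem_comap.2 (Ideal.mem_span_singleton.2 ?_)
  rw [hsm hf]
  refine dvd_mul_of_dvd_right ?_ _
  convert dv using 1
  rw [comp_aeval_apply]
  simp only [map_prod, map_pow, rename_X]

lemma ff [X1 K] [XG K] {M : Fld K} {α : Fld.base K →ₐ[K] M} {y : xz.X M} (hy : G.GenU 0 α y)
    (u : G.σ → M) : Bridge.FF u (G.ν (G.sec M y)) = ⊤ := by
  obtain ⟨c, c0, hc⟩ := nu_sec hy
  have r : ∀ s t, G.ν (G.sec M y) s / G.ν (G.sec M y) t ∈ Bridge.FF u (G.ν (G.sec M y)) :=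
    fun s t => IntermediateField.subset_adjoin _ _ (Or.inr ⟨(s, t), rfl⟩)
  have t := hy.top
  generalize Bridge.FF u (G.ν (G.sec M y)) = F at r
  have n := cz_ne hy
  have e : ∀ j, ∏ l, cz y l ^ G.e G.v0 j l ∈ F := fun j => by
    have := r (G.nb G.v0 j) (G.vx G.v0)
    rw [hc, hc, mul_div_mul_left _ _ c0, ← Finset.prod_div_distrib] at this
    convert this using 2 with l
    rw [← zpow_natCast, ← zpow_natCast, G.nb_eq, zpow_add₀ (n l),
      mul_div_cancel_left₀ _ (zpow_ne_zero _ (n l))]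
  have zs : ∀ (a : M) (k : Jx → ℤ), a ≠ 0 → ∏ j, a ^ k j = a ^ ∑ j, k j := fun a k a0 =>
    prod_zpow_sum a0 _ _
  have mz : ∀ l', cz y l' ∈ F := fun l' => by
    have := prod_mem (t := Finset.univ) fun j _ => zpow_mem (e j) (G.ρ (G.c G.v0 j) l')
    simp only [← Finset.prod_zpow, ← zpow_mul] at this
    rw [Finset.prod_comm] at this
    simp only [zs _ _ (n _), G.dual'] at this
    rwa [Finset.prod_eq_single l' (fun l _ hl => by rw [if_neg hl, zpow_zero]) (by simp),
      if_pos rfl, zpow_one] at this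
  refine top_le_iff.1 (t.ge.trans (IntermediateField.adjoin_le_iff.2 ?_))
  rintro _ (⟨c, rfl⟩ | ⟨l | l, rfl⟩)
  · exact (α.commutes c).symm ▸ F.algebraMap_mem c
  · show y.1 l ∈ F
    refine Fin.cases ?_ (fun i => mz (some i)) l
    have u1 := (G.UU_iff.1 hy.mem).1
    rw [Fin.prod_univ_succ] at u1
    rw [eq_inv_of_mul_eq_one_left u1]
    exact inv_mem (prod_mem fun i _ => mz (some i))
  · exact mz none

end XNa

theorem XN_thm [Rk] {K : Type} [Field K] [FW0 K] [XP] [X1 K] [XA K] [XG K] : XN K where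
  ker hy _ _ hf h := XNa.ker hy hf h
  ff hy u := XNa.ff hy u

end Pool.Agent.Lib.MP_557161_ag.HG.MC
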