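import Pool.Agent.Lib.MP_557161_ag.MC.StY

/-! The equation of the double cover is a prime polynomial. -/

namespace Pool.Agent.Lib.MP_557161_ag.HG.MC

namespace XP

open Polynomial in
/-- `a * X ^ 2 - b` is irreducible if `a`, `b` are coprime and a prime divides `a` exactly once. -/
theorem irr {R : Type} [CommRing R] [IsDomain R] {a b π : R} (hab : IsCoprime a b) (hπ : Prime π)
    (h1 : π ∣ a) (h2 : ¬ π * π ∣ a) : Irreducible (C a * X ^ 2 - C b : R[X]) := by
  have ha : a ≠ 0 := fun h => h2 (h ▸ dvd_zero _)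
  have hb : ¬ π ∣ b := fun h => hπ.not_isUnit (hab.isUnit_of_dvd' h1 h)
  have hd : (C a * X ^ 2 - C b : R[X]).natDegree = 2 := by
    rw [natDegree_sub_C, natDegree_C_mul_X_pow _ _ ha]
  have h0 : (C a * X ^ 2 - C b : R[X]) ≠ 0 := fun h => by simp [h] at hd
  have c2 : (C a * X ^ 2 - C b : R[X]).coeff 2 = a := by simp
  have c1 : (C a * X ^ 2 - C b : R[X]).coeff 1 = 0 := by simp [coeff_X_pow]
  have c0 : (C a * X ^ 2 - C b : R[X]).coeff 0 = -b := by simp
  have k0 : ∀ f g : R[X], C a * X ^ 2 - C b = f * g → f.natDegree = 0 → IsUnit f := by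
    intro f g h hf
    rw [eq_C_of_natDegree_eq_zero hf] at h ⊢
    rw [h, coeff_C_mul] at c2 c0
    exact isUnit_C.2 (hab.isUnit_of_dvd' ⟨_, c2.symm⟩ (dvd_neg.1 ⟨_, c0.symm⟩))
  have k1 : ∀ f0 f1 g0 g1 : R, f1 * g1 = a → f0 * g1 + f1 * g0 = 0 → f0 * g0 = -b → π ∣ f1 →
      False := by
    intro f0 f1 g0 g1 e2 e1 e0 h
    have h3 : π ∣ f0 * g1 := by
      rw [eq_neg_of_add_eq_zero_left e1]
      exact dvd_neg.2 (h.mul_right _)
    rcases hπ.dvd_or_dvd h3 with h4 | h4
    · exact hb (dvd_neg.1 (e0 ▸ h4.mul_right _))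
    · exact h2 (e2 ▸ mul_dvd_mul h h4)
  refine ⟨fun h => by simp [natDegree_eq_zero_of_isUnit h] at hd, fun f g h => ?_⟩
  have hf : f ≠ 0 := fun e => h0 (by rw [h, e, zero_mul])
  have hg : g ≠ 0 := fun e => h0 (by rw [h, e, mul_zero])
  rw [h, natDegree_mul hf hg] at hd
  by_cases f0 : f.natDegree = 0
  · exact Or.inl (k0 f g h f0)
  by_cases g0 : g.natDegree = 0
  · exact Or.inr (k0 g f (h.trans (mul_comm _ _)) g0)
  exfalso
  have f2 : f.coeff 2 = 0 := coeff_eq_zero_of_natDegree_lt (by omega)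
  have g2 : g.coeff 2 = 0 := coeff_eq_zero_of_natDegree_lt (by omega)
  rw [h, coeff_mul] at c2 c1 c0
  simp only [Finset.Nat.antidiagonal_succ, Finset.Nat.antidiagonal_zero, Finset.sum_cons,
    Finset.map_cons, Finset.map_singleton, Finset.sum_singleton, Function.Embedding.coe_prodMap,
    Function.Embedding.coeFn_mk, Prod.map_apply, Function.Embedding.refl_apply, Nat.succ_eq_add_one,
    zero_add, Nat.reduceAdd, f2, g2, mul_zero, zero_mul, add_zero] at c2 c1 c0
  rcases hπ.dvd_or_dvd (c2 ▸ h1 : π ∣ f.coeff 1 * g.coeff 1) with h3 | h3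
  · exact k1 _ _ _ _ c2 c1 c0 h3
  · exact k1 (g.coeff 0) (g.coeff 1) (f.coeff 0) (f.coeff 1) (by rw [mul_comm, c2])
      (by rw [← c1]; ring) (by rw [mul_comm, c0]) h3

open MvPolynomial

theorem prime {k : Type} [Field k] {D : ℕ} (lam : k) (hD : 0 < D) : Prime (mcF D lam) := by
  classical
  let e := (renameEquiv k (Equiv.swap (none : Option (Option (Fin D))) (some none))).trans
    (optionEquivLeft k (Option (Fin D)))
  have e1 : e (X (some none)) = Polynomial.X := by simp [e]
  have e2 : ∀ i, e (X (some (some i))) = Polynomial.C (X (some i)) := fun i => by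
    have : Equiv.swap (none : Option (Option (Fin D))) (some none) (some (some i)) =
        some (some i) := Equiv.swap_apply_of_ne_of_ne (by simp) (by simp)
    simp [e, this]
  have e3 : e (C lam) = Polynomial.C (C lam) := by simp [e]
  have h : e (mcF D lam) = Polynomial.C (∏ i, X (some i)) * Polynomial.X ^ 2 -
      Polynomial.C ((∏ i, X (some i)) * (C lam + ∑ i, X (some i)) + 1) := by
    simp only [mcF, map_sub, map_mul, map_prod, map_sum, map_pow, map_one, map_add, e1, e2, e3]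
    ring
  refine (MulEquiv.prime_iff e).1 (Irreducible.prime ?_)
  rw [h]
  let i₀ : Fin D := ⟨0, hD⟩
  refine irr (π := X (some i₀)) ⟨-(C lam + ∑ i, X (some i)), 1, by ring⟩ X_prime
    (Finset.dvd_prod_of_mem _ (Finset.mem_univ i₀)) fun h2 => ?_
  rw [← Finset.mul_prod_erase _ _ (Finset.mem_univ i₀), mul_dvd_mul_iff_left (X_ne_zero _)] at h2
  have h3 := map_dvd (eval fun l : Option (Fin D) => if l = some i₀ then (0 : k) else 1) h2
  rw [map_prod, Finset.prod_eq_one fun i hi => by simp [Finset.ne_of_mem_erase hi]] at h3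
  simp at h3

end XP

open MvPolynomial in
theorem XP_thm : XP := ⟨fun {k} _ {D} lam hD => ⟨XP.prime lam hD, fun l h => by
  have h1 : X l ∣ mcF D lam :=
    ((XP.prime lam hD).irreducible.associated_of_dvd (X_prime (i := l)).irreducible h).symm.dvd
  have h2 := map_dvd (eval fun _ => (0 : k)) h1
  have : Nonempty (Fin D) := ⟨⟨0, hD⟩⟩
  simp [mcF, hD.ne'] at h2⟩⟩

end Pool.Agent.Lib.MP_557161_ag.HG.MC
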