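import Pool.Agent.Lib.MP_557161_ag.MC.StV
import Pool.Agent.Lib.MP_557161_ag.MC.XW
import Pool.Agent.Lib.MP_557161_ag.HG.XQ

/-!
From linear forms on cycles of the square to functionals on the unramified part.
-/

namespace Pool.Agent.Lib.MP_557161_ag.HG.MC

open Pool.Agent.Lib.MP_557161_ag.DL MvPolynomial
open Pool.Agent.Lib.MP_60ec62_ag.DL (Cyc)
open Bridge (vv dg FF PP)

variable [Rk] {K : Type} [Field K] {p : ℕ}

namespace XQb

variable {G : GD K} {L M : Fld K}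

lemma nu_map [XU] [X1 K] (κ : M →ₐ[K] L) (y : xz.X M) :
    G.ν (G.sec L (xz.map κ y)) = fun s => κ (G.ν (G.sec M y) s) := by
  rw [← X1.sec_map]
  exact (XU.map κ.toRingHom G.toFan (G.sec M y)).symm

lemma exists_gen {y : xz.X L} (hL : Good (2 * dd) L) (hy : G.UU.mem L y)
    (h : dg (xf L fun _ : Bool => y) ≠ 0) : ∃ (M : Fld K) (α : Fld.base K →ₐ[K] M) (β : M →ₐ[K] L)
      (y₀ : xz.X M), G.GenU 0 α y₀ ∧ xz.map β y₀ = y := by
  obtain ⟨α, β, T, -, hT, ht⟩ := Fa1.exists_sub (L := .base K) (Algebra.ofId K L) (xz.co y)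
  have e1 : xz.map β (xz.mk' T) = y :=
    xz.inj (funext fun i => by rw [xz.co_map, xz.co_mk, hT])
  have hF : (xf L fun _ : Bool => y) ≤ gen (L := .base K) (Algebra.ofId K L) (xz.co y) :=
    IntermediateField.adjoin_le_iff.2 (by
      rintro _ ⟨⟨t, i⟩, rfl⟩
      exact Fa1.right_mem _ (xz.co y) (Sum.inl i))
  have h1 := tr_le (L := L.sub (xf L fun _ : Bool => y)) (L' := L.sub _)
    (IntermediateField.inclusion hF)
  rw [XWa.tr_of_dg hL h] at h1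
  exact ⟨_, α, β, xz.mk' T, ⟨good_base, (zero_add (2 * dd)).symm ▸
    hL.down (ι := β) (le_antisymm ((tr_le β).trans hL.2.le) h1),
    (G.UU.map_iff β _).1 (e1.symm ▸ hy), by rw [xz.co_mk, ht]⟩, e1⟩

lemma gr_val [XU] [X1 K] [XF K p] [XG K] [XN K] [XI K p] (Y : Sm K G.σ) (hY : Y.I = G.I) {Q : ℕ}
    (hQ : G.Fr p Q) (b : Cyc (MvPolynomial (G.σ ⊕ G.σ) K) →ₗ[ℚ] ℚ) {y : xz.X L}
    (hL : Good (2 * dd) L) (hy : G.UU.mem L y) (h : dg (xf L fun _ : Bool => y) ≠ 0) :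
    2 * ((dg (FF (G.ν (G.sec L (frb Q L y))) (G.ν (G.sec L y))) : ℚ) *
      b (Finsupp.single (PP (G.ν (G.sec L (frb Q L y))) (G.ν (G.sec L y))) 1)) =
      dg (xf L fun _ : Bool => y) * b (Y.grC Q) := by
  obtain ⟨M, α, β, y₀, hU, rfl⟩ := exists_gen hL hy h
  have h2 := XG.dgr hU ∅
  have h1 : ∀ F : IntermediateField K (Fld.base K), dg F = 1 := fun F =>
    deg_of_surj (L := (Fld.base K).sub F) (L' := .base K) fun x => ⟨⟨x, F.algebraMap_mem x⟩, rfl⟩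
  rw [Set.image_empty, Set.empty_union, h1] at h2
  have h3 : (xf M fun _ : Bool => y₀) = IntermediateField.adjoin K (Set.range y₀.1) :=
    congrArg (IntermediateField.adjoin K) ((Prod.snd_surjective (α := Bool)).range_comp y₀.1)
  have e2 : frb Q L (xz.map β y₀) = xz.map β (frb Q M y₀) := (XF.map p Q β y₀).symm
  have e5 : dg (xf L fun _ : Bool => xz.map β y₀) = 2 * 1 * deg β := by
    rw [XWc.xf_map β fun _ => y₀, Bridge.dg_map, h3, h2]
  have e6 : dg (FF (G.ν (G.sec L (frb Q L (xz.map β y₀)))) (G.ν (G.sec L (xz.map β y₀)))) =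
      1 * deg β := by
    rw [e2, nu_map, nu_map]
    exact (congrArg dg (Bridge.FF_map β _ _)).trans (by
      rw [Bridge.dg_map, XN.ff hU, Bridge.dg_top])
  have e7 : PP (G.ν (G.sec L (frb Q L (xz.map β y₀)))) (G.ν (G.sec L (xz.map β y₀))) =
      PP (G.ν (G.sec M (frb Q M y₀))) (G.ν (G.sec M y₀)) := by
    rw [e2, nu_map, nu_map]
    exact Bridge.PP_map β _ _
  rw [XI.gr G Y hY Q hQ hU, e5, e6, e7]
  push_cast
  ring

lemma cmp [YA K] (O : Pl M) {E : (G.Γ.amb K).pt M} (h : G.CC.sp.mem E) :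
    G.CC.sp.mem ((G.Γ.amb K).red O E) := by
  obtain ⟨y, hy, rfl⟩ := h
  obtain ⟨u, y', h1, h2, h3⟩ := YA.cmp O hy
  exact ⟨y', h2, (G.Γ.red_pt (Wt.nm_un h1) h3 (G.CC.nz _ _ h2)).symm⟩

lemma ver [XU] [WA K] (G : GD K) : ∃ m : Mor G.CC.sp (Lines K G.σ), ∀ (L : Fld K) (y : Vr → L),
    G.Cn L y → m.f (L := L) (G.Γ.pt y) = Submodule.span L {G.ν y} :=
  WA.line G.CC (wν G.toFan) (fun _ y => G.ν y) (fun s => ⟨fun _ _ R _ _ _ _ e =>
    XU.rel R G.toFan e s, fun _ _ y h _ => congrFun (XU.scl G.toTD y h) s⟩)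
    fun _ _ h => XU.nz.2 h.1

end XQb

theorem XQ_thm [Base K] [FA3 K] [WA K] [XU] [X1 K] [XF K p] [XG K] [XL K] [XN K] [XI K p] [YA K]
    [YB K] [YQ K] : XQ K p where
  brg G Y hY q hq b hb := by
    classical
    have hI : Homog Y.I := wHomog_iff_homog.1 Y.hI
    let φ₀ : Fn (dd * Nat.card Bool) ((DL.XS Y.I hI).prod (DL.XS Y.I hI)) :=
      { v := vv b hI _
        supp := fun L y e => by_contra fun e' => e (if_neg e')
        ext := Bridge.vv_ext b hI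
        low := Bridge.vv_low b hI
        rat := fun M y f hM hy hf => (Bridge.vv_rat b hI (fun z g h γ k1 k2 k3 k4 k5 k6 => hb
          (Submodule.mem_sup_left (Submodule.mem_sup_left (Submodule.subset_span
            ⟨z, g, h, γ, k1, k2, k3, k4, k5, k6, rfl⟩)))) (fun Z hZ => hb (Submodule.mem_sup_left
              (Submodule.mem_sup_right (Submodule.subset_span
                ⟨Z, by rintro _ ⟨s, t, rfl⟩; exact hZ s t, rfl⟩)))) y hM hy hf).out }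
    have k0 : φ₀.Kills := Bridge.vv_kills b hI fun a c k1 k2 k3 k4 k5 => hb (Submodule.mem_sup_right
      (Submodule.mem_iSup_of_mem _ (Submodule.subset_span ⟨a, c, k1, k2, k3, k4, k5, rfl⟩)))
    obtain ⟨ν, hν⟩ := XQb.ver G
    have hx : ∀ {L : Fld K} {E : (G.Γ.amb K).pt L}, G.CC.sp.mem E → (DL.XS Y.I hI).mem (ν.f E) := by
      rintro L _ ⟨y, hy, rfl⟩
      exact ⟨G.ν y, XU.nz.2 hy.1, hY ▸ XL.zl hy, hν L y hy⟩
    let m : Mor (G.CC.sp.prod G.CC.sp) ((DL.XS Y.I hI).prod (DL.XS Y.I hI)) :=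
      ⟨fun y => (ν.f y.1, ν.f y.2), fun _ h => ⟨hx h.1, hx h.2⟩,
        fun ι y h => Prod.ext (ν.nat ι y.1 h.1) (ν.nat ι y.2 h.2),
        fun O y hO h h' => Prod.ext (ν.cont O y.1 hO h.1 h'.1) (ν.cont O y.2 hO h.2 h'.2)⟩
    have hm : m.Proper := fun O _ _ h _ => ⟨XQb.cmp O h.1, XQb.cmp O h.2⟩
    have k1 : (φ₀.pull m hm).Kills := fun L L₁ L₂ ι₁ ι₂ y z h => by
      by_contra e
      have h1 := ((φ₀.pull m hm).supp _ _ e).2
      exact e ((Fn.pull_of_mem _ _ _ h1).trans ((congrArg (φ₀.v L) (Prod.ext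
        (ν.nat ι₁ y ((G.CC.sp.map_iff ι₁ y).1 h1.1))
        (ν.nat ι₂ z ((G.CC.sp.map_iff ι₂ z).1 h1.2)))).trans (k0 L L₁ L₂ ι₁ ι₂ _ _ h)))
    have hv : ∀ (L : Fld K) (A B : Vr → L), Good (dd * Nat.card Bool) L → G.Cn L A → G.Cn L B →
        (φ₀.pull m hm).v L (G.Γ.pt A, G.Γ.pt B) =
          Bridge.wt b (Submodule.span L {G.ν A}) (Submodule.span L {G.ν B}) :=
      fun L A B h hA hB => by
        have h' : (G.CC.sp.prod G.CC.sp).mem (L := L) (G.Γ.pt A, G.Γ.pt B) :=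
          ⟨⟨A, hA, rfl⟩, B, hB, rfl⟩
        rw [← hν L A hA, ← hν L B hB]
        exact (Fn.pull_of_mem m hm φ₀ h').trans (if_pos ⟨h, m.mem _ h'⟩)
    generalize φ₀.pull m hm = φ₁ at k1 hv
    obtain ⟨φ, h1, h2, h3⟩ := YQ.aff G (XQa.cx φ₁) (fun L L₁ L₂ ι₁ ι₂ y z h =>
      (congrArg Rat.cast (k1 L L₁ L₂ ι₁ ι₂ y z h)).trans Rat.cast_zero) fun L w E hw =>
        ⟨(congrArg Rat.cast (YB.bd G φ₁ k1 L w E hw).1).trans Rat.cast_zero,
          (congrArg Rat.cast (YB.bd G φ₁ k1 L w E hw).2).trans Rat.cast_zero⟩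
    replace h1 : ∀ (L : Fld K) (x : Bool → xz.X L), (∀ t, G.UU.mem L (x t)) →
        φ.a L x = (φ₁.v L (G.Γ.pt (G.sec L (x true)), G.Γ.pt (G.sec L (x false))) : ℂ) := h1
    refine ⟨φ, h2, h3, fun j L P hL hU hP => ?_⟩
    obtain ⟨y, rfl⟩ : ∃ y, P = fun _ => y :=
      ⟨P true, funext fun t => by cases t; exacts [hP true, rfl]⟩
    by_cases h : dg (xf L fun _ : Bool => y) = 0
    · rw [XWc.low0 φ.toPre q _ hL hU h, h, Nat.cast_zero, zero_mul]
    have hQ := XF.pow hq j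
    have c1 := (XF.mem hQ).2 (hU true)
    have e1 : cfg q (fun b => bif b then j else 0) L (fun _ => y) false = y := XF.one p L y
    have e2 : cfg q (fun b => bif b then j else 0) L (fun _ => y) true = frb (q ^ j) L y := rfl
    have c2 := (X1.sec_co c1).1
    have c2' := (X1.sec_co (hU true)).1
    have c3 : φ₁.v L (G.Γ.pt (G.sec L (frb (q ^ j) L y)), G.Γ.pt (G.sec L y)) = _ :=
      (hv L _ _ hL c2 c2').trans (Bridge.wt_span b (XU.nz.2 c2.1) (XU.nz.2 c2'.1))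
    have c4 := XQb.gr_val Y hY hQ b (by simpa [mul_comm] using hL) (hU true) h
    rw [← c3] at c4
    rw [h1 L _ fun t => by cases t; exacts [e1.symm ▸ hU true, c1], e1, e2, ← mul_div_assoc,
      eq_div_iff two_ne_zero, mul_comm]
    exact_mod_cast c4

end Pool.Agent.Lib.MP_557161_ag.HG.MC
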