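import Pool.Agent.Lib.MP_557161_ag.MC.StY

/-!
Points of the zero locus of the ideal over a ring: binomial relations and the charts.
-/

namespace Pool.Agent.Lib.MP_557161_ag.HG.MC

open Pool.Agent.Lib.MP_557161_ag.DL MvPolynomial Matrix

namespace XRa

lemma img {A σ ι J : Type} [CommRing A] [Fintype ι] [Fintype J] (m : σ → J → ℕ) (t : A) (x : J → A)
    (s : ι → σ) (a : ι → ℕ) :
    ∏ i, (t * ∏ l, x l ^ m (s i) l) ^ a i = t ^ (∑ i, a i) * ∏ l, x l ^ ∑ i, a i * m (s i) l := by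
  simp only [mul_pow, Finset.prod_mul_distrib, Finset.prod_pow_eq_pow_sum, ← Finset.prod_pow,
    ← pow_mul]
  rw [Finset.prod_comm]
  simp only [Finset.prod_pow_eq_pow_sum, mul_comm]

lemma bin {k R : Type} [Field k] [CommRing R] [Algebra k R] {σ ι κ : Type} [Fintype ι] [Fintype κ]
    {D : ℕ} (m : σ → Jd D → ℕ) (lam : k) (N : σ → R) (h : ∀ f ∈ mcI m lam, aeval N f = 0)
    (s : ι → σ) (s' : κ → σ) (a : ι → ℕ) (b : κ → ℕ) (h1 : ∑ i, a i = ∑ i, b i)
    (h2 : ∀ l, ∑ i, a i * m (s i) l = ∑ i, b i * m (s' i) l) :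
    ∏ i, N (s i) ^ a i = ∏ i, N (s' i) ^ b i := by
  have h3 := h (∏ i, X (s i) ^ a i - ∏ i, X (s' i) ^ b i) (by
    rw [mcI, Ideal.mem_comap]
    simp only [map_sub, map_prod, map_pow, aeval_X, img, h1, h2, sub_self]
    exact zero_mem _)
  simpa only [map_sub, map_prod, map_pow, aeval_X, sub_eq_zero] using h3

/-- The exponents of the monomials of the equation. -/
def q (D : ℕ) (s : Sd D) : Jd D → ℕ :=
  s.elim (fun l => l.elim 2 fun _ => 1) fun s => s.elim (fun l => l.elim 0 fun _ => 1) fun i =>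
    Fin.cases (fun _ => 0) (fun i l => l.elim 0 fun l => 1 + if l = i then 1 else 0) i

lemma q_eq (D : ℕ) (s : Sd D) (l : Jd D) : (q D s l : ℤ) = sp D s l + l.elim 0 fun _ => 1 := by
  rcases s with _ | _ | i
  · rcases l with _ | l <;> simp [q, sp]
  · rcases l with _ | l <;> simp [q, sp]
  · refine Fin.cases ?_ (fun i => ?_) i
    · rcases l with _ | l <;> simp [q, sp, ev]
    · rcases l with _ | l
      · simp [q, sp, ev]
      · simp [q, sp, ev, Pi.single_apply, add_comm]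

lemma mcF_eq {k : Type} [Field k] (D : ℕ) (lam : k) :
    mcF D lam = ∑ s, C (cfs lam s) * ∏ l, X (some l) ^ q D s l := by
  simp only [Fintype.sum_option, Fintype.prod_option, Fin.sum_univ_succ, q, cfs, Option.elim,
    Fin.cases_zero, Fin.cases_succ, pow_one, pow_zero, pow_add, Finset.prod_mul_distrib, pow_ite,
    Finset.prod_ite_eq', Finset.mem_univ, if_true, map_one, map_neg, one_mul, Finset.prod_const_one,
    neg_mul, Finset.sum_neg_distrib, ← Finset.mul_sum, mcF]
  ring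

section Fan

variable {D : ℕ} {R : Type} (F : Fan D R) (v : F.V)

lemma rec' (x : Jd D → ℤ) (l : Jd D) : ∑ j, (F.ρ (F.c v j) ⬝ᵥ x) * F.e v j l = x l := by
  have h := F.expand v (Pi.single l 1) x
  simp only [single_dotProduct, one_mul] at h
  rw [← h]
  exact Finset.sum_congr rfl fun _ _ => mul_comm _ _

lemma m_eq (s : F.σ) (l : Jd D) :
    (F.m s l : ℤ) = F.m (F.vx v) l + ∑ j, (F.eb (F.c v j) s : ℤ) * F.e v j l := by
  simp only [F.eb_eq, fun j => ((F.eq v (F.c v j)).2 ⟨j, rfl⟩).symm, sub_mul,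
    Finset.sum_sub_distrib, rec']
  ring

lemma ex_eq (s : F.σ) (l : Jd D) :
    F.m s l + (∑ j, F.eb (F.c v j) s) * F.m (F.vx v) l =
      F.m (F.vx v) l + ∑ j, F.eb (F.c v j) s * F.m (F.nb v j) l := by
  apply Nat.cast_injective (R := ℤ)
  push_cast
  rw [m_eq F v s l]
  simp only [F.nb_eq, mul_add, Finset.sum_add_distrib, Finset.sum_mul]
  ring

lemma sp_eq {s₀ : Sd D} (h : ∀ i, F.ρ (F.c v i) ⬝ᵥ sp D s₀ = F.ψ (F.c v i)) {B : ℕ} {s : Sd D}
    (hB : ∑ j, F.ea (F.c v j) s ≤ B) (l : Jd D) :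
    q D s₀ l + ((B - ∑ j, F.ea (F.c v j) s) * F.m (F.vx v) l +
      ∑ j, F.ea (F.c v j) s * F.m (F.nb v j) l) = B * F.m (F.vx v) l + q D s l := by
  have h1 : ∑ j, (F.ea (F.c v j) s : ℤ) * F.e v j l = sp D s l - sp D s₀ l := by
    simp only [F.ea_eq, ← h, sub_mul, Finset.sum_sub_distrib, rec']
  apply Nat.cast_injective (R := ℤ)
  push_cast [Nat.cast_sub hB]
  simp only [F.nb_eq, mul_add, Finset.sum_add_distrib, ← Finset.sum_mul, h1, q_eq]
  ring

lemma mem [XP] {k : Type} [Field k] (lam : k) (hD : 0 < D) : ∃ n : Sd D → ℕ,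
    ∑ s, C (cfs lam s) * (X (F.vx v) ^ n s * ∏ j, X (F.nb v j) ^ F.ea (F.c v j) s) ∈
      mcI F.m lam := by
  obtain ⟨s₀, h⟩ := F.ad v
  obtain ⟨B, hB⟩ : ∃ B, ∀ s, ∑ j, F.ea (F.c v j) s ≤ B :=
    ⟨_, fun s => Finset.single_le_sum (f := fun s => ∑ j, F.ea (F.c v j) s)
      (fun _ _ => Nat.zero_le _) (Finset.mem_univ s)⟩
  refine ⟨fun s => B - ∑ j, F.ea (F.c v j) s, ?_⟩
  obtain ⟨h1, h2⟩ := XP.pf lam hD
  rw [mcI, Ideal.mem_comap, Ideal.mem_span_singleton]
  refine (h1.dvd_or_dvd (a := ∏ l, X (some l) ^ q D s₀ l)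
    ⟨X none ^ B * ∏ l, X (some l) ^ (B * F.m (F.vx v) l), ?_⟩).resolve_left fun h3 => ?_
  · rw [mcF_eq, map_sum, Finset.mul_sum, Finset.sum_mul]
    refine Finset.sum_congr rfl fun s _ => ?_
    have h4 : ∀ l, (X (some l) : MvPolynomial (Option (Jd D)) k) ^ q D s₀ l *
        (X (some l) ^ ((B - ∑ j, F.ea (F.c v j) s) * F.m (F.vx v) l) *
          X (some l) ^ ∑ j, F.ea (F.c v j) s * F.m (F.nb v j) l) =
        X (some l) ^ (B * F.m (F.vx v) l) * X (some l) ^ q D s l := fun l => by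
      rw [← pow_add, ← pow_add, ← pow_add, sp_eq F v h (hB s)]
    have h5 := Finset.prod_congr (s₁ := Finset.univ) rfl fun l _ => h4 l
    have h6 : (X none : MvPolynomial (Option (Jd D)) k) ^ B =
        X none ^ (B - ∑ j, F.ea (F.c v j) s) * X none ^ ∑ j, F.ea (F.c v j) s := by
      rw [← pow_add, Nat.sub_add_cancel (hB s)]
    simp only [Finset.prod_mul_distrib] at h5
    simp only [map_mul, map_pow, map_prod, aeval_X, aeval_C, algebraMap_eq, img]
    simp only [mul_pow, ← Finset.prod_pow, ← pow_mul']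
    linear_combination C (cfs lam s) * X none ^ B * h5 - C (cfs lam s) *
      (∏ l, X (some l) ^ q D s₀ l) * (∏ l, X (some l) ^ ((B - ∑ j, F.ea (F.c v j) s) *
        F.m (F.vx v) l)) * (∏ l, X (some l) ^ ∑ j, F.ea (F.c v j) s * F.m (F.nb v j) l) * h6
  · obtain ⟨l, -, h4⟩ := h1.exists_mem_finset_dvd h3
    exact h2 _ (h1.dvd_of_dvd_pow h4)

end Fan

variable [Rk] {R : Type} [CommRing R] (F : Fan (2 * dd) Ry) (v : F.V) (N : F.σ → R)

lemma mon_unp (a : Ry → ℕ) : mon a (unp F v N) = ∏ j, N (F.nb v j) ^ a (F.c v j) := by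
  simp only [mon, unp, Option.elim, ← Finset.prod_pow, ite_pow, one_pow]
  rw [Finset.prod_comm]
  simp only [Finset.prod_ite_eq, Finset.mem_univ, if_true]

end XRa

theorem XR_thm [Rk] [XP] : XR where
  bin := XRa.bin
  ring F lam hd v N h h1 := by
    refine ⟨fun r => ?_, funext fun s => ?_, rfl, fun r hr => ?_⟩
    · fin_cases r
      · exact eqs0 F lam _
      · obtain ⟨n, hn⟩ := XRa.mem F v lam (Nat.mul_pos two_pos hd)
        refine (eqs1 F lam _).trans ?_
        simpa only [map_sum, map_mul, map_pow, map_prod, aeval_X, aeval_C, h1, one_pow, one_mul,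
          XRa.mon_unp] using h _ hn
    · have h2 := XRa.bin F.m lam N h (fun b : Option Unit => b.elim s fun _ => F.vx v)
        (fun j : Option Jx => j.elim (F.vx v) (F.nb v))
        (fun b => b.elim 1 fun _ => ∑ j, F.eb (F.c v j) s)
        (fun j => j.elim 1 fun j => F.eb (F.c v j) s)
        (by
          rw [Fintype.sum_option, Fintype.sum_option (α := Jx), Fintype.sum_unique (ι := Unit)]
          rfl)
        fun l => by
          rw [Fintype.sum_option, Fintype.sum_option (α := Jx), Fintype.sum_unique (ι := Unit)]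
          simpa only [Option.elim, one_mul] using XRa.ex_eq F v s l
      rw [Fintype.prod_option, Fintype.prod_option (α := Jx), Fintype.prod_unique] at h2
      simp only [Option.elim, h1, one_pow, one_mul, mul_one, pow_one] at h2
      exact (XRa.mon_unp F v N _).trans h2.symm
    · rw [unp, Option.elim_some]
      exact Finset.prod_eq_one fun j _ => if_neg fun e => hr ⟨j, e⟩
  cv F lam N h s := by
    obtain ⟨n, a, h0, h1, h2⟩ := F.conv s
    have h3 := XRa.bin F.m lam N h (fun _ : Unit => s) F.vx (fun _ => n) a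
      (by rw [Fintype.sum_unique, h1]) fun l => by rw [Fintype.sum_unique, h2]
    rw [Fintype.prod_unique] at h3
    obtain ⟨v, -, hv⟩ := Finset.exists_ne_zero_of_sum_ne_zero (h1.trans_ne h0.ne')
    exact ⟨v, n, h0, h3 ▸ (dvd_pow_self _ hv).trans (Finset.dvd_prod_of_mem _ (Finset.mem_univ v))⟩

end Pool.Agent.Lib.MP_557161_ag.HG.MC
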