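import Pool.Agent.Lib.MP_557161_ag.MC.StY
import Pool.Agent.Lib.MP_557161_ag.MC.F6

/-!
The embedding of the toric variety and its inverse on the charts.
-/

namespace Pool.Agent.Lib.MP_557161_ag.HG.MC

open Pool.Agent.Lib.MP_557161_ag.DL MvPolynomial Matrix

namespace XUa

variable [Rk]

section Ring

variable {R : Type} [CommRing R] (F : Fan (2 * dd) Ry) (v : F.V) (w : Vr → R)

lemma mon_nrm (h : Nrm F v w) (a : Ry → ℕ) : mon a w = ∏ j, w (some (F.c v j)) ^ a (F.c v j) := by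
  classical
  rw [mon, ← Finset.prod_image (s := Finset.univ) (g := F.c v) (f := fun r => w (some r) ^ a r)
    fun _ _ _ _ e => F.inj v e]
  refine (Finset.prod_subset (Finset.subset_univ _) fun r _ hr => ?_).symm
  rw [h.2 r fun ⟨j, e⟩ => hr (Finset.mem_image.2 ⟨j, Finset.mem_univ _, e⟩), one_pow]

lemma one (h : Nrm F v w) : nu F w (F.vx v) = 1 :=
  (mon_nrm F v w h _).trans (Finset.prod_eq_one fun j _ => by
    rw [(F6a.eb_zero F v _).2 ⟨j, rfl⟩, pow_zero])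

lemma back (h : Nrm F v w) : unp F v (nu F w) = w := by
  funext l
  rcases l with _ | r
  · exact h.1.symm
  rw [unp, Option.elim_some]
  by_cases hr : r ∈ Set.range (F.c v)
  · obtain ⟨i, rfl⟩ := hr
    simp only [(F.inj v).eq_iff, Finset.prod_ite_eq', Finset.mem_univ, if_true, nu, mon_nrm F v w h,
      F6a.eb_nb, pow_ite, pow_one, pow_zero]
  · rw [h.2 r hr]
    exact Finset.prod_eq_one fun j _ => if_neg fun e => hr ⟨j, e⟩

end Ring

variable {L : Type} [Field L]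

lemma vx (F : Fan (2 * dd) Ry) (w : Vr → L) (v : F.V) :
    nu F w (F.vx v) ≠ 0 ↔ ∀ r, r ∉ Set.range (F.c v) → w (some r) ≠ 0 := by
  simp only [nu, mon, Finset.prod_ne_zero_iff, Finset.mem_univ, true_imp_iff, ← F6a.eb_zero,
    ne_eq, pow_eq_zero_iff']
  exact forall_congr' fun r => by tauto

variable {T : TD} {w w' : Vr → L}

lemma chart {v : T.V} {u : Tr → Vr} (hu : Cm T.toFan v u) :
    T.Γ.Ch u w ↔ ∀ r, r ∉ Set.range (T.c v) → w (some r) ≠ 0 := by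
  refine ⟨fun h r hr => ?_, fun h s => ⟨⟨v, hu⟩, ?_⟩⟩
  · obtain ⟨s, e⟩ := (hu.2 _).2 ⟨r, rfl, hr⟩
    exact e ▸ (h s).2
  · obtain ⟨r, e, hr⟩ := (hu.2 _).1 ⟨s, rfl⟩
    exact e ▸ h r hr

lemma ch : T.Γ.nz w ↔ ∃ v, ∀ r, r ∉ Set.range (T.c v) → w (some r) ≠ 0 :=
  ⟨fun ⟨_, h⟩ => (h 0).1.imp fun _ hu => (chart hu).1 h,
    fun ⟨v, h⟩ => (T.cm v).imp fun _ hu => (chart hu).2 h⟩

lemma vert {s : T.σ} (h : nu T.toFan w s ≠ 0) : ∃ v, nu T.toFan w (T.vx v) ≠ 0 := by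
  obtain ⟨N, a, h0, h1, h2⟩ := T.conv s
  obtain ⟨v, -, hv⟩ := Finset.exists_ne_zero_of_sum_ne_zero (h1.trans_ne h0.ne')
  refine ⟨v, (vx _ w v).2 fun r hr e => h (Finset.prod_eq_zero (Finset.mem_univ r) ?_)⟩
  rw [e, zero_pow]
  intro h3
  have h4 := F6a.eb_conv T.toFan h1 h2 r
  rw [show T.eb r s = 0 from h3, zero_mul, Finset.sum_eq_zero_iff] at h4
  exact hr ((F6a.eb_zero _ v r).1 ((mul_eq_zero.1 (h4 v (Finset.mem_univ v))).resolve_right hv))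

lemma nz : nu T.toFan w ≠ 0 ↔ T.Γ.nz w := by
  rw [ch]
  exact ⟨fun h => (Function.ne_iff.1 h).elim fun _ hs => (vert hs).imp fun v hv => (vx _ w v).1 hv,
    fun ⟨v, h⟩ => Function.ne_iff.2 ⟨_, (vx _ w v).2 h⟩⟩

lemma scl {a : Tr → L} (w : Vr → L) (h : Un a) :
    nu T.toFan (T.Γ.scl a w) = wt a (wν T.toFan) • nu T.toFan w :=
  funext fun s => (T.mon_scl _ h w).trans (congrArg (wt a · * _) (T.wt_eb s))

lemma nrm {v : T.V} (h0 : w none = 0) (h : nu T.toFan w (T.vx v) ≠ 0) :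
    ∃ a, Un a ∧ Nrm T.toFan v (T.Γ.scl a w) := by
  obtain ⟨u, hu⟩ := T.cm v
  have h1 := (chart hu).2 ((vx _ w v).1 h)
  refine ⟨_, Wt.nm_un h1, mul_eq_zero_of_right _ h0, fun r hr => ?_⟩
  obtain ⟨s, e⟩ := (hu.2 _).2 ⟨r, rfl, hr⟩
  exact e ▸ Wt.co_nm h1 s

lemma inj {c : L} (h0 : T.Γ.nz w) (z : w none = 0) (z' : w' none = 0) (hc : c ≠ 0)
    (e : nu T.toFan w' = c • nu T.toFan w) : T.Γ.pt w = T.Γ.pt w' := by
  obtain ⟨v, hv⟩ := ch.1 h0
  have hs := (vx _ w v).2 hv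
  have hs' : nu T.toFan w' (T.vx v) ≠ 0 := by
    rw [e]
    exact mul_ne_zero hc hs
  obtain ⟨a, ha, n⟩ := nrm z hs
  obtain ⟨a', ha', n'⟩ := nrm z' hs'
  have e1 := one _ v _ n
  have e2 := one _ v _ n'
  rw [scl _ ha] at e1
  rw [scl _ ha', e, smul_smul] at e2
  have e3 : wt a (wν T.toFan) = wt a' (wν T.toFan) * c := mul_right_cancel₀ hs (e1.trans e2.symm)
  rw [← T.Γ.pt_scl ha w, ← T.Γ.pt_scl ha' w', ← back _ v _ n, ← back _ v _ n', scl _ ha, scl _ ha',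
    e, smul_smul, e3]

end XUa

theorem XU_thm [Rk] : XU where
  one := XUa.one
  back := XUa.back
  map f _ w := funext fun _ => map_mon f _ w
  pow _ Q w := funext fun _ => by
    simp only [nu, mon, ← Finset.prod_pow, ← pow_mul, mul_comm]
  ch _ _ := XUa.ch
  vx := XUa.vx
  nz := XUa.nz
  scl _ _ w h := XUa.scl w h
  nrm := XUa.nrm
  inj := XUa.inj
  rel _ _ _ _ e _ := Rel.prod Finset.univ fun r _ => Rel.pow (e (some r)) _

end Pool.Agent.Lib.MP_557161_ag.HG.MC
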