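import Pool.Agent.Lib.MP_557161_ag.MC.StY

/-!
Pull-back and descent of functionals along the Frobenius maps of the double cover.
-/

namespace Pool.Agent.Lib.MP_557161_ag.HG.MC

open Pool.Agent.Lib.MP_557161_ag.DL

variable [Rk]

variable {K : Type} [Field K] {p : ℕ} {G : GD K} {q : ℕ} {T : Type}

namespace XVa

theorem mem_ngz {L : Fld K} {y : xz.X L} : G.UU.mem L (ngz L y) ↔ G.UU.mem L y := by
  rw [GD.UU_iff, GD.UU_iff]
  exact and_congr Iff.rfl (by rw [show (ngz L y).2 ^ 2 = y.2 ^ 2 from neg_sq y.2]; rfl)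

theorem co_frb (Q : ℕ) (L : Fld K) (y : xz.X L) (i : xz.ι) :
    xz.co (frb Q L y) i = xz.co y i ^ Q := by
  cases i <;> rfl

theorem co_cfg (e : T → ℕ) {L : Fld K} (F : IntermediateField K L)
    (x : T → xz.X L) (t : T) (i : xz.ι) (hx : xz.co (x t) i ∈ F) :
    xz.co (cfg q e L x t) i ∈ F := by
  rw [cfg, co_frb]
  exact pow_mem hx _

omit [Rk] in
/-- The elements that are algebraic over the image of a field. -/
theorem clos [FA1 K] {L₁ L : Fld K} (ι : L₁ →ₐ[K] L) : ∃ F : IntermediateField K L,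
    (L.sub F).tr ≤ L₁.tr ∧ ∀ (a : L) (n : ℕ), n ≠ 0 → a ^ n ∈ ι.fieldRange → a ∈ F := by
  refine ⟨(algebraicClosure ι.fieldRange L).restrictScalars K,
    (FA1.tr_mono ι.fieldRange _ fun _ hx => mem_algebraicClosure_iff.1 hx).trans
      (tr_le (L := L.sub ι.fieldRange) (L' := L₁) ι.equivFieldRange.symm.toAlgHom),
    fun a n hn hb => mem_algebraicClosure_iff.2 (IsAlgebraic.of_pow (Nat.pos_of_ne_zero hn) ?_)⟩
  exact isAlgebraic_algebraMap (⟨a ^ n, hb⟩ : ι.fieldRange)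

variable [XF K p]

theorem cfg_upd (h : G.Fr p q) [DecidableEq T] (e : T → ℕ) (L : Fld K)
    (x : T → xz.X L) (i : T) : cfg q e L (Function.update x i (ngz L (x i))) =
      Function.update (cfg q e L x) i (ngz L (cfg q e L x i)) := by
  funext t
  by_cases c : t = i
  · subst c
    rw [Function.update_self, cfg, Function.update_self, cfg]
    exact XF.sg (XF.pow h _) true L _
  · rw [Function.update_of_ne c, cfg, Function.update_of_ne c, cfg]

variable [Finite T]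

theorem mem_cfg (h : G.Fr p q) (e : T → ℕ) {L : Fld K} {x : T → xz.X L} :
    (G.UU.pi T).mem L (cfg q e L x) ↔ (G.UU.pi T).mem L x :=
  forall_congr' fun _ => XF.mem (XF.pow h _)

theorem cmp (h : G.Fr p q) (e : T → ℕ) : Mp (G.UU.pi T) (G.UU.pi T) (cfg q e) :=
  ⟨fun _ _ R _ _ m m' l i => (XF.mp (XF.pow h (e i))).1.reg R (m i) (m' i) (l i),
    fun _ _ m => (mem_cfg h e).2 m⟩

theorem cpro (h : G.Fr p q) (e : T → ℕ) : Pro (G.UU.pi T) (G.UU.pi T) (cfg q e) :=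
  fun M O x z hO m m' l => by
    choose x' h1 h2 using fun i =>
      (XF.mp (XF.pow h (e i))).2.1 M O (x i) (z i) hO (m i) (m' i) (l i)
    exact ⟨x', h1, h2⟩

theorem csrj (h : G.Fr p q) (e : T → ℕ) : Srj (G.UU.pi T) (G.UU.pi T) (cfg q e) :=
  fun L _ z m => by
    choose x h1 h2 using fun i => (XF.mp (XF.pow h (e i))).2.2.1 L (z i) (m i)
    exact ⟨x, h1, funext h2⟩

theorem pull (h : G.Fr p q) {j : ℕ} (φ : AF j (G.UU.pi T)) (e : T → ℕ) :
    ∃ ψ : AF j (G.UU.pi T), ∀ L x, ψ.a L x = φ.a L (cfg q e L x) := by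
  refine ⟨φ.pull (cmp h e).mor ((cpro h e).mor _), fun L x => ?_⟩
  by_cases m : (G.UU.pi T).mem L x
  · exact Fe.pull_of_mem _ _ _ ((ASp.sp_some _).2 m)
  · exact (not_not.1 fun c => m ((ASp.sp_some _).1 (Pre.supp _ _ _ c).2)).trans (not_not.1 fun c =>
      m ((mem_cfg h e).1 ((ASp.sp_some _).1 (φ.supp _ _ c).2))).symm

variable [Base K]

theorem desc (h : G.Fr p q) {j : ℕ} (φ : AF j (G.UU.pi T)) (e : T → ℕ) :
    ∃ ψ : AF j (G.UU.pi T), ∀ L x, φ.a L x = ψ.a L (cfg q e L x) := by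
  obtain ⟨ψ, hψ⟩ := descent ((cpro h e).mor (cmp h e)) ((csrj h e).mor _) φ (by
    rintro L _ _ ⟨x, rfl, -⟩ ⟨x', rfl, -⟩ c
    have c' : cfg q e L x = cfg q e L x' := Option.some.inj c
    rw [show x = x' from funext fun i => (XF.mp (XF.pow h (e i))).2.2.2 L (congrFun c' i)])
  refine ⟨ψ, fun L x => ?_⟩
  by_cases m : Good j L ∧ (G.UU.pi T).mem L x
  · have s : Function.Surjective (AlgHom.id K L) := Function.surjective_id
    have := hψ L L (AlgHom.id K L) (some (cfg q e L x)) (some x) m.1 (Fin'.of_surj s)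
      ((ASp.sp_some _).2 m.2) (Amb.map_id _ _).symm
    rwa [deg_of_surj s, Nat.cast_one, one_mul] at this
  · exact (not_not.1 fun c => m ⟨(φ.supp _ _ c).1, (ASp.sp_some _).1 (φ.supp _ _ c).2⟩).trans
      (not_not.1 fun c => m ⟨(ψ.supp _ _ c).1,
        (mem_cfg h e).1 ((ASp.sp_some _).1 (ψ.supp _ _ c).2)⟩).symm

theorem anti [DecidableEq T] (h : G.Fr p q) {j : ℕ} {φ ψ : AF j (G.UU.pi T)} {e : T → ℕ}
    (hψ : ∀ L x, φ.a L x = ψ.a L (cfg q e L x)) (ha : AntiP φ.a) : AntiP ψ.a := by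
  intro i L x
  by_cases m : Good j L ∧ (G.UU.pi T).mem L x
  · obtain ⟨L', ι, _, a1, ⟨x', rfl, -⟩, a3⟩ :=
      CKL.surj_lift ((csrj h e).mor (cmp h e)) ((ASp.sp_some _).2 m.2)
    have a4 : cfg q e L' x' = (Cd.pi T xz).map ι x := Option.some.inj a3
    have v : ∀ y, ψ.a L' ((Cd.pi T xz).map ι y) = deg ι * ψ.a L y :=
      fun y => ψ.ext ι (some y) m.1 (m.1.of_fin a1)
    refine mul_left_cancel₀ (deg_ne a1) ?_
    rw [mul_neg, ← v, ← v, ← a4, ← hψ, ← ha i, hψ, cfg_upd h, a4]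
    refine congrArg _ (funext fun t => ?_)
    by_cases c : t = i
    · subst c
      simp only [Function.update_self]
      exact Prod.ext rfl (map_neg ι _)
    · simp only [Function.update_of_ne c]
  · rw [show ψ.a L x = 0 from not_not.1 fun c =>
      m ⟨(ψ.supp _ _ c).1, (ASp.sp_some _).1 (ψ.supp _ _ c).2⟩, neg_zero]
    refine not_not.1 fun c => m ⟨(ψ.supp _ _ c).1, fun t => ?_⟩
    have := (ASp.sp_some _).1 (ψ.supp _ _ c).2 t
    by_cases c : t = i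
    · subst c
      rw [Function.update_self] at this
      exact mem_ngz.1 this
    · rwa [Function.update_of_ne c] at this

theorem kls [Fact p.Prime] [FA1 K] (h : G.Fr p q) {j : ℕ}
    {φ ψ : AF j (G.UU.pi T)} {e : T → ℕ} (hψ : ∀ L x, φ.a L x = ψ.a L (cfg q e L x))
    (sd : T → Bool) (hk : KlS sd φ.a) : KlS sd ψ.a := by
  intro L L₁ L₂ ι₁ ι₂ x h1 h2 h3
  by_cases m : Good j L ∧ (G.UU.pi T).mem L x
  · obtain ⟨L', ι, _, a1, ⟨x', rfl, -⟩, a3⟩ :=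
      CKL.surj_lift ((csrj h e).mor (cmp h e)) ((ASp.sp_some _).2 m.2)
    have a4 : cfg q e L' x' = (Cd.pi T xz).map ι x := Option.some.inj a3
    have v : ψ.a L' ((Cd.pi T xz).map ι x) = deg ι * ψ.a L x :=
      ψ.ext ι (some x) m.1 (m.1.of_fin a1)
    obtain ⟨F₁, b1, c1⟩ := clos (ι.comp ι₁)
    obtain ⟨F₂, b2, c2⟩ := clos (ι.comp ι₂)
    have k : ∀ {L₀ : Fld K} (κ : L₀ →ₐ[K] L) (t : T), (∀ i, xz.co (x t) i ∈ Set.range κ) →
        ∀ i, xz.co (x' t) i ^ q ^ e t ∈ (ι.comp κ).fieldRange := fun κ t hx i => by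
      obtain ⟨b, hb⟩ := hx i
      rw [← co_frb, show frb (q ^ e t) L' (x' t) = xz.map ι (x t) from congrFun a4 t,
        Cd.co_map, ← hb]
      exact ⟨b, rfl⟩
    have n0 : ∀ t, q ^ e t ≠ 0 := fun t => by
      obtain ⟨⟨f, rfl⟩, -⟩ := h
      exact pow_ne_zero _ (pow_ne_zero _ (Fact.out : p.Prime).ne_zero)
    refine (mul_eq_zero.1 ?_).resolve_left (deg_ne a1)
    rw [← v, ← a4, ← hψ]
    exact hk L' (L'.sub F₁) (L'.sub F₂) F₁.val F₂.val x'
      (fun s c => ⟨⟨_, c1 _ _ (n0 s.1) (k ι₁ s.1 (fun i => h1 (s.1, i) c) s.2)⟩, rfl⟩)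
      (fun s c => ⟨⟨_, c2 _ _ (n0 s.1) (k ι₂ s.1 (fun i => h2 (s.1, i) c) s.2)⟩, rfl⟩)
      ((add_le_add b1 b2).trans h3)
  · exact not_not.1 fun c => m ⟨(ψ.supp _ _ c).1, (ASp.sp_some _).1 (ψ.supp _ _ c).2⟩

end XVa

theorem XV_thm [Base K] [Fact p.Prime] [FW0 K] [XF K p] : XV K p where
  pull {G q} h T _ _ j φ e := by
    obtain ⟨ψ, hψ⟩ := XVa.pull h φ e
    refine ⟨ψ, hψ, fun ha i L x => ?_, fun sd hk L L₁ L₂ ι₁ ι₂ w h1 h2 h3 => ?_⟩
    · rw [hψ, hψ, XVa.cfg_upd h, ha]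
    · rw [hψ]
      exact hk L L₁ L₂ ι₁ ι₂ _
        (fun s c => XVa.co_cfg e ι₁.fieldRange w s.1 s.2 (h1 s c))
        (fun s c => XVa.co_cfg e ι₂.fieldRange w s.1 s.2 (h2 s c)) h3
  desc {G q} h T _ _ j φ e := by
    obtain ⟨ψ, hψ⟩ := XVa.desc h φ e
    exact ⟨ψ, hψ, XVa.anti h hψ, XVa.kls h hψ⟩

end Pool.Agent.Lib.MP_557161_ag.HG.MC
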