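import Pool.Agent.Lib.MP_557161_ag.MC.StV

/-!
The fixed point formula.
-/

namespace Pool.Agent.Lib.MP_557161_ag.HG.MC

open Pool.Agent.Lib.MP_557161_ag.DL MvPolynomial

variable [Rk]

namespace YLa

variable {K : Type} [Field K] {G : GD K} {L M : Fld K} {Q : ℕ} {ε : Bool}

/-- The signs of the involution. -/
def sgn (ε : Bool) (l : Vr) : ℤ := bif ε then (-1) ^ (gz l).natAbs else 1

lemma gg_eq {F : Type} [Field F] (w : Vr → F) (l : Vr) : gg Q ε w l = sgn ε l * w l ^ Q := by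
  cases ε
  · simp [gg, sw, sgn]
  · rcases l with _ | _ | _ | _ <;> simp [gg, sw, sgn, gam, gz]

lemma sgn_ne {F : Type} [Field F] (l : Vr) : ((sgn ε l : ℤ) : F) ≠ 0 := by
  cases ε <;> simp [sgn]

omit [Rk] in
lemma rc {R : Rel M L} {a b : M} {a' : L} (h : R.r a a') (e : b = a) : R.r b a' := e ▸ h

omit [Rk] in
lemma fin_sum {ι : Type} (c : ℂ) : ∑ᶠ _ : ι, c = Nat.card ι * c := by
  rcases eq_or_ne c 0 with rfl | h
  · simp
  cases finite_or_infinite ι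
  · have := Fintype.ofFinite ι
    simp [finsum_eq_sum_of_fintype]
  · rw [finsum_of_infinite_support (by simpa [Function.support_const h] using Set.infinite_univ)]
    simp

omit [Rk] in
lemma sum_rg {α ι : Type} {f : ι → α} (inj : Function.Injective f) {g : α → ℂ} {c : ℂ}
    (h : ∀ E, g (f E) = c) (h' : ∀ O, g O ≠ 0 → O ∈ Set.range f) :
    ∑ᶠ O, g O = Nat.card ι * c := by
  rw [← Set.indicator_eq_self.2 h', ← finsum_mem_def, finsum_mem_range inj]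
  simp only [h]
  exact fin_sum c

omit [Rk] in
lemma mem_rg [IsAlgClosed K] {x : L} (h : IsIntegral K x) : ∃ c, Algebra.ofId K L c = x :=
  minpoly.mem_range_of_degree_eq_one K x
    (IsAlgClosed.degree_eq_one_of_irreducible K (minpoly.irreducible h))

omit [Rk] in
lemma cst {c : Cd} (κ : L →ₐ[K] M) (x : c.X K) :
    c.map κ (c.map (algebraMap K L) x) = c.map (algebraMap K M) x :=
  (c.map_map _ _ x).trans (c.map_congr fun _ => κ.commutes _)

variable {p : ℕ}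

lemma norm [xf : XF K p] {y : Vr → L} (h : G.Cn L y) (e : G.Γ.pt y = G.Γ.pt (gg Q ε y)) :
    ∃ u z a, G.Cn L z ∧ G.Γ.Ch u z ∧ (∀ s, z (u s) = 1) ∧ Un a ∧ gg Q ε z = G.Γ.scl a z ∧
      G.Γ.pt y = G.Γ.pt z := by
  obtain ⟨u, hu⟩ := h.1
  have k0 := Wt.nm_un hu
  have h' := G.CC.inv L _ y k0 h
  obtain ⟨a, a0, ha⟩ := (G.Γ.pt_eq (y := gg Q ε (G.Γ.scl (G.Γ.nm u y) y)) h'.1).1 (by
    rw [xf.gg_scl, G.Γ.pt_scl k0, G.Γ.pt_scl (k0.pow _), ← e])
  exact ⟨u, _, a, h', (G.Γ.ch_scl k0).2 hu, Wt.co_nm hu, a0, ha, (G.Γ.pt_scl k0 y).symm⟩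

/-- The fixed points. -/
abbrev Fx (G : GD K) (Q : ℕ) (ε : Bool) : Type :=
  {E : (G.Γ.amb K).pt (.base K) // ∃ w, G.Cn (.base K) w ∧ E = G.Γ.pt w ∧
    E = G.Γ.pt (gg Q ε w)}

lemma fix_pt [IsAlgClosed K] [xf : XF K p] (h1 : 1 < Q) {y : Vr → L} (h : G.Cn L y)
    (e : G.Γ.pt y = G.Γ.pt (gg Q ε y)) :
    ∃ E : Fx G Q ε, G.Γ.pt y = (G.Γ.amb K).map (L := .base K) (Algebra.ofId K L) E.1 := by
  obtain ⟨u, z, a, z1, z2, z3, a0, z4, z5⟩ := norm (p := p) h e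
  have h2 : G.Γ.nm u (gg Q ε z) * a = 1 := by
    rw [z4, Wt.nm_scl a0 z2]
    exact Wt.nm_one z3
  have h3 : ∀ s, a s ∈ (⊥ : IntermediateField K L) := fun s => by
    rw [eq_inv_of_mul_eq_one_right (congrFun h2 s)]
    refine inv_mem (G.Γ.nm_mem (fun r => ?_) s)
    show gg Q ε z (u r) ∈ _
    rw [gg_eq, z3, one_pow, mul_one]
    exact intCast_mem _ _
  choose x hx using fun l => mem_rg (K := K) (x := z l) (by
    by_cases h0 : z l = 0
    · exact h0 ▸ isIntegral_zero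
    refine IsIntegral.of_pow (Nat.sub_pos_of_lt h1) ?_
    have h4 : sgn ε l * z l ^ Q = wt a (wv G.toFan l) * z l :=
      (gg_eq z l).symm.trans (congrFun z4 l)
    obtain ⟨c, hc⟩ := IntermediateField.mem_bot.1
      (div_mem (wt_mem h3 (wv G.toFan l)) (intCast_mem _ (sgn ε l)))
    have h5 := sgn_ne (ε := ε) (F := L) l
    rw [show z l ^ (Q - 1) = algebraMap K L c by
      rw [hc, pow_sub₀ _ h0 h1.le, pow_one]
      field_simp
      linear_combination h4]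
    exact isIntegral_algebraMap)
  obtain rfl : z = cw.map (Algebra.ofId K L) x := (funext hx).symm
  refine ⟨⟨_, x, (G.CC.S.map_iff (M := .base K) _ _).1 z1, rfl,
    (G.Γ.amb K).inj (L := .base K) (Algebra.ofId K L) ?_⟩, z5⟩
  rw [Wt.map_pt, Wt.map_pt, xf.gg_map (L := .base K), z4, G.Γ.pt_scl a0]

/-- A normalised representative of a fixed point. -/
lemma rep [xf : XF K p] (E : Fx G Q ε) : ∃ (u : Tr → Vr) (R κ : Vr → K) (c : Tr → K),
    G.Cn (.base K) R ∧ G.Γ.Ch u R ∧ (∀ s, R (u s) = 1) ∧ E.1 = G.Γ.pt R ∧ Un c ∧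
    (∀ l, κ l * R l ^ Q = R l) ∧ ∀ (F : Fld K) (w : Vr → F) l,
      G.Γ.scl (fun s => algebraMap K F (c s)) (gg Q ε w) l = algebraMap K F (κ l) * w l ^ Q := by
  obtain ⟨_, w, h1, rfl, h2⟩ := E
  obtain ⟨u, z, a, z1, z2, z3, a0, z4, z5⟩ := norm (p := p) h1 h2
  refine ⟨u, z, fun l => wt a⁻¹ (wv G.toFan l) * sgn ε l, a⁻¹, z1, z2, z3, z5, a0.inv, fun l => ?_,
    fun F w l => ?_⟩
  · rw [mul_assoc, ← gg_eq, z4]
    exact congrFun (G.Γ.scl_inv a0 z) l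
  · rw [map_mul, map_wt, map_intCast, mul_assoc, ← gg_eq]

section Near

variable {O : Pl M} {ρ : M}

omit [Rk] in
variable (O ρ) in
/-- Elements that are congruent to one modulo `ρ`. -/
def Cg : Submonoid M where
  carrier := {x | ∃ s ∈ O.O, x = 1 + ρ * s ∧ (Rel.ofPl O).r ρ 0} ∪ {1}
  one_mem' := .inr rfl
  mul_mem' := by
    rintro x y (⟨s, hs, rfl, h⟩ | rfl) (⟨s', hs', rfl, h'⟩ | rfl)
    · exact .inl ⟨s + s' + ρ * s * s', add_mem (add_mem hs hs') (mul_mem (mul_mem h.1 hs) hs'),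
        by ring, h⟩
    · exact .inl ⟨s, hs, mul_one _, h⟩
    · exact .inl ⟨s', hs', one_mul _, h'⟩
    · exact .inr (mul_one _)

omit [Rk] in
lemma cg_inv {x : M} (h : x ∈ Cg O ρ) : x⁻¹ ∈ Cg O ρ := by
  rcases h with ⟨s, hs, e, h⟩ | rfl
  · have l : (Rel.ofPl O).r x 1 := by
      simpa [e] using (Rel.ofPl O).add (Rel.ofPl O).one ((Rel.ofPl O).mul h ⟨hs, rfl⟩)
    have x0 := Rel.ne_zero l one_ne_zero
    refine .inl ⟨-s * x⁻¹, mul_mem (neg_mem hs) ((Rel.ofPl O).inv l one_ne_zero).1, ?_, h⟩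
    field_simp
    linear_combination -e
  · exact .inr inv_one

lemma cg_wt {a : Tr → M} (h : ∀ s, a s ∈ Cg O ρ) (k : Tr → ℤ) : wt a k ∈ Cg O ρ :=
  prod_mem fun s _ => by
    cases k s with
    | ofNat n => simpa using pow_mem (h s) n
    | negSucc n => simpa using cg_inv (pow_mem (h s) (n + 1))

lemma near [Fact p.Prime] [CharP K p] (hQ : G.Fr p Q) {R y κ v : Vr → M} {u : Tr → Vr}
    (hR : IntV O R) (hκ : IntV O κ) (r1 : ∀ s, R (u s) = 1) (hg : ∀ l, κ l * R l ^ Q = R l)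
    (hρ : (Rel.ofPl O).r ρ 0) (hv : IntV O v) (e : ∀ l, y l = R l - ρ * v l) (l : Vr) :
    ∃ s ∈ O.O, κ l * G.Γ.scl (G.Γ.nm u y) y l ^ Q = R l + ρ ^ Q * s := by
  obtain ⟨⟨f, rfl⟩, -⟩ := hQ
  have : CharP M p := charP_of_injective_algebraMap (algebraMap K M).injective p
  have h1 : wt (G.Γ.nm u y) (wv G.toFan l) ∈ Cg O ρ := cg_wt (fun s => cg_wt (fun r =>
    .inl ⟨-v (u r), neg_mem (hv _), (e _).trans (by rw [r1]; ring), hρ⟩) _) _
  obtain ⟨s, hs, h2⟩ : ∃ s ∈ O.O, wt (G.Γ.nm u y) (wv G.toFan l) = 1 + ρ * s :=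
    h1.elim (fun ⟨s, hs, h, _⟩ => ⟨s, hs, h⟩) fun h => ⟨0, zero_mem _, by simpa using h⟩
  refine ⟨κ l * (s * R l - (1 + ρ * s) * v l) ^ p ^ f, mul_mem (hκ l) (pow_mem (sub_mem
    (mul_mem hs (hR l)) (mul_mem (add_mem (one_mem _) (mul_mem hρ.1 hs)) (hv l))) _), ?_⟩
  have h3 : G.Γ.scl (G.Γ.nm u y) y l = R l + ρ * (s * R l - (1 + ρ * s) * v l) := by
    show wt (G.Γ.nm u y) (wv G.toFan l) * y l = _
    rw [h2, e l]
    ring
  rw [h3, add_pow_char_pow, mul_pow, mul_add, hg]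
  ring

variable {R y z : Vr → M} {t : M}

lemma tends {R' : Vr → O.res} (t0 : t ≠ 0) (ht : (Rel.ofPl O).r t 0)
    (hR : ∀ l, (Rel.ofPl O).r (R l) (R' l)) (hv : IntV O (t⁻¹ • (R - y))) (l : Vr) :
    (Rel.ofPl O).r (y l) (R' l) := by
  have := Rel.sub (hR l) ((Rel.ofPl O).mul ht ⟨hv l, rfl⟩)
  rwa [zero_mul, sub_zero, Pi.smul_apply, smul_eq_mul, mul_inv_cancel_left₀ t0, Pi.sub_apply,
    sub_sub_cancel] at this

variable (hz : ∀ (ρ : M) (v : Vr → M), (Rel.ofPl O).r ρ 0 → IntV O v →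
  (∀ l, y l = R l - ρ * v l) → ∀ l, ∃ s ∈ O.O, z l = R l + ρ ^ Q * s) (h1 : 1 < Q) (t0 : t ≠ 0)

include hz h1 t0

lemma lim (ht : (Rel.ofPl O).r t 0) (hv : IntV O (t⁻¹ • (R - y))) (l : Vr) :
    (Rel.ofPl O).r ((t⁻¹ • (z - y)) l) (rdV O (t⁻¹ • (R - y)) l) := by
  obtain ⟨s, hs, e⟩ := hz t _ ht hv (fun ν => by simp [t0]) l
  obtain ⟨n, rfl⟩ : ∃ n, Q = n + 2 := ⟨Q - 2, by omega⟩
  have := (Rel.ofPl O).add ⟨hv l, rfl⟩ ((Rel.ofPl O).mul ht ⟨mul_mem (pow_mem ht.1 n) hs, rfl⟩)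
  rw [zero_mul, add_zero] at this
  refine rc this ?_
  simp only [Pi.smul_apply, Pi.sub_apply, smul_eq_mul, e]
  field_simp
  ring

omit t0 in
lemma intg (hy : ∀ l, (Rel.ofPl O).r (R l - y l) 0) (hv : IntV O (t⁻¹ • (z - y))) :
    IntV O (t⁻¹ • (R - y)) := by
  by_cases h0 : R - y = 0
  · rw [h0, smul_zero]
    exact fun _ => zero_mem _
  obtain ⟨μ, m0, hu⟩ := exists_scale O h0
  obtain ⟨s, hs, e⟩ := hz _ _ (hy μ) hu (fun ν => by
    rw [Pi.smul_apply, smul_eq_mul, ← Pi.sub_apply R y μ, mul_inv_cancel_left₀ m0]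
    simp) μ
  obtain ⟨n, rfl⟩ : ∃ n, Q = n + 2 := ⟨Q - 2, by omega⟩
  have l := (Rel.ofPl O).add (Rel.ofPl O).one
    ((Rel.ofPl O).mul (hy μ) ⟨mul_mem (pow_mem (hy μ).1 n) hs, rfl⟩)
  rw [zero_mul, add_zero] at l
  have n0 := Rel.ne_zero l one_ne_zero
  intro ν
  convert mul_mem (mul_mem (hv μ) ((Rel.ofPl O).inv l one_ne_zero).1) (hu ν) using 1
  simp only [Pi.smul_apply, Pi.sub_apply, smul_eq_mul, e] at m0 ⊢
  rw [add_sub_right_comm]
  generalize R μ - y μ = δ at *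
  rw [show δ + δ ^ (n + 2) * s = δ * (1 + δ * (δ ^ n * s)) by ring, ← mul_assoc t⁻¹,
    mul_inv_cancel_right₀ n0, mul_assoc, mul_inv_cancel_left₀ m0]

end Near

end YLa

open YLa in
theorem YL_thm {K : Type} [Field K] [Base K] {p : ℕ} [Fact p.Prime] [CharP K p] [X0 K]
    [fw : FW0 K] [wb : WB K] [x1 : X1 K] [xf : XF K p] [ya : YA K] [yt : YT K] [yp : YP K] :
    YL K p where
  loop {G d W j φ Ψ} hc Q h1 hQ L M N α y hy w hw ε β T hT := by
    obtain ⟨θ, hθ, hΨ⟩ := hc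
    have cy' : G.Cn N (G.sec N (xz.map β y)) := (x1.sec_co ((G.UU.map_iff β y).2 hy.mem)).1
    have T0 : ∀ s, T s ≠ 0 := fun s => map_zero β ▸ (fw.a1.trans hT s).ne 0
    have gN : Good (j + dm + 1) N := by
      have h := hT.gM
      rwa [card_ot, show j + 2 * dd + (Rk.t + 2) = j + dm + 1 by unfold dm dl; omega] at h
    have hw' : W.mem N (d.map (β.comp α) w) := (W.map_iff _ w).2 hw
    obtain ⟨a, ha⟩ : ∃ a : Tr → N, a = fun s => T (some s) := ⟨_, rfl⟩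
    have a1 : Un a := ha ▸ fun s => T0 _
    refine (congrArg (Ψ.mq N) (?_ : _ = (((G.sec N (xz.map β y), d.map (β.comp α) w),
      G.Γ.scl a (gg Q ε (G.sec N (xz.map β y)))), T none))).trans
      ((hΨ N _ _ _ _ gN cy' hw' (G.CC.inv N a _ a1 ((xf.gg_cn hQ ε).2 cy'))
        (T0 none)).2.symm.trans ?_)
    · rw [GD.jp, d.map_map, ← x1.sec_map G β (sg ε M _), xf.sec hQ, ha, xf.gg_map, x1.sec_map]
      rfl
    have gc : ∀ b : Tr → N, Un b → (∀ F : IntermediateField K N, (∀ s, b s ∈ F) →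
        (∀ l, G.sec N (xz.map β y) l ∈ F) → ∀ s, a s ∈ F) →
        G.GenC j (β.comp α) (G.Γ.scl b (G.sec N (xz.map β y))) (T none) := fun b b0 hb =>
      ya.genC hy β _ _ gN b0 (top_le_iff.1 (hT.top ▸ IntermediateField.adjoin_le_iff.2 (by
        have k : ∀ x ∈ Set.range β ∪ Set.range (Sum.elim b fun _ : Unit => T none),
            x ∈ gen β (Sum.elim b fun _ : Unit => T none) :=
          fun x hx => IntermediateField.subset_adjoin _ _ hx
        rintro _ (h | ⟨s, rfl⟩)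
        · exact k _ (.inl h)
        · cases s with
          | none => exact k _ (.inr ⟨.inr (), rfl⟩)
          | some s =>
            rw [← congrFun ha s]
            exact hb _ (fun s => k _ (.inr ⟨.inl s, rfl⟩))
              (fun l => x1.sec_map G β y ▸ k _ (.inl ⟨_, rfl⟩)) s)))
    have t0 := T0 none
    clear ha
    generalize G.sec N (xz.map β y) = y' at *
    generalize T none = t at *
    generalize β.comp α = γ at *
    choose u R κ c r1 r2 r3 r4 r5 r6 r7 using fun E : Fx G Q ε => rep (p := p) E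
    have c1 : ∀ E (F : Fld K), G.Cn F (cw.map (algebraMap K F) (R E)) := fun E F =>
      (G.CC.S.map_iff (M := .base K) (Algebra.ofId K F) _).2 (r1 E)
    have c2 : ∀ E (F : Fld K) s, cw.map (algebraMap K F) (R E) (u E s) = 1 := fun E F s =>
      (congrArg (algebraMap K F) (r3 E s)).trans (map_one _)
    have c3 : ∀ E (F : Fld K) l, algebraMap K F (κ E l) * cw.map (algebraMap K F) (R E) l ^ Q =
        cw.map (algebraMap K F) (R E) l := fun E F l => by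
      rw [← map_pow, ← map_mul, r6]
    have c4 : ∀ E (O : Pl N) μ, (Rel.ofPl O).r (cw.map (algebraMap K N) (R E) μ)
        (cw.map (algebraMap K O.res) (R E) μ) := fun E O _ => (Rel.ofPl O).const _
    have c5 : ∀ E (F : Fld K), G.Γ.Ch (u E) (cw.map (algebraMap K F) (R E)) := fun E F =>
      (G.Γ.ch_map (algebraMap K F)).2 (r2 E)
    have y0 : ∀ E, G.Γ.Ch (u E) y' := fun E => by
      obtain ⟨O, -, o1, o2, -⟩ := yp.pt (gc a a1 fun _ h _ => h) _ (c1 E L) _ rfl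
      rw [cst] at o2
      exact (G.Γ.ch_scl a1).1 (G.Γ.ch_lift (R := Rel.ofPl O.1) (tends t0
        ((Pl.ord_pos_iff O.2.1 t0).1 (by rw [o1]; exact one_pos)) (c4 E O.1) o2) (c5 E _))
    obtain ⟨b, hb⟩ : ∃ b : Fx G Q ε → Tr → N, ∀ E,
        b E = (fun s => algebraMap K N (c E s)) * G.Γ.nm (u E) y' ^ Q * a⁻¹ := ⟨_, fun _ => rfl⟩
    have b0 : ∀ E, Un (b E) := fun E => hb E ▸ (((Un.map (algebraMap K N)).2 (r5 E)).mul
      ((Wt.nm_un (y0 E)).pow Q)).mul a1.inv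
    have gb : ∀ E, G.GenC j γ (G.Γ.scl (b E) y') t := fun E => gc _ (b0 E) fun F h h' s => by
      have e : a s = algebraMap K N (c E s) * G.Γ.nm (u E) y' s ^ Q / b E s := by
        rw [eq_div_iff (b0 E s), hb]
        exact mul_comm (a s) _ ▸ inv_mul_cancel_right₀ (a1 s) _
      rw [e]
      exact div_mem (mul_mem (F.algebraMap_mem _) (pow_mem (G.Γ.nm_mem (fun _ => h' _) s) Q)) (h s)
    obtain ⟨z, hz⟩ : ∃ z : Fx G Q ε → Vr → N, ∀ E,
        z E = G.Γ.scl (b E) (G.Γ.scl a (gg Q ε y')) := ⟨_, fun _ => rfl⟩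
    have z1 : ∀ E l, z E l = algebraMap K N (κ E l) * G.Γ.scl (G.Γ.nm (u E) y') y' l ^ Q :=
      fun E l => by
        rw [hz, Wt.scl_scl, hb, mul_assoc, a1.inv_mul, mul_one, ← Wt.scl_scl, ← xf.gg_scl, r7]
    have z2 : ∀ E (O : Pl N) (ρ : N) (v : Vr → N), (Rel.ofPl O).r ρ 0 → IntV O v →
        (∀ l, G.Γ.scl (b E) y' l = cw.map (algebraMap K N) (R E) l - ρ * v l) →
        ∀ l, ∃ s ∈ O.O, z E l = cw.map (algebraMap K N) (R E) l + ρ ^ Q * s :=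
      fun E O ρ v hρ hv e l => by
        rw [z1, ← Wt.scl_nm (b0 E) (y0 E)]
        exact near hQ (fun μ => (c4 E O μ).1) (fun μ => ((Rel.ofPl O).const _).1) (c2 E N)
          (c3 E N) hρ hv e l
    obtain ⟨vR, hR⟩ : ∃ vR : Fx G Q ε → Vr → N, ∀ E, vR E = t⁻¹ •
      (cw.map (algebraMap K N) (R E) - G.Γ.scl (b E) y') := ⟨_, fun _ => rfl⟩
    obtain ⟨x, hx⟩ : ∃ x : ((cw.prod d).prod cw).X N, x = ((y', d.map γ w),
      t⁻¹ • (G.Γ.scl a (gg Q ε y') - y')) := ⟨_, rfl⟩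
    have z3 : ∀ E μ, wt (b E) (wv G.toFan μ) * (t⁻¹ • (G.Γ.scl a (gg Q ε y') - y')) μ =
        (t⁻¹ • (z E - G.Γ.scl (b E) y')) μ := fun E μ => by
      rw [hz]
      simp only [Pi.smul_apply, Pi.sub_apply, smul_eq_mul]
      ring
    have loc : ∀ E (O : Pl N) w', (Rel.ofPl O).r t 0 → IntV O (vR E) →
        d.lift (Rel.ofPl O).r (d.map γ w) w' →
        ((cw.prod d).prod cw).lift (Rel.ofPl O).r
          (((G.Γ1 d).prod (.vec (wv G.toFan))).scl (b E) x)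
          ((cw.map (algebraMap K O.res) (R E), w'), rdV O (vR E)) := by
      intro E O w' ht hv lw
      subst hx
      rw [hR] at hv ⊢
      exact ⟨⟨tends t0 ht (c4 E O) hv, lw⟩, fun μ => rc (lim (z2 E O) h1 t0 ht hv μ) (z3 E μ)⟩
    have val : ∀ E (O : Pl N) w', (Rel.ofPl O).r t 0 → IntV O (vR E) →
        d.lift (Rel.ofPl O).r (d.map γ w) w' → θ.mr O x =
          θ.mq O.res ((cw.map (algebraMap K O.res) (R E), w'), rdV O (vR E)) :=
      fun E O w' ht hv lw => wb.r_eq θ.toPre (b0 _) (loc E O w' ht hv lw)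
        (Wt.nz_prod _ _ (Wt.nz_prod _ _ (c1 E _).1 _) _)
    choose f ft f1 f2 f3 f4 f5 using fun E => yp.pt (gb E) _ (c1 E L) (vR E) (by rw [cst, hR])
    have ft0 : ∀ E, (Rel.ofPl (f E).1).r t 0 := fun E =>
      (Pl.ord_pos_iff (f E).2.1 t0).1 (by rw [f1]; exact one_pos)
    have inj : Function.Injective f := fun E E' e => by
      have k : ∀ E, (G.Γ.amb K).red (f E).1 (G.Γ.pt y') =
          (G.Γ.amb K).map (L := .base K) (Algebra.ofId K (f E).1.res) E.1 := fun E => by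
        rw [r4]
        exact G.Γ.red_pt (b0 _) (hx ▸ loc E _ _ (ft0 E) (f2 E) (Cd.lift_triv (ft E) w) :).1.1
          (c1 E _).1
      have k1 := k E
      rw [e, k E'] at k1
      exact Subtype.ext ((G.Γ.amb K).inj _ k1).symm
    rw [← hx]
    refine sum_rg inj (fun E => ?_) fun O h0 => ?_
    · rw [f1, if_pos one_pos, val E _ _ (ft0 E) (f2 E) (Cd.lift_triv (ft E) w), ← cst (ft E).hom,
        yt.val hθ w hy.gL ((f E).2.good gN) (f3 E) (c1 E L) hw (f4 E)]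
      simp
    have o1 : 0 < O.1.ord t := by_contra fun h => h0 (if_neg h)
    have h2 : θ.mr O.1 x ≠ 0 := right_ne_zero_of_mul ((if_pos o1).symm.trans_ne h0)
    have ht : (Rel.ofPl O.1).r t 0 := (Pl.ord_pos_iff O.2.1 t0).1 o1
    obtain ⟨k, x', hk, l, m, -⟩ := wb.r_ne θ.toPre h2
    have k1 := Wt.nm_un hk
    generalize Wt.nm _ k x = e at l k1
    have cs : G.Cn _ x'.1.1 := m.1.1.1
    have l1 : cw.lift (Rel.ofPl O.1).r (G.Γ.scl e y') x'.1.1 := (hx ▸ l :).1.1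
    have lw : d.lift (Rel.ofPl O.1).r (d.map γ w) x'.1.2 := (hx ▸ l :).1.2
    have l2 : cw.lift (Rel.ofPl O.1).r (G.Γ.scl e (G.Γ.scl a (gg Q ε y'))) x'.1.1 := fun μ => by
      have := (Rel.ofPl O.1).add (l1 μ) ((Rel.ofPl O.1).mul ht ((hx ▸ l :).2 μ))
      rw [zero_mul, add_zero] at this
      refine rc this ?_
      simp only [Pi.smul_apply, Pi.sub_apply, smul_eq_mul]
      field_simp
      ring
    obtain ⟨E, hE⟩ := fix_pt (p := p) (ε := ε) h1 cs (G.Γ.pt_lift l2 (xf.gg_rel Q ε _ l1) cs.1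
      ((xf.gg_cn hQ ε).2 cs).1 (by
        rw [xf.gg_scl, G.Γ.pt_scl k1, G.Γ.pt_scl a1, G.Γ.pt_scl (k1.pow _)]))
    rw [r4] at hE
    obtain ⟨a', a0, ha⟩ := (G.Γ.pt_eq (c1 E _).1).1 hE.symm
    have l6 : cw.lift (Rel.ofPl O.1).r (z E) (cw.map (algebraMap K O.1.res) (R E)) := fun μ => by
      have h3 : G.Γ.Ch (u E) x'.1.1 := ha ▸ (G.Γ.ch_scl a0).2 (c5 E _)
      have h4 := G.Γ.lift_scl (G.Γ.nm_rel l1 h3) (Wt.nm_un h3) l1
      rw [Wt.scl_nm k1 (y0 E), ha, Wt.scl_nm a0 (c5 E _),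
        Wt.nm_one (x := cw.map (algebraMap K O.1.res) (R E)) (c2 E _), Wt.scl_one] at h4
      rw [z1, ← c3]
      exact (Rel.ofPl O.1).mul ((Rel.ofPl O.1).const _) (Rel.pow (h4 μ) Q)
    have e1 : G.Γ.scl e (G.Γ.scl a (gg Q ε y')) = G.Γ.scl (e * (b E)⁻¹) (z E) := by
      rw [hz, ← G.Γ.scl_scl e, G.Γ.scl_inv (b0 E)]
    rw [e1] at l2
    obtain ⟨a'', a2, l3⟩ := G.Γ.unit_of_lift (k1.mul (b0 E).inv) l6 l2 (c1 E _).1 cs.1
    have e2 := Cd.lift_eq l2 (G.Γ.lift_scl l3 a2 l6) rfl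
    have l4 := ((G.Γ1 d).prod (.vec (wv G.toFan))).lift_scl (a := (e * (b E)⁻¹)⁻¹) (a' := a''⁻¹)
      (fun s => (Rel.ofPl O.1).inv (l3 s) (a2 s)) a2.inv
      (x := ((G.Γ1 d).prod (.vec (wv G.toFan))).scl e x) l
    rw [Wt.scl_scl, mul_inv, inv_inv, mul_right_comm, k1.inv_mul, one_mul] at l4
    have hv : IntV O.1 (vR E) := by
      rw [hR]
      subst hx
      refine intg (z2 E O.1) h1 (fun μ => ?_) fun μ => (rc (l4.2 μ) (z3 E μ).symm).1
      have l5 : cw.lift (Rel.ofPl O.1).r _ (G.Γ.scl a''⁻¹ x'.1.1) := l4.1.1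
      rw [e2, G.Γ.scl_inv a2] at l5
      simpa using Rel.sub (c4 E O.1 μ) (l5 μ)
    rw [val E _ _ ht hv lw] at h2
    have tr : Pl.Triv γ O.1 := by
      by_contra hn
      have ov := Pl.over_comap γ O.1
      have k2 := (Pl.comap γ O.1).tr_res_lt (fun e => hn fun x =>
        (ov x).1 (e ▸ ValuationSubring.mem_top _)) hy.gL.2.le
      obtain ⟨n, hn⟩ := Cardinal.lt_aleph0.1 (k2.trans (Cardinal.natCast_lt_aleph0))
      have k3 := Cd.lift_over ov ((Cd.lift_pl _).2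
        ⟨(Cd.all_over ov).1 ((Cd.lift_pl _).1 lw).1, rfl⟩)
      rw [Cd.lift_eq lw k3 rfl, ← cst ov.resHom] at h2
      exact h2 (yt.low θ _ ((fw.a3.dm_map (c := cw.prod d) ov.resHom (x := (_, _))).2
        (fw.a3.dm_tr _ hn.le)) (by exact_mod_cast hn ▸ k2))
    by_contra hn
    have k : ∀ x ∈ Set.range tr.hom ∪ Set.range (rdV O.1 (vR E)), x ∈ gen tr.hom (rdV O.1 (vR E)) :=
      fun x hx => IntermediateField.subset_adjoin _ _ hx
    rw [Cd.lift_eq lw (Cd.lift_triv tr w) rfl, ← cst tr.hom] at h2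
    refine h2 (wb.low θ.toPre ⟨_, ⟨⟨?_, ?_⟩, fun μ => k _ (.inr ⟨μ, rfl⟩)⟩, f5 E O.1 tr O.2.1
      (fun e => hn ⟨E, Subtype.ext e.symm⟩) ht.1 ht.2 hv⟩ (Nat.lt_succ_self _)) <;>
      exact (Cd.all_iff _ _ _).2 fun s => by rw [Cd.co_map]; exact k _ (.inl ⟨_, rfl⟩)

end Pool.Agent.Lib.MP_557161_ag.HG.MC
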