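import Pool.Agent.Lib.MP_557161_ag.MC.StV
import Pool.Agent.Lib.MP_557161_ag.TW.SL

/-!
The self intersection of the diagonal and its intersection with the graph of the involution.
-/

namespace Pool.Agent.Lib.MP_557161_ag.HG.MC

open Pool.Agent.Lib.MP_557161_ag.DL

variable [Rk] {K : Type} [Field K]

namespace YZa

section
variable {c d : Cd} {Γ : Wt c} {Δ : Wt d} {S : QS K Γ} {T : QS K Δ}
  {f : ∀ L : Fld K, c.X L → d.X L} {g : ∀ L : Fld K, d.X L → c.X L}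

/-- Maps that regroup the coordinates. -/
structure Rg (S : QS K Γ) (T : QS K Δ) (f : ∀ L : Fld K, c.X L → d.X L) : Prop where
  reg : ∀ ⦃M L : Fld K⦄ (R : Rel M L) ⦃x : c.X M⦄ ⦃x' : c.X L⦄, c.lift R.r x x' →
    d.lift R.r (f M x) (f L x')
  mem : ∀ L x, S.mem L x → T.mem L (f L x)
  eqv : ∀ (L : Fld K) (a : Tr → L) (x : c.X L), f L (Γ.scl a x) = Δ.scl a (f L x)

lemma Rg.eqM (h : Rg S T f) : EqM S T f :=
  ⟨⟨fun _ _ R _ _ _ _ e => h.reg R e, h.mem⟩, fun L a x _ _ => h.eqv L a x⟩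

lemma rr_of [WB K] {j : ℕ} (θ : Pre j T.sp) (θ' : Pre j S.sp) (hf : Rg S T f)
    (e : ∀ L x, θ'.mq L x = θ.mq L (f L x)) {M : Fld K} (O : Pl M) {x : c.X M}
    (h : θ'.mr O x ≠ 0) : θ'.mr O x = θ.mr O (f M x) := by
  obtain ⟨u, x', hu, hl, hm, e1⟩ := WB.r_ne θ' h
  have h1 := hf.reg (Rel.ofPl O) hl
  rw [hf.eqv] at h1
  rw [e1, e, WB.r_eq θ (Wt.nm_un hu) h1 (T.nz _ _ (hf.mem _ _ hm))]

lemma iso [WB K] (hf : Rg S T f) (hg : Rg T S g) (gf : ∀ L x, g L (f L x) = x)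
    (fg : ∀ L z, f L (g L z) = z) {j : ℕ} (θ : QF j T) : ∃ θ' : QF j S,
    (∀ L x, θ'.mq L x = θ.mq L (f L x)) ∧
      ∀ (M : Fld K) (O : Pl M) x, θ'.mr O x = θ.mr O (f M x) := by
  obtain ⟨θ', h⟩ := WB.pull hf.eqM (Pro.of_left hg.eqM.mp hf.eqM.mp fun L x _ => gf L x) θ
  have e : ∀ L x, θ'.mq L x = θ.mq L (f L x) := fun L x => by
    by_cases hx : S.mem L x
    · exact h L x hx
    · exact (by_contra fun n => hx (WB.mem θ'.toPre n).2).trans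
        (by_contra fun n => hx (gf L x ▸ hg.mem L _ (WB.mem θ.toPre n).2)).symm
  refine ⟨θ', e, fun M O x => ?_⟩
  by_cases h1 : θ'.mr O x = 0
  · by_contra n
    have n' : θ.mr O (f M x) ≠ 0 := fun h2 => n (h1.trans h2.symm)
    have := rr_of θ'.toPre θ.toPre hg (fun L z => by rw [e, fg]) O n'
    rw [gf] at this
    exact n this.symm
  · exact rr_of _ _ hf e O h1

lemma sl [SL K] {W : ASp K d} {k j n : ℕ} (hn : n = k + j) (θ : QF n (S.pw W))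
    {B : Fld K} (w : d.X B) (hB : Good j B) : ∃ Θ : QF k S,
      (∀ (A N : Fld K) (ι : A →ₐ[K] N) (α : B →ₐ[K] N) (x : c.X A), Cmp k j ι α →
        Θ.mq A x = θ.mq N (c.map ι x, d.map α w)) ∧
      ∀ (A N : Fld K) (ι : A →ₐ[K] N) (α : B →ₐ[K] N) (x : c.X A) (t : A) (g : ℤ → ℂ) (val : ℂ),
        Cmp (k + 1) j ι α → t ≠ 0 → g 0 = 0 →
        HasS (fun O : Dv N n => g (O.1.ord (ι t)) * θ.mr O.1 (c.map ι x, d.map α w)) val →
        HasS (fun O : Dv A k => g (O.1.ord t) * Θ.mr O.1 x) val := by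
  subst hn
  exact SL.qs θ w hB

end

omit [Rk] in
lemma surj0 [Base K] {A : Fld K} (h : Good 0 A) : Function.Surjective (algebraMap K A) := by
  have h1 : Fin' (L := .base K) (Algebra.ofId K A) := h.fin _ (by rw [tr_base, Nat.cast_zero])
  have h2 : Module.Finite K A := RingHom.finite_algebraMap.1 h1
  exact (IsAlgClosed.algebraMap_bijective_of_isIntegral (k := K) (K := A)).2

omit [Rk] in
lemma hom0 [Base K] {A : Fld K} (h : Good 0 A) (L : Fld K) : ∃ κ : A →ₐ[K] L,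
    ∀ (N : Fld K) (a : L →ₐ[K] N) (b : A →ₐ[K] N) (x : A), a (κ x) = b x := by
  let E := AlgEquiv.ofBijective (Algebra.ofId K A) ⟨(algebraMap K A).injective, surj0 h⟩
  refine ⟨(Algebra.ofId K L).comp E.symm.toAlgHom, fun N a b x => ?_⟩
  obtain ⟨z, rfl⟩ := surj0 h x
  rw [AlgHom.commutes, AlgHom.commutes, AlgHom.commutes]

omit [Rk] in
lemma mem_of_gen {L M N : Fld K} {α : L →ₐ[K] M} {κ : Type} {T : κ → M} (h : gen α T = ⊤)
    (ι : M →ₐ[K] N) {F : IntermediateField K N} (h1 : ∀ x, ι (α x) ∈ F) (h2 : ∀ i, ι (T i) ∈ F)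
    (x : M) : ι x ∈ F := by
  have : gen α T ≤ F.comap ι := IntermediateField.adjoin_le_iff.2 (by
    rintro _ (⟨z, rfl⟩ | ⟨i, rfl⟩)
    exacts [h1 z, h2 i])
  exact this (h ▸ IntermediateField.mem_top)

omit [Rk] in
lemma gen_l {L M : Fld K} (α : L →ₐ[K] M) {κ : Type} (T : κ → M) (x : L) : α x ∈ gen α T :=
  IntermediateField.subset_adjoin _ _ (.inl ⟨x, rfl⟩)

omit [Rk] in
lemma gen_r {L M : Fld K} (α : L →ₐ[K] M) {κ : Type} (T : κ → M) (i : κ) : T i ∈ gen α T :=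
  IntermediateField.subset_adjoin _ _ (.inr ⟨i, rfl⟩)

/-- The empty tuple. -/
def e0 (L : Type) : c0.X L := fun i => i.elim

omit [Rk] in
lemma e0_eq {L : Type} (x : c0.X L) : e0 L = x := funext fun i => i.elim

variable [X0 K] {G : GD K} {d : Cd} {W : ASp K d} {j : ℕ}

lemma isoT [WB K] (G : GD K) (W : ASp K d) {n : ℕ} (θ : QF n (G.kb W).tot) :
    ∃ θ' : QF n ((G.kb (ASp.univ K c0)).tot.pw W),
      (∀ (L : Fld K) y x v w, θ'.mq L (((y, x), v), w) = θ.mq L ((y, w), v)) ∧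
      ∀ (M : Fld K) (O : Pl M) y x v w, θ'.mr O (((y, x), v), w) = θ.mr O ((y, w), v) := by
  obtain ⟨θ', h1, h2⟩ := iso (S := (G.kb (ASp.univ K c0)).tot.pw W) (T := (G.kb W).tot)
    (f := fun _ x => ((x.1.1.1, x.2), x.1.2)) (g := fun L z => (((z.1.1, e0 L), z.2), z.1.2))
    ⟨fun _ _ _ _ _ e => ⟨⟨e.1.1.1, e.2⟩, e.1.2⟩,
      fun _ _ m => ⟨⟨⟨m.1.1.1.1, m.2⟩, trivial⟩, m.1.2⟩, fun _ _ _ => rfl⟩
    ⟨fun _ _ _ _ _ e => ⟨⟨⟨e.1.1, fun i => i.elim⟩, e.2⟩, e.1.2⟩,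
      fun _ _ m => ⟨⟨⟨⟨m.1.1.1, trivial⟩, trivial⟩, m.2⟩, m.1.1.2⟩, fun _ _ _ => rfl⟩
    (fun L x => by rw [e0_eq x.1.1.2]) (fun _ _ => rfl) θ
  exact ⟨θ', fun L y x v w => h1 L _, fun M O y x v w => h2 M O _⟩

omit [X0 K] in
lemma isoJ [WB K] (G : GD K) (W : ASp K d) {n : ℕ} (Ψ : QF n (G.JT W)) :
    ∃ Ψ' : QF n ((G.JT (ASp.univ K c0)).pw W),
      ∀ (L : Fld K) y' x y t w, Ψ'.mq L ((((y', x), y), t), w) = Ψ.mq L (((y', w), y), t) := by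
  obtain ⟨θ', h1, -⟩ := iso (S := (G.JT (ASp.univ K c0)).pw W) (T := G.JT W)
    (f := fun _ x => (((x.1.1.1.1, x.2), x.1.1.2), x.1.2))
    (g := fun L z => ((((z.1.1.1, e0 L), z.1.2), z.2), z.1.1.2))
    ⟨fun _ _ _ _ _ e => ⟨⟨⟨e.1.1.1.1, e.2⟩, e.1.1.2⟩, e.1.2⟩,
      fun _ _ m => ⟨⟨⟨m.1.1.1.1, m.2⟩, m.1.1.2⟩, m.1.2⟩, fun _ _ _ => rfl⟩
    ⟨fun _ _ _ _ _ e => ⟨⟨⟨⟨e.1.1.1, fun i => i.elim⟩, e.1.2⟩, e.2⟩, e.1.1.2⟩,
      fun _ _ m => ⟨⟨⟨⟨m.1.1.1, trivial⟩, m.1.2⟩, m.2⟩, m.1.1.2⟩, fun _ _ _ => rfl⟩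
    (fun L x => by rw [e0_eq x.1.1.1.2]) (fun _ _ => rfl) Ψ
  exact ⟨θ', fun L y' x y t w => h1 L _⟩

variable [Base K]

omit [Rk] [X0 K] in
lemma cst_eq (r : ℂ) (L : Fld K) (x : c0.X L) :
    (TW.P2.SLa.cst K r).a L x = r * (TW.P2.SLa.cst K 1).a L x := by
  by_cases h : Good 0 L
  · exact (if_pos ⟨h, Option.some_ne_none _⟩).trans
      ((congrArg (r * ·) (if_pos ⟨h, Option.some_ne_none _⟩)).trans (mul_one r)).symm
  · exact (if_neg fun e => h e.1).trans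
      ((congrArg (r * ·) (if_neg fun e => h e.1)).trans (mul_zero r)).symm

lemma con [WB K] [CE K] [SL K] [YT K] {φ : AF j W} {Ψ} (h : G.Con φ Ψ) {L : Fld K} (hL : Good j L)
    (w : d.X L) (hw : W.mem L w) : ∃ Θ, G.Con (TW.P2.SLa.cst K (φ.a L w)) Θ ∧
      ∀ (A N : Fld K) (ι : A →ₐ[K] N) (a : L →ₐ[K] N) y' x y t, Cmp (0 + dm + 1) j ι a →
        Θ.mq A (((y', x), y), t) = Ψ.mq N (((cw.map ι y', d.map a w), cw.map ι y), ι t) := by
  obtain ⟨θ, ⟨φ₁, h₁, hu⟩, hd⟩ := h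
  obtain ⟨θ', t1, t2⟩ := isoT G W θ
  obtain ⟨Ψ', p1⟩ := isoJ G W Ψ
  obtain ⟨θ₀, a1, a2⟩ := sl (k := 0 + dm) (by omega) θ' w hL
  obtain ⟨Θ, b1, -⟩ := sl (k := 0 + dm + 1) (by omega) Ψ' w hL
  obtain ⟨-, φ₀, c1, -⟩ := YT.ex G (TW.P2.SLa.cst K (φ.a L w))
  have b2 : ∀ (A N : Fld K) (ι : A →ₐ[K] N) (a : L →ₐ[K] N) y' x y t, Cmp (0 + dm + 1) j ι a →
      Θ.mq A (((y', x), y), t) = Ψ.mq N (((cw.map ι y', d.map a w), cw.map ι y), ι t) :=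
    fun A N ι a y' x y t hc => (b1 A N ι a _ hc).trans (p1 _ _ _ _ _ _)
  refine ⟨Θ, ⟨θ₀, ⟨φ₀, c1, ?_⟩, ?_⟩, b2⟩
  · rintro L' M' α' ⟨y', x⟩ p hg
    have hy : G.Cn L' y' := (G.CC.S.map_iff α' y').1 hg.mem.1.1.1
    obtain ⟨N, ι, a, hc⟩ := TW.P2.CE.ex hg.gM hL
    obtain ⟨κ, hκ⟩ := hom0 hg.gL L
    have e1 : cw.map ι (cw.map α' y') = cw.map a (cw.map κ y') :=
      funext fun l => (hκ N a (ι.comp α') (y' l)).symm
    have m0 := ((G.kb (ASp.univ K c0)).tot.S.map_iff ι _).2 hg.mem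
    have m1 : G.Cn N (cw.map ι (cw.map α' y')) ∧
        ∀ r, ∑ μ, G.row N (cw.map ι (cw.map α' y')) r μ * cw.map ι p μ = 0 := ⟨m0.1.1.1, m0.2⟩
    rw [e1] at m1
    have hG : GenA (G.kb W).tot dm j a (cw.map κ y', w) (cw.map ι p) := by
      refine ⟨hL, by simpa only [zero_add, add_comm] using hc.gN, top_unique fun z _ => ?_, ?_⟩
      · exact mem_of_gen hc.top (AlgHom.id K N) (fun b => mem_of_gen hg.top ι
          (fun z => (hκ N a (ι.comp α') z) ▸ gen_l a _ (κ z)) (fun i => gen_r a _ i) b)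
          (fun b => gen_l a _ b) z
      · exact ⟨⟨⟨m1.1, (W.map_iff a w).2 hw⟩, trivial⟩, m1.2⟩
    refine (a1 M' N ι a _ hc).trans ((t1 _ _ _ _ _).trans ?_)
    refine Eq.trans ?_ ((hu L N a _ _ hG).trans ((h₁ L _ w ((G.CC.S.map_iff κ y').2 hy)).trans
      ((c1 L' y' x hy).trans (if_pos ⟨hg.gL, Option.some_ne_none _⟩)).symm))
    exact congrArg (fun z => θ.mq N ((z, d.map a w), cw.map ι p)) e1
  · intro M' y' y x t hM hy' _ hy ht
    obtain ⟨N, ι, a, hc⟩ := TW.P2.CE.ex hM hL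
    have h3 := hd N (cw.map ι y') (cw.map ι y) (d.map a w) (ι t)
      (by simpa only [zero_add, add_comm, add_assoc, add_left_comm] using hc.gN)
      ((G.CC.S.map_iff ι y').2 hy') ((W.map_iff a w).2 hw) ((G.CC.S.map_iff ι y).2 hy)
      ((map_ne_zero ι).2 ht)
    have e1 : (ι t)⁻¹ • (cw.map ι y - cw.map ι y') = cw.map ι (t⁻¹ • (y - y')) :=
      funext fun l => by simp
    have h4 := a2 M' N ι a ((y', x), t⁻¹ • (y - y')) t (fun n => if 0 < n then (n : ℂ) else 0)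
      (Θ.mq M' (((y', x), y), t)) hc ht (by simp) (by
        rw [b2 M' N ι a y' x y t hc]
        refine (congrArg (HasS · _) (funext fun O => ?_)).mp h3
        rw [e1, ite_mul, zero_mul, ← t2 N O.1 _ (c0.map ι x)])
    simpa only [ite_mul, zero_mul] using h4

end YZa

open YZa in
theorem YZ_thm [Base K] [FW0 K] [WB K] [CE K] [SL K] [X0 K] [X1 K] [X2 K] [XG K] [YT K] [YD K]
    [YN K] : YZ K where
  diag G := by
    obtain ⟨M₀, α₀, y₀, g₀⟩ := XG.ex G (good_base (K := K))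
    have f₀ := FA1.fr_free (Option Tr) g₀.gM
    obtain ⟨θ₀, t₀⟩ := YT.ex G (TW.P2.SLa.cst K 1)
    obtain ⟨Ψ₀, d₀⟩ := YD.ex G θ₀
    refine ⟨fun ε => Ψ₀.mq _ (G.jp (frα M₀ _) (frT M₀ _) (sg ε M₀ y₀) y₀ (e0 M₀)), ?_⟩
    intro d W j φ Ψ h L M N α y hy w hw ε β T hT
    obtain ⟨Θ, c1, c2⟩ := con h hy.gL w hw
    obtain ⟨ρ, -, r1, -⟩ := XG.iso g₀ hy (Algebra.ofId K L)
    obtain ⟨σ, s1, s2, -⟩ := FA1.lift f₀ hT ρ
    have s3 : ∀ x, σ (frα M₀ _ x) = β (ρ x) := fun x => congrArg (· x) (congrArg DFunLike.coe s1)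
    have s4 : ∀ A : xz.X M₀, cw.map σ (G.sec _ (xz.map (frα M₀ (Option Tr)) A)) =
        G.sec N (xz.map β (xz.map ρ A)) := fun A => by
      rw [X1.sec_map, xz.map_map, xz.map_map]
      simp only [s3]
    have hc : Cmp (0 + dm + 1) j σ (β.comp α) := by
      refine ⟨by
        have := f₀.gM
        rwa [show 0 + 2 * dd + Nat.card (Option Tr) = 0 + dm + 1 by
          rw [card_ot]; unfold dm dl; omega] at this, hy.gL, ?_, top_unique fun z _ => ?_⟩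
      · have := hT.gM
        rw [show j + 2 * dd + Nat.card (Option Tr) = 0 + dm + 1 + j by
          rw [card_ot]; unfold dm dl; omega] at this
        exact this
      · refine mem_of_gen hT.top (AlgHom.id K N) (fun b => mem_of_gen hy.top β
          (fun z => gen_r σ (fun b => β.comp α b) z) (fun i => ?_) b)
          (fun i => (s2 i) ▸ gen_l σ _ _) z
        rw [← r1, xz.co_map, ← s3]
        exact gen_l σ _ _
    have h1 := c2 _ N σ (β.comp α) (G.sec _ (xz.map (frα M₀ _) y₀)) (c0.map (frα M₀ _) (e0 M₀))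
      (G.Γ.scl (fun s => frT M₀ _ (some s)) (G.sec _ (xz.map (frα M₀ _) (sg ε M₀ y₀))))
      (frT M₀ _ none) hc
    have h2 := YN.nat (G := G) ⟨θ₀, t₀, d₀⟩ c1 (g := fun _ x => x) ⟨Reg.id _, fun _ _ m => m⟩
      (fun _ _ _ z _ _ hz e => ⟨z, hz, e⟩) (φ.a L w) (fun L' x _ => cst_eq _ L' x)
    refine Eq.trans ?_ ((h1.symm.trans (h2 _ _ _ _ _ trivial)).trans (mul_comm _ _))
    have e1 := G.Γ.map_scl σ.toRingHom (fun s => frT M₀ _ (some s))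
      (G.sec _ (xz.map (frα M₀ (Option Tr)) (sg ε M₀ y₀)))
    refine congrArg (Ψ.mq N) (Prod.ext (Prod.ext (Prod.ext ?_ ?_) ?_) (s2 none).symm)
    · exact ((s4 y₀).trans (congrArg (fun A => G.sec N (xz.map β A)) r1)).symm
    · exact d.map_map α β w
    · exact (e1.trans (congrArg₂ G.Γ.scl (funext fun s => s2 (some s)) ((s4 _).trans (congrArg
        (fun A => G.sec N (xz.map β A)) ((X2.sg_map ρ ε y₀).trans (congrArg _ r1)))))).symm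

end Pool.Agent.Lib.MP_557161_ag.HG.MC
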