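import Pool.Agent.Lib.MP_557161_ag.MC.StV
import Pool.Agent.Lib.MP_557161_ag.HG.FA1

/-!
The contraction with the diagonal: assembly of its laws.
-/

namespace Pool.Agent.Lib.MP_557161_ag.HG.MC

open Pool.Agent.Lib.MP_557161_ag.DL

variable [Rk] {K : Type} [Field K] {p : ℕ} {G : GD K} {Q : ℕ}

namespace ZOa

theorem ngz_ngz (L : Fld K) (y : xz.X L) : ngz L (ngz L y) = y := Prod.ext rfl (neg_neg _)

variable {c d : Cd} {S : ASp K c} {W : ASp K d} {j : ℕ}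

theorem zof (Φ : AF j ((G.UU.prod G.UU).prod W)) {L : Fld K} {A B : xz.X L} (w : d.X L)
    (h : ¬ (Good j L ∧ G.UU.mem L A ∧ G.UU.mem L B ∧ W.mem L w)) : Φ.a L ((A, B), w) = 0 := by
  by_contra c
  have h1 := ASp.sp_some _ |>.1 (Φ.supp L _ c).2
  exact h ⟨(Φ.supp L _ c).1, h1.1.1, h1.1.2, h1.2⟩

variable [X2 K]

theorem mem_ngz {L : Fld K} {y : xz.X L} : G.UU.mem L (ngz L y) ↔ G.UU.mem L y :=
  X2.sg_uu true

theorem mp_sg (ε : Bool) : Mp (G.UU.prod S) (G.UU.prod S) fun L x => (sg ε L x.1, x.2) :=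
  ⟨fun _ _ R _ _ _ _ e => ⟨X2.sg_rel R ε e.1, e.2⟩, fun _ _ m => ⟨(X2.sg_uu ε).2 m.1, m.2⟩⟩

theorem pro_sg (ε : Bool) {g : ∀ L : Fld K, (xz.prod c).X L → d.X L}
    (h : Pro (G.UU.prod S) W g) : Pro (G.UU.prod S) W fun L x => g L (sg ε L x.1, x.2) :=
  fun M O x z hO hx hz e => by
  obtain ⟨x', h1, h2⟩ := h M O (sg ε M x.1, x.2) z hO ⟨(X2.sg_uu ε).2 hx.1, hx.2⟩ hz e
  refine ⟨(sg ε _ x'.1, x'.2), ⟨(X2.sg_uu ε).2 h1.1, h1.2⟩, ?_, h2.2⟩
  have := X2.sg_rel (Rel.ofPl O) ε h2.1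
  rwa [X2.sg_sg] at this

theorem anti [FA1 K] {a : ℂ} {k : ℕ} {Ψ : QF k (G.JT W)} {Φ : AF j ((G.UU.prod G.UU).prod W)}
    (h : G.IsAff a Ψ Φ) (L : Fld K) (A B : xz.X L) (w : d.X L) :
    Φ.a L ((ngz L A, B), w) = -Φ.a L ((A, B), w) ∧
      Φ.a L ((A, ngz L B), w) = -Φ.a L ((A, B), w) := by
  by_cases m : Good j L ∧ G.UU.mem L A ∧ G.UU.mem L B ∧ W.mem L w
  · obtain ⟨m0, m1, m2, m3⟩ := m
    have f := FA1.fr_free (Option Tr) m0
    rw [h L _ _ _ _ _ w f (mem_ngz.2 m1) m2 m3, h L _ _ _ _ _ w f m1 (mem_ngz.2 m2) m3,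
      h L _ _ _ _ _ w f m1 m2 m3]
    simp only [Fintype.sum_bool, sg, sn, cond_true, cond_false, ngz_ngz]
    constructor <;> ring
  · rw [zof Φ w m, zof Φ w (by rwa [mem_ngz]), zof Φ w (by rwa [mem_ngz]), neg_zero]
    exact ⟨rfl, rfl⟩

variable [X0 K]

/-- The relation. -/
def AC (G : GD K) : CRel G := fun _ _ j φ Φ =>
  ∃ Ψ, G.Con φ Ψ ∧ G.IsAff (j := j + 2 * dd) (1 / 4) Ψ Φ

theorem kills [FA1 K] [X1 K] [YN K] {φ : AF j W} {Φ} (h : AC G φ Φ) (q : d.ι → Prop)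
    (hq : KlP d q j φ.a) :
    KlP ((xz.prod xz).prod d) (Sum.elim (fun _ => True) q) (j + 2 * dd) Φ.a := by
  obtain ⟨Ψ, h1, h2⟩ := h
  rintro L L₁ L₂ ι₁ ι₂ ⟨⟨A, B⟩, w⟩ k1 k2 k3
  by_cases m : Good (j + 2 * dd) L ∧ G.UU.mem L A ∧ G.UU.mem L B ∧ W.mem L w
  swap
  · exact zof Φ _ m
  obtain ⟨m0, m1, m2, m3⟩ := m
  obtain ⟨N, α, T, f⟩ : ∃ (N : Fld K) (α : L →ₐ[K] N) (T : Option Tr → N), Free (j + 2 * dd) α T :=
    ⟨_, _, _, FA1.fr_free (Option Tr) m0⟩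
  have b : ∀ x : L, x ∈ Set.range ι₁ → α x ∈ gen (α.comp ι₁) T := by
    rintro _ ⟨x, rfl⟩
    exact Fa1.left_mem (α.comp ι₁) T x
  have b' : ∀ (ε : Bool) (y : xz.X L), (∀ i, xz.co y i ∈ Set.range ι₁) →
      ∀ l, G.sec N (xz.map α (sg ε L y)) l ∈ gen (α.comp ι₁) T := fun ε y hy => by
    refine X1.sec_mem G fun i => ?_
    rw [X2.sg_map]
    cases ε
    · exact xz.co_map _ _ _ ▸ b _ (hy i)
    · cases i with
      | inl i => exact b _ (hy (Sum.inl i))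
      | inr i => exact neg_mem (b _ (hy (Sum.inr i)))
  have e : ∀ ε ε', Ψ.mq N (G.jp α T (sg ε L A) (sg ε' L B) w) = 0 := fun ε ε' => by
    refine YN.kills h1 q hq N (N.sub (gen (α.comp ι₁) T)) L₂ (gen (α.comp ι₁) T).val (α.comp ι₂) _
      (fun i hi => ?_) (fun i hi => ?_) ?_
    · refine (fun (x : N) (hx : x ∈ gen (α.comp ι₁) T) => (⟨⟨x, hx⟩, rfl⟩ :
        x ∈ Set.range (gen (α.comp ι₁) T).val)) _ ?_
      rcases i with ((i | i) | i) | i
      · exact b' ε' B (fun i => k1 (Sum.inl (Sum.inr i)) trivial) i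
      · exact d.co_map _ _ _ ▸ b _ (k1 (Sum.inr i) hi)
      · exact mul_mem (wt_mem (fun s => Fa1.right_mem _ T (some s)) _)
          (b' ε A (fun i => k1 (Sum.inl (Sum.inl i)) trivial) i)
      · exact Fa1.right_mem _ T none
    · rcases i with ((i | i) | i) | i
      · exact absurd trivial hi
      · obtain ⟨x, hx⟩ := k2 (Sum.inr i) hi
        exact ⟨x, (congrArg α hx).trans (d.co_map _ _ _).symm⟩
      · exact absurd trivial hi
      · exact absurd trivial hi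
    · refine (add_le_add_left (FA1.tr_gen (α.comp ι₁) T) _).trans ?_
      rw [add_right_comm]
      refine (add_le_add_left k3 _).trans (le_of_eq ?_)
      rw [card_ot, ← Nat.cast_add]
      congr 1
      simp only [dm, dl]
      omega
  rw [h2 L _ _ _ _ _ _ f m1 m2 m3]
  simp only [e, mul_zero, Finset.sum_const_zero]

end ZOa

open ZOa in
theorem ZO_thm [FA1 K] [X0 K] [X1 K] [X2 K] [XG K] [XF K p] [YT K] [YD K] [YN K] [YU K] [YL K p]
    [YS K] [YW K] [YZ K] : ZO K p where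
  ex G := by
    obtain ⟨c₀, hc⟩ := YZ.diag G
    refine ⟨(c₀ false - c₀ true) / 2, AC G, fun {d W j} φ => ?_, ?_, ?_, kills, ?_, ?_, ?_⟩
    · obtain ⟨θ, h1⟩ := YT.ex G φ
      obtain ⟨Ψ, h2⟩ := YD.ex G θ
      obtain ⟨Φ, h3⟩ := YW.aff (j := j + 2 * dd) G
        (by simp only [dm, dl]; omega) (1 / 4) Ψ
      exact ⟨Φ, Ψ, ⟨θ, h1, h2⟩, h3⟩
    · rintro d W j φ Φ ⟨Ψ, -, h⟩ L A B w
      exact anti h L A B w
    · rintro d d' W W' j φ φ' Φ Φ' ⟨Ψ, h1, h2⟩ ⟨Ψ', h3, h4⟩ g hg hp χ hχ L A B w hw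
      by_cases m : Good (j + 2 * dd) L ∧ G.UU.mem L A ∧ G.UU.mem L B
      · have f := FA1.fr_free (Option Tr) m.1
        rw [h2 L _ _ _ _ _ _ f m.2.1 m.2.2 (hg.mem L w hw), h4 L _ _ _ _ _ _ f m.2.1 m.2.2 hw]
        simp only [GD.jp,
          YN.nat h1 h3 hg hp χ hχ _ _ _ _ _ ((W'.map_iff (frα L (Option Tr)) w).2 hw),
          Fintype.sum_bool, hg.reg.nat (frα L (Option Tr)) hw]
        ring
      · rw [zof Φ _ fun h => m ⟨h.1, h.2.1, h.2.2.1⟩, zof Φ' _ fun h => m ⟨h.1, h.2.1, h.2.2.1⟩,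
          mul_zero]
    · rintro c d S W j φ Φ ⟨Ψ, h1, h2⟩ g hg hp L M α y hy R u hR hu
      have f := FA1.fr_free (Option Tr) hy.gM
      have e : ∀ ε ε', Ψ.mq _ (G.jp (frα M (Option Tr)) (frT M (Option Tr))
          (sg ε M (xz.map α R)) (sg ε' M y) (g M (y, c.map α u))) =
            φ.a L (g L (sg ε' L (sg ε L R), u)) := fun ε ε' => by
        have := YU.unit h1 (hg.comp (mp_sg ε')) (pro_sg ε' hp) (XG.neg hy ε') (sg ε L R) u
          ((X2.sg_uu ε).2 hR) hu _ _ f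
        simp only [X2.sg_sg] at this
        rw [← X2.sg_map]
        exact this
      rw [h2 M _ _ _ _ _ _ f ((G.UU.map_iff α R).2 hR) hy.mem
        (hg.mem M _ ⟨hy.mem, (S.map_iff α u).2 hu⟩)]
      simp only [e]
      simp only [Fintype.sum_bool, sg, sn, cond_true, cond_false, ngz_ngz]
      ring
    · rintro d W j φ Φ ⟨Ψ, h1, h2⟩ Q hQ hF L M α y hy w hw
      have f := FA1.fr_free (Option Tr) hy.gM
      have m := (W.map_iff α w).2 hw
      have e : ∀ ε ε', sg ε M (frb Q M y) = sg (xor ε ε') M (frb Q M (sg ε' M y)) :=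
        fun ε ε' => by
        rw [XF.sg hF]
        cases ε <;> cases ε' <;> simp [sg, ngz_ngz]
      have e1 : ∀ ε ε', Ψ.mq _ (G.jp (frα M (Option Tr)) (frT M (Option Tr))
          (sg ε M (frb Q M y)) (sg ε' M y) (d.map α w)) = G.fx Q (xor ε ε') * φ.a L w :=
        fun ε ε' => by
        rw [e ε ε']
        exact YL.loop h1 hQ hF (XG.neg hy ε') w hw _ _ _ f
      obtain ⟨θ, -, h3⟩ := h1
      rw [YS.swap (j := j + 2 * dd) h3 h2 M y, and_self,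
        h2 M _ _ _ _ _ _ f ((XF.mem hF).2 hy.mem) hy.mem m]
      simp only [e1]
      simp only [Fintype.sum_bool, sn, cond_true, cond_false, Bool.xor_self, Bool.xor_false,
        Bool.false_xor]
      ring
    · rintro d W j φ Φ ⟨Ψ, h1, h2⟩ L M α y hy w hw
      have f := FA1.fr_free (Option Tr) hy.gM
      have e : ∀ ε ε', sg ε M y = sg (xor ε ε') M (sg ε' M y) := fun ε ε' => by
        cases ε <;> cases ε' <;> simp [sg, ngz_ngz]
      have e1 : ∀ ε ε', Ψ.mq _ (G.jp (frα M (Option Tr)) (frT M (Option Tr))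
          (sg ε M y) (sg ε' M y) (d.map α w)) = c₀ (xor ε ε') * φ.a L w := fun ε ε' => by
        rw [e ε ε']
        exact hc h1 (XG.neg hy ε') w hw _ _ _ f
      rw [h2 M _ _ _ _ _ _ f hy.mem hy.mem ((W.map_iff α w).2 hw)]
      simp only [e1]
      simp only [Fintype.sum_bool, sn, cond_true, cond_false, Bool.xor_self, Bool.xor_false,
        Bool.false_xor]
      ring

end Pool.Agent.Lib.MP_557161_ag.HG.MC
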