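import Pool.Agent.Lib.MP_557161_ag.HG.All0
import Pool.Agent.Lib.MP_557161_ag.HG.XC
import Pool.Agent.Lib.MP_557161_ag.HG.XT
import Pool.Agent.Lib.MP_557161_ag.HG.XZ
import Pool.Agent.Lib.MP_557161_ag.HG.XH
import Pool.Agent.Lib.MP_557161_ag.HG.ZA
import Pool.Agent.Lib.MP_557161_ag.HG.ZA1
import Pool.Agent.Lib.MP_557161_ag.HG.ZB
import Pool.Agent.Lib.MP_557161_ag.HG.ZD
import Pool.Agent.Lib.MP_557161_ag.HG.ZT
import Pool.Agent.Lib.MP_557161_ag.TW.CE
import Pool.Agent.Lib.MP_557161_ag.TW.CP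
import Pool.Agent.Lib.MP_557161_ag.TW.ZB2
import Pool.Agent.Lib.MP_557161_ag.MC.All1
import Pool.Agent.Lib.MP_557161_ag.MC.NY
import Pool.Agent.Lib.MP_557161_ag.MC.WA
import Pool.Agent.Lib.MP_557161_ag.MC.WB
import Pool.Agent.Lib.MP_557161_ag.MC.WC
import Pool.Agent.Lib.MP_557161_ag.MC.WN
import Pool.Agent.Lib.MP_557161_ag.MC.AD
import Pool.Agent.Lib.MP_557161_ag.MC.DN
import Pool.Agent.Lib.MP_557161_ag.MC.UP
import Pool.Agent.Lib.MP_557161_ag.MC.SE
import Pool.Agent.Lib.MP_557161_ag.MC.KE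
import Pool.Agent.Lib.MP_557161_ag.MC.KN
import Pool.Agent.Lib.MP_557161_ag.MC.SL
import Pool.Agent.Lib.MP_557161_ag.MC.XP
import Pool.Agent.Lib.MP_557161_ag.MC.XJ
import Pool.Agent.Lib.MP_557161_ag.MC.XM
import Pool.Agent.Lib.MP_557161_ag.MC.XR
import Pool.Agent.Lib.MP_557161_ag.MC.XU
import Pool.Agent.Lib.MP_557161_ag.MC.X3
import Pool.Agent.Lib.MP_557161_ag.MC.XK
import Pool.Agent.Lib.MP_557161_ag.MC.ALT
import Pool.Agent.Lib.MP_557161_ag.MC.X0
import Pool.Agent.Lib.MP_557161_ag.MC.X1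
import Pool.Agent.Lib.MP_557161_ag.MC.X2
import Pool.Agent.Lib.MP_557161_ag.MC.BD
import Pool.Agent.Lib.MP_557161_ag.MC.CT
import Pool.Agent.Lib.MP_557161_ag.MC.CH
import Pool.Agent.Lib.MP_557161_ag.MC.CS
import Pool.Agent.Lib.MP_557161_ag.MC.CB
import Pool.Agent.Lib.MP_557161_ag.MC.XA
import Pool.Agent.Lib.MP_557161_ag.MC.XG
import Pool.Agent.Lib.MP_557161_ag.MC.XL
import Pool.Agent.Lib.MP_557161_ag.MC.XN
import Pool.Agent.Lib.MP_557161_ag.MC.XF
import Pool.Agent.Lib.MP_557161_ag.MC.XI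
import Pool.Agent.Lib.MP_557161_ag.MC.XB1
import Pool.Agent.Lib.MP_557161_ag.MC.XB2
import Pool.Agent.Lib.MP_557161_ag.MC.XB3
import Pool.Agent.Lib.MP_557161_ag.MC.XV
import Pool.Agent.Lib.MP_557161_ag.MC.XW
import Pool.Agent.Lib.MP_557161_ag.MC.ZO
import Pool.Agent.Lib.MP_557161_ag.MC.ZS
import Pool.Agent.Lib.MP_557161_ag.MC.ZR
import Pool.Agent.Lib.MP_557161_ag.MC.DS
import Pool.Agent.Lib.MP_557161_ag.MC.XQ
import Pool.Agent.Lib.MP_557161_ag.MC.YA
import Pool.Agent.Lib.MP_557161_ag.MC.YB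
import Pool.Agent.Lib.MP_557161_ag.MC.YQ
import Pool.Agent.Lib.MP_557161_ag.MC.YW
import Pool.Agent.Lib.MP_557161_ag.MC.YT
import Pool.Agent.Lib.MP_557161_ag.MC.YD
import Pool.Agent.Lib.MP_557161_ag.MC.YN
import Pool.Agent.Lib.MP_557161_ag.MC.YP
import Pool.Agent.Lib.MP_557161_ag.MC.YU
import Pool.Agent.Lib.MP_557161_ag.MC.YL
import Pool.Agent.Lib.MP_557161_ag.MC.YS
import Pool.Agent.Lib.MP_557161_ag.MC.YZ
import Pool.Agent.Lib.MP_557161_ag.MC.FN

/-!
The conjecture of Tate in the middle degree for the compactified double covers, assembled.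
-/

namespace Pool.Agent.Lib.MP_557161_ag.HG.MC

open Pool.Agent.Lib.MP_557161_ag.DL

theorem geo [Rk] {K : Type} [Field K] [Base K] {p : ℕ} [Fact p.Prime] [CharP K p] :
    X0 K ∧ X1 K ∧ XG K ∧ XL K ∧ XI K p ∧ XF K p ∧ XB1 K ∧ XB2 K p ∧ XB3 K p ∧ ZO K p ∧ ZR K p ∧
      XQ K p := by
  have : FW0 K := FW0_thm
  have : FWp K p := FWp_thm
  have : WA K := WA_thm
  have : WB K := WB_thm
  have : WC K := WC_thm
  have : WN K := WN_thm
  have : AD K := AD_thm
  have : DN K := DN_thm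
  have : UP K := UP_thm p
  have : SE K := SE_thm
  have : KE K := KE_thm
  have : KN K := KN_thm
  have : CE K := TW.P2.CE_thm
  have : CP K := TW.P2.CP_thm
  have : SL K := SL_thm
  have : XH K := XH_thm
  have : XC := XC_thm
  have : XP := XP_thm
  have : XJ := XJ_thm
  have : XR := XR_thm
  have : XU := XU_thm
  have : X3 := X3_thm
  have x0 : X0 K := X0_thm
  have x1 : X1 K := X1_thm
  have : X2 K := X2_thm
  have : BD K := BD_thm
  have : XA K := XA_thm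
  have xg : XG K := XG_thm
  have : CT K := CT_thm
  have : CH K := CH_thm
  have : CS K := CS_thm
  have : CB K := CB_thm
  have xf : XF K p := XF_thm
  have : XV K p := XV_thm
  have : XW K p := XW_thm
  have : XN K := XN_thm
  have : YA K := YA_thm
  have : YB K := YB_thm
  have : YP K := YP_thm
  have : DS K := DS_thm
  have xl : XL K := XL_thm
  have xi : XI K p := XI_thm
  have : YT K := YT_thm
  have : YD K := YD_thm
  have : YN K := YN_thm
  have : YU K := YU_thm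
  have : YL K p := YL_thm
  have : YS K := YS_thm
  have : YW K := YW_thm p
  have : YQ K := YQ_thm p
  have : YZ K := YZ_thm
  have : ZS K p := ZS_thm
  have : ALT K := ALT_thm
  exact ⟨x0, x1, xg, xl, xi, xf, XB1_thm, XB2_thm, XB3_thm, ZO_thm, ZR_thm, XQ_thm⟩

theorem final (d : ℕ) (hd : 0 < d) : ∃ (σ : Type) (_ : Finite σ)
    (m : σ → Option (Fin (2 * d)) → ℕ),
    AddSubgroup.closure (Set.range fun s : σ × σ => fun l => (m s.1 l : ℤ) - m s.2 l) = ⊤ ∧
    ∀ p : ℕ, p.Prime → ¬ p ∣ 2 * (2 * d + 1) → ∃ H : Polynomial (ZMod p), H ≠ 0 ∧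
      ∀ (k : Type) [Field k] [Finite k] [Algebra (ZMod p) k] (lam : k),
        Polynomial.aeval lam H ≠ 0 → SmProj (mcI m lam) (2 * d) ∧
        ∀ (L : ℕ → Type) [∀ j, Field (L j)] [∀ j, Algebra k (L j)],
          (∀ j, Module.finrank k (L j) = j + 1) →
          (∃ ζ : ℂ → ℂ, IsZeta (mcI m lam) (2 * d) L ζ ∧
            ∀ F : ∀ P : Var (mcI m lam) d, Res (mcI m lam) P.1, ∃ ρ : ℕ,
              Module.rank ℤ (Num (mcI m lam) d d F) = ρ ∧
                meromorphicOrderAt ζ d = (-(ρ : ℤ) : ℤ)) ∧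
          ([ZY] → TateAt (Nat.card k) d (upI (mcI m lam))) := by
  obtain ⟨t, ⟨T⟩⟩ := F7_all.ex d
  let _ : Rk := ⟨t, d⟩
  refine ⟨T.σ, inferInstance, T.m, F7_all.gen T.toFan, fun p hp hn => ?_⟩
  have : Fact p.Prime := ⟨hp⟩
  obtain ⟨H, H0, hH⟩ := (NX_all p).main (fun e => hn (e ▸ dvd_mul_right _ _)) d
  refine ⟨Polynomial.X * (Polynomial.X ^ (2 * d + 1) -
    Polynomial.C ((-((2 * d + 1 : ℕ) : ZMod p)) ^ (2 * d + 1))) * H, mul_ne_zero (mul_ne_zero
      Polynomial.X_ne_zero (Polynomial.X_pow_sub_C_ne_zero (Nat.succ_pos _) _)) H0,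
    fun k _ _ _ lam h => ?_⟩
  have : CharP k p := charP_of_injective_algebraMap (algebraMap (ZMod p) k).injective p
  let a := algebraMap k (AlgebraicClosure k)
  have nz : ∀ n : ℕ, n ∣ 2 * (2 * d + 1) → (n : AlgebraicClosure k) ≠ 0 := fun n e h =>
    hn (((CharP.cast_eq_zero_iff _ p n).1 h).trans e)
  rw [map_mul, map_mul, Polynomial.aeval_X, map_sub, map_pow, Polynomial.aeval_X,
    Polynomial.aeval_C, map_pow, map_neg, map_natCast] at h
  obtain ⟨⟨h1, h2⟩, h3⟩ := (mul_ne_zero_iff.1 h).imp_left mul_ne_zero_iff.1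
  let G : GD (AlgebraicClosure k) := ⟨T, a lam, hd, nz 2 (dvd_mul_right _ _),
    nz _ (dvd_mul_left _ _), (map_ne_zero a).2 h1, fun e => h2 (sub_eq_zero.2 (a.injective (by
      rw [map_pow, map_pow, map_neg, map_natCast]
      exact e)))⟩
  have hx : Sl p (xs dd G.lam (Nat.card k)) := by
    have := Fintype.ofFinite k
    obtain ⟨n, -, e⟩ := FiniteField.card k p
    rw [Nat.card_eq_fintype_card, e]
    refine hH _ (by simpa only [ringChar.eq k p] using (T0.fbar k).alg) n _ n.2 ?_ ?_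
    · rw [← map_pow, ← e, FiniteField.pow_card]
    · rw [Polynomial.aeval_algebraMap_apply]
      exact (map_ne_zero a).2 h3
  obtain ⟨_, _, _, _, _, _, _, _, _, _, _, _⟩ := geo (K := AlgebraicClosure k) (p := p)
  have : XP := XP_thm
  have : XJ := XJ_thm
  have : XM := XM_thm
  have : XR := XR_thm
  have : XU := XU_thm
  have : XK k := XK_thm
  have : XT := XT_thm
  have : XZ := XZ_thm
  have : ZA1 := ZA1_thm
  have : ZA := ZA_thm
  have : ZB := ZB_thm
  have : ZD := ZD_thm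
  have : ZT := ZT_thm
  have : TW.P2.ZB2 := TW.P2.ZB2_thm
  have : NY p := NY_thm
  have hI := XJ.hom G.m lam
  have hs := XK.smooth G (lam := lam) rfl
  have hm := FNa.hd G lam
  exact ⟨⟨hI, hs, hm, fun i P => nonempty_res hI P.2.2.1 P.2.2.2.1,
    fun i n h P Q F => chi_eventually hI hs hm h P Q F⟩,
    fun L _ _ hL => zeta_dec (G := G) rfl hx L hL⟩

end Pool.Agent.Lib.MP_557161_ag.HG.MC
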