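import Pool.Agent.Lib.MP_557161_ag.HG.StZ

/-!
All degrees: the sum of the diagrams at an arbitrary eigenvalue, and archimedean bounds. Definitions
and statements.
-/

namespace Pool.Agent.Lib.MP_557161_ag.HG.MC

/-- The alternating sum of the diagrams at the eigenvalue `β`. -/
noncomputable def dsy {n r : ℕ} (E : Fin n ⊕ Fin n ≃ Tw r) (lam : ℕ → ℕ → ℂ) (Q β : ℂ)
    (e : Tw r → ℕ) : ℂ :=
  ∑ π : Equiv.Perm (Fin n), ((Equiv.Perm.sign π : ℤ) : ℂ) * ((HG.ev lam r (tp E π) e).1 *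
    (β ^ (HG.ev lam r (tp E π) e).2.1 * (Q ^ 2 / β) ^ (HG.ev lam r (tp E π) e).2.2))

/-- The sum of the diagrams. -/
class ZAy : Prop where
  frob : ∀ r₀ : ℕ, ∃ (r : ℕ) (sd : ℕ → Bool) (E : Fin (2 * r₀ + 1) ⊕ Fin (2 * r₀ + 1) ≃ Tw r),
    (∀ i, side sd r (E (Sum.inl i)) = true) ∧ (∀ i, side sd r (E (Sum.inr i)) = false) ∧
    ∀ a : Fin r₀ → ℕ, ∃ e : Tw r → ℕ, ∀ (q y : ℂ) (P : ℕ → ℂ) (σ : Polynomial ℂ →ₗ[ℂ] ℂ), q ≠ 0 →
      y ≠ 0 → (∀ m : ℕ, σ (chC m) = P m / q ^ m) → dsy E (lamP q P) q (q * y) e =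
        (-1) ^ r₀ * r₀.factorial * q ^ (∑ k, (a k + 2)) *
          phi (σ - Polynomial.leval (y + y⁻¹) : Polynomial ℂ →ₗ[ℂ] ℂ) r₀ (chD a)

/-- The bound that comes from the absolute value of Gauss sums. -/
class GB : Prop where
  bd : ∀ {F : Type} [Field F] [Fintype F] [DecidableEq F], ringChar F ≠ 2 → ∀ (n : ℕ) (lam : F),
    lam ≠ 0 → (∑ X : Fin n → F with ∏ i, X i = 1, quadraticChar F (∑ i, X i + lam)) ^ 2 ≤
      (Fintype.card F : ℤ) ^ n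

/-- The growth of power sums. -/
class GP : Prop where
  van : ∀ (ν : ℂ →₀ ℤ) (C R : ℝ), 0 ≤ R →
    (∀ m : ℕ, 0 < m → ‖ν.sum fun z c => (c : ℂ) * z ^ m‖ ≤ C * R ^ m) → ∀ z, R < ‖z‖ → ν z = 0

end Pool.Agent.Lib.MP_557161_ag.HG.MC
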