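import Pool.Agent.Lib.MP_557161_ag.MC.ZR
import Pool.Agent.Lib.MP_557161_ag.MC.StZ

/-!
The relation between the graphs of the powers of Frobenius, at an arbitrary eigenvalue.
-/

namespace Pool.Agent.Lib.MP_557161_ag.HG.MC

open Pool.Agent.Lib.MP_557161_ag.DL
open XRa (inv_bool inv_not inv_tp)

variable [Rk]

/-- The relation between the graphs of the powers of Frobenius. -/
class ZRy (K : Type) [Field K] (p : ℕ) : Prop where
  rel : ∀ {G : GD K} {c₀ : ℂ} {AC : CRel G}, ConL G p c₀ AC → ∀ {q : ℕ}, 1 < q → G.Fr p q →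
    ∀ {r : ℕ} (sd : ℕ → Bool) (E : Fin (2 * dd + 1) ⊕ Fin (2 * dd + 1) ≃ Tw r),
    (∀ i, side sd r (E (Sum.inl i)) = true) → (∀ i, side sd r (E (Sum.inr i)) = false) →
    ∀ (e : Tw r → ℕ) {β : ℂ}, β ≠ 0 →
    dsy E (lamP ((q : ℂ) ^ dd) (G.PP c₀ q)) ((q : ℂ) ^ dd) β e ≠ 0 →
    ∃ f : Polynomial ℂ, f.eval β ≠ 0 ∧ f.eval 0 ≠ 0 ∧
      ∀ φ : AF (dd * Nat.card Bool) (G.UU.pi Bool), AntiP φ.a → KlS id φ.a → ∀ v : ℕ → ℂ,
      (∀ j, DV G q φ.a not (fun b => bif b then j else 0) (v j)) →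
      ∀ t, (f.sum fun j a => a * v (j + t)) = 0

variable {K : Type} [Field K] {p : ℕ}

namespace ZRm

variable {G : GD K} {q : ℕ} {c₀ : ℂ} {AC : CRel G}

/-- The relation, up to a power of the variable. -/
lemma rely [ALT K] [XC] [XV K p] [XW K p] [ZS K p] (hC : ConL G p c₀ AC) (hq : 1 < q)
    (hF : G.Fr p q) {r : ℕ}
    (sd : ℕ → Bool) (E : Fin (2 * dd + 1) ⊕ Fin (2 * dd + 1) ≃ Tw r) (s1 : ∀ i, side sd r (E (Sum.inl i)) = true)
    (s2 : ∀ i, side sd r (E (Sum.inr i)) = false) (e : Tw r → ℕ)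
    {β : ℂ} (hβ : β ≠ 0) (hne : dsy E (lamP ((q : ℂ) ^ dd) (G.PP c₀ q)) ((q : ℂ) ^ dd) β e ≠ 0) :
    ∃ f : Polynomial ℂ, f.eval β ≠ 0 ∧
      ∀ φ : AF (dd * Nat.card Bool) (G.UU.pi Bool), AntiP φ.a → KlS id φ.a → ∀ v : ℕ → ℂ,
      (∀ j, DV G q φ.a not (fun b => bif b then j else 0) (v j)) →
      ∀ t, (f.sum fun j a => a * v (j + t)) = 0 := by
  set lam := lamP ((q : ℂ) ^ dd) (G.PP c₀ q) with hlam
  let c : Equiv.Perm (Fin (2 * dd + 1)) → ℂ := fun π => (HG.ev lam r (tp E π) e).1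
  let x : Equiv.Perm (Fin (2 * dd + 1)) → ℕ := fun π => (HG.ev lam r (tp E π) e).2.1
  let y : Equiv.Perm (Fin (2 * dd + 1)) → ℕ := fun π => (HG.ev lam r (tp E π) e).2.2
  let Y := ∑ π, y π
  have hY : ∀ π, y π ≤ Y := fun π =>
    Finset.single_le_sum (fun _ _ => Nat.zero_le _) (Finset.mem_univ π)
  refine ⟨∑ π, Polynomial.monomial (x π + (Y - y π))
    (((Equiv.Perm.sign π : ℤ) : ℂ) * (c π * ((q : ℂ) ^ dd) ^ (2 * y π))), ?_, ?_⟩
  · refine fun h => mul_ne_zero (pow_ne_zero Y hβ) hne ?_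
    rw [← h, Polynomial.eval_finsetSum, dsy, Finset.mul_sum]
    refine Finset.sum_congr rfl fun π _ => ?_
    have e1 : β ^ Y = β ^ (Y - y π) * β ^ y π := by
      rw [← pow_add, Nat.sub_add_cancel (hY π)]
    have e2 : ((q : ℂ) ^ dd) ^ (2 * y π) = β ^ y π * (((q : ℂ) ^ dd) ^ 2 / β) ^ y π := by
      rw [← mul_pow, mul_div_cancel₀ _ hβ, pow_mul]
    rw [Polynomial.eval_monomial, e1, e2]
    ring
  intro φ a1 a2 v hv t
  obtain ⟨φ', b0, b1, b2⟩ := XV.pull hF φ fun b => bif b then t + Y else 0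
  obtain ⟨Φ, c1, c2, c3⟩ := iter hC hq hF φ' (b1 a1) (b2 _ a2) sd r
  obtain ⟨ψ, d0, d1, d2⟩ := XV.pull hF Φ e
  obtain ⟨L, P, hL, hP, hd⟩ := XW.gen (p := p) G (Fin (2 * dd + 1))
  have h := alt E _ s1 s2 ψ (d1 c1) (d2 _ c2) L P P
  have hcard : Nat.card (Tw r) = 2 * Nat.card (Fin (2 * dd + 1)) := by
    rw [← Nat.card_congr E, Nat.card_sum]
    exact (two_mul _).symm
  have key : ∀ π : Equiv.Perm (Fin (2 * dd + 1)),
      ψ.a L (fun t => Sum.elim (fun i => P (π i)) P (E.symm t)) = Bridge.dg (xf L P) *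
        (c π * (((q : ℂ) ^ dd) ^ (2 * y π) * v (x π + (Y - y π) + t)) / 2 ^ r) := fun π => by
    have e1 : DV G q φ'.a not (fun b => bif b then x π else y π)
        (((q : ℂ) ^ dd) ^ (2 * y π) * v (x π + (Y - y π) + t)) := fun L P g1 g2 g3 => by
      rw [b0, cfg_cfg]
      refine (XW.shift hF φ inv_not _ _ true (y π) _ ?_ ?_ ?_).2 (hv _) L P g1 g2 g3
      · have := hY π
        show x π + (t + Y) = x π + (Y - y π) + t + y π
        omega
      · show y π + 0 = 0 + y π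
        omega
      · rintro (_ | _) h h'
        exacts [absurd rfl h', absurd rfl h]
    have e2 : xf L (fun t => Sum.elim (fun i => P (π i)) P (E.symm t)) = xf L P := by
      refine congrArg (IntermediateField.adjoin K) (Set.Subset.antisymm ?_ ?_)
      · rintro _ ⟨⟨t, k⟩, rfl⟩
        obtain ⟨i | i, rfl⟩ := E.surjective t
        · exact ⟨(π i, k), by simp⟩
        · exact ⟨(i, k), by simp⟩
      · rintro _ ⟨⟨i, k⟩, rfl⟩
        exact ⟨(E (Sum.inr i), k), by simp⟩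
    rw [d0, ← e2]
    refine c3 _ e _ (inv_tp E π) e1 L _ (hcard ▸ hL) (fun t => ?_) fun t => ?_
    · obtain ⟨i | i, rfl⟩ := E.surjective t <;> simpa using hP _
    · obtain ⟨i | i, rfl⟩ := E.surjective t <;> simp [tp]
  have h0 : (Bridge.dg (xf L P) : ℂ) / 2 ^ r ≠ 0 :=
    div_ne_zero (Nat.cast_ne_zero.2 hd) (pow_ne_zero _ two_ne_zero)
  refine (mul_eq_zero.1 ?_).resolve_left h0
  have e3 := map_sum (Polynomial.lsum (R := ℂ) fun j => LinearMap.mulRight ℂ (v (j + t)))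
    (fun π => Polynomial.monomial (x π + (Y - y π))
      (((Equiv.Perm.sign π : ℤ) : ℂ) * (c π * ((q : ℂ) ^ dd) ^ (2 * y π)))) Finset.univ
  simp only [Polynomial.lsum_apply, LinearMap.mulRight_apply] at e3
  rw [e3, ← h, Finset.mul_sum]
  refine Finset.sum_congr rfl fun π _ => ?_
  rw [key, Polynomial.sum_monomial_index _ (fun j a => a * v (j + t)) (zero_mul _)]
  ring

end ZRm

open ZRm in
theorem ZRy_thm [ALT K] [XC] [XV K p] [XW K p] [ZS K p] : ZRy K p where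
  rel {G c₀ AC} hC q hq hF r sd E s1 s2 e β hβ hne := by
    obtain ⟨f, f1, f2⟩ := rely hC hq hF sd E s1 s2 e hβ hne
    obtain ⟨g, g1, g2⟩ := Polynomial.exists_eq_pow_rootMultiplicity_mul_and_not_dvd f
      (fun h => f1 (by rw [h, Polynomial.eval_zero])) 0
    rw [Polynomial.dvd_iff_isRoot] at g2
    generalize Polynomial.rootMultiplicity 0 f = s at g1
    rw [Polynomial.C_0, sub_zero] at g1
    subst g1
    refine ⟨g, fun h => f1 (by rw [Polynomial.eval_mul, h, mul_zero]), g2, fun φ a1 a2 v hv t => ?_⟩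
    obtain ⟨ψ, b0, b1, b2⟩ := XV.desc hF φ fun b => bif b then s else 0
    choose w hw using fun j => XW.val hF ψ (b1 a1) fun b => bif b then j else 0
    have h := f2 ψ (b1 a1) (b2 _ a2) (fun j => if s ≤ j then v (j - s) else w j) (fun j => ?_) t
    · rw [ZRa.sum_shift g s t fun j => if s ≤ j then v (j - s) else w j] at h
      simpa using h
    · split_ifs with hj
      · intro L P g1 g2 g3
        rw [← hv (j - s) L P g1 g2 g3, b0, cfg_cfg]
        congr 2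
        funext b
        cases b
        · rfl
        · exact (Nat.sub_add_cancel hj).symm
      · exact hw j

end Pool.Agent.Lib.MP_557161_ag.HG.MC
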