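import Pool.Agent.Lib.MP_557161_ag.MC.FN
import Pool.Agent.Lib.MP_557161_ag.MC.ZRy
import Pool.Agent.Lib.MP_557161_ag.HG.ZA
import Pool.Agent.Lib.MP_557161_ag.TU.Pts

/-!
A polynomial in the graph of Frobenius that does not vanish at the powers of `q` is rationally
equivalent to a sum of products.
-/

namespace Pool.Agent.Lib.MP_557161_ag.HG.MC

open Pool.Agent.Lib.MP_557161_ag.DL Pool.Agent.Lib.MP_557161_ag.DW MvPolynomial

open Classical in
theorem xs_bd {p : ℕ} [Fact p.Prime] [GB] [NS2 p] {K : Type} [Field K] [IsAlgClosed K]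
    [Algebra (ZMod p) K] (hp : p ≠ 2) (d : ℕ) {a : ℕ} (ha : 0 < a) {lam : K} (l0 : lam ≠ 0)
    (hl : lam ^ p ^ a = lam) (m : ℕ) (hm : 0 < m) :
    xs d lam (p ^ a) m ^ 2 ≤ ((p ^ a : ℕ) : ℚ) ^ m := by
  have hN := Nat.mul_pos ha hm
  have := Count.finite_Fx (p := p) (K := K) hN
  let := Fintype.ofFinite (Count.Fx p K (a * m))
  have hc : Fintype.card (Count.Fx p K (a * m)) = (p ^ a) ^ m := by
    rw [← Nat.card_eq_fintype_card, Count.card_Fx hN, pow_mul]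
  have h1 : ∀ m, lam ^ (p ^ a) ^ m = lam := fun m => by
    induction m with
    | zero => rw [pow_zero, pow_one]
    | succ m ih => rw [pow_succ, pow_mul, ih, hl]
  let l : Count.Fx p K (a * m) := ⟨lam, Count.mem_Fx.2 (by rw [pow_mul, h1])⟩
  have := Count.charP p K
  have h2 := NS2.cnt (K := K) hp _ hN (2 * d + 1) l
  have h3 := GB.bd (F := Count.Fx p K (a * m)) (by rwa [ringChar.eq _ p]) (2 * d + 1) l
    fun e => l0 (congrArg Subtype.val e)
  rw [hc] at h3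
  rw [pow_mul] at h2
  generalize (∑ X : Fin (2 * d + 1) → Count.Fx p K (a * m) with ∏ i, X i = 1,
    quadraticChar (Count.Fx p K (a * m)) (∑ i, X i + l)) = S at h2 h3
  have h4 : (0 : ℚ) < ((p ^ a : ℕ) : ℚ) := Nat.cast_pos.2 (pow_pos (Fact.out : p.Prime).pos _)
  have h5 := congrArg (Int.cast : ℤ → ℚ) h2
  have h6 : ((S ^ 2 : ℤ) : ℚ) ≤ _ := Int.cast_le.2 h3
  rw [Int.cast_sub, Int.cast_natCast, Int.cast_natCast, Int.cast_mul, Int.cast_ofNat] at h5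
  rw [Int.cast_pow, Int.cast_pow, Int.cast_natCast, Nat.cast_pow] at h6
  rw [xs, h5, mul_div_cancel_left₀ _ two_ne_zero, div_pow, div_le_iff₀ (by positivity)]
  exact h6.trans_eq (by ring)

variable [Rk]

theorem no_root {p : ℕ} [Fact p.Prime] [ZB] [TW.P2.ZB2] [NY p] [GP] {q : ℕ} (hq : 1 < q)
    {x : ℕ → ℚ} (hx : Sl p x) (hb : ∀ m, 0 < m → x m ^ 2 ≤ (q : ℚ) ^ m)
    {σ : Polynomial ℂ →ₗ[ℂ] ℂ} (hP : ∀ m : ℕ, 0 < m → σ (chC m) = x m) {y : ℂ} (y0 : y ≠ 0)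
    (hy : y = 1 ∨ (q : ℝ) ≤ ‖y‖ ∨ (q : ℝ) ≤ ‖y⁻¹‖)
    (h4 : ∀ a, phi (σ - Polynomial.leval (y + y⁻¹) : Polynomial ℂ →ₗ[ℂ] ℂ) dd (chD a) = 0) :
    False := by
  classical
  have hP' : ∀ m : ℕ, 0 < m → (σ - Polynomial.leval (y + y⁻¹) : Polynomial ℂ →ₗ[ℂ] ℂ) (chC m) =
      x m - y ^ m - y⁻¹ ^ m := fun m hm => by
    rw [LinearMap.sub_apply, hP m hm, Polynomial.leval_apply, ZA_C y0, sub_sub]
  obtain ⟨g, g0, hg⟩ := ZB.rc _ _ h4
  have h5 : Fn2.Rc fun m => (x (m + 1) : ℂ) - y ^ (m + 1) - y⁻¹ ^ (m + 1) :=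
    ⟨g, g0, funext fun t => by
      rw [Fn2.aeval_sh, Pi.zero_apply, ← hg (t + 1 : ℕ)]
      exact Finset.sum_congr rfl fun j _ => by
        simp only [← Nat.cast_add, hP' (j + (t + 1)) (by omega), add_assoc]⟩
  have h6 := (h5.add (.geo y0)).add (.geo (inv_ne_zero y0))
  rw [show ((fun m => (x (m + 1) : ℂ) - y ^ (m + 1) - y⁻¹ ^ (m + 1)) + (fun m => y ^ (m + 1)) +
    fun m => y⁻¹ ^ (m + 1)) = fun m => (x (m + 1) : ℂ) from
      funext fun m => by simp only [Pi.add_apply]; ring] at h6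
  obtain ⟨g', g1, hg'⟩ := Fn2.Rc.rat (a := fun m => x (m + 1)) h6
  obtain ⟨ν, ν', ν0, n1, n2, n3, n4⟩ := NY.tr (p := p) _ hx.1 g' g1 fun t ht => by
    obtain ⟨t, rfl⟩ := Nat.exists_eq_succ_of_ne_zero ht.ne'
    exact hg' t
  obtain ⟨n5, n6⟩ := TW.P2.ZB2.cnt _ dd h4 (ν - .single y 1 - .single y⁻¹ 1)
    (by simp [ν0, y0.symm, Finsupp.single_apply, y0]) fun m hm => by
      rw [hP' m hm, n1 m hm, Finsupp.sum_sub_index (by intros; push_cast; ring),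
        Finsupp.sum_sub_index (by intros; push_cast; ring), Finsupp.sum_single_index (by simp),
        Finsupp.sum_single_index (by simp), Int.cast_one, one_mul, one_mul]
  have n7 : ∀ w : ℂ, (q : ℝ) ≤ ‖w‖ → w = y ∨ w = y⁻¹ → False := fun w h1 h2 => by
    have q1 : (1 : ℝ) < q := by exact_mod_cast hq
    have a1 := n5 w (fun e => by rw [e, norm_one] at h1; linarith)
      (fun e => by rw [e, norm_neg, norm_one] at h1; linarith)
    have a2 := GP.van ν 1 √q (Real.sqrt_nonneg _) (fun m hm => by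
      rw [← n1 m hm, one_mul, Complex.norm_ratCast, ← sq_le_sq₀ (abs_nonneg _) (by positivity),
        sq_abs, pow_right_comm, Real.sq_sqrt (by positivity)]
      exact_mod_cast hb m hm) w (((Real.sqrt_lt' (by linarith)).2 (by nlinarith)).trans_le h1)
    simp only [Finsupp.sub_apply, a2, Finsupp.single_apply] at a1
    rcases h2 with e | e
    · rw [if_pos e.symm] at a1
      split_ifs at a1 <;> omega
    · rw [if_pos e.symm] at a1
      split_ifs at a1 <;> omega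
  rcases hy with rfl | h | h
  · have e : (1 : ℂ) ≠ -1 := by norm_num
    have n8 := hx.2 ν' n2 (n4 fun z h1 h2 => by simpa [Finsupp.single_apply, h1.symm] using n5 z h1 h2)
    rw [Finsupp.sum_sub_index fun _ _ _ => rfl, Finsupp.sum_sub_index fun _ _ _ => rfl,
      Finsupp.sum_single_index rfl, Finsupp.sum_single_index rfl] at n6
    simp only [Finsupp.sub_apply, Finsupp.single_apply, inv_one, if_true, if_neg e] at n6
    rw [← n3, off] at n8
    omega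
  exacts [n7 y h (.inl rfl), n7 _ h (.inr rfl)]

variable {k : Type} [Field k] {G : GD (AlgebraicClosure k)} {lam : k}
  [Finite k] {p : ℕ} [Fact p.Prime] [CharP k p] [XT] [XZ] [XJ] [XM] [XK k] [ZAy] [ZB] [ZD] [ZT]
  [TW.P2.ZB2] [NY p] [GP] [XI (AlgebraicClosure k) p] [XF (AlgebraicClosure k) p]
  [XB1 (AlgebraicClosure k)] [XB2 (AlgebraicClosure k) p] [XB3 (AlgebraicClosure k) p]
  [ZO (AlgebraicClosure k) p] [ZRy (AlgebraicClosure k) p] [XQ (AlgebraicClosure k) p]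

theorem decomp2 (hl : algebraMap k (AlgebraicClosure k) lam = G.lam)
    (hx : Sl p (xs dd G.lam (Nat.card k)))
    (hb : ∀ m, 0 < m → xs dd G.lam (Nat.card k) m ^ 2 ≤ (Nat.card k : ℚ) ^ m) :
    ∃ u : Polynomial ℚ, (∀ i, u.eval ((Nat.card k : ℚ) ^ i) ≠ 0) ∧ u.coeff 0 ≠ 0 ∧
      ∀ t, (u.sum fun j a => a • (T0.sm (AlgebraicClosure k) (XJ.hom G.m lam) (XK.smooth G hl)
        (FNa.hd G lam)).grC (Nat.card k ^ (j + t))) ∈
        RatB (upI (mcI G.m lam)) ⊔ ⨆ δ, ProdB (upI (mcI G.m lam)) δ := by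
  have hq : 1 < Nat.card k := Finite.one_lt_card
  have q0 : (Nat.card k : ℂ) ≠ 0 := Nat.cast_ne_zero.2 (by omega)
  have Q0 : (Nat.card k : ℂ) ^ dd ≠ 0 := pow_ne_zero _ q0
  have hF := FNa.fr p hl
  have hY : (T0.sm (AlgebraicClosure k) (XJ.hom G.m lam) (XK.smooth G hl) (FNa.hd G lam)).I = G.I :=
    FNa.upI_eq hl
  obtain ⟨c₀, AC, hC⟩ := ZO.ex (p := p) G
  obtain ⟨r, sd, E, h1, h2, h3⟩ := ZAy.frob dd
  have key : ∀ i, ∃ e, dsy E (lamP ((Nat.card k : ℂ) ^ dd) (G.PP c₀ (Nat.card k)))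
      ((Nat.card k : ℂ) ^ dd) ((Nat.card k : ℂ) ^ i) e ≠ 0 := fun i => by
    by_contra hA
    obtain ⟨σ, hσ⟩ := ZB.ex fun m => G.PP c₀ (Nat.card k) m / ((Nat.card k : ℂ) ^ dd) ^ m
    have y0 : (Nat.card k : ℂ) ^ i / (Nat.card k : ℂ) ^ dd ≠ 0 := div_ne_zero (pow_ne_zero _ q0) Q0
    have n1 : ∀ j, (Nat.card k : ℝ) ≤ ‖(Nat.card k : ℂ) ^ (j + 1)‖ := fun j => by
      rw [norm_pow, Complex.norm_natCast]
      exact le_self_pow₀ (by exact_mod_cast hq.le) j.succ_ne_zero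
    refine no_root hq hx hb (σ := σ) (fun m hm => ?_) y0 ?_ fun a => ?_
    · have l := Nat.one_lt_pow hm.ne' hq
      have f := XF.pow hF m
      rw [hσ, GD.PP, if_neg hm.ne', XB1.cnt G l, XB1.cnt G l, XB2.cnt l f, XB3.cnt f, XB3.cnt f, xs]
      push_cast
      ring
    · rcases lt_trichotomy i dd with h | rfl | h
      · obtain ⟨j, e⟩ := Nat.exists_eq_add_of_lt h
        refine .inr (.inr ((n1 j).trans_eq (congrArg _ ?_)))
        rw [inv_div, e, add_assoc, pow_add _ i, mul_div_cancel_left₀ _ (pow_ne_zero _ q0)]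
      · exact .inl (div_self Q0)
      · obtain ⟨j, rfl⟩ := Nat.exists_eq_add_of_lt h
        refine .inr (.inl ((n1 j).trans_eq (congrArg _ ?_)))
        rw [add_assoc, pow_add _ dd, mul_div_cancel_left₀ _ Q0]
    · obtain ⟨e, he⟩ := h3 a
      have h5 := he _ _ _ σ Q0 y0 hσ
      rw [mul_div_cancel₀ _ Q0, by_contra fun h => hA ⟨e, h⟩] at h5
      exact (mul_eq_zero.1 h5.symm).resolve_left (mul_ne_zero (mul_ne_zero (by simp)
        (Nat.cast_ne_zero.2 (Nat.factorial_ne_zero _))) (pow_ne_zero _ Q0))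
  obtain ⟨u, h4, h5⟩ := XZ.one (RatB (upI (mcI G.m lam)) ⊔ ⨆ δ, ProdB (upI (mcI G.m lam)) δ)
    (fun j => (T0.sm (AlgebraicClosure k) (XJ.hom G.m lam) (XK.smooth G hl)
      (FNa.hd G lam)).grC (Nat.card k ^ j))
    {β | β = 0 ∨ ∃ i, (Nat.card k : ℂ) ^ i = β} fun β hβ => by
      obtain ⟨i, hi⟩ : ∃ i, β = 0 ∨ (Nat.card k : ℂ) ^ i = β :=
        hβ.elim (fun e => ⟨0, .inl e⟩) fun ⟨i, e⟩ => ⟨i, .inr e⟩
      obtain ⟨e, he⟩ := key i
      obtain ⟨u, k1, k2, k3⟩ := ZRy.rel hC hq hF sd E h1 h2 e (pow_ne_zero _ q0) he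
      refine ⟨u, hi.elim (fun e => e ▸ k2) fun e => e ▸ k1, fun b hb t => ?_⟩
      obtain ⟨φ, l1, l2, l3⟩ := XQ.brg (p := p) G _ hY _ hF b hb
      have h4 := k3 φ l1 l2 _ l3 t
      rw [Polynomial.sum_def] at h4 ⊢
      simp only [← mul_div_assoc, ← Finset.sum_div] at h4
      exact (div_eq_zero_iff.1 h4).resolve_right two_ne_zero
  have h6 : ∀ x : ℚ, u.eval x = 0 → Polynomial.aeval (x : ℂ) u = 0 := fun x h => by
    have h7 := Polynomial.aeval_algebraMap_apply ℂ x u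
    rwa [Polynomial.coe_aeval_eq_eval, h, map_zero] at h7
  exact ⟨u, fun i h => h4 _ (.inr ⟨i, rfl⟩) (by simpa using h6 _ h), fun h => h4 0 (.inl rfl) (by
    simpa using h6 0 (by rwa [← Polynomial.coeff_zero_eq_eval_zero])), h5⟩

theorem zeta_all [XU] [XL (AlgebraicClosure k)] [X1 (AlgebraicClosure k)]
    [XG (AlgebraicClosure k)] (hl : algebraMap k (AlgebraicClosure k) lam = G.lam)
    (hx : Sl p (xs dd G.lam (Nat.card k)))
    (hb : ∀ m, 0 < m → xs dd G.lam (Nat.card k) m ^ 2 ≤ (Nat.card k : ℚ) ^ m) (L : ℕ → Type)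
    [∀ m, Field (L m)] [∀ m, Algebra k (L m)] (hL : ∀ m, Module.finrank k (L m) = m + 1) :
    (∃ ζ : ℂ → ℂ, IsZeta (mcI G.m lam) (2 * dd) L ζ ∧ TateOrd (mcI G.m lam) (2 * dd) ζ) ∧
    ([ZY] → ∀ i, TateAt (Nat.card k) i (upI (mcI G.m lam))) := by
  have hI := XJ.hom G.m lam
  have hs := XK.smooth G hl
  have hd := FNa.hd G lam
  obtain ⟨u, h5, h0, h6⟩ := decomp2 hl hx hb
  obtain ⟨g, g0, hg⟩ := ZT.rc hI hs hd u h0 h6 L hL
  obtain ⟨ν, ν0, h1⟩ := ZD.rat hI L hL g g0 hg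
  obtain ⟨ζ, h3, h4⟩ := ZT.zeta hI hd L hL ν h1
  refine ⟨⟨ζ, h3, fun i n h F => ?_, fun n hn => ?_⟩,
    fun i => ZY.tate hI hs hd ?_ ?_ u i (h5 i) (h6 0)⟩
  · obtain ⟨ρ, h7, h8⟩ := ZT.tate hI hs hd u i n h (h5 n) h6 L hL ν h1 F
    exact ⟨ρ, h7, by rw [h4, Complex.cpow_natCast, ← h8]⟩
  · obtain ⟨C, hC⟩ := points_le hI hd
    rw [h4, Complex.cpow_natCast, GP.van ν C ((Nat.card k : ℝ) ^ (2 * dd)) (by positivity)
      (fun m hm => ?_) _ ?_]
    · rfl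
    · rw [norm_pow, Complex.norm_natCast]
      exact pow_lt_pow_right₀ (by exact_mod_cast (Finite.one_lt_card : 1 < Nat.card k)) hn
    · obtain ⟨m, rfl⟩ := Nat.exists_eq_succ_of_ne_zero hm.ne'
      have : Module.Finite k (L m) := Module.finite_of_finrank_eq_succ (hL m)
      have : Finite (L m) := Module.finite_of_finite k
      have h := hC (L m)
      rw [Module.natCard_eq_pow_finrank (K := k), hL, pow_right_comm] at h
      rw [← h1, Complex.norm_natCast]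
      exact_mod_cast h
  · rw [FNa.upI_eq hl]
    exact XJ.prime _ _ (Nat.mul_pos two_pos G.pos)
  · rw [FNa.upI_eq hl]
    obtain ⟨M, α, y, hy⟩ := XG.ex G (j := 0) (L := .base _) good_base
    have h7 := (X1.sec_co hy.mem).1
    obtain ⟨s, hs⟩ := Function.ne_iff.1 (XU.nz.2 h7.1)
    exact ⟨s, fun h => hs ((aeval_X _ _).symm.trans (XL.zl h7 _ h))⟩

end Pool.Agent.Lib.MP_557161_ag.HG.MC
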