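import Pool.Agent.Lib.MP_557161_ag.MC.StZ

/-!
The bound that comes from the absolute value of Gauss sums.
-/

namespace Pool.Agent.Lib.MP_557161_ag.HG.MC

namespace GBa

open Finset

variable {F : Type} [Field F] [Fintype F]

lemma norm_sq_eq {ρ : MulChar F ℂ} (hρ : ρ ≠ 1) {ψ : AddChar F ℂ} (hψ : ψ.IsPrimitive) :
    ‖gaussSum ρ ψ‖ ^ 2 = Fintype.card F := by
  have h := gaussSum_mul_gaussSum_eq_card hρ hψ
  rw [← star_gaussSum_eq] at h
  have h2 := congrArg (fun z : ℂ => ‖z‖) h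
  simpa [sq] using h2

omit [Fintype F] in
lemma ne_one {ψ : AddChar F ℂ} (hψ : ψ.IsPrimitive) : ψ ≠ 1 := by
  have := hψ (one_ne_zero (α := F))
  rwa [AddChar.mulShift_one] at this

lemma norm_sq_le (ρ : MulChar F ℂ) {ψ : AddChar F ℂ} (hψ : ψ.IsPrimitive) :
    ‖gaussSum ρ ψ‖ ^ 2 ≤ Fintype.card F := by
  by_cases hρ : ρ = 1
  · rw [hρ, gaussSum_one_left (ne_one hψ)]
    have : 1 ≤ Fintype.card F := Fintype.card_pos
    simpa using this
  · exact (norm_sq_eq hρ hψ).le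

lemma orth [DecidableEq F] [Fintype (MulChar F ℂ)] (a : F) :
    ∑ ρ : MulChar F ℂ, ρ a = if a = 1 then (Fintype.card (MulChar F ℂ) : ℂ) else 0 := by
  split_ifs with ha
  · simp [ha]
  · have : NeZero ((Monoid.exponent Fˣ : ℕ) : ℂ) :=
      ⟨Nat.cast_ne_zero.2 Monoid.exponent_ne_zero_of_finite⟩
    obtain ⟨χ, hχ⟩ := MulChar.exists_apply_ne_one_of_hasEnoughRootsOfUnity F ℂ ha
    refine eq_zero_of_mul_eq_self_left hχ ?_
    rw [Finset.mul_sum]
    exact Fintype.sum_bijective _ (Group.mulLeft_bijective χ) _ _ fun ρ =>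
      (MulChar.mul_apply χ ρ a).symm

lemma twist {χ : MulChar F ℂ} (h1 : χ ≠ 1) (h2 : χ⁻¹ = χ) (ψ : AddChar F ℂ) (y : F) :
    gaussSum χ ψ * χ y = ∑ t, χ t * ψ (t * y) := by
  by_cases hy : y = 0
  · simp [hy, MulChar.map_zero, MulChar.sum_eq_zero_of_ne_one h1]
  · have := gaussSum_mulShift_eq χ ψ (Units.mk0 y hy)
    rw [h2, Units.val_mk0] at this
    rw [mul_comm, ← this]
    simp [gaussSum, mul_comm]

lemma main {χ : MulChar F ℂ} (h1 : χ ≠ 1) (h2 : χ⁻¹ = χ) (ψ : AddChar F ℂ) (ρ : MulChar F ℂ)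
    (n : ℕ) (lam : F) :
    gaussSum χ ψ * ∑ X : Fin n → F, ρ (∏ i, X i) * χ (∑ i, X i + lam) =
      gaussSum ρ ψ ^ n * gaussSum (χ * ρ⁻¹ ^ n) (ψ.mulShift lam) := by
  have e1 : ∀ X : Fin n → F, gaussSum χ ψ * (ρ (∏ i, X i) * χ (∑ i, X i + lam)) =
      ∑ t, χ t * ψ (lam * t) * ∏ i, (ρ (X i) * ψ (t * X i)) := by
    intro X
    rw [mul_left_comm, twist h1 h2, Finset.mul_sum]
    refine Finset.sum_congr rfl fun t _ => ?_
    have e : ψ (t * ∑ i, X i) = ∏ i, ψ (t * X i) := by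
      rw [Finset.mul_sum]
      exact map_prod ψ.toMonoidHom (fun i => Multiplicative.ofAdd (t * X i)) univ
    rw [mul_add, AddChar.map_add_eq_mul, e, map_prod, Finset.prod_mul_distrib, mul_comm lam t]
    ring
  rw [Finset.mul_sum]
  simp only [e1]
  rw [Finset.sum_comm, gaussSum.eq_1 (χ * ρ⁻¹ ^ n), Finset.mul_sum]
  refine Finset.sum_congr rfl fun t _ => ?_
  rw [← Finset.mul_sum, ← Fintype.sum_pow (fun x => ρ x * ψ (t * x)) n, MulChar.mul_apply,
    AddChar.mulShift_apply]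
  by_cases ht : t = 0
  · simp [ht, MulChar.map_zero]
  · have := gaussSum_mulShift_eq ρ ψ (Units.mk0 t ht)
    have e2 := MulChar.pow_apply_coe ρ⁻¹ n (Units.mk0 t ht)
    rw [Units.val_mk0] at this e2
    have e3 : ∑ x, ρ x * ψ (t * x) = gaussSum ρ (ψ.mulShift t) := rfl
    rw [e3, this, e2, mul_pow]
    ring

lemma bound {χ : MulChar F ℂ} (h1 : χ ≠ 1) (h2 : χ⁻¹ = χ) (ρ : MulChar F ℂ) (n : ℕ) {lam : F}
    (hl : lam ≠ 0) : ‖∑ X : Fin n → F, ρ (∏ i, X i) * χ (∑ i, X i + lam)‖ ≤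
      √((Fintype.card F : ℝ) ^ n) := by
  have hψ := AddChar.FiniteField.primitiveChar_to_Complex_isPrimitive F
  have h := congrArg (fun z : ℂ => ‖z‖ ^ 2)
    (main h1 h2 (AddChar.FiniteField.primitiveChar_to_Complex F) ρ n lam)
  simp only [norm_mul, norm_pow, mul_pow] at h
  rw [norm_sq_eq h1 hψ, ← pow_mul, mul_comm n 2, pow_mul] at h
  have a1 := pow_le_pow_left₀ (sq_nonneg _) (norm_sq_le ρ hψ) n
  have a2 := norm_sq_le (χ * ρ⁻¹ ^ n) (AddChar.IsPrimitive.of_ne_one (hψ hl))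
  have hq : (0 : ℝ) < Fintype.card F := Nat.cast_pos.2 Fintype.card_pos
  apply Real.le_sqrt_of_sq_le
  refine le_of_mul_le_mul_left (h.trans_le ?_) hq
  rw [mul_comm (Fintype.card F : ℝ)]
  exact mul_le_mul a1 a2 (sq_nonneg _) (pow_nonneg hq.le n)

end GBa

theorem GB_thm : GB := by
  refine ⟨fun {F} _ _ _ hF n lam hl => ?_⟩
  let χ : MulChar F ℂ := (quadraticChar F).ringHomComp (Int.castRingHom ℂ)
  have h1 : χ ≠ 1 := (MulChar.ringHomComp_ne_one_iff (RingHom.injective_int _)).2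
    (quadraticChar_ne_one hF)
  have h2 : χ⁻¹ = χ := ((quadraticChar_isQuadratic F).comp _).inv
  have : NeZero ((Monoid.exponent Fˣ : ℕ) : ℂ) :=
    ⟨Nat.cast_ne_zero.2 Monoid.exponent_ne_zero_of_finite⟩
  have : Fintype (MulChar F ℂ) := Fintype.ofFinite _
  set S : ℤ := ∑ X : Fin n → F with ∏ i, X i = 1, quadraticChar F (∑ i, X i + lam) with hS
  have e : (Fintype.card (MulChar F ℂ) : ℂ) * (S : ℂ) =
      ∑ ρ : MulChar F ℂ, ∑ X : Fin n → F, ρ (∏ i, X i) * χ (∑ i, X i + lam) := by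
    rw [Finset.sum_comm, hS, Int.cast_sum, Finset.mul_sum, Finset.sum_filter]
    refine Finset.sum_congr rfl fun X _ => ?_
    rw [← Finset.sum_mul, GBa.orth]
    split_ifs
    · rfl
    · rw [zero_mul]
  have hc : (0 : ℝ) < Fintype.card (MulChar F ℂ) := Nat.cast_pos.2 Fintype.card_pos
  have e2 : (Fintype.card (MulChar F ℂ) : ℝ) * ‖(S : ℂ)‖ ≤
      Fintype.card (MulChar F ℂ) * √((Fintype.card F : ℝ) ^ n) := by
    have e3 := congrArg (fun z : ℂ => ‖z‖) e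
    simp only [norm_mul, Complex.norm_natCast] at e3
    rw [e3]
    refine (norm_sum_le _ _).trans ((Finset.sum_le_sum fun ρ _ => GBa.bound h1 h2 ρ n hl).trans ?_)
    rw [Finset.sum_const, Finset.card_univ, nsmul_eq_mul]
  have e4 := pow_le_pow_left₀ (norm_nonneg _) (le_of_mul_le_mul_left e2 hc) 2
  rw [Real.sq_sqrt (by positivity), Complex.norm_intCast, sq_abs] at e4
  exact_mod_cast e4

end Pool.Agent.Lib.MP_557161_ag.HG.MC
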