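import Pool.Agent.Lib.MP_557161_ag.MC.StZ

/-!
The growth of power sums bounds the absolute values of the terms.
-/

namespace Pool.Agent.Lib.MP_557161_ag.HG.MC

open Polynomial

namespace GPa

theorem comb (ν : ℂ →₀ ℤ) (g : ℂ[X]) (m : ℕ) :
    ∑ j ∈ Finset.range (g.natDegree + 1), g.coeff j * ν.sum (fun w c => (c : ℂ) * w ^ (m + j)) =
      ∑ w ∈ ν.support, (ν w : ℂ) * w ^ m * g.eval w := by
  simp only [Finsupp.sum, Finset.mul_sum]
  rw [Finset.sum_comm]
  refine Finset.sum_congr rfl fun w _ => ?_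
  rw [eval_eq_sum_range, Finset.mul_sum]
  refine Finset.sum_congr rfl fun j _ => ?_
  rw [pow_add]
  ring

end GPa

theorem GP_thm : GP := by
  classical
  refine ⟨fun ν C R hR h z hz => ?_⟩
  by_contra hν
  have hzs : z ∈ ν.support := Finsupp.mem_support_iff.2 hν
  set g : ℂ[X] := ∏ w ∈ ν.support.erase z, (X - Polynomial.C w) with hg
  have hgz : g.eval z ≠ 0 := by
    rw [hg, eval_prod]
    refine Finset.prod_ne_zero_iff.2 fun w hw => ?_
    rw [eval_sub, eval_X, eval_C]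
    exact sub_ne_zero.2 (Finset.ne_of_mem_erase hw).symm
  have hgw : ∀ w ∈ ν.support, w ≠ z → g.eval w = 0 := by
    intro w hw hne
    rw [hg, eval_prod]
    refine Finset.prod_eq_zero (Finset.mem_erase.2 ⟨hne, hw⟩) ?_
    rw [eval_sub, eval_X, eval_C, sub_self]
  have hz0 : 0 < ‖z‖ := lt_of_le_of_lt hR hz
  set D : ℝ := ∑ j ∈ Finset.range (g.natDegree + 1), ‖g.coeff j‖ * (C * R ^ j) with hD
  set c : ℝ := ‖(ν z : ℂ)‖ * ‖g.eval z‖ with hc
  have hc0 : 0 < c := mul_pos (norm_pos_iff.2 (by exact_mod_cast hν)) (norm_pos_iff.2 hgz)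
  have key : ∀ m : ℕ, 0 < m → c ≤ D * (R / ‖z‖) ^ m := by
    intro m hm
    have e := GPa.comb ν g m
    rw [Finset.sum_eq_single z (fun w hw hne => by rw [hgw w hw hne, mul_zero])
      (fun hn => absurd hzs hn)] at e
    have b : ‖(ν z : ℂ) * z ^ m * g.eval z‖ ≤ D * R ^ m := by
      rw [← e, hD, Finset.sum_mul]
      refine (norm_sum_le _ _).trans (Finset.sum_le_sum fun j _ => ?_)
      rw [norm_mul]
      have := h (m + j) (by omega)
      calc ‖g.coeff j‖ * ‖ν.sum fun w c => (c : ℂ) * w ^ (m + j)‖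
          ≤ ‖g.coeff j‖ * (C * R ^ (m + j)) := mul_le_mul_of_nonneg_left this (norm_nonneg _)
        _ = ‖g.coeff j‖ * (C * R ^ j) * R ^ m := by rw [pow_add]; ring
    rw [norm_mul, norm_mul, norm_pow] at b
    rw [div_pow, ← mul_div_assoc, le_div_iff₀ (pow_pos hz0 m), hc]
    linarith
  have ht : Filter.Tendsto (fun m : ℕ => D * (R / ‖z‖) ^ m) Filter.atTop (nhds (D * 0)) :=
    (tendsto_pow_atTop_nhds_zero_of_lt_one (div_nonneg hR hz0.le)
      ((div_lt_one hz0).2 hz)).const_mul D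
  rw [mul_zero] at ht
  have := ge_of_tendsto ht (Filter.eventually_atTop.2 ⟨1, fun m hm => key m hm⟩)
  linarith

end Pool.Agent.Lib.MP_557161_ag.HG.MC
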