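import Pool.Agent.Lib.MP_557161_ag.MC.StZ
import Pool.Agent.Lib.MP_557161_ag.HG.ZA1
import Pool.Agent.Lib.MP_557161_ag.HG.ZA

/-!
The sum of the diagrams at an arbitrary eigenvalue.
-/

namespace Pool.Agent.Lib.MP_557161_ag.HG.MC

namespace ZAya

open Finset Sum Matrix XCa ZAa

variable {B O : Type} {m : ℕ} [DecidableEq B] {s : B → B} {o : B}

theorem det_zero (u v : Fin m → B) (hu : ¬ ∀ l, u l ≠ o ∧ s (u l) ≠ o) :
    (of fun j i => dl (cR s o v j) (cR s o u i)).det = 0 := by
  obtain ⟨l, hl⟩ := not_forall.1 hu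
  by_cases h : u l = o
  · exact det_zero_of_column_eq (i := inl ()) (j := inr (inr l)) (by simp)
      (fun _ => by simp [cR, h])
  · have h' : s (u l) = o := by_contra fun h' => hl ⟨h, h'⟩
    exact det_zero_of_column_eq (i := inl ()) (j := inr (inl l)) (by simp)
      (fun _ => by simp [cR, h'])

theorem det_cR (hs : ∀ x, s (s x) = x) (u v : Fin m → B) (hu : ∀ l, u l ≠ o ∧ s (u l) ≠ o) :
    (of fun j i => dl (cR s o v j) (cR s o u i)).det =
      (of fun k l => dl (v k) (u l) + dl (s (v k)) (u l)).det *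
        (of fun k l => dl (v k) (u l) - dl (s (v k)) (u l)).det := by
  have b0 : ∀ {x y}, s x = s y ↔ x = y := (Function.Involutive.injective hs).eq_iff
  have b1 : ∀ {x y}, x = s y ↔ s x = y := fun {x y} => by rw [← b0, hs]
  have u1 : ∀ l, o ≠ u l := fun l => (hu l).1.symm
  have u2 : ∀ l, s o ≠ u l := fun l e => (hu l).2 (by rw [← e, hs])
  by_cases hv : ∃ k, v k = o ∨ s (v k) = o
  · obtain ⟨k, hk | hk⟩ := hv
    · rw [det_zero_of_row_eq (i := inl ()) (j := inr (inr k)) (by simp)
        (funext fun _ => by simp [cR, hk]), det_eq_zero_of_row_eq_zero (A := of fun k l =>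
          dl (v k) (u l) - dl (s (v k)) (u l)) k fun l => by simp [dl, hk, u1, u2], mul_zero]
    · have hk' : v k = s o := by rw [← hk, hs]
      rw [det_zero_of_row_eq (i := inl ()) (j := inr (inl k)) (by simp)
        (funext fun _ => by simp [cR, hk]), det_eq_zero_of_row_eq_zero (A := of fun k l =>
          dl (v k) (u l) - dl (s (v k)) (u l)) k fun l => by simp [dl, hk', hs, u1, u2], mul_zero]
  push Not at hv
  obtain ⟨A, hA⟩ : ∃ A : Matrix (Fin m) (Fin m) ℂ, A = of fun k l => dl (v k) (u l) := ⟨_, rfl⟩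
  obtain ⟨C, hC⟩ : ∃ C : Matrix (Fin m) (Fin m) ℂ, C = of fun k l => dl (s (v k)) (u l) := ⟨_, rfl⟩
  have e1 : (of fun j i => dl (cR s o v j) (cR s o u i)) = fromBlocks 1 0 0 (fromBlocks A C C A) := by
    ext (j | j | j) (i | i | i) <;>
      simp [cR, dl, hA, hC, b0, b1, u1, u2, (hv _).1, (hv _).2]
  have e2 : fromBlocks A C C A * fromBlocks 1 0 1 1 =
      fromBlocks 1 0 1 1 * fromBlocks (A + C) C 0 (A - C) := by
    simp [fromBlocks_multiply, add_comm]
  have e3 := congrArg det e2
  simp only [det_mul, det_fromBlocks_zero₁₂, det_fromBlocks_zero₂₁, det_one, mul_one, one_mul] at e3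
  rw [e1, det_fromBlocks_zero₂₁, det_one, one_mul, e3, hA, hC]
  rfl

open Classical in
theorem sum_v [Fintype B] (hs : ∀ x, s (s x) = x) (β : B → ℂ) (u : Fin m → B) :
    ∑ v : Fin m → B, (of fun j i => dl (cR s o v j) (cR s o u i)).det * ∏ k, β (v k) =
      m.factorial * if ∀ l, u l ≠ o ∧ s (u l) ≠ o then ((∏ l, (β (u l) - β (s (u l)))) *
        (of fun l l' => dl (u l) (u l') - dl (s (u l)) (u l')).det) else 0 := by
  split_ifs with hu
  swap
  · simp only [det_zero u _ hu, zero_mul, sum_const_zero, mul_zero]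
  have b1 : ∀ {x y}, s x = y ↔ x = s y := fun {x y} => by
    rw [← (Function.Involutive.injective hs).eq_iff, hs]
  have h := andreief (fun b l => dl b (u l) + dl (s b) (u l))
    fun b l => β b * (dl b (u l) - dl (s b) (u l))
  rw [← det_mul_column]
  refine Eq.trans (sum_congr rfl fun v _ => ?_) (h.trans (congrArg _ (congrArg det ?_)))
  · rw [det_cR hs u v hu, mul_assoc, mul_comm (det _) (∏ k, _), ← det_mul_column]
    rfl
  · ext l l'
    simp only [of_apply, add_mul, sum_add_distrib, dl, ite_mul, one_mul, zero_mul, b1 (y := u l),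
      sum_ite_eq', mem_univ, if_true, hs]
    ring

open Classical in
theorem main [Fintype B] {κ : Type} [Fintype κ] [DecidableEq κ] (ε : κ ≃ Lm m)
    (hs : ∀ x, s (s x) = x) {ob : Bool → B} (ho : s (ob false) = ob true) (z : B → ℂ)
    (a : Fin m → ℕ) :
    ∑ π : Equiv.Perm κ, ((Equiv.Perm.sign π : ℤ) : ℂ) * ∑ c with Col s ob univ _
      (tp ((ε.sumCongr ε).trans (.ofBijective _ (slot_bij m))) π) c, ∏ t, z (c t) ^ ex a t =
      m.factorial * ∑ u : Fin m → B, if ∀ l, u l ≠ ob false ∧ s (u l) ≠ ob false then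
        (∏ l, z (u l) ^ (a l + 1) * (z (s (u l)) - z (u l))) *
        (of fun l l' => dl (u l) (u l') - dl (s (u l)) (u l')).det else 0 := by
  set E := (ε.sumCongr ε).trans (.ofBijective _ (slot_bij m))
  set o := ob false with ho'
  let F : (Fin m → B) × (Fin m → B) → Tw (m + m) → B := fun x t =>
    Sum.elim (fun i => s (cR s o x.1 i)) (cR s o x.2) ((Equiv.ofBijective _ (slot_bij m)).symm t)
  have b : ∀ x i, F x (slot m i) = Sum.elim (fun i => s (cR s o x.1 i)) (cR s o x.2) i :=
    fun x i => congrArg _ ((Equiv.ofBijective _ (slot_bij m)).symm_apply_apply i)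
  have b1 : ∀ x (k : Fin m), F x (sl _ k false) = x.1 k := fun x k =>
    (b x (inl (inr (inl k)))).trans (hs _)
  have b2 : ∀ x (k : Fin m), F x (sl _ (m + k) false) = x.2 k := fun x k => b x (inr (inr (inr k)))
  simp only [sum_filter, mul_sum]
  rw [sum_comm, ← Fintype.sum_of_injective F (fun x y h => Prod.ext
    (funext fun k => by rw [← b1, h, b1]) (funext fun k => by rw [← b2, h, b2]))
    (fun x => (∏ l, z (x.1 l) ^ (a l + 1)) *
      ((of fun j i => dl (cR s o x.2 j) (cR s o x.1 i)).det * ∏ k, z (s (x.2 k)))) _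
    (fun c hc => sum_eq_zero fun π _ => ?_) fun x => ?_, Fintype.sum_prod_type]
  · refine sum_congr rfl fun u _ => ?_
    simp only [← mul_sum, sum_v hs fun x => z (s x), hs, prod_mul_distrib]
    split_ifs <;> ring
  · rw [if_neg fun h => hc ⟨(fun k => c (sl _ k false), fun k => c (sl _ (m + k) false)),
      funext fun t => ?_⟩, mul_zero]
    obtain ⟨i, rfl⟩ := (slot_bij m).2 t
    rw [b]
    rcases i with (i | k | k) | i | k | k
    exacts [ho.trans (h.1.1 _).symm, hs _, (h.1.2 _ (by omega)).symm, (h.1.1 _).symm,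
      (h.1.2 _ (by omega)).symm, rfl]
  · have c1 : Mt s ob _ (F x) := ⟨fun y => by
      cases y
      exacts [b x (inr (inl ())), (b x (inl (inl ()))).trans ho],
      lt_two (fun k => (b x (inl (inr (inr k)))).trans (congrArg s (b1 x k).symm))
        fun k => (b x (inr (inr (inl k)))).trans (congrArg s (b2 x k).symm)⟩
    have c2 : ∏ t, z (F x t) ^ ex a t = (∏ l, z (x.1 l) ^ (a l + 1)) * ∏ k, z (s (x.2 k)) := by
      rw [← (Equiv.ofBijective _ (slot_bij m)).prod_comp]
      simp [F, ex, cR, hs]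
    rw [← det_submatrix_equiv_self ε, det_apply', sum_mul, mul_sum]
    refine sum_congr rfl fun π _ => ?_
    have c3 : Col s ob univ _ (tp E π) (F x) ↔
        ∀ i, cR s o x.2 (ε (π i)) = cR s o x.1 (ε i) := by
      refine (and_iff_right c1).trans ((and_iff_left (lo_of _ _ _ fun _ _ => mem_univ _)).trans
        ((cp_tp E π hs _).trans (forall_congr' fun i => ?_)))
      rw [show F x (E (inr (π i))) = _ from b x (inr (ε (π i))),
        show F x (E (inl i)) = _ from b x (inl (ε i))]
      simp [hs]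
    simp only [submatrix_apply, of_apply, dl, prod_boole, mem_univ, true_imp_iff, c2, c3]
    split_ifs <;> ring

open Classical in
theorem model (ε : Fin (2 * m + 1) ≃ Lm m) (a : Fin m → ℕ) [Fintype O] (x : Option O → ℂ) (q : ℂ)
    (hq : q ≠ 0) (hx : ∀ o, x o ≠ 0) :
    dsy ((ε.sumCongr ε).trans (.ofBijective _ (slot_bij m)))
      (lamP q fun m => q ^ m * ∑ o, (x o ^ m + (x o)⁻¹ ^ m)) q (q * x none) (ex a) =
      (-1) ^ m * m.factorial * q ^ (∑ k, (a k + 2)) *
        phi (fun h => ∑ o : O, h.eval (x (some o) + (x (some o))⁻¹)) m (chD a) := by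
  let z : Option O × Bool → ℂ := fun c => q * bif c.2 then x c.1 else (x c.1)⁻¹
  let s : Option O × Bool → Option O × Bool := fun c => (c.1, !c.2)
  have hs : ∀ c, s (s c) = c := by intro c; simp [s]
  have hl : ∀ i j, lamP q (fun m => q ^ m * ∑ o, (x o ^ m + (x o)⁻¹ ^ m)) i j =
      ∑ c ∈ univ, z c ^ i * z (s c) ^ j := fun i j => by
    have e : ∀ (y : ℂ) (i d : ℕ), y ≠ 0 → (q * y) ^ i * (q * y⁻¹) ^ (i + d) =
        q ^ (2 * i) * (q ^ d * y⁻¹ ^ d) := fun y i d hy => by
      rw [pow_add, ← mul_assoc, ← mul_pow, mul_mul_mul_comm, mul_inv_cancel₀ hy]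
      ring
    have e' := fun o i d => e (x o)⁻¹ i d (inv_ne_zero (hx o))
    simp only [inv_inv] at e'
    simp only [Fintype.sum_prod_type, Fintype.sum_bool, z, s, lamP,
      Bool.not_true, Bool.not_false, cond]
    rcases le_total i j with h | h <;> obtain ⟨d, rfl⟩ := Nat.exists_eq_add_of_le h
    · simp only [min_eq_left h, max_eq_right h, Nat.add_sub_cancel_left, e _ _ _ (hx _), e',
        mul_add, mul_sum]
      exact sum_congr rfl fun _ _ => add_comm _ _
    · simp only [min_eq_right h, max_eq_left h, Nat.add_sub_cancel_left, e _ _ _ (hx _), e',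
        mul_add, mul_sum, mul_comm (_ ^ (j + d))]
  have hz : q ^ 2 / (q * x none) = z (none, false) := by
    simp only [z, cond]
    field_simp [hx none]
  unfold dsy
  rw [hz]
  refine ((sum_congr rfl fun π _ => congrArg _
    (ev_eq (o := fun b => (none, b)) hs (fun _ => rfl) z hl _ _ (ex a) (inv_tp _ π))).trans
    (main ε hs rfl z a)).trans ?_
  have key : ∀ g : (Fin m → Option O × Bool) → ℂ, (∀ u l, (u l).1 = none → g u = 0) →
      ∑ u, g u = ∑ o : Fin m → O, ∑ b : Fin m → Bool, g fun l => (some (o l), b l) := fun g hg => by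
    rw [← Fintype.sum_prod_type']
    refine (Fintype.sum_of_injective _ (fun y y' h => Prod.ext
      (funext fun l => Option.some.inj (congrArg Prod.fst (congrFun h l)))
      (funext fun l => congrArg Prod.snd (congrFun h l))) _ _
      (fun u hu => by_contra fun h => ?_) fun _ => rfl).symm
    choose y hy using fun l => Option.ne_none_iff_exists.1 fun e => h (hg u l e)
    exact hu ⟨(y, fun l => (u l).2), funext fun l => Prod.ext (hy l) rfl⟩
  have orb : ∀ (o : Fin m → O) (b : Fin m → Bool), (of fun l l' =>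
      dl (some (o l), b l) (some (o l'), b l') - dl (some (o l), !b l) (some (o l'), b l')).det =
      if Function.Injective o then 1 else 0 := fun o b => by
    refine Eq.trans (congrArg det ?_) (det_orb o b)
    ext l l'
    simp [dl]
  rw [phi_eq, key _ fun u l hl => if_neg fun h => by
      have h1 := h l
      rcases hu : u l with ⟨c, _ | _⟩ <;> simp_all [s],
    mul_comm ((-1) ^ m : ℂ), mul_assoc, mul_assoc, mul_sum, mul_sum, mul_sum, mul_sum]
  refine sum_congr rfl fun o _ => congrArg _ ?_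
  simp only [s, orb, ne_eq, Prod.mk.injEq, reduceCtorEq, false_and, not_false_eq_true, and_self,
    implies_true, if_true, ← sum_mul]
  split_ifs
  · rw [← Fintype.prod_sum fun l b => z (some (o l), b) ^ (a l + 1) *
      (z (some (o l), !b) - z (some (o l), b)), mul_one, ← prod_pow_eq_pow_sum,
      ← prod_mul_distrib, ← Fin.prod_const, ← prod_mul_distrib]
    refine prod_congr rfl fun l _ => ?_
    have h1 := chC_eval (hx (some (o l))) (a l + 2)
    push_cast at h1
    simp only [Fintype.sum_bool, z, Bool.not_true, Bool.not_false, cond, chD,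
      Polynomial.eval_sub, h1, chC_eval (hx (some (o l)))]
    linear_combination q ^ (a l + 2) * (x (some (o l)) ^ a l + (x (some (o l)))⁻¹ ^ a l) *
      mul_inv_cancel₀ (hx (some (o l)))
  · simp

open Polynomial in
theorem zap_phi (ρ : ℂ[X] →ₗ[ℂ] ℂ) (k : ℕ) (h : Fin k → ℂ[X]) :
    ZAP fun τ => phi (τ - ρ : ℂ[X] →ₗ[ℂ] ℂ) k h := by
  induction k with
  | zero => exact .const 1
  | succ k ih =>
    exact (((ZAP.app _).sub (.const (ρ (h 0)))).mul (ih _)).sub (.sum _ fun _ => ih _)

end ZAya

open ZAa XCa Finset Sum Polynomial in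
theorem ZAy_thm : ZAy where
  frob m := by
    classical
    obtain ⟨ε⟩ : Nonempty (Fin (2 * m + 1) ≃ Lm m) := Fintype.card_eq.1 (by simp; ring)
    refine ⟨m + m, fun k => decide (k < m), (ε.sumCongr ε).trans (.ofBijective _ (slot_bij m)),
      fun i => ?_, fun i => ?_, fun a => ⟨ex a, fun q y P σ hq hy hP => ?_⟩⟩
    · change side _ _ (slot m (inl (ε i))) = _
      rcases ε i with k | k | k
      exacts [side_op _ _ _, (side_sl _ _ _ _ (by omega)).trans (by simp),
        (side_sl _ _ _ _ (by omega)).trans (by simp)]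
    · change side _ _ (slot m (inr (ε i))) = _
      rcases ε i with k | k | k
      exacts [side_op _ _ _, (side_sl _ _ _ _ (by omega)).trans (by simp),
        (side_sl _ _ _ _ (by omega)).trans (by simp)]
    obtain rfl : P = fun m : ℕ => q ^ m * σ (chC m) :=
      funext fun m => by rw [hP, mul_div_cancel₀ _ (pow_ne_zero _ hq)]
    refine sub_eq_zero.1 (ZAP.zero (F := fun σ => dsy _ (lamP q fun m : ℕ => q ^ m * σ (chC m)) q
      (q * y) (ex a) - _ * phi (σ - leval (y + y⁻¹) : ℂ[X] →ₗ[ℂ] ℂ) m (chD a))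
      (.sub (.sum _ fun π => .mul (.const _) ?_) (.mul (.const _) (ZAya.zap_phi _ _ _)))
      (leval (y + y⁻¹)) (fun O _ u => ?_) σ)
    · simp only [ZA_ev _ 0]
      exact .mul (.ev (fun x y => .mul (.const _) (.mul (.const _) (.app _))) _ _ _) (.const _)
    · have : ∀ u : ℂ, ∃ x : ℂ, x ≠ 0 ∧ x + x⁻¹ = u := fun u => by
        obtain ⟨s, hs⟩ := IsAlgClosed.exists_eq_mul_self (u ^ 2 - 4)
        have e : (u + s) / 2 * ((u - s) / 2) = 1 := by linear_combination hs / 4
        exact ⟨_, left_ne_zero_of_mul_eq_one e, by rw [← eq_inv_of_mul_eq_one_right e]; ring⟩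
      choose x h4 h5 using this
      have h6 := ZAya.model ε a (fun c : Option O => c.elim y fun o => x (u o)) q hq
        (by rintro (_ | o); exacts [hy, h4 _])
      have e1 : ((leval (y + y⁻¹) + ∑ o, leval (u o) - leval (y + y⁻¹) : ℂ[X] →ₗ[ℂ] ℂ) :
          ℂ[X] → ℂ) = fun h => ∑ o, h.eval (x (u o) + (x (u o))⁻¹) := by
        funext h
        simp [h5]
      have e2 : (fun m : ℕ => q ^ m * (leval (y + y⁻¹) + ∑ o, leval (u o) : ℂ[X] →ₗ[ℂ] ℂ) (chC m)) =
          fun m : ℕ => q ^ m * ∑ c : Option O, ((c.elim y fun o => x (u o)) ^ m +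
            (c.elim y fun o => x (u o))⁻¹ ^ m) := by
        funext m
        simp only [Fintype.sum_option, Option.elim, ← ZA_C (h4 _), ← ZA_C hy, h5]
        simp
      rw [sub_eq_zero, e1, e2]
      exact h6

end Pool.Agent.Lib.MP_557161_ag.HG.MC
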