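import Pool.Agent.Lib.MP_557161_ag.MC.All2
import Pool.Agent.Lib.MP_557161_ag.MC.FN2
import Pool.Agent.Lib.MP_557161_ag.MC.ZAy
import Pool.Agent.Lib.MP_557161_ag.MC.GB
import Pool.Agent.Lib.MP_557161_ag.MC.GP

/-!
The conjecture of Tate in all degrees for the compactified double covers, assembled.
-/

namespace Pool.Agent.Lib.MP_557161_ag.HG.MC

open Pool.Agent.Lib.MP_557161_ag.DL

theorem final2 (d : ℕ) (hd : 0 < d) : ∃ (σ : Type) (_ : Finite σ)
    (m : σ → Option (Fin (2 * d)) → ℕ),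
    AddSubgroup.closure (Set.range fun s : σ × σ => fun l => (m s.1 l : ℤ) - m s.2 l) = ⊤ ∧
    ∀ p : ℕ, p.Prime → ¬ p ∣ 2 * (2 * d + 1) → ∃ H : Polynomial (ZMod p), H ≠ 0 ∧
      ∀ (k : Type) [Field k] [Finite k] [Algebra (ZMod p) k] (lam : k),
        Polynomial.aeval lam H ≠ 0 → SmProj (mcI m lam) (2 * d) ∧
        ∀ (L : ℕ → Type) [∀ j, Field (L j)] [∀ j, Algebra k (L j)],
          (∀ j, Module.finrank k (L j) = j + 1) →
          (∃ ζ : ℂ → ℂ, IsZeta (mcI m lam) (2 * d) L ζ ∧ TateOrd (mcI m lam) (2 * d) ζ) ∧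
          ([ZY] → ∀ i, TateAt (Nat.card k) i (upI (mcI m lam))) := by
  obtain ⟨t, ⟨T⟩⟩ := F7_all.ex d
  let _ : Rk := ⟨t, d⟩
  refine ⟨T.σ, inferInstance, T.m, F7_all.gen T.toFan, fun p hp hn => ?_⟩
  have : Fact p.Prime := ⟨hp⟩
  have p2 : p ≠ 2 := fun e => hn (e ▸ dvd_mul_right _ _)
  obtain ⟨H, H0, hH⟩ := (NX_all p).main p2 d
  refine ⟨Polynomial.X * (Polynomial.X ^ (2 * d + 1) -
    Polynomial.C ((-((2 * d + 1 : ℕ) : ZMod p)) ^ (2 * d + 1))) * H, mul_ne_zero (mul_ne_zero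
      Polynomial.X_ne_zero (Polynomial.X_pow_sub_C_ne_zero (Nat.succ_pos _) _)) H0,
    fun k _ _ _ lam h => ?_⟩
  have : CharP k p := charP_of_injective_algebraMap (algebraMap (ZMod p) k).injective p
  let a := algebraMap k (AlgebraicClosure k)
  have nz : ∀ n : ℕ, n ∣ 2 * (2 * d + 1) → (n : AlgebraicClosure k) ≠ 0 := fun n e h =>
    hn (((CharP.cast_eq_zero_iff _ p n).1 h).trans e)
  rw [map_mul, map_mul, Polynomial.aeval_X, map_sub, map_pow, Polynomial.aeval_X,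
    Polynomial.aeval_C, map_pow, map_neg, map_natCast] at h
  obtain ⟨⟨h1, h2⟩, h3⟩ := (mul_ne_zero_iff.1 h).imp_left mul_ne_zero_iff.1
  let G : GD (AlgebraicClosure k) := ⟨T, a lam, hd, nz 2 (dvd_mul_right _ _),
    nz _ (dvd_mul_left _ _), (map_ne_zero a).2 h1, fun e => h2 (sub_eq_zero.2 (a.injective (by
      rw [map_pow, map_pow, map_neg, map_natCast]
      exact e)))⟩
  have : GB := GB_thm
  have : NS2 p := NS2_thm
  have hx : Sl p (xs dd G.lam (Nat.card k)) ∧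
      ∀ m, 0 < m → xs dd G.lam (Nat.card k) m ^ 2 ≤ (Nat.card k : ℚ) ^ m := by
    have := Fintype.ofFinite k
    obtain ⟨n, -, e⟩ := FiniteField.card k p
    have e1 : a lam ^ p ^ (n : ℕ) = a lam := by rw [← map_pow, ← e, FiniteField.pow_card]
    rw [Nat.card_eq_fintype_card, e]
    refine ⟨hH _ (by simpa only [ringChar.eq k p] using (T0.fbar k).alg) n _ n.2 e1 ?_,
      xs_bd p2 d n.2 G.l0 e1⟩
    rw [Polynomial.aeval_algebraMap_apply]
    exact (map_ne_zero a).2 h3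
  obtain ⟨_, _, _, _, _, _, _, _, _, _, _, _⟩ := geo (K := AlgebraicClosure k) (p := p)
  have : XP := XP_thm
  have : XJ := XJ_thm
  have : XM := XM_thm
  have : XR := XR_thm
  have : XU := XU_thm
  have : XK k := XK_thm
  have : XT := XT_thm
  have : XZ := XZ_thm
  have : ZAy := ZAy_thm
  have : GP := GP_thm
  have : XC := XC_thm
  have : FW0 (AlgebraicClosure k) := FW0_thm
  have : XV (AlgebraicClosure k) p := XV_thm
  have : XW (AlgebraicClosure k) p := XW_thm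
  have : ZS (AlgebraicClosure k) p := ZS_thm
  have : ALT (AlgebraicClosure k) := ALT_thm
  have : ZRy (AlgebraicClosure k) p := ZRy_thm
  have : ZB := ZB_thm
  have : ZD := ZD_thm
  have : ZT := ZT_thm
  have : TW.P2.ZB2 := TW.P2.ZB2_thm
  have : NY p := NY_thm
  have hI := XJ.hom G.m lam
  have hs := XK.smooth G (lam := lam) rfl
  have hm := FNa.hd G lam
  exact ⟨⟨hI, hs, hm, fun i P => nonempty_res hI P.2.2.1 P.2.2.2.1,
    fun i n h P Q F => chi_eventually hI hs hm h P Q F⟩,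
    fun L _ _ hL => zeta_all (G := G) rfl hx.1 hx.2 L hL⟩

end Pool.Agent.Lib.MP_557161_ag.HG.MC
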