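import Pool.Agent.Lib.MP_557161_ag.MC.All3

/-!
The conjecture of Tate for the compactified double covers, with a bound for the degree of the
exceptional polynomial that is linear in the characteristic.
-/

namespace Pool.Agent.Lib.MP_557161_ag.HG.MC

namespace Eff

section Deg

open Pool.Agent.Lib.MP_557161_ag.DW Polynomial Filter Topology

/-- The constant in the bound for the degree. -/
noncomputable def cst (n : ℕ) : ℕ := ∑ s ∈ Finset.range (n + 1), Fintype.card (Ib n s) * (s + 1)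

lemma deg_Bp {R : Type} [CommRing R] {n s : ℕ} (p : ℕ) (e : ℕ → R) (v v' : Ib n s) :
    (Bp p e v.1 v'.1).natDegree ≤ (s + 1) * p := by
  refine natDegree_sum_le_of_forall_le _ _ fun t _ => (natDegree_C_mul_X_pow_le _ _).trans ?_
  have h1 : v.1 (.inr true) ≤ s := ((Finset.single_le_sum (f := v.1)
    (fun _ _ => Nat.zero_le _) (Finset.mem_univ _)).trans_lt v.2.1).le
  have h2 : (p : ℤ) * v.1 (.inr true) ≤ p * s := by gcongr
  have h3 : (0 : ℤ) ≤ t * n := by positivity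
  have h4 : ((p / 2 : ℕ) : ℤ) ≤ p := by exact_mod_cast Nat.div_le_self p 2
  have h5 : (0 : ℤ) ≤ v'.1 (.inr true) := by positivity
  rw [Int.toNat_le]
  simp only [ex, hh, rho, Sum.elim_inr, cond_true]
  push_cast at h4 ⊢
  nlinarith

lemma deg_Hs {R : Type} [CommRing R] (p : ℕ) (e : ℕ → R) (n s : ℕ) :
    (Hs p e n s).natDegree ≤ Fintype.card (Ib n s) * (s + 1) * p := by
  rw [Hs, Matrix.det_apply]
  refine natDegree_sum_le_of_forall_le _ _ fun π _ => ?_
  refine (natDegree_smul_le _ _).trans ((natDegree_prod_le _ _).trans ?_)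
  rw [mul_assoc, ← smul_eq_mul, ← Finset.card_univ]
  exact Finset.sum_le_card_nsmul _ _ _ fun v _ => deg_Bp p e _ _

lemma cst_le (n : ℕ) : n + 1 + cst n ≤ 2 * (n + 1) ^ (n + 4) := by
  have : Fact (Nat.Prime 2) := ⟨Nat.prime_two⟩
  have : NG 2 := NG_thm
  have h1 : cst n ≤ (n + 1) * (n + 1) ^ (n + 3) := by
    refine (Finset.sum_le_card_nsmul _ _ ((n + 1) ^ (n + 3)) fun s hs => ?_).trans_eq (by simp)
    have h2 := NG.cnt (p := 2) n s s
    rw [Finset.filter_true_of_mem fun u _ => u.2.1.le, Finset.card_univ] at h2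
    have h3 : s + 1 ≤ n + 1 := Finset.mem_range.1 hs
    rw [pow_succ]
    exact Nat.mul_le_mul (h2.trans (Nat.pow_le_pow_left h3 _)) h3
  have h4 : n + 1 ≤ (n + 1) ^ (n + 4) := Nat.le_self_pow (by omega) _
  rw [← pow_succ', add_assoc n 3] at h1
  exact (Nat.add_le_add h4 h1).trans_eq (two_mul _).symm

open NXa in
theorem nx_deg {p : ℕ} [Fact p.Prime] [NA p] [NB p] [NH p] [NR p] [NT p] [NC] [NG p] [ND p]
    [NL p] [NW] [NK p] [NS p] (hp : p ≠ 2) (d : ℕ) : ∃ H : (ZMod p)[X],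
    (H ≠ 0 ∧ H.natDegree ≤ cst (2 * d + 1) * p) ∧
    ∀ (K : Type) [Field K] [IsAlgClosed K] [Algebra (ZMod p) K],
    (∀ x : K, ∃ m, 0 < m ∧ x ^ p ^ m = x) → ∀ (a : ℕ) (lam : K), 0 < a → lam ^ p ^ a = lam →
    aeval lam H ≠ 0 → Mer (fun m => (xs d lam (p ^ a) m : ℂ_[p])) ∧ ∀ ν : ℂ_[p] →₀ ℤ,
      (∀ m, 0 < m → (xs d lam (p ^ a) m : ℂ_[p]) = ν.sum fun z k => k * z ^ m) →
      (∀ z, z ≠ 1 → z ≠ -1 → 0 ≤ ν z) → 2 * (d : ℤ) ≤ off ν 1 := by
  have hpp : p.Prime := Fact.out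
  have hodd : Odd p := hpp.odd_of_ne_two hp
  have hP : (1 : ℝ) < p := by exact_mod_cast hpp.one_lt
  have hP0 : (0 : ℝ) < p := one_pos.trans hP
  obtain ⟨e, he⟩ := NA.ex (p := p)
  obtain ⟨γ, hγ, hs⟩ := NA.gam (p := p)
  set n := 2 * d + 1 with hn
  have hn0 : 0 < n := Nat.succ_pos _
  refine ⟨∏ s ∈ Finset.range (n + 1), (Hs p e n s).map PadicInt.toZMod,
    ⟨Finset.prod_ne_zero_iff.2 fun s hs =>
      NH.ne hp he n s hn0 (Nat.lt_succ_iff.1 (Finset.mem_range.1 hs)),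
      (natDegree_prod_le _ _).trans (by
        rw [cst, Finset.sum_mul]
        exact Finset.sum_le_sum fun s _ => natDegree_map_le.trans (deg_Hs p e n s))⟩, ?_⟩
  intro K _ _ _ hK a lam ha hlam hH
  have : CharP K p := charP_of_injective_algebraMap (algebraMap (ZMod p) K).injective p
  have : NeZero a := ⟨ha.ne'⟩
  obtain ⟨τ, hτ, hT⟩ := NB.spl he hγ hs K hK
  have c0 := hτ.pos
  have c1 := hτ.lt
  set θ : ℕ → ℂ_[p] := fun k => zc p (e k) * γ ^ k with hθ
  set l : ℕ → ℂ_[p] := fun i => τ lam ^ p ^ i with hl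
  have hl1 : ∀ i, ‖l i‖ ≤ 1 := fun i => by
    rw [hl, norm_pow]
    refine pow_le_one₀ (norm_nonneg _) ?_
    rcases eq_or_ne lam 0 with h | h
    · rw [h, map_zero, norm_zero]
      exact zero_le_one
    · exact (hT.1 lam h).le
  let A : ∀ J : ℕ, ℕ → Matrix (Ib n ((n + 2) * J + 1)) (Ib n ((n + 2) * J + 1)) ℂ_[p] :=
    fun J i => Am p (tc J θ) n ((n + 2) * J + 1) (l i)
  have hA : ∀ J i, A J (i + a) = A J i := fun J i => by
    have : l (i + a) = l i := by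
      rw [hl]
      dsimp only
      rw [pow_add, mul_comm, pow_mul, ← map_pow, hlam]
    simp only [A, this]
  have hE : ∀ J i u v, ‖A J i u v‖ * ‖γ‖ ^ v.w ≤ ‖γ‖ ^ (p * u.w) := fun J i u v =>
    ent hp e c1 (hl1 i) n J _ u v
  set w : ℂ_[p] := (-1) ^ ((p ^ a - 1) / 2) * ((p : ℂ_[p]) ^ a) ^ (d + 1) with hw
  have hwn : ‖w‖ = (((p : ℝ) ^ a) ^ (d + 1))⁻¹ := by
    rw [hw, norm_mul, norm_pow, norm_neg, norm_one, one_pow, one_mul, norm_pow, norm_pow, norm_p,
      inv_pow, inv_pow]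
  have hw0 : w ≠ 0 := norm_pos_iff.1 (by rw [hwn]; positivity)
  have hlim : ∀ m, 0 < m → Tendsto
      (fun J => ((p : ℂ_[p]) ^ (a * m) - 1) ^ (n + 1) * (prM (A J) (a * m)).trace) atTop
      (𝓝 (w ^ m * (xs d lam (p ^ a) m : ℂ_[p]))) := fun m hm => by
    have h1 := NS.lim hp hτ n (a * m) lam (Nat.mul_pos ha hm) (by rw [pow_mul]; exact fix_pow hlam m)
    rw [xs_eq hodd] at h1
    exact h1.congr fun J =>
      NT.tr hodd hpp.one_lt θ n J _ l _ hn0 (Nat.lt_succ_self _) (Nat.mul_pos ha hm)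
  refine ⟨?_, fun ν hν hpos => ?_⟩
  · obtain ⟨h, hh, hb⟩ := NG.bd (p := p) fun m => (m + 1) ^ (n + 2)
    have hq : ∀ m, 0 < m → (((p : ℂ_[p]) ^ a) ^ m - 1) ^ (n + 1) ≠ 0 := fun m hm => by
      refine pow_ne_zero _ (sub_ne_zero.2 ?_)
      rw [← pow_mul]
      exact_mod_cast (Nat.one_lt_pow (Nat.mul_pos ha hm).ne' hpp.one_lt).ne'
    have h1 : Mer fun m => ((((p : ℂ_[p]) ^ a) ^ m - 1) ^ (n + 1))⁻¹ *
        (w ^ m * (xs d lam (p ^ a) m : ℂ_[p])) := by
      refine mer_of_limit (u := fun J t => (prM (A J) a ^ t).trace)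
        (D := fun J => ((prM (A J) a).charpolyRev : PowerSeries ℂ_[p])) c0 c1 hh
        (fun J => ?_) (fun J => newton _) (fun J j => ?_) fun t ht => ?_
      · rw [constantCoeff_coe, rev_zero]
      · rw [coeff_coe]
        exact hb _ Ib.w (NG.cnt p n _) _ _ c0 c1 (NG.mul Ib.w _ _ c0 c1 (hE J) a ha) j
      · refine ((hlim t ht).const_mul _).congr fun J => ?_
        rw [NC.pw _ a (hA J), pow_mul, inv_mul_cancel_left₀ (hq t ht)]
    refine ((h1.mul_pow ((p : ℂ_[p]) ^ a) (n + 1)).scale w⁻¹).congr fun t ht => ?_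
    rw [mul_inv_cancel_left₀ (hq t ht), inv_pow, inv_mul_cancel_left₀ (pow_ne_zero _ hw0)]
  · let ν' : ℂ_[p] →₀ ℤ := Finsupp.equivMapDomain (Equiv.mulLeft₀ w hw0) ν
    have hν' : ∀ z, ν' z = ν (w⁻¹ * z) := fun z => rfl
    have hoff : off ν' w = off ν 1 := by
      rw [off, off, hν', hν', mul_neg, inv_mul_cancel₀ hw0, Finsupp.sum_equivMapDomain]
    rw [← hoff]
    refine NK.cnt d a ν' ha (fun s hs T h1 h2 h3 => ?_) w hwn (fun z z1 z2 => ?_) hp
    swap
    · rw [hν']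
      refine hpos _ (fun h => z1 ?_) fun h => z2 ?_
      · rw [← mul_inv_cancel_left₀ hw0 z, h, mul_one]
      · rw [← mul_inv_cancel_left₀ hw0 z, h, mul_neg_one]
    obtain ⟨h, hh, hb⟩ := NG.bd (p := p) fun m => (m + 1) ^ (n + 2) * a
    have hT0 : 0 < ‖T‖ := (pow_pos hP0 s).trans h1
    have hn1 : ∀ i : ℕ, ‖(p : ℂ_[p]) ^ i * T‖ = ‖T‖ / (p : ℝ) ^ i := fun i => by
      rw [norm_mul, norm_pow, norm_p, inv_pow, div_eq_inv_mul]
    rw [NL.lim (fun J => (cyc (A J) a).charpolyRev) (fun J m => (cyc (A J) a ^ m).trace) ‖γ‖ h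
      c0 c1 hh (fun J => rev_zero _) (fun J => newton _) (fun J j => ?_) (n + 1) a ν' ha
      (fun m hm => ?_) T
      (fun i => (∏ v : Ib n (s - i), ‖T‖ / (p : ℝ) ^ i / (p : ℝ) ^ (v.w + 1)) ^ a)
      (fun i _ => ⟨by positivity, ?_⟩) fun z hz h => h3 z hz (by rw [h, norm_one]),
      ← NW.prod n s p ‖T‖ ⟨d, hn⟩ hs hP0 hT0, ← Finset.prod_pow]
    · refine Finset.prod_congr rfl fun i _ => ?_
      rw [← zpow_natCast _ a, ← zpow_natCast _ a, ← zpow_mul, ← zpow_mul, mul_comm]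
    · refine hb _ (fun u : Ib n _ × ZMod a => u.1.w) (card_prod (p := p) n _ a) _ _ c0 c1 (fun u v => ?_) j
      rw [cyc, Matrix.of_apply]
      split_ifs
      · exact hE J _ _ _
      · rw [norm_zero, zero_mul]
        positivity
    · simp only [NC.tr _ a (hA _) m hm]
      split_ifs with hd
      · obtain ⟨k, rfl⟩ := hd
        have hk : 0 < k := Nat.pos_of_mul_pos_left hm
        have h4 : (ν'.sum fun z c => c * z ^ k) = w ^ k * (xs d lam (p ^ a) k : ℂ_[p]) := by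
          rw [hν k hk, Finsupp.sum_equivMapDomain, Finsupp.mul_sum]
          refine Finsupp.sum_congr fun z _ => ?_
          rw [Equiv.mulLeft₀_apply, mul_pow, mul_left_comm]
        rw [Nat.mul_div_cancel_left _ ha, h4]
        exact ((hlim k hk).const_mul _).congr fun J => mul_left_comm _ _ _
      · simp only [mul_zero]
        exact tendsto_const_nhds
    · filter_upwards [eventually_ge_atTop (2 * (p * (s - i) + p)), eventually_ge_atTop s]
        with J j1 j2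
      rw [← hn1]
      refine ND.val hp e hγ n (s - i) a l hl1 (fun j => NR.unit hT _ lam (fun h => hH ?_) j) J _ j1
        (by nlinarith [Nat.sub_le s i]) _ ?_ ?_
      · rw [map_prod]
        exact Finset.prod_eq_zero (Finset.mem_range.2 (by omega)) h
      · rw [hn1, lt_div_iff₀ (pow_pos hP0 i), ← pow_add]
        rcases le_total s i with k | k
        · exact Or.inl (Nat.sub_eq_zero_of_le k)
        · exact Or.inr (by rwa [Nat.sub_add_cancel k])
      · rw [hn1, div_lt_iff₀ (pow_pos hP0 i), ← pow_add]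
        exact h2.trans_le (pow_le_pow_right₀ hP.le (by omega))


theorem nx_all (p : ℕ) [Fact p.Prime] (hp : p ≠ 2) (d : ℕ) : ∃ H : (ZMod p)[X],
    (H ≠ 0 ∧ H.natDegree ≤ cst (2 * d + 1) * p) ∧
    ∀ (K : Type) [Field K] [IsAlgClosed K] [Algebra (ZMod p) K],
    (∀ x : K, ∃ m, 0 < m ∧ x ^ p ^ m = x) → ∀ (a : ℕ) (lam : K), 0 < a → lam ^ p ^ a = lam →
    aeval lam H ≠ 0 → Mer (fun m => (xs d lam (p ^ a) m : ℂ_[p])) ∧ ∀ ν : ℂ_[p] →₀ ℤ,
      (∀ m, 0 < m → (xs d lam (p ^ a) m : ℂ_[p]) = ν.sum fun z k => k * z ^ m) →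
      (∀ z, z ≠ 1 → z ≠ -1 → 0 ≤ ν z) → 2 * (d : ℤ) ≤ off ν 1 := by
  have : NA p := NA_thm
  have : NB p := NB_thm
  have : NC := NC_thm
  have : NG p := NG_thm
  have : ND p := ND_thm
  have : NU p := NU_thm
  have : NH p := NH_thm
  have : NK p := NK_thm
  have : NL p := NL_thm
  have : NR p := NR_thm
  have : NS1 := NS1_thm
  have : NS2 p := NS2_thm
  have : NS p := NS_thm
  have : NT1 p := NT1_thm
  have : NT p := NT_thm
  have : NW := NW_thm
  exact nx_deg hp d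

end Deg

open Pool.Agent.Lib.MP_557161_ag.DL

theorem final3 (d : ℕ) (hd : 0 < d) : ∃ (σ : Type) (_ : Finite σ)
    (m : σ → Option (Fin (2 * d)) → ℕ),
    AddSubgroup.closure (Set.range fun s : σ × σ => fun l => (m s.1 l : ℤ) - m s.2 l) = ⊤ ∧
    ∀ p : ℕ, p.Prime → ¬ p ∣ 2 * (2 * d + 1) → ∃ H : Polynomial (ZMod p),
      (H ≠ 0 ∧ H.natDegree ≤ 2 * (2 * d + 2) ^ (2 * d + 5) * p) ∧
      ∀ (k : Type) [Field k] [Finite k] [Algebra (ZMod p) k] (lam : k),
        Polynomial.aeval lam H ≠ 0 → SmProj (mcI m lam) (2 * d) ∧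
        ∀ (L : ℕ → Type) [∀ j, Field (L j)] [∀ j, Algebra k (L j)],
          (∀ j, Module.finrank k (L j) = j + 1) →
          (∃ ζ : ℂ → ℂ, IsZeta (mcI m lam) (2 * d) L ζ ∧ TateOrd (mcI m lam) (2 * d) ζ) ∧
          ([ZY] → ∀ i, TateAt (Nat.card k) i (upI (mcI m lam))) := by
  obtain ⟨t, ⟨T⟩⟩ := F7_all.ex d
  let _ : Rk := ⟨t, d⟩
  refine ⟨T.σ, inferInstance, T.m, F7_all.gen T.toFan, fun p hp hn => ?_⟩
  have : Fact p.Prime := ⟨hp⟩
  have p2 : p ≠ 2 := fun e => hn (e ▸ dvd_mul_right _ _)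
  obtain ⟨H, ⟨H0, H1⟩, hH⟩ := nx_all p p2 d
  refine ⟨Polynomial.X * (Polynomial.X ^ (2 * d + 1) -
    Polynomial.C ((-((2 * d + 1 : ℕ) : ZMod p)) ^ (2 * d + 1))) * H, ⟨mul_ne_zero (mul_ne_zero
      Polynomial.X_ne_zero (Polynomial.X_pow_sub_C_ne_zero (Nat.succ_pos _) _)) H0, ?_⟩,
    fun k _ _ _ lam h => ?_⟩
  · refine Polynomial.natDegree_mul_le.trans
      (le_trans ?_ (Nat.mul_le_mul_right p (cst_le (2 * d + 1))))
    rw [add_mul]
    refine Nat.add_le_add (Polynomial.natDegree_mul_le.trans ?_) H1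
    rw [Polynomial.natDegree_X, Polynomial.natDegree_X_pow_sub_C]
    nlinarith [hp.one_lt]
  have : CharP k p := charP_of_injective_algebraMap (algebraMap (ZMod p) k).injective p
  let a := algebraMap k (AlgebraicClosure k)
  have nz : ∀ n : ℕ, n ∣ 2 * (2 * d + 1) → (n : AlgebraicClosure k) ≠ 0 := fun n e h =>
    hn (((CharP.cast_eq_zero_iff _ p n).1 h).trans e)
  rw [map_mul, map_mul, Polynomial.aeval_X, map_sub, map_pow, Polynomial.aeval_X,
    Polynomial.aeval_C, map_pow, map_neg, map_natCast] at h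
  obtain ⟨⟨h1, h2⟩, h3⟩ := (mul_ne_zero_iff.1 h).imp_left mul_ne_zero_iff.1
  let G : GD (AlgebraicClosure k) := ⟨T, a lam, hd, nz 2 (dvd_mul_right _ _),
    nz _ (dvd_mul_left _ _), (map_ne_zero a).2 h1, fun e => h2 (sub_eq_zero.2 (a.injective (by
      rw [map_pow, map_pow, map_neg, map_natCast]
      exact e)))⟩
  have : GB := GB_thm
  have : NS2 p := NS2_thm
  have hx : Sl p (xs dd G.lam (Nat.card k)) ∧
      ∀ m, 0 < m → xs dd G.lam (Nat.card k) m ^ 2 ≤ (Nat.card k : ℚ) ^ m := by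
    have := Fintype.ofFinite k
    obtain ⟨n, -, e⟩ := FiniteField.card k p
    have e1 : a lam ^ p ^ (n : ℕ) = a lam := by rw [← map_pow, ← e, FiniteField.pow_card]
    rw [Nat.card_eq_fintype_card, e]
    refine ⟨hH _ (by simpa only [ringChar.eq k p] using (T0.fbar k).alg) n _ n.2 e1 ?_,
      xs_bd p2 d n.2 G.l0 e1⟩
    rw [Polynomial.aeval_algebraMap_apply]
    exact (map_ne_zero a).2 h3
  obtain ⟨_, _, _, _, _, _, _, _, _, _, _, _⟩ := geo (K := AlgebraicClosure k) (p := p)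
  have : XP := XP_thm
  have : XJ := XJ_thm
  have : XM := XM_thm
  have : XR := XR_thm
  have : XU := XU_thm
  have : XK k := XK_thm
  have : XT := XT_thm
  have : XZ := XZ_thm
  have : ZAy := ZAy_thm
  have : GP := GP_thm
  have : XC := XC_thm
  have : FW0 (AlgebraicClosure k) := FW0_thm
  have : XV (AlgebraicClosure k) p := XV_thm
  have : XW (AlgebraicClosure k) p := XW_thm
  have : ZS (AlgebraicClosure k) p := ZS_thm
  have : ALT (AlgebraicClosure k) := ALT_thm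
  have : ZRy (AlgebraicClosure k) p := ZRy_thm
  have : ZB := ZB_thm
  have : ZD := ZD_thm
  have : ZT := ZT_thm
  have : TW.P2.ZB2 := TW.P2.ZB2_thm
  have : NY p := NY_thm
  have hI := XJ.hom G.m lam
  have hs := XK.smooth G (lam := lam) rfl
  have hm := FNa.hd G lam
  exact ⟨⟨hI, hs, hm, fun i P => nonempty_res hI P.2.2.1 P.2.2.2.1,
    fun i n h P Q F => chi_eventually hI hs hm h P Q F⟩,
    fun L _ _ hL => zeta_all (G := G) rfl hx.1 hx.2 L hL⟩


end Eff

end Pool.Agent.Lib.MP_557161_ag.HG.MC
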