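import Pool.Agent.Lib.MP_557161_ag.MC.StF

/-!
The fan exists.
-/

namespace Pool.Agent.Lib.MP_557161_ag.HG.MC

open Matrix

namespace F7a

theorem uni [F3] {J κ : Type} [Fintype J] [DecidableEq J] {S : κ → J → ℤ} {j₀ : J} (n : ℕ) :
    ∀ P : PF S j₀, P.ms = n → ∃ P : PF S j₀, ∀ v, P.mu v = 1 := by
  induction n using Nat.strong_induction_on with
  | _ n ih =>
    intro P hP
    by_cases h : ∀ v, P.mu v = 1
    · exact ⟨P, h⟩
    · obtain ⟨v, hv⟩ := not_forall.1 h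
      have h0 : P.mu v ≠ 0 := Int.natAbs_ne_zero.2 (P.ind v)
      obtain ⟨P', h'⟩ := F3.step P v (by omega)
      exact ih _ (hP ▸ h') P' rfl

variable {D : ℕ} {R R' : Type}

/-- Transport of a fan along a bijection of the rays. -/
def tr (F : Fan D R) (E : R' ≃ R) : Fan D R' where
  V := F.V
  σ := F.σ
  ρ r := F.ρ (E r)
  c v i := E.symm (F.c v i)
  e := F.e
  dual v i j := by rw [E.apply_symm_apply, F.dual]
  m := F.m
  φ r := F.φ (E r)
  ge r := F.ge _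
  vx := F.vx
  eq v r := (F.eq v _).trans (exists_congr fun i => E.symm_apply_eq.symm)
  nb := F.nb
  nb_eq := F.nb_eq
  conv := F.conv
  ψ r := F.ψ (E r)
  le r := F.le _
  ad v := by simpa only [E.apply_symm_apply] using F.ad v
  v0 := F.v0
  z0 := by rw [E.apply_symm_apply, F.z0]

theorem off (F : Fan D R) : ∃ r, r ∉ Set.range (F.c F.v0) := by
  by_contra h
  have h0 : Function.Surjective (F.c F.v0) := fun r => not_not.1 (not_exists.1 h r)
  have h1 : ∀ v, Function.Surjective (F.c v) := fun v =>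
    (Finite.injective_iff_surjective_of_equiv (Equiv.ofBijective _ ⟨F.inj F.v0, h0⟩)).1 (F.inj v)
  obtain ⟨N, a, hN, ha, h2⟩ := F.conv (F.nb F.v0 none)
  have h3 : (N : ℤ) • ((fun l => (F.m (F.vx F.v0) l : ℤ)) + F.e F.v0 none) =
      ∑ v, (a v : ℤ) • fun l => (F.m (F.vx v) l : ℤ) := by
    funext l
    simp only [Finset.sum_apply, Pi.smul_apply, Pi.add_apply, ← F.nb_eq, smul_eq_mul]
    exact_mod_cast h2 l
  have h4 := congrArg (F.ρ (F.c F.v0 none) ⬝ᵥ ·) h3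
  simp only [dotProduct_smul, dotProduct_add, dotProduct_sum, F.dual, if_true,
    (F.eq _ _).2 (h1 _ _), smul_eq_mul, ← Finset.sum_mul, ← Nat.cast_sum, ha] at h4
  have h5 : (0 : ℤ) < N := Nat.cast_pos.2 hN
  linarith

theorem gen (F : Fan D R) : AddSubgroup.closure
    (Set.range fun s : F.σ × F.σ => fun l => (F.m s.1 l : ℤ) - F.m s.2 l) = ⊤ := by
  refine eq_top_iff.2 fun x _ => ?_
  have h : x = ∑ i, (F.ρ (F.c F.v0 i) ⬝ᵥ x) • F.e F.v0 i := by
    funext l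
    have := F.expand F.v0 (Pi.single l 1) x
    simp only [single_dotProduct, one_mul] at this
    rw [← this, Finset.sum_apply]
    exact Finset.sum_congr rfl fun i _ => mul_comm _ _
  rw [h]
  refine AddSubgroup.sum_mem _ fun i _ => AddSubgroup.zsmul_mem _ (AddSubgroup.subset_closure
    (Set.mem_range.2 ⟨(F.nb F.v0 i, F.vx F.v0), funext fun l => ?_⟩)) _
  exact sub_eq_iff_eq_add'.2 (F.nb_eq _ _ _)

end F7a

theorem F7_thm [F1] [F3] [F5] [F6] : F7 := by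
  classical
  refine ⟨fun d => ?_, F7a.gen⟩
  obtain ⟨P₀⟩ := F1.ex (2 * d)
  obtain ⟨P, hP⟩ := F7a.uni _ P₀ rfl
  obtain ⟨F⟩ := F5.ex P hP
  obtain ⟨r, hr⟩ := F7a.off F
  have : Nonempty {r // r ∉ Set.range (F.c F.v0)} := ⟨⟨r, hr⟩⟩
  obtain ⟨t, ht⟩ := Nat.exists_eq_succ_of_ne_zero
    (Fintype.card_ne_zero (α := {r // r ∉ Set.range (F.c F.v0)}))
  let E : Fin (t + 1) ⊕ Jd (2 * d) ≃ P.R :=
    ((Equiv.sumCongr (Fintype.equivFinOfCardEq ht).symm (Equiv.ofInjective _ (F.inj F.v0))).trans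
      (Equiv.sumComm _ _)).trans (Equiv.sumCompl (· ∈ Set.range (F.c F.v0)))
  have hE : (F7a.tr F E).c (F7a.tr F E).v0 = Sum.inr := funext fun j => E.symm_apply_eq.2 rfl
  let _ : Rk := ⟨t, d⟩
  exact ⟨t, ⟨⟨F7a.tr F E, hE, F6.cm _, F6.det _ hE, F6.cvx _ hE⟩⟩⟩

end Pool.Agent.Lib.MP_557161_ag.HG.MC
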