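import Pool.Agent.Lib.MP_557161_ag.MC.StW

/-!
The intersection with the zero section of the kernel of two rows.
-/

namespace Pool.Agent.Lib.MP_557161_ag.HG.MC

open Pool.Agent.Lib.MP_557161_ag.DL

namespace KEa

section Alg

variable {Λ : Type} [Fintype Λ] {L : Type} [Field L]

open Classical in
/-- The vector of the kernel attached to a triple. -/
noncomputable def wv (n : Fin 2 → Λ → L) (p : Λ × Λ × Λ) (ν : Λ) : L :=
  (if p.2.2 = ν then mnr n p.1 p.2.1 else 0) + (if p.1 = ν then mnr n p.2.1 p.2.2 else 0) +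
    (if p.2.1 = ν then mnr n p.2.2 p.1 else 0)

lemma wv_dot (n : Fin 2 → Λ → L) (p : Λ × Λ × Λ) (r : Fin 2) : ∑ ν, n r ν * wv n p ν = 0 := by
  classical
  simp only [wv, mul_add, mul_ite, mul_zero, Finset.sum_add_distrib, Finset.sum_ite_eq,
    Finset.mem_univ, if_true, mnr]
  revert r
  rw [Fin.forall_fin_two]
  constructor <;> ring

/-- The map of the Koszul complex. -/
noncomputable def ko (n : Fin 2 → Λ → L) (c : Λ × Λ × Λ → L) (ν : Λ) : L := ∑ p, c p * wv n p ν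

lemma ko_dot (n : Fin 2 → Λ → L) (c : Λ × Λ × Λ → L) (r : Fin 2) :
    ∑ ν, n r ν * ko n c ν = 0 := by
  simp only [ko, Finset.mul_sum]
  rw [Finset.sum_comm]
  refine Finset.sum_eq_zero fun p _ => ?_
  simp only [mul_left_comm _ (c p), ← Finset.mul_sum, wv_dot, mul_zero]

/-- The charts. -/
abbrev Ix (Λ : Type) : Type := {q : Λ × Λ // q.1 ≠ q.2}

/-- The triples that are not free. -/
def Nf (m : Ix Λ) (p : Λ × Λ × Λ) : Prop :=
  p.1 = m.1.1 ∧ p.2.1 = m.1.2 ∧ ¬ (p.2.2 = m.1.1 ∨ p.2.2 = m.1.2)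

/-- The free coordinates. -/
abbrev Fr (m : Ix Λ) : Type := {p : Λ × Λ × Λ // ¬ Nf m p}

open Classical in
/-- Extension by zero. -/
noncomputable def ex0 {m : Ix Λ} (t : Fr m → L) (p : Λ × Λ × Λ) : L :=
  if h : Nf m p then 0 else t ⟨p, h⟩

open Classical in
/-- The solution with given free coordinates. -/
noncomputable def sol {m : Ix Λ} (n : Fin 2 → Λ → L) (v : Λ → L) (t : Fr m → L)
    (p : Λ × Λ × Λ) : L :=
  if Nf m p then (v p.2.2 - ko n (ex0 t) p.2.2) / mnr n m.1.1 m.1.2 else ex0 t p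

lemma sol_co {m : Ix Λ} (n : Fin 2 → Λ → L) (v : Λ → L) (t : Fr m → L) (k : Fr m) :
    sol n v t k = t k := by
  rw [sol, if_neg k.2, ex0, dif_neg k.2]

lemma ko_eq {m : Ix Λ} {ν : Λ} (h : ¬ (ν = m.1.1 ∨ ν = m.1.2)) (n : Fin 2 → Λ → L)
    (c : Λ × Λ × Λ → L) :
    ko n c ν = ko n (ex0 fun k : Fr m => c k) ν + mnr n m.1.1 m.1.2 * c (m.1.1, m.1.2, ν) := by
  obtain ⟨h1, h2⟩ := not_or.1 h
  rw [← sub_eq_iff_eq_add', ko, ko, ← Finset.sum_sub_distrib,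
    Finset.sum_eq_single (m.1.1, m.1.2, ν) _ (by simp)]
  · rw [ex0, dif_pos ⟨rfl, rfl, h⟩, wv, if_pos rfl, if_neg (Ne.symm h1), if_neg (Ne.symm h2)]
    ring
  · rintro ⟨a, b, d⟩ - hp
    by_cases e : Nf m (a, b, d)
    · obtain ⟨rfl, rfl, -⟩ : a = m.1.1 ∧ b = m.1.2 ∧ _ := e
      rw [wv, if_neg fun e' : d = ν => hp (by rw [e']), if_neg (Ne.symm h1), if_neg (Ne.symm h2)]
      ring
    · rw [ex0, dif_neg e, sub_self]

lemma ker_uq {m : Ix Λ} {n : Fin 2 → Λ → L} (h : mnr n m.1.1 m.1.2 ≠ 0) {v v' : Λ → L}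
    (h0 : ∀ r, ∑ ν, n r ν * v ν = 0) (h0' : ∀ r, ∑ ν, n r ν * v' ν = 0)
    (k : ∀ ν, ¬ (ν = m.1.1 ∨ ν = m.1.2) → v ν = v' ν) : v = v' := by
  have e : ∀ r, n r m.1.1 * (v m.1.1 - v' m.1.1) + n r m.1.2 * (v m.1.2 - v' m.1.2) = 0 :=
    fun r => by
      rw [← Finset.sum_eq_add_of_mem (f := fun ν => n r ν * (v ν - v' ν)) _ _ (Finset.mem_univ _)
        (Finset.mem_univ _) m.2 fun ν _ hν => by rw [k ν (not_or.2 hν), sub_self, mul_zero]]
      simp only [mul_sub, Finset.sum_sub_distrib, h0, h0', sub_self]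
  funext ν
  by_cases hν : ν = m.1.1 ∨ ν = m.1.2
  · refine sub_eq_zero.1 (mul_left_cancel₀ h ?_)
    rcases hν with rfl | rfl
    · rw [mnr]
      linear_combination n 1 m.1.2 * e 0 - n 0 m.1.2 * e 1
    · rw [mnr]
      linear_combination n 0 m.1.1 * e 1 - n 1 m.1.1 * e 0
  · exact k ν hν

lemma ko_sol {m : Ix Λ} {n : Fin 2 → Λ → L} {v : Λ → L} (h : mnr n m.1.1 m.1.2 ≠ 0)
    (h0 : ∀ r, ∑ ν, n r ν * v ν = 0) (t : Fr m → L) : v = ko n (sol n v t) :=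
  ker_uq h h0 (ko_dot n _) fun ν hν => by
    rw [ko_eq hν, funext (sol_co n v t), sol, if_pos ⟨rfl, rfl, hν⟩, mul_div_cancel₀ _ h,
      add_sub_cancel]

lemma sol_ko {m : Ix Λ} {n : Fin 2 → Λ → L} (h : mnr n m.1.1 m.1.2 ≠ 0) (c : Λ × Λ × Λ → L) :
    c = sol n (ko n c) fun k : Fr m => c k := by
  funext p
  by_cases hp : Nf m p
  · obtain ⟨a, b, ν⟩ := p
    obtain ⟨rfl, rfl, hν⟩ : a = m.1.1 ∧ b = m.1.2 ∧ _ := id hp
    rw [sol, if_pos hp, ko_eq hν n c, add_sub_cancel_left, mul_div_cancel_left₀ _ h]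
  · exact (sol_co n _ (fun k : Fr m => c k) ⟨p, hp⟩).symm

lemma card_fr {r : ℕ} (h : Fintype.card Λ = r + 2) (m : Ix Λ) :
    Nat.card (Fr m) = Fintype.card (Λ × Λ × Λ) - r := by
  classical
  have e2 : Fintype.card {p : Λ × Λ × Λ // Nf m p} =
      Fintype.card {ν // ¬ (ν = m.1.1 ∨ ν = m.1.2)} :=
    Fintype.card_congr ⟨fun p => ⟨p.1.2.2, p.2.2.2⟩, fun ν => ⟨(m.1.1, m.1.2, ν), rfl, rfl, ν.2⟩,
      fun p => Subtype.ext (Prod.ext p.2.1.symm (Prod.ext p.2.2.1.symm rfl)), fun _ => rfl⟩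
  rw [Nat.card_eq_fintype_card, Fintype.card_subtype_compl, e2, Fintype.card_subtype_compl,
    Fintype.card_subtype_eq_or_eq_of_ne m.2, h, Nat.add_sub_cancel]

lemma card_tr {r : ℕ} (h : Fintype.card Λ = r + 2) :
    Fintype.card (Λ × Λ × Λ) = r + (Fintype.card (Λ × Λ × Λ) - r) := by
  rw [Nat.add_sub_cancel']
  simp only [Fintype.card_prod, h]
  nlinarith [Nat.zero_le r, Nat.zero_le (r * r), Nat.zero_le (r * r * r)]

end Alg

variable [Rk] {K : Type} [Field K] {c : Cd} {Γ : Wt c} {Λ : Type} [Fintype Λ] {ω : Λ → Tr → ℤ}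
  {S : QS K Γ} {γ : Fin 2 → Tr → ℤ} (k : K2 S Λ ω γ)

omit [Rk] [Fintype Λ] in
lemma rel_mn {M L : Fld K} {R : Rel M L} {n : Fin 2 → Λ → M} {n' : Fin 2 → Λ → L}
    (h : ∀ r μ, R.r (n r μ) (n' r μ)) (μ ν : Λ) : R.r (mnr n μ ν) (mnr n' μ ν) :=
  Rel.sub (R.mul (h _ _) (h _ _)) (R.mul (h _ _) (h _ _))

omit [Rk] in
lemma rel_ko {M L : Fld K} {R : Rel M L} {n : Fin 2 → Λ → M} {n' : Fin 2 → Λ → L}
    {t : Λ × Λ × Λ → M} {t' : Λ × Λ × Λ → L} (h : ∀ r μ, R.r (n r μ) (n' r μ))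
    (e : ∀ p, R.r (t p) (t' p)) (ν : Λ) : R.r (ko n t ν) (ko n' t' ν) := by
  classical
  exact Rel.sum _ fun p _ => R.mul (e p) (R.add (R.add (Rel.ite _ (rel_mn h _ _) R.zero)
    (Rel.ite _ (rel_mn h _ _) R.zero)) (Rel.ite _ (rel_mn h _ _) R.zero))

omit [Rk] [Fintype Λ] in
lemma mem_mn {L : Fld K} {F : IntermediateField K L} {n : Fin 2 → Λ → L} (h : ∀ r μ, n r μ ∈ F)
    (μ ν : Λ) : mnr n μ ν ∈ F := sub_mem (mul_mem (h _ _) (h _ _)) (mul_mem (h _ _) (h _ _))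

omit [Rk] in
lemma mem_ko {L : Fld K} {F : IntermediateField K L} {n : Fin 2 → Λ → L} {t : Λ × Λ × Λ → L}
    (h : ∀ r μ, n r μ ∈ F) (e : ∀ p, t p ∈ F) (ν : Λ) : ko n t ν ∈ F := by
  refine sum_mem fun p _ => mul_mem (e p) (add_mem (add_mem ?_ ?_) ?_) <;> split_ifs <;>
    first | exact mem_mn h _ _ | exact zero_mem F

lemma mn_scl {L : Fld K} {a : Tr → L} (h0 : Un a) {b : c.X L} (m : S.mem L b) (μ ν : Λ) :
    mnr (k.n L (Γ.scl a b)) μ ν =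
      wt a (γ 0) * wt a (γ 1) / (wt a (ω μ) * wt a (ω ν)) * mnr (k.n L b) μ ν := by
  have := wt_ne h0 (ω μ)
  have := wt_ne h0 (ω ν)
  simp only [mnr, fun r μ => (k.hom r μ).hom L a b h0 m, wt_sub h0]
  field_simp

/-- The weights of the Koszul coordinates. -/
def wk (ω : Λ → Tr → ℤ) (γ : Fin 2 → Tr → ℤ) (p : Λ × Λ × Λ) : Tr → ℤ :=
  ω p.1 + ω p.2.1 + ω p.2.2 - (γ 0 + γ 1)

lemma wv_scl {L : Fld K} {a : Tr → L} (h0 : Un a) {b : c.X L} (m : S.mem L b) (p : Λ × Λ × Λ)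
    (ν : Λ) : wt a (wk ω γ p) * wv (k.n L (Γ.scl a b)) p ν = wt a (ω ν) * wv (k.n L b) p ν := by
  have := wt_ne h0 (ω p.1)
  have := wt_ne h0 (ω p.2.1)
  have := wt_ne h0 (ω p.2.2)
  have := wt_ne h0 (γ 0)
  have := wt_ne h0 (γ 1)
  simp only [wv, mul_add, mul_ite, mul_zero, mn_scl k h0 m, wk, wt_sub h0, wt_add h0]
  refine congrArg₂ _ (congrArg₂ _ ?_ ?_) ?_ <;>
  · split_ifs with e
    · rw [← e]
      field_simp
    · rfl

/-- The graph of the Koszul map. -/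
def gr : QS K ((Γ.prod (.vec ω)).prod (.vec (wk ω γ))) :=
  (k.tot.pu (.vec (wk ω γ))).sub ((k.tot.pu (.vec (wk ω γ))).S.cl
    (fun L x => x.1.2 = ko (k.n L x.1.1) x.2) fun _ _ R _ _ m m' e h => funext fun ν =>
      Rel.eq (e.1.2 ν) (rel_ko (fun r μ => (k.hom r μ).reg R m.1.1.1 m'.1.1.1 e.1.1) e.2 ν)
        (congrFun h ν)) (fun _ _ m => m.1) fun L a x h0 m => by
    refine ⟨(k.tot.pu _).inv L a x h0 m.1, funext fun ν => ?_⟩
    show wt a (ω ν) * x.1.2 ν = ∑ p, wt a (wk ω γ p) * x.2 p * wv (k.n L (Γ.scl a x.1.1)) p ν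
    rw [m.2, ko, Finset.mul_sum]
    refine Finset.sum_congr rfl fun p _ => ?_
    rw [mul_right_comm, wv_scl k h0 m.1.1.1.1]
    ring

/-- The graph is an affine bundle over the kernel. -/
noncomputable def ab {r : ℕ} (h : Fintype.card Λ = r + 2) :
    AB k.tot (gr k) (Fintype.card (Λ × Λ × Λ) - r) where
  sub _ _ m := m.1.1
  ι := Ix Λ
  U m := k.tot.sub (k.tot.S.opn (fun L x => mnr (k.n L x.1) m.1.1 m.1.2 ≠ 0)
    fun _ _ R _ _ p p' e => Rel.ne_zero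
      (rel_mn (fun r μ => (k.hom r μ).reg R p.1.1 p'.1.1 e.1) _ _)) (fun _ _ p => p.1)
    fun L a x h0 p => ⟨k.tot.inv L a x h0 p.1, (mn_scl k h0 p.1.1.1 _ _).trans_ne
      (mul_ne_zero (div_ne_zero (mul_ne_zero (wt_ne h0 _) (wt_ne h0 _))
        (mul_ne_zero (wt_ne h0 _) (wt_ne h0 _))) p.2)⟩
  usub _ _ _ p := p.1
  opn m _ _ R _ _ p p' e := ⟨p, Rel.ne_zero
    (rel_mn (fun r μ => (k.hom r μ).reg R p.1.1 p'.1.1.1 e.1) _ _) p'.2⟩
  cov L b p := by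
    obtain ⟨μ, ν, t⟩ := k.uni L b.1 p.1.1
    refine ⟨⟨(μ, ν), fun e => t ?_⟩, p, t⟩
    rw [show μ = ν from e, mnr, sub_self]
  κ := Fr
  card := card_fr h
  e _ := Subtype.val
  τ _ L b t := sol (k.n L b.1) b.2 t
  reg m _ _ R x x' p p' e q := by
    classical
    have e1 := fun r μ => (k.hom r μ).reg R p.1.1.1.1 p'.1.1.1.1 e.1.1
    have e2 : ∀ q, R.r (ex0 x.2 q) (ex0 x'.2 q) := fun q => by
      unfold ex0
      split_ifs
      exacts [R.zero, e.2 _]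
    exact Rel.ite _ (Rel.div (Rel.sub (e.1.2 _) (rel_ko e1 e2 _)) (rel_mn e1 _ _) p'.1.2) (e2 q)
  mem _ _ _ t p := ⟨⟨p.1, trivial⟩, ko_sol p.2 p.1.2 t⟩
  co _ _ _ _ _ _ := sol_co _ _ _ _
  uq _ L b t p q := (sol_ko p.2 t).trans (by rw [← show b.2 = _ from q.2])

lemma eqm : EqM (gr k) (S.pu (.vec (wk ω γ))) fun _ x => (x.1.1, x.2) :=
  ⟨⟨fun _ _ _ _ _ _ _ e => ⟨e.1.1, e.2⟩, fun _ _ m => ⟨m.1.1.1.1, trivial⟩⟩, fun _ _ _ _ _ => rfl⟩

lemma pro : Pro (gr k).S (S.pu (.vec (wk ω γ))).S fun _ x => (x.1.1, x.2) :=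
  fun _ O x z _ m m' e => ⟨((z.1, ko (k.n _ z.1) z.2), z.2),
    ⟨⟨⟨⟨m'.1, trivial⟩, ko_dot _ _⟩, trivial⟩, rfl⟩, ⟨e.1, fun ν => by
      rw [show x.1.2 = _ from m.2]
      exact rel_ko (fun r μ => (k.hom r μ).reg _ m.1.1.1.1 m'.1 e.1) e.2 ν⟩, e.2⟩

end KEa

open KEa

variable [Rk] {K : Type} [Field K]

theorem KE_thm [WB K] [AD K] [DN K] [SE K] : KE K where
  ex {c Γ Λ _ ω S γ} k r h j φ := by
    obtain ⟨θ₀, h1, h2⟩ : ∃ θ : QF (j + r + (Fintype.card (Λ × Λ × Λ) - r))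
        (S.pu (.vec (wk ω γ))),
        IsUp (S.pu (.vec (wk ω γ))) (r + (Fintype.card (Λ × Λ × Λ) - r)) j φ.mq θ.mq ∧
          ∀ q : c.ι → Prop, Γ.Ad q → KlP c q j φ.mq →
            KlP (c.prod (.vec (Λ × Λ × Λ))) (Sum.elim q fun _ => True)
            (j + r + (Fintype.card (Λ × Λ × Λ) - r)) θ.mq := by
      rw [add_assoc j r]
      exact SE.ex _ (card_tr h) φ
    obtain ⟨θ₁, h3⟩ := WB.pull (eqm k) (pro k) θ₀
    obtain ⟨θ, h4, h5⟩ := DN.down (ab k h) θ₁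
    refine ⟨θ, fun L M α b p g => ?_, fun q hq hn hφ => h5 _ ?_ ?_⟩
    · obtain ⟨M', α', p', g'⟩ := AD.ex (ab k h) g.gM g.mem
      have hb := (S.S.map_iff α b).1 g.mem.1.1
      have e : c.map α' (c.map α b) = c.map (α'.comp α) b := c.map_map _ _ _
      rw [← h4 _ _ _ _ _ g', h3 _ _ g'.mem]
      refine (congrArg (fun x => θ₀.mq M' (x, p')) e).trans (h1 _ _ _ _ _
        ⟨g.gL, add_assoc j r _ ▸ g'.gM, ?_, (S.S.map_iff _ b).2 hb, trivial⟩)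
      have s1 : ∀ x, α' (α x) ∈ gen (α'.comp α) p' := fun x =>
        IntermediateField.subset_adjoin _ _ (.inl ⟨x, rfl⟩)
      have s2 : ∀ x, p' x ∈ gen (α'.comp α) p' := fun x =>
        IntermediateField.subset_adjoin _ _ (.inr ⟨x, rfl⟩)
      refine top_le_iff.1 (g'.top.ge.trans (IntermediateField.adjoin_le_iff.2 ?_))
      rintro _ (⟨x, rfl⟩ | ⟨x, rfl⟩)
      · refine (show gen α p ≤ (gen (α'.comp α) p').comap α' from
          IntermediateField.adjoin_le_iff.2 ?_) (g.top.ge trivial)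
        rintro _ (⟨x, rfl⟩ | ⟨ν, rfl⟩)
        · exact s1 x
        · have e1 : α' (p ν) = ko (k.n M' (c.map α' (c.map α b))) p' ν := congrFun g'.mem.2 ν
          show α' (p ν) ∈ gen (α'.comp α) p'
          rw [e1, e]
          refine mem_ko (fun i μ => ?_) s2 ν
          rw [(k.hom i μ).reg.nat _ hb]
          exact s1 _
      · exact s2 x
    · intro m L F b t p e1 e2 u
      have e3 := fun i μ => hn i μ L F b.1 p.1.1.1 fun i hi => e1 (.inl i) hi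
      have e4 : ∀ u, ex0 t u ∈ F := fun u => by
        unfold ex0
        split_ifs
        exacts [zero_mem F, e2 _]
      show sol _ _ t u ∈ F
      unfold sol
      split_ifs
      exacts [div_mem (sub_mem (e1 (.inr _) trivial) (mem_ko e3 e4 _)) (mem_mn e3 _ _), e4 u]
    · intro L L₁ L₂ ι₁ ι₂ w e1 e2 e3
      by_contra n
      refine n ((h3 _ _ (WB.mem _ n).2).trans (h2 q hq hφ L L₁ L₂ ι₁ ι₂ _ ?_ ?_ e3))
      · rintro (i | i) hi
        exacts [e1 (.inl (.inl i)) hi, e1 (.inr i) trivial]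
      · rintro (i | i) hi
        exacts [e2 (.inl (.inl i)) hi, (hi trivial).elim]

end Pool.Agent.Lib.MP_557161_ag.HG.MC
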