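import Pool.Agent.Lib.MP_557161_ag.HG.St1

/-!
Quotients of affine spaces by a weighted action of a torus.
-/

namespace Pool.Agent.Lib.MP_557161_ag.HG.MC

open Pool.Agent.Lib.MP_557161_ag.DL

/-- The rank of the torus minus one, and half the dimension. -/
class Rk where
  t : ℕ
  d : ℕ

variable [Rk]

/-- The indices of the coordinates of the torus. -/
abbrev Tr : Type := Fin (Rk.t + 1)

section Torus

variable {L L' : Type} [Field L] [Field L'] {a b : Tr → L} {k k' : Tr → ℤ}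

/-- Points of the torus. -/
def Un (a : Tr → L) : Prop := ∀ s, a s ≠ 0

/-- The character of weight `k`. -/
def wt (a : Tr → L) (k : Tr → ℤ) : L := ∏ s, a s ^ k s

lemma Un.one : Un (1 : Tr → L) := fun _ => one_ne_zero
lemma Un.mul (h : Un a) (h' : Un b) : Un (a * b) := fun s => mul_ne_zero (h s) (h' s)
lemma Un.inv (h : Un a) : Un a⁻¹ := fun s => inv_ne_zero (h s)
lemma Un.pow (h : Un a) (n : ℕ) : Un (a ^ n) := fun s => pow_ne_zero n (h s)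
lemma Un.inv_mul (h : Un a) : a⁻¹ * a = 1 := funext fun s => inv_mul_cancel₀ (h s)
lemma Un.mul_inv (h : Un a) : a * a⁻¹ = 1 := funext fun s => mul_inv_cancel₀ (h s)
lemma Un.map (f : L →+* L') : (Un fun s => f (a s)) ↔ Un a :=
  forall_congr' fun _ => map_ne_zero f

lemma wt_ne (h : Un a) (k : Tr → ℤ) : wt a k ≠ 0 :=
  Finset.prod_ne_zero_iff.2 fun s _ => zpow_ne_zero _ (h s)
@[simp] lemma wt_zero (a : Tr → L) : wt a 0 = 1 := by simp [wt]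
@[simp] lemma one_wt (k : Tr → ℤ) : wt (1 : Tr → L) k = 1 := by simp [wt]
lemma mul_wt (a b : Tr → L) (k : Tr → ℤ) : wt (a * b) k = wt a k * wt b k := by
  simp only [wt, Pi.mul_apply, mul_zpow, Finset.prod_mul_distrib]
lemma inv_wt (a : Tr → L) (k : Tr → ℤ) : wt a⁻¹ k = (wt a k)⁻¹ := by
  simp only [wt, Pi.inv_apply, inv_zpow, Finset.prod_inv_distrib]
lemma pow_wt (a : Tr → L) (n : ℕ) (k : Tr → ℤ) : wt (a ^ n) k = wt a k ^ n := by
  rw [wt, wt, ← Finset.prod_pow]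
  exact Finset.prod_congr rfl fun s _ => by
    rw [Pi.pow_apply, ← zpow_natCast, ← zpow_natCast, ← zpow_mul, ← zpow_mul, mul_comm]
lemma wt_add (h : Un a) (k k' : Tr → ℤ) : wt a (k + k') = wt a k * wt a k' := by
  simp only [wt, Pi.add_apply, zpow_add₀ (h _), Finset.prod_mul_distrib]
lemma wt_neg (a : Tr → L) (k : Tr → ℤ) : wt a (-k) = (wt a k)⁻¹ := by
  simp only [wt, Pi.neg_apply, zpow_neg, Finset.prod_inv_distrib]
lemma wt_sub (h : Un a) (k k' : Tr → ℤ) : wt a (k - k') = wt a k / wt a k' := by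
  rw [sub_eq_add_neg, wt_add h, wt_neg, div_eq_mul_inv]
lemma map_wt (f : L →+* L') (a : Tr → L) (k : Tr → ℤ) : f (wt a k) = wt (fun s => f (a s)) k := by
  simp only [wt, map_prod, map_zpow₀]

omit [Rk] in
lemma prod_zpow_sum {ι : Type} {y : L} (hy : y ≠ 0) (S : Finset ι) (f : ι → ℤ) :
    ∏ t ∈ S, y ^ f t = y ^ ∑ t ∈ S, f t := by
  classical
  induction S using Finset.induction_on with
  | empty => simp
  | insert i S hi ih => rw [Finset.prod_insert hi, Finset.sum_insert hi, ih, zpow_add₀ hy]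

lemma wt_wt (h : Un a) (A : Tr → Tr → ℤ) (k : Tr → ℤ) :
    wt (fun r => wt a (A r)) k = wt a fun s => ∑ r, k r * A r s := by
  simp only [wt, ← Finset.prod_zpow, ← zpow_mul]
  rw [Finset.prod_comm]
  exact Finset.prod_congr rfl fun s _ => by
    rw [prod_zpow_sum (h s)]
    exact congrArg _ (Finset.sum_congr rfl fun r _ => mul_comm _ _)

lemma wt_single (a : Tr → L) (s : Tr) (n : ℤ) : wt a (Pi.single s n) = a s ^ n := by
  rw [wt, Finset.prod_eq_single s (fun r _ e => by rw [Pi.single_eq_of_ne e, zpow_zero]) (by simp),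
    Pi.single_eq_same]

lemma wt_nsmul (a : Tr → L) (n : ℕ) (k : Tr → ℤ) : wt a (n • k) = wt a k ^ n := by
  rw [← pow_wt]
  simp only [wt, Pi.smul_apply, Pi.pow_apply, nsmul_eq_mul, zpow_mul, zpow_natCast]

lemma wt_sum (h : Un a) {ι : Type} (S : Finset ι) (k : ι → Tr → ℤ) :
    wt a (∑ i ∈ S, k i) = ∏ i ∈ S, wt a (k i) := by
  classical
  induction S using Finset.induction_on with
  | empty => simp
  | insert i S hi ih => rw [Finset.prod_insert hi, Finset.sum_insert hi, wt_add h, ih]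

variable {K : Type} [Field K] {M N : Fld K}

lemma wt_rel {R : Rel M N} {a : Tr → M} {a' : Tr → N} (h : ∀ s, R.r (a s) (a' s)) (h0 : Un a')
    (k : Tr → ℤ) : R.r (wt a k) (wt a' k) := Rel.prod _ fun s _ => Rel.zpow (h s) (h0 s) _

lemma Un.of_rel {R : Rel M N} {a : Tr → M} {a' : Tr → N} (h : ∀ s, R.r (a s) (a' s))
    (h0 : Un a') : Un a := fun s => Rel.ne_zero (h s) (h0 s)

lemma wt_mem {F : IntermediateField K M} {a : Tr → M} (h : ∀ s, a s ∈ F) (k : Tr → ℤ) :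
    wt a k ∈ F := prod_mem fun s _ => zpow_mem (h s) _

end Torus

/-- The convexity data of a family of charts. -/
def Cvx {ι : Type} (ω : ι → Tr → ℤ) (A : (Tr → ι) → Prop) (H : ι → Prop) : Prop :=
  ∃ (κ : Tr → ℤ) (n : (Tr → ι) → Tr → ℕ),
    (∀ u, A u → (∀ r, 0 < n u r) ∧ ∑ r, n u r • ω (u r) = κ) ∧
    ∀ u i, A u → H i → ∃ (N : ℕ) (l : List (Tr → ι)), 0 < N ∧ (∀ u' ∈ l, A u') ∧
      ∀ (L : Type) [Field L] (x : ι → L), (∀ r, x (u r) = 1) →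
        x i ^ N = (l.map fun u' => ∏ r, x (u' r) ^ n u' r).prod

/-- Weights of the coordinates; `A` is the set of charts and `H` the set of homogeneous
coordinates. -/
structure Wt (c : Cd) where
  ω : c.ι → Tr → ℤ
  A : (Tr → c.ι) → Prop
  H : c.ι → Prop
  hom : ∀ u, A u → ∀ s, H (u s)
  det : ∀ u, A u → IsUnit (Matrix.of fun r s => ω (u r) s).det
  cvx : Cvx ω A H
  scl : ∀ {L : Type} [Field L], (Tr → L) → c.X L → c.X L
  co_scl : ∀ {L : Type} [Field L] (a : Tr → L) (x : c.X L) (i : c.ι),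
    c.co (scl a x) i = wt a (ω i) * c.co x i

namespace Wt

lemma cvx0 {ι : Type} (ω : ι → Tr → ℤ) : Cvx ω (fun _ => False) fun _ => False :=
  ⟨0, fun _ _ => 0, fun _ h => h.elim, fun _ _ h => h.elim⟩

/-- Homogeneous coordinates of weights `ω`. -/
abbrev tor {κ : Type} [Finite κ] (ω : κ → Tr → ℤ) (A : (Tr → κ) → Prop) (H : κ → Prop)
    (h1 : ∀ u, A u → ∀ s, H (u s)) (h2 : ∀ u, A u → IsUnit (Matrix.of fun r s => ω (u r) s).det)
    (h3 : Cvx ω A H) : Wt (.vec κ) where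
  ω := ω
  A := A
  H := H
  hom := h1
  det := h2
  cvx := h3
  scl a x i := wt a (ω i) * x i
  co_scl _ _ _ := rfl

/-- Coordinates of weights `ω`. -/
abbrev vec {κ : Type} [Finite κ] (ω : κ → Tr → ℤ) : Wt (.vec κ) where
  ω := ω
  A _ := False
  H _ := False
  hom _ h := h.elim
  det _ h := h.elim
  cvx := cvx0 _
  scl a x i := wt a (ω i) * x i
  co_scl _ _ _ := rfl

/-- Coordinates of weight zero. -/
abbrev triv (c : Cd) : Wt c where
  ω _ := 0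
  A _ := False
  H _ := False
  hom _ h := h.elim
  det _ h := h.elim
  cvx := cvx0 _
  scl _ x := x
  co_scl _ _ _ := by rw [wt_zero, one_mul]

lemma cvx_prod {ι ι' : Type} {ω : ι → Tr → ℤ} {A : (Tr → ι) → Prop} {H : ι → Prop}
    (h : Cvx ω A H) (ω' : ι' → Tr → ℤ) : Cvx (Sum.elim ω ω')
      (fun u => ∃ u₀, A u₀ ∧ u = fun s => Sum.inl (u₀ s)) (Sum.elim H fun _ => False) := by
  classical
  obtain ⟨κ, n, h1, h2⟩ := h
  let n' : (Tr → ι ⊕ ι') → Tr → ℕ := fun u =>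
    if e : ∃ u₀ : Tr → ι, u = fun s => Sum.inl (u₀ s) then n e.choose else 0
  have e : ∀ u₀ : Tr → ι, n' (fun s => Sum.inl (u₀ s)) = n u₀ := fun u₀ => by
    have e1 : ∃ u₁ : Tr → ι, (fun s => (Sum.inl (u₀ s) : ι ⊕ ι')) = fun s => Sum.inl (u₁ s) :=
      ⟨u₀, rfl⟩
    exact (dif_pos e1).trans (congrArg n (funext fun s =>
      (Sum.inl_injective (congrFun e1.choose_spec s)).symm))
  refine ⟨κ, n', ?_, ?_⟩
  · rintro _ ⟨u₀, hu, rfl⟩
    rw [e]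
    exact h1 u₀ hu
  · rintro _ (i | i) ⟨u₀, hu, rfl⟩ hi
    · obtain ⟨N, l, k1, k2, k3⟩ := h2 u₀ i hu hi
      refine ⟨N, l.map fun u s => Sum.inl (u s), k1, fun u' hu' => ?_, fun L _ x hx => ?_⟩
      · obtain ⟨u, k4, rfl⟩ := List.mem_map.1 hu'
        exact ⟨u, k2 u k4, rfl⟩
      · rw [List.map_map, k3 L (fun i => x (.inl i)) hx]
        simp only [Function.comp_def, e]
    · exact hi.elim

/-- The product; the charts are those of the first factor. -/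
abbrev prod {c d : Cd} (Γ : Wt c) (Δ : Wt d) : Wt (c.prod d) where
  ω := Sum.elim Γ.ω Δ.ω
  A u := ∃ u₀, Γ.A u₀ ∧ u = fun s => Sum.inl (u₀ s)
  H := Sum.elim Γ.H fun _ => False
  hom := by
    rintro _ ⟨u₀, h, rfl⟩
    exact Γ.hom u₀ h
  det := by
    rintro _ ⟨u₀, h, rfl⟩
    exact Γ.det u₀ h
  cvx := cvx_prod Γ.cvx _
  scl a x := (Γ.scl a x.1, Δ.scl a x.2)
  co_scl a x i := by
    cases i
    exacts [Γ.co_scl _ _ _, Δ.co_scl _ _ _]

variable {c : Cd} (Γ : Wt c)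

section
variable {L L' : Type} [Field L] [Field L']

/-- The point lies in the chart `u`. -/
def Ch (u : Tr → c.ι) (x : c.X L) : Prop := ∀ s, Γ.A u ∧ c.co x (u s) ≠ 0

/-- The point lies in a chart. -/
def nz (x : c.X L) : Prop := ∃ u, Γ.Ch u x

/-- The inverse of the matrix of the weights of a chart. -/
def iv (u : Tr → c.ι) (s r : Tr) : ℤ :=
  (Matrix.of fun r s => Γ.ω (u r) s).det * (Matrix.of fun r s => Γ.ω (u r) s).adjugate s r

lemma mul_iv {u : Tr → c.ι} (h : Γ.A u) (s r : Tr) :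
    (∑ t, Γ.ω (u s) t * Γ.iv u t r = if s = r then 1 else 0) ∧
      ∑ t, Γ.iv u s t * Γ.ω (u t) r = if s = r then 1 else 0 := by
  set A : Matrix Tr Tr ℤ := Matrix.of fun r s => Γ.ω (u r) s with hA
  have d : A.det * A.det = 1 := Int.isUnit_mul_self (Γ.det u h)
  have e1 := congrFun (congrFun A.mul_adjugate s) r
  have e2 := congrFun (congrFun A.adjugate_mul s) r
  rw [Matrix.mul_apply, Matrix.smul_apply, Matrix.one_apply, smul_eq_mul] at e1 e2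
  constructor
  · refine (Finset.sum_congr rfl fun t _ => mul_left_comm _ _ _).trans ?_
    rw [← Finset.mul_sum]
    exact (congrArg _ e1).trans (by rw [← mul_assoc, d, one_mul])
  · refine (Finset.sum_congr rfl fun t _ => mul_assoc _ _ _).trans ?_
    rw [← Finset.mul_sum]
    exact (congrArg _ e2).trans (by rw [← mul_assoc, d, one_mul])

lemma eq_wt {u : Tr → c.ι} (h : Γ.A u) {a : Tr → L} (h0 : Un a) (s : Tr) :
    a s = wt (fun r => wt a (Γ.ω (u r))) (Γ.iv u s) := by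
  rw [wt_wt h0, ← zpow_one (a s), ← wt_single]
  exact congrArg _ (funext fun r => by rw [(Γ.mul_iv h s r).2, Pi.single_apply]; simp only [eq_comm])

/-- The element of the torus that makes the coordinates `u s` equal to one. -/
def nm (u : Tr → c.ι) (x : c.X L) : Tr → L := fun s =>
  wt (fun r => c.co x (u r)) fun r => -Γ.iv u s r

lemma nz_iff {x : c.X L} : Γ.nz x ↔ ∃ u, Γ.A u ∧ ∀ s, c.co x (u s) ≠ 0 :=
  ⟨fun ⟨u, h⟩ => ⟨u, (h 0).1, fun s => (h s).2⟩, fun ⟨u, h, h'⟩ => ⟨u, fun s => ⟨h, h' s⟩⟩⟩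

lemma nz_prod {d : Cd} (Δ : Wt d) {x : c.X L} (h : Γ.nz x) (y : d.X L) : (Γ.prod Δ).nz (x, y) :=
  h.elim fun u hu => ⟨fun s => Sum.inl (u s), fun s => ⟨⟨u, (hu s).1, rfl⟩, (hu s).2⟩⟩

lemma nz_of_prod {d : Cd} (Δ : Wt d) {x : (c.prod d).X L} (h : (Γ.prod Δ).nz x) : Γ.nz x.1 := by
  obtain ⟨u, hu⟩ := h
  obtain ⟨u₀, h0, rfl⟩ := (hu 0).1
  exact ⟨u₀, fun s => ⟨h0, (hu s).2⟩⟩

lemma ch_prod {d : Cd} (Δ : Wt d) {u : Tr → (c.prod d).ι} {x : (c.prod d).X L}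
    (h : (Γ.prod Δ).Ch u x) : ∃ u₀, u = (fun s => Sum.inl (u₀ s)) ∧ Γ.Ch u₀ x.1 := by
  obtain ⟨u₀, h0, rfl⟩ := (h 0).1
  exact ⟨u₀, rfl, fun s => ⟨h0, (h s).2⟩⟩

lemma scl_one (x : c.X L) : Γ.scl 1 x = x := c.inj (funext fun i => by simp [Γ.co_scl])

lemma scl_scl (a b : Tr → L) (x : c.X L) : Γ.scl a (Γ.scl b x) = Γ.scl (a * b) x :=
  c.inj (funext fun i => by simp only [Γ.co_scl, mul_wt, mul_assoc])

lemma scl_inv {a : Tr → L} (h : Un a) (x : c.X L) : Γ.scl a⁻¹ (Γ.scl a x) = x := by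
  rw [scl_scl, h.inv_mul, scl_one]

lemma ch_scl {a : Tr → L} (h : Un a) {u : Tr → c.ι} {x : c.X L} : Γ.Ch u (Γ.scl a x) ↔ Γ.Ch u x :=
  forall_congr' fun s => and_congr_right fun _ => by
    rw [Γ.co_scl, mul_ne_zero_iff, and_iff_right (wt_ne h _)]

lemma nz_scl {a : Tr → L} (h : Un a) {x : c.X L} : Γ.nz (Γ.scl a x) ↔ Γ.nz x :=
  exists_congr fun _ => Γ.ch_scl h

lemma map_scl (f : L →+* L') (a : Tr → L) (x : c.X L) :
    c.map f (Γ.scl a x) = Γ.scl (fun s => f (a s)) (c.map f x) :=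
  c.inj (funext fun i => by simp only [c.co_map, Γ.co_scl, map_mul, map_wt])

lemma ch_map (f : L →+* L') {u : Tr → c.ι} {x : c.X L} : Γ.Ch u (c.map f x) ↔ Γ.Ch u x :=
  forall_congr' fun s => and_congr_right fun _ => by rw [c.co_map, map_ne_zero]

lemma nz_map (f : L →+* L') {x : c.X L} : Γ.nz (c.map f x) ↔ Γ.nz x :=
  exists_congr fun _ => Γ.ch_map f

lemma not_nz : ¬ Γ.nz (c.mk' fun _ => (0 : L)) := fun ⟨_, h⟩ => (h 0).2 (by rw [c.co_mk])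

variable {Γ} {u : Tr → c.ι} {x : c.X L}

lemma nm_un (h : Γ.Ch u x) : Un (Γ.nm u x) := fun _ => wt_ne (fun r => (h r).2) _

lemma co_nm (h : Γ.Ch u x) (s : Tr) : c.co (Γ.scl (Γ.nm u x) x) (u s) = 1 := by
  have h0 : Un fun r => c.co x (u r) := fun r => (h r).2
  have e : (fun r => ∑ t, Γ.ω (u s) t * -Γ.iv u t r) = Pi.single s (-1) := funext fun r => by
    simp only [mul_neg, Finset.sum_neg_distrib, (Γ.mul_iv (h s).1 s r).1, Pi.single_apply,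
      eq_comm (a := r)]
    split_ifs <;> rfl
  rw [Γ.co_scl]
  refine (congrArg (· * _) (wt_wt h0 (fun t r => -Γ.iv u t r) _)).trans ?_
  rw [e, wt_single, zpow_neg_one, inv_mul_cancel₀ (h s).2]

/-- The action is free. -/
lemma free {a : Tr → L} (h : Γ.Ch u x) (e : ∀ s, c.co (Γ.scl a x) (u s) = c.co x (u s)) :
    a = 1 := by
  have e1 : ∀ s, wt a (Γ.ω (u s)) = 1 := fun s =>
    mul_right_cancel₀ (h s).2 ((Γ.co_scl a x _).symm.trans ((e s).trans (one_mul _).symm))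
  have h0 : Un a := fun s hs => by
    obtain ⟨r, hr⟩ : ∃ r, Γ.ω (u r) s ≠ 0 := by
      by_contra! n
      simpa [n] using (Γ.mul_iv (h s).1 s s).2
    exact one_ne_zero ((e1 r).symm.trans
      (Finset.prod_eq_zero (Finset.mem_univ s) (by rw [hs, zero_zpow _ hr])))
  funext s
  rw [Γ.eq_wt (h s).1 h0]
  simp only [e1]
  exact one_wt _

lemma nm_uq {a : Tr → L} (h : Γ.Ch u x) (e : ∀ s, c.co (Γ.scl a x) (u s) = 1) : a = Γ.nm u x := by
  have h0 := nm_un h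
  have h1 : a * (Γ.nm u x)⁻¹ = 1 := free ((Γ.ch_scl h0).2 h) fun s => by
    rw [Γ.scl_scl, mul_assoc, h0.inv_mul, mul_one, e, co_nm h]
  rw [← mul_one a, ← h0.inv_mul, ← mul_assoc, h1, one_mul]

lemma nm_scl {a : Tr → L} (h0 : Un a) (h : Γ.Ch u x) : Γ.nm u (Γ.scl a x) * a = Γ.nm u x :=
  nm_uq h fun s => by rw [← Γ.scl_scl, co_nm ((Γ.ch_scl h0).2 h)]

lemma scl_nm {a : Tr → L} (h0 : Un a) (h : Γ.Ch u x) :
    Γ.scl (Γ.nm u (Γ.scl a x)) (Γ.scl a x) = Γ.scl (Γ.nm u x) x := by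
  rw [Γ.scl_scl, nm_scl h0 h]

lemma nm_one (e : ∀ s, c.co x (u s) = 1) : Γ.nm u x = 1 := by
  funext s
  simp [nm, wt, e]

variable (Γ)

lemma nm_map (f : L →+* L') (u : Tr → c.ι) (x : c.X L) :
    Γ.nm u (c.map f x) = fun s => f (Γ.nm u x s) := by
  funext s
  simp only [nm, map_wt, c.co_map]

/-- The orbits; the points outside the charts form one class. -/
def st (L : Type) [Field L] : Setoid (c.X L) where
  r x y := (¬ Γ.nz x ∧ ¬ Γ.nz y) ∨ ∃ a : Tr → L, Un a ∧ y = Γ.scl a x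
  iseqv := by
    refine ⟨fun x => .inr ⟨1, Un.one, (Γ.scl_one x).symm⟩, ?_, ?_⟩
    · rintro x y (h | ⟨a, h, rfl⟩)
      exacts [.inl h.symm, .inr ⟨a⁻¹, h.inv, (Γ.scl_inv h x).symm⟩]
    · rintro x y z (h | ⟨a, h, rfl⟩) (h' | ⟨b, h', rfl⟩)
      · exact .inl ⟨h.1, h'.2⟩
      · exact .inl ⟨h.1, fun e => h.2 ((Γ.nz_scl h').1 e)⟩
      · exact .inl ⟨fun e => h'.1 ((Γ.nz_scl h).2 e), h'.2⟩
      · exact .inr ⟨b * a, h'.mul h, Γ.scl_scl _ _ _⟩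

/-- The class of a point. -/
def pt (x : c.X L) : Quotient (Γ.st L) := Quotient.mk _ x

lemma pt_scl {a : Tr → L} (h : Un a) (x : c.X L) : Γ.pt (Γ.scl a x) = Γ.pt x :=
  (Quotient.sound (.inr ⟨a, h, rfl⟩) : Γ.pt x = _).symm

lemma pt_eq {x y : c.X L} (h : Γ.nz x) : Γ.pt x = Γ.pt y ↔ ∃ a : Tr → L, Un a ∧ y = Γ.scl a x :=
  ⟨fun e => (Quotient.exact e).resolve_left fun h' => h'.1 h, fun e => Quotient.sound (.inr e)⟩

lemma pt_not {x y : c.X L} (h : ¬ Γ.nz x) (h' : ¬ Γ.nz y) : Γ.pt x = Γ.pt y :=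
  Quotient.sound (.inl ⟨h, h'⟩)

lemma nz_pt {x y : c.X L} (e : Γ.pt x = Γ.pt y) (h : Γ.nz x) : Γ.nz y := by
  obtain ⟨a, h0, rfl⟩ := (Γ.pt_eq h).1 e
  exact (Γ.nz_scl h0).2 h

lemma pt_surj (E : Quotient (Γ.st L)) : ∃ x, Γ.pt x = E := Quotient.exists_rep E

/-- The image of a class. -/
def qmap (f : L →+* L') : Quotient (Γ.st L) → Quotient (Γ.st L') :=
  Quotient.map (c.map f) (by
    rintro x y (h | ⟨a, h, rfl⟩)
    · exact .inl ⟨fun e => h.1 ((Γ.nz_map f).1 e), fun e => h.2 ((Γ.nz_map f).1 e)⟩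
    · exact .inr ⟨_, (Un.map f).2 h, Γ.map_scl f a x⟩)

end

variable {K : Type} [Field K] {M L : Fld K}

lemma lift_scl {R : Rel M L} {a : Tr → M} {a' : Tr → L} (h : ∀ s, R.r (a s) (a' s)) (h0 : Un a')
    {x : c.X M} {x' : c.X L} (e : c.lift R.r x x') : c.lift R.r (Γ.scl a x) (Γ.scl a' x') :=
  (c.lift_iff _ _ _).2 fun i => by
    rw [Γ.co_scl, Γ.co_scl]
    exact R.mul (wt_rel h h0 _) ((c.lift_iff _ _ _).1 e i)

lemma ch_lift {R : Rel M L} {u : Tr → c.ι} {x : c.X M} {x' : c.X L} (e : c.lift R.r x x')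
    (h : Γ.Ch u x') : Γ.Ch u x :=
  fun s => ⟨(h s).1, Rel.ne_zero ((c.lift_iff _ _ _).1 e _) (h s).2⟩

lemma nz_lift {R : Rel M L} {x : c.X M} {x' : c.X L} (e : c.lift R.r x x') (h : Γ.nz x') :
    Γ.nz x := h.imp fun _ => Γ.ch_lift e

lemma nm_rel {R : Rel M L} {u : Tr → c.ι} {x : c.X M} {x' : c.X L} (e : c.lift R.r x x')
    (h : Γ.Ch u x') (s : Tr) : R.r (Γ.nm u x s) (Γ.nm u x' s) :=
  wt_rel (fun _ => (c.lift_iff _ _ _).1 e _) (fun r => (h r).2) _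

lemma nm_mem {F : IntermediateField K M} {u : Tr → c.ι} {x : c.X M} (h : ∀ s, c.co x (u s) ∈ F)
    (s : Tr) : Γ.nm u x s ∈ F := wt_mem h _

/-- Two normalisations of the homogeneous coordinates differ by a unit. -/
lemma unit_of_hom {R : Rel M L} {a : Tr → M} (h0 : Un a) {x : c.X M} {x' y' : c.ι → L}
    (e : ∀ i, Γ.H i → R.r (c.co x i) (x' i))
    (e' : ∀ i, Γ.H i → R.r (c.co (Γ.scl a x) i) (y' i))
    (h : ∃ u, Γ.A u ∧ ∀ s, x' (u s) ≠ 0) (h' : ∃ u, Γ.A u ∧ ∀ s, y' (u s) ≠ 0) :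
    ∃ a', Un a' ∧ ∀ s, R.r (a s) (a' s) := by
  obtain ⟨κ, n, k1, -⟩ := Γ.cvx
  obtain ⟨u, hu, u0⟩ := h
  obtain ⟨v, hv, v0⟩ := h'
  have p : ∀ w, Γ.A w → R.r (∏ r, c.co x (w r) ^ n w r) (∏ r, x' (w r) ^ n w r) ∧
      R.r (wt a κ * ∏ r, c.co x (w r) ^ n w r) (∏ r, y' (w r) ^ n w r) := fun w hw => by
    refine ⟨Rel.prod _ fun r _ => Rel.pow (e _ (Γ.hom w hw r)) _, ?_⟩
    have := Rel.prod (R := R) Finset.univ fun r _ => Rel.pow (e' _ (Γ.hom w hw r)) (n w r)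
    simpa only [Γ.co_scl, mul_pow, Finset.prod_mul_distrib, ← wt_nsmul, ← wt_sum h0,
      (k1 w hw).2] using this
  have n1 : ∏ r, x' (u r) ^ n u r ≠ 0 := Finset.prod_ne_zero_iff.2 fun r _ => pow_ne_zero _ (u0 r)
  have n2 : ∏ r, y' (v r) ^ n v r ≠ 0 := Finset.prod_ne_zero_iff.2 fun r _ => pow_ne_zero _ (v0 r)
  have h1 := Rel.div (p u hu).2 (p u hu).1 n1
  have h2 := Rel.div (p v hv).1 (p v hv).2 n2
  have h3 := Rel.ne_zero (p v hv).2 n2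
  rw [mul_div_cancel_right₀ _ (Rel.ne_zero (p u hu).1 n1)] at h1
  have h4 : ∏ r, y' (u r) ^ n u r ≠ 0 := fun z => by
    have := Rel.eq (R.mul h1 h2) R.one (by rw [mul_div_assoc', div_self h3])
    rw [z, zero_div, zero_mul] at this
    exact zero_ne_one this
  have h5 : ∀ r, y' (u r) ≠ 0 := fun r z => Finset.prod_ne_zero_iff.1 h4 r (Finset.mem_univ r)
    (by rw [z, zero_pow ((k1 u hu).1 r).ne'])
  have h6 : Un fun r => y' (u r) / x' (u r) := fun r => div_ne_zero (h5 r) (u0 r)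
  refine ⟨fun s => wt (fun r => y' (u r) / x' (u r)) (Γ.iv u s), fun s => wt_ne h6 _, fun s => ?_⟩
  rw [Γ.eq_wt hu h0 s]
  refine wt_rel (fun r => ?_) h6 _
  have := Rel.div (e' _ (Γ.hom u hu r)) (e _ (Γ.hom u hu r)) (u0 r)
  rwa [Γ.co_scl, mul_div_cancel_right₀ _ (Rel.ne_zero (e _ (Γ.hom u hu r)) (u0 r))] at this

/-- Two normalisations differ by a unit. -/
lemma unit_of_lift {R : Rel M L} {a : Tr → M} (h0 : Un a) {x : c.X M} {x' y' : c.X L}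
    (e : c.lift R.r x x') (e' : c.lift R.r (Γ.scl a x) y') (h : Γ.nz x') (h' : Γ.nz y') :
    ∃ a', Un a' ∧ ∀ s, R.r (a s) (a' s) :=
  Γ.unit_of_hom h0 (fun i _ => (c.lift_iff _ _ _).1 e i) (fun i _ => (c.lift_iff _ _ _).1 e' i)
    (Γ.nz_iff.1 h) (Γ.nz_iff.1 h')

lemma pt_lift {R : Rel M L} {x y : c.X M} {x' y' : c.X L} (e : c.lift R.r x x')
    (e' : c.lift R.r y y') (h : Γ.nz x') (h' : Γ.nz y') (q : Γ.pt x = Γ.pt y) :
    Γ.pt x' = Γ.pt y' := by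
  obtain ⟨a, h0, rfl⟩ := (Γ.pt_eq (Γ.nz_lift e h)).1 q
  obtain ⟨a', h1, h2⟩ := Γ.unit_of_lift h0 e e' h h'
  exact (Γ.pt_eq h).2 ⟨a', h1, Cd.lift_eq e' (Γ.lift_scl h2 h1 e) rfl⟩

open Classical in
/-- The reduction of a class. -/
noncomputable def qred (O : Pl M) (E : Quotient (Γ.st M)) : Quotient (Γ.st O.res) :=
  if h : ∃ x', Γ.nz x' ∧ ∃ x, Γ.pt x = E ∧ c.lift (Rel.ofPl O).r x x' then Γ.pt h.choose
  else Γ.pt (c.mk' fun _ => 0)

lemma qred_eq {O : Pl M} {x : c.X M} {x' : c.X O.res} (e : c.lift (Rel.ofPl O).r x x')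
    (h : Γ.nz x') : Γ.qred O (Γ.pt x) = Γ.pt x' := by
  have h1 : ∃ x', Γ.nz x' ∧ ∃ y, Γ.pt y = Γ.pt x ∧ c.lift (Rel.ofPl O).r y x' :=
    ⟨x', h, x, rfl, e⟩
  obtain ⟨h2, y, h3, h4⟩ := h1.choose_spec
  exact (dif_pos h1).trans (Γ.pt_lift h4 e h2 h h3)

/-- If the reduction is not the point at infinity, one can normalise in a chart. -/
lemma qred_nz {O : Pl M} {x : c.X M} {y : c.X O.res} (e : Γ.qred O (Γ.pt x) = Γ.pt y)
    (h : Γ.nz y) : ∃ u x', Γ.Ch u x ∧ c.lift (Rel.ofPl O).r (Γ.scl (Γ.nm u x) x) x' ∧ Γ.nz x' ∧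
      Γ.pt x' = Γ.pt y := by
  by_cases h1 : ∃ x', Γ.nz x' ∧ ∃ y, Γ.pt y = Γ.pt x ∧ c.lift (Rel.ofPl O).r y x'
  · obtain ⟨x', h2, z, h3, h4⟩ := h1
    obtain ⟨a, h0, rfl⟩ := (Γ.pt_eq (Γ.nz_lift h4 h2)).1 h3
    rw [Γ.pt_scl h0, Γ.qred_eq h4 h2] at e
    obtain ⟨u, hu⟩ := h2
    have h5 := Γ.ch_lift h4 hu
    refine ⟨u, Γ.scl (Γ.nm u x') x', (Γ.ch_scl h0).2 h5, ?_, (Γ.nz_scl (nm_un hu)).2 ⟨u, hu⟩,
      (Γ.pt_scl (nm_un hu) _).trans e⟩
    rw [scl_nm h0 h5]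
    exact Γ.lift_scl (Γ.nm_rel h4 hu) (nm_un hu) h4
  · exact absurd (Γ.nz_pt ((dif_neg h1).symm.trans e).symm h) Γ.not_nz

variable (K)

/-- The quotient, with a point at infinity. -/
noncomputable def amb : Amb K where
  pt L := Quotient (Γ.st L)
  map κ := Γ.qmap κ.toRingHom
  map_id E := by
    obtain ⟨x, rfl⟩ := Γ.pt_surj E
    exact congrArg Γ.pt (c.map_id x)
  map_comp ι κ E := by
    obtain ⟨x, rfl⟩ := Γ.pt_surj E
    exact congrArg Γ.pt (c.map_map ι κ x).symm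
  inj {L L'} κ E E' h := by
    obtain ⟨x, rfl⟩ := Γ.pt_surj E
    obtain ⟨y, rfl⟩ := Γ.pt_surj E'
    replace h : Γ.pt (c.map κ.toRingHom x) = Γ.pt (c.map κ.toRingHom y) := h
    by_cases hx : Γ.nz x
    · obtain ⟨a, h0, e⟩ := (Γ.pt_eq ((Γ.nz_map _).2 hx)).1 h
      obtain ⟨u, hu⟩ := hx
      have h1 := (Γ.ch_map κ.toRingHom).2 hu
      have hy : Γ.Ch u y := (Γ.ch_map κ.toRingHom).1 (e ▸ (Γ.ch_scl h0).2 h1)
      rw [← Γ.pt_scl (nm_un hu), ← Γ.pt_scl (nm_un hy) y]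
      refine congrArg _ (c.map_inj κ.toRingHom.injective ?_)
      rw [Γ.map_scl, Γ.map_scl, ← Γ.nm_map, ← Γ.nm_map, e, scl_nm h0 h1]
    · exact Γ.pt_not hx fun hy => hx ((Γ.nz_map _).1 (Γ.nz_pt h.symm ((Γ.nz_map _).2 hy)))
  red O := Γ.qred O
  red_map {M M' ι O O'} h E := by
    obtain ⟨x, rfl⟩ := Γ.pt_surj E
    obtain ⟨y, hy⟩ := Γ.pt_surj (Γ.qred O (Γ.pt x))
    obtain ⟨y', hy'⟩ := Γ.pt_surj (Γ.qred O' (Γ.pt (c.map ι x)))
    refine hy'.symm.trans (Eq.trans ?_ (congrArg _ hy))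
    show _ = Γ.pt (c.map h.resHom.toRingHom y)
    by_cases h1 : Γ.nz y
    · obtain ⟨u, x', hu, e, h2, e'⟩ := Γ.qred_nz hy.symm h1
      have h3 := Γ.qred_eq (Cd.lift_over h e) ((Γ.nz_map h.resHom.toRingHom).2 h2)
      have h4 : Γ.pt (c.map ι (Γ.scl (Γ.nm u x) x)) = Γ.pt (c.map ι x) :=
        congrArg (Γ.qmap ι.toRingHom) (Γ.pt_scl (nm_un hu) x)
      rw [hy', ← h4, h3]
      exact congrArg (Γ.qmap h.resHom.toRingHom) e'
    · refine Γ.pt_not (fun h2 => h1 ?_) fun h2 => h1 ((Γ.nz_map _).1 h2)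
      obtain ⟨u, x', hu, e, -, -⟩ := Γ.qred_nz hy'.symm h2
      have i1 : Γ.Ch u x := (Γ.ch_map ι.toRingHom).1 hu
      have e1 := ((Cd.lift_pl O').1 e).1
      rw [show Γ.nm u (c.map ι x) = _ from Γ.nm_map ι.toRingHom u x,
        ← show c.map ι _ = Γ.scl _ (c.map ι x) from Γ.map_scl ι.toRingHom _ x,
        Cd.all_over h] at e1
      have h3 : Γ.nz (c.map O.rd (Γ.scl (Γ.nm u x) x)) := ⟨u, fun s => ⟨(i1 s).1, by
        rw [c.co_map, co_nm i1, O.rd_one]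
        exact one_ne_zero⟩⟩
      have h4 := Γ.qred_eq ((Cd.lift_pl O).2 ⟨e1, rfl⟩) h3
      rw [Γ.pt_scl (nm_un i1), ← hy] at h4
      exact Γ.nz_pt h4.symm h3
  red_triv {L M ι O} h E := by
    obtain ⟨x, rfl⟩ := Γ.pt_surj E
    by_cases hx : Γ.nz x
    · exact Γ.qred_eq (Cd.lift_triv h x) ((Γ.nz_map h.hom.toRingHom).2 hx)
    · obtain ⟨y, hy⟩ := Γ.pt_surj (Γ.qred O (Γ.pt (c.map ι x)))
      refine hy.symm.trans (Γ.pt_not (fun h2 => hx ?_) fun h2 => hx ((Γ.nz_map _).1 h2))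
      obtain ⟨u, -, hu, -⟩ := Γ.qred_nz hy.symm h2
      exact (Γ.nz_map ι.toRingHom).1 ⟨u, hu⟩
  fg E := by
    obtain ⟨x, rfl⟩ := Γ.pt_surj E
    refine ⟨(Set.finite_range (c.co x)).toFinset, fun L₀ κ h => ?_⟩
    choose z hz using fun i => h (c.co x i) (by simp)
    exact ⟨Γ.pt (c.mk' z), congrArg Γ.pt (c.inj (funext fun i => by
      rw [c.co_map, c.co_mk]; exact hz i))⟩

variable {K}

lemma map_pt (ι : M →ₐ[K] L) (x : c.X M) : (Γ.amb K).map ι (Γ.pt x) = Γ.pt (c.map ι x) := rfl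

lemma red_pt {O : Pl M} {a : Tr → M} (h0 : Un a) {x : c.X M} {x' : c.X O.res}
    (e : c.lift (Rel.ofPl O).r (Γ.scl a x) x') (h : Γ.nz x') :
    (Γ.amb K).red O (Γ.pt x) = Γ.pt x' := by
  rw [← Γ.pt_scl h0 x]
  exact Γ.qred_eq e h

/-- The homogeneous coordinates of `a x` are integral, and their reductions lie in a chart. -/
structure Prim (O : Pl M) (a : Tr → M) (x : c.X M) : Prop where
  un : Un a
  int : ∀ i, Γ.H i → c.co (Γ.scl a x) i ∈ O.O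
  ne : ∃ u, Γ.A u ∧ ∀ s, O.rd (c.co (Γ.scl a x) (u s)) ≠ 0

open Classical in
/-- The order of the section `τ` of weight `k`. -/
noncomputable def ow (O : Pl M) (k : Tr → ℤ) (τ : M) (x : c.X M) : ℤ :=
  O.ord (wt (if h : ∃ a, Γ.Prim O a x then h.choose else 1) k * τ)

lemma ow_zero (O : Pl M) (τ : M) (x : c.X M) : Γ.ow O 0 τ x = O.ord τ := by
  rw [ow, wt_zero, one_mul]

/-- The coordinates that are not in `q` have weight zero and are not homogeneous coordinates. -/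
def Ad (q : c.ι → Prop) : Prop := ∀ i, ¬ q i → Γ.ω i = 0 ∧ ¬ Γ.H i

lemma Ad.of_H {Γ : Wt c} {q : c.ι → Prop} (h : Γ.Ad q) {i : c.ι} (hi : Γ.H i) : q i :=
  by_contra fun n => (h i n).2 hi

lemma Ad.of_P {Γ : Wt c} {q : c.ι → Prop} (h : Γ.Ad q) {u : Tr → c.ι} (hu : Γ.A u) {s : Tr} :
    q (u s) := h.of_H (Γ.hom u hu s)

end Wt

variable {K : Type} [Field K] {c d : Cd} {Γ : Wt c}

/-- An invariant locally closed set. -/
structure QS (K : Type) [Field K] (Γ : Wt c) where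
  S : ASp K c
  inv : ∀ (L : Fld K) (a : Tr → L) (x : c.X L), Un a → S.mem L x → S.mem L (Γ.scl a x)
  nz : ∀ (L : Fld K) (x : c.X L), S.mem L x → Γ.nz x

namespace QS

variable (S : QS K Γ)

/-- Membership. -/
abbrev mem (L : Fld K) (x : c.X L) : Prop := S.S.mem L x

lemma mem_of_pt {L : Fld K} {x y : c.X L} (h : S.mem L x) (e : Γ.pt x = Γ.pt y) : S.mem L y := by
  obtain ⟨a, h0, rfl⟩ := (Γ.pt_eq (S.nz L x h)).1 e
  exact S.inv L a x h0 h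

/-- The space of points of the quotient. -/
def sp : Sp (Γ.amb K) where
  mem {L} E := ∃ x, S.mem L x ∧ Γ.pt x = E
  map_iff κ E := by
    obtain ⟨x, rfl⟩ := Γ.pt_surj E
    exact ⟨fun ⟨_, h, e⟩ => ⟨x, (S.S.map_iff κ x).1 (S.mem_of_pt h e), rfl⟩,
      fun ⟨_, h, e⟩ => ⟨_, (S.S.map_iff κ x).2 (S.mem_of_pt h e), rfl⟩⟩

lemma sp_pt {L : Fld K} {x : c.X L} : S.sp.mem (L := L) (Γ.pt x) ↔ S.mem L x :=
  ⟨fun ⟨_, h, e⟩ => S.mem_of_pt h e, fun h => ⟨x, h, rfl⟩⟩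

end QS

end Pool.Agent.Lib.MP_557161_ag.HG.MC
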