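import Pool.Agent.Lib.MP_557161_ag.MC.StN

/-!
The series of Artin and Hasse and a zero of its logarithm.
-/

namespace Pool.Agent.Lib.MP_557161_ag.HG.MC

open Pool.Agent.Lib.MP_557161_ag.DW Finset

namespace NAa

section Ultra

variable {K : Type} [NormedField K] [IsUltrametricDist K]

lemma pow_sub_le {u v : K} (hu : ‖u‖ ≤ 1) (hv : ‖v‖ ≤ 1) (n : ℕ) : ‖u ^ n - v ^ n‖ ≤ ‖u - v‖ := by
  induction n with
  | zero => simp
  | succ n ih =>
    rw [show u ^ (n + 1) - v ^ (n + 1) = (u ^ n - v ^ n) * u + v ^ n * (u - v) by ring]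
    refine (IsUltrametricDist.norm_add_le_max _ _).trans (max_le ?_ ?_)
    · rw [norm_mul]
      exact (mul_le_of_le_one_right (norm_nonneg _) hu).trans ih
    · rw [norm_mul, norm_pow]
      exact mul_le_of_le_one_left (norm_nonneg _) (pow_le_one₀ (norm_nonneg _) hv)

lemma norm_le {u : K} {q : ℝ} (hq : q ≤ 1) (hu : ‖u - 1‖ ≤ q) : ‖u‖ ≤ 1 := by
  rw [show u = (u - 1) + 1 by ring]
  exact (IsUltrametricDist.norm_add_le_max _ _).trans (max_le (hu.trans hq) norm_one.le)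

lemma pow_p {u v : K} {q : ℝ} {n : ℕ} (h0 : 0 ≤ q) (hq : q ≤ 1) (hn : ‖(n : K)‖ ≤ q)
    (hu : ‖u - 1‖ ≤ q) (hv : ‖v - 1‖ ≤ q) : ‖u ^ n - v ^ n‖ ≤ q * ‖u - v‖ := by
  have u1 := norm_le hq hu
  have v1 := norm_le hq hv
  rw [← geom_sum₂_mul, norm_mul]
  refine mul_le_mul_of_nonneg_right ?_ (norm_nonneg _)
  have e : ∑ i ∈ range n, u ^ i * v ^ (n - 1 - i) =
      n + ∑ i ∈ range n, ((u ^ i - 1 ^ i) * v ^ (n - 1 - i) + (v ^ (n - 1 - i) - 1 ^ (n - 1 - i))) := by
    rw [show (n : K) = ∑ _i ∈ range n, 1 by simp, ← sum_add_distrib]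
    exact sum_congr rfl fun i _ => by simp only [one_pow]; ring
  rw [e]
  refine (IsUltrametricDist.norm_add_le_max _ _).trans (max_le hn ?_)
  refine IsUltrametricDist.norm_sum_le_of_forall_le_of_nonneg h0 fun i _ => ?_
  refine (IsUltrametricDist.norm_add_le_max _ _).trans (max_le ?_ ?_)
  · rw [norm_mul, norm_pow]
    exact (mul_le_of_le_one_right (norm_nonneg _) (pow_le_one₀ (norm_nonneg _) v1)).trans
      ((pow_sub_le u1 norm_one.le i).trans hu)
  · exact (pow_sub_le v1 norm_one.le _).trans hv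

/-- A solution of `u = u ^ n - ∑ b j * u ^ m j` near `1`. -/
lemma fix [CompleteSpace K] {q : ℝ} {n : ℕ} (h0 : 0 ≤ q) (hq : q < 1) (hn : ‖(n : K)‖ ≤ q)
    (b : ℕ → K) (m : ℕ → ℕ) (hb : ∀ j, ‖b j‖ ≤ q ^ (j + 1)) :
    ∃ u : K, ‖u - 1‖ ≤ q ∧ HasSum (fun j => b j * u ^ m j) (u ^ n - u) := by
  have hb' : ∀ j, ‖b j‖ ≤ q := fun j => (hb j).trans (pow_le_of_le_one h0 hq.le j.succ_ne_zero)
  have sm : ∀ u : K, ‖u‖ ≤ 1 → Summable fun j => b j * u ^ m j := fun u hu =>
    Summable.of_norm_bounded (summable_geometric_of_lt_one h0 hq) fun j => by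
      rw [norm_mul, norm_pow]
      exact (mul_le_of_le_one_right (norm_nonneg _) (pow_le_one₀ (norm_nonneg _) hu)).trans
        ((hb j).trans (pow_le_pow_of_le_one h0 hq.le j.le_succ))
  have mt : Set.MapsTo (fun u : K => u ^ n - ∑' j, b j * u ^ m j) (Metric.closedBall 1 q)
      (Metric.closedBall 1 q) := fun u hu => by
    rw [mem_closedBall_iff_norm] at hu ⊢
    have u1 := norm_le hq.le hu
    rw [show u ^ n - ∑' j, b j * u ^ m j - 1 = (u ^ n - 1 ^ n) + -∑' j, b j * u ^ m j by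
      rw [one_pow]; ring]
    refine (IsUltrametricDist.norm_add_le_max _ _).trans
      (max_le ((pow_sub_le u1 norm_one.le n).trans hu) ?_)
    rw [norm_neg]
    refine IsUltrametricDist.norm_tsum_le_of_forall_le fun j => ?_
    rw [norm_mul, norm_pow]
    exact (mul_le_of_le_one_right (norm_nonneg _) (pow_le_one₀ (norm_nonneg _) u1)).trans (hb' j)
  have ct : ContractingWith (NNReal.mk q h0) (mt.restrict _ _ _) := by
    refine ⟨hq, LipschitzWith.of_dist_le_mul fun u v => ?_⟩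
    have hu := mem_closedBall_iff_norm.1 u.2
    have hv := mem_closedBall_iff_norm.1 v.2
    have u1 := norm_le hq.le hu
    have v1 := norm_le hq.le hv
    rw [Subtype.dist_eq, Subtype.dist_eq, Set.MapsTo.val_restrict_apply,
      Set.MapsTo.val_restrict_apply, dist_eq_norm, dist_eq_norm, NNReal.coe_mk,
      show ∀ a b c d : K, a - b - (c - d) = (a - c) + (d - b) from fun a b c d => by ring,
      ← (sm _ v1).tsum_sub (sm _ u1)]
    refine (IsUltrametricDist.norm_add_le_max _ _).trans (max_le (pow_p h0 hq.le hn hu hv) ?_)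
    refine IsUltrametricDist.norm_tsum_le_of_forall_le fun j => ?_
    rw [← mul_sub, norm_mul, norm_sub_rev]
    exact mul_le_mul (hb' j) (pow_sub_le u1 v1 _) (norm_nonneg _) h0
  obtain ⟨u, hu, hf, -⟩ := ct.exists_fixedPoint' Metric.isClosed_closedBall.isComplete mt
    (Metric.mem_closedBall_self h0) (edist_ne_top _ _)
  rw [mem_closedBall_iff_norm] at hu
  refine ⟨u, hu, ?_⟩
  have e : u ^ n - ∑' j, b j * u ^ m j = u := hf
  have := (sm u (norm_le hq.le hu)).hasSum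
  rwa [show ∑' j, b j * u ^ m j = u ^ n - u by linear_combination -e] at this

end Ultra

lemma pow_ge {q : ℕ} (j : ℕ) : 1 + (q + 1) * (2 * j + 3) ≤ (q + 2) ^ (j + 2) := by
  induction j with
  | zero => rw [zero_add, sq]; nlinarith [Nat.zero_le (q * q)]
  | succ j ih =>
    rw [show j + 1 + 2 = j + 2 + 1 from rfl, pow_succ]
    have : 2 ≤ (q + 2) ^ (j + 2) := le_trans (by nlinarith) ih
    nlinarith

variable {p : ℕ} [hp : Fact p.Prime]

lemma gam : ∃ γ : ℂ_[p], ‖γ‖ ^ (p - 1) = (p : ℝ)⁻¹ ∧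
    HasSum (fun j : ℕ => γ ^ p ^ j / (p : ℂ_[p]) ^ j) 0 := by
  have hp0 := hp.out.ne_zero
  have hp1 : (1 : ℝ) < p := by exact_mod_cast hp.out.one_lt
  have hpi : (0 : ℝ) < (p : ℝ)⁻¹ := by positivity
  have hpi1 : (p : ℝ)⁻¹ < 1 := inv_lt_one_of_one_lt₀ hp1
  have hq : 0 < p - 1 := Nat.sub_pos_of_lt hp.out.one_lt
  have hpK : (p : ℂ_[p]) ≠ 0 := by exact_mod_cast hp0
  have hnp : ‖(p : ℂ_[p])‖ = (p : ℝ)⁻¹ := by rw [Theta.norm_nat, Padic.norm_p]
  obtain ⟨π, hπ⟩ := IsAlgClosed.exists_pow_nat_eq (-(p : ℂ_[p])) hq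
  have hρ : ‖π‖ ^ (p - 1) = (p : ℝ)⁻¹ := by rw [← norm_pow, hπ, norm_neg, hnp]
  have hπ0 : π ≠ 0 := fun h => by
    rw [h, zero_pow hq.ne'] at hπ
    exact hpK (neg_eq_zero.1 hπ.symm)
  have hρ0 : 0 < ‖π‖ := norm_pos_iff.2 hπ0
  have hρ1 : ‖π‖ < 1 := (pow_lt_one_iff_of_nonneg hρ0.le hq.ne').1 (hρ ▸ hpi1)
  obtain ⟨u, hu, hs⟩ := fix hpi.le hpi1 hnp.le
    (fun j => π ^ p ^ (j + 2) / (p : ℂ_[p]) ^ (j + 2) / π) (fun j => p ^ (j + 2)) fun j => by
      have h1 : 1 + (p - 1) * (2 * j + 3) ≤ p ^ (j + 2) := by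
        obtain ⟨q, e⟩ := Nat.exists_eq_add_of_le' hp.out.two_le
        rw [show p - 1 = q + 1 by omega, e]
        exact pow_ge j
      have h2 := pow_le_pow_of_le_one hρ0.le hρ1.le h1
      rw [pow_add _ 1, pow_mul, hρ, pow_one] at h2
      rw [norm_div, norm_div, norm_pow, norm_pow, hnp, div_le_iff₀ hρ0, div_le_iff₀ (by positivity)]
      exact h2.trans_eq (by ring)
  have u1 : ‖u‖ = 1 := by
    have := IsUltrametricDist.norm_add_eq_max_of_norm_ne_norm (x := u - 1) (y := 1)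
      (by rw [norm_one]; exact (hu.trans_lt hpi1).ne)
    rwa [sub_add_cancel, norm_one, max_eq_right (hu.trans hpi1.le)] at this
  refine ⟨π * u, by rw [norm_mul, u1, mul_one, hρ], ?_⟩
  refine (hasSum_nat_add_iff' 2).1 ?_
  have h5 : π ^ p = -(p * π) := by rw [← pow_sub_one_mul hp0 π, hπ, neg_mul]
  have e : (0 : ℂ_[p]) - ∑ j ∈ range 2, (π * u) ^ p ^ j / (p : ℂ_[p]) ^ j = π * (u ^ p - u) := by
    simp only [sum_range_succ, sum_range_zero, pow_zero, pow_one, mul_pow, h5]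
    field_simp
    ring
  rw [e]
  have h6 := hs.mul_left π
  rwa [show (fun j => π * (π ^ p ^ (j + 2) / (p : ℂ_[p]) ^ (j + 2) / π * u ^ p ^ (j + 2))) =
    fun j => (π * u) ^ p ^ (j + 2) / (p : ℂ_[p]) ^ (j + 2) from funext fun j => by
      rw [mul_pow]; field_simp] at h6

lemma coeff_G {k m : ℕ} (hm : m ≤ k) : PowerSeries.coeff m (Theta.G ℚ_[p] p) =
    ∑ i ∈ range k, if m = p ^ i then 1 else 0 := by
  rw [Theta.G, PowerSeries.coeff_mk]
  split_ifs with h
  · obtain ⟨i, rfl⟩ := h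
    rw [sum_eq_single i, if_pos rfl]
    · exact fun j _ hj => if_neg fun e => hj (Nat.pow_right_injective hp.out.two_le e).symm
    · exact fun hi => absurd (mem_range.2 ((Nat.lt_pow_self hp.out.one_lt).trans_le hm)) hi
  · exact (sum_eq_zero fun i _ => if_neg fun e => h ⟨i, e⟩).symm

lemma rc {e : ℕ → ℤ_[p]} (h : AH p e) (k : ℕ) :
    (k : ℤ_[p]) * e k = ∑ i ∈ range k, if p ^ i ≤ k then e (k - p ^ i) else 0 := by
  have h1 := Theta.Sol.step h k
  simp only [PowerSeries.coeff_mk] at h1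
  rw [sum_congr rfl fun j _ => by rw [coeff_G (Nat.sub_le k j), mul_sum], sum_comm] at h1
  apply Subtype.val_injective
  have hc : ∀ x : ℤ_[p], (x : ℚ_[p]) = PadicInt.Coe.ringHom (p := p) x := fun _ => rfl
  simp only [hc] at h1 ⊢
  rw [map_mul, map_natCast, h1, map_sum]
  refine sum_congr rfl fun i _ => ?_
  have hi : 0 < p ^ i := pow_pos hp.out.pos i
  split_ifs with hk
  · rw [sum_eq_single (k - p ^ i), if_pos (by omega), mul_one]
    · exact fun j hj hne => by rw [if_neg (by have := mem_range.1 hj; omega), mul_zero]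
    · exact fun hj => absurd (mem_range.2 (by omega)) hj
  · rw [map_zero]
    exact sum_eq_zero fun j _ => by rw [if_neg (by omega), mul_zero]

end NAa

theorem NA_thm {p : ℕ} [hp : Fact p.Prime] : NA p where
  ex := by
    obtain ⟨E, hE⟩ := Theta.exists_sol (Theta.G_zero (K := ℚ_[p]) hp.out.ne_zero)
    refine ⟨fun k => ⟨PowerSeries.coeff k E, Theta.artin_hasse hE k⟩, ?_⟩
    rwa [AH, show (PowerSeries.mk fun k => PowerSeries.coeff k E) = E from
      PowerSeries.ext fun k => PowerSeries.coeff_mk _ _]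
  rc := fun h => ⟨Subtype.val_injective (by simpa using h.2.1), NAa.rc h⟩
  gam := NAa.gam

end Pool.Agent.Lib.MP_557161_ag.HG.MC
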