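import Pool.Agent.Lib.MP_557161_ag.MC.StN

/-!
Points and characters.
-/

namespace Pool.Agent.Lib.MP_557161_ag.HG.MC

open Pool.Agent.Lib.MP_557161_ag.DW

namespace NS2a

variable {p : ℕ} [Fact p.Prime] {K : Type} [Field K] [IsAlgClosed K] [Algebra (ZMod p) K]

/-- The square roots with a prescribed behaviour under Frobenius. -/
def rt (f : K) (Q : ℕ) (ε : Bool) : Set K := {z | z ^ 2 = f ∧ z ^ Q = bif ε then -z else z}

omit [IsAlgClosed K] in
theorem fin (f : K) (Q : ℕ) (ε : Bool) : (rt f Q ε).Finite := by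
  rcases (rt f Q ε).eq_empty_or_nonempty with e | ⟨z, hz⟩
  · exact e ▸ Set.finite_empty
  · exact (Set.toFinite {z, -z}).subset fun w hw =>
      sq_eq_sq_iff_eq_or_eq_neg.1 (hw.1.trans hz.1.symm)

open Classical in
theorem fib (hp : p ≠ 2) {N : ℕ} [Fintype (Count.Fx p K N)] (f : Count.Fx p K N) :
    ((rt (f : K) (p ^ N) false).ncard : ℤ) - (rt (f : K) (p ^ N) true).ncard =
      2 * quadraticChar (Count.Fx p K N) f := by
  have := Count.charP p K
  have o : Odd (p ^ N) := ((Fact.out : p.Prime).odd_of_ne_two hp).pow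
  obtain ⟨z, hz⟩ := IsAlgClosed.exists_pow_nat_eq (f : K) two_pos
  by_cases h0 : f = 0
  · have : rt (f : K) (p ^ N) false = rt (f : K) (p ^ N) true := Set.ext fun w =>
      and_congr_right fun e => by
        rw [h0, ZeroMemClass.coe_zero, pow_eq_zero_iff two_ne_zero] at e
        simp [e]
    rw [this, sub_self, h0, quadraticChar_zero, mul_zero]
  have z0 : z ≠ 0 := fun e => h0 (Subtype.ext (by rw [← hz, e]; simp))
  have t0 : (2 : K) ≠ 0 := fun e => hp ((Nat.prime_dvd_prime_iff_eq Fact.out Nat.prime_two).1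
    ((CharP.cast_eq_zero_iff K p 2).1 (by exact_mod_cast e)))
  have n1 : z ≠ -z := fun e => mul_ne_zero t0 z0 (by linear_combination e)
  have n2 : -z ≠ z := n1.symm
  have key : ∀ ε : Bool, (z ^ p ^ N = bif ε then -z else z) →
      (rt (f : K) (p ^ N) ε).ncard = 2 ∧ (rt (f : K) (p ^ N) (!ε)).ncard = 0 := fun ε e => by
    refine ⟨(congrArg _ (Set.ext fun w => ?_)).trans (Set.ncard_pair n1),
      (congrArg _ (Set.eq_empty_of_forall_notMem fun w hw => ?_)).trans (Set.ncard_empty _)⟩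
    · refine ⟨fun hw => sq_eq_sq_iff_eq_or_eq_neg.1 (hw.1.trans hz.symm), ?_⟩
      rintro (rfl | rfl)
      · exact ⟨hz, e⟩
      · exact ⟨by rw [neg_sq, hz], by rw [o.neg_pow, e]; cases ε <;> rfl⟩
    · have a := hw.2
      rcases sq_eq_sq_iff_eq_or_eq_neg.1 (hw.1.trans hz.symm) with rfl | rfl
      · rw [e] at a
        cases ε
        exacts [n1 a, n2 a]
      · rw [o.neg_pow, e] at a
        cases ε
        exacts [n1 (neg_injective a), n2 (neg_injective a)]
  have e : (z ^ p ^ N) ^ 2 = z ^ 2 := by rw [pow_right_comm, hz]; exact f.2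
  rcases sq_eq_sq_iff_eq_or_eq_neg.1 e with e | e
  · obtain ⟨a, b⟩ := key false e
    rw [a, show (rt (f : K) (p ^ N) true).ncard = 0 from b, (quadraticChar_one_iff_isSquare h0).2
      ⟨⟨z, e⟩, Subtype.ext (hz.symm.trans (sq z))⟩]
    rfl
  · obtain ⟨a, b⟩ := key true e
    rw [a, show (rt (f : K) (p ^ N) false).ncard = 0 from b,
      quadraticChar_neg_one_iff_not_isSquare.2 ?_]
    · rfl
    · rintro ⟨w, hw⟩
      have c : (w : K) ^ p ^ N = w := w.2
      rcases sq_eq_sq_iff_eq_or_eq_neg.1 (hz.trans ((congrArg Subtype.val hw).trans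
        (sq (w : K)).symm)) with rfl | rfl
      · exact n1 (c.symm.trans e)
      · rw [o.neg_pow, c] at e
        exact n1 e

omit [IsAlgClosed K] in
open Classical in
theorem cn_eq {N : ℕ} [Fintype (Count.Fx p K N)] (n : ℕ) (lam : Count.Fx p K N) (ε : Bool) :
    cn n (lam : K) (p ^ N) ε = ∑ X : Fin n → Count.Fx p K N with ∏ i, X i = 1,
      (rt ((∑ i, X i + lam : Count.Fx p K N) : K) (p ^ N) ε).ncard := by
  have := fun X : {X : Fin n → Count.Fx p K N // ∏ i, X i = 1} =>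
    (fin ((∑ i, X.1 i + lam : Count.Fx p K N) : K) (p ^ N) ε).to_subtype
  rw [Finset.sum_subtype (p := fun X : Fin n → Count.Fx p K N => ∏ i, X i = 1) _ (by simp)]
  simp only [← Nat.card_coe_set_eq]
  rw [← Nat.card_sigma, cn]
  refine (Nat.card_eq_of_bijective (fun A => ⟨(fun i => A.1.1 i, A.2.1),
    Eq.trans (by push_cast; rfl) (congrArg Subtype.val A.1.2), A.2.2.1.trans (by push_cast; rfl),
    fun i => (A.1.1 i).2, A.2.2.2⟩) ⟨?_, ?_⟩).symm
  · rintro ⟨⟨X, hX⟩, z, hz⟩ ⟨⟨X', hX'⟩, z', hz'⟩ e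
    obtain ⟨e1, e2⟩ := Prod.mk.inj (congrArg Subtype.val e)
    obtain rfl : X = X' := funext fun i => Subtype.ext (congrFun e1 i)
    obtain rfl : z = z' := e2
    rfl
  · rintro ⟨⟨X, z⟩, h1, h2, h3, h4⟩
    exact ⟨⟨⟨fun i => ⟨X i, h3 i⟩, Subtype.ext (by push_cast; exact h1)⟩, z,
      h2.trans (by push_cast; rfl), h4⟩, rfl⟩

end NS2a

theorem NS2_thm {p : ℕ} [Fact p.Prime] : NS2 p := ⟨fun hp N _ _ n lam => by
  rw [NS2a.cn_eq, NS2a.cn_eq, Finset.mul_sum]
  push_cast
  rw [← Finset.sum_sub_distrib]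
  exact Finset.sum_congr rfl fun X _ => by exact_mod_cast NS2a.fib hp (∑ i, X i + lam)⟩

end Pool.Agent.Lib.MP_557161_ag.HG.MC
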