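import Pool.Agent.Lib.MP_557161_ag.MC.NT1

/-!
The equations of the product of matrices, generated once.
-/

namespace Pool.Agent.Lib.MP_557161_ag.HG.MC

theorem prM_once : True := by
  have := @prM.eq_def
  have := @prM.eq_1
  have := @prM.eq_2
  trivial

end Pool.Agent.Lib.MP_557161_ag.HG.MC
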