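import Pool.Agent.Lib.MP_557161_ag.MC.StY

/-!
The intersection with the diagonal, by deformation to the normal cone. Definitions and statements.
-/

namespace Pool.Agent.Lib.MP_557161_ag.HG.MC

open Pool.Agent.Lib.MP_557161_ag.DL MvPolynomial

variable [Rk]

section Defs

variable {K : Type} [Field K] {d : Cd}

namespace GD

variable (G : GD K)

/-- The weights on the product with `W`. -/
abbrev Γ1 (d : Cd) : Wt (cw.prod d) := G.Γ.prod (.triv d)

/-- The product of the variety with `W`. -/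
noncomputable abbrev B1 (W : ASp K d) : QS K (G.Γ1 d) := G.CC.pw W

/-- The tangent bundle of the torsor. -/
noncomputable def kb [X0 K] (W : ASp K d) : K2 (G.B1 W) Vr (wv G.toFan) (wγ G.toFan) where
  n L b := G.row L b.1
  hom r _ := ⟨fun _ _ _ _ _ _ _ e => Rel.aeval e.1 _,
    fun _ _ x h0 _ => aeval_scl ((G.homE r).pderiv (sub_add_cancel _ _)) h0 x.1⟩
  uni L b h := X0.sm G L b.1 h.1

/-- The weights on the square of the torsor times `W` times the line. -/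
abbrev ΓJ (d : Cd) : Wt (((cw.prod d).prod cw).prod .one) :=
  ((G.Γ1 d).prod (.vec (wv G.toFan))).prod (.triv .one)

/-- The points `(((y', w), y), t)`, `y'` and `y` on the torsor, `t ≠ 0`. -/
noncomputable def JT (W : ASp K d) : QS K (G.ΓJ d) where
  S := ((G.B1 W).S.prod G.CC.S).prod (.gm K)
  inv L a _ h0 h := ⟨⟨(G.B1 W).inv L a _ h0 h.1.1, G.CC.inv L a _ h0 h.1.2⟩, h.2⟩
  nz L x h := Wt.nz_prod _ _ (Wt.nz_prod _ _ ((G.B1 W).nz L _ h.1.1) x.1.2) x.2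

variable {W : ASp K d} {j k : ℕ}

/-- `θ` is the composition of the intersection with the zero section, of the projection to `W` and
of `φ`. -/
def Th [X0 K] (φ : AF j W) (θ : QF (j + dm) (G.kb W).tot) : Prop :=
  ∃ φ₁ : QF j (G.B1 W), (∀ L y w, G.Cn L y → φ₁.mq L (y, w) = φ.a L w) ∧
    IsUp (G.kb W).tot dm j φ₁.mq θ.mq

open Classical in
/-- `Ψ` is the composition of the specialisation to the normal cone and of `θ`. -/
def IsDf [X0 K] (θ : QF j (G.kb W).tot) (Ψ : QF (j + 1) (G.JT W)) : Prop :=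
  ∀ (M : Fld K) (y' y : Vr → M) (w : d.X M) (t : M), Good (j + 1) M → G.Cn M y' → W.mem M w →
    G.Cn M y → t ≠ 0 → HasS (fun O : Dv M j => if 0 < O.1.ord t then
      (O.1.ord t : ℂ) * θ.mr O.1 ((y', w), t⁻¹ • (y - y')) else 0) (Ψ.mq M (((y', w), y), t))

/-- `Ψ` is the composition of the intersection with the diagonal, of the projection to `W` and of
`φ`. -/
def Con [X0 K] (φ : AF j W) (Ψ : QF (j + dm + 1) (G.JT W)) : Prop :=
  ∃ θ, G.Th φ θ ∧ G.IsDf θ Ψ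

/-- The point over `(A, B, w)` with parameters `T`. -/
noncomputable def jp {M N : Fld K} (β : M →ₐ[K] N) (T : Option Tr → N) (A B : xz.X M)
    (w : d.X M) : (((cw.prod d).prod cw).prod .one).X N :=
  (((G.sec N (xz.map β B), d.map β w), G.Γ.scl (fun s => T (some s)) (G.sec N (xz.map β A))),
    T none)

/-- `Φ` is the restriction of `c` times the antisymmetrisation of `Ψ`. -/
def IsAff (c : ℂ) (Ψ : QF k (G.JT W)) (Φ : AF j ((G.UU.prod G.UU).prod W)) : Prop :=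
  ∀ (L M : Fld K) (α : L →ₐ[K] M) (T : Option Tr → M) (A B : xz.X L) (w : d.X L), Free j α T →
    G.UU.mem L A → G.UU.mem L B → W.mem L w →
    Φ.a L ((A, B), w) = c * ∑ ε : Bool, ∑ ε' : Bool, sn ε * sn ε' *
      Ψ.mq M (G.jp α T (sg ε L A) (sg ε' L B) w)

/-- `(y, t)` is a generic point of the product of the torsor with a line. -/
structure GenC (j : ℕ) {L M : Fld K} (α : L →ₐ[K] M) (y : Vr → M) (t : M) : Prop where
  gL : Good j L
  gM : Good (j + dm + 1) M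
  mem : G.Cn M y
  top : gen α (Sum.elim y fun _ : Unit => t) = ⊤

end GD

end Defs

variable (K : Type) [Field K]

/-- Points of the variety. -/
class YA : Prop where
  cmp : ∀ {G : GD K} {M : Fld K} (O : Pl M) {w : Vr → M}, G.Cn M w → ∃ u w', G.Γ.Ch u w ∧
    G.Cn O.res w' ∧ cw.lift (Rel.ofPl O).r (G.Γ.scl (G.Γ.nm u w) w) w'
  taylor : ∀ (G : GD K) (r : Fin 2), ∃ H : MvPolynomial ((Vr ⊕ Vr) ⊕ Unit) K,
    ∀ (L : Fld K) (y v : Vr → L) (t : L),
      t * aeval (Sum.elim (Sum.elim y v) fun _ => t) H =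
        aeval (y + t • v) (G.E r) - aeval y (G.E r) ∧
      aeval (Sum.elim (Sum.elim y v) fun _ => (0 : L)) H = ∑ μ, G.row L y r μ * v μ ∧
      ∀ a : Tr → L, Un a → aeval (Sum.elim (Sum.elim (G.Γ.scl a y) (G.Γ.scl a v)) fun _ => t) H =
        wt a (wγ G.toFan r) * aeval (Sum.elim (Sum.elim y v) fun _ => t) H
  genC : ∀ {G : GD K} {j : ℕ} {L M N : Fld K} {α : L →ₐ[K] M} {y : xz.X M}, G.GenU j α y →
    ∀ (β : M →ₐ[K] N) (b : Tr → N) (t : N), Good (j + dm + 1) N → Un b →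
      gen β (Sum.elim b fun _ : Unit => t) = ⊤ →
      G.GenC j (β.comp α) (G.Γ.scl b (G.sec N (xz.map β y))) t
  exC : ∀ (G : GD K) {j : ℕ} {L : Fld K}, Good j L →
    ∃ (M : Fld K) (α : L →ₐ[K] M) (y : Vr → M) (t : M), G.GenC j α y t
  co : ∀ {G : GD K} {j : ℕ} {L M : Fld K} {α : L →ₐ[K] M} {y : Vr → M} {t : M}, G.GenC j α y t →
    G.Co M y
  ne : ∀ {G : GD K} {j : ℕ} {L M : Fld K} {α : L →ₐ[K] M} {y : Vr → M} {t : M}, G.GenC j α y t →
    ∀ r, y (some r) ≠ 0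
  uq : ∀ {G : GD K} {j : ℕ} {L M M' : Fld K} {α : L →ₐ[K] M} {α' : L →ₐ[K] M'} {y : Vr → M}
    {y' : Vr → M'} {t : M} {t' : M'}, G.GenC j α y t → G.GenC j α' y' t' →
    ∃ ρ : M →ₐ[K] M', ρ.comp α = α' ∧ (∀ l, ρ (y l) = y' l) ∧ ρ t = t' ∧ Function.Bijective ρ

/-- Functionals that vanish on exterior products vanish over the boundary. -/
class YB : Prop where
  bd : ∀ (G : GD K) {j : ℕ} (φ : Fn j (G.CC.sp.prod G.CC.sp)), φ.Kills →
    ∀ (L : Fld K) (w : Vr → L) (E : (G.Γ.amb K).pt L), G.BO.mem L w →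
      φ.v L (G.Γ.pt w, E) = 0 ∧ φ.v L (E, G.Γ.pt w) = 0

/-- Functionals that vanish on exterior products and over the boundary are antisymmetric and live
over the open part. -/
class YQ : Prop where
  aff : ∀ (G : GD K) {j : ℕ} (φ : Fe j (G.CC.sp.prod G.CC.sp)), KlA φ.toPre →
    (∀ (L : Fld K) (w : Vr → L) (E : (G.Γ.amb K).pt L), G.BO.mem L w →
      φ.v L (G.Γ.pt w, E) = 0 ∧ φ.v L (E, G.Γ.pt w) = 0) →
    ∃ Φ : AF j (G.UU.pi Bool), (∀ L x, (G.UU.pi Bool).mem L x →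
      Φ.a L x = φ.v L (G.Γ.pt (G.sec L (x true)), G.Γ.pt (G.sec L (x false)))) ∧ AntiP Φ.a ∧
      KlP (Cd.pi Bool xz) (fun s => s.1 = true) j Φ.a

/-- Antisymmetric functionals live on the open part. -/
class YW : Prop where
  aff : ∀ (G : GD K) {d : Cd} {W : ASp K d} {j k : ℕ}, k = j + (Rk.t + 2) →
    ∀ (c : ℂ) (Ψ : QF k (G.JT W)), ∃ Φ : AF j ((G.UU.prod G.UU).prod W), G.IsAff c Ψ Φ

variable [X0 K]

/-- The intersection with the zero section of the tangent bundle. -/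
class YT : Prop where
  ex : ∀ (G : GD K) {d : Cd} {W : ASp K d} {j : ℕ} (φ : AF j W), ∃ θ, G.Th φ θ
  kills : ∀ {G : GD K} {d : Cd} {W : ASp K d} {j : ℕ} {φ : AF j W} {θ}, G.Th φ θ →
    ∀ q : d.ι → Prop, KlP d q j φ.a → KlP ((cw.prod d).prod cw)
      (Sum.elim (Sum.elim (fun _ => True) q) fun _ => True) (j + dm) θ.mq
  nat : ∀ {G : GD K} {d d' : Cd} {W : ASp K d} {W' : ASp K d'} {j : ℕ} {φ : AF j W}
    {φ' : AF j W'} {θ θ'}, G.Th φ θ → G.Th φ' θ' → ∀ {g : ∀ L : Fld K, d'.X L → d.X L},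
    Mp W' W g → Pro W' W g → ∀ χ : ℂ, (∀ L w, W'.mem L w → φ'.a L w = χ * φ.a L (g L w)) →
    ∀ (L : Fld K) y (w : d'.X L) v, W'.mem L w →
      θ'.mq L ((y, w), v) = χ * θ.mq L ((y, g L w), v)
  low : ∀ {G : GD K} {d : Cd} {W : ASp K d} {j m : ℕ} (θ : QF (j + dm) (G.kb W).tot) {L : Fld K}
    {b : (cw.prod d).X L} (v), (cw.prod d).Dm L b m → m < j → θ.mq L (b, v) = 0
  val : ∀ {G : GD K} {d : Cd} {W : ASp K d} {j : ℕ} {φ : AF j W} {θ}, G.Th φ θ →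
    ∀ {L M : Fld K} {α : L →ₐ[K] M} {y : Vr → L} (w : d.X L) {v : Vr → M},
    Good j L → Good (j + dm) M → gen α v = ⊤ → G.Cn L y → W.mem L w →
    (∀ r, ∑ μ, G.row M (cw.map α y) r μ * v μ = 0) →
    θ.mq M ((cw.map α y, d.map α w), v) = φ.a L w
  neg : ∀ {G : GD K} {d : Cd} {W : ASp K d} {i : ℕ} (θ : QF i (G.kb W).tot) (L : Fld K)
    (b : (cw.prod d).X L) (v : Vr → L), θ.mq L (b, -v) = θ.mq L (b, v)

/-- The specialisation to the normal cone. -/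
class YD : Prop where
  ex : ∀ (G : GD K) {d : Cd} {W : ASp K d} {j : ℕ} (θ : QF j (G.kb W).tot), ∃ Ψ, G.IsDf θ Ψ

/-- Naturality and exterior products. -/
class YN : Prop where
  nat : ∀ {G : GD K} {d d' : Cd} {W : ASp K d} {W' : ASp K d'} {j : ℕ} {φ : AF j W}
    {φ' : AF j W'} {Ψ Ψ'}, G.Con φ Ψ → G.Con φ' Ψ' → ∀ {g : ∀ L : Fld K, d'.X L → d.X L},
    Mp W' W g → Pro W' W g → ∀ χ : ℂ, (∀ L w, W'.mem L w → φ'.a L w = χ * φ.a L (g L w)) →
    ∀ (L : Fld K) y' y t (w : d'.X L), W'.mem L w →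
      Ψ'.mq L (((y', w), y), t) = χ * Ψ.mq L (((y', g L w), y), t)
  kills : ∀ {G : GD K} {d : Cd} {W : ASp K d} {j : ℕ} {φ : AF j W} {Ψ}, G.Con φ Ψ →
    ∀ q : d.ι → Prop, KlP d q j φ.a → KlP (((cw.prod d).prod cw).prod .one)
      (Sum.elim (Sum.elim (Sum.elim (fun _ => True) q) fun _ => True) fun _ => True)
      (j + dm + 1) Ψ.mq

omit [X0 K] in
/-- The place of the blow-up of a rational point. -/
class YP : Prop where
  pt : ∀ {G : GD K} {j : ℕ} {L M : Fld K} {α : L →ₐ[K] M} {y : Vr → M} {t : M},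
    G.GenC j α y t → ∀ R : Vr → L, G.Cn L R → ∀ v : Vr → M, v = t⁻¹ • (cw.map α R - y) →
    ∃ (O : Dv M (j + dm)) (h : Pl.Triv α O.1), O.1.ord t = 1 ∧ IntV O.1 v ∧
      gen h.hom (rdV O.1 v) = ⊤ ∧
      (∀ r, ∑ μ, G.row O.1.res (cw.map h.hom R) r μ * rdV O.1 v μ = 0) ∧
      ∀ (O' : Pl M) (h' : Pl.Triv α O'), O'.IsDVR → O' ≠ O.1 → t ∈ O'.O → O'.rd t = 0 → IntV O' v →
        (O'.res.sub (gen h'.hom (rdV O' v))).tr ≤ (j + dl : ℕ)

/-- The diagonal is the unit. -/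
class YU : Prop where
  unit : ∀ {G : GD K} {c d : Cd} {S : ASp K c} {W : ASp K d} {j : ℕ} {φ : AF j W} {Ψ},
    G.Con φ Ψ → ∀ {g : ∀ L : Fld K, (xz.prod c).X L → d.X L}, Mp (G.UU.prod S) W g →
    Pro (G.UU.prod S) W g → ∀ {L M N : Fld K} {α : L →ₐ[K] M} {y : xz.X M}, G.GenU j α y →
    ∀ (R : xz.X L) (u : c.X L), G.UU.mem L R → S.mem L u → ∀ (β : M →ₐ[K] N) (T : Option Tr → N),
      Free (j + 2 * dd) β T →
      Ψ.mq N (G.jp β T (xz.map α R) y (g M (y, c.map α u))) = φ.a L (g L (R, u))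

/-- The fixed point formula. -/
class YL (p : ℕ) : Prop where
  loop : ∀ {G : GD K} {d : Cd} {W : ASp K d} {j : ℕ} {φ : AF j W} {Ψ}, G.Con φ Ψ → ∀ {Q : ℕ},
    1 < Q → G.Fr p Q → ∀ {L M N : Fld K} {α : L →ₐ[K] M} {y : xz.X M}, G.GenU j α y →
    ∀ w : d.X L, W.mem L w → ∀ (ε : Bool) (β : M →ₐ[K] N) (T : Option Tr → N),
      Free (j + 2 * dd) β T →
      Ψ.mq N (G.jp β T (sg ε M (frb Q M y)) y (d.map α w)) = G.fx Q ε * φ.a L w

/-- The symmetry. -/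
class YS : Prop where
  swap : ∀ {G : GD K} {d : Cd} {W : ASp K d} {i j : ℕ} {θ : QF i (G.kb W).tot} {Ψ},
    G.IsDf θ Ψ → ∀ {c : ℂ} {Φ : AF j ((G.UU.prod G.UU).prod W)}, G.IsAff c Ψ Φ →
    ∀ (L : Fld K) (A B : xz.X L) (w : d.X L), Φ.a L ((A, B), w) = Φ.a L ((B, A), w)

/-- The self intersection of the diagonal and its intersection with the graph of the involution are
constants. -/
class YZ : Prop where
  diag : ∀ G : GD K, ∃ c : Bool → ℂ, ∀ {d : Cd} {W : ASp K d} {j : ℕ} {φ : AF j W} {Ψ},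
    G.Con φ Ψ → ∀ {L M N : Fld K} {α : L →ₐ[K] M} {y : xz.X M}, G.GenU j α y →
    ∀ w : d.X L, W.mem L w → ∀ (ε : Bool) (β : M →ₐ[K] N) (T : Option Tr → N),
      Free (j + 2 * dd) β T → Ψ.mq N (G.jp β T (sg ε M y) y (d.map α w)) = c ε * φ.a L w

end Pool.Agent.Lib.MP_557161_ag.HG.MC
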