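import Pool.Agent.Lib.MP_557161_ag.MC.StY

/-! The section and the projection. -/

namespace Pool.Agent.Lib.MP_557161_ag.HG.MC

open Pool.Agent.Lib.MP_557161_ag.DL MvPolynomial

variable [Rk]

namespace X1a

omit [Rk] in
lemma zadd {L : Type} [Field L] {x : L} {m n : ℤ} (h : x ≠ 0 ∨ (0 ≤ m ∧ 0 ≤ n)) :
    x ^ (m + n) = x ^ m * x ^ n := by
  rcases h with h | ⟨h1, h2⟩
  · exact zpow_add₀ h m n
  · lift m to ℕ using h1
    lift n to ℕ using h2
    rw [← Nat.cast_add, zpow_natCast, zpow_natCast, zpow_natCast, pow_add]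

omit [Rk] in
lemma ev_none (D : ℕ) (i : Fin (D + 1)) : ev D i none = 0 := by
  cases i using Fin.cases <;> simp [ev]

omit [Rk] in
lemma sum_ev (D : ℕ) : ∑ i, ev D i = 0 := by
  funext l
  cases l with
  | none => simp only [Finset.sum_apply, ev_none, Finset.sum_const_zero, Pi.zero_apply]
  | some l => simp [ev, Fin.sum_univ_succ, Finset.sum_apply, Pi.single_apply]

lemma wt_zsmul {L : Type} [Field L] (a : Tr → L) (n : ℤ) (k : Tr → ℤ) :
    wt a (n • k) = wt a k ^ n := by
  simp only [wt, Pi.smul_apply, smul_eq_mul, ← Finset.prod_zpow, ← zpow_mul, mul_comm]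

variable {K : Type} [Field K] [X3] (G : GD K)

lemma hz (k : Jx → ℤ) : G.ρ (.inr none) ⬝ᵥ k = k none := by
  rw [(X3.z G.toTD).1, single_dotProduct, one_mul]

omit [X3] in
lemma ea0 (r : Ry) (s : Sd (2 * dd)) :
    (G.ea r s : ℤ) = G.ea r (some none) + G.ρ r ⬝ᵥ sp _ s := by
  rw [G.ea_eq, G.ea_eq]
  have : sp (2 * dd) (some none) = 0 := rfl
  rw [this, dotProduct_zero]
  ring

lemma eaz : G.ea (.inr none) (some none) = 0 := by
  have h := G.ea_eq (.inr none) (some none)
  have : sp (2 * dd) (some none) = 0 := rfl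
  rw [this, dotProduct_zero, (X3.z G.toTD).2.1, sub_zero] at h
  exact_mod_cast h

variable {G} {L : Type} [Field L] {w : Vr → L}

lemma lm_add (h : ∀ r, r ≠ .inr none → w (some r) ≠ 0) (k k' : Jx → ℤ) (h1 : 0 ≤ k none)
    (h2 : 0 ≤ k' none) : G.lm w (k + k') = G.lm w k * G.lm w k' := by
  rw [GD.lm, GD.lm, GD.lm, ← Finset.prod_mul_distrib]
  refine Finset.prod_congr rfl fun r _ => ?_
  rw [dotProduct_add]
  refine zadd ?_
  by_cases e : r = .inr none
  · subst e
    rw [hz, hz]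
    exact .inr ⟨h1, h2⟩
  · exact .inl (h r e)

omit [X3] in
lemma lm_zero (w : Vr → L) : G.lm w 0 = 1 := by simp [GD.lm]

lemma lm_two (h : ∀ r, r ≠ .inr none → w (some r) ≠ 0) :
    G.lm w (Pi.single none 2) = G.lm w (Pi.single none 1) ^ 2 := by
  rw [pow_two, ← lm_add h _ _ (by simp) (by simp), ← Pi.single_add]
  rfl

lemma prod_ev (h : ∀ r, r ≠ .inr none → w (some r) ≠ 0) : ∏ i, G.lm w (ev _ i) = 1 := by
  simp only [GD.lm]
  rw [Finset.prod_comm]
  refine Finset.prod_eq_one fun r _ => ?_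
  by_cases e : r = .inr none
  · subst e
    simp only [hz, ev_none, zpow_zero, Finset.prod_const_one]
  · rw [prod_zpow_sum (h r e), ← dotProduct_sum, sum_ev, dotProduct_zero, zpow_zero]

lemma lm_exp (h : ∀ r, r ≠ .inr none → w (some r) ≠ 0) (k : Jx → ℤ) :
    G.lm w k = G.lm w (Pi.single none 1) ^ k none *
      ∏ i : Fin (2 * dd), G.lm w (ev _ i.succ) ^ k (some i) := by
  simp only [GD.lm, ← Finset.prod_zpow, ← zpow_mul]
  rw [Finset.prod_comm, ← Finset.prod_mul_distrib]
  refine Finset.prod_congr rfl fun r _ => ?_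
  by_cases e : r = .inr none
  · subst e
    simp only [hz, ev_none, zero_mul, zpow_zero, Finset.prod_const_one, Pi.single_eq_same, one_mul,
      mul_one]
  · rw [prod_zpow_sum (h r e), ← zpow_add₀ (h r e)]
    congr 1
    simp only [ev, Fin.cases_succ, dotProduct_single, mul_one]
    rw [dotProduct, Fintype.sum_option]

omit [X3] in
lemma lm_scl {a : Tr → L} (w : Vr → L) (h : Un a) (k : Jx → ℤ) :
    G.lm (G.Γ.scl a w) k = G.lm w k := by
  have e : ∏ r, wt a (wv G.toFan (some r)) ^ (G.ρ r ⬝ᵥ k) = 1 := by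
    simp only [← wt_zsmul]
    rw [← wt_sum h, wv_rel _ G.base, wt_zero]
  simp only [GD.lm, mul_zpow, Finset.prod_mul_distrib]
  rw [e, one_mul]

end X1a

namespace X1a

variable {K : Type} [Field K] [X3] {G : GD K} {L : Fld K} {w : Vr → L}

lemma ms_lm (h : ∀ r, r ≠ .inr none → w (some r) ≠ 0) (s : Sd (2 * dd)) :
    G.ms s L w = G.bd L w * G.lm w (sp _ s) := by
  simp only [GD.ms, GD.bd, mon, GD.lm, ← Finset.prod_mul_distrib]
  refine Finset.prod_congr rfl fun r _ => ?_
  rw [← zpow_natCast, ← zpow_natCast, ea0]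
  refine zadd ?_
  by_cases e : r = .inr none
  · subst e
    refine .inr ⟨Int.natCast_nonneg _, ?_⟩
    have := ea0 G (.inr none) s
    rw [eaz, Nat.cast_zero, zero_add] at this
    exact this ▸ Int.natCast_nonneg _
  · exact .inl (h r e)

lemma e1 (h : ∀ r, r ≠ .inr none → w (some r) ≠ 0) :
    aeval w (G.E 1) = G.bd L w * ((G.pr L w).2 ^ 2 - G.om L (G.pr L w).1) := by
  have e : ∀ s, mon (G.ea · s) w = G.bd L w * G.lm w (sp _ s) := ms_lm h
  rw [eqs1]
  simp only [e, Fintype.sum_option, cfs, sp, Option.elim, map_one, map_neg, lm_zero, lm_two h,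
    GD.pr, GD.om, neg_mul, one_mul, Finset.sum_neg_distrib, ← Finset.mul_sum]
  ring

lemma co [XU] : G.Co L w ↔ G.Cn L w ∧ ∀ r, r ≠ .inr none → w (some r) ≠ 0 := by
  refine and_congr_right fun h => ⟨fun n r e z => ?_, fun n => ?_⟩
  · obtain ⟨v, hv⟩ := (XU.ch G.toTD).1 h.1
    by_cases k : r ∈ Set.range (G.c v)
    · obtain ⟨j, rfl⟩ := k
      exact n (Finset.prod_eq_zero (Finset.mem_univ (G.c v j))
        (by rw [z]; exact zero_pow (X3.neg G.toTD v j e).1))
    · exact hv r k z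
  · change ∏ r, w (some r) ^ G.ea r (some none) ≠ 0
    refine Finset.prod_ne_zero_iff.2 fun r _ => ?_
    by_cases e : r = .inr none
    · subst e
      simp only [eaz, pow_zero]
      exact one_ne_zero
    · exact pow_ne_zero _ (n r e)

lemma lm_sec {A : xz.X L} (h : ∀ i, A.1 i ≠ 0) (k : Jx → ℤ) :
    G.lm (G.sec L A) k = A.2 ^ k none * ∏ i, A.1 i.succ ^ k (some i) := by
  have e : ∀ i, ∑ j, G.e G.v0 j (some i) * (G.ρ (.inr j) ⬝ᵥ k) = k (some i) := fun i => by
    have := G.expand G.v0 (Pi.single (some i) 1) k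
    simpa only [single_dotProduct, one_mul, G.base] using this
  simp only [GD.lm, GD.sec, Fintype.prod_sum_type, Option.elim, Sum.elim_inl, Sum.elim_inr,
    one_zpow, Finset.prod_const_one, one_mul, mul_zpow, Finset.prod_mul_distrib,
    ← Finset.prod_zpow, ← zpow_mul]
  rw [Finset.prod_comm, Fintype.prod_option]
  simp only [one_zpow, Finset.prod_const_one, mul_one, hz]
  congr 1
  exact Finset.prod_congr rfl fun i _ => by rw [prod_zpow_sum (h _), e]

lemma pr_sec {A : xz.X L} (h : G.UU.mem L A) : G.pr L (G.sec L A) = A := by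
  have n := GD.UU_ne h
  refine Prod.ext (funext fun i => ?_) ?_
  · change G.lm (G.sec L A) (ev _ i) = A.1 i
    rw [lm_sec n, ev_none, zpow_zero, one_mul]
    cases i using Fin.cases with
    | zero =>
      have e := (G.UU_iff.1 h).1
      rw [Fin.prod_univ_succ] at e
      simp only [ev, Fin.cases_zero, Option.elim, zpow_neg_one, Finset.prod_inv_distrib]
      exact (eq_inv_of_mul_eq_one_left e).symm
    | succ i =>
      simp only [ev, Fin.cases_succ, Pi.single_apply, Option.some.injEq]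
      rw [Finset.prod_eq_single i (fun b _ hb => by rw [if_neg hb, zpow_zero]) (by simp),
        if_pos rfl, zpow_one]
  · change G.lm (G.sec L A) (Pi.single none 1) = A.2
    rw [lm_sec n]
    simp

omit [X3] in
lemma sec_ne {A : xz.X L} (h : ∀ i, A.1 i ≠ 0) (r : Ry) (e : r ≠ .inr none) :
    G.sec L A (some r) ≠ 0 := by
  rcases r with τ | _ | j
  · exact one_ne_zero
  · exact (e rfl).elim
  · exact mul_ne_zero one_ne_zero (Finset.prod_ne_zero_iff.2 fun i _ => zpow_ne_zero _ (h _))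

lemma sec_co [XU] {A : xz.X L} (h : G.UU.mem L A) : G.Co L (G.sec L A) := by
  have n := sec_ne (G := G) (GD.UU_ne h)
  refine co.2 ⟨⟨(XU.ch G.toTD).2 ⟨G.v0, fun r hr => n r fun e => hr ⟨none, ?_⟩⟩, fun r => ?_⟩, n⟩
  · rw [e, G.base]
  · fin_cases r
    · exact eqs0 _ _ _
    · refine (e1 n).trans ?_
      rw [pr_sec h, (G.UU_iff.1 h).2, sub_self, mul_zero]

lemma pr_uu [XU] (h : G.Co L w) : G.UU.mem L (G.pr L w) := by
  have n := (co.1 h).2
  refine G.UU_iff.2 ⟨prod_ev n, sub_eq_zero.1 ?_⟩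
  exact (mul_eq_zero.1 ((e1 n).symm.trans (h.1.2 1))).resolve_left h.2

lemma sec_pr [XU] (h : G.Co L w) :
    Un (G.ns L w) ∧ G.sec L (G.pr L w) = G.Γ.scl (G.ns L w) w := by
  have n := (co.1 h).2
  refine ⟨fun s => inv_ne_zero (n _ nofun), funext fun l => ?_⟩
  rcases l with _ | τ | j
  · have e : w none = 0 := (eqs0 G.toFan G.lam w).symm.trans (h.1.2 0)
    change (0 : L) = _ * w none
    rw [e, mul_zero]
  · change (1 : L) = wt (G.ns L w) (Pi.single τ 1) * w (some (.inl τ))
    rw [wt_single, zpow_one]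
    exact (inv_mul_cancel₀ (n (.inl τ) nofun)).symm
  · have e : G.lm w (G.e G.v0 j) =
        wt (G.ns L w) (fun τ => -(G.ρ (.inl τ) ⬝ᵥ G.e G.v0 j)) * w (some (.inr j)) := by
      have d : ∀ i, G.ρ (.inr i) ⬝ᵥ G.e G.v0 j = if i = j then 1 else 0 := fun i => by
        have := G.dual G.v0 i j
        rwa [G.base] at this
      simp only [GD.lm, Fintype.prod_sum_type, wt, GD.ns, inv_zpow', neg_neg, d]
      rw [Finset.prod_eq_single j (fun b _ hb => by rw [if_neg hb, zpow_zero]) (by simp),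
        if_pos rfl, zpow_one]
    refine Eq.trans ?_ e
    rw [lm_exp n, (X3.z G.toTD).2.2]
    cases j with
    | none => rw [if_pos rfl, zpow_one]; rfl
    | some j => rw [if_neg nofun, zpow_zero]; rfl

lemma lm_rel {M : Fld K} (R : Rel M L) {u : Vr → M} (n : ∀ r, r ≠ .inr none → w (some r) ≠ 0)
    (h : ∀ l, R.r (u l) (w l)) (k : Jx → ℤ) (h0 : 0 ≤ k none) : R.r (G.lm u k) (G.lm w k) := by
  refine Rel.prod _ fun r _ => ?_
  by_cases e : r = .inr none
  · subst e
    rw [hz]
    obtain ⟨m, hm⟩ := Int.eq_ofNat_of_zero_le h0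
    rw [hm, zpow_natCast, zpow_natCast]
    exact Rel.pow (h _) m
  · exact Rel.zpow (h _) (n r e) _

end X1a

theorem X1_thm [X3] [XU] {K : Type} [Field K] : X1 K where
  co := X1a.co
  lm_add h := X1a.lm_add h
  ms_lm := X1a.ms_lm
  lm_sec := X1a.lm_sec
  nu_lm {G L w} h := by
    refine ⟨∏ r, w (some r) ^ (-G.φ r),
      Finset.prod_ne_zero_iff.2 fun r _ => zpow_ne_zero _ (h r), fun s => ?_⟩
    simp only [nu, mon, GD.lm, ← Finset.prod_mul_distrib]
    refine Finset.prod_congr rfl fun r _ => ?_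
    rw [← zpow_natCast, G.eb_eq, ← zpow_add₀ (h r), neg_add_eq_sub]
  sec_co := X1a.sec_co
  pr_uu := X1a.pr_uu
  pr_sec := X1a.pr_sec
  sec_pr := X1a.sec_pr
  pr_scl G L a w h := Prod.ext (funext fun _ => X1a.lm_scl w h _) (X1a.lm_scl w h _)
  sec_rel {G M L} R A A' m h l := by
    rcases l with _ | τ | j
    · exact R.zero
    · exact R.one
    · refine R.mul ?_ (Rel.prod _ fun i _ => Rel.zpow (h.1 _) (GD.UU_ne m _) _)
      cases j
      exacts [h.2, R.one]
  pr_rel {G M L} R w w' m h :=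
    have n := (X1a.co.1 m).2
    ⟨⟨fun i => X1a.lm_rel R n h _ (X1a.ev_none _ i).ge, X1a.lm_rel R n h _ (by simp)⟩,
      fun s => R.inv (h _) (n _ nofun)⟩
  sec_map G L M α A := by
    funext l
    rcases l with _ | τ | _ | j <;> simp [GD.sec, map_prod, map_zpow₀]
  pr_map G L M α w := by
    refine Prod.ext (funext fun i => ?_) ?_ <;> simp [GD.pr, GD.lm, map_prod, map_zpow₀]
  sec_mem G L F A h l := by
    rcases l with _ | τ | j
    · exact zero_mem _
    · exact one_mem _
    · refine mul_mem ?_ (prod_mem fun i _ => zpow_mem (h (.inl i.succ)) _)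
      cases j
      exacts [h (.inr ()), one_mem _]
  pr_mem G L F w h := by
    have e : ∀ k, G.lm w k ∈ F := fun k => prod_mem fun r _ => zpow_mem (h _) _
    refine ⟨fun i => ?_, fun s => inv_mem (h _)⟩
    cases i <;> exact e _

end Pool.Agent.Lib.MP_557161_ag.HG.MC
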