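import Pool.Agent.Lib.MP_557161_ag.MC.StV
import Pool.Agent.Lib.MP_557161_ag.DL.CKL1

/-!
Functionals that vanish on exterior products vanish over the boundary.
-/

namespace Pool.Agent.Lib.MP_557161_ag.HG.MC

open Pool.Agent.Lib.MP_557161_ag.DL

variable [Rk] {K : Type} [Field K]

namespace YBa

/-- The inclusion of the boundary. -/
noncomputable def inc (G : GD K) : Mor G.BO.sp G.CC.sp :=
  Mor.incl fun _ _ h => h.imp fun _ m => ⟨m.1.1, m.2⟩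

lemma inc_proper (G : GD K) : (inc G).Proper := by
  rintro M O _ - ⟨x, hx, rfl⟩ ⟨y, hy, e⟩
  obtain ⟨u, x', hu, h1, -, h2⟩ := G.Γ.qred_nz e.symm (G.CC.nz _ _ hy)
  have h3 := G.CC.mem_of_pt hy h2.symm
  have h4 := G.BO.inv M _ x (Wt.nm_un hu) hx
  exact ⟨x', ⟨h3, Rel.eq_zero (G.hom_bd.reg _ h4.1 h3 h1) h4.2⟩, h2.trans e⟩

variable [Base K] [CB K]

lemma van (G : GD K) {B : Amb K} (Z : Sp B) : DL.Van G.BO.sp Z :=
  CKL.van_image (Y' := G.BO.sp.prod (Sp.point K)) ⟨fun y => y.1, fun _ h => h.1,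
    fun _ _ _ => rfl, fun _ _ _ _ _ => rfl⟩ (fun _ _ _ _ h => ⟨h, trivial⟩)
    (fun _ _ y hy => ⟨(y, ()), ⟨hy, trivial⟩, rfl⟩) (CB.ck G _ _ _ _ (van_point Z))

lemma left (G : GD K) {j : ℕ} (φ : Fn j (G.CC.sp.prod G.CC.sp)) (hk : φ.Kills) (L : Fld K)
    (w : Vr → L) (E : (G.Γ.amb K).pt L) (hw : G.BO.mem L w) : φ.v L (G.Γ.pt w, E) = 0 := by
  by_contra h
  exact h ((Fn.pull_of_mem ((inc G).prod G.CC.sp) (Mor.Proper.prod (inc_proper G) _) φ (y := (G.Γ.pt w, E))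
    ⟨⟨w, hw, rfl⟩, (φ.supp L _ h).2.2⟩).symm.trans
      (van G _ j _ (hk.pull (inc G) (inc_proper G)) L _))

end YBa

theorem YB_thm [Base K] [CB K] : YB K := ⟨fun G j φ hk L w E hw => by
  refine ⟨YBa.left G φ hk L w E hw, ?_⟩
  let t : Mor (G.CC.sp.prod G.CC.sp) (G.CC.sp.prod G.CC.sp) :=
    ⟨fun y => y.swap, fun _ h => ⟨h.2, h.1⟩, fun _ _ _ => rfl, fun _ _ _ _ _ => rfl⟩
  have tp : t.Proper := fun _ _ _ _ h => ⟨h.2, h.1⟩
  have h := YBa.left G (φ.pull t tp) (fun L L₁ L₂ ι₁ ι₂ y z hj => ?_) L w E hw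
  · by_contra h'
    exact h' ((Fn.pull_of_mem t tp φ (y := (G.Γ.pt w, E))
      ⟨(φ.supp L _ h').2.2, (φ.supp L _ h').2.1⟩).symm.trans h)
  · by_contra h'
    exact h' ((Fn.pull_of_mem t tp φ (Fn.supp _ _ _ h').2).trans
      (hk L L₂ L₁ ι₂ ι₁ z y (add_comm L₁.tr _ ▸ hj)))⟩

end Pool.Agent.Lib.MP_557161_ag.HG.MC

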